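import Mathlib
import Pool.Agent.H3.Frg4.Cnf

set_option autoImplicit false
set_option linter.unusedSectionVars false

/-!
# The tautologies of the lower bound as Tseitin formulas of multigraphs (THEOREM AG, MP_576eff_lc)
-/

namespace Pool.Agent.H55.AG

open Finset Pool.Agent.H3.Frg Pool.Agent.H3.Frg2 Pool.Agent.H3.Frg3 Pool.Agent.H3.Frg4

/-- the clauses `C i` are the clauses of the Tseitin formula of a multigraph with `N` vertices and
degree at most `Dm`, with odd charge only at `v1`; the edges are numbered by `ψ` -/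
structure GPs {E Wv : Type} [Fintype E] [DecidableEq E] [Fintype Wv] [DecidableEq Wv]
    (src tgt : E → Wv) (v1 : Wv) (v0 : E) (ψ : E ≃ Fin (Fintype.card E))
    (idx : ℕ → (Σ _ : Wv, Finset E)) (Dm N : ℕ) (C : ℕ → Fm ℕ) : Prop where
  cW : Fintype.card Wv = N
  cE : Fintype.card E ≤ Dm * N
  loop : ∀ e, src e ≠ tgt e
  deg : ∀ w, (bd src tgt {w}).card ≤ Dm
  ne : ∀ w, (bd src tgt {w}).Nonempty
  mem : ∀ i, idx i ∈ Idx src tgt v1
  sur : ∀ p ∈ Idx src tgt v1, ∃ i, idx i = p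
  eq : ∀ i, C i = (clp src tgt v0 (idx i)).ren fun e => ((ψ e : Fin _) : ℕ)

/-- existential form of `GPs` -/
def GP (Dm N : ℕ) (C : ℕ → Fm ℕ) : Prop :=
  ∃ (E Wv : Type) (_ : Fintype E) (_ : DecidableEq E) (_ : Fintype Wv) (_ : DecidableEq Wv)
    (src tgt : E → Wv) (v1 : Wv) (v0 : E) (ψ : E ≃ Fin (Fintype.card E))
    (idx : ℕ → (Σ _ : Wv, Finset E)), GPs src tgt v1 v0 ψ idx Dm N C

end Pool.Agent.H55.AG
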