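import Mathlib
import Pool.Agent.H90.UB.Star

set_option autoImplicit false
set_option linter.unusedSectionVars false

/-!
# Module LOC: a substituted clause follows from the equation of its vertex (short lines, no truth tables)

PROOF. `mem_sdl`, `parl_iff`: inductions on the list (`Finset.mem_symmDiff`, `List.countP_cons`, `Nat.odd_add_one`, ..).
`card_sdl`: `card (symmDiff A B) ≤ card A + card B`.
`loc`. Write `S l := sdl Y l`, `y i := Bal dd v0 (Y i)`, `p l := Bal dd v0 (S l)`.
1. Lines. By induction on a suffix `l` of `is`: a derivation `l'` with at most `1 + l.length * K1` new lines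
(`K1 = 2 * 2 ^ dd * (4 * dd + 6) + 3`) which contains `¬ p []` and, for each suffix `i :: l1` of `l`, the line
`Z3 (y i) (p l1) (p (i :: l1))`: `[]`: `ex_nbot` (`Bal dd v0 ∅ = T dd fun _ => bot v0` by `balX_empty`, `Bal` unfolds to `BalX`).
`i :: l`: `baladd` with `A = Y i`, `A' = S l`, `A'' = S (i :: l)`; all three have at most `D * κ ≤ 2 ^ dd` elements (if the
list is not empty then `1 ≤ D`, `κ ≤ D * κ`). Note `Z3` is `Z3 (Bal A) (Bal A') (Bal A'')`.
2. The scheme. `prem : List ℕ → List (Fm ℕ)`, `prem [] = [¬ var 0]`,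
`prem (i :: l) = Z3 (var (2 * i + 1)) (var (2 * l.length)) (var (2 * (l.length + 1))) :: prem l`.
`ψ := imps (sgn t (var (2 * is.length)) :: prem is) (A.bind fun i => sgn (b i) (var (2 * i + 1)))`.
SOUND: if all formulas of `prem l` are true for `x` then `x (2 * l.length) = parl (fun i => x (2 * i + 1)) l` (induction,
`eval_Z3`: sum of the three values is 0). So, if all premises are true, `t = parl (fun i => x (2 * i + 1)) is`, and
`(A.bind ..).eval x = A.eval (fun i => (sgn (b i) (var (2 * i + 1))).eval x)` (small induction; the value of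
`sgn b (var m)` is `xor (x m) (!b)`), `parl` of the xor is the xor of the `parl`s: `xor t (parl (fun i => !b i) is)`; `hAt`.
(imps: if all premises true → conclusion true, then `imps` is true: see `eval_imps` (private) in `UB/Star.lean`, copy it.)
LENGTH of `ψ`: premises have length at most `23` (`len_Z3`), `len_imps_le`; `(A.bind ..).len ≤ 2 * A.len ≤ 8 * D`; in total
`≤ (D + 2) * 24 + 8 * D ≤ 1000 * (D + 1)`. So `ψ ∈ S0 (1000 * (D + 1))`.
3. `σ' m := if m % 2 = 1 then y (m / 2) else p (is.drop (is.length - m / 2))`; for a suffix `l` of `is`: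
`is.drop (is.length - l.length) = l` (write `is = pre ++ l`). So `ψ.bind σ' = imps (list of the lines of 1.) (A.bind ..)`
(`bind_xo`; `Fm.bind` of `Z3`, `sgn`, `imps` are `rfl`-like: small lemmas; `(A.bind σ₁).bind σ' = A.bind (fun i => (σ₁ i).bind σ')`
is `Pool.Agent.H90.PC.eb_bind`, copy the proof instead of importing). `infs` gives the result: `is.length + 2 + 1` lines.
Lengths: `bal_len`: `(Bal ..).len + 2 ≤ 6 * 4 ^ dd`; premises `≤ 60 * 4 ^ dd`, the conclusion: `(A.bind σ).len ≤ A.len * (6 * 4 ^ dd)`.
-/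

namespace Pool.Agent.H55.AG

open Finset Pool.Agent.H3.Frg Pool.Agent.H3.Frg2 Pool.Agent.H3.Frg4 Pool.Agent.H90.UB

/-- exclusive or of the values on a list -/
def parl (x : ℕ → Bool) : List ℕ → Bool
  | [] => false
  | i :: l => xor (x i) (parl x l)

/-- symmetric difference of the sets of a list -/
def sdl {V : Type} [DecidableEq V] (Y : ℕ → Finset V) : List ℕ → Finset V
  | [] => ∅
  | i :: l => symmDiff (Y i) (sdl Y l)

theorem mem_sdl {V : Type} [DecidableEq V] (Y : ℕ → Finset V) (e : V) (l : List ℕ) :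
    e ∈ sdl Y l ↔ Odd (l.countP fun i => decide (e ∈ Y i)) := by
  induction l with
  | nil => simp [sdl]
  | cons i l ih =>
    rw [List.countP_cons]
    simp only [sdl, Finset.mem_symmDiff, ih]
    by_cases h : e ∈ Y i
    · simp [h, Nat.odd_add_one]
    · simp [h]

theorem parl_iff (x : ℕ → Bool) (l : List ℕ) : parl x l = true ↔ Odd (l.countP x) := by
  induction l with
  | nil => simp [parl]
  | cons i l ih =>
    rw [List.countP_cons]
    simp only [parl]
    cases h : x i
    · simp [ih]
    · simp [Nat.odd_add_one, ← ih]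

theorem card_sdl {V : Type} [DecidableEq V] (Y : ℕ → Finset V) {κ : ℕ} (hY : ∀ i, (Y i).card ≤ κ)
    (l : List ℕ) : (sdl Y l).card ≤ l.length * κ := by
  induction l with
  | nil => simp [sdl]
  | cons i l ih =>
    have h1 : (symmDiff (Y i) (sdl Y l)).card ≤ (Y i).card + (sdl Y l).card := by
      refine (Finset.card_le_card (t := Y i ∪ sdl Y l) ?_).trans (Finset.card_union_le _ _)
      intro e he
      rw [Finset.mem_symmDiff] at he
      rw [Finset.mem_union]
      tauto
    have h2 := hY i
    have h3 : (i :: l).length * κ = l.length * κ + κ := by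
      rw [List.length_cons]; ring
    rw [h3]
    show (symmDiff (Y i) (sdl Y l)).card ≤ _
    omega

private theorem bind_bind' {V : Type} (σ : ℕ → Fm ℕ) (σ' : ℕ → Fm V) (A : Fm ℕ) :
    (A.bind σ).bind σ' = A.bind (fun i => (σ i).bind σ') := by
  induction A with
  | var i => rfl
  | neg A ih => simp only [Fm.bind, ih]
  | imp A B ihA ihB => simp only [Fm.bind, ihA, ihB]

private theorem eval_bind' (σ : ℕ → Fm ℕ) (x : ℕ → Bool) (A : Fm ℕ) :
    (A.bind σ).eval x = A.eval (fun i => (σ i).eval x) := by
  induction A with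
  | var i => rfl
  | neg A ih => simp only [Fm.bind, Fm.eval, ih]
  | imp A B ihA ihB => simp only [Fm.bind, Fm.eval, ihA, ihB]

private theorem len_bind' {V : Type} (σ : ℕ → Fm V) {m : ℕ} (hm : 1 ≤ m)
    (h : ∀ i, (σ i).len ≤ m) (A : Fm ℕ) : (A.bind σ).len ≤ A.len * m := by
  induction A with
  | var i =>
    have h1 : ((Fm.var i).bind σ).len ≤ m := h i
    have h2 : (Fm.var i : Fm ℕ).len * m = m := by simp [Fm.len]
    omega
  | neg A ih =>
    have h1 : ((Fm.neg A).bind σ).len = (A.bind σ).len + 1 := by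
      simp only [Fm.bind, Fm.len]
    have h2 : (Fm.neg A).len * m = A.len * m + m := by
      simp only [Fm.len]; ring
    omega
  | imp A B ihA ihB =>
    have h1 : ((Fm.imp A B).bind σ).len = (A.bind σ).len + (B.bind σ).len + 1 := by
      simp only [Fm.bind, Fm.len]
    have h2 : (Fm.imp A B).len * m = A.len * m + B.len * m + m := by
      simp only [Fm.len]; ring
    omega

private theorem eval_imps' {V : Type} (x : V → Bool) (B : Fm V) : ∀ Ps : List (Fm V),
    ((∀ A ∈ Ps, A.eval x = true) → B.eval x = true) → (imps Ps B).eval x = true := by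
  intro Ps
  induction Ps with
  | nil =>
    intro h
    exact h (by simp)
  | cons A Ps ih =>
    intro h
    simp only [imps, Fm.eval]
    cases hA : A.eval x
    · rfl
    · have := ih (fun h' => h (by
        intro C hC
        rcases List.mem_cons.1 hC with rfl | hC
        · exact hA
        · exact h' C hC))
      simp [this]

private theorem bind_imps' {V : Type} (σ : ℕ → Fm V) (B : Fm ℕ) : ∀ Ps : List (Fm ℕ),
    (imps Ps B).bind σ = imps (Ps.map fun A => A.bind σ) (B.bind σ) := by
  intro Ps
  induction Ps with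
  | nil => rfl
  | cons A Ps ih => simp only [imps, List.map_cons, Fm.bind, ih]

/-- the premises of the scheme -/
private def prem : List ℕ → List (Fm ℕ)
  | [] => [Fm.neg (Fm.var 0)]
  | i :: l => Z3 (Fm.var (2 * i + 1)) (Fm.var (2 * l.length)) (Fm.var (2 * (l.length + 1))) ::
      prem l

/-- the lines -/
private noncomputable def lins {V : Type} [DecidableEq V] (dd : ℕ) (v0 : V) (Y : ℕ → Finset V) :
    List ℕ → List (Fm V)
  | [] => [Fm.neg (Bal dd v0 (sdl Y []))]
  | i :: l => Z3 (Bal dd v0 (Y i)) (Bal dd v0 (sdl Y l)) (Bal dd v0 (sdl Y (i :: l))) ::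
      lins dd v0 Y l

private theorem length_prem : ∀ l : List ℕ, (prem l).length = l.length + 1 := by
  intro l
  induction l with
  | nil => rfl
  | cons i l ih => simp only [prem, List.length_cons, ih]

private theorem length_lins {V : Type} [DecidableEq V] (dd : ℕ) (v0 : V) (Y : ℕ → Finset V) :
    ∀ l : List ℕ, (lins dd v0 Y l).length = l.length + 1 := by
  intro l
  induction l with
  | nil => rfl
  | cons i l ih => simp only [lins, List.length_cons, ih]

private theorem len_prem : ∀ l : List ℕ, ∀ A ∈ prem l, A.len ≤ 23 := by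
  intro l
  induction l with
  | nil =>
    intro A hA
    simp only [prem, List.mem_singleton] at hA
    subst hA
    simp [Fm.len]
  | cons i l ih =>
    intro A hA
    simp only [prem, List.mem_cons] at hA
    rcases hA with rfl | hA
    · rw [len_Z3]; simp [Fm.len]
    · exact ih A hA

private theorem len_lins {V : Type} [DecidableEq V] (dd : ℕ) (v0 : V) (Y : ℕ → Finset V) :
    ∀ l : List ℕ, ∀ A ∈ lins dd v0 Y l, A.len + 1 ≤ 60 * 4 ^ dd := by
  intro l
  induction l with
  | nil =>
    intro A hA
    simp only [lins, List.mem_singleton] at hA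
    subst hA
    have h1 := bal_len dd v0 (sdl Y [])
    simp only [Fm.len]
    omega
  | cons i l ih =>
    intro A hA
    simp only [lins, List.mem_cons] at hA
    rcases hA with rfl | hA
    · rw [len_Z3]
      have h1 := bal_len dd v0 (Y i)
      have h2 := bal_len dd v0 (sdl Y l)
      have h3 := bal_len dd v0 (sdl Y (i :: l))
      omega
    · exact ih A hA

private theorem prem_sound (x : ℕ → Bool) : ∀ l : List ℕ, (∀ A ∈ prem l, A.eval x = true) →
    x (2 * l.length) = parl (fun i => x (2 * i + 1)) l := by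
  intro l
  induction l with
  | nil =>
    intro h
    have h1 := h (Fm.neg (Fm.var 0)) (by simp [prem])
    simp only [Fm.eval, Bool.not_eq_true'] at h1
    simpa [parl] using h1
  | cons i l ih =>
    intro h
    have h1 := ih fun A hA => h A (by simp only [prem, List.mem_cons]; exact Or.inr hA)
    have h2 := h _ (by simp only [prem, List.mem_cons]; exact Or.inl rfl)
    rw [eval_Z3] at h2
    simp only [Fm.eval] at h2
    simp only [parl, List.length_cons, ← h1]
    revert h2
    generalize x (2 * i + 1) = a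
    generalize x (2 * l.length) = b
    generalize x (2 * (l.length + 1)) = c
    revert a b c
    decide

private theorem parl_xor (f g : ℕ → Bool) : ∀ l : List ℕ,
    parl (fun i => xor (f i) (g i)) l = xor (parl f l) (parl g l) := by
  intro l
  induction l with
  | nil => rfl
  | cons i l ih =>
    simp only [parl, ih]
    generalize f i = a
    generalize g i = b
    generalize parl f l = c
    generalize parl g l = d
    revert a b c d
    decide

private theorem drop_suf {l is pre : List ℕ} (h : is = pre ++ l) :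
    is.drop (is.length - l.length) = l := by
  subst h
  rw [List.length_append, Nat.add_sub_cancel, List.drop_left]

private theorem bind_prem {V : Type} [DecidableEq V] (dd : ℕ) (v0 : V) (Y : ℕ → Finset V)
    (is : List ℕ) (σ' : ℕ → Fm V) (h1 : ∀ i, σ' (2 * i + 1) = Bal dd v0 (Y i))
    (h2 : ∀ m, σ' (2 * m) = Bal dd v0 (sdl Y (is.drop (is.length - m)))) : ∀ l pre : List ℕ,
    is = pre ++ l → (prem l).map (fun A => A.bind σ') = lins dd v0 Y l := by
  intro l
  induction l with
  | nil =>
    intro pre _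
    have h3 : σ' 0 = Bal dd v0 (sdl Y []) := by
      have := h2 0
      rw [Nat.mul_zero, Nat.sub_zero, List.drop_length] at this
      exact this
    simp only [prem, List.map_cons, List.map_nil, Fm.bind, h3, lins]
  | cons i l ih =>
    intro pre hp
    have h3 := ih (pre ++ [i]) (by rw [hp]; simp)
    have h4 : σ' (2 * l.length) = Bal dd v0 (sdl Y l) := by
      rw [h2, drop_suf (pre := pre ++ [i]) (by rw [hp]; simp)]
    have h5 : σ' (2 * (l.length + 1)) = Bal dd v0 (sdl Y (i :: l)) := by
      rw [h2, show l.length + 1 = (i :: l).length from rfl, drop_suf hp]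
    simp only [prem, List.map_cons, bind_Z3, h3, lins]
    simp only [Fm.bind, h1, h4, h5]

theorem loc {V : Type} [DecidableEq V] {X : Set (Fm V)} {D dd s κ : ℕ}
    (hX : Full (1000 * (D + 1)) X) (hs : 1000 * (D + 1) * 4 ^ dd ≤ s) (v0 : V) (is : List ℕ)
    (his : is.length ≤ D) (Y : ℕ → Finset V) (hY : ∀ i, (Y i).card ≤ κ) (hκ : D * κ ≤ 2 ^ dd)
    (b : ℕ → Bool) (A : Fm ℕ) (hA : A.len ≤ 4 * D) (hAv : ∀ i, Fm.var i ∈ A.subs → i ∈ is)
    (t : Bool) (hAt : ∀ x : ℕ → Bool, parl x is = xor t (parl (fun i => !b i) is) →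
      A.eval x = true)
    {l : List (Fm V)} (hl : Dr X l) (ht : sgn t (Bal dd v0 (sdl Y is)) ∈ l) :
    ∃ l', Ex X s s (D * (2 * 2 ^ dd * (4 * dd + 6) + 3) + 2 * D + 10) 0 l l' ∧
      A.bind (fun i => sgn (b i) (Bal dd v0 (Y i))) ∈ l' := by
  have _ := hAv
  have hX1 : Full 1000 X := fun ψ hψ σ => hX ψ ⟨hψ.1.trans (by omega), hψ.2⟩ σ
  have h4d : 1 ≤ 4 ^ dd := Nat.one_le_pow _ _ (by norm_num)
  have hs0 : 1000 * (D + 1) * 4 ^ dd = 1000 * 4 ^ dd + 1000 * (D * 4 ^ dd) := by ring
  have hs1 : 1000 * 4 ^ dd ≤ s := by omega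
  -- the lines
  have step1 : ∀ ls : List ℕ, ls.length ≤ D → ∃ l', Ex X s s
      (1 + ls.length * (2 * 2 ^ dd * (4 * dd + 6) + 3)) 0 l l' ∧
      ∀ B ∈ lins dd v0 Y ls, B ∈ l' := by
    intro ls
    induction ls with
    | nil =>
      intro _
      obtain ⟨l1, e1, k1⟩ := ex_nbot (v0 := v0) hX1 hs1 (le_refl s) hl
      rw [← balX_empty ∅] at k1
      refine ⟨l1, e1.mono (by simp) le_rfl, ?_⟩
      intro B hB
      simp only [lins, List.mem_singleton] at hB
      rw [hB]
      exact k1
    | cons i ls ih =>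
      intro hlen
      rw [List.length_cons] at hlen
      obtain ⟨l1, e1, k1⟩ := ih (by omega)
      have hD : 1 ≤ D := by omega
      have c1 : (Y i).card ≤ 2 ^ dd :=
        (hY i).trans ((Nat.le_mul_of_pos_left _ (by omega)).trans hκ)
      have c2 : (sdl Y ls).card ≤ 2 ^ dd :=
        (card_sdl Y hY ls).trans ((Nat.mul_le_mul_right _ (by omega)).trans hκ)
      have c3 : (sdl Y (i :: ls)).card ≤ 2 ^ dd :=
        (card_sdl Y hY (i :: ls)).trans
          ((Nat.mul_le_mul_right _ (by rw [List.length_cons]; omega)).trans hκ)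
      obtain ⟨l2, e2, k2⟩ := baladd (v0 := v0) hX1 hs1 (le_refl s) c1 c2 c3 rfl e1.dr
      refine ⟨l2, (e1.trans e2).mono ?_ (by omega), ?_⟩
      · rw [List.length_cons]
        have : (ls.length + 1) * (2 * 2 ^ dd * (4 * dd + 6) + 3) =
          ls.length * (2 * 2 ^ dd * (4 * dd + 6) + 3) + (2 * 2 ^ dd * (4 * dd + 6) + 3) := by ring
        omega
      · intro B hB
        simp only [lins, List.mem_cons] at hB
        rcases hB with rfl | hB
        · exact k2
        · exact e2.sub (k1 B hB)
  obtain ⟨l1, e1, k1⟩ := step1 is his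
  -- the substitution
  obtain ⟨σ', hσ'⟩ : ∃ σ' : ℕ → Fm V, σ' = fun m => if m % 2 = 1 then Bal dd v0 (Y (m / 2)) else
      Bal dd v0 (sdl Y (is.drop (is.length - m / 2))) := ⟨_, rfl⟩
  have hσ1 : ∀ i, σ' (2 * i + 1) = Bal dd v0 (Y i) := by
    intro i
    rw [hσ']
    simp only
    rw [if_pos (by omega), show (2 * i + 1) / 2 = i by omega]
  have hσ2 : ∀ m, σ' (2 * m) = Bal dd v0 (sdl Y (is.drop (is.length - m))) := by
    intro m
    rw [hσ']
    simp only
    rw [if_neg (by omega), show (2 * m) / 2 = m by omega]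
  have hp := bind_prem dd v0 Y is σ' hσ1 hσ2 is [] (by simp)
  have hσ3 : σ' (2 * is.length) = Bal dd v0 (sdl Y is) := by
    rw [hσ2, Nat.sub_self, List.drop_zero]
  -- the scheme
  obtain ⟨ψ, hψ⟩ : ∃ ψ, ψ = imps (sgn t (Fm.var (2 * is.length)) :: prem is)
      (A.bind fun i => sgn (b i) (Fm.var (2 * i + 1))) := ⟨_, rfl⟩
  have hψS : ψ ∈ S0 (1000 * (D + 1)) := by
    constructor
    · rw [hψ]
      refine (len_imps_le (q := 23) _ _ ?_).trans ?_
      · intro B hB
        rcases List.mem_cons.1 hB with rfl | hB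
        · have := len_sgn_le t (Fm.var (2 * is.length) : Fm ℕ)
          have h1 : (Fm.var (2 * is.length) : Fm ℕ).len = 1 := rfl
          omega
        · exact len_prem is B hB
      · rw [List.length_cons, length_prem]
        have h1 := len_bind' (fun i => sgn (b i) (Fm.var (2 * i + 1) : Fm ℕ)) (m := 2)
          (by norm_num) (fun i => len_sgn_le (b i) (Fm.var (2 * i + 1) : Fm ℕ)) A
        omega
    · intro x
      rw [hψ]
      refine eval_imps' x _ _ fun h => ?_
      have h1 := prem_sound x is fun B hB => h B (List.mem_cons_of_mem _ hB)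
      have h2 := (eval_sgn t _ x).1 (h _ List.mem_cons_self)
      simp only [Fm.eval] at h2
      rw [eval_bind']
      apply hAt
      have h3 : (fun i => (sgn (b i) (Fm.var (2 * i + 1) : Fm ℕ)).eval x) =
          fun i => xor (x (2 * i + 1)) (!b i) := by
        funext i
        cases b i <;> simp [Pool.Agent.H90.UB.sgn, Fm.eval]
      rw [h3, parl_xor (fun i => x (2 * i + 1)) (fun i => !b i), ← h1, h2]
  have hbX := hX ψ hψS σ'
  have hbe : ψ.bind σ' = imps (sgn t (Bal dd v0 (sdl Y is)) :: lins dd v0 Y is)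
      (A.bind fun i => sgn (b i) (Bal dd v0 (Y i))) := by
    rw [hψ, bind_imps', List.map_cons, hp, bind_bind']
    congr 1
    · rw [bind_sgn]
      simp only [Fm.bind, hσ3]
    · congr 1
      funext i
      rw [bind_sgn]
      simp only [Fm.bind, hσ1]
  rw [hbe] at hbX
  have hlen : (imps (sgn t (Bal dd v0 (sdl Y is)) :: lins dd v0 Y is)
      (A.bind fun i => sgn (b i) (Bal dd v0 (Y i)))).len ≤ s := by
    refine (len_imps_le (q := 60 * 4 ^ dd - 1) _ _ ?_).trans ?_
    · intro B hB
      rcases List.mem_cons.1 hB with rfl | hB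
      · have h1 := len_sgn_le t (Bal dd v0 (sdl Y is))
        have h2 := bal_len dd v0 (sdl Y is)
        omega
      · have := len_lins dd v0 Y is B hB
        omega
    · rw [List.length_cons, length_lins, Nat.sub_add_cancel (by omega)]
      have h1 := len_bind' (fun i => sgn (b i) (Bal dd v0 (Y i))) (m := 6 * 4 ^ dd)
        (by omega) (fun i => by
          have h1 := len_sgn_le (b i) (Bal dd v0 (Y i))
          have h2 := bal_len dd v0 (Y i)
          omega) A
      have h2 : A.len * (6 * 4 ^ dd) ≤ 4 * D * (6 * 4 ^ dd) := Nat.mul_le_mul_right _ hA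
      have h3 : (is.length + 1 + 1) * (60 * 4 ^ dd) ≤ (D + 2) * (60 * 4 ^ dd) :=
        Nat.mul_le_mul_right _ (by omega)
      have h4 : 4 * D * (6 * 4 ^ dd) = 24 * (D * 4 ^ dd) := by ring
      have h5 : (D + 2) * (60 * 4 ^ dd) = 60 * (D * 4 ^ dd) + 120 * 4 ^ dd := by ring
      omega
  obtain ⟨l2, e2, k2⟩ := infs (s := s) (b := s) (m := 0) _ e1.dr hbX (by
      intro B hB
      rcases List.mem_cons.1 hB with rfl | hB
      · exact e1.sub ht
      · exact k1 B hB) hlen (Or.inl hlen)
  refine ⟨l2, (e1.trans e2).mono ?_ (by omega), k2⟩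
  rw [List.length_cons, length_lins]
  have h1 : is.length * (2 * 2 ^ dd * (4 * dd + 6) + 3) ≤ D * (2 * 2 ^ dd * (4 * dd + 6) + 3) :=
    Nat.mul_le_mul_right _ his
  omega

end Pool.Agent.H55.AG
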