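import Mathlib

set_option autoImplicit false

/-!
# Tseitin formulas of all graphs: graph definitions (THEOREM AG, MP_576eff_lc)
-/

namespace Pool.Agent.H55.AG

open Finset Classical

section

variable {V : Type} [Fintype V]

/-- ordered pairs of adjacent vertices that leave `S` -/
noncomputable def cutG (G : SimpleGraph V) (S : Finset V) : Finset (V × V) :=
  univ.filter fun p => G.Adj p.1 p.2 ∧ p.1 ∈ S ∧ p.2 ∉ S

/-- the neighbours of `v` -/
noncomputable def nbG (G : SimpleGraph V) (v : V) : Finset V := univ.filter fun u => G.Adj v u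

/-- the end points of the edges that leave `A` -/
noncomputable def ends (G : SimpleGraph V) (A : Finset V) : Finset V :=
  (cutG G A).image Prod.fst ∪ (cutG G A).image Prod.snd

end

/-- Treewidth at most `k`: `G` is a subgraph of a graph `H` whose vertices can be
ordered in such a way that for each vertex the `H`-neighbours preceding it form a clique of `H`
with at most `k` elements. -/
def TwLE {V : Type} (G : SimpleGraph V) (k : ℕ) : Prop :=
  ∃ (H : SimpleGraph V) (ord : V → ℕ), G ≤ H ∧ Function.Injective ord ∧
    ∀ v, H.IsClique {u | H.Adj u v ∧ ord u < ord v} ∧ {u | H.Adj u v ∧ ord u < ord v}.ncard ≤ k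

/-- nice tree decompositions: `TD G k F B`: there is one with root bag `B` in which exactly the
vertices in `F` have been forgotten, all bags have at most `k + 1` elements -/
inductive TD {V : Type} (G : SimpleGraph V) (k : ℕ) : Finset V → Finset V → Prop
  | nil : TD G k ∅ ∅
  | intro (F B : Finset V) (v : V) : TD G k F B → v ∉ F → v ∉ B → B.card ≤ k →
      TD G k F (insert v B)
  | forget (F B : Finset V) (v : V) : TD G k F (insert v B) → v ∉ B → v ∉ F →
      (∀ u, G.Adj v u → u ∈ F ∨ u ∈ B) → TD G k (insert v F) B
  | join (F F' B : Finset V) : TD G k F B → TD G k F' B → Disjoint F F' →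
      (∀ u ∈ F, ∀ v ∈ F', ¬ G.Adj u v) → TD G k (F ∪ F') B

section

variable {V : Type} [Fintype V]

/-- a binary tree with leaves `A` all of whose cuts have at most `L` edges -/
inductive Carve (G : SimpleGraph V) (L : ℕ) : Finset V → Prop
  | single (v : V) : (cutG G {v}).card ≤ L → Carve G L {v}
  | join (A B : Finset V) : Carve G L A → Carve G L B → Disjoint A B →
      (cutG G (A ∪ B)).card ≤ L → Carve G L (A ∪ B)

/-- well linked: every cut of `W` whose sides have at least `|W| / 8` elements has at least
`|W| / 8` edges -/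
def WL (G : SimpleGraph V) (W : Finset V) : Prop :=
  ∀ S : Finset V, W.card ≤ 8 * (W ∩ S).card → W.card ≤ 8 * (W \ S).card →
    W.card ≤ 8 * (cutG G S).card

/-- integral flow with unit capacities, `A'`, `B'` the sets of sources and sinks that are used -/
structure Flow (G : SimpleGraph V) (A B : Finset V) (f : V → V → ℤ) (A' B' : Finset V) : Prop where
  anti : ∀ u v, f u v = -f v u
  le : ∀ u v, f u v ≤ 1
  supp : ∀ u v, ¬ G.Adj u v → f u v = 0
  subA : A' ⊆ A
  subB : B' ⊆ B
  ex : ∀ v, ∑ u, f v u = (if v ∈ A' then 1 else 0) - (if v ∈ B' then 1 else 0)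

end

/-- the set `P` of edges has odd degree exactly at `a` and `b` (nowhere if `a = b`) -/
def Jn {V : Type} (P : Finset (Sym2 V)) (a b : V) : Prop :=
  ∀ v, (((P.filter fun e => v ∈ e).card : ℕ) : ZMod 2) =
    (if v = a then 1 else 0) + (if v = b then 1 else 0)

/-- `B` is connected in `M` -/
def Cn {W : Type} (M : SimpleGraph W) (B : Finset W) : Prop :=
  ∀ x ∈ B, ∀ y ∈ B, Relation.ReflTransGen (fun a b => M.Adj a b ∧ b ∈ B) x y

/-- both sides of the cut `A` have at least `3 / 16` of the elements of `W` -/
def Bln {W : Type} [Fintype W] (A : Finset W) : Prop :=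
  3 * Fintype.card W ≤ 16 * A.card ∧ 3 * Fintype.card W ≤ 16 * Aᶜ.card

/-- the number of elements of `A` that `π` moves out of `A` -/
noncomputable def crs {W : Type} (π : W → W) (A : Finset W) : ℕ := (A.filter fun v => π v ∉ A).card

end Pool.Agent.H55.AG
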