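import Mathlib
import Pool.Agent.H90.PC.Stmt
import Pool.Agent.H90.PE.StmtE
import Pool.Agent.H55.AG.Defs

set_option autoImplicit false

/-!
# The Tseitin formulas of all graphs: the definitions used in the statement
-/

namespace Pool.Agent.H55.AG

open Finset Classical Pool.Agent.H3.Frg Pool.Agent.H3.Frg2 Pool.Agent.H3.Frg4

/-- The Tseitin formula of the graph `G` with charge `c`, the variable of the edge `g` is `ν g`: all
clauses with at most `D` literals whose variables are edges at one vertex `v` and which follow from the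
equation of `v` (the number of true edges at `v` is odd if and only if `c v = true`). -/
def Ts {V : Type} [Fintype V] (D : ℕ) (G : SimpleGraph V) (ν : Sym2 V → ℕ) (c : V → Bool) :
    Set (Fm ℕ) :=
  {A | IsClause D A ∧ ∃ v, (∀ i, Fm.var i ∈ A.subs → ∃ u, G.Adj v u ∧ i = ν s(v, u)) ∧
    ∀ x : ℕ → Bool,
      (Odd (univ.filter fun u => G.Adj v u ∧ x (ν s(v, u)) = true).card ↔ c v = true) →
      A.eval x = true}

/-- admissible definitions of extension variables: the variables `q_j` are different, they are not
edges, and `q_j` does not occur in `D_i` for `i ≤ j` -/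
def ExtG {V : Type} (G : SimpleGraph V) (ν : Sym2 V → ℕ) {K : ℕ} (q : Fin K → ℕ)
    (Df : Fin K → Fm ℕ) : Prop :=
  Function.Injective q ∧ (∀ j, ∀ g ∈ G.edgeSet, ν g ≠ q j) ∧
    ∀ i j, i ≤ j → Fm.var (q j) ∉ (Df i).subs

end Pool.Agent.H55.AG
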