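import Mathlib
import Pool.Agent.H55.AG.Stmt
import Pool.Agent.H55.AG.Loc
import Pool.Agent.H55.AG.GP

set_option autoImplicit false
set_option linter.unusedSectionVars false

/-!
# Module PARG: the sets of multigraph edges at a vertex of `G`

PROOF. `isv` is the list of the numbers of the edges at `v`. `isv_length`, `mem_isv`: `nbG`, `List.mem_map`, `Finset.mem_toList`.
`parl_isv`: `parl_iff`, `List.countP_map`, `countP` over `toList` is the card of the filter (e.g.
`List.countP_eq_length_filter`, `Finset.length_toList`/`List.toFinset_card_of_nodup`, or `Multiset.countP`), `nbG` is itself a filter.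
`yn_card`: if no edge has number `i`: empty; otherwise let `g` be this edge, by `hν` the filter is contained in
`{f | g ∈ P f}`; `card_image_le`.
`bn_val`: `hν`.
`mem_yn`: for an edge `g`: `ι f ∈ Yn G ν P ι (ν g) ↔ g ∈ P f` (`hι`, `hν`).
`par_count`: for `f` and `v`, `Odd (univ.filter fun u => G.Adj v u ∧ s(v, u) ∈ P f).card ↔ ¬ (v = r (src f) ↔ v = r (tgt f))`:
the card is `((P f).filter fun e => v ∈ e).card` (bijection `u ↦ s(v, u)`, `hPE`, `Sym2.mem_iff_exists`), then `Jn` (in `ZMod 2`: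
`ZMod.natCast_eq_one_iff_odd`/`ZMod.natCast_eq_zero_iff_even`; four cases).
`sdl_at`, `sdl_off`: `Finset.ext`; `mem_sdl`, countP over `isv` as above; an element of any `Yn` is some `ι f`; then `mem_yn`,
`par_count`; `v = r u`: `r u = r (src f) ↔ u = src f` (`hr`), `mem_bd`; `v` not in the range of `r`: the count is even.
-/

namespace Pool.Agent.H55.AG

open Finset Classical Pool.Agent.H3.Frg Pool.Agent.H3.Frg2 Pool.Agent.H3.Frg4 Pool.Agent.H90.UB

/-- numbers of the edges at `v` -/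
noncomputable def isv {V : Type} [Fintype V] (G : SimpleGraph V) (ν : Sym2 V → ℕ) (v : V) :
    List ℕ := (nbG G v).toList.map fun u => ν s(v, u)

/-- the multigraph edges that are routed through the edge with number `i` -/
noncomputable def Yn {V E V' : Type} [Fintype E] [DecidableEq V'] (G : SimpleGraph V)
    (ν : Sym2 V → ℕ) (P : E → Finset (Sym2 V)) (ι : E → V') (i : ℕ) : Finset V' :=
  (univ.filter fun f => ∃ g ∈ G.edgeSet, ν g = i ∧ g ∈ P f).image ι

/-- the negated constant of the edge with number `i` -/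
noncomputable def bn {V : Type} (G : SimpleGraph V) (ν : Sym2 V → ℕ) (a : Sym2 V → Bool)
    (i : ℕ) : Bool := decide (¬ ∃ g ∈ G.edgeSet, ν g = i ∧ a g = true)

section

variable {V : Type} [Fintype V] {G : SimpleGraph V} {ν : Sym2 V → ℕ}

theorem isv_length (v : V) : (isv G ν v).length = (nbG G v).card := by
  unfold isv
  rw [List.length_map, Finset.length_toList]

theorem mem_isv (v : V) (i : ℕ) : i ∈ isv G ν v ↔ ∃ u, G.Adj v u ∧ i = ν s(v, u) := by
  unfold isv nbG
  rw [List.mem_map]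
  constructor
  · rintro ⟨u, hu, rfl⟩
    rw [Finset.mem_toList, mem_filter] at hu
    exact ⟨u, hu.2, rfl⟩
  · rintro ⟨u, hu, rfl⟩
    refine ⟨u, ?_, rfl⟩
    rw [Finset.mem_toList, mem_filter]
    exact ⟨mem_univ _, hu⟩

private theorem pg_count {α : Type} (s : Finset α) (p : α → Bool) :
    s.toList.countP p = (s.filter fun a => p a = true).card := by
  rw [List.countP_eq_length_filter,
    ← List.toFinset_card_of_nodup ((Finset.nodup_toList s).filter p)]
  congr 1
  ext a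
  simp

private theorem pg_isv (q : ℕ → Bool) (v : V) : (isv G ν v).countP q =
    (univ.filter fun u => G.Adj v u ∧ q (ν s(v, u)) = true).card := by
  unfold isv
  rw [List.countP_map, pg_count]
  congr 1
  ext u
  simp [nbG]

theorem parl_isv (x : ℕ → Bool) (v : V) : parl x (isv G ν v) = true ↔
    Odd (univ.filter fun u => G.Adj v u ∧ x (ν s(v, u)) = true).card := by
  rw [parl_iff, pg_isv]

theorem bn_val (hν : Set.InjOn ν G.edgeSet) (a : Sym2 V → Bool) {g : Sym2 V}
    (hg : g ∈ G.edgeSet) : bn G ν a (ν g) = !(a g) := by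
  have h1 : (∃ g' ∈ G.edgeSet, ν g' = ν g ∧ a g' = true) ↔ a g = true := by
    constructor
    · rintro ⟨g', hg', h2, h3⟩
      rw [← hν hg' hg h2]
      exact h3
    · intro h2
      exact ⟨g, hg, rfl, h2⟩
  unfold bn
  rw [Bool.eq_iff_iff]
  simp only [decide_eq_true_eq, h1]
  cases a g <;> simp

variable {E Wv : Type} [Fintype E] [DecidableEq E] [Fintype Wv] [DecidableEq Wv]
  {src tgt : E → Wv} {r : Wv → V} {P : E → Finset (Sym2 V)}

private theorem pg_yn {V' : Type} [DecidableEq V'] {ι : E → V'} {i : ℕ} {y : V'} :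
    y ∈ Yn G ν P ι i ↔ ∃ f, (∃ g ∈ G.edgeSet, ν g = i ∧ g ∈ P f) ∧ ι f = y := by
  simp [Yn]

theorem yn_card (hν : Set.InjOn ν G.edgeSet) {κ : ℕ}
    (hPκ : ∀ g, (univ.filter fun f => g ∈ P f).card ≤ κ) {V' : Type} [DecidableEq V']
    (ι : E → V') (i : ℕ) : (Yn G ν P ι i).card ≤ κ := by
  by_cases h : ∃ g ∈ G.edgeSet, ν g = i
  · obtain ⟨g, hg, hgi⟩ := h
    have h0 : Yn G ν P ι i ⊆ (univ.filter fun f => g ∈ P f).image ι := by
      intro y hy
      obtain ⟨f, ⟨g', hg', h1, h2⟩, rfl⟩ := pg_yn.1 hy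
      have h3 : g' = g := hν hg' hg (h1.trans hgi.symm)
      rw [h3] at h2
      exact mem_image_of_mem _ (mem_filter.2 ⟨mem_univ _, h2⟩)
    exact (card_le_card h0).trans (card_image_le.trans (hPκ g))
  · have h1 : Yn G ν P ι i = ∅ := by
      rw [Finset.eq_empty_iff_forall_notMem]
      intro y hy
      obtain ⟨f, ⟨g, hg, h1, h2⟩, rfl⟩ := pg_yn.1 hy
      exact h ⟨g, hg, h1⟩
    rw [h1, card_empty]
    exact Nat.zero_le _

private theorem pg_mem_yn (hν : Set.InjOn ν G.edgeSet) {V' : Type} [DecidableEq V'] {ι : E → V'}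
    (hι : Function.Injective ι) {g : Sym2 V} (hg : g ∈ G.edgeSet) (f : E) :
    ι f ∈ Yn G ν P ι (ν g) ↔ g ∈ P f := by
  rw [pg_yn]
  constructor
  · rintro ⟨f', ⟨g', hg', h2, h3⟩, h1⟩
    rw [hι h1] at h3
    rw [← hν hg' hg h2]
    exact h3
  · intro h
    exact ⟨f, ⟨g, hg, rfl, h⟩, rfl⟩

private theorem pg_par (hPE : ∀ f, ∀ e ∈ P f, e ∈ G.edgeSet)
    (hPJ : ∀ f, Jn (P f) (r (src f)) (r (tgt f))) (f : E) (v : V) :
    Odd (univ.filter fun u => G.Adj v u ∧ s(v, u) ∈ P f).card ↔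
      ¬ (v = r (src f) ↔ v = r (tgt f)) := by
  have h1 : ((P f).filter fun e => v ∈ e) =
      (univ.filter fun u => G.Adj v u ∧ s(v, u) ∈ P f).image fun u => s(v, u) := by
    ext e
    rw [mem_filter, mem_image]
    constructor
    · rintro ⟨h2, h3⟩
      obtain ⟨u, rfl⟩ := Sym2.mem_iff_exists.1 h3
      refine ⟨u, mem_filter.2 ⟨mem_univ _, ?_, h2⟩, rfl⟩
      exact (SimpleGraph.mem_edgeSet G).1 (hPE f _ h2)
    · rintro ⟨u, hu, rfl⟩
      exact ⟨(mem_filter.1 hu).2.2, Sym2.mem_mk_left _ _⟩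
  have h2 := hPJ f v
  rw [h1, card_image_of_injective _ (fun a b hab => Sym2.congr_right.1 hab)] at h2
  rw [← ZMod.natCast_ne_zero_iff_odd, h2]
  by_cases ha : v = r (src f)
  · by_cases hb : v = r (tgt f)
    · rw [if_pos ha, if_pos hb]
      exact ⟨fun h => absurd (by decide) h, fun h => absurd ⟨fun _ => hb, fun _ => ha⟩ h⟩
    · rw [if_pos ha, if_neg hb]
      exact ⟨fun _ h => hb (h.1 ha), fun _ => by decide⟩
  · by_cases hb : v = r (tgt f)
    · rw [if_neg ha, if_pos hb]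
      exact ⟨fun _ h => ha (h.2 hb), fun _ => by decide⟩
    · rw [if_neg ha, if_neg hb]
      exact ⟨fun h => absurd (by decide) h,
        fun h => absurd ⟨fun h' => absurd h' ha, fun h' => absurd h' hb⟩ h⟩

private theorem pg_sdl (hν : Set.InjOn ν G.edgeSet)
    (hPE : ∀ f, ∀ e ∈ P f, e ∈ G.edgeSet) (hPJ : ∀ f, Jn (P f) (r (src f)) (r (tgt f)))
    {V' : Type} [DecidableEq V'] {ι : E → V'} (hι : Function.Injective ι) (v : V) (f : E) :
    ι f ∈ sdl (Yn G ν P ι) (isv G ν v) ↔ ¬ (v = r (src f) ↔ v = r (tgt f)) := by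
  rw [mem_sdl, pg_isv, ← pg_par hPE hPJ f v]
  have h1 : (univ.filter fun u => G.Adj v u ∧ decide (ι f ∈ Yn G ν P ι (ν s(v, u))) = true) =
      univ.filter fun u => G.Adj v u ∧ s(v, u) ∈ P f := by
    ext u
    rw [mem_filter, mem_filter, decide_eq_true_iff]
    constructor
    · rintro ⟨h2, h3, h4⟩
      exact ⟨h2, h3, (pg_mem_yn hν hι ((SimpleGraph.mem_edgeSet G).2 h3) f).1 h4⟩
    · rintro ⟨h2, h3, h4⟩
      exact ⟨h2, h3, (pg_mem_yn hν hι ((SimpleGraph.mem_edgeSet G).2 h3) f).2 h4⟩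
  rw [h1]

private theorem pg_sdl_ex {V' : Type} [DecidableEq V'] {ι : E → V'} {l : List ℕ} {y : V'}
    (h : y ∈ sdl (Yn G ν P ι) l) : ∃ f, ι f = y := by
  rw [mem_sdl] at h
  have h1 : 0 < l.countP fun i => decide (y ∈ Yn G ν P ι i) := h.pos
  obtain ⟨i, -, hi⟩ := List.countP_pos_iff.1 h1
  have h2 : y ∈ Yn G ν P ι i := by simpa using hi
  obtain ⟨f, -, hf⟩ := pg_yn.1 h2
  exact ⟨f, hf⟩

theorem sdl_at (hν : Set.InjOn ν G.edgeSet) (hr : Function.Injective r)
    (hPE : ∀ f, ∀ e ∈ P f, e ∈ G.edgeSet) (hPJ : ∀ f, Jn (P f) (r (src f)) (r (tgt f)))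
    {V' : Type} [DecidableEq V'] {ι : E → V'} (hι : Function.Injective ι) (u : Wv) :
    sdl (Yn G ν P ι) (isv G ν (r u)) = (bd src tgt {u}).image ι := by
  ext y
  have key : ∀ f, ι f ∈ sdl (Yn G ν P ι) (isv G ν (r u)) ↔ f ∈ bd src tgt {u} := by
    intro f
    rw [pg_sdl hν hPE hPJ hι, mem_bd, mem_singleton, mem_singleton, hr.eq_iff, hr.eq_iff,
      eq_comm (a := u) (b := src f), eq_comm (a := u) (b := tgt f)]
  constructor
  · intro h
    obtain ⟨f, rfl⟩ := pg_sdl_ex h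
    exact mem_image_of_mem _ ((key f).1 h)
  · intro h
    obtain ⟨f, hf, rfl⟩ := mem_image.1 h
    exact (key f).2 hf

theorem sdl_off (hν : Set.InjOn ν G.edgeSet)
    (hPE : ∀ f, ∀ e ∈ P f, e ∈ G.edgeSet) (hPJ : ∀ f, Jn (P f) (r (src f)) (r (tgt f)))
    {V' : Type} [DecidableEq V'] {ι : E → V'} (hι : Function.Injective ι) {v : V}
    (hv : ∀ u, r u ≠ v) : sdl (Yn G ν P ι) (isv G ν v) = ∅ := by
  rw [Finset.eq_empty_iff_forall_notMem]
  intro y h
  obtain ⟨f, rfl⟩ := pg_sdl_ex h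
  rw [pg_sdl hν hPE hPJ hι] at h
  refine h ⟨fun h1 => absurd h1.symm (hv _), fun h1 => absurd h1.symm (hv _)⟩

end

end Pool.Agent.H55.AG
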