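import Mathlib
import Pool.Agent.H90.UB.Star
import Pool.Agent.H55.AG.GP

set_option autoImplicit false
set_option linter.unusedSectionVars false

/-!
# Module STARX: the equation of a vertex of the multigraph from its clauses

PROOF. (As `hstar` in `H90/UB/Fixd.lean` and the last part of `graph_ubp` in `H90/UB/Conn.lean`.) `B := (bd src tgt {u}).image ι`,
`B.card ≤ Dm`. `P := (bd src tgt {u}).powerset.filter (fun U => chi (bd src tgt {u}) (ind U) ≠ sg (sgn3 v1 u))` (`ind` is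
`Pool.Agent.H3.Frg4.ind`), `P.card ≤ 2 ^ Dm`; for `U ∈ P` there is `j U` with `idx (j U) = ⟨u, U⟩` (`hP.sur`, unfold `Idx`).
`Cs := P.toList.map fun U => (clp src tgt v0 ⟨u, U⟩).ren ι`; all are in `X` (`hC (j U)`), their lengths are at most `4 * Dm` (`clp_spec`,
`len_ren`). `clauses` (in `UB/Star.lean`) with `ls := B.toList`, `c := sgn3 v1 u`, `q := 4 * Dm`: the condition
`∀ x, (all Cs true) → (chain v0' B.toList).eval x = sgn3 v1 u`: by contradiction as in `graph_ubp`: let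
`U := (bd src tgt {u}).filter (fun e => x (ι e) = true)`; if `chi (bd src tgt {u}) (fun e => x (ι e)) ≠ sg (sgn3 v1 u)` then `U ∈ P`
(`chi_congr'`) and its clause is false (`clp_spec`, `eval_ren`), contradiction; so `chi .. = sg ..`, and
`sg ((chain v0' B.toList).eval x) = (B.toList.map fun e => sg (x e)).prod` (`sg_chain`, private in `Conn.lean`: copy it) `= ∏ e ∈ B, sg (x e)`
(`Finset.prod_map_toList`) `= ∏ e ∈ bd .., sg (x (ι e))` (`Finset.prod_image`, `hι`) `= chi`. `sg` is injective.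
Length of the axiom: `Cs.length * (4 * Dm + 1) + 10 * 2 ^ B.toList.length ≤ ℓ1 ≤ s`, where
`ℓ1 = 1000 + 2 ^ Dm * (4 * Dm + 1) + 100 * 2 ^ Dm`.
Then `star` (`B.card ≤ Dm ≤ 2 ^ dd`, `100 * 2 ^ B.card ≤ s`). Number of lines: `2 * Cs.length + 1 + (B.card * (2 * dd + 4) + 6)`.
`Full 1000 X` follows from `Full ℓ1 X`.
-/

namespace Pool.Agent.H55.AG

open Finset Pool.Agent.H3.Frg Pool.Agent.H3.Frg2 Pool.Agent.H3.Frg3 Pool.Agent.H3.Frg4
  Pool.Agent.H90.UB

private theorem sg_xor' (a c : Bool) : sg (xor a c) = sg a * sg c := by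
  cases a <;> cases c <;> simp [sg]

private theorem sg_inj' {a c : Bool} (h : sg a = sg c) : a = c := by
  cases a <;> cases c <;> simp_all [sg] <;> norm_num at h

private theorem sg_chain' {V : Type} (v0 : V) (x : V → Bool) : ∀ l : List V,
    sg ((Pool.Agent.H90.UB.chain v0 l).eval x) = (l.map fun e => sg (x e)).prod := by
  intro l
  induction l with
  | nil =>
    have h : (Pool.Agent.H90.UB.chain v0 []).eval x = false := eval_bot v0 x
    rw [h]; simp [sg]
  | cons e l ih =>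
    simp only [Pool.Agent.H90.UB.chain, eval_xo, sg_xor', List.map_cons, List.prod_cons, ih, Fm.eval]

theorem starx {E Wv : Type} [Fintype E] [DecidableEq E] [Fintype Wv] [DecidableEq Wv]
    {src tgt : E → Wv} {v1 : Wv} {v0 : E} {ψ : E ≃ Fin (Fintype.card E)}
    {idx : ℕ → (Σ _ : Wv, Finset E)} {Dm N : ℕ} {C : ℕ → Fm ℕ}
    (hP : GPs src tgt v1 v0 ψ idx Dm N C) {V : Type} [DecidableEq V] (ι : E → V)
    (hι : Function.Injective ι) (f : V → ℕ) (g : ℕ → V) (hgf : ∀ v, g (f v) = v)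
    {X : Set (Fm V)} {dd s : ℕ} (hX : Full (1000 + 2 ^ Dm * (4 * Dm + 1) + 100 * 2 ^ Dm) X)
    (hC : ∀ i, (clp src tgt v0 (idx i)).ren ι ∈ X) (hdd : Dm ≤ 2 ^ dd)
    (hs : (1000 + 2 ^ Dm * (4 * Dm + 1) + 100 * 2 ^ Dm) * 4 ^ dd ≤ s) (v0' : V) (u : Wv)
    {l : List (Fm V)} (hl : Dr X l) :
    ∃ l', Ex X s s (2 * 2 ^ Dm + 7 + Dm * (2 * dd + 4)) 0 l l' ∧
      sgn (sgn3 v1 u) (Bal dd v0' ((bd src tgt {u}).image ι)) ∈ l' := by
  classical
  obtain ⟨ℓ1, hℓ1⟩ : ∃ ℓ1, ℓ1 = 1000 + 2 ^ Dm * (4 * Dm + 1) + 100 * 2 ^ Dm := ⟨_, rfl⟩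
  rw [← hℓ1] at hX hs
  have hX1 : Full 1000 X := fun ψ hψ σ => hX ψ ⟨hψ.1.trans (by omega), hψ.2⟩ σ
  have h4d : 1 ≤ 4 ^ dd := Nat.one_le_pow _ _ (by norm_num)
  have hℓs : ℓ1 ≤ s := le_trans (Nat.le_mul_of_pos_right _ (by omega)) hs
  have hs1 : 1000 * 4 ^ dd ≤ s := le_trans (Nat.mul_le_mul_right _ (by omega)) hs
  obtain ⟨B0, hB0⟩ : ∃ B0, B0 = bd src tgt {u} := ⟨_, rfl⟩
  obtain ⟨B, hB⟩ : ∃ B, B = B0.image ι := ⟨_, rfl⟩
  have hBc : B.card ≤ Dm := by
    rw [hB]
    refine Finset.card_image_le.trans ?_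
    rw [hB0]
    exact hP.deg u
  obtain ⟨P, hPd⟩ : ∃ P, P = B0.powerset.filter
      (fun U => chi B0 (Pool.Agent.H3.Frg4.ind U) ≠ sg (sgn3 v1 u)) := ⟨_, rfl⟩
  have hPc : P.card ≤ 2 ^ Dm := by
    rw [hPd]
    refine (Finset.card_filter_le _ _).trans ?_
    rw [Finset.card_powerset, hB0]
    exact Nat.pow_le_pow_right (by norm_num) (hP.deg u)
  have hj : ∀ U ∈ P, ∃ i, idx i = ⟨u, U⟩ := by
    intro U hU
    refine hP.sur _ ?_
    unfold Idx
    rw [Finset.mem_sigma]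
    refine ⟨mem_univ _, ?_⟩
    rw [hPd, Finset.mem_filter, hB0] at hU
    rw [Finset.mem_filter]
    exact hU
  choose! j hj using hj
  have hsp := fun i => clp_spec hP.deg hP.ne v0 (idx i)
  obtain ⟨Cs, hCs⟩ : ∃ Cs : List (Fm V),
      Cs = P.toList.map fun U => (clp src tgt v0 (idx (j U))).ren ι := ⟨_, rfl⟩
  have hCsl : Cs.length ≤ 2 ^ Dm := by
    rw [hCs, List.length_map, Finset.length_toList]
    exact hPc
  obtain ⟨l1, e1, k1⟩ := clauses (s := s) (b := s) hX f g hgf (q := 4 * Dm) Cs (by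
      intro A hA
      rw [hCs] at hA
      obtain ⟨U, _, rfl⟩ := List.mem_map.1 hA
      exact hC _) (by
      intro A hA
      rw [hCs] at hA
      obtain ⟨U, _, rfl⟩ := List.mem_map.1 hA
      rw [len_ren]
      exact (hsp _).2.1) B.toList (sgn3 v1 u) (by
      intro x hx
      have hchi : chi B0 (fun e => x (ι e)) = sg (sgn3 v1 u) := by
        by_contra hcon
        obtain ⟨U, hU⟩ : ∃ U, U = B0.filter (fun e => x (ι e) = true) := ⟨_, rfl⟩
        have h1 : ∀ e ∈ B0, x (ι e) = Pool.Agent.H3.Frg4.ind U e := by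
          intro e he
          unfold Pool.Agent.H3.Frg4.ind
          rw [hU]
          simp only [Finset.mem_filter, he, true_and]
          cases x (ι e) <;> simp
        have hUP : U ∈ P := by
          rw [hPd, Finset.mem_filter, Finset.mem_powerset]
          refine ⟨hU ▸ Finset.filter_subset _ _, ?_⟩
          rw [← chi_congr' h1]
          exact hcon
        have h2 := hx _ (by
          rw [hCs]
          exact List.mem_map.2 ⟨U, Finset.mem_toList.2 hUP, rfl⟩)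
        rw [eval_ren, (hsp (j U)).2.2.2, hj U hUP] at h2
        obtain ⟨e, he, h3⟩ := h2
        exact h3 (h1 e (by rw [hB0]; exact he))
      apply sg_inj'
      rw [sg_chain', Finset.prod_map_toList, hB, Finset.prod_image (fun a _ b _ h => hι h)]
      exact hchi) (by
      have h1 : Cs.length * (4 * Dm + 1) ≤ 2 ^ Dm * (4 * Dm + 1) := Nat.mul_le_mul_right _ hCsl
      have h2 : 2 ^ B.toList.length ≤ 2 ^ Dm := by
        refine Nat.pow_le_pow_right (by norm_num) ?_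
        rw [Finset.length_toList]
        exact hBc
      omega) hℓs le_rfl hl
  obtain ⟨l2, e2, k2⟩ := star (v0 := v0') (s := s) (b := s) hX1 hs1 le_rfl (hBc.trans hdd) (by
      have h2 : 2 ^ B.card ≤ 2 ^ Dm := Nat.pow_le_pow_right (by norm_num) hBc
      omega) (sgn3 v1 u) e1.dr k1
  refine ⟨l2, (e1.trans e2).mono ?_ (by omega), ?_⟩
  · have h1 : B.card * (2 * dd + 4) ≤ Dm * (2 * dd + 4) := Nat.mul_le_mul_right _ hBc
    omega
  · rw [hB, hB0] at k2
    exact k2

end Pool.Agent.H55.AG
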