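import Mathlib
import Pool.Agent.H55.AG.ParG
import Pool.Agent.H55.AG.StarX

set_option autoImplicit false
set_option linter.unusedSectionVars false

/-!
# Module AXTR: the substituted axioms of the Tseitin formula of `G` have short derivations

PROOF. `isClause_len`: induction. `axtr`: `A ∈ Ts D G ν c` gives `v`; `is := isv G ν v`, `Y := Yn G ν P ι`, `b := bn G ν a`,
`t := decide (v = r v1)`. `parl (fun i => !b i) is = true ↔ Odd (.. G.Adj v u ∧ (!b (ν s(v, u))) = true ..) ↔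
Odd (.. G.Adj v u ∧ a s(v, u) = true) ↔ xor (c v) t = true` (`parl_isv`, `bn_val`, `ha`), so `parl (fun i => !b i) is = xor (c v) t`, and
if `parl x is = xor t (parl (fun i => !b i) is)` then `parl x is = c v`, `A.eval x = true` by `parl_isv` and the definition of `Ts`.
Case `v = r u`: `starx` (with `v0'`) gives the line `sgn (sgn3 v1 u) (Bal dd v0' ((bd src tgt {u}).image ι))`, `sdl_at`,
`sgn3 v1 u = decide (u = v1) = decide (r u = r v1) = t`. Case `∀ u, r u ≠ v`: `t = false`, `sdl_off`, `ex_nbot` (1 line) gives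
`¬ (T dd fun _ => bot v0')`, this is `sgn false (Bal dd v0' ∅)` (`balX_empty`, `Bal` is `BalX .. A A`). Then `loc` (the hypotheses `Full 1000`,
`Full (1000 * (D + 1))`, .. follow from `hX`: `Full` is antitone in the number). The number of new lines is
`(2 * 2 ^ Dm + 7 + Dm * (2 * dd + 4)) + (D * (2 * 2 ^ dd * (4 * dd + 6) + 3) + 2 * D + 10)`.
-/

namespace Pool.Agent.H55.AG

open Finset Classical Pool.Agent.H3.Frg Pool.Agent.H3.Frg2 Pool.Agent.H3.Frg3 Pool.Agent.H3.Frg4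
  Pool.Agent.H90.UB

theorem isClause_len {V : Type} {k : ℕ} {A : Fm V} (h : IsClause k A) : A.len ≤ 4 * k := by
  have hlit : ∀ B : Fm V, IsLit B → B.len ≤ 2 := by
    rintro B ⟨v, rfl | rfl⟩
    · exact (by norm_num : (1 : ℕ) ≤ 2)
    · exact le_refl 2
  induction h with
  | lit k A hA =>
    have h1 := hlit A hA
    omega
  | or k A B hA _ ih =>
    have h1 := hlit A hA
    have h2 : (Fm.imp (Fm.neg A) B).len = (A.len + 1) + B.len + 1 := rfl
    omega

private theorem full_anti {V : Type} {ℓ ℓ' : ℕ} {X : Set (Fm V)} (h : Full ℓ X) (hl : ℓ' ≤ ℓ) :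
    Full ℓ' X := fun ψ hψ σ => h ψ ⟨hψ.1.trans hl, hψ.2⟩ σ

private theorem xor_aux (t c : Bool) : xor t (xor c t) = c := by
  cases t <;> cases c <;> rfl

private theorem balX_emp {V : Type} [DecidableEq V] (d : ℕ) (v0 : V) :
    Bal d v0 ∅ = T d fun _ => bot v0 := balX_empty ∅

theorem axtr {E Wv : Type} [Fintype E] [DecidableEq E] [Fintype Wv] [DecidableEq Wv]
    {src tgt : E → Wv} {v1 : Wv} {v0 : E} {ψ : E ≃ Fin (Fintype.card E)}
    {idx : ℕ → (Σ _ : Wv, Finset E)} {Dm N : ℕ} {C : ℕ → Fm ℕ}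
    (hP : GPs src tgt v1 v0 ψ idx Dm N C) {V : Type} [Fintype V] {G : SimpleGraph V}
    {D κ dd s : ℕ} (hdeg : ∀ v, (nbG G v).card ≤ D) {ν : Sym2 V → ℕ}
    (hν : Set.InjOn ν G.edgeSet) {c : V → Bool} {r : Wv → V} (hr : Function.Injective r)
    {P : E → Finset (Sym2 V)} (hPE : ∀ f, ∀ e ∈ P f, e ∈ G.edgeSet)
    (hPJ : ∀ f, Jn (P f) (r (src f)) (r (tgt f)))
    (hPκ : ∀ g, (univ.filter fun f => g ∈ P f).card ≤ κ) {a : Sym2 V → Bool}
    (ha : ∀ v, (Odd (univ.filter fun u => G.Adj v u ∧ a s(v, u) = true).card ↔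
      xor (c v) (decide (v = r v1)) = true))
    {V' : Type} [DecidableEq V'] {ι : E → V'} (hι : Function.Injective ι) (f : V' → ℕ)
    (g : ℕ → V') (hgf : ∀ v, g (f v) = v) {X : Set (Fm V')}
    (hX : Full (1000 * (D + 1) + (1000 + 2 ^ Dm * (4 * Dm + 1) + 100 * 2 ^ Dm)) X)
    (hC : ∀ i, (clp src tgt v0 (idx i)).ren ι ∈ X) (hκ : D * κ ≤ 2 ^ dd) (hdd : Dm ≤ 2 ^ dd)
    (hs : (1000 * (D + 1) + (1000 + 2 ^ Dm * (4 * Dm + 1) + 100 * 2 ^ Dm)) * 4 ^ dd ≤ s)
    (v0' : V') {A : Fm ℕ} (hA : A ∈ Ts D G ν c) {l : List (Fm V')} (hl : Dr X l) :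
    ∃ l', Ex X s s ((2 * 2 ^ Dm + 7 + Dm * (2 * dd + 4)) +
        (D * (2 * 2 ^ dd * (4 * dd + 6) + 3) + 2 * D + 10)) 0 l l' ∧
      A.bind (fun i => sgn (bn G ν a i) (Bal dd v0' (Yn G ν P ι i))) ∈ l' := by
  have hXD : Full (1000 * (D + 1)) X := full_anti hX (Nat.le_add_right _ _)
  have hXS : Full (1000 + 2 ^ Dm * (4 * Dm + 1) + 100 * 2 ^ Dm) X :=
    full_anti hX (Nat.le_add_left _ _)
  have hX1 : Full 1000 X := full_anti hXD (by omega)
  have hsD : 1000 * (D + 1) * 4 ^ dd ≤ s :=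
    (Nat.mul_le_mul_right _ (Nat.le_add_right _ _)).trans hs
  have hsS : (1000 + 2 ^ Dm * (4 * Dm + 1) + 100 * 2 ^ Dm) * 4 ^ dd ≤ s :=
    (Nat.mul_le_mul_right _ (Nat.le_add_left _ _)).trans hs
  have hs1 : 1000 * 4 ^ dd ≤ s :=
    (Nat.mul_le_mul_right _ (by omega : 1000 ≤ 1000 * (D + 1))).trans hsD
  obtain ⟨hA1, v, hAv, hAe⟩ := hA
  have hlen : (isv G ν v).length ≤ D := by
    rw [isv_length]
    exact hdeg v
  -- the parity of the constants
  have hpar : parl (fun i => !(bn G ν a i)) (isv G ν v) = xor (c v) (decide (v = r v1)) := by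
    rw [Bool.eq_iff_iff, parl_isv, ← ha v]
    have h1 : (univ.filter fun u => G.Adj v u ∧ (!(bn G ν a (ν s(v, u)))) = true) =
        (univ.filter fun u => G.Adj v u ∧ a s(v, u) = true) := by
      apply Finset.filter_congr
      intro u _
      constructor
      · rintro ⟨h2, h3⟩
        rw [bn_val hν a ((SimpleGraph.mem_edgeSet G).2 h2 : s(v, u) ∈ G.edgeSet), Bool.not_not] at h3
        exact ⟨h2, h3⟩
      · rintro ⟨h2, h3⟩
        refine ⟨h2, ?_⟩
        rw [bn_val hν a ((SimpleGraph.mem_edgeSet G).2 h2 : s(v, u) ∈ G.edgeSet), Bool.not_not]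
        exact h3
    rw [h1]
  have hAt : ∀ x : ℕ → Bool, parl x (isv G ν v) = xor (decide (v = r v1))
      (parl (fun i => !(bn G ν a i)) (isv G ν v)) → A.eval x = true := by
    intro x hx
    rw [hpar, xor_aux] at hx
    apply hAe x
    rw [← parl_isv x v, hx]
  have hvs : ∀ i, Fm.var i ∈ A.subs → i ∈ isv G ν v := by
    intro i hi
    rw [mem_isv]
    exact hAv i hi
  -- the equation of `v`
  have hline : ∃ l1, Ex X s s (2 * 2 ^ Dm + 7 + Dm * (2 * dd + 4)) 0 l l1 ∧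
      sgn (decide (v = r v1)) (Bal dd v0' (sdl (Yn G ν P ι) (isv G ν v))) ∈ l1 := by
    by_cases hv : ∃ u, r u = v
    · obtain ⟨u, rfl⟩ := hv
      obtain ⟨l1, e1, k1⟩ := starx hP ι hι f g hgf hXS hC hdd hsS v0' u hl
      refine ⟨l1, e1, ?_⟩
      rw [sdl_at hν hr hPE hPJ hι u]
      have h1 : decide (r u = r v1) = sgn3 v1 u := by
        unfold sgn3
        rw [decide_eq_decide]
        exact hr.eq_iff
      rw [h1]
      exact k1
    · have hv' : ∀ u, r u ≠ v := fun u hu => hv ⟨u, hu⟩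
      obtain ⟨l1, e1, k1⟩ := ex_nbot (s := s) (b := s) (d := dd) (v0 := v0') hX1 hs1 le_rfl hl
      refine ⟨l1, e1.mono (by omega) le_rfl, ?_⟩
      rw [sdl_off hν hPE hPJ hι hv', balX_emp]
      have h1 : decide (v = r v1) = false := decide_eq_false (fun h => hv' v1 h.symm)
      rw [h1]
      exact k1
  obtain ⟨l1, e1, k1⟩ := hline
  obtain ⟨l2, e2, k2⟩ := loc hXD hsD v0' (isv G ν v) hlen (Yn G ν P ι)
    (fun i => yn_card hν hPκ ι i) hκ (bn G ν a) A (isClause_len hA1) hvs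
    (decide (v = r v1)) hAt e1.dr k1
  exact ⟨l2, (e1.trans e2).mono le_rfl le_rfl, k2⟩

end Pool.Agent.H55.AG
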