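import Mathlib
import Pool.Agent.H55.AG.Defs

set_option autoImplicit false

/-!
# Module BALLX (Mathlib + Defs only): short paths in expanders

PROOF. For `x ∈ X` let `Bl j` = set of all `y ∈ X` with a walk of exactly or at most `j` steps from `x` inside `X`
(recursively: `Bl 0 = {x}`, `Bl (j+1) = Bl j ∪ (X \ Bl j).filter (∃ v ∈ Bl j, M.Adj v y)`). As long as
`2 * (Bl j).card ≤ X.card`: `(Bl j).card ≤ K * ((Bl (j+1)).card - (Bl j).card)`. So if `2 * (Bl j).card ≤ X.card` for all
`j < i + K` then `K * (Bl (i+K)).card ≥ K * (Bl i).card + K * (Bl i).card` (each of the `K` steps adds at least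
`(Bl i).card / K`), i.e. `(Bl (i + K)).card ≥ 2 * (Bl i).card`. By induction on `a`: if `2 * (Bl j).card ≤ X.card` for all
`j < K * a` then `2 ^ a ≤ (Bl (K * a)).card`. For `a = Nat.log 2 X.card + 1` this is impossible
(`(Bl j).card ≤ X.card < 2 ^ a`). So some `j ≤ K * a` has `2 * (Bl j).card > X.card`, hence (monotone)
`2 * (Bl (K * a)).card > X.card`, for `x` and for `y`: the two sets intersect (both are subsets of `X`). Walks of
at most `K * a` steps from `x` and from `y` to a common point; reverse the second and concatenate.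
From at most `j` steps to a function `p : ℕ → W`: `p i = z` for all `i` beyond the length in the recursion; the
statement needs the exact number `n` of steps: prove by induction on `j`:
`∀ z ∈ Bl j, ∃ n ≤ j, ∃ p, p 0 = x ∧ p n = z ∧ (∀ i < n, M.Adj (p i) (p (i+1))) ∧ ∀ i ≤ n, p i ∈ X`.
-/

namespace Pool.Agent.H55.AG

open Finset Classical

/-- the vertices of `X` which can be reached from `x` in at most `j` steps inside `X` -/
private noncomputable def Bl {W : Type} (M : SimpleGraph W) (X : Finset W) (x : W) : ℕ → Finset W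
  | 0 => {x}
  | j + 1 => Bl M X x j ∪ (X \ Bl M X x j).filter fun z => ∃ v ∈ Bl M X x j, M.Adj v z

private theorem Bl_sub {W : Type} (M : SimpleGraph W) (X : Finset W) {x : W} (hx : x ∈ X) (j : ℕ) :
    Bl M X x j ⊆ X := by
  induction j with
  | zero => exact Finset.singleton_subset_iff.2 hx
  | succ j ih =>
    intro z hz
    rw [Bl, Finset.mem_union] at hz
    rcases hz with hz | hz
    · exact ih hz
    · exact (Finset.mem_sdiff.1 (Finset.mem_filter.1 hz).1).1

private theorem Bl_mono {W : Type} (M : SimpleGraph W) (X : Finset W) (x : W) {i j : ℕ} (h : i ≤ j) :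
    Bl M X x i ⊆ Bl M X x j := by
  induction j, h using Nat.le_induction with
  | base => exact Finset.Subset.refl _
  | succ j _ ih => exact ih.trans Finset.subset_union_left

private theorem Bl_card {W : Type} (M : SimpleGraph W) (X : Finset W) (K : ℕ)
    (hexp : ∀ S ⊆ X, 2 * S.card ≤ X.card →
      S.card ≤ K * ((X \ S).filter fun x => ∃ v ∈ S, M.Adj v x).card)
    {x : W} (hx : x ∈ X) (j : ℕ) (h : 2 * (Bl M X x j).card ≤ X.card) :
    (Bl M X x j).card + K * (Bl M X x j).card ≤ K * (Bl M X x (j + 1)).card := by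
  have h1 := hexp _ (Bl_sub M X hx j) h
  have h2 : (Bl M X x (j + 1)).card = (Bl M X x j).card +
      ((X \ Bl M X x j).filter fun z => ∃ v ∈ Bl M X x j, M.Adj v z).card := by
    rw [Bl]
    refine Finset.card_union_of_disjoint ?_
    rw [Finset.disjoint_left]
    intro z hz hz'
    exact (Finset.mem_sdiff.1 (Finset.mem_filter.1 hz').1).2 hz
  rw [h2, mul_add]
  linarith

private theorem Bl_grow {W : Type} (M : SimpleGraph W) (X : Finset W) (K : ℕ)
    (hexp : ∀ S ⊆ X, 2 * S.card ≤ X.card →
      S.card ≤ K * ((X \ S).filter fun x => ∃ v ∈ S, M.Adj v x).card)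
    {x : W} (hx : x ∈ X) (i t : ℕ) (h : ∀ j < i + t, 2 * (Bl M X x j).card ≤ X.card) :
    (K + t) * (Bl M X x i).card ≤ K * (Bl M X x (i + t)).card := by
  induction t with
  | zero => simp
  | succ t ih =>
    have h1 := ih fun j hj => h j (by omega)
    have h2 := Bl_card M X K hexp hx (i + t) (h _ (by omega))
    have h3 := Finset.card_le_card (Bl_mono M X x (show i ≤ i + t by omega))
    have h4 : (K + (t + 1)) * (Bl M X x i).card = (K + t) * (Bl M X x i).card + (Bl M X x i).card := by ring
    rw [h4, ← add_assoc]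
    linarith

private theorem Bl_big {W : Type} (M : SimpleGraph W) (X : Finset W) (K : ℕ) (hK : 1 ≤ K)
    (hexp : ∀ S ⊆ X, 2 * S.card ≤ X.card →
      S.card ≤ K * ((X \ S).filter fun x => ∃ v ∈ S, M.Adj v x).card)
    {x : W} (hx : x ∈ X) (a : ℕ) (h : ∀ j < K * a, 2 * (Bl M X x j).card ≤ X.card) :
    2 ^ a ≤ (Bl M X x (K * a)).card := by
  induction a with
  | zero => simp [Bl]
  | succ a ih =>
    have h1 := ih fun j hj => h j (by
      have : K * (a + 1) = K * a + K := by ring
      omega)
    have h2 := Bl_grow M X K hexp hx (K * a) K (fun j hj => h j (by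
      have : K * (a + 1) = K * a + K := by ring
      omega))
    have h3 : K * a + K = K * (a + 1) := by ring
    rw [h3] at h2
    have h4 : K * (2 * (Bl M X x (K * a)).card) ≤ K * (Bl M X x (K * (a + 1))).card := by
      calc K * (2 * (Bl M X x (K * a)).card) = (K + K) * (Bl M X x (K * a)).card := by ring
        _ ≤ _ := h2
    have h5 := Nat.le_of_mul_le_mul_left h4 (by omega)
    rw [pow_succ]
    omega

private theorem Bl_half {W : Type} (M : SimpleGraph W) (X : Finset W) (K : ℕ) (hK : 1 ≤ K)
    (hexp : ∀ S ⊆ X, 2 * S.card ≤ X.card →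
      S.card ≤ K * ((X \ S).filter fun x => ∃ v ∈ S, M.Adj v x).card)
    {x : W} (hx : x ∈ X) : X.card < 2 * (Bl M X x (K * (Nat.log 2 X.card + 1))).card := by
  by_contra hn
  rw [not_lt] at hn
  have h1 := Bl_big M X K hK hexp hx (Nat.log 2 X.card + 1) (fun j hj =>
    le_trans (Nat.mul_le_mul_left _ (Finset.card_le_card (Bl_mono M X x hj.le))) hn)
  have h2 := Nat.lt_pow_succ_log_self (b := 2) (by norm_num) X.card
  have h3 : 0 < X.card := Finset.card_pos.2 ⟨x, hx⟩
  omega

private theorem Bl_path {W : Type} (M : SimpleGraph W) (X : Finset W) {x : W} (hx : x ∈ X) (j : ℕ) :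
    ∀ z ∈ Bl M X x j, ∃ n ≤ j, ∃ p : ℕ → W, p 0 = x ∧ p n = z ∧
      (∀ i < n, M.Adj (p i) (p (i + 1))) ∧ ∀ i ≤ n, p i ∈ X := by
  induction j with
  | zero =>
    intro z hz
    rw [Bl, Finset.mem_singleton] at hz
    exact ⟨0, le_rfl, fun _ => x, rfl, hz.symm, fun i hi => absurd hi (by omega), fun _ _ => hx⟩
  | succ j ih =>
    intro z hz
    have hzX := Bl_sub M X hx _ hz
    rw [Bl, Finset.mem_union] at hz
    rcases hz with hz | hz
    · obtain ⟨n, hn, hp⟩ := ih z hz
      exact ⟨n, by omega, hp⟩
    · obtain ⟨_, v, hv, hvz⟩ := Finset.mem_filter.1 hz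
      obtain ⟨n, hn, p, hp0, hpn, hpa, hpX⟩ := ih v hv
      refine ⟨n + 1, by omega, fun i => if i ≤ n then p i else z, ?_, ?_, ?_, ?_⟩
      · change (if 0 ≤ n then p 0 else z) = x
        rw [if_pos (Nat.zero_le _), hp0]
      · change (if n + 1 ≤ n then p (n + 1) else z) = z
        rw [if_neg (by omega)]
      · intro i hi
        change M.Adj (if i ≤ n then p i else z) (if i + 1 ≤ n then p (i + 1) else z)
        rw [if_pos (by omega : i ≤ n)]
        by_cases h : i + 1 ≤ n
        · rw [if_pos h]
          exact hpa i (by omega)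
        · have h1 : i = n := by omega
          rw [if_neg h, h1, hpn]
          exact hvz
      · intro i _
        change (if i ≤ n then p i else z) ∈ X
        split_ifs with h
        · exact hpX i h
        · exact hzX

theorem ball_path {W : Type} [Fintype W] (M : SimpleGraph W) (X : Finset W) (K : ℕ) (hK : 1 ≤ K)
    (hexp : ∀ S ⊆ X, 2 * S.card ≤ X.card →
      S.card ≤ K * ((X \ S).filter fun x => ∃ v ∈ S, M.Adj v x).card)
    {x y : W} (hx : x ∈ X) (hy : y ∈ X) :
    ∃ n ≤ 2 * (K * (Nat.log 2 X.card + 1)), ∃ p : ℕ → W, p 0 = x ∧ p n = y ∧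
      (∀ i < n, M.Adj (p i) (p (i + 1))) ∧ ∀ i ≤ n, p i ∈ X := by
  have h1 := Bl_half M X K hK hexp hx
  have h2 := Bl_half M X K hK hexp hy
  set J := K * (Nat.log 2 X.card + 1) with hJ
  obtain ⟨z, hz⟩ : (Bl M X x J ∩ Bl M X y J).Nonempty := by
    rw [← Finset.card_pos]
    have h3 := Finset.card_union_add_card_inter (Bl M X x J) (Bl M X y J)
    have h4 : (Bl M X x J ∪ Bl M X y J).card ≤ X.card :=
      Finset.card_le_card (Finset.union_subset (Bl_sub M X hx J) (Bl_sub M X hy J))
    omega
  rw [Finset.mem_inter] at hz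
  obtain ⟨n, hn, p, hp0, hpn, hpa, hpX⟩ := Bl_path M X hx J z hz.1
  obtain ⟨m, hm, q, hq0, hqm, hqa, hqX⟩ := Bl_path M X hy J z hz.2
  have hr : ∀ i, n ≤ i → (if i ≤ n then p i else q (n + m - i)) = q (n + m - i) := by
    intro i hi
    by_cases h : i ≤ n
    · have h5 : i = n := by omega
      rw [if_pos h, h5, hpn]
      have h6 : n + m - n = m := by omega
      rw [h6, hqm]
    · rw [if_neg h]
  refine ⟨n + m, by omega, fun i => if i ≤ n then p i else q (n + m - i), ?_, ?_, ?_, ?_⟩
  · change (if 0 ≤ n then p 0 else q (n + m - 0)) = x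
    rw [if_pos (Nat.zero_le _), hp0]
  · change (if n + m ≤ n then p (n + m) else q (n + m - (n + m))) = y
    rw [hr (n + m) (by omega), Nat.sub_self, hq0]
  · intro i hi
    change M.Adj (if i ≤ n then p i else q (n + m - i)) (if i + 1 ≤ n then p (i + 1) else q (n + m - (i + 1)))
    by_cases h : i < n
    · rw [if_pos h.le, if_pos (by omega : i + 1 ≤ n)]
      exact hpa i h
    · rw [hr i (by omega), hr (i + 1) (by omega)]
      have h5 := hqa (n + m - (i + 1)) (by omega)
      have h6 : n + m - (i + 1) + 1 = n + m - i := by omega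
      rw [h6] at h5
      exact h5.symm
  · intro i hi
    change (if i ≤ n then p i else q (n + m - i)) ∈ X
    split_ifs with h
    · exact hpX i h
    · exact hqX _ (by omega)

end Pool.Agent.H55.AG
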