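import Mathlib

/-!
# Module ENT (Mathlib only): entropy

PROOF. `ent_pair1`: `h x = Real.negMulLog x = - x * log x`. If `x = 0` (or `y = 0`): the left side is `y / 2`, the right
side `2 h (y / 2) - h y = y log 2` (compute: `- y log (y/2) + y log y`), `log 2 ≥ 1/2` (`Real.log_two_gt_d9`). Both
positive, `m = (x + y) / 2`, `x = m (1 + t)`, `y = m (1 - t)`, `|t| < 1`: the claim divided by `m` is
`t ^ 2 ≤ (1 + t) log (1 + t) + (1 - t) log (1 - t)`. By symmetry `t ≥ 0`; the derivative of the difference is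
`log (1 + t) - log (1 - t) - 2 t ≥ 0`, because its derivative is `1 / (1 + t) + 1 / (1 - t) - 2 ≥ 0` on `[0, 1)`
(`monotoneOn_of_deriv_nonneg` twice), values at `0` are `0`. (Other way: `log ((1+t)/(1-t)) ≥ 2 t`,
Mathlib: `Real.hasSum_log_sub_log_of_abs_lt_one` gives `log (1 + t) - log (1 - t) = ∑ 2 t^(2k+1)/(2k+1)`.)
`ent_pair`: sum of `ent_pair1`, then Cauchy-Schwarz `Finset.sum_sq_le_sum_mul_sum_of_sq_eq_mul` or
`div_add_div_same` / `Finset.inner_mul_le_norm_mul_norm`: `(∑ |p - q|) ^ 2 ≤ (∑ (p - q) ^ 2 / (p + q)) (∑ (p + q))` (terms with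
`p i + q i = 0` have `p i = q i = 0`), `∑ (p + q) = 2`.
`ent_le`: concavity (Jensen, `Real.concaveOn_negMulLog`): `∑ (1/m) h (p i) ≤ h (1/m) = log m / m`.
-/

set_option autoImplicit false

namespace Pool.Agent.H55.AG

open Finset

private theorem log_ge {t : ℝ} (h0 : 0 ≤ t) (h1 : t < 1) : 2 * t ≤ Real.log (1 + t) - Real.log (1 - t) := by
  have h := Real.hasSum_log_sub_log_of_abs_lt_one (x := t) (by rw [abs_of_nonneg h0]; exact h1)
  have h2 := le_hasSum h 0 (fun k _ => by positivity)
  simpa using h2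

private theorem g_nonneg {t : ℝ} (h0 : 0 ≤ t) (h1 : t < 1) :
    t ^ 2 ≤ (1 + t) * Real.log (1 + t) + (1 - t) * Real.log (1 - t) := by
  have hmono : MonotoneOn (fun s : ℝ => (1 + s) * Real.log (1 + s) + (1 - s) * Real.log (1 - s) - s ^ 2)
      (Set.Ico 0 1) := by
    apply monotoneOn_of_hasDerivWithinAt_nonneg (f' := fun s => Real.log (1 + s) - Real.log (1 - s) - 2 * s)
      (convex_Ico 0 1)
    · apply Continuous.continuousOn
      have c1 : Continuous fun s : ℝ => (1 + s) * Real.log (1 + s) :=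
        Real.continuous_mul_log.comp (continuous_const.add continuous_id)
      have c2 : Continuous fun s : ℝ => (1 - s) * Real.log (1 - s) :=
        Real.continuous_mul_log.comp (continuous_const.sub continuous_id)
      exact (c1.add c2).sub (continuous_pow 2)
    · intro s hs
      rw [interior_Ico] at hs
      apply HasDerivAt.hasDerivWithinAt
      have e1 : HasDerivAt (fun s : ℝ => 1 + s) 1 s := by
        simpa using (hasDerivAt_id s).const_add 1
      have e2 : HasDerivAt (fun s : ℝ => 1 - s) (-1) s := by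
        simpa using (hasDerivAt_id s).const_sub 1
      have f1 := e1.mul (e1.log (by have := hs.1; linarith))
      have f2 := e2.mul (e2.log (by have := hs.2; linarith))
      have f3 := hasDerivAt_pow 2 s
      have g := (f1.add f2).sub f3
      have h1 : (1 + s) ≠ 0 := by have := hs.1; linarith
      have h2 : (1 - s) ≠ 0 := by have := hs.2; linarith
      have hd : (1 * Real.log (1 + s) + (1 + s) * (1 / (1 + s)) +
          (-1 * Real.log (1 - s) + (1 - s) * (-1 / (1 - s))) - ((2 : ℕ) : ℝ) * s ^ (2 - 1)) =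
          Real.log (1 + s) - Real.log (1 - s) - 2 * s := by
        have a1 : (1 + s) * (1 / (1 + s)) = 1 := by field_simp
        have a2 : (1 - s) * (-1 / (1 - s)) = -1 := by field_simp
        rw [a1, a2]
        norm_num
        ring
      rw [← hd]
      exact g
    · intro s hs
      rw [interior_Ico] at hs
      have := log_ge hs.1.le hs.2
      linarith
  have := hmono (Set.left_mem_Ico.2 zero_lt_one) (Set.mem_Ico.2 ⟨h0, h1⟩) h0
  simp only at this
  rw [add_zero, sub_zero, Real.log_one] at this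
  linarith

private theorem ent_aux {x y : ℝ} (hy : 0 < y) (hxy : y ≤ x) :
    (x - y) ^ 2 / (2 * (x + y)) ≤
      2 * Real.negMulLog ((x + y) / 2) - Real.negMulLog x - Real.negMulLog y := by
  have hx : 0 < x := lt_of_lt_of_le hy hxy
  obtain ⟨m, hm⟩ : ∃ m, m = (x + y) / 2 := ⟨_, rfl⟩
  have hm0 : 0 < m := by rw [hm]; positivity
  obtain ⟨t, ht⟩ : ∃ t, t = (x - y) / (x + y) := ⟨_, rfl⟩
  have ht0 : 0 ≤ t := by rw [ht]; apply div_nonneg <;> linarith
  have ht1 : t < 1 := by rw [ht, div_lt_one (by linarith)]; linarith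
  have hmt : m * t = (x - y) / 2 := by
    rw [hm, ht]
    field_simp
  have hxm : x = m * (1 + t) := by rw [mul_add, hmt, hm]; ring
  have hym : y = m * (1 - t) := by rw [mul_sub, hmt, hm]; ring
  have hg := g_nonneg ht0 ht1
  have hlx : Real.log x = Real.log m + Real.log (1 + t) := by
    rw [hxm, Real.log_mul hm0.ne' (by linarith)]
  have hly : Real.log y = Real.log m + Real.log (1 - t) := by
    rw [hym, Real.log_mul hm0.ne' (by linarith)]
  have e1 : (x - y) ^ 2 / (2 * (x + y)) = m * t ^ 2 := by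
    have h1 : x - y = 2 * (m * t) := by rw [hmt]; ring
    have h2 : x + y = 2 * m := by rw [hm]; ring
    rw [h1, h2]
    field_simp
  rw [e1, ← hm]
  unfold Real.negMulLog
  rw [hlx, hly]
  have e2 : 2 * (-m * Real.log m) - -x * (Real.log m + Real.log (1 + t)) -
      -y * (Real.log m + Real.log (1 - t)) =
      m * ((1 + t) * Real.log (1 + t) + (1 - t) * Real.log (1 - t)) := by
    rw [hxm, hym]
    ring
  rw [e2]
  exact mul_le_mul_of_nonneg_left hg hm0.le

private theorem ent_zero {y : ℝ} (hy : 0 ≤ y) :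
    (0 - y) ^ 2 / (2 * (0 + y)) ≤
      2 * Real.negMulLog ((0 + y) / 2) - Real.negMulLog 0 - Real.negMulLog y := by
  rcases hy.eq_or_lt with rfl | hy
  · simp
  · rw [Real.negMulLog_zero, zero_add, zero_sub, sub_zero]
    have e1 : (-y) ^ 2 / (2 * y) = y / 2 := by
      field_simp
    rw [e1]
    unfold Real.negMulLog
    rw [Real.log_div hy.ne' (by norm_num)]
    have h2 := Real.log_two_gt_d9
    have e2 : 2 * (-(y / 2) * (Real.log y - Real.log 2)) - -y * Real.log y = y * Real.log 2 := by ring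
    rw [e2]
    nlinarith

theorem ent_pair1 {x y : ℝ} (hx : 0 ≤ x) (hy : 0 ≤ y) :
    (x - y) ^ 2 / (2 * (x + y)) ≤
      2 * Real.negMulLog ((x + y) / 2) - Real.negMulLog x - Real.negMulLog y := by
  rcases hx.eq_or_lt with rfl | hx
  · exact ent_zero hy
  rcases hy.eq_or_lt with rfl | hy
  · have h := ent_zero hx.le
    have e1 : (x - 0) ^ 2 / (2 * (x + 0)) = (0 - x) ^ 2 / (2 * (0 + x)) := by
      rw [add_comm x 0]
      congr 1
      ring
    rw [e1, add_comm x 0]
    linarith
  rcases le_total y x with h | h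
  · exact ent_aux hy h
  · have h1 := ent_aux hx h
    have e1 : (x - y) ^ 2 = (y - x) ^ 2 := by ring
    rw [e1, add_comm x y]
    linarith

theorem ent_pair {ι : Type} [Fintype ι] {p q : ι → ℝ} (hp : ∀ i, 0 ≤ p i) (hq : ∀ i, 0 ≤ q i)
    (sp : ∑ i, p i = 1) (sq : ∑ i, q i = 1) :
    (∑ i, |p i - q i|) ^ 2 / 4 ≤
      ∑ i, (2 * Real.negMulLog ((p i + q i) / 2) - Real.negMulLog (p i) - Real.negMulLog (q i)) := by
  have h1 : (∑ i, |p i - q i|) ^ 2 ≤ (∑ i, (p i - q i) ^ 2 / (p i + q i)) * ∑ i, (p i + q i) := by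
    apply Finset.sum_sq_le_sum_mul_sum_of_sq_le_mul
    · intro i _
      exact div_nonneg (sq_nonneg _) (add_nonneg (hp i) (hq i))
    · intro i _
      exact add_nonneg (hp i) (hq i)
    · intro i _
      rw [sq_abs]
      by_cases h : p i + q i = 0
      · have h1 : p i = 0 := by have := hp i; have := hq i; linarith
        have h2 : q i = 0 := by have := hp i; have := hq i; linarith
        rw [h1, h2]
        simp
      · exact (div_mul_cancel₀ _ h).symm.le
  have h2 : ∑ i, (p i + q i) = 2 := by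
    rw [Finset.sum_add_distrib, sp, sq]
    norm_num
  rw [h2] at h1
  have h3 : ∑ i, (p i - q i) ^ 2 / (2 * (p i + q i)) ≤
      ∑ i, (2 * Real.negMulLog ((p i + q i) / 2) - Real.negMulLog (p i) - Real.negMulLog (q i)) :=
    Finset.sum_le_sum fun i _ => ent_pair1 (hp i) (hq i)
  have h4 : ∑ i, (p i - q i) ^ 2 / (2 * (p i + q i)) = (∑ i, (p i - q i) ^ 2 / (p i + q i)) / 2 := by
    rw [Finset.sum_div]
    refine Finset.sum_congr rfl fun i _ => ?_
    rw [div_div, mul_comm]
  rw [h4] at h3
  linarith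

theorem ent_le {ι : Type} [Fintype ι] {p : ι → ℝ} (hp : ∀ i, 0 ≤ p i) (sp : ∑ i, p i = 1) :
    ∑ i, Real.negMulLog (p i) ≤ Real.log (Fintype.card ι) := by
  have hm : (0 : ℝ) < Fintype.card ι := by
    rcases isEmpty_or_nonempty ι with h | h
    · simp at sp
    · exact_mod_cast Fintype.card_pos
  obtain ⟨m, hmm⟩ : ∃ m : ℝ, m = Fintype.card ι := ⟨_, rfl⟩
  rw [← hmm] at hm ⊢
  have h := Real.concaveOn_negMulLog.le_map_sum (t := (Finset.univ : Finset ι)) (w := fun _ => 1 / m)
    (p := p) (fun i _ => by positivity) (by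
      rw [Finset.sum_const, Finset.card_univ, nsmul_eq_mul, ← hmm]
      field_simp) (fun i _ => hp i)
  simp only [smul_eq_mul] at h
  rw [← Finset.mul_sum, ← Finset.mul_sum, sp, mul_one] at h
  have e : Real.negMulLog (1 / m) = 1 / m * Real.log m := by
    unfold Real.negMulLog
    rw [Real.log_div one_ne_zero hm.ne', Real.log_one]
    ring
  rw [e] at h
  exact le_of_mul_le_mul_left h (by positivity)

end Pool.Agent.H55.AG
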