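import Mathlib
import Pool.Agent.H55.AG.Defs
import Pool.Agent.H55.AG.Ent

set_option autoImplicit false

/-!
# Module CMA: the random walk of a list of involutions, mass that crosses a cut, growth of the entropy

`Pm l v u`: the mass at `v` that started at `u`; the head of `l` is the LAST involution.

PROOF. `pm_nonneg`, `pm_row` (`∑ u, Pm l v u = 1` for every `v`), `pm_col` not needed: induction on `l`.
`mass`: induction on `l`. `[]`: `v ∈ A`, `u ∉ A`: `Pm [] v u = 0`. `π :: l`: put `F v = ∑ u ∈ Aᶜ, Pm l v u`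
(`0 ≤ F v ≤ 1` by `pm_row`). `∑ v ∈ A, (F v + F (π v)) / 2 = ∑ v ∈ A, F v / 2 + ∑ v ∈ A, π v ∈ A, F (π v) / 2 + ∑ v ∈ A,
π v ∉ A, F (π v) / 2`; the second sum is `∑ v ∈ A, π v ∈ A, F v / 2` (reindex by the involution) `≤ ∑ v ∈ A, F v / 2`, the
third is at most `crs π A / 2`. So `∑ v ∈ A, F' v ≤ ∑ v ∈ A, F v + crs π A / 2`.
`crs_compl`: bijection `v ↦ π v` between `{v ∈ A | π v ∉ A}` and `{v ∈ Aᶜ | π v ∉ Aᶜ}`.
`grow`: `Φ l = ∑ v, ∑ u, negMulLog (Pm l v u)`. Reindexing the sum over `v` by `π` (an `Equiv`, from `hπ`):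
`Φ (π :: l) - Φ l = (1/2) ∑ v, K v`, `K v = ∑ u, (2 h ((Pm l v u + Pm l (π v) u) / 2) - h (Pm l v u) - h (Pm l (π v) u))`,
`K v ≥ D v ^ 2 / 4 ≥ 0`, `D v = ∑ u, |Pm l v u - Pm l (π v) u|` (`ent_pair`), `K (π v) = K v`. So
`Φ (π :: l) - Φ l ≥ (1/2) (∑ over v ∈ A, π v ∉ A, of K v + the same over v ∉ A, π v ∈ A) = ∑ v ∈ X, K v`, where
`X = {v ∈ A | π v ∉ A}`, `c = X.card ≥ μ`. For `v ∈ X`: `D v ≥ 2 * (1 - F v - F' (π v))`, `F v = ∑ u ∉ A, Pm l v u`,
`F' w = ∑ u ∈ A, Pm l w u`: indeed `∑ u ∈ A, (Pm l v u - Pm l (π v) u) = (1 - F v) - F' (π v)` and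
`∑ u ∉ A, (Pm l (π v) u - Pm l v u) = (1 - F' (π v)) - F v`. By `mass` for `A` and for `Aᶜ` (with `crs_compl`)
`∑ v ∈ X, F v + ∑ v ∈ X, F' (π v) ≤ crossings ≤ m / 32` where `32 * ∑ crs ≤ m`. With `x v = D v / 2`:
`∑ v ∈ X, x v ≥ c - m / 32 ≥ c - μ / 2 ≥ c / 2` (`m ≤ 16 μ`), so by Cauchy-Schwarz `∑ v ∈ X, x v ^ 2 ≥ (c / 2) ^ 2 / c = c / 4 ≥
μ / 4 ≥ m / 64`, and `K v ≥ x v ^ 2`. If `μ = 0` then `m = 0`: trivial.
`phi_le`: `ent_le` for every `v`.
-/

namespace Pool.Agent.H55.AG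

open Finset Classical

variable {W : Type} [Fintype W]

/-- the mass at `v` that started at `u` -/
noncomputable def Pm : List (W → W) → W → W → ℝ
  | [], v, u => if v = u then 1 else 0
  | π :: l, v, u => (Pm l v u + Pm l (π v) u) / 2

/-- the potential -/
noncomputable def Phi (l : List (W → W)) : ℝ := ∑ v, ∑ u, Real.negMulLog (Pm l v u)

theorem pm_nonneg (l : List (W → W)) : ∀ v u, 0 ≤ Pm l v u := by
  induction l with
  | nil =>
    intro v u
    rw [Pm]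
    split_ifs
    · exact zero_le_one
    · exact le_refl _
  | cons π l ih =>
    intro v u
    rw [Pm]
    have h1 := ih v u
    have h2 := ih (π v) u
    linarith

theorem pm_row (l : List (W → W)) : ∀ v, ∑ u, Pm l v u = 1 := by
  induction l with
  | nil =>
    intro v
    simp only [Pm]
    rw [Finset.sum_ite_eq]
    simp
  | cons π l ih =>
    intro v
    simp only [Pm]
    rw [← Finset.sum_div, Finset.sum_add_distrib, ih v, ih (π v)]
    norm_num

theorem crs_compl {π : W → W} (hπ : ∀ v, π (π v) = v) (A : Finset W) : crs π Aᶜ = crs π A := by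
  unfold crs
  refine Finset.card_nbij' π π ?_ ?_ ?_ ?_
  · intro v hv
    have hv' := hv
    simp only [Finset.coe_filter, Set.mem_setOf_eq, Finset.mem_compl, not_not] at hv' ⊢
    rw [hπ]
    exact ⟨hv'.2, hv'.1⟩
  · intro v hv
    have hv' := hv
    simp only [Finset.coe_filter, Set.mem_setOf_eq, Finset.mem_compl, not_not] at hv' ⊢
    rw [hπ]
    exact ⟨hv'.2, hv'.1⟩
  · intro v _
    exact hπ v
  · intro v _
    exact hπ v

/-- reindexing by an involution -/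
private theorem sum_inv {π : W → W} (hπ : ∀ v, π (π v) = v) (A : Finset W) (f : W → ℝ) :
    ∑ v ∈ A.filter (fun v => π v ∈ A), f (π v) = ∑ v ∈ A.filter (fun v => π v ∈ A), f v := by
  refine Finset.sum_nbij' π π ?_ ?_ ?_ ?_ ?_
  · intro v hv
    simp only [Finset.mem_filter] at hv ⊢
    rw [hπ]
    exact ⟨hv.2, hv.1⟩
  · intro v hv
    simp only [Finset.mem_filter] at hv ⊢
    rw [hπ]
    exact ⟨hv.2, hv.1⟩
  · intro v _
    exact hπ v
  · intro v _
    exact hπ v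
  · intro v _
    rfl

theorem mass (l : List (W → W)) (hl : ∀ π ∈ l, ∀ v, π (π v) = v) (A : Finset W) :
    ∑ v ∈ A, ∑ u ∈ Aᶜ, Pm l v u ≤ ((l.map fun π => crs π A).sum : ℕ) / 2 := by
  induction l with
  | nil =>
    simp only [List.map_nil, List.sum_nil, Nat.cast_zero, zero_div]
    refine le_of_eq (Finset.sum_eq_zero fun v hv => Finset.sum_eq_zero fun u hu => ?_)
    rw [Pm, if_neg]
    rintro rfl
    exact (Finset.mem_compl.1 hu) hv
  | cons π l ih =>
    have ih' := ih fun σ hσ => hl σ (List.mem_cons_of_mem _ hσ)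
    have hπ := hl π List.mem_cons_self
    obtain ⟨f, hf⟩ : ∃ f : W → ℝ, f = fun v => ∑ u ∈ Aᶜ, Pm l v u := ⟨_, rfl⟩
    have hf0 : ∀ v, 0 ≤ f v := fun v => by
      rw [hf]
      exact Finset.sum_nonneg fun u _ => pm_nonneg l v u
    have hf1 : ∀ v, f v ≤ 1 := fun v => by
      rw [hf, ← pm_row l v]
      exact Finset.sum_le_sum_of_subset_of_nonneg (Finset.subset_univ _) fun u _ _ => pm_nonneg l v u
    have e1 : ∑ v ∈ A, ∑ u ∈ Aᶜ, Pm (π :: l) v u = (∑ v ∈ A, f v + ∑ v ∈ A, f (π v)) / 2 := by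
      rw [← Finset.sum_add_distrib, Finset.sum_div]
      refine Finset.sum_congr rfl fun v _ => ?_
      rw [hf, ← Finset.sum_add_distrib, Finset.sum_div]
      rfl
    have e2 : ∑ v ∈ A, f (π v) ≤ ∑ v ∈ A, f v + (crs π A : ℝ) := by
      rw [← Finset.sum_filter_add_sum_filter_not A (fun v => π v ∈ A) (fun v => f (π v)),
        sum_inv hπ]
      have h1 : ∑ v ∈ A.filter (fun v => π v ∈ A), f v ≤ ∑ v ∈ A, f v :=
        Finset.sum_le_sum_of_subset_of_nonneg (Finset.filter_subset _ _) fun v _ _ => hf0 v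
      have h2 : ∑ v ∈ A.filter (fun v => ¬ π v ∈ A), f (π v) ≤ (crs π A : ℝ) := by
        refine (Finset.sum_le_sum fun v _ => hf1 (π v)).trans (le_of_eq ?_)
        rw [Finset.sum_const, nsmul_eq_mul, mul_one]
        rfl
      linarith
    have e3 : (∑ v ∈ A, f v) ≤ ((l.map fun π => crs π A).sum : ℕ) / 2 := by
      rw [hf]
      exact ih'
    rw [e1, List.map_cons, List.sum_cons, Nat.cast_add]
    linarith

theorem phi_nil : Phi ([] : List (W → W)) = 0 := by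
  unfold Phi
  refine Finset.sum_eq_zero fun v _ => Finset.sum_eq_zero fun u _ => ?_
  rw [Pm]
  split_ifs
  · exact Real.negMulLog_one
  · exact Real.negMulLog_zero

theorem phi_le (l : List (W → W)) (hl : ∀ π ∈ l, ∀ v, π (π v) = v) :
    Phi l ≤ Fintype.card W * Real.log (Fintype.card W) := by
  unfold Phi
  refine (Finset.sum_le_sum fun v _ => ent_le (pm_nonneg l v) (pm_row l v)).trans (le_of_eq ?_)
  rw [Finset.sum_const, nsmul_eq_mul]
  rfl

theorem grow (l : List (W → W)) (hl : ∀ π ∈ l, ∀ v, π (π v) = v) {π : W → W}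
    (hπ : ∀ v, π (π v) = v) {μ : ℕ} (hμ : Fintype.card W ≤ 16 * μ) (A : Finset W)
    (hA : μ ≤ crs π A) (hs : 32 * (l.map fun π => crs π A).sum ≤ Fintype.card W) :
    Phi l + (Fintype.card W : ℝ) / 64 ≤ Phi (π :: l) := by
  obtain ⟨h, hh⟩ : ∃ h : ℝ → ℝ, h = Real.negMulLog := ⟨_, rfl⟩
  obtain ⟨K, hK⟩ : ∃ K : W → ℝ, K = fun v => ∑ u, (2 * h ((Pm l v u + Pm l (π v) u) / 2) -
    h (Pm l v u) - h (Pm l (π v) u)) := ⟨_, rfl⟩
  obtain ⟨x, hx⟩ : ∃ x : W → ℝ, x = fun v => (∑ u, |Pm l v u - Pm l (π v) u|) / 2 := ⟨_, rfl⟩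
  have hKx : ∀ v, x v ^ 2 ≤ K v := by
    intro v
    have h1 := ent_pair (pm_nonneg l v) (pm_nonneg l (π v)) (pm_row l v) (pm_row l (π v))
    rw [hK, hx, hh]
    refine le_trans (le_of_eq ?_) h1
    ring
  have hK0 : ∀ v, 0 ≤ K v := fun v => (sq_nonneg _).trans (hKx v)
  have hKπ : ∀ v, K (π v) = K v := by
    intro v
    rw [hK]
    refine Finset.sum_congr rfl fun u _ => ?_
    rw [hπ, add_comm (Pm l (π v) u)]
    ring
  -- the potential
  let e : Equiv.Perm W := ⟨π, π, hπ, hπ⟩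
  have hΦ : ∑ v, K v = 2 * (Phi (π :: l) - Phi l) := by
    have h1 : Phi (π :: l) = ∑ v, ∑ u, h ((Pm l v u + Pm l (π v) u) / 2) := by
      unfold Phi
      rw [hh]
      rfl
    have h2 : Phi l = ∑ v, ∑ u, h (Pm l v u) := by
      unfold Phi
      rw [hh]
    have h3 : Phi l = ∑ v, ∑ u, h (Pm l (π v) u) := by
      rw [h2]
      exact (Equiv.sum_comp e (fun v => ∑ u, h (Pm l v u))).symm
    have h4 : ∑ v, K v = 2 * (∑ v, ∑ u, h ((Pm l v u + Pm l (π v) u) / 2)) -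
        (∑ v, ∑ u, h (Pm l v u)) - ∑ v, ∑ u, h (Pm l (π v) u) := by
      rw [Finset.mul_sum, ← Finset.sum_sub_distrib, ← Finset.sum_sub_distrib]
      refine Finset.sum_congr rfl fun v _ => ?_
      rw [hK, Finset.mul_sum, ← Finset.sum_sub_distrib, ← Finset.sum_sub_distrib]
    rw [h4, ← h1, ← h2, ← h3]
    ring
  obtain ⟨X, hX⟩ : ∃ X : Finset W, X = A.filter fun v => π v ∉ A := ⟨_, rfl⟩
  obtain ⟨Y, hY⟩ : ∃ Y : Finset W, Y = Aᶜ.filter fun v => π v ∈ A := ⟨_, rfl⟩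
  have hcX : X.card = crs π A := by rw [hX]; rfl
  have hXY : ∀ f : W → ℝ, ∑ v ∈ X, f (π v) = ∑ v ∈ Y, f v := by
    intro f
    rw [hX, hY]
    refine Finset.sum_nbij' π π ?_ ?_ ?_ ?_ ?_
    · intro v hv
      simp only [Finset.mem_filter, Finset.mem_compl] at hv ⊢
      rw [hπ]
      exact ⟨hv.2, hv.1⟩
    · intro v hv
      simp only [Finset.mem_filter, Finset.mem_compl] at hv ⊢
      rw [hπ]
      exact ⟨hv.2, hv.1⟩
    · intro v _
      exact hπ v
    · intro v _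
      exact hπ v
    · intro v _
      rfl
  have hdisj : Disjoint X Y := by
    rw [Finset.disjoint_left]
    intro v hv hv'
    rw [hX, Finset.mem_filter] at hv
    rw [hY, Finset.mem_filter, Finset.mem_compl] at hv'
    exact hv'.1 hv.1
  have hsum : 2 * ∑ v ∈ X, K v ≤ ∑ v, K v := by
    have h1 : ∑ v ∈ X ∪ Y, K v ≤ ∑ v, K v :=
      Finset.sum_le_sum_of_subset_of_nonneg (Finset.subset_univ _) fun v _ _ => hK0 v
    rw [Finset.sum_union hdisj, ← hXY K] at h1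
    simp only [hKπ] at h1
    linarith
  have hgain : ∑ v ∈ X, K v ≤ Phi (π :: l) - Phi l := by linarith
  -- the case without crossings
  rcases Nat.eq_zero_or_pos (crs π A) with hc0 | hcpos
  · have h1 : Fintype.card W = 0 := by omega
    rw [h1, Nat.cast_zero, zero_div, add_zero]
    have h2 : 0 ≤ ∑ v ∈ X, K v := Finset.sum_nonneg fun v _ => hK0 v
    linarith
  -- lower bound of `x`
  obtain ⟨f, hf⟩ : ∃ f : W → ℝ, f = fun v => ∑ u ∈ Aᶜ, Pm l v u := ⟨_, rfl⟩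
  obtain ⟨f', hf'⟩ : ∃ f' : W → ℝ, f' = fun v => ∑ u ∈ A, Pm l v u := ⟨_, rfl⟩
  have hff : ∀ v, f' v + f v = 1 := by
    intro v
    rw [hf, hf', ← pm_row l v]
    exact Finset.sum_add_sum_compl A _
  have hxl : ∀ v, 1 - f v - f' (π v) ≤ x v := by
    intro v
    have h1 : ∑ u, |Pm l v u - Pm l (π v) u| = ∑ u ∈ A, |Pm l v u - Pm l (π v) u| +
        ∑ u ∈ Aᶜ, |Pm l v u - Pm l (π v) u| := (Finset.sum_add_sum_compl A _).symm
    have h2 : ∑ u ∈ A, (Pm l v u - Pm l (π v) u) ≤ ∑ u ∈ A, |Pm l v u - Pm l (π v) u| :=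
      Finset.sum_le_sum fun u _ => le_abs_self _
    have h3 : ∑ u ∈ Aᶜ, (Pm l (π v) u - Pm l v u) ≤ ∑ u ∈ Aᶜ, |Pm l v u - Pm l (π v) u| :=
      Finset.sum_le_sum fun u _ => by
        rw [abs_sub_comm]
        exact le_abs_self _
    rw [Finset.sum_sub_distrib] at h2 h3
    have h4 := hff v
    have h5 := hff (π v)
    rw [hf, hf'] at h4 h5
    rw [hx, hf, hf']
    simp only at h4 h5 ⊢
    rw [h1]
    linarith
  have hm1 : ∑ v ∈ X, f v ≤ ((l.map fun π => crs π A).sum : ℕ) / 2 := by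
    refine le_trans ?_ (mass l hl A)
    rw [hf, hX]
    exact Finset.sum_le_sum_of_subset_of_nonneg (Finset.filter_subset _ _) fun v _ _ =>
      Finset.sum_nonneg fun u _ => pm_nonneg l v u
  have hm2 : ∑ v ∈ X, f' (π v) ≤ ((l.map fun π => crs π A).sum : ℕ) / 2 := by
    rw [hXY f']
    have h1 := mass l hl Aᶜ
    rw [compl_compl] at h1
    have h2 : (l.map fun π => crs π Aᶜ) = l.map fun π => crs π A := by
      refine List.map_congr_left fun σ hσ => ?_
      exact crs_compl (hl σ hσ) A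
    rw [h2] at h1
    refine le_trans ?_ h1
    rw [hf', hY]
    exact Finset.sum_le_sum_of_subset_of_nonneg (Finset.filter_subset _ _) fun v _ _ =>
      Finset.sum_nonneg fun u _ => pm_nonneg l v u
  have hsR : 32 * (((l.map fun π => crs π A).sum : ℕ) : ℝ) ≤ (Fintype.card W : ℝ) := by
    exact_mod_cast hs
  have hμR : (Fintype.card W : ℝ) ≤ 16 * (μ : ℝ) := by exact_mod_cast hμ
  have hAR : (μ : ℝ) ≤ (crs π A : ℝ) := by exact_mod_cast hA
  have hcR : (0 : ℝ) < (crs π A : ℝ) := by exact_mod_cast hcpos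
  have hxs : (crs π A : ℝ) / 2 ≤ ∑ v ∈ X, x v := by
    have h1 : ∑ v ∈ X, (1 - f v - f' (π v)) ≤ ∑ v ∈ X, x v := Finset.sum_le_sum fun v _ => hxl v
    rw [Finset.sum_sub_distrib, Finset.sum_sub_distrib, Finset.sum_const, nsmul_eq_mul, mul_one,
      hcX] at h1
    linarith
  have hcs : (∑ v ∈ X, x v) ^ 2 ≤ (crs π A : ℝ) * ∑ v ∈ X, x v ^ 2 := by
    rw [← hcX]
    exact sq_sum_le_card_mul_sum_sq
  have hsq : (crs π A : ℝ) / 4 ≤ ∑ v ∈ X, x v ^ 2 := by
    have h1 : ((crs π A : ℝ) / 2) ^ 2 ≤ (crs π A : ℝ) * ∑ v ∈ X, x v ^ 2 :=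
      le_trans (pow_le_pow_left₀ (by positivity) hxs 2) hcs
    have h2 : (crs π A : ℝ) * ((crs π A : ℝ) / 4) ≤ (crs π A : ℝ) * ∑ v ∈ X, x v ^ 2 := by
      refine le_trans (le_of_eq ?_) h1
      ring
    exact le_of_mul_le_mul_left h2 hcR
  have hfin : ∑ v ∈ X, x v ^ 2 ≤ ∑ v ∈ X, K v := Finset.sum_le_sum fun v _ => hKx v
  linarith

end Pool.Agent.H55.AG
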