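import Mathlib
import Pool.Agent.H55.AG.CMa

set_option autoImplicit false

/-!
# Module CM: the cut-matching game

PROOF. Suppose that for no list `l` of length `R` with `Q π` for all `π ∈ l` and `(R : ℝ) ≤ 64 * log card + 1` all balanced
cuts are large. By induction on `n ≤ 64 * log card + 1` (as long as `(n : ℝ) ≤ 64 * log card + 1`) there is a list of length
`n` of members of `Q` with `n * card / 64 ≤ Phi l`: `n = 0`: `phi_nil`; step: the list `l` of length `n` has a balanced cut
`A` with `32 * ∑ crs < card`, take `π` from `hQ A` and `grow`. For `n = ⌊64 * log card + 1⌋₊ > 64 * log card`: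
`n * card / 64 ≤ Phi l ≤ card * log card` (`phi_le`), so `n ≤ 64 * log card`, contradiction
(`card > 0`: if `card = 0` take the empty list). At the end turn the list into a function on `Fin R`
(`List.get`, `List.sum_ofFn` / `Fin.sum_univ_def`).
-/

namespace Pool.Agent.H55.AG

open Finset Classical

theorem cut_matching {W : Type} [Fintype W] (μ : ℕ) (Q : (W → W) → Prop)
    (hinv : ∀ π, Q π → ∀ v, π (π v) = v) (hμ : Fintype.card W ≤ 16 * μ)
    (hQ : ∀ A : Finset W, Bln A → ∃ π, Q π ∧ μ ≤ crs π A) :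
    ∃ (R : ℕ) (π : Fin R → W → W), (R : ℝ) ≤ 64 * Real.log (Fintype.card W) + 1 ∧
      (∀ t, Q (π t)) ∧ ∀ A : Finset W, Bln A → Fintype.card W ≤ 32 * ∑ t, crs (π t) A := by
  rcases Nat.eq_zero_or_pos (Fintype.card W) with h0 | hpos
  · refine ⟨0, fun t => t.elim0, ?_, fun t => t.elim0, fun A _ => ?_⟩
    · rw [h0]
      simp
    · rw [h0]
      exact Nat.zero_le _
  have hm : (1 : ℝ) ≤ (Fintype.card W : ℝ) := by exact_mod_cast hpos
  have hlog : 0 ≤ Real.log (Fintype.card W : ℝ) := Real.log_nonneg hm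
  have key : ∃ l : List (W → W), (l.length : ℝ) ≤ 64 * Real.log (Fintype.card W) + 1 ∧ (∀ π ∈ l, Q π) ∧
      ∀ A : Finset W, Bln A → Fintype.card W ≤ 32 * (l.map fun π => crs π A).sum := by
    by_contra hno
    push Not at hno
    have step : ∀ n : ℕ, (n : ℝ) ≤ 64 * Real.log (Fintype.card W) + 1 → ∃ l : List (W → W),
        l.length = n ∧ (∀ π ∈ l, Q π) ∧ (n : ℝ) * Fintype.card W / 64 ≤ Phi l := by
      intro n
      induction n with
      | zero =>
        intro _
        refine ⟨[], rfl, fun π hπ => absurd hπ List.not_mem_nil, ?_⟩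
        rw [phi_nil, Nat.cast_zero, zero_mul, zero_div]
      | succ n ih =>
        intro hn
        have hn' : (n : ℝ) ≤ 64 * Real.log (Fintype.card W) + 1 := by
          push_cast at hn
          linarith
        obtain ⟨l, hl1, hl2, hl3⟩ := ih hn'
        obtain ⟨A, hA1, hA2⟩ := hno l (by rw [hl1]; exact hn') hl2
        obtain ⟨π, hπ1, hπ2⟩ := hQ A hA1
        refine ⟨π :: l, by rw [List.length_cons, hl1], ?_, ?_⟩
        · intro ρ hρ
          rcases List.mem_cons.1 hρ with h | h
          · rw [h]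
            exact hπ1
          · exact hl2 ρ h
        · have h1 := grow l (fun ρ hρ => hinv ρ (hl2 ρ hρ)) (hinv π hπ1) hμ A hπ2 hA2.le
          push_cast
          linarith
    obtain ⟨n, hn⟩ : ∃ n : ℕ, n = ⌊64 * Real.log (Fintype.card W) + 1⌋₊ := ⟨_, rfl⟩
    have hn1 : (n : ℝ) ≤ 64 * Real.log (Fintype.card W) + 1 := by
      rw [hn]
      exact Nat.floor_le (by linarith)
    have hn2 : 64 * Real.log (Fintype.card W) + 1 < (n : ℝ) + 1 := by
      rw [hn]
      exact Nat.lt_floor_add_one _
    obtain ⟨l, hl1, hl2, hl3⟩ := step n hn1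
    have h1 := phi_le l fun ρ hρ => hinv ρ (hl2 ρ hρ)
    nlinarith
  obtain ⟨l, hl1, hl2, hl3⟩ := key
  refine ⟨l.length, fun t => l[t.1], hl1, fun t => hl2 _ (List.getElem_mem _), fun A hA => ?_⟩
  have h1 := Fin.sum_univ_fun_getElem l (fun π => crs π A)
  rw [h1]
  exact hl3 A hA

end Pool.Agent.H55.AG
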