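import Mathlib
import Pool.Agent.H55.AG.Defs

set_option autoImplicit false

/-!
# Module CARVTD (Mathlib + Defs only): from a carving to a nice tree decomposition

PROOF. Claim: `Carve G L A → TD G (4 * L + 1) (A \ ends G A) (ends G A)`. For `A = univ`: `cutG G univ = ∅`, so
`ends G univ = ∅`. Write `X A = ends G A` (end points on both sides); `(X A).card ≤ 2 * (cutG G A).card ≤ 2 * L`
(every `Carve G L A` has `(cutG G A).card ≤ L`: cases). Facts: (i) `v ∈ A`, `v ∉ X A`, `G.Adj v u` → `u ∈ A`.
(ii) `u ∉ A`, `v ∈ A`, `G.Adj u v` → `u ∈ X A` and `v ∈ X A`.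
General lemma 1 (add a set to the bag): `TD G k F B`, `Disjoint C F`, `(B ∪ C).card ≤ k + 1` → `TD G k F (B ∪ C)`:
induction on `C` (`Finset.induction_on`), rule `intro` (nothing to do for `v ∈ B`).
General lemma 2 (forget a set): `TD G k F (B ∪ C)`, `Disjoint B C`, `Disjoint F C`, every `G`-neighbour of an
element of `C` is in `F ∪ B ∪ C` → `TD G k (F ∪ C) B`: induction on `C`, rule `forget`.
* `single v`: if `X {v}` is nonempty then `v ∈ X {v}` (fst of a cut pair), `{v} \ X {v} = ∅`, and `TD G _ ∅ (X {v})` by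
  lemma 1 from `nil` (`card ≤ 2 L`). If `X {v} = ∅`: `v` has no neighbour: `TD ∅ {v}` by `intro`, then `forget`:
  `TD {v} ∅` (`insert v ∅ = {v}`).
* `join A B`: put `Y = X A ∪ X B`, `card ≤ 4 L`. `X B` is disjoint from `A \ X A`: let `v ∈ X B`, `v ∈ A`; `v` is an end point
  of a pair that leaves `B`, `v ∉ B` (disjoint), so it is the second component of a pair `(u, v)`, `u ∈ B`, so
  `u ∉ A`, `v ∈ A`, adjacent, so `v ∈ X A`. Lemma 1: `TD (A \ X A) Y`, `TD (B \ X B) Y`, rule `join` (no edge between
  `A \ X A` and `B \ X B` by (i)): `TD ((A \ X A) ∪ (B \ X B)) Y`. Now `X (A ∪ B) ⊆ Y` (a pair leaving `A ∪ B`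
  leaves `A` or `B`), `A ∪ B ⊆ (A \ X A) ∪ (B \ X B) ∪ Y`, elements of `C := Y \ X (A ∪ B)` are in `A ∪ B` (a `v ∈ X A`,
  `v ∉ A ∪ B` is the second component of a pair `(u, v)`, `u ∈ A`, which leaves `A ∪ B`) and all their neighbours
  are in `A ∪ B` by (i) for `A ∪ B`. Lemma 2 forgets `C`: `TD (.. ∪ C) (X (A ∪ B))`, and
  `(A \ X A) ∪ (B \ X B) ∪ C = (A ∪ B) \ X (A ∪ B)` (elements of `A \ X A` are not in `X (A ∪ B)`: `(A \ X A)` is disjoint
  from `Y` by the above).
-/

namespace Pool.Agent.H55.AG

open Finset Classical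

section

variable {V : Type} [Fintype V] {G : SimpleGraph V}

private theorem mem_cutG {S : Finset V} {p : V × V} : p ∈ cutG G S ↔ G.Adj p.1 p.2 ∧ p.1 ∈ S ∧ p.2 ∉ S := by
  unfold cutG
  rw [Finset.mem_filter]
  exact ⟨fun h => h.2, fun h => ⟨Finset.mem_univ _, h⟩⟩

private theorem mem_ends {A : Finset V} {v : V} : v ∈ ends G A ↔
    (v ∈ A ∧ ∃ u, u ∉ A ∧ G.Adj v u) ∨ (v ∉ A ∧ ∃ u ∈ A, G.Adj u v) := by
  unfold ends
  rw [Finset.mem_union, Finset.mem_image, Finset.mem_image]
  constructor
  · rintro (⟨p, hp, rfl⟩ | ⟨p, hp, rfl⟩)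
    · have h := mem_cutG.1 hp
      exact Or.inl ⟨h.2.1, p.2, h.2.2, h.1⟩
    · have h := mem_cutG.1 hp
      exact Or.inr ⟨h.2.2, p.1, h.2.1, h.1⟩
  · rintro (⟨h1, u, h2, h3⟩ | ⟨h1, u, h2, h3⟩)
    · exact Or.inl ⟨(v, u), mem_cutG.2 ⟨h3, h1, h2⟩, rfl⟩
    · exact Or.inr ⟨(u, v), mem_cutG.2 ⟨h3, h2, h1⟩, rfl⟩

private theorem card_ends (A : Finset V) : (ends G A).card ≤ 2 * (cutG G A).card := by
  unfold ends
  have h1 := Finset.card_union_le ((cutG G A).image Prod.fst) ((cutG G A).image Prod.snd)
  have h2 : ((cutG G A).image Prod.fst).card ≤ (cutG G A).card := Finset.card_image_le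
  have h3 : ((cutG G A).image Prod.snd).card ≤ (cutG G A).card := Finset.card_image_le
  omega

private theorem carve_card {L : ℕ} {A : Finset V} (h : Carve G L A) : (cutG G A).card ≤ L := by
  cases h with
  | single v h => exact h
  | join A B _ _ _ h => exact h

private theorem td_add {k : ℕ} {F B : Finset V} (h : TD G k F B) (C : Finset V) (hC : Disjoint C F)
    (hc : (B ∪ C).card ≤ k + 1) : TD G k F (B ∪ C) := by
  induction C using Finset.induction_on with
  | empty => rwa [Finset.union_empty]
  | insert c C hcC ih =>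
    have hc' : (B ∪ C).card ≤ k + 1 := le_trans
      (Finset.card_le_card (Finset.union_subset_union_right (Finset.subset_insert _ _))) hc
    have h1 := ih (Finset.disjoint_of_subset_left (Finset.subset_insert _ _) hC) hc'
    have hcF : c ∉ F := Finset.disjoint_left.1 hC (Finset.mem_insert_self _ _)
    by_cases h2 : c ∈ B ∪ C
    · have h3 : B ∪ insert c C = B ∪ C := by
        rw [Finset.union_insert, Finset.insert_eq_of_mem h2]
      rwa [h3]
    · rw [Finset.union_insert] at hc ⊢
      rw [Finset.card_insert_of_notMem h2] at hc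
      exact TD.intro F (B ∪ C) c h1 hcF h2 (by omega)

private theorem td_del {k : ℕ} {B : Finset V} (C : Finset V) : ∀ F : Finset V, TD G k F (B ∪ C) → Disjoint B C →
    Disjoint F C → (∀ v ∈ C, ∀ u, G.Adj v u → u ∈ F ∪ B ∪ C) → TD G k (F ∪ C) B := by
  induction C using Finset.induction_on with
  | empty =>
    intro F h _ _ _
    rwa [Finset.union_empty] at h ⊢
  | insert c C hcC ih =>
    intro F h hB hF hn
    have hcB : c ∉ B := fun h => Finset.disjoint_left.1 hB h (Finset.mem_insert_self _ _)
    have hcF : c ∉ F := fun h => Finset.disjoint_left.1 hF h (Finset.mem_insert_self _ _)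
    rw [Finset.union_insert] at h
    have h1 : TD G k (insert c F) (B ∪ C) := by
      refine TD.forget F (B ∪ C) c h ?_ hcF ?_
      · intro h2
        rcases Finset.mem_union.1 h2 with h3 | h3
        · exact hcB h3
        · exact hcC h3
      · intro u hu
        have h2 := hn c (Finset.mem_insert_self _ _) u hu
        rw [Finset.mem_union, Finset.mem_union, Finset.mem_insert] at h2
        rw [Finset.mem_union]
        rcases h2 with (h2 | h2) | h2 | h2
        · exact Or.inl h2
        · exact Or.inr (Or.inl h2)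
        · exact absurd h2.symm hu.ne
        · exact Or.inr (Or.inr h2)
    have h2 := ih (insert c F) h1 (Finset.disjoint_of_subset_right (Finset.subset_insert _ _) hB) ?_ ?_
    · have h3 : insert c F ∪ C = F ∪ insert c C := by
        rw [Finset.insert_union, Finset.union_insert]
      rwa [h3] at h2
    · rw [Finset.disjoint_insert_left]
      exact ⟨hcC, Finset.disjoint_of_subset_right (Finset.subset_insert _ _) hF⟩
    · intro v hv u hu
      have h2 := hn v (Finset.mem_insert_of_mem hv) u hu
      rw [Finset.mem_union, Finset.mem_union, Finset.mem_insert] at h2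
      rw [Finset.mem_union, Finset.mem_union, Finset.mem_insert]
      tauto

private theorem td_carve {L : ℕ} {A : Finset V} (h : Carve G L A) :
    TD G (4 * L + 1) (A \ ends G A) (ends G A) := by
  induction h with
  | single v hv =>
    have hcard := card_ends (G := G) {v}
    rcases Finset.eq_empty_or_nonempty (ends G {v}) with h0 | ⟨x, hx⟩
    · rw [h0, Finset.sdiff_empty]
      have h1 : TD G (4 * L + 1) ∅ (insert v ∅) :=
        TD.intro ∅ ∅ v TD.nil (Finset.notMem_empty _) (Finset.notMem_empty _) (by simp)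
      have h2 : TD G (4 * L + 1) (insert v ∅) ∅ := by
        refine TD.forget ∅ ∅ v h1 (Finset.notMem_empty _) (Finset.notMem_empty _) ?_
        intro u hu
        exfalso
        have h3 : v ∈ ends G {v} := by
          rw [mem_ends]
          refine Or.inl ⟨Finset.mem_singleton_self _, u, ?_, hu⟩
          rw [Finset.mem_singleton]
          exact hu.ne.symm
        rw [h0] at h3
        exact Finset.notMem_empty _ h3
      exact h2
    · have hv' : v ∈ ends G {v} := by
        rw [mem_ends] at hx ⊢
        rcases hx with ⟨h1, u, h2, h3⟩ | ⟨h1, u, h2, h3⟩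
        · rw [Finset.mem_singleton] at h1
          subst h1
          exact Or.inl ⟨Finset.mem_singleton_self _, u, h2, h3⟩
        · rw [Finset.mem_singleton] at h2
          subst h2
          exact Or.inl ⟨Finset.mem_singleton_self _, x, h1, h3⟩
      have h1 : ({v} : Finset V) \ ends G {v} = ∅ := by
        rw [Finset.sdiff_eq_empty_iff_subset, Finset.singleton_subset_iff]
        exact hv'
      rw [h1]
      have h2 := td_add (TD.nil (G := G) (k := 4 * L + 1)) (ends G {v}) (Finset.disjoint_empty_right _)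
        (by rw [Finset.empty_union]; omega)
      rwa [Finset.empty_union] at h2
  | join A B hA hB hd hc ihA ihB =>
    have cA := carve_card hA
    have cB := carve_card hB
    have eA := card_ends (G := G) A
    have eB := card_ends (G := G) B
    have hYc : (ends G A ∪ ends G B).card ≤ 4 * L + 1 + 1 := by
      have := Finset.card_union_le (ends G A) (ends G B)
      omega
    have hBA : ∀ v ∈ ends G B, v ∈ A → v ∈ ends G A := by
      intro v hv hvA
      rw [mem_ends] at hv ⊢
      rcases hv with ⟨h1, _⟩ | ⟨h1, u, h2, h3⟩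
      · exact absurd h1 (Finset.disjoint_left.1 hd hvA)
      · exact Or.inl ⟨hvA, u, fun h => Finset.disjoint_left.1 hd h h2, h3.symm⟩
    have hAB : ∀ v ∈ ends G A, v ∈ B → v ∈ ends G B := by
      intro v hv hvB
      rw [mem_ends] at hv ⊢
      rcases hv with ⟨h1, _⟩ | ⟨h1, u, h2, h3⟩
      · exact absurd hvB (Finset.disjoint_left.1 hd h1)
      · exact Or.inl ⟨hvB, u, fun h => Finset.disjoint_left.1 hd h2 h, h3.symm⟩
    have hin : ∀ v ∈ A, v ∉ ends G A → ∀ u, G.Adj v u → u ∈ A := by
      intro v hv hn u hu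
      by_contra hcon
      exact hn (mem_ends.2 (Or.inl ⟨hv, u, hcon, hu⟩))
    have h1 : TD G (4 * L + 1) (A \ ends G A) (ends G A ∪ ends G B) := by
      refine td_add ihA _ ?_ hYc
      rw [Finset.disjoint_left]
      intro v hv h2
      rw [Finset.mem_sdiff] at h2
      exact h2.2 (hBA v hv h2.1)
    have h2 : TD G (4 * L + 1) (B \ ends G B) (ends G A ∪ ends G B) := by
      rw [Finset.union_comm]
      refine td_add ihB _ ?_ (by rw [Finset.union_comm]; exact hYc)
      rw [Finset.disjoint_left]
      intro v hv h2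
      rw [Finset.mem_sdiff] at h2
      exact h2.2 (hAB v hv h2.1)
    have hdd : Disjoint (A \ ends G A) (B \ ends G B) :=
      Finset.disjoint_of_subset_left Finset.sdiff_subset (Finset.disjoint_of_subset_right Finset.sdiff_subset hd)
    have h3 : TD G (4 * L + 1) ((A \ ends G A) ∪ (B \ ends G B)) (ends G A ∪ ends G B) := by
      refine TD.join _ _ _ h1 h2 hdd ?_
      intro u hu v hv huv
      rw [Finset.mem_sdiff] at hu hv
      exact Finset.disjoint_left.1 hd (hin u hu.1 hu.2 v huv) hv.1
    have hX : ends G (A ∪ B) ⊆ ends G A ∪ ends G B := by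
      intro v hv
      rw [Finset.mem_union, mem_ends, mem_ends]
      rw [mem_ends] at hv
      rcases hv with ⟨h4, u, h5, h6⟩ | ⟨h4, u, h5, h6⟩
      · rw [Finset.mem_union, not_or] at h5
        rcases Finset.mem_union.1 h4 with h7 | h7
        · exact Or.inl (Or.inl ⟨h7, u, h5.1, h6⟩)
        · exact Or.inr (Or.inl ⟨h7, u, h5.2, h6⟩)
      · rw [Finset.mem_union, not_or] at h4
        rcases Finset.mem_union.1 h5 with h7 | h7
        · exact Or.inl (Or.inr ⟨h4.1, u, h7, h6⟩)
        · exact Or.inr (Or.inr ⟨h4.2, u, h7, h6⟩)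
    have hC : ∀ v ∈ (ends G A ∪ ends G B) \ ends G (A ∪ B), v ∈ A ∪ B := by
      intro v hv
      rw [Finset.mem_sdiff] at hv
      by_contra hcon
      apply hv.2
      rw [mem_ends]
      right
      refine ⟨hcon, ?_⟩
      rw [Finset.mem_union, not_or] at hcon
      rcases Finset.mem_union.1 hv.1 with h4 | h4
      · rcases mem_ends.1 h4 with ⟨h5, _⟩ | ⟨_, u, h5, h6⟩
        · exact absurd h5 hcon.1
        · exact ⟨u, Finset.mem_union_left _ h5, h6⟩
      · rcases mem_ends.1 h4 with ⟨h5, _⟩ | ⟨_, u, h5, h6⟩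
        · exact absurd h5 hcon.2
        · exact ⟨u, Finset.mem_union_right _ h5, h6⟩
    have h4 : TD G (4 * L + 1) (((A \ ends G A) ∪ (B \ ends G B)) ∪ ((ends G A ∪ ends G B) \ ends G (A ∪ B)))
        (ends G (A ∪ B)) := by
      refine td_del _ _ ?_ ?_ ?_ ?_
      · rw [Finset.union_sdiff_of_subset hX]
        exact h3
      · exact Finset.disjoint_sdiff
      · rw [Finset.disjoint_left]
        intro v hv h5
        have h6 := (Finset.mem_sdiff.1 h5).1
        rcases Finset.mem_union.1 hv with h7 | h7
        · rw [Finset.mem_sdiff] at h7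
          rcases Finset.mem_union.1 h6 with h8 | h8
          · exact h7.2 h8
          · exact h7.2 (hBA v h8 h7.1)
        · rw [Finset.mem_sdiff] at h7
          rcases Finset.mem_union.1 h6 with h8 | h8
          · exact h7.2 (hAB v h8 h7.1)
          · exact h7.2 h8
      · intro v hv u hu
        have h5 := hC v hv
        have h6 : u ∈ A ∪ B := by
          by_contra hcon
          exact (Finset.mem_sdiff.1 hv).2 (mem_ends.2 (Or.inl ⟨h5, u, hcon, hu⟩))
        simp only [Finset.mem_union, Finset.mem_sdiff] at h6 ⊢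
        tauto
    have h5 : ((A \ ends G A) ∪ (B \ ends G B)) ∪ ((ends G A ∪ ends G B) \ ends G (A ∪ B)) =
        (A ∪ B) \ ends G (A ∪ B) := by
      ext v
      constructor
      · intro hv
        rw [Finset.mem_sdiff]
        rcases Finset.mem_union.1 hv with h6 | h6
        · rcases Finset.mem_union.1 h6 with h7 | h7
          · rw [Finset.mem_sdiff] at h7
            refine ⟨Finset.mem_union_left _ h7.1, fun h8 => ?_⟩
            rcases Finset.mem_union.1 (hX h8) with h9 | h9
            · exact h7.2 h9
            · exact h7.2 (hBA v h9 h7.1)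
          · rw [Finset.mem_sdiff] at h7
            refine ⟨Finset.mem_union_right _ h7.1, fun h8 => ?_⟩
            rcases Finset.mem_union.1 (hX h8) with h9 | h9
            · exact h7.2 (hAB v h9 h7.1)
            · exact h7.2 h9
        · exact ⟨hC v h6, (Finset.mem_sdiff.1 h6).2⟩
      · intro hv
        simp only [Finset.mem_union, Finset.mem_sdiff] at hv ⊢
        tauto
    rwa [h5] at h4

end

theorem td_univ {V : Type} [Fintype V] {G : SimpleGraph V} {L : ℕ} (h : Carve G L univ) :
    TD G (4 * L + 1) univ ∅ := by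
  have h1 := td_carve h
  have h2 : ends G univ = ∅ := by
    ext v
    rw [mem_ends]
    constructor
    · rintro (⟨_, u, h3, _⟩ | ⟨h3, _⟩)
      · exact absurd (Finset.mem_univ _) h3
      · exact absurd (Finset.mem_univ _) h3
    · intro h3
      exact absurd h3 (Finset.notMem_empty _)
  rwa [h2, Finset.sdiff_empty] at h1

end Pool.Agent.H55.AG
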