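import Mathlib
import Pool.Agent.H3.Md.FinN

set_option autoImplicit false
set_option linter.unusedSectionVars false

/-!
# Module MB: substitution in formulas with counting gates

PROOF. Inductions on `MF` (a nested inductive type: use `ind0` in `H3/Md/Ev.lean` if `induction` does not work, or structural
recursion `theorem .. : ∀ A : MF ℕ, ..  | MF.var i => .. | MF.neg A => .. | MF.imp A B => .. | MF.mod q i n l => ..`).
`bindM_ofFm`, `bindM_inst`, `bindM_inj_ofFm`: clear. `gates_bindM`: the gates of `ofFm X` are `[]` (`gates_ofFm`). `good_bindM`: `List.ofFn` of the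
composition is `(List.ofFn l).map _` (`List.map_ofFn`), `List.countP_map`. `msz_bindM`: `msz (ofFm X) = X.enc.length` (`msz_ofFm` in `FinN.lean`);
`msz (var i) = (Fm.var i).enc.length ≥ 1`. `mdep_bindM`: induction on `MDep`; `var`: `MDep.base`. `mdep_succ`: induction on `MDep`.
`lv_bindM`: induction on `t` (for all `A`): gates by `gates_bindM`, `{M | M ∈ (gates A).map f} = f '' {M | M ∈ gates A}`,
`Set.ncard_image_le` (finite: `List.finite_toSet`); a gate of `bindM σ A` is `bindM σ M`, `M ∈ gates A`, `M = MF.mod q i n l` (`gates_mod`).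
`lv_mono2`: induction on `t`. `lv_last`: for `t = 0`: `gates` are `gates A ++ (gates A ++ gates (ofFm T)) = []`; `t + 1`: the set of gates is
the one of `A`.
-/

namespace Pool.Agent.H55.AG

open Finset Pool.Agent.H3.Frg Pool.Agent.H3.Frg2 Pool.Agent.H3.Frg4 Pool.Agent.H3.Md

/-- substitution of formulas without gates for the variables -/
def bindM {W : Type} (σ : ℕ → Fm W) : MF ℕ → MF W
  | MF.var i => ofFm (σ i)
  | MF.neg A => MF.neg (bindM σ A)
  | MF.imp A B => MF.imp (bindM σ A) (bindM σ B)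
  | MF.mod q i n l => MF.mod q i n fun j => bindM σ (l j)

variable {W : Type}

theorem bindM_ofFm (σ : ℕ → Fm W) (A : Fm ℕ) : bindM σ (ofFm A) = ofFm (A.bind σ) := by
  induction A with
  | var i => rfl
  | neg A ih => rw [ofFm, bindM, ih, Fm.bind, ofFm]
  | imp A B ih1 ih2 => rw [ofFm, bindM, ih1, ih2, Fm.bind, ofFm]

theorem bindM_inst (σ : ℕ → Fm W) (σ' : ℕ → MF ℕ) (ψ : Fm ℕ) :
    bindM σ (inst σ' ψ) = inst (fun m => bindM σ (σ' m)) ψ := by
  induction ψ with
  | var i => rfl
  | neg A ih => rw [inst, bindM, ih, inst]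
  | imp A B ih1 ih2 => rw [inst, bindM, ih1, ih2, inst]

theorem ofFm_inj {A B : Fm W} (h : ofFm A = ofFm B) : A = B := by
  induction A generalizing B with
  | var i =>
    cases B with
    | var j =>
      rw [ofFm, ofFm, MF.var.injEq] at h
      rw [h]
    | neg B => exact absurd h (by simp [ofFm])
    | imp B B' => exact absurd h (by simp [ofFm])
  | neg A ih =>
    cases B with
    | var j => exact absurd h (by simp [ofFm])
    | neg B =>
      rw [ofFm, ofFm, MF.neg.injEq] at h
      rw [ih h]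
    | imp B B' => exact absurd h (by simp [ofFm])
  | imp A A' ih1 ih2 =>
    cases B with
    | var j => exact absurd h (by simp [ofFm])
    | neg B => exact absurd h (by simp [ofFm])
    | imp B B' =>
      rw [ofFm, ofFm, MF.imp.injEq] at h
      rw [ih1 h.1, ih2 h.2]

theorem gates_bindM (σ : ℕ → Fm W) (A : MF ℕ) : gates (bindM σ A) = (gates A).map (bindM σ) := by
  induction A using ind0 with
  | hv x =>
    rw [bindM, gates_ofFm, gates]
    rfl
  | hn A ih => rw [bindM, gates, ih, gates]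
  | hi A B ih1 ih2 => rw [bindM, gates, ih1, ih2, gates, List.map_append]
  | hm q i n l => rfl

theorem good_bindM (σ : ℕ → Fm W) {v : MF W → Bool} (h : Good v) :
    Good fun A : MF ℕ => v (bindM σ A) := by
  intro q i n l
  show v (MF.mod q i n fun j => bindM σ (l j)) = _
  rw [h]
  have h1 : (List.ofFn fun j => bindM σ (l j)) = (List.ofFn l).map (bindM σ) := by
    rw [List.map_ofFn]
    rfl
  rw [h1, List.countP_map]
  rfl

theorem msz_bindM (σ : ℕ → Fm ℕ) {b : ℕ} (hb : 1 ≤ b) (hσ : ∀ m, (σ m).enc.length ≤ b)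
    (A : MF ℕ) : msz (bindM σ A) ≤ msz A * b := by
  induction A using ind0 with
  | hv x =>
    rw [bindM, msz_ofFm, msz]
    refine (hσ x).trans ?_
    have h1 : 1 ≤ (Fm.var x).enc.length := by
      rw [Fm.enc, List.length_cons]
      omega
    exact Nat.le_mul_of_pos_left b h1
  | hn A ih =>
    rw [bindM, msz, msz, add_mul]
    omega
  | hi A B ih1 ih2 =>
    rw [bindM, msz, msz, add_mul, add_mul]
    omega
  | hm q i n l =>
    rw [bindM, msz, msz, one_mul]
    exact hb

theorem mdep_bindM (σ : ℕ → Fm W) {P : MF ℕ → Prop} {P' : MF W → Prop}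
    (hP : ∀ A, P A → P' (bindM σ A)) (hv : ∀ m, P' (ofFm (σ m))) {D : ℕ} {A : MF ℕ}
    (h : MDep P D A) : MDep P' D (bindM σ A) := by
  induction h with
  | var d v => exact MDep.base _ _ (hv v)
  | base d A hA => exact MDep.base _ _ (hP _ hA)
  | gate d q i n l => exact MDep.gate _ _ _ _ _
  | neg d A _ ih => exact MDep.neg _ _ ih
  | imp d A B _ _ ih1 ih2 => exact MDep.imp _ _ _ ih1 ih2

theorem mdep_succ {P : MF W → Prop} {D : ℕ} {A : MF W} (h : MDep P D A) :
    MDep P (D + 1) A := by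
  induction h with
  | var d v => exact MDep.var _ _
  | base d A hA => exact MDep.base _ _ hA
  | gate d q i n l => exact MDep.gate _ _ _ _ _
  | neg d A _ ih => exact MDep.neg _ _ ih
  | imp d A B _ _ ih1 ih2 => exact MDep.imp _ _ _ ih1 ih2

theorem lv_bindM (σ : ℕ → Fm W) {P : MF ℕ → Prop} {P' : MF W → Prop} {Q : ℕ → Prop}
    (hP : ∀ A, P A → P' (bindM σ A)) (hv : ∀ m, P' (ofFm (σ m))) {D c : ℕ} (t : ℕ) :
    ∀ A : MF ℕ, Lv P Q D c t A → Lv P' Q D c t (bindM σ A) := by
  induction t with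
  | zero =>
    intro A h
    refine ⟨mdep_bindM σ hP hv h.1, ?_⟩
    rw [gates_bindM, h.2]
    rfl
  | succ t ih =>
    intro A h
    refine ⟨mdep_bindM σ hP hv h.1, ?_, fun q i n l hM => ?_⟩
    · have h1 : {M | M ∈ gates (bindM σ A)} = bindM σ '' {M | M ∈ gates A} := by
        ext M
        rw [Set.mem_setOf_eq, gates_bindM, List.mem_map]
        exact Iff.rfl
      rw [h1]
      exact (Set.ncard_image_le (gates A).finite_toSet).trans h.2.1
    · rw [gates_bindM, List.mem_map] at hM
      obtain ⟨M, hM1, hM2⟩ := hM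
      obtain ⟨q', i', n', l', rfl⟩ := gates_mod hM1
      rw [bindM] at hM2
      cases hM2
      have h2 := h.2.2 _ _ _ _ hM1
      exact ⟨h2.1, fun j => ih _ (h2.2 j)⟩

theorem lv_mono2 {P P' : MF W → Prop} {Q Q' : ℕ → Prop} (hP : ∀ A, P A → P' A)
    (hQ : ∀ q, Q q → Q' q) {D c c' : ℕ} (hc : c ≤ c') (t : ℕ) :
    ∀ A : MF W, Lv P Q D c t A → Lv P' Q' (D + 1) c' t A := by
  induction t with
  | zero =>
    intro A h
    exact ⟨mdep_succ (MDep_mono hP h.1), h.2⟩
  | succ t ih =>
    intro A h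
    refine ⟨mdep_succ (MDep_mono hP h.1), h.2.1.trans hc, fun q i n l hM => ?_⟩
    have h1 := h.2.2 q i n l hM
    exact ⟨hQ _ h1.1, fun j => ih _ (h1.2 j)⟩

/-- the last lines -/
theorem lv_last {P : MF W → Prop} {Q : ℕ → Prop} {D c t : ℕ} {A : MF W}
    (h : Lv P Q D c t A) (h' : Lv P Q D c t (MF.neg A)) {T : Fm W} (hT : P (ofFm T)) :
    Lv P Q (D + 1) c t (MF.imp (MF.neg A) (ofFm T)) ∧
      Lv P Q (D + 1) c t (MF.imp A (MF.imp (MF.neg A) (ofFm T))) := by
  have h1 : Lv P Q (D + 1) c t A := lv_mono2 (fun _ hA => hA) (fun _ hq => hq) le_rfl t A h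
  have h2 : MDep P (D + 1) (MF.imp (MF.neg A) (ofFm T)) :=
    MDep.imp _ _ _ (Lv_dep h') (MDep.base _ _ hT)
  have h3 : MDep P (D + 1) (MF.imp A (MF.imp (MF.neg A) (ofFm T))) :=
    MDep.imp _ _ _ (Lv_dep h) h2
  refine ⟨Lv_sub h1 h2 fun M hM => ?_, Lv_sub h1 h3 fun M hM => ?_⟩
  · rw [gates, gates, gates_ofFm, List.append_nil] at hM
    exact hM
  · rw [gates, gates, gates, gates_ofFm, List.append_nil, List.mem_append] at hM
    exact hM.elim id id

end Pool.Agent.H55.AG
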