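import Mathlib
import Pool.Agent.H55.AG.MB
import Pool.Agent.H90.UB.Dr

set_option autoImplicit false
set_option linter.unusedSectionVars false

/-!
# Module DMD: derivations with counting gates as lists

PROOF. `dm_der`: as `to_der` in `H90/UB/Dr.lean`. `dm_of_dr`: induction on `Dr`; an instance `ψ.bind σ` of a sound scheme:
`ofFm (ψ.bind σ) = inst (fun m => ofFm (σ m)) ψ` (`inst_ofFm` in `H3/Md/FinN.lean`), sound for all `v`.
`dm_ext`: by induction on `k ≤ L` there is `l` with `DM`, `l0 ⊆ l`, `bindM σ (pf i) ∈ l` for `i < k` and every element of `l` is in `l0` or of the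
form `bindM σ (pf i)`. Hypothesis line: already in `l0`. Axiom line `pf i = inst σ' ψ`: `bindM_inst`, `good_bindM` (`v` good gives
`fun A => v (bindM σ A)` good), `ψ.len ≤ ℓ ≤ ℓ'`. Modus ponens: `bindM` of `imp`.
`dm_last`: `ψ = imp (var 0) (imp (neg (var 0)) (var 1))` has length `6`, `inst` with `0 ↦ A`, `1 ↦ T`.
-/

namespace Pool.Agent.H55.AG

open Finset Pool.Agent.H3.Frg Pool.Agent.H3.Frg2 Pool.Agent.H3.Frg4 Pool.Agent.H3.Md
  Pool.Agent.H90.UB

variable {W : Type}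

/-- a derivation with counting gates as a list, last line first -/
inductive DM (ℓ : ℕ) (Hyp : Set (MF W)) : List (MF W) → Prop
  | nil : DM ℓ Hyp []
  | hyp (A : MF W) (l : List (MF W)) : DM ℓ Hyp l → A ∈ Hyp → DM ℓ Hyp (A :: l)
  | ax (ψ : Fm ℕ) (σ : ℕ → MF W) (l : List (MF W)) : DM ℓ Hyp l → ψ.len ≤ ℓ →
      (∀ v, Good v → ψ.eval (fun j => v (σ j)) = true) → DM ℓ Hyp (inst σ ψ :: l)
  | mp (A B : MF W) (l : List (MF W)) : DM ℓ Hyp l → A ∈ l → MF.imp A B ∈ l →
      DM ℓ Hyp (B :: l)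

theorem dm_der {ℓ : ℕ} {Hyp : Set (MF W)} {l : List (MF W)} (h : DM ℓ Hyp l) :
    ∃ pf : Fin l.length → MF W, MDer ℓ Hyp pf ∧ (∀ i, pf i ∈ l) ∧ ∀ A ∈ l, ∃ i, pf i = A := by
  -- `pf i = l.get (rev i)`
  have key : ∀ (l : List (MF W)), DM ℓ Hyp l → ∀ (i : ℕ) (hi : i < l.length),
      l[i] ∈ Hyp ∨ (∃ (ψ : Fm ℕ) (σ : ℕ → MF W), ψ.len ≤ ℓ ∧ l[i] = inst σ ψ ∧
        ∀ v, Good v → ψ.eval (fun j => v (σ j)) = true) ∨
        ∃ (j k : ℕ) (hj : j < l.length) (hk : k < l.length), i < j ∧ i < k ∧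
          l[k] = MF.imp l[j] l[i] := by
    intro l h
    induction h with
    | nil => intro i hi; simp at hi
    | hyp A l _ hA ih =>
      intro i hi
      cases i with
      | zero => exact Or.inl hA
      | succ i =>
        rcases ih i (by simpa using hi) with h | h | ⟨j, k, hj, hk, h1, h2, h3⟩
        · exact Or.inl h
        · exact Or.inr (Or.inl h)
        · exact Or.inr (Or.inr ⟨j + 1, k + 1, by simpa using hj, by simpa using hk, by omega,
            by omega, by simpa using h3⟩)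
    | ax ψ σ l _ h1 h2 ih =>
      intro i hi
      cases i with
      | zero => exact Or.inr (Or.inl ⟨ψ, σ, h1, rfl, h2⟩)
      | succ i =>
        rcases ih i (by simpa using hi) with h | h | ⟨j, k, hj, hk, h1, h2, h3⟩
        · exact Or.inl h
        · exact Or.inr (Or.inl h)
        · exact Or.inr (Or.inr ⟨j + 1, k + 1, by simpa using hj, by simpa using hk, by omega,
            by omega, by simpa using h3⟩)
    | mp A B l _ hA hAB ih =>
      intro i hi
      cases i with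
      | zero =>
        obtain ⟨j, hj, hj'⟩ := List.getElem_of_mem hA
        obtain ⟨k, hk, hk'⟩ := List.getElem_of_mem hAB
        refine Or.inr (Or.inr ⟨j + 1, k + 1, by simpa using hj, by simpa using hk, by omega,
          by omega, ?_⟩)
        simp only [List.getElem_cons_succ, List.getElem_cons_zero]
        rw [hj', hk']
      | succ i =>
        rcases ih i (by simpa using hi) with h | h | ⟨j, k, hj, hk, h1, h2, h3⟩
        · exact Or.inl h
        · exact Or.inr (Or.inl h)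
        · exact Or.inr (Or.inr ⟨j + 1, k + 1, by simpa using hj, by simpa using hk, by omega,
            by omega, by simpa using h3⟩)
  refine ⟨fun i => l[l.length - 1 - (i : ℕ)]'(by have := i.isLt; omega), fun i => ?_,
    fun i => List.getElem_mem _, fun A hA => ?_⟩
  · rcases key l h (l.length - 1 - (i : ℕ)) (by have := i.isLt; omega) with
      h | h | ⟨j, k, hj, hk, h1, h2, h3⟩
    · exact Or.inl h
    · exact Or.inr (Or.inl h)
    · refine Or.inr (Or.inr ⟨⟨l.length - 1 - j, by omega⟩, ?_, ⟨l.length - 1 - k, by omega⟩, ?_, ?_⟩)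
      · rw [Fin.lt_def]; simp only; omega
      · rw [Fin.lt_def]; simp only; omega
      · have e1 : l.length - 1 - (l.length - 1 - j) = j := by omega
        have e2 : l.length - 1 - (l.length - 1 - k) = k := by omega
        simp only [e1, e2]
        exact h3
  · obtain ⟨j, hj, hj'⟩ := List.getElem_of_mem hA
    refine ⟨⟨l.length - 1 - j, by omega⟩, ?_⟩
    have e1 : l.length - 1 - (l.length - 1 - j) = j := by omega
    simp only [e1]
    exact hj'

theorem dm_of_dr {ℓ : ℕ} {Γ : Set (Fm W)} {l : List (Fm W)} (h : Dr (Ax (S0 ℓ) Γ) l) :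
    DM ℓ {A | ∃ X ∈ Γ, A = ofFm X} (l.map ofFm) := by
  induction h with
  | nil => exact DM.nil
  | ax A l _ hA ih =>
    rw [List.map_cons]
    rcases hA with hA | ⟨ψ, hψ, σ, rfl⟩
    · exact DM.hyp _ _ ih ⟨A, hA, rfl⟩
    · rw [← inst_ofFm]
      exact DM.ax ψ (fun i => ofFm (σ i)) _ ih hψ.1 fun v _ => hψ.2 _
  | mp A B l _ hA hAB ih =>
    rw [List.map_cons]
    exact DM.mp (ofFm A) (ofFm B) _ ih (List.mem_map_of_mem hA) (List.mem_map.2 ⟨_, hAB, rfl⟩)

theorem dm_ext {ℓ ℓ' : ℕ} (hℓ : ℓ ≤ ℓ') (σ : ℕ → Fm W) {Hyp : Set (MF ℕ)} {Hyp' : Set (MF W)}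
    {L : ℕ} {pf : Fin L → MF ℕ} (hpf : MDer ℓ Hyp pf) {l0 : List (MF W)} (h0 : DM ℓ' Hyp' l0)
    (hHyp : ∀ i, pf i ∈ Hyp → bindM σ (pf i) ∈ l0) :
    ∃ l : List (MF W), DM ℓ' Hyp' l ∧ (∀ A ∈ l0, A ∈ l) ∧ (∀ i, bindM σ (pf i) ∈ l) ∧
      ∀ A ∈ l, A ∈ l0 ∨ ∃ i, A = bindM σ (pf i) := by
  have key : ∀ k, k ≤ L → ∃ l : List (MF W), DM ℓ' Hyp' l ∧ (∀ A ∈ l0, A ∈ l) ∧
      (∀ i : Fin L, (i : ℕ) < k → bindM σ (pf i) ∈ l) ∧
      ∀ A ∈ l, A ∈ l0 ∨ ∃ i, A = bindM σ (pf i) := by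
    intro k
    induction k with
    | zero =>
      intro _
      exact ⟨l0, h0, fun A h => h, fun i h => absurd h (by omega), fun A h => Or.inl h⟩
    | succ k ih =>
      intro hk
      obtain ⟨l, h1, h2, h3, h4⟩ := ih (by omega)
      obtain ⟨i0, hi0⟩ : ∃ i0 : Fin L, i0 = ⟨k, by omega⟩ := ⟨_, rfl⟩
      have hik : (i0 : ℕ) = k := by rw [hi0]
      have hlast : ∀ i : Fin L, (i : ℕ) < k + 1 → (i : ℕ) < k ∨ i = i0 := by
        intro i hi
        rcases Nat.lt_or_ge (i : ℕ) k with h | h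
        · exact Or.inl h
        · exact Or.inr (Fin.ext (by omega))
      have hadd : DM ℓ' Hyp' (bindM σ (pf i0) :: l) → ∃ l : List (MF W), DM ℓ' Hyp' l ∧
          (∀ A ∈ l0, A ∈ l) ∧ (∀ i : Fin L, (i : ℕ) < k + 1 → bindM σ (pf i) ∈ l) ∧
          ∀ A ∈ l, A ∈ l0 ∨ ∃ i, A = bindM σ (pf i) := by
        intro h
        refine ⟨bindM σ (pf i0) :: l, h, fun A hA => List.mem_cons_of_mem _ (h2 A hA),
          fun i hi => ?_, fun A hA => ?_⟩
        · rcases hlast i hi with h5 | h5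
          · exact List.mem_cons_of_mem _ (h3 i h5)
          · rw [h5]
            exact List.mem_cons_self
        · rcases List.mem_cons.1 hA with h5 | h5
          · exact Or.inr ⟨i0, h5⟩
          · exact h4 A h5
      rcases hpf i0 with hh | ⟨ψ, σ', hψ1, hψ2, hψ3⟩ | ⟨j, hj, m, hm, hjm⟩
      · refine ⟨l, h1, h2, fun i hi => ?_, h4⟩
        rcases hlast i hi with h5 | h5
        · exact h3 i h5
        · rw [h5]
          exact h2 _ (hHyp i0 hh)
      · apply hadd
        rw [hψ2, bindM_inst]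
        exact DM.ax ψ _ l h1 (hψ1.trans hℓ) fun v hv => hψ3 _ (good_bindM σ hv)
      · apply hadd
        have hj' : (j : ℕ) < k := by rw [← hik]; exact hj
        have hm' : (m : ℕ) < k := by rw [← hik]; exact hm
        refine DM.mp (bindM σ (pf j)) _ l h1 (h3 j hj') ?_
        have h5 := h3 m hm'
        rw [hjm] at h5
        exact h5
  obtain ⟨l, h1, h2, h3, h4⟩ := key L le_rfl
  exact ⟨l, h1, h2, fun i => h3 i i.isLt, h4⟩

theorem dm_last {ℓ : ℕ} (hℓ : 6 ≤ ℓ) {Hyp : Set (MF W)} {l : List (MF W)} (h : DM ℓ Hyp l)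
    {A : MF W} (hA : A ∈ l) (hA' : MF.neg A ∈ l) (T : MF W) :
    DM ℓ Hyp (T :: MF.imp (MF.neg A) T :: MF.imp A (MF.imp (MF.neg A) T) :: l) := by
  have h1 : DM ℓ Hyp (MF.imp A (MF.imp (MF.neg A) T) :: l) := by
    have := DM.ax (ℓ := ℓ) (Hyp := Hyp)
      (Fm.imp (Fm.var 0) (Fm.imp (Fm.neg (Fm.var 0)) (Fm.var 1)))
      (fun i => if i = 0 then A else T) l h (by simpa [Fm.len] using hℓ) (by
        intro v _
        simp only [Fm.eval, if_true]
        cases v A <;> simp)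
    simpa [inst] using this
  have h2 : DM ℓ Hyp (MF.imp (MF.neg A) T :: MF.imp A (MF.imp (MF.neg A) T) :: l) :=
    DM.mp A _ _ h1 (List.mem_cons_of_mem _ hA) List.mem_cons_self
  exact DM.mp (MF.neg A) _ _ h2 (List.mem_cons_of_mem _ (List.mem_cons_of_mem _ hA'))
    List.mem_cons_self

end Pool.Agent.H55.AG
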