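import Mathlib
import Pool.Agent.H55.AG.Defs

set_option autoImplicit false

/-!
# Module EXP (Mathlib + Defs only): a large expanding subset

`e S = ∑ t, crs (π t) S`.
PROOF. `m = card W`. Take `Z` with `2 * Z.card ≤ m`, `64 * e Z ≤ Z.card` and `Z.card` maximal (the empty set is one). If
`16 * Z.card ≥ 3 * m` then `Z` is balanced (`Zᶜ.card ≥ m / 2`), so `m ≤ 32 * e Z ≤ Z.card / 2 ≤ m / 4`, impossible if `m > 0`
(`m = 0`: everything is trivial). So `16 * Z.card < 3 * m`, `W' = Zᶜ`. Let `S ⊆ W'`, `2 * S.card ≤ W'.card`, `S` nonempty,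
and suppose `64 * e' < S.card`, `e' = ∑ t, #{v ∈ S | π t v ∈ W', π t v ∉ S}`. For `Z' = Z ∪ S`: `e Z' ≤ e Z + e'` (an element
`v ∈ Z'` with `π t v ∉ Z'` is in `Z` and `π t v ∉ Z`, or in `S` and `π t v ∈ W' \ S`), so `64 * e Z' < Z'.card`. If
`2 * Z'.card ≤ m`: contradiction to the maximality. Otherwise `2 * Z'.card > m` and
`2 * Z'.card ≤ 2 * Z.card + (m - Z.card) = m + Z.card < 19 * m / 16`, so `Z'` is balanced (`16 * Z'ᶜ.card > 16 m - 19 m / 2 ≥ 3 m`)
and `m ≤ 32 * e Z' < Z'.card / 2 < m`: precisely `2 m ≤ 64 * e Z' < Z'.card ≤ m`, contradiction.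
(For `S` empty the claim is trivial.)
-/

namespace Pool.Agent.H55.AG

open Finset Classical

theorem exp_set {W : Type} [Fintype W] {R : ℕ} (π : Fin R → W → W)
    (h : ∀ A : Finset W, Bln A → Fintype.card W ≤ 32 * ∑ t, crs (π t) A) :
    ∃ W' : Finset W, 13 * Fintype.card W ≤ 16 * W'.card ∧
      ∀ S ⊆ W', 2 * S.card ≤ W'.card →
        S.card ≤ 64 * ∑ t, (S.filter fun v => π t v ∈ W' ∧ π t v ∉ S).card := by
  obtain ⟨m, hm⟩ : ∃ m, m = Fintype.card W := ⟨_, rfl⟩
  rcases Nat.eq_zero_or_pos m with hm0 | hm0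
  · refine ⟨∅, by omega, ?_⟩
    intro S hS _
    rw [Finset.subset_empty.1 hS]
    simp
  have hcompl : ∀ A : Finset W, A.card + Aᶜ.card = m := fun A => by
    rw [hm, Finset.card_add_card_compl]
  obtain ⟨Z, hZm, hZmax⟩ := Finset.exists_max_image
    (univ.filter fun A : Finset W => 2 * A.card ≤ m ∧ 64 * ∑ t, crs (π t) A ≤ A.card)
    Finset.card ⟨∅, by simp [crs]⟩
  obtain ⟨-, hZ2, hZe⟩ := Finset.mem_filter.1 hZm
  have hZc := hcompl Z
  have h3 : 16 * Z.card < 3 * m := by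
    by_contra hcon
    push Not at hcon
    have hb : Bln Z := ⟨by omega, by omega⟩
    have := h Z hb
    omega
  refine ⟨Zᶜ, by omega, ?_⟩
  intro S hS hSc
  by_contra hcon
  push Not at hcon
  have hdis : Disjoint Z S := by
    rw [Finset.disjoint_left]
    intro x hx hxS
    exact (Finset.mem_compl.1 (hS hxS)) hx
  have hcardU : (Z ∪ S).card = Z.card + S.card := Finset.card_union_of_disjoint hdis
  have hU := hcompl (Z ∪ S)
  have hle : ∀ t, crs (π t) (Z ∪ S) ≤
      crs (π t) Z + (S.filter fun v => π t v ∈ Zᶜ ∧ π t v ∉ S).card := by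
    intro t
    unfold crs
    refine le_trans (Finset.card_le_card ?_) (Finset.card_union_le _ _)
    intro v hv
    obtain ⟨hvU, hvn⟩ := Finset.mem_filter.1 hv
    have hn1 : π t v ∉ Z := fun hx => hvn (Finset.mem_union_left _ hx)
    have hn2 : π t v ∉ S := fun hx => hvn (Finset.mem_union_right _ hx)
    rcases Finset.mem_union.1 hvU with hvZ | hvS
    · exact Finset.mem_union_left _ (Finset.mem_filter.2 ⟨hvZ, hn1⟩)
    · exact Finset.mem_union_right _ (Finset.mem_filter.2 ⟨hvS, Finset.mem_compl.2 hn1, hn2⟩)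
  have hsum : ∑ t, crs (π t) (Z ∪ S) ≤
      ∑ t, crs (π t) Z + ∑ t, (S.filter fun v => π t v ∈ Zᶜ ∧ π t v ∉ S).card := by
    rw [← Finset.sum_add_distrib]
    exact Finset.sum_le_sum fun t _ => hle t
  have hlt : 64 * ∑ t, crs (π t) (Z ∪ S) < (Z ∪ S).card := by omega
  rcases Nat.lt_or_ge m (2 * (Z ∪ S).card) with hbig | hsml
  · have hb : Bln (Z ∪ S) := ⟨by omega, by omega⟩
    have := h (Z ∪ S) hb
    omega
  · have := hZmax (Z ∪ S) (Finset.mem_filter.2 ⟨Finset.mem_univ _, hsml, hlt.le⟩)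
    omega

end Pool.Agent.H55.AG
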