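import Mathlib
import Pool.Agent.H55.AG.Defs

set_option autoImplicit false

/-!
# Module PATH (Mathlib + Defs only): shortest paths, odd degrees of paths and of symmetric differences

PROOF. `path_exists`: by induction on `ReflTransGen` there are `n` and `p` with the first three properties; take the
smallest such `n` (`Nat.find`); if `p i = p j` with `i < j ≤ n` then `q t = if t ≤ i then p t else p (t + (j - i))` is a
shorter one.
`path_jn`: induction on `n` (or: for `v = p i` the edges of the path which contain `v` are `s(p (i-1), p i)` and
`s(p i, p (i+1))`, those that exist). Recommended: induction on `n` with `jn_symm`: the edge set of the first `n`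
steps and `{s(p n, p (n+1))}` are disjoint (injectivity), their union is the symmetric difference.
`jn_single`: `x ≠ y`. `jn_symm`: `card (filter (P ∆ Q)) + 2 * card (filter (P ∩ Q)) = card (filter P) + card (filter Q)`; in
`ZMod 2`: `2 * _ = 0`, and `(if v = b then 1 else 0) + (if v = b then 1 else 0) = 0` (`CharTwo.add_self_eq_zero`).
-/

namespace Pool.Agent.H55.AG

open Finset Classical

theorem path_exists {V : Type} (r : V → V → Prop) {a b : V} (h : Relation.ReflTransGen r a b) :
    ∃ (n : ℕ) (p : ℕ → V), p 0 = a ∧ p n = b ∧ (∀ i < n, r (p i) (p (i + 1))) ∧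
      ∀ i ≤ n, ∀ j ≤ n, p i = p j → i = j := by
  have h0 : ∃ n : ℕ, ∃ p : ℕ → V, p 0 = a ∧ p n = b ∧ ∀ i < n, r (p i) (p (i + 1)) := by
    induction h with
    | refl => exact ⟨0, fun _ => a, rfl, rfl, fun i hi => absurd hi (Nat.not_lt_zero i)⟩
    | @tail b c _ hbc ih =>
      obtain ⟨n, p, h1, h2, h3⟩ := ih
      refine ⟨n + 1, fun i => if i ≤ n then p i else c, ?_, ?_, fun i hi => ?_⟩
      · simp [h1]
      · simp
      · rcases Nat.lt_succ_iff_lt_or_eq.1 hi with h4 | h4
        · have h5 : i ≤ n := h4.le
          have h6 : i + 1 ≤ n := h4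
          simp only [h5, h6, if_true]
          exact h3 i h4
        · subst h4
          simp only [le_refl, if_true, Nat.not_succ_le_self, if_false]
          rw [h2]
          exact hbc
  obtain ⟨p, h1, h2, h3⟩ := Nat.find_spec h0
  refine ⟨Nat.find h0, p, h1, h2, h3, ?_⟩
  have key : ∀ i j, i < j → j ≤ Nat.find h0 → p i ≠ p j := by
    intro i j hij hj he
    have hlt : Nat.find h0 - (j - i) < Nat.find h0 := by omega
    refine Nat.find_min h0 hlt ⟨fun t => if t ≤ i then p t else p (t + (j - i)), ?_, ?_, fun t ht => ?_⟩
    · simp [h1]
    · by_cases h4 : Nat.find h0 - (j - i) ≤ i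
      · have h5 : Nat.find h0 = j := by omega
        have h6 : Nat.find h0 - (j - i) = i := by omega
        simp only [h4, if_true]
        rw [h6, he, ← h5]
        exact h2
      · simp only [h4, if_false]
        rw [Nat.sub_add_cancel (by omega)]
        exact h2
    · by_cases h4 : t + 1 ≤ i
      · have h5 : t ≤ i := by omega
        simp only [h4, h5, if_true]
        exact h3 t (by omega)
      · by_cases h5 : t ≤ i
        · have h6 : t = i := by omega
          subst h6
          simp only [le_refl, if_true, h4, if_false]
          rw [he]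
          have h7 := h3 j (by omega)
          have h8 : t + 1 + (j - t) = j + 1 := by omega
          rw [h8]
          exact h7
        · simp only [h4, h5, if_false]
          have h7 := h3 (t + (j - i)) (by omega)
          have h8 : t + 1 + (j - i) = t + (j - i) + 1 := by omega
          rw [h8]
          exact h7
  intro i hi j hj he
  rcases lt_trichotomy i j with h4 | h4 | h4
  · exact absurd he (key i j h4 hj)
  · exact h4
  · exact absurd he.symm (key j i h4 hi)

theorem jn_single {V : Type} {x y : V} (h : x ≠ y) : Jn {s(x, y)} x y := by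
  intro v
  rw [Finset.filter_singleton]
  by_cases h1 : v = x
  · have h2 : v ≠ y := fun hh => h (h1.symm.trans hh)
    rw [if_pos (by rw [Sym2.mem_iff]; exact Or.inl h1), if_pos h1, if_neg h2, Finset.card_singleton]
    simp
  · by_cases h2 : v = y
    · rw [if_pos (by rw [Sym2.mem_iff]; exact Or.inr h2), if_neg h1, if_pos h2, Finset.card_singleton]
      simp
    · rw [if_neg (by rw [Sym2.mem_iff]; exact fun hh => hh.elim h1 h2), if_neg h1, if_neg h2, Finset.card_empty]
      simp

private theorem card_symm {α : Type} [DecidableEq α] (A B : Finset α) :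
    (((symmDiff A B).card : ℕ) : ZMod 2) = (A.card : ZMod 2) + (B.card : ZMod 2) := by
  have h1 : (symmDiff A B).card = (A \ B).card + (B \ A).card := by
    rw [symmDiff_def, Finset.sup_eq_union]
    exact Finset.card_union_of_disjoint (Finset.disjoint_left.2 fun x hx hx' =>
      (Finset.mem_sdiff.1 hx').2 (Finset.mem_sdiff.1 hx).1)
  have h2 := Finset.card_sdiff_add_card_inter A B
  have h3 := Finset.card_sdiff_add_card_inter B A
  rw [Finset.inter_comm] at h3
  have h4 : (symmDiff A B).card + 2 * (A ∩ B).card = A.card + B.card := by omega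
  have h5 : (((symmDiff A B).card + 2 * (A ∩ B).card : ℕ) : ZMod 2) = ((A.card + B.card : ℕ) : ZMod 2) := by
    rw [h4]
  have h6 : (2 : ZMod 2) = 0 := rfl
  push_cast at h5
  rw [h6, zero_mul, add_zero] at h5
  exact h5

private theorem filter_symm {α : Type} [DecidableEq α] (A B : Finset α) (q : α → Prop) [DecidablePred q] :
    (symmDiff A B).filter q = symmDiff (A.filter q) (B.filter q) := by
  ext x
  simp only [Finset.mem_filter, Finset.mem_symmDiff]
  tauto

theorem jn_symm {V : Type} {P Q : Finset (Sym2 V)} {a b c : V} (h : Jn P a b) (h' : Jn Q b c) :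
    Jn (symmDiff P Q) a c := by
  intro v
  rw [filter_symm, card_symm, h v, h' v]
  have h1 : ∀ z : ZMod 2, z + z = 0 := fun z => CharTwo.add_self_eq_zero z
  have h2 := h1 (if v = b then 1 else 0)
  calc (((if v = a then 1 else 0 : ZMod 2) + if v = b then 1 else 0) + ((if v = b then 1 else 0) + if v = c then 1 else 0))
      = ((if v = a then 1 else 0) + if v = c then 1 else 0) + ((if v = b then 1 else 0) + if v = b then 1 else 0) := by ring
    _ = _ := by rw [h2, add_zero]

theorem jn_empty {V : Type} (a : V) : Jn (∅ : Finset (Sym2 V)) a a := by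
  intro v
  rw [Finset.filter_empty, Finset.card_empty, CharTwo.add_self_eq_zero]
  simp

theorem path_jn {V : Type} {n : ℕ} {p : ℕ → V}
    (hp : ∀ i ≤ n, ∀ j ≤ n, p i = p j → i = j) :
    Jn ((Finset.range n).image fun i => s(p i, p (i + 1))) (p 0) (p n) := by
  induction n with
  | zero =>
    rw [Finset.range_zero, Finset.image_empty]
    exact jn_empty _
  | succ n ih =>
    have h1 := ih fun i hi j hj => hp i (by omega) j (by omega)
    have h2 : p n ≠ p (n + 1) := fun hh => by
      have := hp n (by omega) (n + 1) le_rfl hh
      omega
    have h3 := jn_symm h1 (jn_single h2)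
    have h4 : symmDiff ((Finset.range n).image fun i => s(p i, p (i + 1))) {s(p n, p (n + 1))} =
        (Finset.range (n + 1)).image fun i => s(p i, p (i + 1)) := by
      have h5 : s(p n, p (n + 1)) ∉ (Finset.range n).image fun i => s(p i, p (i + 1)) := by
        intro hh
        obtain ⟨i, hi, he⟩ := Finset.mem_image.1 hh
        have hi' := Finset.mem_range.1 hi
        have h6 : p (n + 1) ∈ s(p i, p (i + 1)) := by
          rw [he]
          exact Sym2.mem_mk_right _ _
        rcases Sym2.mem_iff.1 h6 with h7 | h7
        · have := hp (n + 1) le_rfl i (by omega) h7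
          omega
        · have := hp (n + 1) le_rfl (i + 1) (by omega) h7
          omega
      rw [Finset.range_add_one, Finset.image_insert]
      ext e
      rw [Finset.mem_symmDiff, Finset.mem_insert, Finset.mem_singleton]
      constructor
      · rintro (⟨h7, -⟩ | ⟨h7, -⟩)
        · exact Or.inr h7
        · exact Or.inl h7
      · rintro (h7 | h7)
        · refine Or.inr ⟨h7, ?_⟩
          rw [h7]
          exact h5
        · refine Or.inl ⟨h7, ?_⟩
          rintro rfl
          exact h5 h7
    rw [h4] at h3
    exact h3

end Pool.Agent.H55.AG
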