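import Mathlib
import Pool.Agent.H55.AG.Path

set_option autoImplicit false

/-!
# Module FLOWA: augmenting a flow, maximal flows

PROOF. `flow_card`: `∑ v, ∑ u, f v u = 0` (antisymmetric: `Finset.sum_comm`), so `A'.card = B'.card` in `ℤ`.
`flow_step`: let `r u v := G.Adj u v ∧ f u v ≤ 0` (residual), `S` = set of all `v` with `ReflTransGen r a v` for some
`a ∈ A`, `a ∉ A'`.
(1) If some `b ∈ B`, `b ∉ B'` is in `S`: take `a` and the path `p` from `path_exists` (`n` steps, injective). Put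
`g u v = #{i < n | p i = u, p (i+1) = v}` (0 or 1) and `f1 u v = f u v + g u v - g v u`. `anti` clear. `supp`: the steps
are adjacent pairs. `le`: if `g u v = 1` then `f u v ≤ 0`; (`g u v ≤ 1` by injectivity of `p`). `ex`: `∑ u, g v u` is `1`
if `v = p i`, `i < n`, and `0` otherwise; `∑ u, g u v` is `1` if `v = p (i+1)`, `i < n`; the difference is `1` at
`a = p 0`, `-1` at `b = p n`, `0` elsewhere (`a ≠ b` because `A`, `B` are disjoint; so also `a ∉ B`, `b ∉ A`). New sets
`insert a A'`, `insert b B'`: `if v ∈ insert a A' then 1 else 0 = (if v ∈ A' ..) + (if v = a ..)` as `a ∉ A'`.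
(2) Otherwise `B ∩ S ⊆ B'`, `A \ S ⊆ A'`. For `u ∈ S`, `v ∉ S` adjacent: `f u v = 1` (not `≤ 0`). So
`∑ u ∈ S, ∑ v, f u v = ∑ u ∈ S, ∑ v ∉ S, f u v` (the part inside `S` is `0` by antisymmetry) `= (cutG G S).card`
(`supp` for the nonadjacent pairs). By `ex` the left side is `(A' ∩ S).card - (B' ∩ S).card`. So
`A'.card = (A' ∩ S).card + (A' \ S).card ≥ .. `: precisely `(A \ S).card = (A' \ S).card`, `(B ∩ S).card = (B' ∩ S).card`,
hence `(A \ S).card + (cutG G S).card + (B ∩ S).card = A'.card < t`, contradiction to `h`.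
`flow_exists`: induction on `t' ≤ t`: a flow with `A'.card = t'`; start `f = 0`, `A' = B' = ∅`.
-/

namespace Pool.Agent.H55.AG

open Finset Classical

variable {V : Type} [Fintype V] {G : SimpleGraph V} {A B : Finset V}

theorem flow_card {f : V → V → ℤ} {A' B' : Finset V} (h : Flow G A B f A' B') :
    A'.card = B'.card := by
  have h1 : ∑ v, ∑ u, f v u = 0 := by
    have h2 : ∑ v, ∑ u, f v u = -∑ v, ∑ u, f v u := by
      calc ∑ v, ∑ u, f v u = ∑ u, ∑ v, f v u := Finset.sum_comm
        _ = ∑ u, ∑ v, -f u v :=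
          Finset.sum_congr rfl fun u _ => Finset.sum_congr rfl fun v _ => h.anti v u
        _ = -∑ v, ∑ u, f v u := by simp only [Finset.sum_neg_distrib]
    omega
  have h3 : ∑ v, ∑ u, f v u = (A'.card : ℤ) - B'.card := by
    rw [Finset.sum_congr rfl fun v _ => h.ex v, Finset.sum_sub_distrib]
    simp
  omega

private theorem sum_in {f : V → V → ℤ} (h : ∀ u v, f u v = -f v u) (S : Finset V) :
    ∑ u ∈ S, ∑ v ∈ S, f u v = 0 := by
  have h2 : ∑ v ∈ S, ∑ u ∈ S, f v u = -∑ v ∈ S, ∑ u ∈ S, f v u := by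
    calc ∑ v ∈ S, ∑ u ∈ S, f v u = ∑ u ∈ S, ∑ v ∈ S, f v u := Finset.sum_comm
      _ = ∑ u ∈ S, ∑ v ∈ S, -f u v :=
        Finset.sum_congr rfl fun u _ => Finset.sum_congr rfl fun v _ => h v u
      _ = -∑ v ∈ S, ∑ u ∈ S, f v u := by simp only [Finset.sum_neg_distrib]
  omega

private theorem aug {f : V → V → ℤ} {A' B' : Finset V} (hf : Flow G A B f A' B')
    {a b : V} (ha : a ∈ A) (ha' : a ∉ A') (hb : b ∈ B) (hb' : b ∉ B')
    (hr : Relation.ReflTransGen (fun u v => G.Adj u v ∧ f u v ≤ 0) a b) :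
    ∃ (f1 : V → V → ℤ) (A1 B1 : Finset V), Flow G A B f1 A1 B1 ∧ A1.card = A'.card + 1 := by
  obtain ⟨n, p, h0, hn, hp, hi⟩ := path_exists _ hr
  let g : V → V → ℤ := fun u v => ∑ i ∈ range n, if p i = u ∧ p (i + 1) = v then (1 : ℤ) else 0
  have g0 : ∀ u v, 0 ≤ g u v := fun u v => Finset.sum_nonneg fun i _ => by split_ifs <;> norm_num
  have g1 : ∀ u v, g u v ≤ 1 := by
    intro u v
    show (∑ i ∈ range n, if p i = u ∧ p (i + 1) = v then (1 : ℤ) else 0) ≤ 1
    rw [Finset.sum_boole]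
    have h2 : ((range n).filter fun i => p i = u ∧ p (i + 1) = v).card ≤ 1 := by
      refine Finset.card_le_one.2 fun i h3 j h4 => ?_
      rw [Finset.mem_filter, Finset.mem_range] at h3 h4
      exact hi i h3.1.le j h4.1.le (h3.2.1.trans h4.2.1.symm)
    exact_mod_cast h2
  have g2 : ∀ u v, g u v ≠ 0 → G.Adj u v ∧ f u v ≤ 0 := by
    intro u v h2
    obtain ⟨i, h3, h4⟩ := Finset.exists_ne_zero_of_sum_ne_zero h2
    rw [Finset.mem_range] at h3
    split_ifs at h4 with h5
    · have h6 := hp i h3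
      rw [h5.1, h5.2] at h6
      exact h6
    · exact absurd rfl h4
  refine ⟨fun u v => f u v + g u v - g v u, insert a A', insert b B', ?_,
    Finset.card_insert_of_notMem ha'⟩
  refine ⟨fun u v => ?_, fun u v => ?_, fun u v h2 => ?_, ?_, ?_, fun v => ?_⟩
  · have := hf.anti u v
    show f u v + g u v - g v u = -(f v u + g v u - g u v)
    omega
  · show f u v + g u v - g v u ≤ 1
    have h2 := g0 v u
    by_cases h3 : g u v = 0
    · have := hf.le u v
      omega
    · have := (g2 u v h3).2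
      have := g1 u v
      omega
  · show f u v + g u v - g v u = 0
    have h3 := hf.supp u v h2
    have h4 : g u v = 0 := by
      by_contra h5
      exact h2 (g2 u v h5).1
    have h5 : g v u = 0 := by
      by_contra h5
      exact h2 (g2 v u h5).1.symm
    omega
  · exact Finset.insert_subset ha hf.subA
  · exact Finset.insert_subset hb hf.subB
  · show ∑ u, (f v u + g v u - g u v) = _
    have e1 : ∑ u, g v u = ∑ i ∈ range n, if p i = v then (1 : ℤ) else 0 := by
      show (∑ u, ∑ i ∈ range n, if p i = v ∧ p (i + 1) = u then (1 : ℤ) else 0) = _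
      rw [Finset.sum_comm]
      refine Finset.sum_congr rfl fun i _ => ?_
      by_cases h2 : p i = v
      · simp [h2]
      · simp [h2]
    have e2 : ∑ u, g u v = ∑ i ∈ range n, if p (i + 1) = v then (1 : ℤ) else 0 := by
      show (∑ u, ∑ i ∈ range n, if p i = u ∧ p (i + 1) = v then (1 : ℤ) else 0) = _
      rw [Finset.sum_comm]
      refine Finset.sum_congr rfl fun i _ => ?_
      by_cases h2 : p (i + 1) = v
      · simp [h2]
      · simp [h2]
    have e3 : ∑ u, g v u - ∑ u, g u v = (if v = a then 1 else 0) - (if v = b then 1 else 0) := by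
      rw [e1, e2, ← Finset.sum_sub_distrib,
        Finset.sum_range_sub' (fun i => if p i = v then (1 : ℤ) else 0) n, h0, hn]
      simp only [eq_comm (a := v)]
    rw [Finset.sum_sub_distrib, Finset.sum_add_distrib, hf.ex v]
    have e4 : (if v ∈ insert a A' then (1 : ℤ) else 0) =
        (if v ∈ A' then 1 else 0) + (if v = a then 1 else 0) := by
      by_cases h2 : v = a
      · subst h2
        simp [ha']
      · simp [h2]
    have e5 : (if v ∈ insert b B' then (1 : ℤ) else 0) =
        (if v ∈ B' then 1 else 0) + (if v = b then 1 else 0) := by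
      by_cases h2 : v = b
      · subst h2
        simp [hb']
      · simp [h2]
    rw [e4, e5]
    omega

theorem flow_step (hAB : Disjoint A B) {t : ℕ}
    (h : ∀ S : Finset V, t ≤ (A \ S).card + (cutG G S).card + (B ∩ S).card)
    {f : V → V → ℤ} {A' B' : Finset V} (hf : Flow G A B f A' B') (ht : A'.card < t) :
    ∃ (f1 : V → V → ℤ) (A1 B1 : Finset V), Flow G A B f1 A1 B1 ∧ A1.card = A'.card + 1 := by
  by_contra hno
  let S : Finset V := univ.filter fun v => ∃ a, a ∈ A ∧ a ∉ A' ∧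
    Relation.ReflTransGen (fun u v => G.Adj u v ∧ f u v ≤ 0) a v
  have hS : ∀ v, v ∈ S ↔ ∃ a, a ∈ A ∧ a ∉ A' ∧
      Relation.ReflTransGen (fun u v => G.Adj u v ∧ f u v ≤ 0) a v := by
    intro v
    simp [S]
  have h1 : A \ S ⊆ A' \ S := by
    intro v hv
    rw [Finset.mem_sdiff] at hv ⊢
    refine ⟨?_, hv.2⟩
    by_contra h2
    exact hv.2 ((hS v).2 ⟨v, hv.1, h2, .refl⟩)
  have h2 : B ∩ S ⊆ B' ∩ S := by
    intro v hv
    rw [Finset.mem_inter] at hv ⊢
    refine ⟨?_, hv.2⟩
    by_contra h2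
    obtain ⟨a, h3, h4, h5⟩ := (hS v).1 hv.2
    exact hno (aug hf h3 h4 hv.1 h2 h5)
  have h3 : ∀ u ∈ S, ∀ v ∉ S, f u v = if G.Adj u v then 1 else 0 := by
    intro u hu v hv
    by_cases h4 : G.Adj u v
    · rw [if_pos h4]
      have h5 : ¬ f u v ≤ 0 := by
        intro h5
        obtain ⟨a, h6, h7, h8⟩ := (hS u).1 hu
        exact hv ((hS v).2 ⟨a, h6, h7, h8.tail ⟨h4, h5⟩⟩)
      have := hf.le u v
      omega
    · rw [if_neg h4]
      exact hf.supp u v h4
  have h4 : ∑ u ∈ S, ∑ v, f u v = ((A' ∩ S).card : ℤ) - (B' ∩ S).card := by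
    rw [Finset.sum_congr rfl fun v _ => hf.ex v, Finset.sum_sub_distrib]
    rw [Finset.sum_boole, Finset.sum_boole, Finset.inter_comm A' S, Finset.inter_comm B' S,
      Finset.filter_mem_eq_inter, Finset.filter_mem_eq_inter]
  have h5 : ∑ u ∈ S, ∑ v, f u v = ((cutG G S).card : ℤ) := by
    have h6 : ∀ u, ∑ v, f u v = ∑ v ∈ S, f u v + ∑ v ∈ Sᶜ, f u v := fun u =>
      (Finset.sum_add_sum_compl S _).symm
    rw [Finset.sum_congr rfl fun u _ => h6 u, Finset.sum_add_distrib, sum_in hf.anti, zero_add]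
    have h7 : ∑ u ∈ S, ∑ v ∈ Sᶜ, f u v = ∑ u ∈ S, ∑ v ∈ Sᶜ, if G.Adj u v then (1 : ℤ) else 0 :=
      Finset.sum_congr rfl fun u hu => Finset.sum_congr rfl fun v hv =>
        h3 u hu v (Finset.mem_compl.1 hv)
    rw [h7, ← Finset.sum_product', Finset.sum_boole]
    congr 2
    ext ⟨u, v⟩
    simp only [cutG, Finset.mem_filter, Finset.mem_product, Finset.mem_compl, Finset.mem_univ,
      true_and]
    tauto
  have h6 := h S
  have h7 := Finset.card_le_card h1
  have h8 := Finset.card_le_card h2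
  have h9 : (A' \ S).card + (A' ∩ S).card = A'.card := Finset.card_sdiff_add_card_inter A' S
  omega

theorem flow_exists (hAB : Disjoint A B) {t : ℕ}
    (h : ∀ S : Finset V, t ≤ (A \ S).card + (cutG G S).card + (B ∩ S).card) :
    ∃ (f : V → V → ℤ) (A' B' : Finset V), Flow G A B f A' B' ∧ A'.card = t := by
  have key : ∀ k ≤ t, ∃ (f : V → V → ℤ) (A' B' : Finset V), Flow G A B f A' B' ∧
      A'.card = k := by
    intro k
    induction k with
    | zero =>
      intro _
      refine ⟨fun _ _ => 0, ∅, ∅, ⟨fun _ _ => rfl, fun _ _ => by norm_num, fun _ _ _ => rfl,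
        Finset.empty_subset _, Finset.empty_subset _, fun v => by simp⟩, rfl⟩
    | succ k ih =>
      intro hk
      obtain ⟨f, A', B', h1, h2⟩ := ih (by omega)
      obtain ⟨f1, A1, B1, h3, h4⟩ := flow_step hAB h h1 (by omega)
      exact ⟨f1, A1, B1, h3, by omega⟩
  exact key t le_rfl

end Pool.Agent.H55.AG
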