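import Mathlib
import Pool.Agent.H55.AG.FlowA

set_option autoImplicit false

/-!
# Module FLOWB: a flow is a sum of edge disjoint paths

PROOF. `flow_paths`: induction on `t = A'.card` with the additional conclusion
`∀ i, ∀ e ∈ P i, ∃ u v, e = s(u, v) ∧ f u v ≠ 0` (so the edges are edges of `G` by `supp`) and `a i ∈ A'`, `b i ∈ B'`.
`t = 0`: nothing. `t + 1`: take `a ∈ A'`, `S` = set of all `v` with `ReflTransGen (fun u v => f u v = 1) a v`. If `S` has no
element of `B'` then `∑ v ∈ S, ∑ u, f v u = (A' ∩ S).card ≥ 1` by `ex`; but it is `∑ v ∈ S, ∑ u ∉ S, f v u ≤ 0` (inside `S`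
antisymmetry; for `v ∈ S`, `u ∉ S`: `f v u ≠ 1`, so `f v u ≤ 0` by `le`). So there is `b ∈ B' ∩ S`; `path_exists` gives `p`,
`n` with `f (p i) (p (i+1)) = 1`. Put `P = image of the steps` (as in `path_jn`), `g` as in FLOWA and
`f1 u v = f u v - g u v + g v u`: at a step `(u, v)` (`g u v = 1`) `f u v = 1`, `f v u = -1`, `g v u = 0` (otherwise
`f v u = 1`), so `f1 u v = f1 v u = 0`; elsewhere `f1 = f`. So it is a flow with `A'.erase a`, `B'.erase b` (`a ≠ b` because
`A' ⊆ A`, `B' ⊆ B` are disjoint), and `f1 u v ≠ 0` implies `f u v ≠ 0` and `s(u, v) ∉ P`. Induction hypothesis; add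
`a, b, P` as a new member (`Fin.cons`).
`flow_linked` = FLOWA + `flow_paths`, rewritten with an involution: `π (a i) = b i`, `π (b i) = a i`, `π v = v` for all
other `v`; (`a`, `b` injective with values in the disjoint sets `A`, `B`.) `J v` = `P i` for `v = a i` or `v = b i`, `∅`
otherwise: `Jn (J v) v (π v)`; for `b i` use that `Jn P x y ↔ Jn P y x` (`add_comm`). For the last property:
a common edge of `J v` and `J w` gives the same `i` (disjointness), so `w = v` or `w = π v`. The number of `v ∈ A` with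
`π v ∉ A` is at least the number of the `a i`, which is `t`.
-/

namespace Pool.Agent.H55.AG

open Finset Classical

variable {V : Type} [Fintype V] {G : SimpleGraph V} {A B : Finset V}

omit [Fintype V] in
private theorem fp_anti (f : V → V → ℤ) (hf : ∀ u v, f u v = -f v u) (S : Finset V) :
    ∑ v ∈ S, ∑ u ∈ S, f v u = 0 := by
  have h0 : ∑ v ∈ S, ∑ u ∈ S, f v u = ∑ u ∈ S, ∑ v ∈ S, f v u := Finset.sum_comm
  have h1 : ∑ u ∈ S, ∑ v ∈ S, f v u = -∑ v ∈ S, ∑ u ∈ S, f v u := by
    rw [← Finset.sum_neg_distrib]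
    refine Finset.sum_congr rfl fun v _ => ?_
    rw [← Finset.sum_neg_distrib]
    exact Finset.sum_congr rfl fun u _ => hf u v
  omega

private theorem fp_reach {f : V → V → ℤ} {A' B' : Finset V} (hf : Flow G A B f A' B') {a : V}
    (ha : a ∈ A') : ∃ b ∈ B', Relation.ReflTransGen (fun u v => f u v = 1) a b := by
  by_contra hno
  push Not at hno
  obtain ⟨S, hS⟩ : ∃ S : Finset V, S = univ.filter fun v =>
    Relation.ReflTransGen (fun u v => f u v = 1) a v := ⟨_, rfl⟩
  have hmem : ∀ v, v ∈ S ↔ Relation.ReflTransGen (fun u v => f u v = 1) a v := by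
    intro v
    rw [hS, mem_filter]
    exact ⟨fun h => h.2, fun h => ⟨mem_univ v, h⟩⟩
  have haS : a ∈ S := (hmem a).2 Relation.ReflTransGen.refl
  have h1 : ∑ v ∈ S, ∑ u, f v u = ∑ v ∈ S, (if v ∈ A' then 1 else 0 : ℤ) := by
    refine Finset.sum_congr rfl fun v hv => ?_
    rw [hf.ex v, if_neg (fun hb : v ∈ B' => hno v hb ((hmem v).1 hv)), sub_zero]
  have h2 : (1 : ℤ) ≤ ∑ v ∈ S, (if v ∈ A' then 1 else 0 : ℤ) := by
    have h3 := Finset.single_le_sum (s := S) (f := fun v => (if v ∈ A' then 1 else 0 : ℤ))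
      (fun v _ => by split_ifs <;> norm_num) haS
    rwa [if_pos ha] at h3
  have h4 : ∑ v ∈ S, ∑ u, f v u = ∑ v ∈ S, ∑ u ∈ Sᶜ, f v u := by
    have h5 : ∀ v, ∑ u, f v u = ∑ u ∈ S, f v u + ∑ u ∈ Sᶜ, f v u :=
      fun v => (Finset.sum_add_sum_compl S _).symm
    rw [Finset.sum_congr rfl fun v _ => h5 v, Finset.sum_add_distrib,
      fp_anti f hf.anti S, zero_add]
  have h6 : ∑ v ∈ S, ∑ u ∈ Sᶜ, f v u ≤ 0 := by
    refine Finset.sum_nonpos fun v hv => Finset.sum_nonpos fun u hu => ?_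
    have h7 := hf.le v u
    have h8 : f v u ≠ 1 := by
      intro h9
      rw [mem_compl] at hu
      exact hu ((hmem u).2 (((hmem v).1 hv).tail h9))
    omega
  omega

private theorem fp_sum (n : ℕ) (p : ℕ → V) (v : V) :
    ∑ u, ∑ i ∈ range n, (if p i = v ∧ p (i + 1) = u then 1 else 0 : ℤ) -
      ∑ u, ∑ i ∈ range n, (if p i = u ∧ p (i + 1) = v then 1 else 0 : ℤ) =
      (if v = p 0 then 1 else 0) - (if v = p n then 1 else 0) := by
  have h1 : ∑ u, ∑ i ∈ range n, (if p i = v ∧ p (i + 1) = u then 1 else 0 : ℤ) =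
      ∑ i ∈ range n, (if v = p i then 1 else 0 : ℤ) := by
    rw [Finset.sum_comm]
    refine Finset.sum_congr rfl fun i _ => ?_
    by_cases h : v = p i
    · rw [if_pos h, Finset.sum_eq_single (p (i + 1))]
      · rw [if_pos ⟨h.symm, rfl⟩]
      · intro u _ hu
        exact if_neg fun h' => hu h'.2.symm
      · exact fun h' => absurd (mem_univ _) h'
    · rw [if_neg h]
      exact Finset.sum_eq_zero fun u _ => if_neg fun h' => h h'.1.symm
  have h2 : ∑ u, ∑ i ∈ range n, (if p i = u ∧ p (i + 1) = v then 1 else 0 : ℤ) =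
      ∑ i ∈ range n, (if v = p (i + 1) then 1 else 0 : ℤ) := by
    rw [Finset.sum_comm]
    refine Finset.sum_congr rfl fun i _ => ?_
    by_cases h : v = p (i + 1)
    · rw [if_pos h, Finset.sum_eq_single (p i)]
      · rw [if_pos ⟨rfl, h.symm⟩]
      · intro u _ hu
        exact if_neg fun h' => hu h'.1.symm
      · exact fun h' => absurd (mem_univ _) h'
    · rw [if_neg h]
      exact Finset.sum_eq_zero fun u _ => if_neg fun h' => h h'.2.symm
  rw [h1, h2, ← Finset.sum_sub_distrib]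
  exact Finset.sum_range_sub' (fun i => (if v = p i then 1 else 0 : ℤ)) n

omit [Fintype V] in
private theorem fp_g {n : ℕ} {p : ℕ → V} (hp : ∀ i ≤ n, ∀ j ≤ n, p i = p j → i = j) (u v : V) :
    ∑ i ∈ range n, (if p i = u ∧ p (i + 1) = v then 1 else 0 : ℤ) =
      if ∃ i < n, p i = u ∧ p (i + 1) = v then 1 else 0 := by
  by_cases h : ∃ i < n, p i = u ∧ p (i + 1) = v
  · rw [if_pos h]
    obtain ⟨i, hi, h1, h2⟩ := h
    rw [Finset.sum_eq_single i]
    · rw [if_pos ⟨h1, h2⟩]
    · intro j hj hji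
      rw [mem_range] at hj
      exact if_neg fun h' => hji (hp j hj.le i hi.le (h'.1.trans h1.symm))
    · exact fun h' => absurd (mem_range.2 hi) h'
  · rw [if_neg h]
    refine Finset.sum_eq_zero fun i hi => ?_
    exact if_neg fun h' => h ⟨i, mem_range.1 hi, h'⟩

theorem flow_paths (hAB : Disjoint A B) (t : ℕ) : ∀ (f : V → V → ℤ) (A' B' : Finset V),
    Flow G A B f A' B' → A'.card = t →
    ∃ (a b : Fin t → V) (P : Fin t → Finset (Sym2 V)), Function.Injective a ∧
      Function.Injective b ∧ (∀ i, a i ∈ A' ∧ b i ∈ B') ∧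
      (∀ i, ∀ e ∈ P i, ∃ u v, e = s(u, v) ∧ f u v ≠ 0) ∧
      (∀ i j, i ≠ j → Disjoint (P i) (P j)) ∧ ∀ i, Jn (P i) (a i) (b i) := by
  induction t with
  | zero =>
    intro f A' B' hf ht
    exact ⟨fun i => i.elim0, fun i => i.elim0, fun i => i.elim0, fun i => i.elim0,
      fun i => i.elim0, fun i => i.elim0, fun i => i.elim0, fun i => i.elim0, fun i => i.elim0⟩
  | succ t ih =>
    intro f A' B' hf ht
    obtain ⟨a, ha⟩ := card_pos.1 (show 0 < A'.card by omega)
    obtain ⟨b, hb, hab⟩ := fp_reach hf ha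
    obtain ⟨n, p, hp0, hpn, hps, hpi⟩ := path_exists _ hab
    obtain ⟨St, hSt⟩ : ∃ St : V → V → Prop, ∀ u v, St u v ↔ ∃ i < n, p i = u ∧ p (i + 1) = v :=
      ⟨fun u v => ∃ i < n, p i = u ∧ p (i + 1) = v, fun _ _ => Iff.rfl⟩
    have hS1 : ∀ u v, St u v → f u v = 1 := by
      intro u v h
      obtain ⟨i, hi, rfl, rfl⟩ := (hSt u v).1 h
      exact hps i hi
    obtain ⟨f1, hf1⟩ : ∃ f1 : V → V → ℤ, ∀ u v, f1 u v = if St u v ∨ St v u then 0 else f u v :=
      ⟨fun u v => if St u v ∨ St v u then 0 else f u v, fun _ _ => rfl⟩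
    have hne : ∀ u v, f1 u v ≠ 0 → f u v ≠ 0 ∧ ¬ St u v ∧ ¬ St v u := by
      intro u v h
      rw [hf1] at h
      by_cases h1 : St u v ∨ St v u
      · rw [if_pos h1] at h
        exact absurd rfl h
      · rw [if_neg h1] at h
        exact ⟨h, fun h2 => h1 (Or.inl h2), fun h2 => h1 (Or.inr h2)⟩
    have hg : ∀ u v, f1 u v = f u v -
        (∑ i ∈ range n, (if p i = u ∧ p (i + 1) = v then 1 else 0 : ℤ)) +
        ∑ i ∈ range n, (if p i = v ∧ p (i + 1) = u then 1 else 0 : ℤ) := by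
      intro u v
      rw [fp_g hpi u v, fp_g hpi v u, hf1]
      by_cases h1 : St u v
      · have h2 := hS1 u v h1
        have h3 : ¬ St v u := by
          intro h4
          have h5 := hS1 v u h4
          have h6 := hf.anti u v
          omega
        rw [if_pos (Or.inl h1), if_pos ((hSt u v).1 h1), if_neg (fun h => h3 ((hSt v u).2 h))]
        omega
      · by_cases h3 : St v u
        · have h5 := hS1 v u h3
          have h6 := hf.anti u v
          rw [if_pos (Or.inr h3), if_neg (fun h => h1 ((hSt u v).2 h)), if_pos ((hSt v u).1 h3)]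
          omega
        · rw [if_neg (not_or.2 ⟨h1, h3⟩), if_neg (fun h => h1 ((hSt u v).2 h)),
            if_neg (fun h => h3 ((hSt v u).2 h))]
          omega
    have hF : Flow G A B f1 (A'.erase a) (B'.erase b) := by
      refine ⟨fun u v => ?_, fun u v => ?_, fun u v h => ?_, ?_, ?_, fun v => ?_⟩
      · rw [hg, hg, hf.anti u v]
        ring
      · rw [hf1]
        split_ifs
        · norm_num
        · exact hf.le u v
      · rw [hf1, hf.supp u v h, ite_self]
      · exact (erase_subset _ _).trans hf.subA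
      · exact (erase_subset _ _).trans hf.subB
      · have h1 := fp_sum n p v
        have h2 : ∑ u, f1 v u = ∑ u, f v u -
            (∑ u, ∑ i ∈ range n, (if p i = v ∧ p (i + 1) = u then 1 else 0 : ℤ) -
            ∑ u, ∑ i ∈ range n, (if p i = u ∧ p (i + 1) = v then 1 else 0 : ℤ)) := by
          rw [← Finset.sum_sub_distrib, ← Finset.sum_sub_distrib]
          refine Finset.sum_congr rfl fun u _ => ?_
          rw [hg]
          ring
        rw [h2, h1, hf.ex v, hp0, hpn]
        by_cases e1 : v = a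
        · by_cases e2 : v = b
          · subst e1
            rw [if_pos ha, if_pos rfl, if_neg (notMem_erase _ _), if_pos e2, e2,
              if_pos hb, if_neg (notMem_erase _ _)]
            norm_num
          · subst e1
            rw [if_pos ha, if_pos rfl, if_neg (notMem_erase _ _), if_neg e2]
            by_cases e3 : v ∈ B'
            · rw [if_pos e3, if_pos (mem_erase.2 ⟨e2, e3⟩)]
              norm_num
            · rw [if_neg e3, if_neg (fun h => e3 (mem_of_mem_erase h))]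
              norm_num
        · have e4 : (v ∈ A'.erase a) ↔ v ∈ A' :=
            ⟨fun h => mem_of_mem_erase h, fun h => mem_erase.2 ⟨e1, h⟩⟩
          rw [if_neg e1, if_congr e4 rfl rfl]
          by_cases e2 : v = b
          · subst e2
            rw [if_pos hb, if_pos rfl, if_neg (notMem_erase _ _)]
            ring
          · have e5 : (v ∈ B'.erase b) ↔ v ∈ B' :=
              ⟨fun h => mem_of_mem_erase h, fun h => mem_erase.2 ⟨e2, h⟩⟩
            rw [if_neg e2, if_congr e5 rfl rfl]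
            ring
    obtain ⟨a', b', P', ha', hb', hm', he', hd', hj'⟩ := ih f1 (A'.erase a) (B'.erase b) hF (by
      rw [card_erase_of_mem ha]
      omega)
    have hdis : ∀ j, Disjoint ((range n).image fun i => s(p i, p (i + 1))) (P' j) := by
      intro j
      rw [Finset.disjoint_left]
      intro e h1 h2
      obtain ⟨u, v, h3, h4⟩ := he' j e h2
      obtain ⟨-, h5, h6⟩ := hne u v h4
      rw [mem_image] at h1
      obtain ⟨i, hi, h7⟩ := h1
      rw [mem_range] at hi
      rw [h3, Sym2.eq_iff] at h7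
      rcases h7 with ⟨h8, h9⟩ | ⟨h8, h9⟩
      · exact h5 ((hSt u v).2 ⟨i, hi, h8, h9⟩)
      · exact h6 ((hSt v u).2 ⟨i, hi, h8, h9⟩)
    refine ⟨Fin.cons a a', Fin.cons b b', Fin.cons ((range n).image fun i => s(p i, p (i + 1))) P',
      ?_, ?_, ?_, ?_, ?_, ?_⟩
    · rw [Fin.cons_injective_iff]
      refine ⟨?_, ha'⟩
      rintro ⟨i, hi⟩
      exact (mem_erase.1 (hm' i).1).1 hi
    · rw [Fin.cons_injective_iff]
      refine ⟨?_, hb'⟩
      rintro ⟨i, hi⟩
      exact (mem_erase.1 (hm' i).2).1 hi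
    · intro i
      refine Fin.cases ?_ (fun j => ?_) i
      · exact ⟨ha, hb⟩
      · exact ⟨mem_of_mem_erase (hm' j).1, mem_of_mem_erase (hm' j).2⟩
    · intro i
      refine Fin.cases ?_ (fun j => ?_) i
      · intro e h
        rw [Fin.cons_zero, mem_image] at h
        obtain ⟨k, hk, rfl⟩ := h
        rw [mem_range] at hk
        refine ⟨_, _, rfl, ?_⟩
        rw [hps k hk]
        norm_num
      · intro e h
        rw [Fin.cons_succ] at h
        obtain ⟨u, v, h1, h2⟩ := he' j e h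
        exact ⟨u, v, h1, (hne u v h2).1⟩
    · intro i j
      refine Fin.cases ?_ (fun i' => ?_) i
      · refine Fin.cases ?_ (fun j' => ?_) j
        · exact fun h => absurd rfl h
        · intro _
          rw [Fin.cons_zero, Fin.cons_succ]
          exact hdis j'
      · refine Fin.cases ?_ (fun j' => ?_) j
        · intro _
          rw [Fin.cons_zero, Fin.cons_succ]
          exact (hdis i').symm
        · intro h
          rw [Fin.cons_succ, Fin.cons_succ]
          exact hd' i' j' fun h' => h (congrArg Fin.succ h')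
    · intro i
      refine Fin.cases ?_ (fun j => ?_) i
      · rw [Fin.cons_zero, Fin.cons_zero, Fin.cons_zero]
        have h1 := path_jn hpi
        rwa [hp0, hpn] at h1
      · rw [Fin.cons_succ, Fin.cons_succ, Fin.cons_succ]
        exact hj' j

/-- a family of edge disjoint paths between different points of `A` and of `B` -/
theorem flow_linked (hAB : Disjoint A B) {t : ℕ}
    (h : ∀ S : Finset V, t ≤ (A \ S).card + (cutG G S).card + (B ∩ S).card) :
    ∃ (π : V → V) (J : V → Finset (Sym2 V)), (∀ v, π (π v) = v) ∧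
      (∀ v, π v ≠ v → v ∈ A ∪ B) ∧ t ≤ (A.filter fun v => π v ∉ A).card ∧
      (∀ v, ∀ e ∈ J v, e ∈ G.edgeSet) ∧ (∀ v, Jn (J v) v (π v)) ∧ (∀ v, J (π v) = J v) ∧
      ∀ v w e, e ∈ J v → e ∈ J w → w = v ∨ w = π v := by
  obtain ⟨f, A', B', hf, ht⟩ := flow_exists hAB h
  obtain ⟨a, b, P, ha, hb, hm, he, hd, hj⟩ := flow_paths hAB t f A' B' hf ht
  have hbA : ∀ i, b i ∉ A := fun i h1 => Finset.disjoint_left.1 hAB h1 (hf.subB (hm i).2)
  have haA : ∀ i, a i ∈ A := fun i => hf.subA (hm i).1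
  have hab : ∀ i j, a i ≠ b j := fun i j h1 => hbA j (h1 ▸ haA i)
  obtain ⟨π, hπ⟩ : ∃ π : V → V, ∀ v, π v = if h : ∃ i, a i = v then b h.choose else
      if h : ∃ i, b i = v then a h.choose else v := ⟨fun v => _, fun v => rfl⟩
  obtain ⟨J, hJ⟩ : ∃ J : V → Finset (Sym2 V), ∀ v, J v = if h : ∃ i, a i = v then P h.choose else
      if h : ∃ i, b i = v then P h.choose else ∅ := ⟨fun v => _, fun v => rfl⟩
  have ea : ∀ i (h : ∃ j, a j = a i), h.choose = i := fun i h => ha h.choose_spec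
  have eb : ∀ i (h : ∃ j, b j = b i), h.choose = i := fun i h => hb h.choose_spec
  have nb : ∀ i, ¬ ∃ j, a j = b i := fun i ⟨j, hj⟩ => hab j i hj
  have πa : ∀ i, π (a i) = b i := by
    intro i
    have h1 : ∃ j, a j = a i := ⟨i, rfl⟩
    rw [hπ, dif_pos h1, ea i h1]
  have πb : ∀ i, π (b i) = a i := by
    intro i
    have h1 : ∃ j, b j = b i := ⟨i, rfl⟩
    rw [hπ, dif_neg (nb i), dif_pos h1, eb i h1]
  have πc : ∀ v, (¬ ∃ i, a i = v) → (¬ ∃ i, b i = v) → π v = v := by
    intro v h1 h2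
    rw [hπ, dif_neg h1, dif_neg h2]
  have Ja : ∀ i, J (a i) = P i := by
    intro i
    have h1 : ∃ j, a j = a i := ⟨i, rfl⟩
    rw [hJ, dif_pos h1, ea i h1]
  have Jb : ∀ i, J (b i) = P i := by
    intro i
    have h1 : ∃ j, b j = b i := ⟨i, rfl⟩
    rw [hJ, dif_neg (nb i), dif_pos h1, eb i h1]
  have Jc : ∀ v, (¬ ∃ i, a i = v) → (¬ ∃ i, b i = v) → J v = ∅ := by
    intro v h1 h2
    rw [hJ, dif_neg h1, dif_neg h2]
  have cs : ∀ v, (∃ i, a i = v) ∨ (∃ i, b i = v) ∨ ((¬ ∃ i, a i = v) ∧ ¬ ∃ i, b i = v) := by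
    intro v
    by_cases h1 : ∃ i, a i = v
    · exact Or.inl h1
    · by_cases h2 : ∃ i, b i = v
      · exact Or.inr (Or.inl h2)
      · exact Or.inr (Or.inr ⟨h1, h2⟩)
  have hJe : ∀ v e, e ∈ J v → ∃ i, (v = a i ∨ v = b i) ∧ e ∈ P i := by
    intro v e hv
    rcases cs v with ⟨i, rfl⟩ | ⟨i, rfl⟩ | ⟨h1, h2⟩
    · rw [Ja] at hv
      exact ⟨i, Or.inl rfl, hv⟩
    · rw [Jb] at hv
      exact ⟨i, Or.inr rfl, hv⟩
    · rw [Jc v h1 h2] at hv
      exact absurd hv (notMem_empty _)
  refine ⟨π, J, ?_, ?_, ?_, ?_, ?_, ?_, ?_⟩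
  · intro v
    rcases cs v with ⟨i, rfl⟩ | ⟨i, rfl⟩ | ⟨h1, h2⟩
    · rw [πa, πb]
    · rw [πb, πa]
    · rw [πc v h1 h2, πc v h1 h2]
  · intro v hv
    rcases cs v with ⟨i, rfl⟩ | ⟨i, rfl⟩ | ⟨h1, h2⟩
    · exact mem_union_left _ (haA i)
    · exact mem_union_right _ (hf.subB (hm i).2)
    · exact absurd (πc v h1 h2) hv
  · have h1 : (univ.image a).card = t := by
      rw [card_image_of_injective _ ha, card_univ, Fintype.card_fin]
    rw [← h1]
    refine card_le_card fun v hv => ?_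
    rw [mem_image] at hv
    obtain ⟨i, -, rfl⟩ := hv
    rw [mem_filter, πa]
    exact ⟨haA i, hbA i⟩
  · intro v e hv
    obtain ⟨i, -, h1⟩ := hJe v e hv
    obtain ⟨x, y, rfl, h2⟩ := he i e h1
    rw [SimpleGraph.mem_edgeSet]
    by_contra h3
    exact h2 (hf.supp x y h3)
  · intro v
    rcases cs v with ⟨i, rfl⟩ | ⟨i, rfl⟩ | ⟨h1, h2⟩
    · rw [Ja, πa]
      exact hj i
    · rw [Jb, πb]
      intro w
      rw [hj i w, add_comm]
    · rw [Jc v h1 h2, πc v h1 h2]
      exact jn_empty v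
  · intro v
    rcases cs v with ⟨i, rfl⟩ | ⟨i, rfl⟩ | ⟨h1, h2⟩
    · rw [πa, Ja, Jb]
    · rw [πb, Ja, Jb]
    · rw [πc v h1 h2]
  · intro v w e hv hw
    obtain ⟨i, h1, h2⟩ := hJe v e hv
    obtain ⟨j, h3, h4⟩ := hJe w e hw
    have hij : i = j := by
      by_contra hne
      exact Finset.disjoint_left.1 (hd i j hne) h2 h4
    subst hij
    rcases h1 with rfl | rfl <;> rcases h3 with rfl | rfl
    · exact Or.inl rfl
    · exact Or.inr (πa i).symm
    · exact Or.inr (πb i).symm
    · exact Or.inl rfl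

end Pool.Agent.H55.AG
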