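import Mathlib
import Pool.Agent.H55.AG.FlowB
import Pool.Agent.H55.AG.CM
import Pool.Agent.H55.AG.Exp

set_option autoImplicit false

/-!
# Module LINK: a well linked set carries an expander whose edges are paths of `G`

The type `W` of `cut_matching`, `exp_set` is the subtype `{x // x ∈ W}` (`Fintype.card_coe`).
PROOF. `cut_matching` with `μ` and
`Q π := (∀ v, π (π v) = v) ∧ ∃ J : {x // x ∈ W} → Finset (Sym2 V), LinkP G π J`.
For a balanced `A : Finset {x // x ∈ W}` put `A0 = A.map (Function.Embedding.subtype _)`, `B0 = Aᶜ.map ..` (disjoint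
subsets of `W` with at least `3 * μ` elements, `card W = 16 * μ`). Hypothesis of `flow_linked` for `t = μ`: let `S` with
`(A0 \ S).card + (cutG G S).card + (B0 ∩ S).card < μ`. Then `(W ∩ S).card ≥ (A0 ∩ S).card ≥ 3 μ - μ = 2 μ`, in the same way
`(W \ S).card ≥ (B0 \ S).card ≥ 2 μ`, so `WL` gives `16 μ ≤ 8 * (cutG G S).card`, contradiction. `flow_linked` gives
`π0 : V → V`, `J0`; `π0` maps `W` to `W` (if `π0 v ≠ v` then `π0 v ∈ A0 ∪ B0`, because `π0 (π0 v) = v ≠ π0 v`). Put
`π v = ⟨π0 v, _⟩`, `J v = J0 v`. `crs π A ≥ μ`: injection of `{v ∈ A0 | π0 v ∉ A0}` into `{v ∈ A | π v ∉ A}`.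
Then `exp_set`.
-/

namespace Pool.Agent.H55.AG

open Finset Classical

variable {V : Type} [Fintype V]

/-- `J v` is a set of edges of `G` that joins `v` and `π v`; the sets of different pairs are disjoint -/
structure LinkP (G : SimpleGraph V) {W : Finset V} (π : {x // x ∈ W} → {x // x ∈ W})
    (J : {x // x ∈ W} → Finset (Sym2 V)) : Prop where
  inv : ∀ v, π (π v) = v
  edge : ∀ v, ∀ e ∈ J v, e ∈ G.edgeSet
  jn : ∀ v, Jn (J v) (v : V) (π v : V)
  dis : ∀ v w e, e ∈ J v → e ∈ J w → w = v ∨ w = π v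
  same : ∀ v, J (π v) = J v

theorem bln_compl {α : Type} [Fintype α] [inst : DecidableEq α] {A : Finset α} (h : Bln A) :
    3 * Fintype.card α ≤ 16 * Aᶜ.card := by
  have e : inst = fun a b => propDecidable (a = b) := Subsingleton.elim _ _
  subst e
  exact h.2

theorem crs_dec {α : Type} [inst : DecidableEq α] (π : α → α) (A : Finset α) :
    (A.filter fun v => π v ∉ A).card = crs π A := by
  have e : inst = fun a b => propDecidable (a = b) := Subsingleton.elim _ _
  subst e
  rfl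

theorem exp_dec {α : Type} [Fintype α] [inst : DecidableEq α] {R : ℕ} (π : Fin R → α → α)
    (h : ∀ A : Finset α, Bln A → Fintype.card α ≤ 32 * ∑ t, crs (π t) A) :
    ∃ W' : Finset α, 13 * Fintype.card α ≤ 16 * W'.card ∧
      ∀ S ⊆ W', 2 * S.card ≤ W'.card →
        S.card ≤ 64 * ∑ t, (S.filter fun v => π t v ∈ W' ∧ π t v ∉ S).card := by
  have e : inst = fun a b => propDecidable (a = b) := Subsingleton.elim _ _
  subst e
  exact exp_set π h

theorem linked_exp {G : SimpleGraph V} {W : Finset V} {μ : ℕ} (hW : W.card = 16 * μ)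
    (hμ : 1 ≤ μ) (hWL : WL G W) :
    ∃ (R : ℕ) (π : Fin R → {x // x ∈ W} → {x // x ∈ W})
      (J : Fin R → {x // x ∈ W} → Finset (Sym2 V)) (W' : Finset {x // x ∈ W}),
      (R : ℝ) ≤ 64 * Real.log ((16 * μ : ℕ) : ℝ) + 1 ∧ (∀ t, LinkP G (π t) (J t)) ∧
      13 * μ ≤ W'.card ∧
      ∀ S ⊆ W', 2 * S.card ≤ W'.card →
        S.card ≤ 64 * ∑ t, (S.filter fun v => π t v ∈ W' ∧ π t v ∉ S).card := by
  have hcard : Fintype.card {x // x ∈ W} = 16 * μ := by rw [Fintype.card_coe, hW]
  have hQ : ∀ A : Finset {x // x ∈ W}, Bln A → ∃ π : {x // x ∈ W} → {x // x ∈ W},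
      (∃ J, LinkP G π J) ∧ μ ≤ crs π A := by
    intro A hA
    have hA2 : 3 * (16 * μ) ≤ 16 * Aᶜ.card := by
      have h := bln_compl hA
      rw [hcard] at h
      exact h
    have hA1 := hA.1
    rw [hcard] at hA1
    clear hA
    obtain ⟨A0, hA0⟩ : ∃ A0, A0 = A.map (Function.Embedding.subtype fun x => x ∈ W) := ⟨_, rfl⟩
    obtain ⟨B0, hB0⟩ : ∃ B0, B0 = Aᶜ.map (Function.Embedding.subtype fun x => x ∈ W) := ⟨_, rfl⟩
    have hmA : ∀ x : {x // x ∈ W}, (x : V) ∈ A0 ↔ x ∈ A := by
      intro x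
      rw [hA0, Finset.mem_map]
      constructor
      · rintro ⟨y, hy, hyx⟩
        have h1 : y = x := Subtype.ext hyx
        rw [← h1]
        exact hy
      · intro hx
        exact ⟨x, hx, rfl⟩
    have hmB : ∀ x : {x // x ∈ W}, (x : V) ∈ B0 ↔ x ∉ A := by
      intro x
      rw [hB0, Finset.mem_map]
      constructor
      · rintro ⟨y, hy, hyx⟩
        have h1 : y = x := Subtype.ext hyx
        rw [← h1]
        exact Finset.mem_compl.1 hy
      · intro hx
        exact ⟨x, Finset.mem_compl.2 hx, rfl⟩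
    have hAW : ∀ v ∈ A0, v ∈ W := by
      intro v hv
      rw [hA0, Finset.mem_map] at hv
      obtain ⟨y, -, rfl⟩ := hv
      exact y.2
    have hBW : ∀ v ∈ B0, v ∈ W := by
      intro v hv
      rw [hB0, Finset.mem_map] at hv
      obtain ⟨y, -, rfl⟩ := hv
      exact y.2
    have hcA : A0.card = A.card := by rw [hA0, Finset.card_map]
    have hcB : B0.card = Aᶜ.card := by rw [hB0, Finset.card_map]
    have hdis : Disjoint A0 B0 := by
      rw [Finset.disjoint_left]
      intro v hv hv'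
      exact (hmB ⟨v, hAW v hv⟩).1 hv' ((hmA ⟨v, hAW v hv⟩).1 hv)
    have hflow : ∀ S : Finset V, μ ≤ (A0 \ S).card + (cutG G S).card + (B0 ∩ S).card := by
      intro S
      by_contra hcon
      push Not at hcon
      have h1 : (A0 \ S).card + (A0 ∩ S).card = A0.card := Finset.card_sdiff_add_card_inter A0 S
      have h2 : (B0 \ S).card + (B0 ∩ S).card = B0.card := Finset.card_sdiff_add_card_inter B0 S
      have h3 : (A0 ∩ S).card ≤ (W ∩ S).card := Finset.card_le_card fun v hv => by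
        rw [Finset.mem_inter] at hv ⊢
        exact ⟨hAW v hv.1, hv.2⟩
      have h4 : (B0 \ S).card ≤ (W \ S).card := Finset.card_le_card fun v hv => by
        rw [Finset.mem_sdiff] at hv ⊢
        exact ⟨hBW v hv.1, hv.2⟩
      have h5 := hWL S (by omega) (by omega)
      omega
    obtain ⟨π0, J0, h1, h2, h3, h4, h5, h6, h7⟩ := flow_linked (G := G) hdis hflow
    have hmap : ∀ v ∈ W, π0 v ∈ W := by
      intro v hv
      by_cases h8 : π0 v = v
      · rw [h8]
        exact hv
      · have h9 : π0 (π0 v) ≠ π0 v := by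
          rw [h1]
          exact fun h => h8 h.symm
        rcases Finset.mem_union.1 (h2 _ h9) with h10 | h10
        · exact hAW _ h10
        · exact hBW _ h10
    refine ⟨fun v => ⟨π0 v, hmap v v.2⟩, ⟨fun v => J0 v, ⟨fun v => ?_, fun v => h4 v, fun v => h5 v,
      fun v w e hv hw => ?_, fun v => h6 v⟩⟩, ?_⟩
    · exact Subtype.ext (h1 v)
    · rcases h7 v w e hv hw with h8 | h8
      · exact Or.inl (Subtype.ext h8)
      · exact Or.inr (Subtype.ext h8)
    · refine h3.trans ?_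
      rw [← crs_dec, ← Finset.card_map (Function.Embedding.subtype fun x => x ∈ W)]
      refine Finset.card_le_card fun v hv => ?_
      rw [Finset.mem_filter] at hv
      rw [Finset.mem_map]
      refine ⟨⟨v, hAW v hv.1⟩, ?_, rfl⟩
      refine Finset.mem_filter.2 ⟨(hmA ⟨v, hAW v hv.1⟩).1 hv.1, fun h8 => hv.2 ?_⟩
      exact (hmA ⟨π0 v, hmap v (hAW v hv.1)⟩).2 h8
  obtain ⟨R, π, hR, hπ, hbal⟩ := cut_matching μ (fun π => ∃ J, LinkP G π J)
    (fun π hπ => by
      obtain ⟨J, hJ⟩ := hπ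
      exact hJ.inv) hcard.le hQ
  choose J hJ using hπ
  obtain ⟨W', hW', hexp⟩ := exp_dec π hbal
  refine ⟨R, π, J, W', ?_, hJ, ?_, hexp⟩
  · rw [hcard] at hR
    exact hR
  · rw [hcard] at hW'
    omega

end Pool.Agent.H55.AG
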