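import Mathlib
import Pool.Agent.H55.AG.Defs

set_option autoImplicit false

/-!
# Module MINA (Mathlib + Defs only): configurations (Krivelevich-Nenadov, Plotkin-Rao-Smith)

`Uc I B = I.biUnion B`, `Xc = W' \ D \ Uc` the rest. `nbs M Y S = Y.filter fun x => ∃ v ∈ S, M.Adj v x`.
Let `m = W'.card`, `q = card U`, `64 * K ^ 2 * (q * s) ≤ m`, `1 ≤ K`.
PROOFS.
`cfg_D`: by `hexp` for `D` (`halfD`): `D.card ≤ K * (nbs (W' \ D) D).card ≤ K * (Uc.card + (nbs Xc D).card)`, and
`4 * K * (nbs Xc D).card ≤ D.card`, so `4 * D.card ≤ 4 * K * Uc.card + D.card`, `3 * D.card ≤ 4 * K * (q * s)`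
(`Uc.card ≤ I.card * s ≤ q * s`). Hence `32 * K * D.card ≤ m` (`3 * 32 * K * D.card ≤ 128 * K ^ 2 * (q * s) ≤ 2 m`).
`cfg_erase` (claim 1): if `i ∈ I` and no element of `Xc` is adjacent to an element of `B i` then
`(I.erase i, B, D ∪ B i)` is a configuration: `Xc` does not change (`D ∪ B i ∪ Uc (I.erase i) = D ∪ Uc I`), so
`nbs Xc (D ∪ B i) = nbs Xc D`; `2 * (D ∪ B i).card ≤ 2 * D.card + 2 * s ≤ m` (`32 D.card ≤ m`, `64 * s ≤ m` because
`q ≥ 1`, `K ≥ 1`). Its `D` is larger (`B i` nonempty, disjoint from `D`).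
`cfg_exp` (claim 2): let `S ⊆ Xc`, `2 * S.card ≤ Xc.card`, `4 * K * (nbs (Xc \ S) S).card < S.card` and `D' = D ∪ S`.
`nbs (W' \ D' \ Uc) D' ⊆ nbs Xc D ∪ nbs (Xc \ S) S`, so `4 * K * card ≤ D.card + S.card = D'.card`. If `2 * D'.card ≤ m`
then `(I, B, D')` is a configuration with a larger `D` (`S` is nonempty). Otherwise `m < 2 * D'.card`; put
`N' = nbs (W' \ D') D'`, `N'.card ≤ Uc.card + nbs (W' \ D' \ Uc) D'`, so `4 * K * N'.card ≤ 4 * K * (q * s) + D'.card`
and `Y = W' \ D' \ N'`. `2 * Y.card ≤ m`. `nbs (W' \ Y) Y ⊆ N'` (an element of `D'` adjacent to `y ∈ Y` would give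
`y ∈ N'`). So `Y.card ≤ K * N'.card`. Now `D'.card ≤ D.card + S.card ≤ m / 32 + m / 2`, so
`4 * K * N'.card ≤ m / 16 + 17 m / 32 = 19 m / 32`, `K * N'.card ≤ 19 m / 128`, `Y.card ≥ m - 17 m / 32 - 19 m / 128 > 19 m / 128`
if `m > 0`. (`m > 0` because `S` is nonempty.) Contradiction. All with `omega` after generalizing the products
(`K * x ≥ x`).
-/

namespace Pool.Agent.H55.AG

open Finset Classical

/-- the elements of `Y` with a neighbour in `S` -/
noncomputable def nbs {W : Type} (M : SimpleGraph W) (Y S : Finset W) : Finset W :=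
  Y.filter fun x => ∃ v ∈ S, M.Adj v x

/-- a partial model of the graph `T` in `M` and a set `D` of discarded vertices -/
structure Cfg {W U : Type} (M : SimpleGraph W) (W' : Finset W) (T : SimpleGraph U) (s K : ℕ)
    (I : Finset U) (B : U → Finset W) (D : Finset W) : Prop where
  ne : ∀ i ∈ I, (B i).Nonempty
  sub : ∀ i ∈ I, B i ⊆ W'
  card : ∀ i ∈ I, (B i).card ≤ s
  cn : ∀ i ∈ I, Cn M (B i)
  dis : ∀ i ∈ I, ∀ j ∈ I, i ≠ j → Disjoint (B i) (B j)
  adj : ∀ i ∈ I, ∀ j ∈ I, T.Adj i j → ∃ x ∈ B i, ∃ y ∈ B j, M.Adj x y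
  disD : ∀ i ∈ I, Disjoint (B i) D
  subD : D ⊆ W'
  halfD : 2 * D.card ≤ W'.card
  bnd : 4 * K * (nbs M ((W' \ D) \ I.biUnion B) D).card ≤ D.card

variable {W U : Type} [Fintype U] {M : SimpleGraph W} {W' : Finset W} {T : SimpleGraph U} {s K : ℕ}
  {I : Finset U} {B : U → Finset W} {D : Finset W}

theorem cfg_D (hK : 1 ≤ K)
    (hexp : ∀ S ⊆ W', 2 * S.card ≤ W'.card → S.card ≤ K * (nbs M (W' \ S) S).card)
    (hq : 64 * K ^ 2 * (Fintype.card U * s) ≤ W'.card) (h : Cfg M W' T s K I B D) :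
    32 * K * D.card ≤ W'.card ∧ (I.biUnion B).card ≤ Fintype.card U * s := by
  have hu : (I.biUnion B).card ≤ Fintype.card U * s :=
    (Finset.card_biUnion_le_card_mul I B s h.card).trans
      (Nat.mul_le_mul_right s (Finset.card_le_univ I))
  refine ⟨?_, hu⟩
  have h1 := hexp D h.subD h.halfD
  have h2 : (nbs M (W' \ D) D).card ≤
      (I.biUnion B).card + (nbs M ((W' \ D) \ I.biUnion B) D).card := by
    refine le_trans (Finset.card_le_card ?_) (Finset.card_union_le _ _)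
    intro x hx
    rw [nbs, Finset.mem_filter] at hx
    rw [Finset.mem_union]
    by_cases hxU : x ∈ I.biUnion B
    · exact Or.inl hxU
    · right
      rw [nbs, Finset.mem_filter, Finset.mem_sdiff]
      exact ⟨⟨hx.1, hxU⟩, hx.2⟩
  have h3 := h.bnd
  obtain ⟨u, hu'⟩ : ∃ u, u = (I.biUnion B).card := ⟨_, rfl⟩
  obtain ⟨n, hn⟩ : ∃ n, n = (nbs M ((W' \ D) \ I.biUnion B) D).card := ⟨_, rfl⟩
  obtain ⟨n', hn'⟩ : ∃ n', n' = (nbs M (W' \ D) D).card := ⟨_, rfl⟩
  rw [← hu', ← hn, ← hn'] at h2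
  rw [← hn'] at h1
  rw [← hn] at h3
  rw [← hu'] at hu
  have h4 : K * n' ≤ K * (u + n) := Nat.mul_le_mul_left K h2
  have h5 : 3 * D.card ≤ 4 * K * u := by nlinarith
  have h6 : 4 * K * u ≤ 4 * K * (Fintype.card U * s) := Nat.mul_le_mul_left _ hu
  have h7 : 32 * K * (3 * D.card) ≤ 32 * K * (4 * K * (Fintype.card U * s)) :=
    Nat.mul_le_mul_left _ (h5.trans h6)
  have h8 : 32 * K * (4 * K * (Fintype.card U * s)) = 2 * (64 * K ^ 2 * (Fintype.card U * s)) := by
    ring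
  have h9 : 32 * K * (3 * D.card) = 3 * (32 * K * D.card) := by ring
  omega

theorem cfg_erase (hK : 1 ≤ K)
    (hexp : ∀ S ⊆ W', 2 * S.card ≤ W'.card → S.card ≤ K * (nbs M (W' \ S) S).card)
    (hq : 64 * K ^ 2 * (Fintype.card U * s) ≤ W'.card) (h : Cfg M W' T s K I B D)
    {i : U} (hi : i ∈ I) (hn : nbs M ((W' \ D) \ I.biUnion B) (B i) = ∅) :
    Cfg M W' T s K (I.erase i) B (D ∪ B i) ∧ D.card < (D ∪ B i).card := by
  have hsub : ∀ j ∈ I.erase i, j ∈ I := fun j hj => Finset.mem_of_mem_erase hj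
  have hX : (W' \ (D ∪ B i)) \ (I.erase i).biUnion B = (W' \ D) \ I.biUnion B := by
    ext x
    simp only [Finset.mem_sdiff, Finset.mem_union, Finset.mem_biUnion, Finset.mem_erase, not_or,
      not_exists, not_and]
    constructor
    · rintro ⟨⟨h1, h2, h3⟩, h4⟩
      refine ⟨⟨h1, h2⟩, fun j hj hx => ?_⟩
      by_cases hji : j = i
      · rw [hji] at hx
        exact h3 hx
      · exact h4 j ⟨hji, hj⟩ hx
    · rintro ⟨⟨h1, h2⟩, h3⟩
      exact ⟨⟨h1, h2, h3 i hi⟩, fun j hj => h3 j hj.2⟩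
  have hdis : Disjoint D (B i) := (h.disD i hi).symm
  have hcard : (D ∪ B i).card = D.card + (B i).card := Finset.card_union_of_disjoint hdis
  have hpos : 0 < (B i).card := Finset.card_pos.2 (h.ne i hi)
  have hD := cfg_D hK hexp hq h
  refine ⟨⟨fun j hj => h.ne j (hsub j hj), fun j hj => h.sub j (hsub j hj),
    fun j hj => h.card j (hsub j hj), fun j hj => h.cn j (hsub j hj),
    fun j hj k hk => h.dis j (hsub j hj) k (hsub k hk),
    fun j hj k hk => h.adj j (hsub j hj) k (hsub k hk), fun j hj => ?_, ?_, ?_, ?_⟩, ?_⟩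
  · rw [Finset.disjoint_union_right]
    exact ⟨h.disD j (hsub j hj), h.dis j (hsub j hj) i hi (Finset.ne_of_mem_erase hj)⟩
  · exact Finset.union_subset h.subD (h.sub i hi)
  · have h1 := h.card i hi
    have h2 : 0 < Fintype.card U := Fintype.card_pos_iff.2 ⟨i⟩
    have h3 : 1 * (1 * s) ≤ K ^ 2 * (Fintype.card U * s) :=
      Nat.mul_le_mul (Nat.one_le_pow _ _ hK) (Nat.mul_le_mul_right s h2)
    have h4 : 64 * K ^ 2 * (Fintype.card U * s) = 64 * (K ^ 2 * (Fintype.card U * s)) := by ring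
    have h5 : 1 * D.card ≤ K * D.card := Nat.mul_le_mul_right _ hK
    have h6 : 32 * K * D.card = 32 * (K * D.card) := by ring
    have h7 := hD.1
    rw [hcard]
    omega
  · rw [hX]
    have h1 : nbs M ((W' \ D) \ I.biUnion B) (D ∪ B i) = nbs M ((W' \ D) \ I.biUnion B) D := by
      ext x
      constructor
      · intro hx
        rw [nbs, Finset.mem_filter] at hx
        obtain ⟨hx1, v, hv, hvx⟩ := hx
        rcases Finset.mem_union.1 hv with hv | hv
        · rw [nbs, Finset.mem_filter]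
          exact ⟨hx1, v, hv, hvx⟩
        · exfalso
          have h2 : x ∈ nbs M ((W' \ D) \ I.biUnion B) (B i) := by
            rw [nbs, Finset.mem_filter]
            exact ⟨hx1, v, hv, hvx⟩
          rw [hn] at h2
          exact absurd h2 (Finset.notMem_empty x)
      · intro hx
        rw [nbs, Finset.mem_filter] at hx ⊢
        obtain ⟨hx1, v, hv, hvx⟩ := hx
        exact ⟨hx1, v, Finset.mem_union_left _ hv, hvx⟩
    rw [h1]
    have h2 := h.bnd
    omega
  · omega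

theorem cfg_exp (hK : 1 ≤ K)
    (hexp : ∀ S ⊆ W', 2 * S.card ≤ W'.card → S.card ≤ K * (nbs M (W' \ S) S).card)
    (hq : 64 * K ^ 2 * (Fintype.card U * s) ≤ W'.card) (h : Cfg M W' T s K I B D)
    {S : Finset W} (hS : S ⊆ (W' \ D) \ I.biUnion B)
    (hS2 : 2 * S.card ≤ ((W' \ D) \ I.biUnion B).card)
    (hS3 : 4 * K * (nbs M (((W' \ D) \ I.biUnion B) \ S) S).card < S.card) :
    Cfg M W' T s K I B (D ∪ S) ∧ D.card < (D ∪ S).card := by
  have hSW : S ⊆ W' := fun x hx => (Finset.mem_sdiff.1 (Finset.mem_sdiff.1 (hS hx)).1).1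
  have hSD : Disjoint D S := by
    rw [Finset.disjoint_left]
    intro x hx hx'
    exact (Finset.mem_sdiff.1 (Finset.mem_sdiff.1 (hS hx')).1).2 hx
  have hSU : ∀ x ∈ S, x ∉ I.biUnion B := fun x hx => (Finset.mem_sdiff.1 (hS hx)).2
  have hcard : (D ∪ S).card = D.card + S.card := Finset.card_union_of_disjoint hSD
  have hD := cfg_D hK hexp hq h
  have hS0 : 0 < S.card := by omega
  -- the new neighbourhood
  have hN : (nbs M ((W' \ (D ∪ S)) \ I.biUnion B) (D ∪ S)).card ≤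
      (nbs M ((W' \ D) \ I.biUnion B) D).card +
        (nbs M (((W' \ D) \ I.biUnion B) \ S) S).card := by
    refine le_trans (Finset.card_le_card ?_) (Finset.card_union_le _ _)
    intro x hx
    rw [nbs, Finset.mem_filter] at hx
    obtain ⟨hx1, v, hv, hvx⟩ := hx
    simp only [Finset.mem_sdiff, Finset.mem_union, not_or] at hx1
    obtain ⟨⟨hx1, hx2, hx3⟩, hx4⟩ := hx1
    rw [Finset.mem_union]
    rcases Finset.mem_union.1 hv with hv | hv
    · left
      rw [nbs, Finset.mem_filter]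
      exact ⟨Finset.mem_sdiff.2 ⟨Finset.mem_sdiff.2 ⟨hx1, hx2⟩, hx4⟩, v, hv, hvx⟩
    · right
      rw [nbs, Finset.mem_filter]
      exact ⟨Finset.mem_sdiff.2 ⟨Finset.mem_sdiff.2 ⟨Finset.mem_sdiff.2 ⟨hx1, hx2⟩, hx4⟩, hx3⟩,
        v, hv, hvx⟩
  have hbnd : 4 * K * (nbs M ((W' \ (D ∪ S)) \ I.biUnion B) (D ∪ S)).card ≤ (D ∪ S).card := by
    have h1 := h.bnd
    have h2 := Nat.mul_le_mul_left (4 * K) hN
    rw [Nat.mul_add] at h2
    omega
  have hX : ((W' \ D) \ I.biUnion B).card ≤ W'.card :=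
    Finset.card_le_card fun x hx => (Finset.mem_sdiff.1 (Finset.mem_sdiff.1 hx).1).1
  have hDS : D ∪ S ⊆ W' := Finset.union_subset h.subD hSW
  have hhalf : 2 * (D ∪ S).card ≤ W'.card := by
    by_contra hcon
    push Not at hcon
    obtain ⟨D', hD'⟩ : ∃ D', D' = D ∪ S := ⟨_, rfl⟩
    rw [← hD'] at hcon hbnd hDS hcard hN
    obtain ⟨N', hN'⟩ : ∃ N', N' = nbs M (W' \ D') D' := ⟨_, rfl⟩
    obtain ⟨Y, hY⟩ : ∃ Y, Y = (W' \ D') \ N' := ⟨_, rfl⟩
    have h1 : N'.card ≤ (I.biUnion B).card + (nbs M ((W' \ D') \ I.biUnion B) D').card := by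
      refine le_trans (Finset.card_le_card ?_) (Finset.card_union_le _ _)
      intro x hx
      rw [hN', nbs, Finset.mem_filter] at hx
      rw [Finset.mem_union]
      by_cases hxU : x ∈ I.biUnion B
      · exact Or.inl hxU
      · right
        rw [nbs, Finset.mem_filter, Finset.mem_sdiff]
        exact ⟨⟨hx.1, hxU⟩, hx.2⟩
    have hN'sub : N' ⊆ W' \ D' := by
      rw [hN', nbs]
      exact Finset.filter_subset _ _
    have h2 : Y.card + N'.card + D'.card = W'.card := by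
      have h3 := Finset.card_sdiff_add_card_eq_card hN'sub
      have h4 := Finset.card_sdiff_add_card_eq_card hDS
      rw [← hY] at h3
      omega
    have h3 : Y ⊆ W' := by
      rw [hY]
      intro x hx
      exact (Finset.mem_sdiff.1 (Finset.mem_sdiff.1 hx).1).1
    have h4 := hexp Y h3 (by omega)
    have h5 : (nbs M (W' \ Y) Y).card ≤ N'.card := by
      refine Finset.card_le_card ?_
      intro x hx
      rw [nbs, Finset.mem_filter] at hx
      obtain ⟨hx1, y, hy, hyx⟩ := hx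
      by_contra hxN
      have hx2 := Finset.mem_sdiff.1 hx1
      have hxD : x ∈ D' := by
        by_contra hxD
        apply hx2.2
        rw [hY]
        exact Finset.mem_sdiff.2 ⟨Finset.mem_sdiff.2 ⟨hx2.1, hxD⟩, hxN⟩
      rw [hY, Finset.mem_sdiff] at hy
      apply hy.2
      rw [hN', nbs, Finset.mem_filter]
      exact ⟨hy.1, x, hxD, hyx.symm⟩
    have h6 : Y.card ≤ K * N'.card := h4.trans (Nat.mul_le_mul_left K h5)
    -- numbers
    have h7 : 4 * K * N'.card ≤ 4 * K * (I.biUnion B).card + D'.card := by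
      have := Nat.mul_le_mul_left (4 * K) h1
      rw [Nat.mul_add] at this
      omega
    have h8 : 16 * (4 * K * (I.biUnion B).card) ≤ W'.card := by
      have h9 : K * (I.biUnion B).card ≤ K ^ 2 * (Fintype.card U * s) := by
        rw [pow_two]
        exact Nat.mul_le_mul (Nat.le_mul_of_pos_left K hK) hD.2
      have h10 : 64 * K ^ 2 * (Fintype.card U * s) = 64 * (K ^ 2 * (Fintype.card U * s)) := by ring
      have h11 : 16 * (4 * K * (I.biUnion B).card) = 64 * (K * (I.biUnion B).card) := by ring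
      omega
    have h9 : 1 * D.card ≤ K * D.card := Nat.mul_le_mul_right _ hK
    have h10 : 32 * K * D.card = 32 * (K * D.card) := by ring
    have h11 := hD.1
    have h12 : 1 * N'.card ≤ K * N'.card := Nat.mul_le_mul_right _ hK
    have h13 : 4 * K * N'.card = 4 * (K * N'.card) := by ring
    omega
  refine ⟨⟨h.ne, h.sub, h.card, h.cn, h.dis, h.adj, fun j hj => ?_, hDS, hhalf, hbnd⟩, by omega⟩
  rw [Finset.disjoint_union_right]
  refine ⟨h.disD j hj, ?_⟩
  rw [Finset.disjoint_left]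
  intro x hx hx'
  exact hSU x hx' (Finset.mem_biUnion.2 ⟨j, hj, hx⟩)

end Pool.Agent.H55.AG
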