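import Mathlib
import Pool.Agent.H55.AG.MinA
import Pool.Agent.H55.AG.BallX

set_option autoImplicit false

/-!
# Module MINOR: every small graph of bounded degree is a minor of an expander

PROOF. Among all configurations (`Cfg`; `(∅, _, ∅)` is one) take one with `D.card * (card U + 1) + I.card` maximal (bounded
by `(W'.card + 1) * (card U + 1)`; use `Nat.findGreatest` or the maximum of a bounded nonempty set of numbers). Then there
is no configuration with a larger `D`, and none with the same `D` and a larger `I`. Put `X = (W' \ D) \ I.biUnion B`.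
(1) every `B i`, `i ∈ I`, has a neighbour in `X` (`cfg_erase`). (2) for `S ⊆ X`, `2 * S.card ≤ X.card`:
`S.card ≤ 4 * K * ((X \ S).filter (∃ v ∈ S, M.Adj v x)).card` (`cfg_exp`, `not_lt`). So `ball_path` holds for `X` with `4 * K`.
(3) `X` is nonempty: `X.card ≥ W'.card - D.card - q * s` and `32 D.card ≤ m`, `64 q s ≤ m`, `m > 0`
(`m ≥ 64 * q * s > 0` if `q > 0`; if there is a `v ∉ I` then `q > 0`; `s > 0`).
(4) Suppose `v ∉ I`. Let `Nv = {i ∈ I | T.Adj v i}`, at most `k` elements, for `i ∈ Nv` pick `x i ∈ X` adjacent to an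
element of `B i`. Pick `x0 ∈ X`. For `i ∈ Nv` the path `p i` with `n i` steps from `x0` to `x i` inside `X`,
`n i ≤ 2 * (4 * K * (Nat.log 2 X.card + 1)) ≤ 8 * K * (Nat.log 2 W'.card + 1)`. Put
`Bv = {x0} ∪ ⋃ i ∈ Nv, (range (n i + 1)).image (p i)`: a subset of `X` with at most
`1 + k * (8 * K * (Nat.log 2 W'.card + 1) + 1) ≤ s` elements; connected (from any point of a path back to `x0`
(`M.Adj` symmetric) and then to any other point). New configuration `I ∪ {v}`, `B' = Function.update B v Bv`, the same `D`: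
`bnd` because the rest becomes smaller. `I` is larger: contradiction. So `I = univ`.
-/

namespace Pool.Agent.H55.AG

open Finset Classical

private theorem mn_max {W U : Type} [Fintype W] [Fintype U] (M : SimpleGraph W) (W' : Finset W)
    (T : SimpleGraph U) (s K : ℕ) :
    ∃ (I : Finset U) (B : U → Finset W) (D : Finset W), Cfg M W' T s K I B D ∧
      ∀ (I' : Finset U) (B' : U → Finset W) (D' : Finset W), Cfg M W' T s K I' B' D' →
        D'.card * (Fintype.card U + 1) + I'.card ≤ D.card * (Fintype.card U + 1) + I.card := by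
  let P : ℕ → Prop := fun n => ∃ (I : Finset U) (B : U → Finset W) (D : Finset W),
    Cfg M W' T s K I B D ∧ D.card * (Fintype.card U + 1) + I.card = n
  have hP0 : P 0 := by
    refine ⟨∅, fun _ => ∅, ∅, ?_, by simp⟩
    constructor <;> simp [nbs]
  have hb : ∀ (I' : Finset U) (B' : U → Finset W) (D' : Finset W), Cfg M W' T s K I' B' D' →
      D'.card * (Fintype.card U + 1) + I'.card ≤ (W'.card + 1) * (Fintype.card U + 1) := by
    intro I' B' D' h
    have h1 : D'.card ≤ W'.card := Finset.card_le_card h.subD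
    have h2 : I'.card ≤ Fintype.card U := Finset.card_le_univ _
    nlinarith [Nat.mul_le_mul_right (Fintype.card U + 1) h1]
  obtain ⟨I, B, D, hc, hn⟩ : P (Nat.findGreatest P ((W'.card + 1) * (Fintype.card U + 1))) :=
    Nat.findGreatest_spec (Nat.zero_le _) hP0
  refine ⟨I, B, D, hc, fun I' B' D' h => ?_⟩
  rw [hn]
  exact Nat.le_findGreatest (hb I' B' D' h) ⟨I', B', D', h, rfl⟩

private theorem mn_path {W : Type} {M : SimpleGraph W} {Bv : Finset W} {p : ℕ → W} {n : ℕ}
    (hp : ∀ i < n, M.Adj (p i) (p (i + 1))) (hm : ∀ i ≤ n, p i ∈ Bv) :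
    ∀ i ≤ n, Relation.ReflTransGen (fun a b => M.Adj a b ∧ b ∈ Bv) (p 0) (p i) ∧
      Relation.ReflTransGen (fun a b => M.Adj a b ∧ b ∈ Bv) (p i) (p 0) := by
  intro i
  induction i with
  | zero => intro _; exact ⟨.refl, .refl⟩
  | succ i ih =>
    intro hi
    obtain ⟨h1, h2⟩ := ih (by omega)
    exact ⟨h1.tail ⟨hp i (by omega), hm _ hi⟩,
      Relation.ReflTransGen.head ⟨(hp i (by omega)).symm, hm i (by omega)⟩ h2⟩

theorem minor {W : Type} [Fintype W] (M : SimpleGraph W) (W' : Finset W) (K : ℕ) (hK : 1 ≤ K)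
    (hexp : ∀ S ⊆ W', 2 * S.card ≤ W'.card → S.card ≤ K * (nbs M (W' \ S) S).card)
    {U : Type} [Fintype U] (T : SimpleGraph U) (k : ℕ) (hT : ∀ u, (nbG T u).card ≤ k)
    (s : ℕ) (hs : 1 + k * (8 * K * (Nat.log 2 W'.card + 1) + 1) ≤ s)
    (hq : 64 * K ^ 2 * (Fintype.card U * s) ≤ W'.card) :
    ∃ B : U → Finset W, (∀ u, (B u).Nonempty) ∧ (∀ u, B u ⊆ W') ∧ (∀ u, Cn M (B u)) ∧
      (∀ u v, u ≠ v → Disjoint (B u) (B v)) ∧
      ∀ u v, T.Adj u v → ∃ x ∈ B u, ∃ y ∈ B v, M.Adj x y := by
  obtain ⟨I, B, D, hc, hmax⟩ := mn_max M W' T s K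
  have hIq : I.card ≤ Fintype.card U := Finset.card_le_univ _
  have hD : ∀ (I' : Finset U) (B' : U → Finset W) (D' : Finset W), Cfg M W' T s K I' B' D' →
      ¬ D.card < D'.card := by
    intro I' B' D' h hlt
    have h1 := hmax I' B' D' h
    have h2 : (D.card + 1) * (Fintype.card U + 1) ≤ D'.card * (Fintype.card U + 1) :=
      Nat.mul_le_mul_right _ hlt
    nlinarith
  by_cases hI : ∀ v, v ∈ I
  · exact ⟨B, fun u => hc.ne u (hI u), fun u => hc.sub u (hI u), fun u => hc.cn u (hI u),
      fun u v huv => hc.dis u (hI u) v (hI v) huv, fun u v huv => hc.adj u (hI u) v (hI v) huv⟩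
  exfalso
  push Not at hI
  obtain ⟨v, hv⟩ := hI
  obtain ⟨hd1, hd2⟩ := cfg_D hK hexp hq hc
  have hqpos : 1 ≤ Fintype.card U := Fintype.card_pos_iff.mpr ⟨v⟩
  have hspos : 1 ≤ s := by omega
  set X := (W' \ D) \ I.biUnion B with hX
  have hXW : X ⊆ W' := fun x hx => (Finset.mem_sdiff.1 (Finset.mem_sdiff.1 hx).1).1
  -- the rest is nonempty
  have hXne : X.Nonempty := by
    rw [← Finset.card_pos]
    have h1 : W'.card ≤ X.card + (I.biUnion B).card + D.card := by
      have e1 : (W' \ D).card ≤ X.card + (I.biUnion B).card := by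
        have := Finset.card_le_card_sdiff_add_card (s := W' \ D) (t := I.biUnion B)
        rw [hX]; omega
      have e2 : W'.card ≤ (W' \ D).card + D.card := by
        have := Finset.card_le_card_sdiff_add_card (s := W') (t := D)
        omega
      omega
    have h2 : 32 * D.card ≤ W'.card := le_trans (by nlinarith) hd1
    have h3 : 64 * (Fintype.card U * s) ≤ W'.card := by
      refine le_trans ?_ hq
      have : 1 ≤ K ^ 2 := Nat.one_le_pow _ _ hK
      nlinarith [Nat.zero_le (Fintype.card U * s)]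
    have h4 : 1 ≤ Fintype.card U * s := Nat.mul_pos hqpos hspos
    omega
  obtain ⟨x0, hx0⟩ := hXne
  haveI : Nonempty W := ⟨x0⟩
  -- neighbours
  have hnb : ∀ i ∈ I, ∃ x ∈ X, ∃ y ∈ B i, M.Adj y x := by
    intro i hi
    by_contra hcon
    push Not at hcon
    have hn : nbs M X (B i) = ∅ := by
      rw [nbs, Finset.filter_eq_empty_iff]
      rintro x hx ⟨y, hy, hyx⟩
      exact hcon x hx y hy hyx
    obtain ⟨h1, h2⟩ := cfg_erase hK hexp hq hc hi hn
    exact hD _ _ _ h1 h2
  have hexpX : ∀ S ⊆ X, 2 * S.card ≤ X.card →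
      S.card ≤ 4 * K * ((X \ S).filter fun x => ∃ v ∈ S, M.Adj v x).card := by
    intro S hS hS2
    by_contra hcon
    push Not at hcon
    obtain ⟨h1, h2⟩ := cfg_exp hK hexp hq hc hS hS2 hcon
    exact hD _ _ _ h1 h2
  have hlog : 2 * (4 * K * (Nat.log 2 X.card + 1)) ≤ 8 * K * (Nat.log 2 W'.card + 1) := by
    have : Nat.log 2 X.card ≤ Nat.log 2 W'.card := Nat.log_mono_right (Finset.card_le_card hXW)
    have h2 : 8 * K * (Nat.log 2 X.card + 1) ≤ 8 * K * (Nat.log 2 W'.card + 1) :=
      Nat.mul_le_mul_left _ (by omega)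
    linarith
  -- paths
  have hpath : ∀ i ∈ I, ∃ (n : ℕ) (p : ℕ → W), n ≤ 8 * K * (Nat.log 2 W'.card + 1) ∧ p 0 = x0 ∧
      (∀ j < n, M.Adj (p j) (p (j + 1))) ∧ (∀ j ≤ n, p j ∈ X) ∧ ∃ y ∈ B i, M.Adj y (p n) := by
    intro i hi
    obtain ⟨x, hx, y, hy, hyx⟩ := hnb i hi
    obtain ⟨n, hn, p, hp0, hpn, hadj, hmem⟩ := ball_path M X (4 * K) (by omega) hexpX hx0 hx
    exact ⟨n, p, hn.trans hlog, hp0, hadj, hmem, y, hy, by rw [hpn]; exact hyx⟩
  choose! n p hn hp0 hpadj hpmem hpy using hpath
  set Nv := I.filter fun i => T.Adj v i with hNv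
  have hNvI : ∀ i ∈ Nv, i ∈ I := fun i hi => (Finset.mem_filter.1 hi).1
  have hNvk : Nv.card ≤ k := by
    refine le_trans (Finset.card_le_card ?_) (hT v)
    intro i hi
    simp only [nbG, Finset.mem_filter, Finset.mem_univ, true_and]
    exact (Finset.mem_filter.1 hi).2
  set Bv : Finset W := insert x0 (Nv.biUnion fun i => (Finset.range (n i + 1)).image (p i)) with hBv
  have hBvX : Bv ⊆ X := by
    intro x hx
    rw [hBv, Finset.mem_insert] at hx
    rcases hx with rfl | hx
    · exact hx0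
    · obtain ⟨i, hi, hx⟩ := Finset.mem_biUnion.1 hx
      obtain ⟨j, hj, rfl⟩ := Finset.mem_image.1 hx
      exact hpmem i (hNvI i hi) j (by simpa [Nat.lt_succ_iff] using hj)
  have hBvc : Bv.card ≤ s := by
    have h1 : Bv.card ≤ (Nv.biUnion fun i => (Finset.range (n i + 1)).image (p i)).card + 1 :=
      Finset.card_insert_le _ _
    have h2 : (Nv.biUnion fun i => (Finset.range (n i + 1)).image (p i)).card ≤
        Nv.card * (8 * K * (Nat.log 2 W'.card + 1) + 1) := by
      refine Finset.card_biUnion_le_card_mul _ _ _ fun i hi => ?_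
      refine Finset.card_image_le.trans ?_
      rw [Finset.card_range]
      have := hn i (hNvI i hi)
      omega
    have h3 : Nv.card * (8 * K * (Nat.log 2 W'.card + 1) + 1) ≤
        k * (8 * K * (Nat.log 2 W'.card + 1) + 1) := Nat.mul_le_mul_right _ hNvk
    omega
  have hmemBv : ∀ i ∈ Nv, ∀ j ≤ n i, p i j ∈ Bv := by
    intro i hi j hj
    rw [hBv, Finset.mem_insert]
    right
    exact Finset.mem_biUnion.2 ⟨i, hi, Finset.mem_image.2 ⟨j, by simpa [Nat.lt_succ_iff] using hj, rfl⟩⟩
  have hx0Bv : x0 ∈ Bv := Finset.mem_insert_self _ _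
  have hBvcn : Cn M Bv := by
    have hone : ∀ x ∈ Bv, Relation.ReflTransGen (fun a b => M.Adj a b ∧ b ∈ Bv) x0 x ∧
        Relation.ReflTransGen (fun a b => M.Adj a b ∧ b ∈ Bv) x x0 := by
      intro x hx
      rw [hBv, Finset.mem_insert] at hx
      rcases hx with rfl | hx
      · exact ⟨.refl, .refl⟩
      · obtain ⟨i, hi, hx⟩ := Finset.mem_biUnion.1 hx
        obtain ⟨j, hj, rfl⟩ := Finset.mem_image.1 hx
        have hj' : j ≤ n i := by simpa [Nat.lt_succ_iff] using hj
        have := mn_path (Bv := Bv) (hpadj i (hNvI i hi)) (hmemBv i hi) j hj'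
        rwa [hp0 i (hNvI i hi)] at this
    intro x hx y hy
    exact (hone x hx).2.trans (hone y hy).1
  -- the new configuration
  have hnew : Cfg M W' T s K (insert v I) (Function.update B v Bv) D := by
    have hup : ∀ i ∈ I, Function.update B v Bv i = B i := by
      intro i hi
      exact Function.update_of_ne (fun h => hv (by rw [← h]; exact hi)) _ _
    have hupv : Function.update B v Bv v = Bv := Function.update_self _ _ _
    have hdisX : ∀ i ∈ I, Disjoint Bv (B i) := by
      intro i hi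
      rw [Finset.disjoint_left]
      intro x hx hxB
      exact (Finset.mem_sdiff.1 (hBvX hx)).2 (Finset.mem_biUnion.2 ⟨i, hi, hxB⟩)
    refine ⟨?_, ?_, ?_, ?_, ?_, ?_, ?_, hc.subD, hc.halfD, ?_⟩
    · intro i hi
      rcases Finset.mem_insert.1 hi with rfl | hi'
      · rw [hupv]; exact ⟨x0, hx0Bv⟩
      · rw [hup i hi']; exact hc.ne i hi'
    · intro i hi
      rcases Finset.mem_insert.1 hi with rfl | hi'
      · rw [hupv]; exact hBvX.trans hXW
      · rw [hup i hi']; exact hc.sub i hi'
    · intro i hi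
      rcases Finset.mem_insert.1 hi with rfl | hi'
      · rw [hupv]; exact hBvc
      · rw [hup i hi']; exact hc.card i hi'
    · intro i hi
      rcases Finset.mem_insert.1 hi with rfl | hi'
      · rw [hupv]; exact hBvcn
      · rw [hup i hi']; exact hc.cn i hi'
    · intro i hi j hj hij
      rcases Finset.mem_insert.1 hi with rfl | hi'
      · rcases Finset.mem_insert.1 hj with rfl | hj'
        · exact absurd rfl hij
        · rw [hupv, hup j hj']; exact hdisX j hj'
      · rcases Finset.mem_insert.1 hj with rfl | hj'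
        · rw [hupv, hup i hi']; exact (hdisX i hi').symm
        · rw [hup i hi', hup j hj']; exact hc.dis i hi' j hj' hij
    · intro i hi j hj hij
      rcases Finset.mem_insert.1 hi with rfl | hi'
      · rcases Finset.mem_insert.1 hj with rfl | hj'
        · exact absurd rfl hij.ne
        · rw [hupv, hup j hj']
          obtain ⟨y, hy, hyx⟩ := hpy j hj'
          exact ⟨p j (n j), hmemBv j (Finset.mem_filter.2 ⟨hj', hij⟩) _ le_rfl, y, hy, hyx.symm⟩
      · rcases Finset.mem_insert.1 hj with rfl | hj'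
        · rw [hupv, hup i hi']
          obtain ⟨y, hy, hyx⟩ := hpy i hi'
          exact ⟨y, hy, p i (n i), hmemBv i (Finset.mem_filter.2 ⟨hi', hij.symm⟩) _ le_rfl, hyx⟩
        · rw [hup i hi', hup j hj']; exact hc.adj i hi' j hj' hij
    · intro i hi
      rcases Finset.mem_insert.1 hi with rfl | hi'
      · rw [hupv, Finset.disjoint_left]
        intro x hx hxD
        exact (Finset.mem_sdiff.1 (Finset.mem_sdiff.1 (hBvX hx)).1).2 hxD
      · rw [hup i hi']; exact hc.disD i hi'
    · refine le_trans (Nat.mul_le_mul_left _ (Finset.card_le_card ?_)) hc.bnd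
      intro x hx
      rw [nbs, Finset.mem_filter] at hx ⊢
      refine ⟨?_, hx.2⟩
      obtain ⟨h1, h2⟩ := Finset.mem_sdiff.1 hx.1
      refine Finset.mem_sdiff.2 ⟨h1, fun h3 => h2 ?_⟩
      obtain ⟨i, hi, hxi⟩ := Finset.mem_biUnion.1 h3
      exact Finset.mem_biUnion.2 ⟨i, Finset.mem_insert_of_mem hi, by rw [hup i hi]; exact hxi⟩
  have hfin := hmax _ _ _ hnew
  rw [Finset.card_insert_of_notMem hv] at hfin
  omega

end Pool.Agent.H55.AG
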