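import Mathlib
import Pool.Agent.H55.AG.Defs

set_option autoImplicit false

/-!
# Module VEXP (Mathlib + Defs only): the graph of a family of involutions, vertex expansion

PROOF. `N = (W' \ S).filter fun x => ∃ v ∈ S, (MG π h).Adj v x`. For each `t` the map `v ↦ π t v` is injective (involution)
from `{v ∈ S | π t v ∈ W', π t v ∉ S}` to `N` (`v ≠ π t v` because one is in `S` and the other is not). So
`∑ t, .. ≤ R * N.card`.
-/

namespace Pool.Agent.H55.AG

open Finset Classical

/-- the graph of a family of involutions -/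
def MG {W : Type} {R : ℕ} (π : Fin R → W → W) (h : ∀ t v, π t (π t v) = v) : SimpleGraph W where
  Adj v u := v ≠ u ∧ ∃ t, π t v = u
  symm := ⟨fun v u hvu => ⟨hvu.1.symm, by
    obtain ⟨t, ht⟩ := hvu.2
    exact ⟨t, by rw [← ht, h]⟩⟩⟩
  loopless := ⟨fun _ hv => hv.1 rfl⟩

theorem vexp {W : Type} [Fintype W] {R : ℕ} (π : Fin R → W → W) (h : ∀ t v, π t (π t v) = v)
    (W' : Finset W)
    (hexp : ∀ S ⊆ W', 2 * S.card ≤ W'.card →
      S.card ≤ 64 * ∑ t, (S.filter fun v => π t v ∈ W' ∧ π t v ∉ S).card) :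
    ∀ S ⊆ W', 2 * S.card ≤ W'.card →
      S.card ≤ 64 * R * ((W' \ S).filter fun x => ∃ v ∈ S, (MG π h).Adj v x).card := by
  intro S hS hc
  refine (hexp S hS hc).trans ?_
  have key : ∀ t : Fin R, (S.filter fun v => π t v ∈ W' ∧ π t v ∉ S).card ≤
      ((W' \ S).filter fun x => ∃ v ∈ S, (MG π h).Adj v x).card := by
    intro t
    refine Finset.card_le_card_of_injOn (fun v => π t v) ?_ ?_
    · intro v hv
      have hv' := (Finset.mem_filter.1 (Finset.mem_coe.1 hv))
      obtain ⟨hvS, hvW, hvn⟩ := hv'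
      refine Finset.mem_coe.2 (Finset.mem_filter.2 ⟨Finset.mem_sdiff.2 ⟨hvW, hvn⟩, v, hvS, ?_, t, rfl⟩)
      intro he
      have he' : v = π t v := he
      exact hvn (by rw [← he']; exact hvS)
    · intro a _ b _ hab
      have := congrArg (π t) hab
      simpa only [h] using this
  have hsum : ∑ t : Fin R, (S.filter fun v => π t v ∈ W' ∧ π t v ∉ S).card ≤
      R * ((W' \ S).filter fun x => ∃ v ∈ S, (MG π h).Adj v x).card := by
    calc _ ≤ ∑ _t : Fin R, ((W' \ S).filter fun x => ∃ v ∈ S, (MG π h).Adj v x).card :=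
          Finset.sum_le_sum fun t _ => key t
      _ = _ := by rw [Finset.sum_const, Finset.card_univ, Fintype.card_fin, smul_eq_mul]
  calc _ ≤ 64 * (R * ((W' \ S).filter fun x => ∃ v ∈ S, (MG π h).Adj v x).card) :=
        Nat.mul_le_mul_left _ hsum
    _ = _ := by ring

end Pool.Agent.H55.AG
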