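import Mathlib
import Pool.Agent.H55.AG.Link
import Pool.Agent.H55.AG.VExp

set_option autoImplicit false

/-!
# Module ROUTEG: from edge sets of `M` to edge sets of `G`

PROOF. For an edge `e` of `M = MG π _` there are `t`, `x` with `e = s(x, π t x)`, `x ≠ π t x` (`Sym2.ind`); choose them:
`Jm e := J t x`, so `Jn (Jm e) x (π t x)` and for every `v : V` the number of the `g ∈ Jm e` with `v ∈ g` is, modulo 2, the
number of the end points `z` of `e` with `(z : V) = v` (two different end points). For other `e` put `Jm e = ∅`.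
`Q f = univ.filter fun g => Odd ((P f).filter fun e => g ∈ Jm e).card`.
Edges: `g ∈ Q f` gives `e ∈ P f` with `g ∈ Jm e` (an odd number is not 0), so `g ∈ G.edgeSet`.
`Jn`: in `ZMod 2`, `((Q f).filter (v ∈ ·)).card = ∑ g with v ∈ g, ((P f).filter (g ∈ Jm ·)).card
= ∑ e ∈ P f, ((Jm e).filter (v ∈ ·)).card` (`Finset.sum_comm`, double counting) `= ∑ e ∈ P f, #{z ∈ e | (z : V) = v}`,
which is `((P f).filter (⟨v, _⟩ ∈ ·)).card` if `v ∈ W` and `0` otherwise; by `hP` this is
`[v = r (src f)] + [v = r (tgt f)]` (`Subtype.ext_iff`; for `v ∉ W` both are `0`).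
Congestion: let `g` be given, `Eg = {e ∈ M.edgeSet | g ∈ Jm e}`; if `e, e' ∈ Eg` have the same `t` then with their
`x`, `x'`: `g ∈ J t x`, `g ∈ J t x'`, so `x' = x` or `x' = π t x` (`LinkP.dis`), so `e = e'`: `Eg.card ≤ R` (injection
into `Fin R`). `{f | g ∈ Q f} ⊆ ⋃ e ∈ Eg, {f | e ∈ P f}`, so at most `R * k` elements.
-/

namespace Pool.Agent.H55.AG

open Finset Classical

private theorem natCast_odd (n : ℕ) : ((n : ℕ) : ZMod 2) = if Odd n then 1 else 0 := by
  split_ifs with h
  · exact (ZMod.natCast_eq_one_iff_odd).2 h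
  · rw [Nat.not_odd_iff_even] at h
    exact (ZMod.natCast_eq_zero_iff_even).2 h

private theorem double_count {A B : Type} [Fintype B] (P : Finset A) (Jm : A → Finset B)
    (p : B → Prop) [DecidablePred p] [i : ∀ g, DecidablePred fun e => g ∈ Jm e] :
    ((((univ.filter fun g => Odd (P.filter fun e => g ∈ Jm e).card).filter p).card : ℕ) : ZMod 2) =
      ∑ e ∈ P, ((((Jm e).filter p).card : ℕ) : ZMod 2) := by
  have h1 : ((((univ.filter fun g => Odd (P.filter fun e => g ∈ Jm e).card).filter p).card : ℕ) : ZMod 2)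
      = ∑ g ∈ univ.filter p, (((P.filter fun e => g ∈ Jm e).card : ℕ) : ZMod 2) := by
    rw [Finset.card_eq_sum_ones, Finset.filter_filter, Nat.cast_sum]
    rw [Finset.sum_filter, Finset.sum_filter]
    refine Finset.sum_congr rfl fun g _ => ?_
    rw [natCast_odd (P.filter fun e => g ∈ Jm e).card]
    by_cases h2 : p g
    · by_cases h3 : Odd (P.filter fun e => g ∈ Jm e).card
      · simp [h2, h3]
      · simp [h3]
    · simp [h2]
  rw [h1]
  have h4 : ∀ g : B, (((P.filter fun e => g ∈ Jm e).card : ℕ) : ZMod 2)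
      = ∑ e ∈ P, if g ∈ Jm e then (1 : ZMod 2) else 0 := by
    intro g
    rw [Finset.card_filter, Nat.cast_sum]
    refine Finset.sum_congr rfl fun e _ => ?_
    split_ifs <;> simp
  simp_rw [h4]
  rw [Finset.sum_comm]
  refine Finset.sum_congr rfl fun e _ => ?_
  rw [Finset.card_filter, Nat.cast_sum, Finset.sum_filter]
  rw [← Finset.sum_filter_add_sum_filter_not (s := (univ : Finset B)) (p := fun g => g ∈ Jm e)]
  have h5 : ∑ x ∈ univ.filter (fun g => ¬ g ∈ Jm e),
      (if p x then (if x ∈ Jm e then (1 : ZMod 2) else 0) else 0) = 0 := by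
    refine Finset.sum_eq_zero fun x hx => ?_
    rw [Finset.mem_filter] at hx
    simp [hx.2]
  rw [h5, add_zero]
  have h6 : (univ : Finset B).filter (fun g => g ∈ Jm e) = Jm e := by
    ext x; simp
  rw [h6]
  refine Finset.sum_congr rfl fun x hx => ?_
  simp [hx]

theorem route_G {V : Type} [Fintype V] {G : SimpleGraph V} {W : Finset V} {R : ℕ}
    (π : Fin R → {x // x ∈ W} → {x // x ∈ W}) (J : Fin R → {x // x ∈ W} → Finset (Sym2 V))
    (hL : ∀ t, LinkP G (π t) (J t)) {U E : Type} [Fintype E] {src tgt : E → U} {k : ℕ}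
    (r : U → {x // x ∈ W}) (P : E → Finset (Sym2 {x // x ∈ W}))
    (hPe : ∀ f, ∀ e ∈ P f, e ∈ (MG π fun t v => (hL t).inv v).edgeSet)
    (hP : ∀ f, Jn (P f) (r (src f)) (r (tgt f)))
    (hk : ∀ e, (univ.filter fun f => e ∈ P f).card ≤ k) :
    ∃ Q : E → Finset (Sym2 V), (∀ f, ∀ g ∈ Q f, g ∈ G.edgeSet) ∧
      (∀ f, Jn (Q f) (r (src f) : V) (r (tgt f) : V)) ∧
      ∀ g, (univ.filter fun f => g ∈ Q f).card ≤ R * k := by
  have hch : ∀ e : Sym2 {x // x ∈ W}, e ∈ (MG π fun t v => (hL t).inv v).edgeSet →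
      ∃ (t : Fin R) (x : {x // x ∈ W}), e = s(x, π t x) ∧ x ≠ π t x := by
    intro e
    induction e using Sym2.ind with
    | _ a b =>
      intro he
      rw [SimpleGraph.mem_edgeSet] at he
      obtain ⟨hne, t, ht⟩ := he
      exact ⟨t, a, by rw [ht], by rw [ht]; exact hne⟩
  choose T X hTX hne using hch
  let Jm : Sym2 {x // x ∈ W} → Finset (Sym2 V) := fun e =>
    if he : e ∈ (MG π fun t v => (hL t).inv v).edgeSet then J (T e he) (X e he) else ∅
  have hJ1 : ∀ e (he : e ∈ (MG π fun t v => (hL t).inv v).edgeSet), Jm e = J (T e he) (X e he) := by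
    intro e he
    exact dif_pos he
  have hJ2 : ∀ e g, g ∈ Jm e → e ∈ (MG π fun t v => (hL t).inv v).edgeSet := by
    intro e g hg
    by_contra he
    have h1 : Jm e = ∅ := dif_neg he
    rw [h1] at hg
    exact absurd hg (Finset.notMem_empty _)
  refine ⟨fun f => univ.filter fun g => Odd ((P f).filter fun e => g ∈ Jm e).card, ?_, ?_, ?_⟩
  · intro f g hg
    rw [Finset.mem_filter] at hg
    have h1 : 0 < ((P f).filter fun e => g ∈ Jm e).card := hg.2.pos
    rw [Finset.card_pos] at h1
    obtain ⟨e, he⟩ := h1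
    rw [Finset.mem_filter] at he
    have h2 := hJ2 e g he.2
    have h3 := he.2
    rw [hJ1 e h2] at h3
    exact (hL _).edge _ g h3
  · intro f v
    change ((((univ.filter fun g => Odd ((P f).filter fun e => g ∈ Jm e).card).filter
      fun e => v ∈ e).card : ℕ) : ZMod 2) = _
    rw [double_count]
    by_cases hv : v ∈ W
    · have h1 : ∀ e ∈ P f, ((((Jm e).filter fun g => v ∈ g).card : ℕ) : ZMod 2)
          = if (⟨v, hv⟩ : {x // x ∈ W}) ∈ e then 1 else 0 := by
        intro e he
        have h2 := hPe f e he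
        rw [hJ1 e h2, (hL _).jn _ v]
        have h3 := hTX e h2
        have h4 := hne e h2
        generalize T e h2 = t at *
        generalize X e h2 = x at *
        rw [h3]
        have h5 : (v = (x : V)) ↔ (⟨v, hv⟩ : {x // x ∈ W}) = x := by rw [Subtype.ext_iff]
        have h6 : (v = (π t x : V)) ↔ (⟨v, hv⟩ : {x // x ∈ W}) = π t x := by rw [Subtype.ext_iff]
        rw [if_congr h5 rfl rfl, if_congr h6 rfl rfl]
        by_cases h7 : (⟨v, hv⟩ : {x // x ∈ W}) = x
        · have h8 : ¬ (⟨v, hv⟩ : {x // x ∈ W}) = π t x := by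
            rw [h7]; exact h4
          rw [if_pos h7, if_neg h8, if_pos (Sym2.mem_iff.2 (Or.inl h7)), add_zero]
        · rw [if_neg h7, zero_add]
          by_cases h8 : (⟨v, hv⟩ : {x // x ∈ W}) = π t x
          · rw [if_pos h8, if_pos (Sym2.mem_iff.2 (Or.inr h8))]
          · rw [if_neg h8, if_neg (fun h => (Sym2.mem_iff.1 h).elim h7 h8)]
      rw [Finset.sum_congr rfl h1]
      have h2 := hP f ⟨v, hv⟩
      rw [Finset.card_filter, Nat.cast_sum] at h2
      refine (Finset.sum_congr rfl fun e _ => ?_).trans (h2.trans ?_)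
      · by_cases h6 : (⟨v, hv⟩ : {x // x ∈ W}) ∈ e
        · rw [if_pos h6, if_pos h6, Nat.cast_one]
        · rw [if_neg h6, if_neg h6, Nat.cast_zero]
      have h5 : ∀ x : {x // x ∈ W}, (v = (x : V)) ↔ (⟨v, hv⟩ : {x // x ∈ W}) = x := by
        intro x
        rw [Subtype.ext_iff]
      refine congrArg₂ (fun a b : ZMod 2 => a + b) ?_ ?_
      · by_cases h6 : (⟨v, hv⟩ : {x // x ∈ W}) = r (src f)
        · rw [if_pos h6, if_pos ((h5 _).2 h6)]
        · rw [if_neg h6, if_neg fun h => h6 ((h5 _).1 h)]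
      · by_cases h6 : (⟨v, hv⟩ : {x // x ∈ W}) = r (tgt f)
        · rw [if_pos h6, if_pos ((h5 _).2 h6)]
        · rw [if_neg h6, if_neg fun h => h6 ((h5 _).1 h)]
    · have h1 : ∀ e ∈ P f, ((((Jm e).filter fun g => v ∈ g).card : ℕ) : ZMod 2) = 0 := by
        intro e he
        have h2 := hPe f e he
        rw [hJ1 e h2, (hL _).jn _ v]
        rw [if_neg, if_neg, add_zero]
        · rintro rfl
          exact hv (Subtype.prop _)
        · rintro rfl
          exact hv (Subtype.prop _)
      rw [Finset.sum_eq_zero h1]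
      rw [if_neg, if_neg, add_zero]
      · rintro rfl
        exact hv (Subtype.prop _)
      · rintro rfl
        exact hv (Subtype.prop _)
  · intro g
    have hEg : (univ.filter fun e => g ∈ Jm e).card ≤ R := by
      have hin : ∀ e : {e // e ∈ univ.filter fun e => g ∈ Jm e},
          (e : Sym2 {x // x ∈ W}) ∈ (MG π fun t v => (hL t).inv v).edgeSet := by
        intro e
        exact hJ2 _ g (Finset.mem_filter.1 e.2).2
      have h1 := Fintype.card_le_of_injective
        (fun e : {e // e ∈ univ.filter fun e => g ∈ Jm e} => T e.1 (hin e)) (by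
          intro e e' hee
          have hee1 : T e.1 (hin e) = T e'.1 (hin e') := hee
          have hg1 := (Finset.mem_filter.1 e.2).2
          have hg2 := (Finset.mem_filter.1 e'.2).2
          rw [hJ1 _ (hin e)] at hg1
          rw [hJ1 _ (hin e')] at hg2
          have h3 := hTX e.1 (hin e)
          have h4 := hTX e'.1 (hin e')
          rw [hee1] at hg1 h3
          apply Subtype.ext
          rcases (hL _).dis _ _ g hg1 hg2 with h5 | h5
          · refine h3.trans (Eq.trans ?_ h4.symm)
            rw [h5]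
          · refine h3.trans (Eq.trans ?_ h4.symm)
            rw [h5, (hL _).inv]
            exact Sym2.eq_swap)
      rw [Fintype.card_coe, Fintype.card_fin] at h1
      exact h1
    have hsub : (univ.filter fun f => g ∈ univ.filter fun g => Odd ((P f).filter fun e => g ∈ Jm e).card)
        ⊆ (univ.filter fun e => g ∈ Jm e).biUnion fun e => univ.filter fun f => e ∈ P f := by
      intro f hf
      rw [Finset.mem_filter, Finset.mem_filter] at hf
      have h1 : 0 < ((P f).filter fun e => g ∈ Jm e).card := hf.2.2.pos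
      rw [Finset.card_pos] at h1
      obtain ⟨e, he⟩ := h1
      rw [Finset.mem_filter] at he
      rw [Finset.mem_biUnion]
      exact ⟨e, Finset.mem_filter.2 ⟨Finset.mem_univ _, he.2⟩,
        Finset.mem_filter.2 ⟨Finset.mem_univ _, he.1⟩⟩
    calc (univ.filter fun f => g ∈ univ.filter fun g => Odd ((P f).filter fun e => g ∈ Jm e).card).card
        ≤ _ := Finset.card_le_card hsub
      _ ≤ (univ.filter fun e => g ∈ Jm e).card * k :=
          Finset.card_biUnion_le_card_mul _ _ _ fun e _ => hk e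
      _ ≤ R * k := Nat.mul_le_mul_right _ hEg

end Pool.Agent.H55.AG
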