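import Mathlib
import Pool.Agent.H55.AG.Path

set_option autoImplicit false

/-!
# Module ROUTEM: the edges of a multigraph as edge sets of `M`

PROOF. `cn_join`: `path_exists` for `r a b := M.Adj a b ∧ b ∈ B` and `path_jn`; all `p i ∈ B` (`p 0 = x ∈ B`).
`route_M`: `r u` = an element of `B u` (injective because the sets are disjoint). For an edge `f` with
`x ∈ B (src f)`, `y ∈ B (tgt f)`, `M.Adj x y`: `P1` = join of `r (src f)` and `x` in `B (src f)`, `P2 = {s(x, y)}`, `P3` = join of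
`y` and `r (tgt f)` in `B (tgt f)`; `P f = symmDiff (symmDiff P1 P2) P3` (`jn_symm` twice, `jn_single`).
Congestion: let `e = s(z, z')` be in some `P f`. Then `e ∈ P1`, `e ∈ P2` or `e ∈ P3`: so `z, z' ∈ B (src f)`, or one is in
`B (src f)` and the other in `B (tgt f)`, or both are in `B (tgt f)`. In all cases `z` is in `B u` with
`u = src f` or `u = tgt f`; the sets are disjoint, so `u` depends only on `z`: all these `f` are in
`{f | src f = u ∨ tgt f = u}`, which has at most `k` elements. If no `P f` contains `e`: `0 ≤ k`.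
-/

namespace Pool.Agent.H55.AG

open Finset Classical

theorem cn_join {W : Type} {M : SimpleGraph W} {B : Finset W} (h : Cn M B) {x y : W}
    (hx : x ∈ B) (hy : y ∈ B) :
    ∃ P : Finset (Sym2 W), (∀ e ∈ P, e ∈ M.edgeSet ∧ ∀ z ∈ e, z ∈ B) ∧ Jn P x y := by
  obtain ⟨n, p, h0, hn, hr, hinj⟩ := path_exists _ (h x hx y hy)
  have hB : ∀ i ≤ n, p i ∈ B := by
    intro i hi
    rcases Nat.eq_zero_or_pos i with h1 | h1
    · rw [h1, h0]; exact hx
    · have h2 := (hr (i - 1) (by omega)).2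
      rwa [Nat.sub_add_cancel h1] at h2
  refine ⟨(Finset.range n).image fun i => s(p i, p (i + 1)), ?_, ?_⟩
  · intro e he
    rw [Finset.mem_image] at he
    obtain ⟨i, hi, rfl⟩ := he
    rw [Finset.mem_range] at hi
    refine ⟨(hr i hi).1, ?_⟩
    intro z hz
    rcases Sym2.mem_iff.1 hz with h1 | h1
    · rw [h1]; exact hB i hi.le
    · rw [h1]; exact hB (i + 1) hi
  · have h1 := path_jn hinj
    rw [h0, hn] at h1
    exact h1

theorem route_M {W U E : Type} [Fintype E] (M : SimpleGraph W) (src tgt : E → U)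
    (hloop : ∀ e, src e ≠ tgt e) {k : ℕ}
    (hk : ∀ u, (univ.filter fun e => src e = u ∨ tgt e = u).card ≤ k)
    (B : U → Finset W) (hne : ∀ u, (B u).Nonempty) (hcn : ∀ u, Cn M (B u))
    (hdis : ∀ u v, u ≠ v → Disjoint (B u) (B v))
    (hadj : ∀ e, ∃ x ∈ B (src e), ∃ y ∈ B (tgt e), M.Adj x y) :
    ∃ (r : U → W) (P : E → Finset (Sym2 W)), Function.Injective r ∧
      (∀ f, ∀ e ∈ P f, e ∈ M.edgeSet) ∧ (∀ f, Jn (P f) (r (src f)) (r (tgt f))) ∧
      ∀ e, (univ.filter fun f => e ∈ P f).card ≤ k := by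
  choose r hr using hne
  have huniq : ∀ u v z, z ∈ B u → z ∈ B v → u = v := by
    intro u v z h1 h2
    by_contra h3
    exact Finset.disjoint_left.1 (hdis u v h3) h1 h2
  have hex : ∀ f, ∃ P : Finset (Sym2 W), (∀ e ∈ P, e ∈ M.edgeSet) ∧
      (∀ e ∈ P, ∀ z ∈ e, z ∈ B (src f) ∨ z ∈ B (tgt f)) ∧ Jn P (r (src f)) (r (tgt f)) := by
    intro f
    obtain ⟨x, hx, y, hy, hxy⟩ := hadj f
    obtain ⟨P1, h1, j1⟩ := cn_join (hcn (src f)) (hr (src f)) hx
    obtain ⟨P3, h3, j3⟩ := cn_join (hcn (tgt f)) hy (hr (tgt f))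
    have j2 : Jn ({s(x, y)} : Finset (Sym2 W)) x y := jn_single hxy.ne
    refine ⟨symmDiff (symmDiff P1 {s(x, y)}) P3, ?_, ?_, jn_symm (jn_symm j1 j2) j3⟩
    · intro e he
      rw [Finset.mem_symmDiff, Finset.mem_symmDiff] at he
      have h4 : e ∈ P1 ∨ e ∈ ({s(x, y)} : Finset (Sym2 W)) ∨ e ∈ P3 := by tauto
      rcases h4 with h4 | h4 | h4
      · exact (h1 e h4).1
      · rw [Finset.mem_singleton.1 h4]; exact hxy
      · exact (h3 e h4).1
    · intro e he z hz
      rw [Finset.mem_symmDiff, Finset.mem_symmDiff] at he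
      have h4 : e ∈ P1 ∨ e ∈ ({s(x, y)} : Finset (Sym2 W)) ∨ e ∈ P3 := by tauto
      rcases h4 with h4 | h4 | h4
      · exact Or.inl ((h1 e h4).2 z hz)
      · rw [Finset.mem_singleton.1 h4] at hz
        rcases Sym2.mem_iff.1 hz with h5 | h5
        · rw [h5]; exact Or.inl hx
        · rw [h5]; exact Or.inr hy
      · exact Or.inr ((h3 e h4).2 z hz)
  choose P hP1 hP2 hP3 using hex
  refine ⟨r, P, ?_, hP1, hP3, ?_⟩
  · intro u v huv
    have h1 := hr u
    rw [huv] at h1
    exact huniq u v _ h1 (hr v)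
  · intro e
    rcases Finset.eq_empty_or_nonempty (univ.filter fun f => e ∈ P f) with h1 | ⟨f, hf⟩
    · rw [h1, Finset.card_empty]; exact Nat.zero_le _
    · rw [Finset.mem_filter] at hf
      obtain ⟨z, hz⟩ : ∃ z, z ∈ e := by
        induction e using Sym2.ind with
        | _ a b => exact ⟨a, Sym2.mem_mk_left a b⟩
      obtain ⟨u, hu⟩ : ∃ u, z ∈ B u := by
        rcases hP2 f e hf.2 z hz with h2 | h2
        · exact ⟨_, h2⟩
        · exact ⟨_, h2⟩
      refine (Finset.card_le_card ?_).trans (hk u)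
      intro f' hf'
      rw [Finset.mem_filter] at hf' ⊢
      refine ⟨Finset.mem_univ _, ?_⟩
      rcases hP2 f' e hf'.2 z hz with h2 | h2
      · exact Or.inl (huniq _ _ z h2 hu)
      · exact Or.inr (huniq _ _ z h2 hu)

end Pool.Agent.H55.AG
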