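import Mathlib
import Pool.Agent.H55.AG.Defs

set_option autoImplicit false

/-!
# Module SPLIT (Mathlib + Defs only): if all `m0`-sets can be split then there is a carving

PROOF. `L = d * (m0 + 1)`. Strong induction on `A.card`. `(cutG G {v}).card ≤ d` for all `v` (injection `p ↦ p.2` into
`nbG G v`).
Case 1, `(cutG G A).card + d ≤ L`. Take `v ∈ A`. If `A = {v}`: `single`. Otherwise `A = {v} ∪ A.erase v`;
`(cutG G (A.erase v)).card ≤ (cutG G A).card + d` (a pair `(x, y)` that leaves `A.erase v` leaves `A` or has `y = v`; the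
number of the latter is at most `(nbG G v).card ≤ d`), induction hypothesis for `A.erase v`, `single v`, `join`.
Case 2, `d * m0 < (cutG G A).card`. The set `Y = (cutG G A).image Prod.fst ⊆ A` has more than `m0` elements
(`(cutG G A).card ≤ d * Y.card`: `card_le_mul_card_image` or `card_eq_sum_card_image`, fibres have at most `d` elements
like `(nbG G x)`), take `W ⊆ Y`, `W.card = m0` and `S` from `h`. Put `A1 = A ∩ S`, `A2 = A \ S`: nonempty because
`W ∩ S`, `W \ S` are nonempty (`8 ≤ m0`). Pairs that leave `A1`: those leaving `A` with first component in `S`, or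
pairs in `cutG G S`. So `(cutG G A1).card ≤ ((cutG G A).filter (p.1 ∈ S)).card + (cutG G S).card`, and
`((cutG G A).filter (p.1 ∉ S)).card ≥ (W \ S).card` (every element of `W` is a first component), so
`(cutG G A1).card ≤ (cutG G A).card - (W \ S).card + (cutG G S).card ≤ (cutG G A).card ≤ L` because
`8 * (cutG G S).card < m0 ≤ 8 * (W \ S).card`. In the same way for `A2` (a pair `(x, y)` leaving `A2` with `y ∈ A` has
`y ∈ S`, so `(y, x) ∈ cutG G S`: swap). Both are smaller than `A`; induction hypotheses, `join`
(`A1 ∪ A2 = A`, disjoint, `(cutG G A).card ≤ L`).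
-/

namespace Pool.Agent.H55.AG

open Finset Classical

section

variable {V : Type} [Fintype V] {G : SimpleGraph V}

private theorem sp_mem {S : Finset V} {p : V × V} : p ∈ cutG G S ↔ G.Adj p.1 p.2 ∧ p.1 ∈ S ∧ p.2 ∉ S := by
  unfold cutG
  rw [Finset.mem_filter]
  exact ⟨fun h => h.2, fun h => ⟨Finset.mem_univ _, h⟩⟩

private theorem sp_nb {u v : V} : u ∈ nbG G v ↔ G.Adj v u := by
  unfold nbG
  rw [Finset.mem_filter]
  exact ⟨fun h => h.2, fun h => ⟨Finset.mem_univ _, h⟩⟩

private theorem sp_single {d : ℕ} (hd : ∀ v, (nbG G v).card ≤ d) (v : V) : (cutG G {v}).card ≤ d := by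
  refine le_trans (Finset.card_le_card_of_injOn Prod.snd ?_ ?_) (hd v)
  · intro p hp
    have h := sp_mem.1 (Finset.mem_coe.1 hp)
    have h1 : p.1 = v := Finset.mem_singleton.1 h.2.1
    refine Finset.mem_coe.2 (sp_nb.2 ?_)
    rw [← h1]
    exact h.1
  · intro p hp q hq hpq
    have h := sp_mem.1 (Finset.mem_coe.1 hp)
    have h' := sp_mem.1 (Finset.mem_coe.1 hq)
    have h1 : p.1 = v := Finset.mem_singleton.1 h.2.1
    have h2 : q.1 = v := Finset.mem_singleton.1 h'.2.1
    exact Prod.ext (h1.trans h2.symm) hpq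

private theorem sp_erase {d : ℕ} (hd : ∀ v, (nbG G v).card ≤ d) (A : Finset V) (v : V) :
    (cutG G (A.erase v)).card ≤ (cutG G A).card + d := by
  have hsub : cutG G (A.erase v) ⊆ cutG G A ∪ (nbG G v).image (fun u => (u, v)) := by
    intro p hp
    obtain ⟨h1, h2, h3⟩ := sp_mem.1 hp
    rw [Finset.mem_erase] at h2
    rw [Finset.mem_union]
    by_cases h4 : p.2 = v
    · right
      rw [Finset.mem_image]
      refine ⟨p.1, sp_nb.2 ?_, ?_⟩
      · rw [← h4]
        exact h1.symm
      · rw [← h4]
    · left
      refine sp_mem.2 ⟨h1, h2.2, fun h5 => h3 ?_⟩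
      rw [Finset.mem_erase]
      exact ⟨h4, h5⟩
  have h1 := Finset.card_le_card hsub
  have h2 := Finset.card_union_le (cutG G A) ((nbG G v).image (fun u => (u, v)))
  have h3 : ((nbG G v).image (fun u => (u, v))).card ≤ (nbG G v).card := Finset.card_image_le
  have h4 := hd v
  omega

private theorem sp_fib {d : ℕ} (hd : ∀ v, (nbG G v).card ≤ d) (A : Finset V) :
    (cutG G A).card ≤ d * ((cutG G A).image Prod.fst).card := by
  refine Finset.card_le_mul_card_image _ _ ?_
  intro a _
  refine le_trans (Finset.card_le_card_of_injOn Prod.snd ?_ ?_) (hd a)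
  · intro p hp
    have hp' := Finset.mem_filter.1 (Finset.mem_coe.1 hp)
    have h := sp_mem.1 hp'.1
    refine Finset.mem_coe.2 (sp_nb.2 ?_)
    rw [← hp'.2]
    exact h.1
  · intro p hp q hq hpq
    have hp' := Finset.mem_filter.1 (Finset.mem_coe.1 hp)
    have hq' := Finset.mem_filter.1 (Finset.mem_coe.1 hq)
    exact Prod.ext (hp'.2.trans hq'.2.symm) hpq

private theorem sp_inter (A S : Finset V) :
    (cutG G (A ∩ S)).card ≤ ((cutG G A).filter fun p => p.1 ∈ S).card + (cutG G S).card := by
  have hsub : cutG G (A ∩ S) ⊆ ((cutG G A).filter fun p => p.1 ∈ S) ∪ cutG G S := by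
    intro p hp
    obtain ⟨h1, h2, h3⟩ := sp_mem.1 hp
    rw [Finset.mem_inter] at h2 h3
    rw [Finset.mem_union]
    by_cases h4 : p.2 ∈ A
    · right
      exact sp_mem.2 ⟨h1, h2.2, fun h5 => h3 ⟨h4, h5⟩⟩
    · left
      rw [Finset.mem_filter]
      exact ⟨sp_mem.2 ⟨h1, h2.1, h4⟩, h2.2⟩
  exact (Finset.card_le_card hsub).trans (Finset.card_union_le _ _)

private theorem sp_sdiff (A S : Finset V) :
    (cutG G (A \ S)).card ≤ ((cutG G A).filter fun p => ¬ p.1 ∈ S).card + (cutG G S).card := by
  have hsub : cutG G (A \ S) ⊆ ((cutG G A).filter fun p => ¬ p.1 ∈ S) ∪ (cutG G S).image Prod.swap := by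
    intro p hp
    obtain ⟨h1, h2, h3⟩ := sp_mem.1 hp
    rw [Finset.mem_sdiff] at h2 h3
    rw [Finset.mem_union]
    by_cases h4 : p.2 ∈ A
    · right
      rw [Finset.mem_image]
      refine ⟨(p.2, p.1), sp_mem.2 ⟨h1.symm, ?_, h2.2⟩, rfl⟩
      by_contra h5
      exact h3 ⟨h4, h5⟩
    · left
      rw [Finset.mem_filter]
      exact ⟨sp_mem.2 ⟨h1, h2.1, h4⟩, h2.2⟩
  have h1 := (Finset.card_le_card hsub).trans (Finset.card_union_le _ _)
  have h2 : ((cutG G S).image Prod.swap).card ≤ (cutG G S).card := Finset.card_image_le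
  omega

private theorem sp_lower (A W : Finset V) (hW : W ⊆ (cutG G A).image Prod.fst) (T : Finset (V × V))
    (hT : ∀ p ∈ cutG G A, p.1 ∈ W → p ∈ T) : W.card ≤ T.card := by
  refine le_trans (Finset.card_le_card ?_) (Finset.card_image_le (f := Prod.fst) (s := T))
  intro x hx
  obtain ⟨p, hp, hpx⟩ := Finset.mem_image.1 (hW hx)
  rw [Finset.mem_image]
  refine ⟨p, hT p hp ?_, hpx⟩
  rw [hpx]
  exact hx

end

theorem carve_of_split {V : Type} [Fintype V] {G : SimpleGraph V} {d m0 : ℕ} (hm0 : 8 ≤ m0)
    (hd : ∀ v, (nbG G v).card ≤ d)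
    (h : ∀ W : Finset V, W.card = m0 → ∃ S : Finset V, m0 ≤ 8 * (W ∩ S).card ∧
      m0 ≤ 8 * (W \ S).card ∧ 8 * (cutG G S).card < m0) :
    ∀ A : Finset V, A.Nonempty → (cutG G A).card ≤ d * (m0 + 1) → Carve G (d * (m0 + 1)) A := by
  have key : ∀ n : ℕ, ∀ A : Finset V, A.card = n → A.Nonempty → (cutG G A).card ≤ d * (m0 + 1) →
      Carve G (d * (m0 + 1)) A := by
    intro n
    induction n using Nat.strong_induction_on with
    | _ n ih =>
      intro A hAn hA hL
      have hdL : d ≤ d * (m0 + 1) := Nat.le_mul_of_pos_right d (Nat.succ_pos _)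
      rcases le_or_gt ((cutG G A).card + d) (d * (m0 + 1)) with h1 | h1
      · obtain ⟨v, hv⟩ := hA
        have hs : Carve G (d * (m0 + 1)) {v} := Carve.single v ((sp_single hd v).trans hdL)
        have hAe : ({v} : Finset V) ∪ A.erase v = A := by
          ext x
          rw [Finset.mem_union, Finset.mem_singleton, Finset.mem_erase]
          constructor
          · rintro (rfl | h2)
            · exact hv
            · exact h2.2
          · intro h2
            by_cases h3 : x = v
            · exact Or.inl h3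
            · exact Or.inr ⟨h3, h2⟩
        rcases Finset.eq_empty_or_nonempty (A.erase v) with h2 | h2
        · rw [h2, Finset.union_empty] at hAe
          rwa [hAe] at hs
        · have h3 : Carve G (d * (m0 + 1)) (A.erase v) := by
            refine ih (A.erase v).card ?_ _ rfl h2 ?_
            · rw [← hAn]
              exact Finset.card_erase_lt_of_mem hv
            · exact (sp_erase hd A v).trans h1
          have h4 := Carve.join {v} (A.erase v) hs h3 ?_ (by rw [hAe]; exact hL)
          · rwa [hAe] at h4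
          · rw [Finset.disjoint_singleton_left]
            exact Finset.notMem_erase v A
      · have h2 : d * m0 < (cutG G A).card := by
          rw [mul_add, mul_one] at h1
          omega
        have h3 := sp_fib (G := G) hd A
        have h4 : m0 < ((cutG G A).image Prod.fst).card := lt_of_mul_lt_mul_left (h2.trans_le h3) (Nat.zero_le d)
        obtain ⟨W, hWY, hWc⟩ := Finset.exists_subset_card_eq h4.le
        obtain ⟨S, hS1, hS2, hS3⟩ := h W hWc
        have hWA : W ⊆ A := by
          intro x hx
          obtain ⟨p, hp, hpx⟩ := Finset.mem_image.1 (hWY hx)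
          rw [← hpx]
          exact (sp_mem.1 hp).2.1
        have hA1 : (A ∩ S).Nonempty := by
          have : (W ∩ S).Nonempty := by
            rw [← Finset.card_pos]
            omega
          exact this.mono (Finset.inter_subset_inter_right hWA)
        have hA2 : (A \ S).Nonempty := by
          have : (W \ S).Nonempty := by
            rw [← Finset.card_pos]
            omega
          exact this.mono (Finset.sdiff_subset_sdiff hWA (Finset.Subset.refl _))
        have hcard : (A ∩ S).card + (A \ S).card = A.card := Finset.card_inter_add_card_sdiff A S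
        have hp1 : 0 < (A ∩ S).card := Finset.card_pos.2 hA1
        have hp2 : 0 < (A \ S).card := Finset.card_pos.2 hA2
        have hsum : ((cutG G A).filter fun p => p.1 ∈ S).card + ((cutG G A).filter fun p => ¬ p.1 ∈ S).card =
            (cutG G A).card := Finset.card_filter_add_card_filter_not (s := cutG G A) (fun p => p.1 ∈ S)
        have hl1 : (W ∩ S).card ≤ ((cutG G A).filter fun p => p.1 ∈ S).card :=
          sp_lower A (W ∩ S) (Finset.inter_subset_left.trans hWY) _
            (fun p hp hpW => Finset.mem_filter.2 ⟨hp, (Finset.mem_inter.1 hpW).2⟩)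
        have hl2 : (W \ S).card ≤ ((cutG G A).filter fun p => ¬ p.1 ∈ S).card :=
          sp_lower A (W \ S) (Finset.sdiff_subset.trans hWY) _
            (fun p hp hpW => Finset.mem_filter.2 ⟨hp, (Finset.mem_sdiff.1 hpW).2⟩)
        have hc1 := sp_inter (G := G) A S
        have hc2 := sp_sdiff (G := G) A S
        have c1 : Carve G (d * (m0 + 1)) (A ∩ S) := ih (A ∩ S).card (by omega) _ rfl hA1 (by omega)
        have c2 : Carve G (d * (m0 + 1)) (A \ S) := ih (A \ S).card (by omega) _ rfl hA2 (by omega)
        have hU : (A ∩ S) ∪ (A \ S) = A := by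
          ext x
          rw [Finset.mem_union, Finset.mem_inter, Finset.mem_sdiff]
          tauto
        have h5 := Carve.join (A ∩ S) (A \ S) c1 c2 ?_ (by rw [hU]; exact hL)
        · rwa [hU] at h5
        · rw [Finset.disjoint_left]
          intro x hx hx'
          exact (Finset.mem_sdiff.1 hx').2 (Finset.mem_inter.1 hx).2
  intro A hA hL
  exact key _ A rfl hA hL

end Pool.Agent.H55.AG
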