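import Mathlib
import Pool.Agent.H55.AG.Defs

set_option autoImplicit false

/-!
# Module TWTD (Mathlib + Defs only): a nice tree decomposition gives an elimination order

PROOF. Induction on `TD G k F B`, invariant `Inv F B`: `Disjoint F B` and there are `H : SimpleGraph V` and
`ord : V → ℕ`, `ord` injective on `F` (`∀ u ∈ F, ∀ v ∈ F, ord u = ord v → u = v`), with
(a) `H.Adj u v → (u ∈ F ∨ u ∈ B) ∧ (v ∈ F ∨ v ∈ B)`;
(b) `∀ u ∈ F, ∀ v, G.Adj u v → H.Adj u v` (in particular `v ∈ F ∪ B`);
(c) `∀ u ∈ B, ∀ v ∈ B, u ≠ v → H.Adj u v`;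
(d) for all `v ∈ F`, with `pre v = {u | H.Adj u v ∧ (u ∈ B ∨ (u ∈ F ∧ ord u < ord v))}`: `H.IsClique (pre v)`
and `(pre v).ncard ≤ k`.
* nil: `H = ⊥`.
* intro `v`: add to `H` all edges between `v` and `B` (`H' = H ⊔ {vu, u ∈ B}`); (b): a vertex `u ∈ F` has all its
  `G`-neighbours in `F ∪ B`, so it is not adjacent to `v` and nothing changes for the `pre` sets
  of the elements of `F` (`v` is `H'`-adjacent only to elements of `B`).
* forget `v`: the same `H`; new `ord' u = ord u + 1` for `u ≠ v`, `ord' v = 0`. The `pre` set of `v` is `B`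
  (a clique by (c) with at most `k` elements: `(insert v B).card ≤ k + 1`; for this add the invariant
  `B.card ≤ k + 1`), the other `pre` sets do not change (`v` was in `insert v B` and is now a smaller
  element of `F`). (b) for `v`: its `G`-neighbours are in `F ∪ B`; those in `B` are `H`-adjacent by (c), for
  `u ∈ F` use (b) for `u`.
* join: `H ⊔ H'`, `ord'' u = 2 * ord u` on `F`, `2 * ord' u + 1` on `F'`. An element of `F` is adjacent in `H'` to
  nothing (by (a) for `H'`, because it is not in `F' ∪ B`: `Disjoint F B`, `Disjoint F F'`).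
  The clique condition: the edges of the larger graph inside a set contain the old edges.
At the end `F = univ`, `B = ∅`: `TwLE` with `H` and `ord` (`G ≤ H` by (b), `pre v = {u | H.Adj u v ∧ ord u < ord v}`).
`ncard`: the sets are finite (`V` finite).
-/

namespace Pool.Agent.H55.AG

open Finset Classical

/-- the set of the earlier neighbours and the neighbours in the bag -/
private def pre {V : Type} (H : SimpleGraph V) (ord : V → ℕ) (F B : Finset V) (v : V) : Set V :=
  {u | H.Adj u v ∧ (u ∈ B ∨ (u ∈ F ∧ ord u < ord v))}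

private structure TInv {V : Type} (G : SimpleGraph V) (k : ℕ) (F B : Finset V) (H : SimpleGraph V)
    (ord : V → ℕ) : Prop where
  dis : ∀ v ∈ F, v ∉ B
  cd : B.card ≤ k + 1
  inj : ∀ u ∈ F, ∀ v ∈ F, ord u = ord v → u = v
  ha : ∀ u v, H.Adj u v → (u ∈ F ∨ u ∈ B) ∧ (v ∈ F ∨ v ∈ B)
  hb : ∀ u ∈ F, ∀ v, G.Adj u v → H.Adj u v
  hc : ∀ u ∈ B, ∀ v ∈ B, u ≠ v → H.Adj u v
  hcl : ∀ v ∈ F, ∀ x ∈ pre H ord F B v, ∀ y ∈ pre H ord F B v, x ≠ y → H.Adj x y
  hcard : ∀ v ∈ F, (pre H ord F B v).ncard ≤ k

private theorem tinv_nil {V : Type} (G : SimpleGraph V) (k : ℕ) :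
    TInv G k ∅ ∅ ⊥ (fun _ => 0) where
  dis := by simp
  cd := by simp
  inj := by simp
  ha := by
    intro u v h
    exact absurd h (by simp)
  hb := by simp
  hc := by simp
  hcl := by simp
  hcard := by simp

/-- the graph with the edges from `v` to the bag added -/
private def addG {V : Type} (H : SimpleGraph V) (B : Finset V) (v : V) (hv : v ∉ B) : SimpleGraph V where
  Adj x y := H.Adj x y ∨ (x = v ∧ y ∈ B) ∨ (y = v ∧ x ∈ B)
  symm := ⟨by
    intro x y h
    rcases h with h | h | h
    · exact Or.inl h.symm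
    · exact Or.inr (Or.inr h)
    · exact Or.inr (Or.inl h)⟩
  loopless := ⟨by
    intro x h
    rcases h with h | ⟨h1, h2⟩ | ⟨h1, h2⟩
    · exact H.loopless.irrefl x h
    · subst h1
      exact hv h2
    · subst h1
      exact hv h2⟩

private theorem tinv_intro {V : Type} [Fintype V] {G : SimpleGraph V} {k : ℕ} {F B : Finset V} {H : SimpleGraph V}
    {ord : V → ℕ} (h : TInv G k F B H ord) (v : V) (hvF : v ∉ F) (hvB : v ∉ B) (hcB : B.card ≤ k) :
    TInv G k F (insert v B) (addG H B v hvB) ord := by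
  have hsub : ∀ w ∈ F, pre (addG H B v hvB) ord F (insert v B) w ⊆ pre H ord F B w := by
    intro w hw u hu
    have hwv : w ≠ v := fun e => hvF (e ▸ hw)
    have hwB : w ∉ B := h.dis w hw
    obtain ⟨h1, h2⟩ := hu
    have h3 : H.Adj u w := by
      rcases h1 with h1 | ⟨_, h1⟩ | ⟨h1, _⟩
      · exact h1
      · exact absurd h1 hwB
      · exact absurd h1 hwv
    refine ⟨h3, ?_⟩
    rcases h2 with h2 | h2
    · rcases Finset.mem_insert.1 h2 with h4 | h4
      · subst h4
        rcases (h.ha _ _ h3).1 with h5 | h5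
        · exact absurd h5 hvF
        · exact absurd h5 hvB
      · exact Or.inl h4
    · exact Or.inr h2
  refine ⟨?_, ?_, h.inj, ?_, ?_, ?_, ?_, ?_⟩
  · intro u hu h1
    rcases Finset.mem_insert.1 h1 with h2 | h2
    · subst h2
      exact hvF hu
    · exact h.dis u hu h2
  · exact (Finset.card_insert_le v B).trans (Nat.succ_le_succ hcB)
  · intro x y hxy
    rcases hxy with h1 | ⟨h1, h2⟩ | ⟨h1, h2⟩
    · obtain ⟨h2, h3⟩ := h.ha x y h1
      exact ⟨h2.imp_right Finset.mem_insert_of_mem, h3.imp_right Finset.mem_insert_of_mem⟩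
    · subst h1
      exact ⟨Or.inr (Finset.mem_insert_self _ _), Or.inr (Finset.mem_insert_of_mem h2)⟩
    · subst h1
      exact ⟨Or.inr (Finset.mem_insert_of_mem h2), Or.inr (Finset.mem_insert_self _ _)⟩
  · intro u hu w huw
    exact Or.inl (h.hb u hu w huw)
  · intro x hx y hy hxy
    rcases Finset.mem_insert.1 hx with h1 | h1
    · rcases Finset.mem_insert.1 hy with h2 | h2
      · exact absurd (h1.trans h2.symm) hxy
      · exact Or.inr (Or.inl ⟨h1, h2⟩)
    · rcases Finset.mem_insert.1 hy with h2 | h2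
      · exact Or.inr (Or.inr ⟨h2, h1⟩)
      · exact Or.inl (h.hc x h1 y h2 hxy)
  · intro w hw x hx y hy hxy
    exact Or.inl (h.hcl w hw x (hsub w hw hx) y (hsub w hw hy) hxy)
  · intro w hw
    exact (Set.ncard_le_ncard (hsub w hw) (Set.toFinite _)).trans (h.hcard w hw)

private theorem tinv_forget {V : Type} [Fintype V] {G : SimpleGraph V} {k : ℕ} {F B : Finset V} {H : SimpleGraph V}
    {ord : V → ℕ} (v : V) (h : TInv G k F (insert v B) H ord) (hvB : v ∉ B) (hvF : v ∉ F)
    (hn : ∀ u, G.Adj v u → u ∈ F ∨ u ∈ B) :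
    TInv G k (insert v F) B H (fun u => if u = v then 0 else ord u + 1) := by
  have hcB : B.card ≤ k := by
    have := h.cd
    rw [Finset.card_insert_of_notMem hvB] at this
    omega
  have hsubv : pre H (fun u => if u = v then 0 else ord u + 1) (insert v F) B v ⊆ (B : Set V) := by
    intro u hu
    rcases hu.2 with h1 | ⟨_, h1⟩
    · exact h1
    · simp at h1
  have hsub : ∀ w ∈ F, pre H (fun u => if u = v then 0 else ord u + 1) (insert v F) B w ⊆
      pre H ord F (insert v B) w := by
    intro w hw u hu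
    have hwv : w ≠ v := fun e => hvF (e ▸ hw)
    obtain ⟨h1, h2⟩ := hu
    refine ⟨h1, ?_⟩
    rcases h2 with h2 | ⟨h2, h3⟩
    · exact Or.inl (Finset.mem_insert_of_mem h2)
    · by_cases huv : u = v
      · subst huv
        exact Or.inl (Finset.mem_insert_self _ _)
      · right
        simp only [if_neg huv, if_neg hwv] at h3
        exact ⟨(Finset.mem_insert.1 h2).resolve_left huv, by omega⟩
  refine ⟨?_, by omega, ?_, ?_, ?_, ?_, ?_, ?_⟩
  · intro u hu
    rcases Finset.mem_insert.1 hu with h1 | h1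
    · subst h1
      exact hvB
    · exact fun h2 => h.dis u h1 (Finset.mem_insert_of_mem h2)
  · intro x hx y hy hxy
    by_cases h1 : x = v
    · by_cases h2 : y = v
      · exact h1.trans h2.symm
      · simp only [if_pos h1, if_neg h2] at hxy
        omega
    · by_cases h2 : y = v
      · simp only [if_neg h1, if_pos h2] at hxy
        omega
      · simp only [if_neg h1, if_neg h2] at hxy
        exact h.inj x ((Finset.mem_insert.1 hx).resolve_left h1) y
          ((Finset.mem_insert.1 hy).resolve_left h2) (by omega)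
  · have key : ∀ z, (z ∈ F ∨ z ∈ insert v B) → (z ∈ insert v F ∨ z ∈ B) := by
      intro z hz
      rcases hz with hz | hz
      · exact Or.inl (Finset.mem_insert_of_mem hz)
      · rcases Finset.mem_insert.1 hz with h1 | h1
        · subst h1
          exact Or.inl (Finset.mem_insert_self _ _)
        · exact Or.inr h1
    intro x y hxy
    exact ⟨key x (h.ha x y hxy).1, key y (h.ha x y hxy).2⟩
  · intro u hu w huw
    rcases Finset.mem_insert.1 hu with h1 | h1
    · subst h1
      rcases hn w huw with h2 | h2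
      · exact (h.hb w h2 u huw.symm).symm
      · exact h.hc u (Finset.mem_insert_self _ _) w (Finset.mem_insert_of_mem h2) huw.ne
    · exact h.hb u h1 w huw
  · intro x hx y hy hxy
    exact h.hc x (Finset.mem_insert_of_mem hx) y (Finset.mem_insert_of_mem hy) hxy
  · intro w hw x hx y hy hxy
    by_cases hwv : w = v
    · subst hwv
      exact h.hc x (Finset.mem_insert_of_mem (hsubv hx)) y (Finset.mem_insert_of_mem (hsubv hy)) hxy
    · have hwF := (Finset.mem_insert.1 hw).resolve_left hwv
      exact h.hcl w hwF x (hsub w hwF hx) y (hsub w hwF hy) hxy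
  · intro w hw
    by_cases hwv : w = v
    · subst hwv
      refine (Set.ncard_le_ncard hsubv (Set.toFinite _)).trans ?_
      rw [Set.ncard_coe_finset]
      exact hcB
    · have hwF := (Finset.mem_insert.1 hw).resolve_left hwv
      exact (Set.ncard_le_ncard (hsub w hwF) (Set.toFinite _)).trans (h.hcard w hwF)

private theorem tinv_join {V : Type} [Fintype V] {G : SimpleGraph V} {k : ℕ} {F F' B : Finset V}
    {H H' : SimpleGraph V} {ord ord' : V → ℕ} (h : TInv G k F B H ord) (h' : TInv G k F' B H' ord')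
    (hd : Disjoint F F') :
    TInv G k (F ∪ F') B (H ⊔ H') (fun u => if u ∈ F then 2 * ord u else 2 * ord' u + 1) := by
  have hFF : ∀ u ∈ F', u ∉ F := fun u hu hu' => Finset.disjoint_left.1 hd hu' hu
  have hsub : ∀ w ∈ F, pre (H ⊔ H') (fun u => if u ∈ F then 2 * ord u else 2 * ord' u + 1) (F ∪ F') B w ⊆
      pre H ord F B w := by
    intro w hw u hu
    obtain ⟨h1, h2⟩ := hu
    have h3 : H.Adj u w := by
      rcases (SimpleGraph.sup_adj _ _ _ _).1 h1 with h3 | h3
      · exact h3
      · exfalso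
        rcases (h'.ha u w h3).2 with h4 | h4
        · exact hFF w h4 hw
        · exact h.dis w hw h4
    refine ⟨h3, ?_⟩
    rcases h2 with h2 | ⟨_, h2⟩
    · exact Or.inl h2
    · rcases (h.ha u w h3).1 with h4 | h4
      · right
        simp only [if_pos h4, if_pos hw] at h2
        exact ⟨h4, by omega⟩
      · exact Or.inl h4
  have hsub' : ∀ w ∈ F', pre (H ⊔ H') (fun u => if u ∈ F then 2 * ord u else 2 * ord' u + 1) (F ∪ F') B w ⊆
      pre H' ord' F' B w := by
    intro w hw u hu
    obtain ⟨h1, h2⟩ := hu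
    have h3 : H'.Adj u w := by
      rcases (SimpleGraph.sup_adj _ _ _ _).1 h1 with h3 | h3
      · exfalso
        rcases (h.ha u w h3).2 with h4 | h4
        · exact hFF w hw h4
        · exact h'.dis w hw h4
      · exact h3
    refine ⟨h3, ?_⟩
    rcases h2 with h2 | ⟨_, h2⟩
    · exact Or.inl h2
    · rcases (h'.ha u w h3).1 with h4 | h4
      · right
        simp only [if_neg (hFF u h4), if_neg (hFF w hw)] at h2
        exact ⟨h4, by omega⟩
      · exact Or.inl h4
  refine ⟨?_, h.cd, ?_, ?_, ?_, ?_, ?_, ?_⟩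
  · intro u hu
    rcases Finset.mem_union.1 hu with h1 | h1
    · exact h.dis u h1
    · exact h'.dis u h1
  · intro x hx y hy hxy
    by_cases h1 : x ∈ F
    · by_cases h2 : y ∈ F
      · simp only [if_pos h1, if_pos h2] at hxy
        exact h.inj x h1 y h2 (by omega)
      · simp only [if_pos h1, if_neg h2] at hxy
        omega
    · by_cases h2 : y ∈ F
      · simp only [if_neg h1, if_pos h2] at hxy
        omega
      · simp only [if_neg h1, if_neg h2] at hxy
        exact h'.inj x ((Finset.mem_union.1 hx).resolve_left h1) y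
          ((Finset.mem_union.1 hy).resolve_left h2) (by omega)
  · intro x y hxy
    rcases (SimpleGraph.sup_adj _ _ _ _).1 hxy with h3 | h3
    · exact ⟨(h.ha x y h3).1.imp_left (Finset.mem_union_left _),
        (h.ha x y h3).2.imp_left (Finset.mem_union_left _)⟩
    · exact ⟨(h'.ha x y h3).1.imp_left (Finset.mem_union_right _),
        (h'.ha x y h3).2.imp_left (Finset.mem_union_right _)⟩
  · intro u hu w huw
    rcases Finset.mem_union.1 hu with h1 | h1
    · exact (SimpleGraph.sup_adj _ _ _ _).2 (Or.inl (h.hb u h1 w huw))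
    · exact (SimpleGraph.sup_adj _ _ _ _).2 (Or.inr (h'.hb u h1 w huw))
  · intro x hx y hy hxy
    exact (SimpleGraph.sup_adj _ _ _ _).2 (Or.inl (h.hc x hx y hy hxy))
  · intro w hw x hx y hy hxy
    rcases Finset.mem_union.1 hw with h1 | h1
    · exact (SimpleGraph.sup_adj _ _ _ _).2 (Or.inl (h.hcl w h1 x (hsub w h1 hx) y (hsub w h1 hy) hxy))
    · exact (SimpleGraph.sup_adj _ _ _ _).2 (Or.inr (h'.hcl w h1 x (hsub' w h1 hx) y (hsub' w h1 hy) hxy))
  · intro w hw
    rcases Finset.mem_union.1 hw with h1 | h1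
    · exact (Set.ncard_le_ncard (hsub w h1) (Set.toFinite _)).trans (h.hcard w h1)
    · exact (Set.ncard_le_ncard (hsub' w h1) (Set.toFinite _)).trans (h'.hcard w h1)

private theorem tinv_of_td {V : Type} [Fintype V] {G : SimpleGraph V} {k : ℕ} {F B : Finset V}
    (h : TD G k F B) : ∃ H ord, TInv G k F B H ord := by
  induction h with
  | nil => exact ⟨_, _, tinv_nil G k⟩
  | intro F B v _ hvF hvB hc ih =>
    obtain ⟨H, ord, hH⟩ := ih
    exact ⟨_, _, tinv_intro hH v hvF hvB hc⟩
  | forget F B v _ hvB hvF hn ih =>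
    obtain ⟨H, ord, hH⟩ := ih
    exact ⟨_, _, tinv_forget v hH hvB hvF hn⟩
  | join F F' B _ _ hd _ ih ih' =>
    obtain ⟨H, ord, hH⟩ := ih
    obtain ⟨H', ord', hH'⟩ := ih'
    exact ⟨_, _, tinv_join hH hH' hd⟩

theorem tw_of_td {V : Type} [Fintype V] {G : SimpleGraph V} {k : ℕ} (h : TD G k univ ∅) :
    TwLE G k := by
  obtain ⟨H, ord, hH⟩ := tinv_of_td h
  have hpre : ∀ v, {u | H.Adj u v ∧ ord u < ord v} = pre H ord univ ∅ v := by
    intro v
    ext u
    constructor
    · intro hu
      exact ⟨hu.1, Or.inr ⟨Finset.mem_univ _, hu.2⟩⟩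
    · intro hu
      rcases hu.2 with h1 | h1
      · exact absurd h1 (Finset.notMem_empty _)
      · exact ⟨hu.1, h1.2⟩
  refine ⟨H, ord, ?_, ?_, ?_⟩
  · intro u v huv
    exact hH.hb u (Finset.mem_univ _) v huv
  · intro u v huv
    exact hH.inj u (Finset.mem_univ _) v (Finset.mem_univ _) huv
  · intro v
    rw [hpre v]
    refine ⟨?_, hH.hcard v (Finset.mem_univ _)⟩
    intro x hx y hy hxy
    exact hH.hcl v (Finset.mem_univ _) x hx y hy hxy

end Pool.Agent.H55.AG
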