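import Mathlib
import Pool.Agent.H55.AG.TwTD
import Pool.Agent.H55.AG.CarvTD
import Pool.Agent.H55.AG.Split

set_option autoImplicit false

/-!
# Module WLEX: large treewidth gives a well linked set

PROOF. If `V` is empty then `TwLE G k` is trivial (`H = ⊥`, `ord` from `isEmptyElim`). Otherwise suppose that
no `W` with `W.card = m0` is well linked; negating `WL` gives the hypothesis `h` of `carve_of_split` for all
`W` with `W.card = m0`. `cutG G univ = ∅`. So `Carve G (d * (m0 + 1)) univ`, `td_univ`, `tw_of_td`.
-/

namespace Pool.Agent.H55.AG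

open Finset Classical

theorem wl_exists {V : Type} [Fintype V] {G : SimpleGraph V} {d m0 : ℕ} (hm0 : 8 ≤ m0)
    (hd : ∀ v, (nbG G v).card ≤ d) (hw : ¬ TwLE G (4 * (d * (m0 + 1)) + 1)) :
    ∃ W : Finset V, W.card = m0 ∧ WL G W := by
  classical
  by_contra hcon
  push Not at hcon
  apply hw
  rcases isEmpty_or_nonempty V with hV | hV
  · exact ⟨⊥, fun v => isEmptyElim v, fun u => isEmptyElim u, fun u => isEmptyElim u,
      fun u => isEmptyElim u⟩
  · have h1 : Carve G (d * (m0 + 1)) univ := by
      refine carve_of_split hm0 hd ?_ univ univ_nonempty ?_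
      · intro W hW
        have h2 := hcon W hW
        unfold WL at h2
        push Not at h2
        obtain ⟨S, h3, h4, h5⟩ := h2
        rw [hW] at h3 h4 h5
        exact ⟨S, h3, h4, h5⟩
      · have : cutG G (univ : Finset V) = ∅ := by
          unfold cutG
          simp
        rw [this]
        simp
    exact tw_of_td (td_univ h1)

end Pool.Agent.H55.AG
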