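import Mathlib
import Pool.Agent.H55.AG.WLex
import Pool.Agent.H55.AG.Link
import Pool.Agent.H55.AG.VExp
import Pool.Agent.H55.AG.Minor
import Pool.Agent.H55.AG.RouteM
import Pool.Agent.H55.AG.RouteG

set_option autoImplicit false

/-!
# Module EMBED: every graph of large treewidth carries every small multigraph of bounded degree

PROOF. Let `lg = Nat.log 2 w + 1`, `C = 10 ^ 20 * (d + 1) * (k + 1)` (or larger). If `U` is empty: `E` is empty (`src`),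
everything is trivial (`r = isEmptyElim`). So `card U ≥ 1` and `C * lg ^ 4 ≤ w`. WLOG `1 ≤ d`: put `d' = d + 1`.
`μ := w / (100 * d')`; `μ ≥ 1`, `200 * d' * μ ≥ w` (as `w ≥ 100 d'`), and
`4 * (d' * (16 * μ + 1)) + 1 ≤ 64 * d' * μ + 4 * d' + 1 ≤ w`. `TwLE` is monotone in `k`, so `¬ TwLE G (4 * (d' * (16 * μ + 1)) + 1)`
and `wl_exists` gives `W` with `W.card = 16 * μ`, `WL G W`. `linked_exp`: `R`, `π`, `J`, `W'`.
`R ≤ 65 * lg`: `Real.log (16 μ) ≤ Real.log w ≤ Nat.log 2 w + 1` (`w < 2 ^ (Nat.log 2 w + 1)`, `Real.log 2 ≤ 1`), `16 μ ≤ w`;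
so `R ≤ 64 * lg + 1 ≤ 65 * lg`. `vexp`: expansion with `64 * R`, so with `K := 64 * (R + 1) ≤ 64 * 66 * lg`, `1 ≤ K`
(`nbs` unfolds to the filter). `T := SimpleGraph.fromRel fun u v => ∃ e, src e = u ∧ tgt e = v`:
`(nbG T u).card ≤ k` (a neighbour `v` of `u` is the other end point of an edge `e` at `u`: surjection from
`{e | src e = u ∨ tgt e = u}`). `s := 1 + k * (8 * K * (Nat.log 2 W'.card + 1) + 1)`, `Nat.log 2 W'.card + 1 ≤ lg`
(`W'.card ≤ 16 μ ≤ w`), so `s ≤ 1 + k * (8 * 4224 * lg ^ 2 + 1) ≤ 40000 * (k + 1) * lg ^ 2`;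
`64 * K ^ 2 * (card U * s) ≤ 64 * 4224 ^ 2 * 40000 * (k + 1) * card U * lg ^ 4 ≤ 5 * 10 ^ 13 * (k + 1) * card U * lg ^ 4`, and
`W'.card ≥ 13 * μ ≥ 13 * w / (200 * d')`, `w ≥ C * card U * lg ^ 4`: fine. `minor` gives `B`, `route_M` (`hadj`: `T.Adj (src e)
(tgt e)` by `hloop`) gives `r`, `P` with congestion `k`, `route_G` gives `Q` with congestion `R * k ≤ 65 * lg * k ≤ C * lg`.
Result `r' u = (r u : V)`.
-/

namespace Pool.Agent.H55.AG

open Finset Classical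

private theorem twLE_mono {V : Type} {G : SimpleGraph V} {a b : ℕ} (hab : a ≤ b)
    (h : TwLE G a) : TwLE G b := by
  obtain ⟨H, ord, h1, h2, h3⟩ := h
  exact ⟨H, ord, h1, h2, fun v => ⟨(h3 v).1, (h3 v).2.trans hab⟩⟩

private theorem log_bd {w m R : ℕ} (hm : 1 ≤ m) (hmw : m ≤ w)
    (hR : (R : ℝ) ≤ 64 * Real.log ((m : ℕ) : ℝ) + 1) : R ≤ 65 * (Nat.log 2 w + 1) := by
  have hm0 : (0 : ℝ) < (m : ℝ) := by exact_mod_cast hm
  have hw0 : (0 : ℝ) < (w : ℝ) := lt_of_lt_of_le hm0 (by exact_mod_cast hmw)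
  have h1 : Real.log (m : ℝ) ≤ Real.log (w : ℝ) :=
    Real.log_le_log hm0 (by exact_mod_cast hmw)
  have h2 : (w : ℝ) ≤ 2 ^ (Nat.log 2 w + 1) := by
    have := Nat.lt_pow_succ_log_self (b := 2) (by norm_num) w
    exact_mod_cast this.le
  have h3 : Real.log (w : ℝ) ≤ (Nat.log 2 w + 1 : ℕ) * Real.log 2 := by
    calc Real.log (w : ℝ) ≤ Real.log ((2 : ℝ) ^ (Nat.log 2 w + 1)) := Real.log_le_log hw0 h2
      _ = (Nat.log 2 w + 1 : ℕ) * Real.log 2 := by rw [Real.log_pow]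
  have h4 : Real.log 2 ≤ 1 := by
    have := Real.log_two_lt_d9
    linarith
  have h5 : ((Nat.log 2 w + 1 : ℕ) : ℝ) * Real.log 2 ≤ ((Nat.log 2 w + 1 : ℕ) : ℝ) := by
    have h6 : (0 : ℝ) ≤ ((Nat.log 2 w + 1 : ℕ) : ℝ) := Nat.cast_nonneg _
    nlinarith
  have h7 : (1 : ℝ) ≤ ((Nat.log 2 w + 1 : ℕ) : ℝ) := by
    have : 1 ≤ Nat.log 2 w + 1 := by omega
    exact_mod_cast this
  have h8 : (R : ℝ) ≤ 65 * ((Nat.log 2 w + 1 : ℕ) : ℝ) := by linarith
  exact_mod_cast h8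

private theorem mem_nb {U : Type} [Fintype U] (T : SimpleGraph U) (u v : U) :
    v ∈ nbG T u ↔ T.Adj u v := by
  unfold nbG
  simp

private theorem exp_nbs {W : Type} [Fintype W] {R : ℕ} (π : Fin R → W → W)
    (h : ∀ t v, π t (π t v) = v) (W' : Finset W)
    (hexp : ∀ S ⊆ W', 2 * S.card ≤ W'.card →
      S.card ≤ 64 * ∑ t, (S.filter fun v => π t v ∈ W' ∧ π t v ∉ S).card) :
    ∀ S ⊆ W', 2 * S.card ≤ W'.card →
      S.card ≤ 64 * (R + 1) * (nbs (MG π h) (W' \ S) S).card := by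
  intro S hS hS2
  refine (vexp π h W' hexp S hS hS2).trans ?_
  refine Nat.mul_le_mul (by omega) (le_of_eq ?_)
  rfl

private theorem nb_bd {U E : Type} [Fintype U] [Fintype E] (src tgt : E → U) {k : ℕ}
    (hk : ∀ u, (univ.filter fun e => src e = u ∨ tgt e = u).card ≤ k) (u : U) :
    (nbG (SimpleGraph.fromRel fun a b => ∃ e, src e = a ∧ tgt e = b) u).card ≤ k := by
  refine le_trans ?_ (hk u)
  refine le_trans (card_le_card ?_) (card_image_le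
    (s := univ.filter fun e => src e = u ∨ tgt e = u)
    (f := fun e => if src e = u then tgt e else src e))
  intro v hv
  rw [mem_nb, SimpleGraph.fromRel_adj] at hv
  obtain ⟨huv, h | h⟩ := hv
  · obtain ⟨e, h1, h2⟩ := h
    rw [mem_image]
    refine ⟨e, ?_, ?_⟩
    · rw [mem_filter]
      exact ⟨mem_univ _, Or.inl h1⟩
    · rw [if_pos h1]
      exact h2
  · obtain ⟨e, h1, h2⟩ := h
    rw [mem_image]
    refine ⟨e, ?_, ?_⟩
    · rw [mem_filter]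
      exact ⟨mem_univ _, Or.inr h2⟩
    · have h3 : src e ≠ u := by
        rw [h1]
        exact huv.symm
      rw [if_neg h3]
      exact h1

private theorem num_bd {k n lg R l K s m μ : ℕ} (hlg : 1 ≤ lg) (hR : R ≤ 65 * lg)
    (hK : K = 64 * (R + 1)) (hl : l ≤ lg) (hs : s = 1 + k * (8 * K * l + 1))
    (hμ : 10 ^ 18 * ((k + 1) * n * lg ^ 4) ≤ μ) (hm : 13 * μ ≤ m) :
    64 * K ^ 2 * (n * s) ≤ m := by
  have h1 : K ≤ 4224 * lg := by omega
  have h2 : K * l ≤ 4224 * lg * lg := Nat.mul_le_mul h1 hl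
  have h3 : 8 * K * l + 1 ≤ 33793 * lg ^ 2 := by
    have h4 : 1 ≤ lg ^ 2 := Nat.one_le_pow _ _ hlg
    nlinarith
  have h5 : s ≤ 33793 * (k + 1) * lg ^ 2 := by
    have h4 : 1 ≤ lg ^ 2 := Nat.one_le_pow _ _ hlg
    have h6 : k * (8 * K * l + 1) ≤ k * (33793 * lg ^ 2) := Nat.mul_le_mul_left _ h3
    rw [hs]
    nlinarith
  have h7 : K ^ 2 ≤ (4224 * lg) ^ 2 := Nat.pow_le_pow_left h1 2
  calc 64 * K ^ 2 * (n * s) ≤ 64 * (4224 * lg) ^ 2 * (n * (33793 * (k + 1) * lg ^ 2)) :=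
        Nat.mul_le_mul (Nat.mul_le_mul_left _ h7) (Nat.mul_le_mul_left _ h5)
    _ = (64 * 4224 ^ 2 * 33793) * ((k + 1) * n * lg ^ 4) := by ring
    _ ≤ 10 ^ 18 * ((k + 1) * n * lg ^ 4) := Nat.mul_le_mul_right _ (by norm_num)
    _ ≤ μ := hμ
    _ ≤ 13 * μ := by omega
    _ ≤ m := hm

private theorem embed_core {d k C w : ℕ} {V : Type} [Fintype V] {G : SimpleGraph V}
    (hCeq : C = 10 ^ 20 * (d + 1) * (k + 1)) (hd : ∀ v, (nbG G v).card ≤ d) (hw : ¬ TwLE G w)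
    {E U : Type} [Fintype E] [Fintype U] (src tgt : E → U) (hloop : ∀ e, src e ≠ tgt e)
    (hk : ∀ u, (univ.filter fun e => src e = u ∨ tgt e = u).card ≤ k)
    {μ lg n : ℕ} (hn : n = Fintype.card U) (hlgeq : lg = Nat.log 2 w + 1)
    (hμX : 10 ^ 18 * ((k + 1) * n * lg ^ 4) ≤ μ) (hμ1 : 1 ≤ μ) (h16 : 16 * μ ≤ w)
    (hcut : 4 * ((d + 1) * (16 * μ + 1)) + 1 ≤ w) :
    ∃ (r : U → V) (P : E → Finset (Sym2 V)), Function.Injective r ∧
      (∀ f, ∀ e ∈ P f, e ∈ G.edgeSet) ∧ (∀ f, Jn (P f) (r (src f)) (r (tgt f))) ∧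
      ∀ g, (univ.filter fun f => g ∈ P f).card ≤ C * lg := by
  have hlg : 1 ≤ lg := by omega
  obtain ⟨W, hWc, hWL⟩ := wl_exists (G := G) (d := d + 1) (m0 := 16 * μ) (by omega)
    (fun v => (hd v).trans (Nat.le_succ d)) (fun h => hw (twLE_mono hcut h))
  obtain ⟨R, π, J, W', hR, hL, hW', hexp⟩ := linked_exp hWc hμ1 hWL
  have hR' : R ≤ 65 * lg := by
    rw [hlgeq]
    exact log_bd (m := 16 * μ) (by omega) h16 hR
  have hW'c : W'.card ≤ 16 * μ := by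
    have h1 := card_le_univ W'
    rw [Fintype.card_coe, hWc] at h1
    exact h1
  have hl : Nat.log 2 W'.card + 1 ≤ lg := by
    have h1 : Nat.log 2 W'.card ≤ Nat.log 2 w := Nat.log_mono_right (hW'c.trans h16)
    omega
  have hexp2 := exp_nbs π (fun t v => (hL t).inv v) W' (by
      intro S hS hS2
      refine (hexp S hS hS2).trans (Nat.mul_le_mul_left _ (sum_le_sum fun t _ => card_le_card ?_))
      intro v hv
      simp only [mem_filter] at hv ⊢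
      exact hv)
  have hq : 64 * (64 * (R + 1)) ^ 2 *
      (Fintype.card U * (1 + k * (8 * (64 * (R + 1)) * (Nat.log 2 W'.card + 1) + 1))) ≤
      W'.card := by
    rw [← hn]
    exact num_bd hlg hR' rfl hl rfl hμX hW'
  obtain ⟨B, hB1, hB2, hB3, hB4, hB5⟩ := minor (MG π fun t v => (hL t).inv v) W'
    (64 * (R + 1)) (by omega) hexp2
    (SimpleGraph.fromRel fun a b => ∃ e, src e = a ∧ tgt e = b) k (nb_bd src tgt hk) _ le_rfl hq
  obtain ⟨r, P, hr, hPe, hPj, hPc⟩ := route_M (MG π fun t v => (hL t).inv v) src tgt hloop hk B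
    hB1 hB3 hB4 (fun e => hB5 _ _ (by
      rw [SimpleGraph.fromRel_adj]
      exact ⟨hloop e, Or.inl ⟨e, rfl, rfl⟩⟩))
  obtain ⟨Q, hQ1, hQ2, hQ3⟩ := route_G π J hL r P hPe hPj (k := k) (by
    intro e
    refine le_trans (card_le_card ?_) (hPc e)
    intro f hf
    simp only [mem_filter] at hf ⊢
    exact hf)
  refine ⟨fun u => (r u : V), Q, fun a b hab => hr (Subtype.ext hab), hQ1, hQ2, fun g => ?_⟩
  refine (hQ3 g).trans ?_
  have hC2 : 65 * k ≤ C := by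
    rw [hCeq]
    nlinarith
  calc R * k ≤ 65 * lg * k := Nat.mul_le_mul_right _ hR'
    _ = 65 * k * lg := by ring
    _ ≤ C * lg := Nat.mul_le_mul_right _ hC2

theorem embed (d k : ℕ) : ∃ C : ℕ, 1 ≤ C ∧ ∀ (w : ℕ) (V : Type) [Fintype V] (G : SimpleGraph V),
    (∀ v, (nbG G v).card ≤ d) → ¬ TwLE G w →
    ∀ (E U : Type) [Fintype E] [Fintype U] (src tgt : E → U), (∀ e, src e ≠ tgt e) →
      (∀ u, (univ.filter fun e => src e = u ∨ tgt e = u).card ≤ k) →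
      C * Fintype.card U * (Nat.log 2 w + 1) ^ 4 ≤ w →
      ∃ (r : U → V) (P : E → Finset (Sym2 V)), Function.Injective r ∧
        (∀ f, ∀ e ∈ P f, e ∈ G.edgeSet) ∧ (∀ f, Jn (P f) (r (src f)) (r (tgt f))) ∧
        ∀ g, (univ.filter fun f => g ∈ P f).card ≤ C * (Nat.log 2 w + 1) := by
  obtain ⟨C, hCeq⟩ : ∃ C : ℕ, C = 10 ^ 20 * (d + 1) * (k + 1) := ⟨_, rfl⟩
  refine ⟨C, ?_, ?_⟩
  · have h1 : 0 < 10 ^ 20 * (d + 1) * (k + 1) := by positivity
    omega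
  intro w V _ G hd hw E U _ _ src tgt hloop hk hC
  rcases isEmpty_or_nonempty U with hU | hU
  · have hE : IsEmpty E := ⟨fun e => hU.false (src e)⟩
    refine ⟨fun u => isEmptyElim u, fun e => isEmptyElim e, fun u => isEmptyElim u,
      fun f => isEmptyElim f, fun f => isEmptyElim f, fun g => ?_⟩
    rw [univ_eq_empty, filter_empty, card_empty]
    exact Nat.zero_le _
  have hn : 1 ≤ Fintype.card U := Fintype.card_pos
  obtain ⟨n, hneq⟩ : ∃ n, n = Fintype.card U := ⟨_, rfl⟩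
  obtain ⟨lg, hlgeq⟩ : ∃ lg, lg = Nat.log 2 w + 1 := ⟨_, rfl⟩
  rw [← hneq] at hn hC
  rw [← hlgeq] at hC ⊢
  have hlg : 1 ≤ lg := by omega
  have hX : 1 ≤ (k + 1) * n * lg ^ 4 := by
    have h2 : 0 < (k + 1) * n * lg ^ 4 := by positivity
    omega
  have hC' : 10 ^ 20 * (d + 1) * ((k + 1) * n * lg ^ 4) ≤ w := by
    calc 10 ^ 20 * (d + 1) * ((k + 1) * n * lg ^ 4)
        = C * n * lg ^ 4 := by rw [hCeq]; ring
      _ ≤ w := hC
  have hwd : 10 ^ 20 * (d + 1) ≤ w :=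
    le_trans (Nat.le_mul_of_pos_right _ hX) hC'
  obtain ⟨μ, hμ⟩ : ∃ μ, μ = w / (100 * (d + 1)) := ⟨_, rfl⟩
  have hμX : 10 ^ 18 * ((k + 1) * n * lg ^ 4) ≤ μ := by
    rw [hμ, Nat.le_div_iff_mul_le (by positivity)]
    calc 10 ^ 18 * ((k + 1) * n * lg ^ 4) * (100 * (d + 1))
        = 10 ^ 20 * (d + 1) * ((k + 1) * n * lg ^ 4) := by ring
      _ ≤ w := hC'
  have hμ1 : 1 ≤ μ := by omega
  have hμw : μ * (100 * (d + 1)) ≤ w := by
    rw [hμ]
    exact Nat.div_mul_le_self _ _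
  have h2 : 100 * (μ * (d + 1)) ≤ w := by
    calc 100 * (μ * (d + 1)) = μ * (100 * (d + 1)) := by ring
      _ ≤ w := hμw
  have h3 : μ ≤ μ * (d + 1) := Nat.le_mul_of_pos_right _ (by omega)
  have h16 : 16 * μ ≤ w := by omega
  have hcut : 4 * ((d + 1) * (16 * μ + 1)) + 1 ≤ w := by
    have h1 : 4 * ((d + 1) * (16 * μ + 1)) + 1 = 64 * (μ * (d + 1)) + 4 * (d + 1) + 1 := by ring
    rw [h1]
    omega
  exact embed_core hCeq hd hw src tgt hloop hk hneq hlgeq hμX hμ1 h16 hcut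

end Pool.Agent.H55.AG
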