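import Mathlib
import Pool.Agent.H90.UB.Dr

set_option autoImplicit false
set_option linter.unusedSectionVars false

/-!
# Module EXT: derivations as lists without repetitions, total size

`tot l`: total number of symbols of the lines of `l`. `ExT X T l l'`: the derivation `l` is extended to `l'`, without
repetitions, by lines of total size at most `T`.

* `dr_sub`: if `Dr X l` then `Dr X l.dedup` (classical decidable equality): induction on `Dr`; `List.dedup_cons_of_mem`,
  `List.dedup_cons_of_notMem`, `List.mem_dedup`. Then `dr_dedup` (`l' = l.dedup`, `List.nodup_dedup`).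
* `ext_of_ex`: `l'' = l'.dedup`. `tot l'' = ∑ A ∈ l'.toFinset, A.len` (`List.sum_toFinset` for a list without repetitions),
  `l.toFinset ⊆ l'.toFinset`, `tot l = ∑ A ∈ l.toFinset, A.len`, the other elements have `A.len ≤ b` and there are
  `l''.length - l.length ≤ l'.length - l.length ≤ n` of them.
* `ext_infs`: `infs` (module DR) with `s = b = q`, `m = 0`, then `ext_of_ex`.
* `to_derT`: copy of the proof of `to_der` (`pf i = l.get (Fin.rev i)`, the sum by `Fin.revPerm`, `List.sum_ofFn`/`Fin.sum_univ_getElem`).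
-/

namespace Pool.Agent.H55.AG

open Finset Pool.Agent.H3.Frg Pool.Agent.H3.Frg2 Pool.Agent.H3.Frg4 Pool.Agent.H90.UB

variable {V : Type} {X : Set (Fm V)} {s b n m T T' : ℕ} {l l' l'' : List (Fm V)}

/-- total number of symbols -/
def tot (l : List (Fm V)) : ℕ := (l.map Fm.len).sum

/-- extension by lines of total size at most `T`, without repetitions -/
def ExT (X : Set (Fm V)) (T : ℕ) (l l' : List (Fm V)) : Prop :=
  Dr X l' ∧ l'.Nodup ∧ (∀ A ∈ l, A ∈ l') ∧ tot l' ≤ tot l + T

theorem ExT.dr (h : ExT X T l l') : Dr X l' := h.1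

theorem ExT.nd (h : ExT X T l l') : l'.Nodup := h.2.1

theorem ExT.sub (h : ExT X T l l') {A : Fm V} (hA : A ∈ l) : A ∈ l' := h.2.2.1 A hA

theorem ExT.mono (h : ExT X T l l') (hT : T ≤ T') : ExT X T' l l' :=
  ⟨h.1, h.2.1, h.2.2.1, by have := h.2.2.2; omega⟩

theorem ExT.trans (h : ExT X T l l') (h' : ExT X T' l' l'') : ExT X (T + T') l l'' :=
  ⟨h'.1, h'.2.1, fun A hA => h'.sub (h.sub hA), by
    have h1 := h.2.2.2
    have h2 := h'.2.2.2
    omega⟩

theorem ExT.refl (h : Dr X l) (hn : l.Nodup) : ExT X 0 l l := ⟨h, hn, fun _ h => h, le_rfl⟩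

open Classical in
private theorem dr_sub {X : Set (Fm V)} {l : List (Fm V)} (h : Dr X l) : Dr X l.dedup := by
  induction h with
  | nil =>
    rw [List.dedup_nil]
    exact Dr.nil
  | ax A l _ hA ih =>
    by_cases hm : A ∈ l
    · rw [List.dedup_cons_of_mem hm]
      exact ih
    · rw [List.dedup_cons_of_notMem hm]
      exact Dr.ax A _ ih hA
  | mp A B l _ hA hAB ih =>
    by_cases hm : B ∈ l
    · rw [List.dedup_cons_of_mem hm]
      exact ih
    · rw [List.dedup_cons_of_notMem hm]
      exact Dr.mp A B _ ih (List.mem_dedup.2 hA) (List.mem_dedup.2 hAB)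

theorem dr_dedup (h : Dr X l) : ∃ l', Dr X l' ∧ l'.Nodup ∧ ∀ A, A ∈ l' ↔ A ∈ l := by
  classical
  exact ⟨l.dedup, dr_sub h, List.nodup_dedup l, fun A => List.mem_dedup⟩

theorem ext_of_ex (h : Ex X s b n m l l') (hn : l.Nodup) :
    ∃ l'', ExT X (n * b) l l'' ∧ ∀ A, A ∈ l'' ↔ A ∈ l' := by
  classical
  obtain ⟨h1, h2, h3, h4, h5⟩ := h
  refine ⟨l'.dedup, ⟨dr_sub h1, List.nodup_dedup l', fun A hA => List.mem_dedup.2 (h2 A hA), ?_⟩,
    fun A => List.mem_dedup⟩
  have e1 : tot l'.dedup = ∑ A ∈ l'.dedup.toFinset, A.len :=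
    (List.sum_toFinset Fm.len (List.nodup_dedup l')).symm
  have e2 : tot l = ∑ A ∈ l.toFinset, A.len := (List.sum_toFinset Fm.len hn).symm
  have hsub : l.toFinset ⊆ l'.dedup.toFinset := by
    intro A hA
    rw [List.mem_toFinset] at hA ⊢
    exact List.mem_dedup.2 (h2 A hA)
  have hlen : (l'.dedup.toFinset \ l.toFinset).card ≤ n := by
    rw [Finset.card_sdiff_of_subset hsub, List.toFinset_card_of_nodup (List.nodup_dedup l'),
      List.toFinset_card_of_nodup hn]
    have h6 : l'.dedup.length ≤ l'.length := (List.dedup_sublist l').length_le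
    omega
  have hb : ∑ A ∈ l'.dedup.toFinset \ l.toFinset, A.len ≤ n * b := by
    calc ∑ A ∈ l'.dedup.toFinset \ l.toFinset, A.len
        ≤ ∑ A ∈ l'.dedup.toFinset \ l.toFinset, b := by
          refine Finset.sum_le_sum fun A hA => ?_
          rw [Finset.mem_sdiff, List.mem_toFinset, List.mem_toFinset, List.mem_dedup] at hA
          rcases h5 A hA.1 with h | h
          · exact absurd h hA.2
          · exact h
      _ = (l'.dedup.toFinset \ l.toFinset).card * b := by
          rw [Finset.sum_const, smul_eq_mul]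
      _ ≤ n * b := Nat.mul_le_mul_right b hlen
  rw [e1, e2, ← Finset.sum_sdiff hsub]
  omega

/-- use of an axiom with a list of premises -/
theorem ext_infs {B : Fm V} {q : ℕ} (Ps : List (Fm V)) (h : Dr X l) (hn : l.Nodup) (hX : imps Ps B ∈ X)
    (hPs : ∀ A ∈ Ps, A ∈ l) (hq : (imps Ps B).len ≤ q) :
    ∃ l', ExT X ((Ps.length + 1) * q) l l' ∧ B ∈ l' := by
  obtain ⟨l1, e1, k1⟩ := infs (s := q) (b := q) (m := 0) Ps h hX hPs hq (Or.inl hq)
  obtain ⟨l2, e2, k2⟩ := ext_of_ex e1 hn
  exact ⟨l2, e2, (k2 B).2 k1⟩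

/-- from lists to functions -/
theorem to_derT {Sch : Set (Fm ℕ)} {Γ : Set (Fm V)} {l : List (Fm V)} (h : Dr (Ax Sch Γ) l) :
    ∃ pf : Fin l.length → Fm V, IsDer Sch Γ pf ∧ (∀ A ∈ l, ∃ i, pf i = A) ∧
      ∑ i, (pf i).len = tot l := by
  -- `pf i = l.get (rev i)`
  have key : ∀ (l : List (Fm V)), Dr (Ax Sch Γ) l → ∀ (i : ℕ) (hi : i < l.length),
      l[i] ∈ Γ ∨ (∃ ψ ∈ Sch, ∃ σ : ℕ → Fm V, l[i] = ψ.bind σ) ∨
        ∃ (j k : ℕ) (hj : j < l.length) (hk : k < l.length), i < j ∧ i < k ∧
          l[k] = Fm.imp l[j] l[i] := by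
    intro l h
    induction h with
    | nil => intro i hi; simp at hi
    | ax A l _ hA ih =>
      intro i hi
      cases i with
      | zero =>
        rcases hA with hA | hA
        · exact Or.inl hA
        · exact Or.inr (Or.inl hA)
      | succ i =>
        rcases ih i (by simpa using hi) with h | h | ⟨j, k, hj, hk, h1, h2, h3⟩
        · exact Or.inl h
        · exact Or.inr (Or.inl h)
        · exact Or.inr (Or.inr ⟨j + 1, k + 1, by simpa using hj, by simpa using hk, by omega,
            by omega, by simpa using h3⟩)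
    | mp A B l _ hA hAB ih =>
      intro i hi
      cases i with
      | zero =>
        obtain ⟨j, hj, hj'⟩ := List.getElem_of_mem hA
        obtain ⟨k, hk, hk'⟩ := List.getElem_of_mem hAB
        refine Or.inr (Or.inr ⟨j + 1, k + 1, by simpa using hj, by simpa using hk, by omega,
          by omega, ?_⟩)
        simp only [List.getElem_cons_succ, List.getElem_cons_zero]
        rw [hj', hk']
      | succ i =>
        rcases ih i (by simpa using hi) with h | h | ⟨j, k, hj, hk, h1, h2, h3⟩
        · exact Or.inl h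
        · exact Or.inr (Or.inl h)
        · exact Or.inr (Or.inr ⟨j + 1, k + 1, by simpa using hj, by simpa using hk, by omega,
            by omega, by simpa using h3⟩)
  refine ⟨fun i => l[l.length - 1 - (i : ℕ)]'(by have := i.isLt; omega), fun i => ?_,
    fun A hA => ?_, ?_⟩
  · rcases key l h (l.length - 1 - (i : ℕ)) (by have := i.isLt; omega) with
      h | h | ⟨j, k, hj, hk, h1, h2, h3⟩
    · exact Or.inl h
    · exact Or.inr (Or.inl h)
    · refine Or.inr (Or.inr ⟨⟨l.length - 1 - j, by omega⟩, ⟨l.length - 1 - k, by omega⟩, ?_, ?_, ?_⟩)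
      · rw [Fin.lt_def]; simp only; omega
      · rw [Fin.lt_def]; simp only; omega
      · have e1 : l.length - 1 - (l.length - 1 - j) = j := by omega
        have e2 : l.length - 1 - (l.length - 1 - k) = k := by omega
        simp only [e1, e2]
        exact h3
  · obtain ⟨j, hj, hj'⟩ := List.getElem_of_mem hA
    refine ⟨⟨l.length - 1 - j, by omega⟩, ?_⟩
    have e1 : l.length - 1 - (l.length - 1 - j) = j := by omega
    simp only [e1]
    exact hj'
  · have e1 : ∀ i : Fin l.length, (l[l.length - 1 - (i : ℕ)]'(by have := i.isLt; omega)).len =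
        (l[((Fin.revPerm i : Fin l.length) : ℕ)]).len := by
      intro i
      have e2 : l.length - 1 - (i : ℕ) = ((Fin.revPerm i : Fin l.length) : ℕ) := by
        rw [Fin.revPerm_apply, Fin.val_rev]
        omega
      simp only [e2]
    have e3 : ∑ i : Fin l.length, (l[l.length - 1 - (i : ℕ)]'(by have := i.isLt; omega)).len =
        ∑ i : Fin l.length, (l[((Fin.revPerm i : Fin l.length) : ℕ)]).len :=
      Finset.sum_congr rfl fun i _ => e1 i
    rw [e3, Equiv.sum_comp Fin.revPerm (fun i : Fin l.length => (l[(i : ℕ)]).len),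
      Fin.sum_univ_fun_getElem l Fm.len]
    rfl

end Pool.Agent.H55.AG
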