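import Mathlib
import Pool.Agent.H90.UB.Xo
import Pool.Agent.H90.PC.Stmt

set_option autoImplicit false
set_option linter.unusedSectionVars false

/-!
# Module FDER: the substituted derivation (as a list), and the last three lines

PROOF. `fder`: by induction on `k ≤ L` there is a list `l` with `Dr X l`, `(pf i).bind σ ∈ l` for all `i < k`,
`l.length ≤ (n0 + 1) * k` and the last property. Step: line `k`. In `Γ`: `hΓ`, either one axiom line or the extension (its new
lines have length at most `s`: last part of `Ex`). Instance `ψ.bind σ'` of a scheme: `(ψ.bind σ').bind σ = ψ.bind (fun m => (σ' m).bind σ)`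
(`eb_bind` in `H90/PE/Sub.lean`, copy it), one line `Dr.ax`. Modus ponens: `pf k' = imp (pf j) (pf i)`, `bind` of it is
`imp ((pf j).bind σ) ((pf i).bind σ)`, `Dr.mp`. (As `sim_ders` in `H90/UB/Sim.lean`.)
`fder3`: `A := (pf j).bind σ`; lines `imp A (imp (neg A) τ)` (instance of the sound scheme
`imp (var 0) (imp (neg (var 0)) (var 1))` of length `6`), `imp (neg A) τ`, `τ`.
-/

namespace Pool.Agent.H55.AG

open Finset Pool.Agent.H3.Frg Pool.Agent.H3.Frg2 Pool.Agent.H3.Frg4 Pool.Agent.H90.UB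

private theorem fder_bind {V : Type} (σ : ℕ → Fm ℕ) (σ' : ℕ → Fm V) (A : Fm ℕ) :
    (A.bind σ).bind σ' = A.bind (fun i => (σ i).bind σ') := by
  induction A with
  | var i => rfl
  | neg A ih => simp only [Fm.bind, ih]
  | imp A B ihA ihB => simp only [Fm.bind, ihA, ihB]

theorem fder {V : Type} {X : Set (Fm V)} {Sch Γ : Set (Fm ℕ)} {s n0 : ℕ} (σ : ℕ → Fm V)
    (hSch : ∀ ψ ∈ Sch, ∀ σ' : ℕ → Fm V, ψ.bind σ' ∈ X)
    (hΓ : ∀ A ∈ Γ, A.bind σ ∈ X ∨
      ∀ l : List (Fm V), Dr X l → ∃ l', Ex X s s n0 0 l l' ∧ A.bind σ ∈ l')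
    {L : ℕ} {pf : Fin L → Fm ℕ} (h : IsDer Sch Γ pf) :
    ∃ l : List (Fm V), Dr X l ∧ (∀ i, (pf i).bind σ ∈ l) ∧ l.length ≤ (n0 + 1) * L ∧
      ∀ B ∈ l, B.len ≤ s ∨ ∃ i, B = (pf i).bind σ := by
  have key : ∀ k : ℕ, k ≤ L → ∃ l : List (Fm V), Dr X l ∧
      (∀ i : Fin L, (i : ℕ) < k → (pf i).bind σ ∈ l) ∧ l.length ≤ (n0 + 1) * k ∧
      ∀ B ∈ l, B.len ≤ s ∨ ∃ i, B = (pf i).bind σ := by
    intro k
    induction k with
    | zero =>
      intro _
      exact ⟨[], Dr.nil, fun i hi => absurd hi (by omega), by simp, fun B hB => absurd hB (by simp)⟩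
    | succ k ih =>
      intro hk
      obtain ⟨l, h1, h2, h3, h4⟩ := ih (by omega)
      have hk0 : k < L := by omega
      have hcount : (n0 + 1) * (k + 1) = (n0 + 1) * k + (n0 + 1) := by ring
      -- one more line suffices
      have one : Dr X ((pf ⟨k, hk0⟩).bind σ :: l) → ∃ l : List (Fm V), Dr X l ∧
          (∀ i : Fin L, (i : ℕ) < k + 1 → (pf i).bind σ ∈ l) ∧ l.length ≤ (n0 + 1) * (k + 1) ∧
          ∀ B ∈ l, B.len ≤ s ∨ ∃ i, B = (pf i).bind σ := by
        intro hd
        refine ⟨_, hd, ?_, ?_, ?_⟩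
        · intro i hi
          by_cases hik : (i : ℕ) = k
          · have h5 : i = ⟨k, hk0⟩ := Fin.ext hik
            rw [h5]
            exact List.mem_cons_self
          · exact List.mem_cons_of_mem _ (h2 i (by omega))
        · rw [List.length_cons, hcount]
          omega
        · intro B hB
          rcases List.mem_cons.1 hB with rfl | hB
          · exact Or.inr ⟨_, rfl⟩
          · exact h4 B hB
      rcases h ⟨k, hk0⟩ with h5 | ⟨ψ, hψ, σ', h5⟩ | ⟨j, i, hj, hi, h5⟩
      · rcases hΓ _ h5 with h6 | h6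
        · exact one (Dr.ax _ _ h1 h6)
        · obtain ⟨l', h7, h8⟩ := h6 l h1
          refine ⟨l', h7.dr, ?_, ?_, ?_⟩
          · intro i hi
            by_cases hik : (i : ℕ) = k
            · have h9 : i = ⟨k, hk0⟩ := Fin.ext hik
              rw [h9]
              exact h8
            · exact h7.sub (h2 i (by omega))
          · have h9 := h7.2.2.1
            rw [hcount]
            omega
          · intro B hB
            rcases h7.2.2.2.2 B hB with h9 | h9
            · exact h4 B h9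
            · exact Or.inl h9
      · refine one (Dr.ax _ _ h1 ?_)
        rw [h5, fder_bind]
        exact hSch ψ hψ _
      · have hj' : (j : ℕ) < k := hj
        have hi' : (i : ℕ) < k := hi
        refine one (Dr.mp _ _ _ h1 (h2 j hj') ?_)
        have h6 := h2 i hi'
        rw [h5] at h6
        exact h6
  obtain ⟨l, h1, h2, h3, h4⟩ := key L le_rfl
  exact ⟨l, h1, fun i => h2 i i.2, h3, h4⟩

theorem fder3 {V : Type} {X : Set (Fm V)} (hX : Full 1000 X) {A : Fm V} (τ : Fm V)
    {l : List (Fm V)} (hl : Dr X l) (hA : A ∈ l) (hA' : Fm.neg A ∈ l) :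
    Dr X (τ :: Fm.imp (Fm.neg A) τ :: Fm.imp A (Fm.imp (Fm.neg A) τ) :: l) := by
  have h1 : Fm.imp A (Fm.imp (Fm.neg A) τ) ∈ X := by
    have h2 := hX (Fm.imp (Fm.var 0) (Fm.imp (Fm.neg (Fm.var 0)) (Fm.var 1))) ⟨by decide, fun x => by
      simp only [Fm.eval]
      cases x 0 <;> cases x 1 <;> rfl⟩ (fun i => if i = 0 then A else τ)
    exact h2
  have h2 : Dr X (Fm.imp A (Fm.imp (Fm.neg A) τ) :: l) := Dr.ax _ _ hl h1
  have h3 : Dr X (Fm.imp (Fm.neg A) τ :: Fm.imp A (Fm.imp (Fm.neg A) τ) :: l) :=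
    Dr.mp A _ _ h2 (List.mem_cons_of_mem _ hA) List.mem_cons_self
  exact Dr.mp (Fm.neg A) _ _ h3
    (List.mem_cons_of_mem _ (List.mem_cons_of_mem _ hA')) List.mem_cons_self

end Pool.Agent.H55.AG
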