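import Mathlib
import Pool.Agent.H90.PC.Fix
import Pool.Agent.H90.PE.TrE
import Pool.Agent.H90.PE.CorE
import Pool.Agent.H90.PE.Sub
import Pool.Agent.H90.PE.FixE
import Pool.Agent.H55.AG.GP

set_option autoImplicit false
set_option linter.unusedSectionVars false

/-!
# Module FIXX: the bound for one CNF (as `PE/FixE.lean`), with the graph in the conclusion
-/

namespace Pool.Agent.H55.AG

open Finset Filter Topology Pool.Agent.H3.Frg Pool.Agent.H3.Frg2 Pool.Agent.H3.Frg3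
  Pool.Agent.H3.Frg4 Pool.Agent.H3.Ex Pool.Agent.H90.PC

theorem fixedPX {J n k Dm : ℕ} (hJD : dgf J ≤ Dm) (hn1 : 1000 ≤ n) :
    ∃ (d : ℕ) (C : ℕ → Fm ℕ), (∀ i, IsClause Dm (C i)) ∧
      (∀ x, (Fm.neg (bigAnd d C)).eval x = true) ∧
      (∀ i, ∃ j, j < 2 ^ d ∧ C i = C j) ∧
      n ≤ (Fm.neg (bigAnd d C)).enc.length ∧
      2 ^ d ≤ 2 * (n * ((k + 1) * 2 ^ k) ^ J * 2 ^ Dm) ∧
      (Fm.neg (bigAnd d C)).enc.length ≤
        (n * ((k + 1) * 2 ^ k) ^ J * (2 ^ Dm * (8 * Dm + 8)) + 4) *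
        (2 * Nat.size (Dm * (n * ((k + 1) * 2 ^ k) ^ J)) + 2) ∧
      (n * ((k + 1) * 2 ^ k) ^ J ≤ (Fm.neg (bigAnd d C)).enc.length ∧
        GP Dm (n * ((k + 1) * 2 ^ k) ^ J) C) ∧
      ∀ j0 ≤ J, ∀ (t w X kt Mt K s ℓ0 ℓ cnt lam κ L1 : ℕ) (u0 u1 η : ℝ),
        Nz (J - j0) (n * ((k + 1) * 2 ^ k) ^ j0) k t w X Dm kt (Dm + 1) Mt K s ℓ0 cnt lam κ L1
          u0 u1 η → 1 ≤ ℓ →
        ∀ Sch : Set (Fm ℕ), (∀ ψ ∈ Sch, ψ.len ≤ ℓ ∧ ∀ x : ℕ → Bool, ψ.eval x = true) →
        ∀ (Ke : ℕ) (q : Fin Ke → ℕ) (D : Fin Ke → Fm ℕ), ExtOK (Fm.neg (bigAnd d C)) q D →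
          Ke + 10 * (ℓ + 2) ≤ 10 * (ℓ0 + 2) →
        ∀ (L : ℕ) (pf : Fin L → Fm ℕ), IsDer Sch (Set.range C ∪ ExtAx q D) pf →
        (∃ i, pf i = Fm.neg (bigAnd d C)) →
        ∀ (G : Finset (Fm ℕ)) (Q : Fin L → Finset (Fm ℕ)) (v S : ℕ),
          (∀ i, (Q i).card ≤ v ∧ ∑ B ∈ Q i, B.len ≤ S ∧
            BC {A | A ∈ G ∨ A ∈ Q i} (pf i)) →
          4 * S + 4 * Dm + 1 ≤ s →
          w * (4 * X ^ (J - j0) * (2 ^ (ℓ + 1) * (G.card + 1) * (v + 2)) +
            18 * (2 ^ (ℓ + 1) * (G.card + 1) * (2 * (4 * S + 4 * Dm + 1)))) ≤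
            4 * X ^ (J - j0) * (kt * Dm ^ (J - j0)) →
          cnt < 2 ^ Ke * ((L + 2 ^ (ℓ + 1) * (G.card + 1)) * (v + 2)) + 2 ^ d + 1 := by
  classical
  obtain ⟨E, Wv, iE, iD, iW, iDW, src, tgt, hG, hcW, hcE, hlev⟩ :=
    towerP (J := J) (n := n) (k := k) (Dm := Dm) hJD hn1 J le_rfl
  have hDm : 80 ≤ Dm := (one_le_dgf J).trans hJD
  have hkk : 1 ≤ (k + 1) * 2 ^ k := Nat.mul_pos (by omega) (by positivity)
  have hnW : n ≤ Fintype.card Wv := by
    rw [hcW]; exact Nat.le_mul_of_pos_right _ (Nat.pow_pos hkk)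
  have hneW : Nonempty Wv := Fintype.card_pos_iff.mp (by omega)
  obtain ⟨v1⟩ := hneW
  have hne : ∀ v, (bd src tgt {v}).Nonempty := by
    intro v
    rw [Finset.nonempty_iff_ne_empty]
    intro h0
    have h1 := hG.cheeger {v}
    rw [h0, Finset.card_empty, mul_zero, Finset.card_singleton] at h1
    have : min 1 (Fintype.card Wv - 1) = 1 := min_eq_left (by omega)
    omega
  obtain ⟨v0, -⟩ := hne v1
  have hdeg : ∀ v, (bd src tgt {v}).card ≤ Dm := fun v => (hG.deg v).trans hJD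
  -- the clauses
  obtain ⟨P, hP⟩ : ∃ P, P = Idx src tgt v1 := ⟨_, rfl⟩
  have hPle : P.card ≤ Fintype.card Wv * 2 ^ Dm := by rw [hP]; exact card_Idx_le hdeg v1
  have hleP : Fintype.card Wv ≤ P.card := by rw [hP]; exact le_card_Idx hne v1
  have hP0 : 1 ≤ P.card := by omega
  set φ := P.equivFin with hφ
  set idx : ℕ → (Σ _ : Wv, Finset E) := fun i =>
    ((φ.symm (if h : i < P.card then ⟨i, h⟩ else ⟨0, hP0⟩) : P) : Σ _ : Wv, Finset E) with hidx
  have hidxP : ∀ i, idx i ∈ P := fun i => (φ.symm _).2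
  have hidxS : ∀ p ∈ P, ∃ i < P.card, idx i = p := by
    intro p hp
    refine ⟨(φ ⟨p, hp⟩ : ℕ), (φ ⟨p, hp⟩).isLt, ?_⟩
    rw [hidx]
    simp
  set C0 : ℕ → Fm E := fun i => clp src tgt v0 (idx i) with hC0
  have hsp := fun i => clp_spec hdeg hne v0 (idx i)
  obtain ⟨d, hd⟩ : ∃ d, d = Nat.clog 2 P.card := ⟨_, rfl⟩
  have hd1 : P.card ≤ 2 ^ d := by rw [hd]; exact Nat.le_pow_clog (by norm_num) _
  have hd2 : 2 ^ d ≤ 2 * P.card := by
    rcases Nat.lt_or_ge 1 P.card with h | h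
    · have h3 : 2 ^ (Nat.clog 2 P.card - 1) < P.card := by
        have := Nat.pow_pred_clog_lt_self (b := 2) (by norm_num) h
        simpa using this
      have h4 : 0 < Nat.clog 2 P.card := Nat.clog_pos (by norm_num) h
      calc 2 ^ d = 2 * 2 ^ (Nat.clog 2 P.card - 1) := by
            rw [hd, ← pow_succ']; congr 1; omega
        _ ≤ 2 * P.card := by omega
    · have h3 : P.card = 1 := by omega
      rw [hd, h3]
      simp
  -- variables in ℕ
  set ψ := Fintype.equivFin E with hψ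
  set f : E → ℕ := fun v => (ψ v : ℕ) with hf
  have hfB : ∀ v, f v < Fintype.card E := fun v => (ψ v).isLt
  set g : ℕ → E := fun i => if h : i < Fintype.card E then ψ.symm ⟨i, h⟩ else v0 with hg
  have hgf : ∀ v, g (f v) = v := by
    intro v
    have h1 : f v < Fintype.card E := (ψ v).isLt
    rw [hg]
    simp only [h1, dif_pos]
    exact ψ.symm_apply_apply v
  have hK : ∀ x, (bigAnd d C0).eval x = false := by
    intro x
    by_contra h1
    rw [Bool.not_eq_false, eval_bigAnd] at h1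
    obtain ⟨p, hp, h2⟩ := exists_Idx (src := src) (tgt := tgt) v1 x
    rw [← hP] at hp
    obtain ⟨i, hi, h3⟩ := hidxS p hp
    have h4 := h1 i (lt_of_lt_of_le hi hd1)
    rw [hC0] at h4
    simp only at h4
    rw [(hsp i).2.2.2 x] at h4
    obtain ⟨w, hw, h5⟩ := h4
    rw [h3] at hw h5
    exact h5 (h2 w hw)
  have hren : ∀ d', (Fm.neg (bigAnd d' C0)).ren f
      = Fm.neg (bigAnd d' fun i => (C0 i).ren f) := fun d' => by
    show Fm.neg ((bigAnd d' C0).ren f) = _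
    rw [ren_bigAnd]
  have hlenC : ∀ i, (C0 i).len ≤ 4 * Dm := fun i => (hsp i).2.1
  have hlenK := len_bigAnd (4 * Dm) d C0 hlenC
  have h2d : 2 ^ d ≤ 2 * (Fintype.card Wv * 2 ^ Dm) := hd2.trans (Nat.mul_le_mul_left _ hPle)
  have hKd : 2 ^ d * (4 * Dm + 3) ≤ Fintype.card Wv * (2 ^ Dm * (8 * Dm + 8)) := by
    calc 2 ^ d * (4 * Dm + 3) ≤ 2 * (Fintype.card Wv * 2 ^ Dm) * (4 * Dm + 3) :=
          Nat.mul_le_mul_right _ h2d
      _ = Fintype.card Wv * (2 ^ Dm * (8 * Dm + 6)) := by ring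
      _ ≤ _ := Nat.mul_le_mul_left _ (Nat.mul_le_mul_left _ (by omega))
  have hper : ∀ i, ∃ j, j < 2 ^ d ∧ C0 i = C0 j := by
    intro i
    obtain ⟨i', hi', hii⟩ := hidxS _ (hidxP i)
    exact ⟨i', lt_of_lt_of_le hi' hd1, by rw [hC0]; simp only [hii]⟩
  refine ⟨d, fun i => (C0 i).ren f, fun i => isClause_ren f (hsp i).1, fun x => ?_, fun i => ?_,
    ?_, ?_, ?_, ⟨?_, ?_⟩, ?_⟩
  · rw [← hren, eval_ren]
    show (!(bigAnd d C0).eval _) = true
    rw [hK]; rfl
  · obtain ⟨j, hj, hij⟩ := hper i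
    exact ⟨j, hj, by simp only [hij]⟩
  · rw [← hren]
    refine le_trans ?_ (len_le_enc _)
    rw [len_ren]
    show n ≤ (bigAnd d C0).len + 1
    have := two_pow_le_len_bigAnd d C0
    omega
  · rw [← hcW]; exact h2d
  · rw [← hren]
    refine (enc_le f _ hfB _).trans ?_
    rw [← hcW]
    refine Nat.mul_le_mul ?_ ?_
    · show (bigAnd d C0).len + 1 ≤ _
      omega
    · have h1 : Nat.size (Fintype.card E) ≤ Nat.size (Dm * Fintype.card Wv) := by
        refine Nat.size_le_size (hcE.trans ?_)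
        exact Nat.mul_le_mul_right _ hJD
      omega
  · rw [← hcW, ← hren]
    refine le_trans ?_ (len_le_enc _)
    rw [len_ren]
    show Fintype.card Wv ≤ (bigAnd d C0).len + 1
    have := two_pow_le_len_bigAnd d C0
    omega
  · refine ⟨E, Wv, iE, iD, iW, iDW, src, tgt, v1, v0, ψ, idx, hcW, ?_, hG.loopless, hdeg, hne,
      ?_, ?_, fun i => rfl⟩
    · rw [← hcW]
      exact hcE.trans (Nat.mul_le_mul_right _ hJD)
    · intro i
      rw [← hP]
      exact hidxP i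
    · intro p hp
      rw [← hP] at hp
      obtain ⟨i, _, hi⟩ := hidxS p hp
      exact ⟨i, hi⟩
  · intro j0 hj0 t w X kt Mt K s ℓ0 ℓ cnt lam κ L1 u0 u1 η hN hℓ Sch hSch Ke q D hqD hKe L pf hpf
      hfin G Q v S hQ hSs hsz
    by_contra hL
    push Not at hL
    obtain ⟨fam, hfM, hfK, hlv⟩ := hlev j0 hj0 t w X kt (Dm + 1) Mt K s ℓ0 cnt lam κ L1 u0 u1 η hN
    rw [Nat.sub_self, pow_zero, pow_zero, mul_one, mul_one, mul_one] at hlv
    rw [Nat.sub_self, pow_zero, mul_one] at hfM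
    have hw1 := hN.w1
    have hx1 := hN.x1
    have hwkt : w ≤ kt := by
      refine le_trans ?_ hN.k1
      exact Nat.le_mul_of_pos_right _ (by omega)
    have hDK : ∀ i : ℕ, 1 ≤ Dm ^ i := fun i => Nat.one_le_pow _ _ (by omega)
    have hXi : 1 ≤ X ^ (J - j0) := Nat.one_le_pow _ _ hx1
    have hK1 : 1 ≤ fam.K := by
      rw [hfK]
      refine le_trans ?_ hN.kk
      exact Nat.mul_pos (by omega) (Nat.mul_pos (by omega) (Nat.mul_pos (by omega)
        (Nat.mul_pos (by omega) (by omega))))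
    have hKM : 2 * (Dm + 1) ≤ fam.M := by
      rw [hfM]
      have h1 := hN.k3
      have h2 : 10 * (0 + 2) * (0 + (Dm + 1)) ≤ 10 * (ℓ0 + 2) * (kt + (Dm + 1)) :=
        Nat.mul_le_mul (Nat.mul_le_mul_left _ (by omega)) (by omega)
      omega
    -- the translation
    obtain ⟨C, hC⟩ : ∃ C : ℕ → Fm ℕ, C = fun i => (C0 i).ren f := ⟨_, rfl⟩
    obtain ⟨τ, hτ⟩ : ∃ τ, τ = Fm.neg (bigAnd d C) := ⟨_, rfl⟩
    have hτ1 : (Fm.neg (bigAnd d fun i => (C0 i).ren f)) = τ := by rw [hτ, hC]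
    rw [hτ1] at hqD hfin
    have hCg : ∀ i, (C i).ren g = C0 i := by
      intro i
      rw [hC]
      simp only
      rw [ren_ren]
      simp only [hgf]
      exact ren_id _
    have hτg : τ.ren g = Fm.neg (bigAnd d C0) := by
      rw [← hτ1, ← hren, ren_ren]
      simp only [hgf]
      exact ren_id _
    have hCτ : ∀ i, C i ∈ τ.subs := by
      intro i
      obtain ⟨j, hj, hij⟩ := hper i
      have h1 : C i = C j := by rw [hC]; simp only [hij]
      rw [h1, hτ]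
      simp only [Fm.subs, List.mem_cons]
      exact Or.inr (fx_and d C j hj)
    have hpf' : IsDer Sch (Set.range C ∪ ExtAx q D) pf := by rw [hC]; exact hpf
    obtain ⟨hqi, hqτ, hqD'⟩ := hqD
    obtain ⟨x0, hx0⟩ : ∃ x0 : ℕ, ∀ j, q j ≠ x0 := by
      obtain ⟨x0, hx0⟩ := Infinite.exists_notMem_finset (Finset.univ.image q)
      exact ⟨x0, fun j hj => hx0 (Finset.mem_image.mpr ⟨j, Finset.mem_univ _, hj⟩)⟩
    obtain ⟨T, hT⟩ : ∃ T : Set (Fm ℕ), T = {B | B ∈ τ.subs ∨ ∃ j, B = Fm.var (q j)} := ⟨_, rfl⟩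
    obtain ⟨f', hf1, hf2, hf3, hf4, hf5, hf6, hf7⟩ := translateE x0 (T := T) (by
      rw [hT]
      rintro A (hA | ⟨j, rfl⟩) B hB
      · exact Or.inl (fx_trans τ A hA B hB)
      · rw [Fm.subs, List.mem_singleton] at hB
        exact Or.inr ⟨j, hB⟩) hpf'
    obtain ⟨σ, hσ⟩ : ∃ σ : (Fin Ke → Bool) → ℕ → Fm E, σ = fun a => sgE v0 g q a := ⟨_, rfl⟩
    have hσq : ∀ a j, σ a (q j) = tb v0 (a j) := fun a j => by rw [hσ]; exact sgE_q v0 g hqi a j
    have hσn : ∀ a m, (∀ j, q j ≠ m) → σ a m = Fm.var (g m) := fun a m h => by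
      rw [hσ]; exact sgE_n v0 g a h
    have hσl : ∀ a m, (σ a m).len ≤ 4 := fun a m => by rw [hσ]; exact sgE_len v0 g q a m
    have hτσ : ∀ a, ∀ B ∈ τ.subs, B.bind (σ a) = B.ren g := by
      intro a B hB
      rw [← eb_ren]
      refine eb_congr _ _ B fun m hm => hσn a m fun j hj => ?_
      have h1 := fx_trans τ B hB _ hm
      rw [← hj] at h1
      exact hqτ j h1
    have hCσ : ∀ a i, (C i).bind (σ a) = C0 i := fun a i => by
      rw [hτσ a _ (hCτ i), hCg i]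
    have hτσ0 : ∀ a, τ.bind (σ a) = Fm.neg (bigAnd d C0) := fun a => by
      rw [hτσ a τ (Pool.Agent.H3.Ac.self_subs _), hτg]
    have hfτ : ∀ B ∈ τ.subs, f' B = B := fun B hB => hf2 B (by rw [hT]; exact Or.inl hB)
    have hfq : ∀ j, f' (Fm.var (q j)) = Fm.var (q j) := fun j =>
      hf2 _ (by rw [hT]; exact Or.inr ⟨j, rfl⟩)
    have hD4 : 4 ≤ 4 * Dm := by omega
    -- the pieces
    have hQ1 : ∀ a i, (insert (Fm.var (g x0)) ((Q i).image fun A => (f' A).bind (σ a))).card ≤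
        v + 1 := by
      intro a i
      have h1 := Finset.card_insert_le (Fm.var (g x0)) ((Q i).image fun A => (f' A).bind (σ a))
      have h2 : ((Q i).image fun A => (f' A).bind (σ a)).card ≤ (Q i).card :=
        Finset.card_image_le
      have h3 := (hQ i).1
      omega
    have hQ2 : ∀ a i, ∑ B ∈ insert (Fm.var (g x0)) ((Q i).image fun A => (f' A).bind (σ a)),
        B.len ≤ 4 * S + 4 * Dm + 1 := by
      intro a i
      have h2 := eb_sum (σ a) (hσl a) f' hf3 (Q i)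
      have h3 := (hQ i).2.1
      by_cases h : Fm.var (g x0) ∈ (Q i).image fun A => (f' A).bind (σ a)
      · rw [Finset.insert_eq_of_mem h]
        omega
      · rw [Finset.sum_insert h]
        have h4 : (Fm.var (g x0)).len = 1 := rfl
        omega
    have hQ3 : ∀ a i, BC {A | A ∈ G.image (fun A => (f' A).bind (σ a)) ∨
        A ∈ insert (Fm.var (g x0)) ((Q i).image fun A => (f' A).bind (σ a))}
        ((f' (pf i)).bind (σ a)) := by
      intro a i
      refine eb_bc (σ a) ?_ (hf4 _ _ (hQ i).2.2)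
      rintro A (hA | ⟨B, hB | hB, rfl⟩)
      · rw [hA]
        refine Or.inr ?_
        show (σ a x0) ∈ _
        rw [hσn a x0 hx0]
        exact Finset.mem_insert_self _ _
      · exact Or.inl (Finset.mem_image.mpr ⟨B, hB, rfl⟩)
      · exact Or.inr (Finset.mem_insert_of_mem (Finset.mem_image.mpr ⟨B, hB, rfl⟩))
    have hG1 : ∀ a, ∀ A ∈ G.image (fun A => (f' A).bind (σ a)), ∀ B ∈ A.subs,
        B.len ≤ 4 * Dm ∨ B ∈ (Fm.neg (bigAnd d C0)).subs ∨
        Op Sch (fun i => (f' (pf i)).bind (σ a)) B := by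
      intro a A hA B hB
      rw [Finset.mem_image] at hA
      obtain ⟨A', _, rfl⟩ := hA
      rcases eb_subs (σ a) (f' A') B hB with ⟨B', h1, rfl⟩ | ⟨m, _, h2⟩
      · rcases hf5 A' B' h1 with ⟨m, rfl⟩ | h2 | h2
        · exact Or.inl ((hσl a m).trans hD4)
        · rw [hT] at h2
          rcases h2 with h2 | ⟨j, rfl⟩
          · refine Or.inr (Or.inl ?_)
            rw [hτσ a B' h2, ← hτg]
            exact fx_ren g τ B' h2
          · exact Or.inl ((hσl a (q j)).trans hD4)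
        · exact Or.inr (Or.inr (eb_op (σ a) h2))
      · exact Or.inl ((len_le_of_subs _ B h2).trans ((hσl a m).trans hD4))
    have hGc : ∀ a, (G.image (fun A => (f' A).bind (σ a))).card ≤ G.card := fun a =>
      Finset.card_image_le
    refine coreE v0 hℓ hSch hper (fun a i => (f' (pf i)).bind (σ a))
      (fun a j => (f' (D j)).bind (σ a)) ?_ ?_ ?_ (s := 4 * Dm) (v := v + 1)
      (S := 4 * S + 4 * Dm + 1) hlenC (by omega)
      (fun a => G.image (fun A => (f' A).bind (σ a))) G.card hGc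
      (fun a i => insert (Fm.var (g x0)) ((Q i).image fun A => (f' A).bind (σ a))) hQ1 hQ2 hQ3 hG1
      (M := Mt * Dm ^ (J - j0)) (w := w) (k := kt * Dm ^ (J - j0))
      (Kx := (Dm + 1) * Dm ^ (J - j0)) (h := 4 * X ^ (J - j0)) (by omega)
      (Nat.mul_pos (by omega) (hDK _)) ?_ ?_ ?_
    · -- the definitions depend on the earlier values only
      intro a a' j hj
      refine eb_congr _ _ _ fun m hm => ?_
      rcases hf7 (D j) m hm with rfl | hm'
      · rw [hσn a _ hx0, hσn a' _ hx0]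
      · by_cases hmq : ∃ i, q i = m
        · obtain ⟨i, rfl⟩ := hmq
          rw [hσq, hσq]
          have hij : i < j := by
            by_contra hcon
            exact hqD' j i (not_lt.mp hcon) hm'
          rw [hj i hij]
        · push Not at hmq
          rw [hσn a _ hmq, hσn a' _ hmq]
    · -- the lines
      intro i
      rcases hf1 i with h1 | ⟨ψ, hψ, σ', h1⟩ | ⟨j, k', hj, hk', h1⟩
      · rcases h1 with ⟨m, hm⟩ | ⟨j, hj | hj⟩
        · refine Or.inl fun a => ⟨m, ?_⟩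
          show (f' (pf i)).bind (σ a) = _
          rw [← hm, hfτ _ (hCτ m), hCσ]
        · refine Or.inr (Or.inl ⟨j, fun a => ?_⟩)
          show (f' (pf i)).bind (σ a) = _
          rw [hj, hf6 i _ _ hj, hfq]
          show Fm.imp (σ a (q j)) _ = _
          rw [hσq]
        · refine Or.inr (Or.inr (Or.inl ⟨j, fun a => ?_⟩))
          show (f' (pf i)).bind (σ a) = _
          rw [hj, hf6 i _ _ hj, hfq]
          show Fm.imp _ (σ a (q j)) = _
          rw [hσq]
      · refine Or.inr (Or.inr (Or.inr (Or.inl fun a => ⟨ψ, hψ, fun m => (σ' m).bind (σ a), ?_⟩)))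
        show (f' (pf i)).bind (σ a) = _
        rw [h1, eb_bind]
      · refine Or.inr (Or.inr (Or.inr (Or.inr ⟨j, k', hj, hk', fun a => ?_⟩)))
        show (f' (pf k')).bind (σ a) = Fm.imp ((f' (pf j)).bind (σ a)) ((f' (pf i)).bind (σ a))
        rw [h1]
        rfl
    · obtain ⟨i, hi⟩ := hfin
      refine ⟨i, fun a => ?_⟩
      show (f' (pf i)).bind (σ a) = _
      rw [hi, hfτ τ (Pool.Agent.H3.Ac.self_subs _), hτσ0]
    · calc (Ke + 10 * (ℓ + 2)) * (kt * Dm ^ (J - j0) + (Dm + 1) * Dm ^ (J - j0))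
          ≤ 10 * (ℓ0 + 2) * (kt * Dm ^ (J - j0) + (Dm + 1) * Dm ^ (J - j0)) :=
            Nat.mul_le_mul_right _ hKe
        _ = 10 * (ℓ0 + 2) * (kt + (Dm + 1)) * Dm ^ (J - j0) := by ring
        _ ≤ Mt * Dm ^ (J - j0) := Nat.mul_le_mul_right _ hN.k3
    · exact hsz
    · intro Bs hBs hBl
      refine world_top fam hlv (by omega) hw1 hK1 hKM v0 (ε := fun v => sg (sgn3 v1 v))
        (fun v => sg_mul_self _) (Pool.Agent.H3.Ac.prod_sgn3 v1) Bs
        (fun B hB => (hBs B hB).trans hSs) (hBl.trans hL) _ ?_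
      intro A hA
      rw [List.mem_map] at hA
      obtain ⟨i, _, rfl⟩ := hA
      have hcv : (C0 i).vars.card ≤ Dm :=
        (Finset.card_le_card (hsp i).2.2.1).trans (hdeg _)
      refine ⟨by omega, (idx i).1, (hdeg _).trans (by omega), fun x hx => ?_⟩
      rw [hC0]
      simp only
      rw [(hsp i).2.2.2 x]
      by_contra h8
      push Not at h8
      rw [chi_congr' h8] at hx
      have h1 := hidxP i
      rw [hP] at h1
      unfold Idx at h1
      rw [Finset.mem_sigma, Finset.mem_filter] at h1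
      exact h1.2.2 hx

end Pool.Agent.H55.AG
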