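import Mathlib
import Pool.Agent.H55.AG.FixX
import Pool.Agent.H90.PE.NumE
import Pool.Agent.H3.Ex.FinE

set_option autoImplicit false
set_option linter.unusedSectionVars false

/-!
# Module FIN0X: the bound for one level, natural numbers (as `PE/Fin0E.lean`), with the graph
-/

namespace Pool.Agent.H55.AG

open Finset Filter Topology Pool.Agent.H3.Frg Pool.Agent.H3.Frg2 Pool.Agent.H3.Frg3
  Pool.Agent.H3.Frg4 Pool.Agent.H3.Ex Pool.Agent.H90.PC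

private theorem fin0X_size (J m pp Dm K0 : ℕ) : ∀ᶠ r : ℕ in atTop,
    ((2 ^ r) ^ m * ((pp * r + 1) * 2 ^ (pp * r)) ^ J * K0 + K0) *
        (2 * Nat.size (Dm * ((2 ^ r) ^ m * ((pp * r + 1) * 2 ^ (pp * r)) ^ J)) + 2)
      ≤ (2 ^ r) ^ (m + pp * J + 1) := by
  obtain ⟨A, hA⟩ : ∃ A, A = m + pp * J + 1 := ⟨_, rfl⟩
  filter_upwards [num_two (Dm * (pp + 1) ^ J) J,
    num_two (((pp + 1) ^ J * K0 + K0) * (2 * A + 4)) (J + 1),
    eventually_ge_atTop 1] with r h1 h2 h3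
  obtain ⟨Q, hQ⟩ : ∃ Q, Q = 2 ^ r := ⟨_, rfl⟩
  have hQ1 : 1 ≤ Q := by rw [hQ]; exact Nat.one_le_pow _ _ (by norm_num)
  have h2k : 2 ^ (pp * r) = Q ^ pp := by
    rw [hQ, ← pow_mul]
    congr 1; ring
  obtain ⟨P, hP⟩ : ∃ P, P = (pp * r + 1) ^ J := ⟨_, rfl⟩
  have hPle : P ≤ (pp + 1) ^ J * r ^ J := by
    rw [hP, ← mul_pow]
    exact Nat.pow_le_pow_left (by nlinarith) _
  obtain ⟨N, hN⟩ : ∃ N, N = (2 ^ r) ^ m * ((pp * r + 1) * 2 ^ (pp * r)) ^ J :=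
    ⟨_, rfl⟩
  have hN' : N = Q ^ (m + pp * J) * P := by
    rw [hN, h2k, ← hQ, hP, mul_pow, ← pow_mul]
    ring
  rw [← hN]
  rw [← hQ] at h1 h2 ⊢
  have hsz : Nat.size (Dm * N) ≤ r * A + 1 := by
    rw [Nat.size_le]
    have h4 : Dm * N ≤ Q ^ A := by
      calc Dm * N = Q ^ (m + pp * J) * (Dm * P) := by rw [hN']; ring
        _ ≤ Q ^ (m + pp * J) * Q := Nat.mul_le_mul_left _ (by
            refine le_trans (Nat.mul_le_mul_left _ hPle) ?_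
            rw [← mul_assoc]; exact h1.le)
        _ = Q ^ A := by rw [hA, pow_succ]
    have h5 : Q ^ A = 2 ^ (r * A) := by
      rw [hQ, ← pow_mul]
    rw [h5] at h4
    refine lt_of_le_of_lt h4 ?_
    exact Nat.pow_lt_pow_right (by norm_num) (by omega)
  have hQp : 1 ≤ Q ^ (m + pp * J) := Nat.one_le_pow _ _ hQ1
  have htJ : 1 ≤ r ^ J := Nat.one_le_pow _ _ h3
  rw [← hA]
  calc (N * K0 + K0) * (2 * Nat.size (Dm * N) + 2)
      ≤ (Q ^ (m + pp * J) * (((pp + 1) ^ J * K0 + K0) * r ^ J)) *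
        ((2 * A + 4) * r) := by
        refine Nat.mul_le_mul ?_ ?_
        · rw [hN']
          have e1 : Q ^ (m + pp * J) * P * K0
              ≤ Q ^ (m + pp * J) * ((pp + 1) ^ J * r ^ J) * K0 :=
            Nat.mul_le_mul_right _ (Nat.mul_le_mul_left _ hPle)
          have e2 : K0 ≤ Q ^ (m + pp * J) * (K0 * r ^ J) := by
            calc K0 = 1 * (K0 * 1) := by ring
              _ ≤ _ := Nat.mul_le_mul hQp (Nat.mul_le_mul_left _ htJ)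
          calc _ ≤ Q ^ (m + pp * J) * ((pp + 1) ^ J * r ^ J) * K0 +
                Q ^ (m + pp * J) * (K0 * r ^ J) := Nat.add_le_add e1 e2
            _ = _ := by ring
        · calc 2 * Nat.size (Dm * N) + 2 ≤ 2 * (r * A + 1) + 2 := by omega
            _ = 2 * A * r + 4 := by ring
            _ ≤ 2 * A * r + 4 * r := by omega
            _ = _ := by ring
    _ = Q ^ (m + pp * J) * (((pp + 1) ^ J * K0 + K0) * (2 * A + 4) *
        r ^ (J + 1)) := by rw [pow_succ]; ring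
    _ ≤ Q ^ (m + pp * J) * Q := Nat.mul_le_mul_left _ h2.le
    _ = Q ^ A := by rw [hA, pow_succ]

private theorem fin0X_aux (u t : ℕ) (hu : 1 ≤ u) (ht : 3 * t ≤ u) :
    u * (u * u * t) + 2 * t ≤ u * u * (u * u) := by
  have hu1 : 1 ≤ u * u * u := Nat.mul_pos (Nat.mul_pos (by omega) (by omega)) (by omega)
  calc u * (u * u * t) + 2 * t = u * u * u * t + 1 * (2 * t) := by ring
    _ ≤ u * u * u * t + u * u * u * (2 * t) := Nat.add_le_add_left (Nat.mul_le_mul_right _ hu1) _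
    _ = u * u * u * (3 * t) := by ring
    _ ≤ u * u * u * u := Nat.mul_le_mul_left _ (by omega)
    _ = _ := by ring

/-- the last step -/
private theorem fin0X_last (b h A L Ke w g d ℓ M : ℕ) (hb : b = 4 * h) (hb1 : 1 ≤ b)
    (hKe : Ke ≤ h) (hM : M ≤ A) (h1 : 2 ^ (ℓ + 1 + 1) * g * (w + 2) ≤ b ^ M) (h2 : w + 2 ≤ b ^ A)
    (h3 : 2 ^ d ≤ b ^ A)
    (h4 : 2 ^ b < 2 ^ Ke * ((L + 2 ^ (ℓ + 1 + 1) * g) * (w + 2)) + 2 ^ d + 1)
    (h5 : 4 * 4 ^ A * h ^ A < 2 ^ h) : 2 ^ (2 * h) ≤ L := by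
  by_contra hcon
  have hL : L + 1 ≤ 2 ^ (2 * h) := by omega
  have h6 : b ^ M ≤ b ^ A := Nat.pow_le_pow_right hb1 hM
  have hbA : 1 ≤ b ^ A := Nat.one_le_pow _ _ hb1
  have h7 : L * (w + 2) ≤ L * b ^ A := Nat.mul_le_mul_left _ h2
  have hK2 : 2 ^ Ke ≤ 2 ^ h := Nat.pow_le_pow_right (by norm_num) hKe
  have hh1 : 1 ≤ 2 ^ h := Nat.one_le_pow _ _ (by norm_num)
  have h8 : 2 ^ b < 2 ^ h * (2 ^ (2 * h) * b ^ A) + 2 * b ^ A := by
    calc 2 ^ b < 2 ^ Ke * ((L + 2 ^ (ℓ + 1 + 1) * g) * (w + 2)) + 2 ^ d + 1 := h4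
      _ ≤ 2 ^ h * ((L + 1) * b ^ A) + 2 * b ^ A := by
          have e1 : (L + 2 ^ (ℓ + 1 + 1) * g) * (w + 2) ≤ (L + 1) * b ^ A := by
            calc (L + 2 ^ (ℓ + 1 + 1) * g) * (w + 2)
                = L * (w + 2) + 2 ^ (ℓ + 1 + 1) * g * (w + 2) := by ring
              _ ≤ L * b ^ A + b ^ A := by omega
              _ = _ := by ring
          have e2 := Nat.mul_le_mul hK2 e1
          omega
      _ ≤ _ := Nat.add_le_add_right (Nat.mul_le_mul_left _ (Nat.mul_le_mul_right _ hL)) _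
  have h9 : b ^ A = 4 ^ A * h ^ A := by rw [hb, mul_pow]
  have h10 : 4 * b ^ A < 2 ^ h := by rw [h9, ← mul_assoc]; exact h5
  have h11 : 2 ^ h * (2 ^ (2 * h) * b ^ A) + 2 * b ^ A ≤ 2 ^ b := by
    have e1 : 2 ^ b = 2 ^ h * 2 ^ h * (2 ^ h * 2 ^ h) := by
      rw [hb, ← pow_add, ← pow_add]; congr 1; ring
    have e2 : 2 ^ (2 * h) = 2 ^ h * 2 ^ h := by rw [← pow_add]; congr 1; ring
    rw [e1, e2]
    have e3 : 3 * b ^ A ≤ 2 ^ h := by omega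
    exact fin0X_aux _ _ hh1 e3
  omega

/-- the numbers for the pieces -/
private theorem fin0X_num (b w g S Dm ℓ E1 E : ℕ) (hb : 2 ^ (ℓ + 4) * (4 * Dm + 5) ≤ b)
    (hg : 1 ≤ g) (hE : E1 ≤ E) (h1 : g * (w + 1) ≤ b ^ E1) (h2 : g * S ≤ b ^ E) :
    2 ^ (ℓ + 1 + 1) * g * (w + 2) ≤ b ^ (E1 + 1) ∧
    2 ^ (ℓ + 1 + 1) * g * (2 * (4 * S + 4 * Dm + 1)) ≤ b ^ (E + 1) ∧
    4 * S + 4 * Dm + 1 ≤ b ^ (E + 1) ∧ w + 2 ≤ b ^ (E1 + 1) := by
  have hp : 1 ≤ 2 ^ ℓ := Nat.one_le_pow _ _ (by norm_num)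
  have hb1 : 2 ^ ℓ * 16 * (4 * Dm + 5) ≤ b := by
    refine le_trans (le_of_eq ?_) hb
    rw [pow_add]; norm_num
  have hbl : 2 ^ ℓ * 16 ≤ b := by
    refine le_trans ?_ hb1
    exact Nat.le_mul_of_pos_right _ (by omega)
  have hb0 : 1 ≤ b := by omega
  have e1 : 2 ^ (ℓ + 1 + 1) = 4 * 2 ^ ℓ := by rw [pow_succ, pow_succ]; ring
  rw [e1]
  have hgE : g ≤ b ^ E := by
    calc g ≤ g * (w + 1) := Nat.le_mul_of_pos_right _ (by omega)
      _ ≤ b ^ E1 := h1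
      _ ≤ b ^ E := Nat.pow_le_pow_right hb0 hE
  have a1 : 4 * 2 ^ ℓ * g * (w + 2) ≤ b ^ (E1 + 1) := by
    calc 4 * 2 ^ ℓ * g * (w + 2) ≤ 4 * 2 ^ ℓ * g * (2 * (w + 1)) :=
          Nat.mul_le_mul_left _ (by omega)
      _ = 8 * 2 ^ ℓ * (g * (w + 1)) := by ring
      _ ≤ b * b ^ E1 := Nat.mul_le_mul (by omega) h1
      _ = b ^ (E1 + 1) := by rw [pow_succ]; ring
  have a2 : 4 * 2 ^ ℓ * g * (2 * (4 * S + 4 * Dm + 1)) ≤ b ^ (E + 1) := by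
    calc 4 * 2 ^ ℓ * g * (2 * (4 * S + 4 * Dm + 1))
        = 8 * 2 ^ ℓ * (4 * (g * S) + g * (4 * Dm + 1)) := by ring
      _ ≤ 8 * 2 ^ ℓ * (4 * b ^ E + b ^ E * (4 * Dm + 1)) := by gcongr
      _ = (2 ^ ℓ * 8 * (4 * Dm + 5)) * b ^ E := by ring
      _ ≤ b * b ^ E := Nat.mul_le_mul_right _ (le_trans (by gcongr; norm_num) hb1)
      _ = b ^ (E + 1) := by rw [pow_succ]; ring
  have hk : 1 ≤ 4 * 2 ^ ℓ * g := by
    have : 1 ≤ 2 ^ ℓ * g := one_le_mul_of_one_le_of_one_le hp hg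
    calc 1 ≤ 2 ^ ℓ * g := this
      _ ≤ 4 * (2 ^ ℓ * g) := by omega
      _ = 4 * 2 ^ ℓ * g := by ring
  refine ⟨a1, a2, ?_, ?_⟩
  · refine le_trans ?_ a2
    calc 4 * S + 4 * Dm + 1 ≤ 1 * (2 * (4 * S + 4 * Dm + 1)) := by omega
      _ ≤ 4 * 2 ^ ℓ * g * (2 * (4 * S + 4 * Dm + 1)) := Nat.mul_le_mul_right _ hk
  · refine le_trans ?_ a1
    calc w + 2 = 1 * (w + 2) := by ring
      _ ≤ 4 * 2 ^ ℓ * g * (w + 2) := Nat.mul_le_mul_right _ hk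

theorem final0X (J c1 y m A : ℕ) (hc1 : c1 = 2 * dgf J + 14) (hy : 1 ≤ y)
    (hm : 4 * y + 30 ≤ m) (hA : A = m + (y + c1) * J + 1) :
    ∃ (d : ℕ → ℕ) (C : ℕ → ℕ → Fm ℕ) (τ : ℕ → Fm ℕ),
      (∀ n, τ n = Fm.neg (bigAnd (d n) (C n))) ∧
      (∀ n i, IsClause (dgf J) (C n i)) ∧
      (∀ n x, (τ n).eval x = true) ∧
      (∀ n i, ∃ j, j < 2 ^ d n ∧ C n i = C n j) ∧
      (∀ n, 2 ^ n ≤ (τ n).enc.length) ∧
      (∀ᶠ n in atTop, (τ n).enc.length ≤ (2 ^ (n + 10)) ^ A) ∧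
      (∃ Nf : ℕ → ℕ, ∀ n, 2 ^ n ≤ Nf n ∧ Nf n ≤ (τ n).enc.length ∧
        GP (dgf J) (Nf n) (C n) ∧ Nf (n + 1) ≤ 2 ^ (m + (y + c1 + 1) * J) * Nf n) ∧
      ∀ ℓ : ℕ, ∀ᶠ n in atTop, ∀ j ≤ J,
        ∀ Sch : Set (Fm ℕ), (∀ ψ ∈ Sch, ψ.len ≤ ℓ ∧ ∀ x : ℕ → Bool, ψ.eval x = true) →
          ∀ (Ke : ℕ) (q : Fin Ke → ℕ) (D : Fin Ke → Fm ℕ), ExtOK (τ n) q D → Ke ≤ 2 ^ (n + 8) →
          ∀ (L : ℕ) (pf : Fin L → Fm ℕ), IsDer Sch (Set.range (C n) ∪ ExtAx q D) pf →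
            (∃ i, pf i = τ n) →
          ∀ (G : Finset (Fm ℕ)) (Q : Fin L → Finset (Fm ℕ)) (w S : ℕ),
            (G.card + 1) * (w + 1) ≤ (2 ^ (n + 10)) ^ (m + (y + c1) * j - 16) →
            (G.card + 1) * S ≤ (2 ^ (n + 10)) ^ (2 * y * (J - j) + (m + (y + c1) * j - 16)) →
            (∀ i, (Q i).card ≤ w ∧ ∑ B ∈ Q i, B.len ≤ S ∧
              BC {A | A ∈ G ∨ A ∈ Q i} (pf i)) →
            2 ^ (2 ^ (n + 9)) ≤ L := by
  obtain ⟨Dm, hDm⟩ : ∃ Dm, Dm = dgf J := ⟨_, rfl⟩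
  obtain ⟨pp, hpp⟩ : ∃ pp, pp = y + c1 := ⟨_, rfl⟩
  have hD80 : 80 ≤ Dm := by rw [hDm]; exact one_le_dgf J
  rw [← hDm] at hc1 ⊢
  rw [← hpp] at hA ⊢
  have hch := fun n : ℕ => fixedPX (J := J) (n := (2 ^ (n + 10)) ^ m) (k := pp * (n + 10))
    (Dm := Dm) (by rw [hDm]) (by
      calc 1000 ≤ 2 ^ 10 := by norm_num
        _ ≤ 2 ^ (n + 10) := Nat.pow_le_pow_right (by norm_num) (by omega)
        _ ≤ (2 ^ (n + 10)) ^ m := Nat.le_self_pow (by omega) _)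
  choose d C hC1 hC2 hC3 hC4 hC5 hC6 hC8 hC7 using hch
  obtain ⟨K0, hK0⟩ : ∃ K0, K0 = 2 ^ Dm * (8 * Dm + 8) + 4 := ⟨_, rfl⟩
  have hshift : Tendsto (fun n : ℕ => n + 10) atTop atTop := tendsto_add_atTop_nat 10
  have hshift2 : Tendsto (fun n : ℕ => 2 ^ (n + 10)) atTop atTop :=
    (tendsto_pow_atTop_atTop_of_one_lt (by norm_num : (1:ℕ) < 2)).comp hshift
  have hshift3 : Tendsto (fun n : ℕ => 2 ^ (n + 8)) atTop atTop :=
    (tendsto_pow_atTop_atTop_of_one_lt (by norm_num : (1:ℕ) < 2)).comp (tendsto_add_atTop_nat 8)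
  have hsize := hshift.eventually (fin0X_size J m pp Dm K0)
  have hNle : ∀ᶠ n : ℕ in atTop,
      (2 ^ (n + 10)) ^ m * ((pp * (n + 10) + 1) * 2 ^ (pp * (n + 10))) ^ J * K0 + K0 ≤
        (2 ^ (n + 10)) ^ A := by
    filter_upwards [hsize] with n hn
    rw [hA]
    refine le_trans ?_ hn
    exact Nat.le_mul_of_pos_right _ (by omega)
  have hK1 : 1 ≤ K0 := by omega
  refine ⟨d, C, fun n => Fm.neg (bigAnd (d n) (C n)), fun _ => rfl, hC1, hC2, hC3, ?_, ?_,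
    ⟨fun n => (2 ^ (n + 10)) ^ m * ((pp * (n + 10) + 1) * 2 ^ (pp * (n + 10))) ^ J,
      fun n => ⟨?_, (hC8 n).1, (hC8 n).2, ?_⟩⟩, ?_⟩
  · intro n
    refine le_trans ?_ (hC4 n)
    rw [← pow_mul]
    refine Nat.pow_le_pow_right (by norm_num) ?_
    nlinarith
  · filter_upwards [hsize] with n hn
    refine (hC6 n).trans ?_
    rw [hA]
    refine le_trans (Nat.mul_le_mul_right _ ?_) hn
    refine Nat.add_le_add (Nat.mul_le_mul_left _ ?_) ?_ <;> omega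
  · refine le_trans ?_ (Nat.le_mul_of_pos_right _ (Nat.pow_pos (Nat.mul_pos (by omega)
      (by positivity))))
    rw [← pow_mul]
    refine Nat.pow_le_pow_right (by norm_num) ?_
    nlinarith
  · -- density
    show (2 ^ (n + 1 + 10)) ^ m * ((pp * (n + 1 + 10) + 1) * 2 ^ (pp * (n + 1 + 10))) ^ J ≤
      2 ^ (m + (pp + 1) * J) * ((2 ^ (n + 10)) ^ m * ((pp * (n + 10) + 1) * 2 ^ (pp * (n + 10))) ^ J)
    have e1 : (2 ^ (n + 1 + 10)) ^ m = 2 ^ m * (2 ^ (n + 10)) ^ m := by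
      rw [← mul_pow]; congr 1; ring
    have e2 : (pp * (n + 1 + 10) + 1) * 2 ^ (pp * (n + 1 + 10)) ≤
        2 ^ (pp + 1) * ((pp * (n + 10) + 1) * 2 ^ (pp * (n + 10))) := by
      have e3 : 2 ^ (pp * (n + 1 + 10)) = 2 ^ pp * 2 ^ (pp * (n + 10)) := by
        rw [← pow_add]; congr 1; ring
      rw [e3]
      calc (pp * (n + 1 + 10) + 1) * (2 ^ pp * 2 ^ (pp * (n + 10)))
          ≤ (2 * (pp * (n + 10) + 1)) * (2 ^ pp * 2 ^ (pp * (n + 10))) :=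
            Nat.mul_le_mul_right _ (by nlinarith)
        _ = _ := by rw [pow_succ]; ring
    calc (2 ^ (n + 1 + 10)) ^ m * ((pp * (n + 1 + 10) + 1) * 2 ^ (pp * (n + 1 + 10))) ^ J
        ≤ 2 ^ m * (2 ^ (n + 10)) ^ m *
          (2 ^ (pp + 1) * ((pp * (n + 10) + 1) * 2 ^ (pp * (n + 10)))) ^ J := by
          rw [e1]
          exact Nat.mul_le_mul_left _ (Nat.pow_le_pow_left e2 _)
      _ = _ := by rw [mul_pow (2 ^ (pp + 1)), ← pow_mul 2 (pp + 1), pow_add 2 m]; ring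
  · intro ℓ
    have hall : ∀ᶠ n : ℕ in atTop, ∀ j ∈ Finset.range (J + 1),
        ∀ k N : ℕ, 2 ^ k = (2 ^ (n + 10)) ^ (y + (2 * Dm + 14)) →
        (2 ^ (n + 10)) ^ (m + pp * j) ≤ N →
        N * ((k + 1) * 2 ^ k) ^ (J - j) ≤ (2 ^ (n + 10)) ^ A →
      ∃ (kt K Mt lam κ : ℕ) (u1 η : ℝ),
        Nz (J - j) N k (2 ^ (n + 10)) ((2 ^ (n + 10)) ^ 12) ((2 ^ (n + 10)) ^ (2 * y)) Dm kt
          (Dm + 1) Mt K ((2 ^ (n + 10)) ^ (2 * y * (J - j) + (m + pp * j - 15))) (2 ^ (n + 10))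
          (2 ^ (2 ^ (n + 10))) lam κ (2 ^ (n + 10)) ((2 ^ (n + 10) : ℕ) : ℝ) u1 η ∧
        (2 ^ (n + 10)) ^ 12 * (4 * ((2 ^ (n + 10)) ^ (2 * y)) ^ (J - j) *
          (2 ^ (n + 10)) ^ (m + pp * j - 15) +
            18 * (2 ^ (n + 10)) ^ (2 * y * (J - j) + (m + pp * j - 15))) ≤
          4 * ((2 ^ (n + 10)) ^ (2 * y)) ^ (J - j) * (kt * Dm ^ (J - j)) := by
      rw [Filter.eventually_all_finset]
      intro j _
      exact hshift2.eventually (nzE_exists (J - j) Dm y (m + pp * j) A hD80 (by omega))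
    filter_upwards [hall, hNle, hshift3.eventually (num_two (4 * 4 ^ A) A),
      hshift2.eventually (eventually_ge_atTop (2 ^ (ℓ + 4) * (4 * Dm + 5))),
      hshift2.eventually (eventually_ge_atTop (10 * (ℓ + 2)))] with n h1 h2 h3 h4 h4'
    intro j hj Sch hSch Ke q D hqD hKe L pf hpf hτ G Q w S hw hS hQ
    obtain ⟨b, hb⟩ : ∃ b, b = 2 ^ (n + 10) := ⟨_, rfl⟩
    have hbh : b = 4 * 2 ^ (n + 8) := by rw [hb]; ring
    have hb1 : 1 ≤ b := by rw [hb]; exact Nat.one_le_pow _ _ (by norm_num)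
    have h7 := hC7 n j hj
    have h5' := hC5 n
    have hj' := h1 j (Finset.mem_range.2 (by omega)) (pp * (n + 10))
      ((2 ^ (n + 10)) ^ m * ((pp * (n + 10) + 1) * 2 ^ (pp * (n + 10))) ^ j)
    rw [← hb] at h2 h4 h4' hw hS h7 h5' hj'
    obtain ⟨k, hk⟩ : ∃ k, k = pp * (n + 10) := ⟨_, rfl⟩
    rw [← hk] at h2 h7 h5' hj'
    have h2k : 2 ^ k = b ^ pp := by
      rw [hk, hb, ← pow_mul]
      congr 1; ring
    obtain ⟨kt, K, Mt, lam, κ, u1, η, hNz, hkt⟩ := hj' (by rw [h2k, hpp, hc1])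
      (by
        rw [pow_add, pow_mul]
        refine Nat.mul_le_mul_left _ (Nat.pow_le_pow_left ?_ _)
        rw [h2k]
        exact Nat.le_mul_of_pos_left _ (by omega))
      (by
        rw [mul_assoc, ← pow_add, Nat.add_sub_cancel' hj]
        refine le_trans ?_ h2
        exact (Nat.le_mul_of_pos_right _ hK1).trans (Nat.le_add_right _ _))
    have hM15 : m + pp * j - 15 = m + pp * j - 16 + 1 := by omega
    have hnum := fin0X_num b w (G.card + 1) S Dm ℓ (m + pp * j - 16)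
      (2 * y * (J - j) + (m + pp * j - 16)) h4 (by omega) (by omega) hw hS
    rw [add_assoc (2 * y * (J - j)), ← hM15] at hnum
    obtain ⟨n1, n2, n3, n4⟩ := hnum
    have hMA : m + pp * j - 15 ≤ A := by
      have : pp * j ≤ pp * J := Nat.mul_le_mul_left _ hj
      omega
    have hKb : Ke ≤ b := by rw [hbh]; omega
    have hfin := h7 _ _ _ _ _ _ _ _ (ℓ + 1) _ _ _ _ _ _ _ hNz (by omega) Sch
      (fun ψ hψ => ⟨(hSch ψ hψ).1.trans (by omega), (hSch ψ hψ).2⟩) Ke q D hqD (by omega) L pf hpf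
      hτ G Q w S hQ n3 (by
        refine le_trans (Nat.mul_le_mul_left _ ?_) hkt
        exact Nat.add_le_add (Nat.mul_le_mul_left _ n1) (Nat.mul_le_mul_left _ n2))
    have hdA : 2 ^ d n ≤ b ^ A := by
      refine h5'.trans (le_trans ?_ h2)
      obtain ⟨N, hN⟩ : ∃ N, N = b ^ m * ((k + 1) * 2 ^ k) ^ J := ⟨_, rfl⟩
      rw [← hN]
      calc 2 * (N * 2 ^ Dm) = N * (2 ^ Dm * 2) := by ring
        _ ≤ N * K0 := Nat.mul_le_mul_left _ (by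
            rw [hK0]
            have : 2 ^ Dm * 2 ≤ 2 ^ Dm * (8 * Dm + 8) := Nat.mul_le_mul_left _ (by omega)
            omega)
        _ ≤ N * K0 + K0 := Nat.le_add_right _ _
    have hres := fin0X_last b (2 ^ (n + 8)) A L Ke w (G.card + 1) (d n) ℓ (m + pp * j - 15) hbh hb1
      hKe hMA n1 (n4.trans (Nat.pow_le_pow_right hb1 hMA)) hdA hfin h3
    have h29 : 2 * 2 ^ (n + 8) = 2 ^ (n + 9) := by ring
    rw [h29] at hres
    exact hres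

end Pool.Agent.H55.AG
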