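import Mathlib
import Pool.Agent.H55.AG.Path

set_option autoImplicit false

/-!
# Module JOINE: in a connected graph every even set of vertices is the set of odd vertices of a set of edges

PROOF. `join_pair`: `G.Connected` gives a walk from `a` to `b` (`hG.preconnected a b`), hence
`Relation.ReflTransGen G.Adj a b` (`SimpleGraph.reachable_iff_reflTransGen`), `path_exists` and `path_jn` give the set
(its elements are edges: `SimpleGraph.mem_edgeSet`).
`join_exists`: strong induction on the number of `v` with `c v = true`, statement for all finite sets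
`T : Finset V` with `Even T.card`: there is `P : Finset (Sym2 V)` of edges with `Odd (P.filter (v ∈ ·)).card ↔ v ∈ T` for all `v`.
`T = ∅`: `P = ∅`. Otherwise `T` has two different elements `a`, `b` (even and positive: `Finset.one_lt_card`), induction
hypothesis for `(T.erase a).erase b`, `join_pair` for `a`, `b`, symmetric difference. Work with
`((P.filter fun e => v ∈ e).card : ZMod 2)` (as in `Jn`; `ZMod.natCast_eq_one_iff_odd` or `ZMod.natCast_ne_zero_iff_odd` and
`ZMod.natCast_eq_zero_iff_even`): for a symmetric difference the numbers add in `ZMod 2` (see `jn_symm`).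
Finally `a e := decide (e ∈ P)`, and for a vertex `v` the map `u ↦ s(v, u)` is a bijection from `{u | G.Adj v u ∧ s(v, u) ∈ P}` to
`P.filter (v ∈ ·)` (`P` consists of edges of `G`; `Finset.card_bij`, `Sym2.mem_iff_exists`, `Sym2.congr_right`).
-/

namespace Pool.Agent.H55.AG

open Finset Classical

theorem join_pair {V : Type} [Fintype V] (G : SimpleGraph V) (hG : G.Connected) (a b : V) :
    ∃ P : Finset (Sym2 V), (∀ e ∈ P, e ∈ G.edgeSet) ∧ Jn P a b := by
  have h1 : Relation.ReflTransGen G.Adj a b :=
    (SimpleGraph.reachable_iff_reflTransGen a b).1 (hG.preconnected a b)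
  obtain ⟨n, p, h2, h3, h4, h5⟩ := path_exists G.Adj h1
  refine ⟨(Finset.range n).image fun i => s(p i, p (i + 1)), fun e he => ?_, ?_⟩
  · obtain ⟨i, hi, rfl⟩ := Finset.mem_image.1 he
    exact (SimpleGraph.mem_edgeSet G).2 (h4 i (Finset.mem_range.1 hi))
  · have h6 := path_jn h5
    rw [h2, h3] at h6
    exact h6

private theorem card_symm' {α : Type} [DecidableEq α] (A B : Finset α) :
    (((symmDiff A B).card : ℕ) : ZMod 2) = (A.card : ZMod 2) + (B.card : ZMod 2) := by
  have h1 : (symmDiff A B).card = (A \ B).card + (B \ A).card := by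
    rw [symmDiff_def, Finset.sup_eq_union]
    exact Finset.card_union_of_disjoint (Finset.disjoint_left.2 fun x hx hx' =>
      (Finset.mem_sdiff.1 hx').2 (Finset.mem_sdiff.1 hx).1)
  have h2 := Finset.card_sdiff_add_card_inter A B
  have h3 := Finset.card_sdiff_add_card_inter B A
  rw [Finset.inter_comm] at h3
  have h4 : (symmDiff A B).card + 2 * (A ∩ B).card = A.card + B.card := by omega
  have h5 : (((symmDiff A B).card + 2 * (A ∩ B).card : ℕ) : ZMod 2) = ((A.card + B.card : ℕ) : ZMod 2) := by
    rw [h4]
  have h6 : (2 : ZMod 2) = 0 := rfl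
  push_cast at h5
  rw [h6, zero_mul, add_zero] at h5
  exact h5

private theorem filter_symm' {α : Type} [DecidableEq α] (A B : Finset α) (q : α → Prop) [DecidablePred q] :
    (symmDiff A B).filter q = symmDiff (A.filter q) (B.filter q) := by
  ext x
  simp only [Finset.mem_filter, Finset.mem_symmDiff]
  tauto

private theorem join_set {V : Type} [Fintype V] (G : SimpleGraph V) (hG : G.Connected) :
    ∀ (n : ℕ) (T : Finset V), T.card = n → Even n → ∃ P : Finset (Sym2 V),
      (∀ e ∈ P, e ∈ G.edgeSet) ∧
        ∀ v, (((P.filter fun e => v ∈ e).card : ℕ) : ZMod 2) = if v ∈ T then 1 else 0 := by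
  intro n
  induction n using Nat.strong_induction_on with
  | _ n ih =>
    intro T hT hn
    rcases Finset.eq_empty_or_nonempty T with h0 | h0
    · refine ⟨∅, fun e he => absurd he (Finset.notMem_empty e), fun v => ?_⟩
      rw [h0, Finset.filter_empty, Finset.card_empty, if_neg (Finset.notMem_empty v)]
      exact Nat.cast_zero
    · have h1 : 0 < T.card := Finset.card_pos.2 h0
      have h2 : 1 < T.card := by
        obtain ⟨k, hk⟩ := hn
        omega
      obtain ⟨a, ha, b, hb, hab⟩ := Finset.one_lt_card.1 h2
      have hb' : b ∈ T.erase a := Finset.mem_erase.2 ⟨Ne.symm hab, hb⟩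
      have h3 : ((T.erase a).erase b).card = n - 2 := by
        rw [Finset.card_erase_of_mem hb', Finset.card_erase_of_mem ha, hT]
        omega
      obtain ⟨P, hP, hPv⟩ := ih (n - 2) (by omega) _ h3 (by
        obtain ⟨k, hk⟩ := hn
        exact ⟨k - 1, by omega⟩)
      obtain ⟨Q, hQ, hQv⟩ := join_pair G hG a b
      refine ⟨symmDiff P Q, fun e he => ?_, fun v => ?_⟩
      · rcases Finset.mem_symmDiff.1 he with h4 | h4
        · exact hP e h4.1
        · exact hQ e h4.1
      · rw [filter_symm', card_symm', hPv v, hQv v]
        by_cases hva : v = a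
        · subst hva
          rw [if_neg (fun h => (Finset.mem_erase.1 (Finset.mem_of_mem_erase h)).1 rfl),
            if_pos rfl, if_neg hab, if_pos ha]
          ring
        · by_cases hvb : v = b
          · subst hvb
            rw [if_neg (fun h => (Finset.mem_erase.1 h).1 rfl), if_neg hva, if_pos rfl, if_pos hb]
            ring
          · rw [if_neg hva, if_neg hvb, add_zero, add_zero]
            have h4 : v ∈ (T.erase a).erase b ↔ v ∈ T := by
              simp only [Finset.mem_erase]
              tauto
            simp only [h4]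

theorem join_exists {V : Type} [Fintype V] (G : SimpleGraph V) (hG : G.Connected) (c : V → Bool)
    (hc : Even (univ.filter fun v => c v = true).card) :
    ∃ a : Sym2 V → Bool, ∀ v,
      (Odd (univ.filter fun u => G.Adj v u ∧ a s(v, u) = true).card ↔ c v = true) := by
  obtain ⟨P, hP, hPv⟩ := join_set G hG _ _ rfl hc
  refine ⟨fun e => decide (e ∈ P), fun v => ?_⟩
  have h1 : (univ.filter fun u => G.Adj v u ∧ decide (s(v, u) ∈ P) = true).card =
      (P.filter fun e => v ∈ e).card := by
    refine Finset.card_bij (fun u _ => s(v, u)) ?_ ?_ ?_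
    · intro u hu
      rw [Finset.mem_filter] at hu ⊢
      exact ⟨of_decide_eq_true hu.2.2, Sym2.mem_mk_left v u⟩
    · intro u _ u' _ huu
      exact Sym2.congr_right.1 huu
    · intro e he
      rw [Finset.mem_filter] at he
      obtain ⟨u, rfl⟩ := Sym2.mem_iff_exists.1 he.2
      refine ⟨u, ?_, rfl⟩
      rw [Finset.mem_filter]
      exact ⟨Finset.mem_univ _, (SimpleGraph.mem_edgeSet G).1 (hP _ he.1), decide_eq_true he.1⟩
  have h2 : (Odd (univ.filter fun u => G.Adj v u ∧ decide (s(v, u) ∈ P) = true).card ↔
      Odd (P.filter fun e => v ∈ e).card) := by rw [h1]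
  refine Iff.trans ?_ (Iff.trans h2 ?_)
  · exact Iff.rfl
  · rw [← ZMod.natCast_eq_one_iff_odd, hPv v]
    simp only [Finset.mem_filter, Finset.mem_univ, true_and]
    constructor
    · intro h3
      by_contra h4
      rw [if_neg h4] at h3
      exact absurd h3 (by decide)
    · intro h3
      rw [if_pos h3]

end Pool.Agent.H55.AG
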