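import Mathlib
import Pool.Agent.H90.UB.Bal
import Pool.Agent.H90.PE.Sub

set_option autoImplicit false
set_option linter.unusedSectionVars false

/-!
# Module SUBG: the substitution that is used for the translation, technical lemmas

PROOF. All are short inductions on formulas. `sgG_q`: injectivity of `q`. `bal_vars`: `Bal` is `T d (lf v0 A A)`; the leaves are
`Fm.var v` with `v ∈ A` or `bot v0` (variables `v0`); induction on `d` for all leaf functions (as `balX_len`/`len_T`; `xo A B` has the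
subformula variables of `A` and `B`). `ren_var`, `ren_var'`: induction. `bc_ren`: induction on `BC` (as `eb_bc`). `len_bindG`: induction.
`enc_bindG`: `enc_le φ M hφ _` (`H3/Frg2/Taut.lean`), `len_bindG`, `len_le_enc`. `sum_imageG`: `Finset.sum_image_le_of_nonneg`-like or induction on
`Q` as in `eb_sum` (`H90/PE/Sub.lean`).
-/

namespace Pool.Agent.H55.AG

open Finset Classical Pool.Agent.H3.Frg Pool.Agent.H3.Frg2 Pool.Agent.H3.Frg4
  Pool.Agent.H90.UB Pool.Agent.H90.PC

/-- the extension variables become new variables, the other variables are replaced by `y` -/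
noncomputable def sgG {E : Type} {K : ℕ} (q : Fin K → ℕ) (y : ℕ → Fm (E ⊕ Fin K)) (m : ℕ) :
    Fm (E ⊕ Fin K) := if h : ∃ j, q j = m then Fm.var (Sum.inr h.choose) else y m

theorem sgG_q {E : Type} {K : ℕ} {q : Fin K → ℕ} (hq : Function.Injective q)
    (y : ℕ → Fm (E ⊕ Fin K)) (j : Fin K) : sgG q y (q j) = Fm.var (Sum.inr j) := by
  have h : ∃ j', q j' = q j := ⟨j, rfl⟩
  unfold sgG
  rw [dif_pos h, hq h.choose_spec]

theorem sgG_n {E : Type} {K : ℕ} {q : Fin K → ℕ} (y : ℕ → Fm (E ⊕ Fin K)) {m : ℕ}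
    (h : ∀ j, q j ≠ m) : sgG q y m = y m := by
  unfold sgG
  rw [dif_neg]
  rintro ⟨j, hj⟩
  exact h j hj

theorem sgG_len {E : Type} {K : ℕ} (q : Fin K → ℕ) {y : ℕ → Fm (E ⊕ Fin K)} {b : ℕ} (hb : 1 ≤ b)
    (hy : ∀ m, (y m).len ≤ b) (m : ℕ) : (sgG q y m).len ≤ b := by
  unfold sgG
  split_ifs
  · exact hb
  · exact hy m

private theorem T_vars {V : Type} {v : V} (d : ℕ) : ∀ a : ℕ → Fm V, Fm.var v ∈ (T d a).subs →
    ∃ i, Fm.var v ∈ (a i).subs := by
  induction d with
  | zero => exact fun a h => ⟨0, h⟩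
  | succ d ih =>
    intro a h
    have h1 : Fm.var v ∈ (T d a).subs ∨ Fm.var v ∈ (T d fun i => a (2 ^ d + i)).subs := by
      simp only [T, xo, Fm.subs, List.mem_cons, List.mem_append, reduceCtorEq, false_or] at h
      tauto
    rcases h1 with h1 | h1
    · exact ih _ h1
    · obtain ⟨i, hi⟩ := ih _ h1
      exact ⟨_, hi⟩

theorem bal_vars {V : Type} [DecidableEq V] (d : ℕ) (v0 : V) (A : Finset V) {v : V}
    (h : Fm.var v ∈ (Bal d v0 A).subs) : v = v0 ∨ v ∈ A := by
  obtain ⟨i, hi⟩ := T_vars d _ h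
  unfold lf at hi
  split_ifs at hi with h1 h2
  · simp only [Fm.subs, List.mem_singleton, Fm.var.injEq] at hi
    rw [hi]
    exact Or.inr h2
  · simp only [bot, Fm.subs, List.mem_cons, List.mem_append, reduceCtorEq, false_or,
      Fm.var.injEq, List.not_mem_nil, or_false, or_self] at hi
    exact Or.inl hi
  · simp only [bot, Fm.subs, List.mem_cons, List.mem_append, reduceCtorEq, false_or,
      Fm.var.injEq, List.not_mem_nil, or_false, or_self] at hi
    exact Or.inl hi

theorem ren_var {V V' : Type} (f : V → V') (A : Fm V) {m : V'} (h : Fm.var m ∈ (A.ren f).subs) :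
    ∃ v, Fm.var v ∈ A.subs ∧ m = f v := by
  induction A with
  | var i =>
    simp only [Fm.ren, Fm.subs, List.mem_singleton, Fm.var.injEq] at h
    exact ⟨i, by simp [Fm.subs], h⟩
  | neg A ih =>
    simp only [Fm.ren, Fm.subs, List.mem_cons, reduceCtorEq, false_or] at h
    obtain ⟨v, h1, h2⟩ := ih h
    exact ⟨v, by rw [Fm.subs]; exact List.mem_cons_of_mem _ h1, h2⟩
  | imp A B ihA ihB =>
    simp only [Fm.ren, Fm.subs, List.mem_cons, List.mem_append, reduceCtorEq, false_or] at h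
    rcases h with h | h
    · obtain ⟨v, h1, h2⟩ := ihA h
      exact ⟨v, by rw [Fm.subs]; exact List.mem_cons_of_mem _ (List.mem_append_left _ h1), h2⟩
    · obtain ⟨v, h1, h2⟩ := ihB h
      exact ⟨v, by rw [Fm.subs]; exact List.mem_cons_of_mem _ (List.mem_append_right _ h1), h2⟩

theorem bc_ren {V V' : Type} (f : V → V') {P : Set (Fm V)} {Q : Set (Fm V')}
    (hPQ : ∀ A ∈ P, A.ren f ∈ Q) {A : Fm V} (hA : BC P A) : BC Q (A.ren f) := by
  induction hA with
  | base A hA => exact BC.base _ (hPQ A hA)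
  | neg A hA ih => exact BC.neg _ ih
  | imp A B hA hB ihA ihB => exact BC.imp _ _ ihA ihB

theorem len_bindG {V : Type} {σ : ℕ → Fm V} {b : ℕ} (hb : 1 ≤ b) (hσ : ∀ m, (σ m).len ≤ b)
    (A : Fm ℕ) : (A.bind σ).len ≤ A.len * b := by
  induction A with
  | var i =>
    simp only [Fm.bind, Fm.len, one_mul]
    exact hσ i
  | neg A ih =>
    simp only [Fm.bind, Fm.len, add_mul, one_mul]
    omega
  | imp A B ihA ihB =>
    simp only [Fm.bind, Fm.len, add_mul, one_mul]
    omega

theorem enc_bindG {V : Type} {σ : ℕ → Fm V} {b M : ℕ} (hb : 1 ≤ b) (hσ : ∀ m, (σ m).len ≤ b)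
    (φ : V → ℕ) (hφ : ∀ v, φ v < M) (A : Fm ℕ) :
    ((A.bind σ).ren φ).enc.length ≤ A.enc.length * (b * (2 * Nat.size M + 2)) := by
  have h1 := enc_le φ M hφ (A.bind σ)
  have h2 := len_bindG hb hσ A
  have h3 := len_le_enc A
  calc ((A.bind σ).ren φ).enc.length ≤ (A.bind σ).len * (2 * Nat.size M + 2) := h1
    _ ≤ (A.enc.length * b) * (2 * Nat.size M + 2) :=
        Nat.mul_le_mul_right _ (h2.trans (Nat.mul_le_mul_right _ h3))
    _ = A.enc.length * (b * (2 * Nat.size M + 2)) := Nat.mul_assoc _ _ _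

theorem sum_imageG {V : Type} {σ : ℕ → Fm V} {b M : ℕ} (hb : 1 ≤ b) (hσ : ∀ m, (σ m).len ≤ b)
    (φ : V → ℕ) (hφ : ∀ v, φ v < M) (Q : Finset (Fm ℕ)) :
    ∑ B ∈ Q.image (fun A => (A.bind σ).ren φ), B.enc.length ≤
      (∑ B ∈ Q, B.enc.length) * (b * (2 * Nat.size M + 2)) := by
  induction Q using Finset.induction_on with
  | empty => simp
  | insert a Q ha ih =>
    rw [Finset.image_insert, Finset.sum_insert ha, Nat.add_mul]
    by_cases h : (a.bind σ).ren φ ∈ Q.image (fun A => (A.bind σ).ren φ)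
    · rw [Finset.insert_eq_of_mem h]
      exact ih.trans (Nat.le_add_left _ _)
    · rw [Finset.sum_insert h]
      exact Nat.add_le_add (enc_bindG hb hσ φ hφ a) ih

end Pool.Agent.H55.AG
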