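import Mathlib
import Pool.Agent.H55.AG.AxTr
import Pool.Agent.H55.AG.JoinE
import Pool.Agent.H55.AG.FDer
import Pool.Agent.H55.AG.SubG

set_option autoImplicit false
set_option linter.unusedSectionVars false

/-!
# Module GLBA: from a refutation of the Tseitin formula of `G` to a derivation for the multigraph

PROOF. `ℓ1 := 1000 * (D + 1) + (1000 + 2 ^ Dm * (4 * Dm + 1) + 100 * 2 ^ Dm)`, `ℓ' := 10 * (ℓ + ℓ1)` (or larger, as needed below).
1. `join_exists` for `c' v := xor (c v) (decide (v = r v1))` (even: `univ.filter (c' v = true)` is the symmetric difference of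
`univ.filter (c v = true)` and `{r v1}`) gives `a`.
2. `V' := E ⊕ Fin K`, `φ : V' → ℕ := Sum.elim (fun e => (ψ e : ℕ)) (fun j => Fintype.card E + j)`, injective, values
`< Fintype.card E + K ≤ Dm * N + K`; a left inverse `g` exists (`Function.invFun` with `Nonempty V'` from `v0`, or `φ.extend`).
`b := bn G ν a`, `Y := Yn G ν P Sum.inl` (`Sum.inl_injective`), `y i := sgn (b i) (Bal dd (Sum.inl v0) (Y i))`,
`σ := sgG q y` (module SUBG; `sgG_q`, `sgG_n`, `sgG_len`; the lemmas of SUBG are used in 4., 5., 6.).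
`(σ m).len ≤ 6 * 4 ^ dd` (`bal_len`, `len_sgn_le`), so `(A.bind σ).len ≤ 6 * 4 ^ dd * A.len`.
`Γ' := Set.range (fun i => (clp src tgt v0 (idx i)).ren Sum.inl) ∪ {B | ∃ j, B = imp (var (inr j)) ((Df j).bind σ) ∨
B = imp ((Df j).bind σ) (var (inr j))}`, `X := Ax (S0 ℓ') Γ'`, `s := ℓ1 * 4 ^ dd`.
3. `fder` with `Γ := Ts D G ν c ∪ ExtAx q Df`: for `A ∈ Ts D G ν c`: `A.bind σ = A.bind y` (`eb_congr` in `H90/PE/Sub.lean`: the variables of `A` are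
numbers of edges, different from all `q j` by `ExtG`), then `axtr`. For the extension axioms: `A.bind σ ∈ Γ'`.
`hSch`: `ℓ ≤ ℓ'`. `n0` as in `axtr`, `n0 + 1 ≤ (ℓ' / 4) * 4 ^ dd` (`dd + 1 ≤ 2 ^ dd`; choose `ℓ'` large).
4. `pf i = neg (pf j)`: `fder3` with `τ' := (Fm.neg (bigAnd d fun i => clp src tgt v0 (idx i))).ren Sum.inl`; `τ'.ren φ = Fm.neg (bigAnd d C)`
(`ren_bigAnd`, `ren_ren`, `hP.eq`). `to_der` gives `pf₁`, `isDer_ren pf₁ φ` gives `pf'` (axioms: the image of `Γ'` is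
`Set.range C ∪ ExtAx q' D'` with `q' j := Fintype.card E + j`, `D' j := ((Df j).bind σ).ren φ`). Length
`L' = l.length + 3 ≤ (n0 + 1) * L + 3`.
5. `ExtOK`: `q'` injective; the variables of `Fm.neg (bigAnd d C)` are `ψ e < Fintype.card E` (it is `(..).ren φ` of a formula in the
variables `inl e`: `fx_ren`-style lemma, or: `Fm.var m ∈ (A.ren f).subs → ∃ v, m = f v`); if `Fm.var (q' j) ∈ (D' i).subs` then
`Fm.var (inr j) ∈ ((Df i).bind σ).subs` (injective `φ`), so there is `m` with `Fm.var m ∈ (Df i).subs` and `Fm.var (inr j) ∈ (σ m).subs`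
(`eb_subs` in `H90/PE/Sub.lean`); the variables of `y m` are `inl`s (`bal_vars`), so `m = q j`, contradiction for `i ≤ j`.
6. Pieces: `Gs' := insert τ (Gs.image fun A => (A.bind σ).ren φ)`, `τ = Fm.neg (bigAnd d C)`. For a line `B = pf' i'`, `B = B₁.ren φ` with `B₁`
in the list: either `B₁.len ≤ s`: `Q' i' := {B}`, `enc_le φ _ .. B₁ : B.enc.length ≤ B₁.len * (2 * Nat.size (card E + K) + 2)`
(`enc_le` in `H3/Frg2/Taut.lean`); or `B₁ = (pf i).bind σ`: `Q' i' := (Q i).image fun A => (A.bind σ).ren φ`, `BC` is preserved (`eb_bc`, `bc_ren`), sum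
(`sum_imageG`): `∑ over the image ≤ ∑ over Q i of ((A.bind σ).ren φ).enc.length ≤ ∑ A.len * 6 * 4 ^ dd * (2 * Nat.size .. + 2)`,
`A.len ≤ A.enc.length` (`len_le_enc`); or one of the three last lines: `Q' := ` the one of `A' = (pf j).bind σ`, built with `τ ∈ Gs'`.
-/

namespace Pool.Agent.H55.AG

open Finset Classical Pool.Agent.H3.Frg Pool.Agent.H3.Frg2 Pool.Agent.H3.Frg3 Pool.Agent.H3.Frg4
  Pool.Agent.H90.UB Pool.Agent.H90.PC

private theorem isDer_mono {V : Type} {Sch : Set (Fm ℕ)} {Γ Γ2 : Set (Fm V)} {L : ℕ}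
    {pf : Fin L → Fm V} (h : IsDer Sch Γ pf) (hΓ : ∀ A ∈ Γ, A ∈ Γ2) : IsDer Sch Γ2 pf := by
  intro i
  rcases h i with h1 | h1
  · exact Or.inl (hΓ _ h1)
  · exact Or.inr h1

private theorem even_card {V : Type} [Fintype V] (c : V → Bool) (x : V)
    (hc : Odd (univ.filter fun v => c v = true).card) :
    Even (univ.filter fun v => xor (c v) (decide (v = x)) = true).card := by
  cases hx : c x with
  | true =>
    have e : (univ.filter fun v => xor (c v) (decide (v = x)) = true) =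
        (univ.filter fun v => c v = true).erase x := by
      ext v
      simp only [mem_filter, mem_univ, true_and, mem_erase]
      by_cases hv : v = x
      · subst hv; simp [hx]
      · simp [hv]
    rw [e, card_erase_of_mem (by simp [hx])]
    obtain ⟨k, hk⟩ := hc
    exact ⟨k, by omega⟩
  | false =>
    have e : (univ.filter fun v => xor (c v) (decide (v = x)) = true) =
        insert x (univ.filter fun v => c v = true) := by
      ext v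
      simp only [mem_filter, mem_univ, true_and, mem_insert]
      by_cases hv : v = x
      · subst hv; simp [hx]
      · simp [hv]
    rw [e, card_insert_of_notMem (by simp [hx])]
    obtain ⟨k, hk⟩ := hc
    exact ⟨k + 1, by omega⟩

private theorem n0_le (D Dm dd : ℕ) : (2 * 2 ^ Dm + 7 + Dm * (2 * dd + 4)) +
    (D * (2 * 2 ^ dd * (4 * dd + 6) + 3) + 2 * D + 10) + 1 ≤
    (1000 * (D + 1) + (1000 + 2 ^ Dm * (4 * Dm + 1) + 100 * 2 ^ Dm)) * 4 ^ dd := by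
  have h1 : dd + 1 ≤ 2 ^ dd := Nat.lt_two_pow_self
  have h2 : Dm + 1 ≤ 2 ^ Dm := Nat.lt_two_pow_self
  have h4 : (4 : ℕ) ^ dd = 2 ^ dd * 2 ^ dd := by rw [← mul_pow]; norm_num
  have h5 : 1 ≤ 2 ^ dd := Nat.one_le_two_pow
  have h6 : 2 ^ dd ≤ 4 ^ dd := by
    rw [h4]
    exact Nat.le_mul_of_pos_left _ (by omega)
  have h7 : 2 * 2 ^ dd * (4 * dd + 6) ≤ 12 * 4 ^ dd := by
    calc 2 * 2 ^ dd * (4 * dd + 6) ≤ 2 * 2 ^ dd * (6 * 2 ^ dd) :=
          Nat.mul_le_mul_left _ (by omega)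
      _ = 12 * 4 ^ dd := by rw [h4]; ring
  have h8 : D * (2 * 2 ^ dd * (4 * dd + 6) + 3) ≤ D * (15 * 4 ^ dd) :=
    Nat.mul_le_mul_left _ (by omega)
  have h9 : Dm * (2 * dd + 4) ≤ Dm * (6 * 4 ^ dd) := Nat.mul_le_mul_left _ (by omega)
  have h10 : Dm * (6 * 4 ^ dd) ≤ 2 ^ Dm * (6 * 4 ^ dd) := Nat.mul_le_mul_right _ (by omega)
  have h11 : 2 ^ Dm * 1 ≤ 2 ^ Dm * 4 ^ dd := Nat.mul_le_mul_left _ (by omega)
  have h12 : D * 1 ≤ D * 4 ^ dd := Nat.mul_le_mul_left _ (by omega)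
  have e : (1000 * (D + 1) + (1000 + 2 ^ Dm * (4 * Dm + 1) + 100 * 2 ^ Dm)) * 4 ^ dd =
      1000 * (D * 4 ^ dd) + 2000 * 4 ^ dd + 2 ^ Dm * (4 * Dm + 1) * 4 ^ dd +
        100 * (2 ^ Dm * 4 ^ dd) := by ring
  have e2 : D * (15 * 4 ^ dd) = 15 * (D * 4 ^ dd) := by ring
  have e3 : 2 ^ Dm * (6 * 4 ^ dd) = 6 * (2 ^ Dm * 4 ^ dd) := by ring
  rw [e]
  omega

private theorem sgn_vars {V : Type} {b : Bool} {A : Fm V} {v : V}
    (h : Fm.var v ∈ (Pool.Agent.H90.UB.sgn b A).subs) : Fm.var v ∈ A.subs := by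
  unfold Pool.Agent.H90.UB.sgn at h
  split_ifs at h
  · exact h
  · simpa [Fm.subs] using h

theorem glb0 (D Dm ℓ : ℕ) : ∃ ℓ' : ℕ, ∀ (E Wv : Type) [Fintype E] [DecidableEq E] [Fintype Wv]
    [DecidableEq Wv] (src tgt : E → Wv) (v1 : Wv) (v0 : E) (ψ : E ≃ Fin (Fintype.card E))
    (idx : ℕ → (Σ _ : Wv, Finset E)) (N : ℕ) (C : ℕ → Fm ℕ),
    GPs src tgt v1 v0 ψ idx Dm N C →
    ∀ (V : Type) [Fintype V] (G : SimpleGraph V), G.Connected → (∀ v, (nbG G v).card ≤ D) →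
    ∀ (ν : Sym2 V → ℕ), Set.InjOn ν G.edgeSet →
    ∀ (c : V → Bool), Odd (univ.filter fun v => c v = true).card →
    ∀ (r : Wv → V) (P : E → Finset (Sym2 V)) (κ dd : ℕ), Function.Injective r →
    (∀ f, ∀ e ∈ P f, e ∈ G.edgeSet) → (∀ f, Jn (P f) (r (src f)) (r (tgt f))) →
    (∀ g, (univ.filter fun f => g ∈ P f).card ≤ κ) → D * κ ≤ 2 ^ dd → Dm ≤ 2 ^ dd →
    ∀ Sch : Set (Fm ℕ), (∀ ψ ∈ Sch, ψ.len ≤ ℓ ∧ ∀ x : ℕ → Bool, ψ.eval x = true) →
    ∀ (K : ℕ) (q : Fin K → ℕ) (Df : Fin K → Fm ℕ), ExtG G ν q Df →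
    ∀ (L : ℕ) (pf : Fin L → Fm ℕ), IsDer Sch (Ts D G ν c ∪ ExtAx q Df) pf →
    (∃ i j, pf i = Fm.neg (pf j)) →
    ∀ (Gs : Finset (Fm ℕ)) (Q : Fin L → Finset (Fm ℕ)) (w S : ℕ),
      (∀ i, (Q i).card ≤ w ∧ ∑ B ∈ Q i, B.enc.length ≤ S ∧
        BC {A | A ∈ Gs ∨ A ∈ Q i} (pf i)) → ∀ d : ℕ,
    ∃ (q' : Fin K → ℕ) (D' : Fin K → Fm ℕ) (L' : ℕ) (pf' : Fin L' → Fm ℕ)
      (Gs' : Finset (Fm ℕ)) (Q' : Fin L' → Finset (Fm ℕ)),
      ExtOK (Fm.neg (bigAnd d C)) q' D' ∧ IsDer (S0 ℓ') (Set.range C ∪ ExtAx q' D') pf' ∧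
      (∃ i, pf' i = Fm.neg (bigAnd d C)) ∧ L' ≤ (L + 1) * (ℓ' * 4 ^ dd) ∧
      Gs'.card ≤ Gs.card + 1 ∧
      ∀ i, (Q' i).card ≤ w + 1 ∧
        ∑ B ∈ Q' i, B.enc.length ≤ (S + 1) * (ℓ' * 4 ^ dd * (2 * Nat.size (Dm * N + K) + 2)) ∧
        BC {A | A ∈ Gs' ∨ A ∈ Q' i} (pf' i) := by
  obtain ⟨ℓ1, hℓ1⟩ : ∃ ℓ1, ℓ1 = 1000 * (D + 1) + (1000 + 2 ^ Dm * (4 * Dm + 1) + 100 * 2 ^ Dm) :=
    ⟨_, rfl⟩
  have hℓ1k : 1000 ≤ ℓ1 := by omega
  refine ⟨ℓ + ℓ1, ?_⟩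
  intro E Wv _ _ _ _ src tgt v1 v0 ψ idx N C hP V _ G hG hdeg ν hν c hc r P κ dd hr hPE hPJ hPκ
    hκ hDm Sch hSch K q Df hExt L pf hpf hfin Gs Q w S hQ d
  obtain ⟨iL, jL, hij⟩ := hfin
  obtain ⟨a, ha⟩ := join_exists G hG (fun v => xor (c v) (decide (v = r v1)))
    (even_card c (r v1) hc)
  -- variables
  obtain ⟨φ, hφ⟩ : ∃ φ : E ⊕ Fin K → ℕ, φ = Sum.elim (fun e => ((ψ e : Fin _) : ℕ))
    (fun j : Fin K => Fintype.card E + (j : ℕ)) := ⟨_, rfl⟩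
  have hφl : ∀ e, φ (Sum.inl e) = ((ψ e : Fin _) : ℕ) := fun e => by rw [hφ]; rfl
  have hφr : ∀ j, φ (Sum.inr j) = Fintype.card E + (j : ℕ) := fun j => by rw [hφ]; rfl
  have hφinj : Function.Injective φ := by
    rintro (e | j) (e' | j') h
    · rw [hφl, hφl] at h
      rw [ψ.injective (Fin.ext h)]
    · rw [hφl, hφr] at h
      have := (ψ e).isLt
      omega
    · rw [hφl, hφr] at h
      have := (ψ e').isLt
      omega
    · rw [hφr, hφr] at h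
      have h1 : j = j' := Fin.ext (by omega)
      rw [h1]
  have hM : ∀ v, φ v < Dm * N + K := by
    have h1 := hP.cE
    rintro (e | j)
    · rw [hφl]
      have := (ψ e).isLt
      omega
    · rw [hφr]
      have := j.isLt
      omega
  have hneV : Nonempty (E ⊕ Fin K) := ⟨Sum.inl v0⟩
  have hgf : ∀ v, Function.invFun φ (φ v) = v := Function.leftInverse_invFun hφinj
  obtain ⟨y, hy⟩ : ∃ y : ℕ → Fm (E ⊕ Fin K), y = fun i => sgn (bn G ν a i)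
    (Bal dd (Sum.inl v0) (Yn G ν P (Sum.inl : E → E ⊕ Fin K) i)) := ⟨_, rfl⟩
  obtain ⟨σ, hσ⟩ : ∃ σ : ℕ → Fm (E ⊕ Fin K), σ = sgG q y := ⟨_, rfl⟩
  have hylen : ∀ m, (y m).len ≤ 6 * 4 ^ dd := by
    intro m
    rw [hy]
    have h1 := bal_len dd (Sum.inl v0 : E ⊕ Fin K) (Yn G ν P (Sum.inl : E → E ⊕ Fin K) m)
    have h2 := len_sgn_le (bn G ν a m) (Bal dd (Sum.inl v0 : E ⊕ Fin K)
      (Yn G ν P (Sum.inl : E → E ⊕ Fin K) m))
    simp only
    omega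
  have h4 : 1 ≤ 4 ^ dd := Nat.one_le_pow _ _ (by norm_num)
  have hb1 : 1 ≤ 6 * 4 ^ dd := by omega
  have hσlen : ∀ m, (σ m).len ≤ 6 * 4 ^ dd := fun m => by
    rw [hσ]
    exact sgG_len q hb1 hylen m
  obtain ⟨hq1, hq2, hq3⟩ := hExt
  have hσq : ∀ j, σ (q j) = Fm.var (Sum.inr j) := fun j => by rw [hσ]; exact sgG_q hq1 y j
  have hσn : ∀ m, (∀ j, q j ≠ m) → σ m = y m := fun m h => by rw [hσ]; exact sgG_n y h
  -- axioms
  obtain ⟨Γ', hΓ'⟩ : ∃ Γ' : Set (Fm (E ⊕ Fin K)), Γ' =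
    Set.range (fun i => (clp src tgt v0 (idx i)).ren Sum.inl) ∪
      {B | ∃ j, B = Fm.imp (Fm.var (Sum.inr j)) ((Df j).bind σ) ∨
        B = Fm.imp ((Df j).bind σ) (Fm.var (Sum.inr j))} := ⟨_, rfl⟩
  obtain ⟨X, hX⟩ : ∃ X : Set (Fm (E ⊕ Fin K)), X = Ax (S0 (ℓ + ℓ1)) Γ' := ⟨_, rfl⟩
  have hfull : ∀ ℓ2, ℓ2 ≤ ℓ + ℓ1 → Full ℓ2 X := by
    intro ℓ2 hℓ2 χ hχ σ'
    rw [hX]
    exact Or.inr ⟨χ, ⟨hχ.1.trans hℓ2, hχ.2⟩, σ', rfl⟩
  obtain ⟨s, hs⟩ : ∃ s, s = ℓ1 * 4 ^ dd := ⟨_, rfl⟩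
  obtain ⟨n0, hn0⟩ : ∃ n0, n0 = (2 * 2 ^ Dm + 7 + Dm * (2 * dd + 4)) +
    (D * (2 * 2 ^ dd * (4 * dd + 6) + 3) + 2 * D + 10) := ⟨_, rfl⟩
  have hn0s : n0 + 1 ≤ s := by
    rw [hn0, hs, hℓ1]
    exact n0_le D Dm dd
  obtain ⟨l, hl1, hl2, hl3, hl4⟩ := fder (X := X) (s := s) (n0 := n0) σ (by
      intro χ hχ σ'
      rw [hX]
      have h1 := hSch χ hχ
      exact Or.inr ⟨χ, ⟨h1.1.trans (by omega), h1.2⟩, σ', rfl⟩) (by
      intro A hA
      rcases hA with hA | ⟨j, hA | hA⟩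
      · right
        intro l hl
        obtain ⟨l', k1, k2⟩ := axtr hP hdeg hν hr hPE hPJ hPκ ha (ι := (Sum.inl : E → E ⊕ Fin K))
          Sum.inl_injective φ (Function.invFun φ) hgf (X := X) (s := s)
          (hfull _ (by omega)) (fun i => by rw [hX, hΓ']; exact Or.inl (Or.inl ⟨i, rfl⟩)) hκ hDm
          (by rw [hs, hℓ1]) (Sum.inl v0) hA hl
        refine ⟨l', by rw [hn0]; exact k1, ?_⟩
        have e : A.bind σ = A.bind (fun i => sgn (bn G ν a i) (Bal dd (Sum.inl v0)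
            (Yn G ν P (Sum.inl : E → E ⊕ Fin K) i))) := by
          rw [← hy]
          refine eb_congr σ y A (fun i hi => hσn i (fun j hj => ?_))
          obtain ⟨-, v, hv, -⟩ := hA
          obtain ⟨u, hu, hi'⟩ := hv i hi
          exact hq2 j s(v, u) hu (by rw [hj, hi'])
        rw [e]
        exact k2
      · left
        rw [hA, hX, hΓ']
        refine Or.inl (Or.inr ⟨j, Or.inl ?_⟩)
        show Fm.imp (σ (q j)) _ = _
        rw [hσq]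
      · left
        rw [hA, hX, hΓ']
        refine Or.inl (Or.inr ⟨j, Or.inr ?_⟩)
        show Fm.imp _ (σ (q j)) = _
        rw [hσq]) hpf
  -- the last three lines
  obtain ⟨τ', hτ'⟩ : ∃ τ' : Fm (E ⊕ Fin K), τ' =
    (Fm.neg (bigAnd d fun i => clp src tgt v0 (idx i))).ren Sum.inl := ⟨_, rfl⟩
  have hτ : τ'.ren φ = Fm.neg (bigAnd d C) := by
    rw [hτ', ren_ren]
    show Fm.neg ((bigAnd d fun i => clp src tgt v0 (idx i)).ren _) = _
    rw [ren_bigAnd]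
    congr 2
    funext i
    rw [hP.eq i]
    congr 1
    funext e
    exact hφl e
  have hA : (pf jL).bind σ ∈ l := hl2 jL
  have hA' : Fm.neg ((pf jL).bind σ) ∈ l := by
    have := hl2 iL
    rw [hij] at this
    exact this
  have hl5 := fder3 (X := X) (hfull 1000 (by omega)) τ' hl1 hA hA'
  rw [hX] at hl5
  obtain ⟨pf₁, hd1, hd2, hd3⟩ := to_der hl5
  -- the pieces
  obtain ⟨Gs', hGs'⟩ : ∃ Gs' : Finset (Fm ℕ), Gs' = insert (Fm.neg (bigAnd d C))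
    (Gs.image fun A => (A.bind σ).ren φ) := ⟨_, rfl⟩
  obtain ⟨bd', hbd'⟩ : ∃ b, b = (S + 1) * ((ℓ + ℓ1) * 4 ^ dd * (2 * Nat.size (Dm * N + K) + 2)) :=
    ⟨_, rfl⟩
  have hpiece : ∀ i, ∃ Qb : Finset (Fm ℕ), Qb.card ≤ w + 1 ∧ ∑ B ∈ Qb, B.enc.length ≤ bd' ∧
      BC {A | A ∈ Gs' ∨ A ∈ Qb} (((pf i).bind σ).ren φ) := by
    intro i
    obtain ⟨k1, k2, k3⟩ := hQ i
    refine ⟨(Q i).image fun A => (A.bind σ).ren φ, card_image_le.trans (by omega), ?_, ?_⟩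
    · refine (sum_imageG hb1 hσlen φ hM (Q i)).trans ?_
      rw [hbd']
      refine Nat.mul_le_mul (by omega) (Nat.mul_le_mul_right _ (Nat.mul_le_mul_right _ ?_))
      omega
    · refine bc_ren φ (P := {B | (∃ A ∈ Gs, B = A.bind σ) ∨ ∃ A ∈ Q i, B = A.bind σ}) ?_
        (eb_bc σ ?_ k3)
      · rintro B (⟨A, hA1, rfl⟩ | ⟨A, hA1, rfl⟩)
        · left
          rw [hGs']
          exact mem_insert_of_mem (mem_image.mpr ⟨A, hA1, rfl⟩)
        · right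
          exact mem_image.mpr ⟨A, hA1, rfl⟩
      · rintro A (hA1 | hA1)
        · exact Or.inl ⟨A, hA1, rfl⟩
        · exact Or.inr ⟨A, hA1, rfl⟩
  have hshort : ∀ B : Fm (E ⊕ Fin K), B.len ≤ s → ∃ Qb : Finset (Fm ℕ), Qb.card ≤ w + 1 ∧
      ∑ B ∈ Qb, B.enc.length ≤ bd' ∧ BC {A | A ∈ Gs' ∨ A ∈ Qb} (B.ren φ) := by
    intro B hB
    refine ⟨{B.ren φ}, by simp, ?_, BC.base _ (Or.inr (mem_singleton_self _))⟩
    rw [sum_singleton]
    refine (enc_le φ _ hM B).trans ?_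
    rw [hbd']
    have h5 : B.len ≤ 1 * ((ℓ + ℓ1) * 4 ^ dd) := by
      rw [one_mul]
      refine hB.trans ?_
      rw [hs]
      exact Nat.mul_le_mul_right _ (by omega)
    calc B.len * (2 * Nat.size (Dm * N + K) + 2) ≤
          (1 * ((ℓ + ℓ1) * 4 ^ dd)) * (2 * Nat.size (Dm * N + K) + 2) :=
          Nat.mul_le_mul_right _ h5
      _ = 1 * ((ℓ + ℓ1) * 4 ^ dd * (2 * Nat.size (Dm * N + K) + 2)) := by ring
      _ ≤ _ := Nat.mul_le_mul_right _ (by omega)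
  have hτG : Fm.neg (bigAnd d C) ∈ Gs' := by
    rw [hGs']
    exact mem_insert_self _ _
  have hall : ∀ B ∈ (τ' :: Fm.imp (Fm.neg ((pf jL).bind σ)) τ' ::
      Fm.imp ((pf jL).bind σ) (Fm.imp (Fm.neg ((pf jL).bind σ)) τ') :: l),
      ∃ Qb : Finset (Fm ℕ), Qb.card ≤ w + 1 ∧
      ∑ B ∈ Qb, B.enc.length ≤ bd' ∧ BC {A | A ∈ Gs' ∨ A ∈ Qb} (B.ren φ) := by
    intro B hB
    obtain ⟨Qb, m1, m2, m3⟩ := hpiece jL
    rw [List.mem_cons, List.mem_cons, List.mem_cons] at hB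
    have hτB : BC {A | A ∈ Gs' ∨ A ∈ Qb} (τ'.ren φ) := by
      rw [hτ]
      exact BC.base _ (Or.inl hτG)
    rcases hB with rfl | rfl | rfl | hB
    · exact ⟨Qb, m1, m2, hτB⟩
    · exact ⟨Qb, m1, m2, BC.imp _ _ (BC.neg _ m3) hτB⟩
    · exact ⟨Qb, m1, m2, BC.imp _ _ m3 (BC.imp _ _ (BC.neg _ m3) hτB)⟩
    · rcases hl4 B hB with h5 | ⟨i, rfl⟩
      · exact hshort B h5
      · exact hpiece i
  choose Q' hQ1 hQ2 hQ3 using fun i => hall (pf₁ i) (hd2 i)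
  refine ⟨fun j => Fintype.card E + (j : ℕ), fun j => ((Df j).bind σ).ren φ, _,
    fun i => (pf₁ i).ren φ, Gs', Q', ?_, ?_, ?_, ?_, ?_, ?_⟩
  · -- admissible
    refine ⟨fun j j' h => Fin.ext (by simpa using h), fun j hj => ?_, fun i j hle hj => ?_⟩
    · rw [← hτ, hτ', ren_ren] at hj
      obtain ⟨e, -, he⟩ := ren_var _ _ hj
      have he2 : Fintype.card E + (j : ℕ) = φ (Sum.inl e) := he
      rw [hφl] at he2
      have := (ψ e).isLt
      clear hn0s hn0 hs hℓ1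
      omega
    · obtain ⟨v, hv, hv2⟩ := ren_var _ _ hj
      have hv3 : v = Sum.inr j := by
        apply hφinj
        rw [← hv2, hφr]
      subst hv3
      have hm : ∃ m, Fm.var m ∈ (Df i).subs ∧ Fm.var (Sum.inr j) ∈ (σ m).subs := by
        rcases eb_subs σ (Df i) _ hv with ⟨B', hB1, hB2⟩ | ⟨m, hm1, hm2⟩
        · cases B' with
          | var m =>
            refine ⟨m, hB1, ?_⟩
            have h5 : Fm.var (Sum.inr j) = σ m := hB2
            rw [← h5]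
            simp [Fm.subs]
          | neg B' => simp [Fm.bind] at hB2
          | imp B' B'' => simp [Fm.bind] at hB2
        · exact ⟨m, hm1, hm2⟩
      obtain ⟨m, hm1, hm2⟩ := hm
      by_cases hmq : ∃ j', q j' = m
      · obtain ⟨j', rfl⟩ := hmq
        rw [hσq] at hm2
        have h5 : j = j' := by simpa [Fm.subs] using hm2
        subst h5
        exact hq3 i j hle hm1
      · rw [hσn m (fun j' hj' => hmq ⟨j', hj'⟩), hy] at hm2
        rcases bal_vars _ _ _ (sgn_vars hm2) with h5 | h5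
        · simp at h5
        · unfold Yn at h5
          rw [mem_image] at h5
          obtain ⟨e, -, he⟩ := h5
          simp at he
  · refine isDer_mono (isDer_ren hd1 φ) ?_
    rintro A ⟨B, hB, rfl⟩
    rw [hΓ'] at hB
    rcases hB with ⟨i, rfl⟩ | ⟨j, rfl | rfl⟩
    · left
      refine ⟨i, ?_⟩
      rw [hP.eq i]
      show _ = ((clp src tgt v0 (idx i)).ren Sum.inl).ren φ
      rw [ren_ren]
      congr 1
      funext e
      exact (hφl e).symm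
    · right
      refine ⟨j, Or.inl ?_⟩
      show Fm.imp (Fm.var (φ (Sum.inr j))) _ = _
      rw [hφr]
    · right
      refine ⟨j, Or.inr ?_⟩
      show Fm.imp _ (Fm.var (φ (Sum.inr j))) = _
      rw [hφr]
  · obtain ⟨i, hi⟩ := hd3 τ' (List.mem_cons_self)
    refine ⟨i, ?_⟩
    show (pf₁ i).ren φ = _
    rw [hi, hτ]
  · simp only [List.length_cons]
    have h5 : (n0 + 1) * L ≤ s * L := Nat.mul_le_mul_right _ hn0s
    have h6 : s * L ≤ (ℓ + ℓ1) * 4 ^ dd * L := by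
      rw [hs]
      exact Nat.mul_le_mul_right _ (Nat.mul_le_mul_right _ (by omega))
    have h7 : (L + 1) * ((ℓ + ℓ1) * 4 ^ dd) = (ℓ + ℓ1) * 4 ^ dd * L + (ℓ + ℓ1) * 4 ^ dd := by ring
    have h8 : 1000 * 1 ≤ (ℓ + ℓ1) * 4 ^ dd := Nat.mul_le_mul (by omega) h4
    rw [h7]
    omega
  · rw [hGs']
    exact (card_insert_le _ _).trans (Nat.add_le_add_right card_image_le 1)
  · intro i
    refine ⟨hQ1 i, ?_, hQ3 i⟩
    rw [← hbd']
    exact hQ2 i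

end Pool.Agent.H55.AG
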