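import Mathlib

set_option autoImplicit false

/-!
# Module NUMG (Mathlib only): the numbers

PROOF. `polylog`: for `a, b` and a real `δ > 0`, eventually `(a * (Nat.log 2 w + 1) ^ b : ℝ) ≤ (w : ℝ) ^ δ`
(`Nat.log 2 w ≤ Real.log w / Real.log 2 ≤ 2 * Real.log w` and `isLittleO_log_rpow_atTop` / `isLittleO_log_rpow_rpow_atTop`, or by hand).
`numg`: let `P := A * (Nat.log 2 w + 1) ^ 4`, so `w < P * N`, `N ≥ w / P`, and `P, M ≤ w ^ δ` for any fixed `δ > 0` (take `δ = e / 100` and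
`δ = ε1 / 100`, whichever is smaller, also `≤ 1 / 100`), so `N ≥ w ^ (1 - δ)`.
First: `16 * M * w ^ (2 - e) ≤ w ^ (2 - e + 2 δ)` and `N ^ (2 - e / 2) ≥ w ^ ((1 - δ) * (2 - e / 2)) ≥ w ^ (2 - e / 2 - 2 δ)`,
`2 - e + 2 δ ≤ 2 - e / 2 - 2 δ`. Second and third: `N ^ ε1 ≥ w ^ (ε1 (1 - δ)) ≥ w ^ (3 ε1 / 4)`,
`w ^ (ε1 / 2) + M ≤ 2 * w ^ (3 ε1 / 5) ≤ w ^ (3 ε1 / 4)`. `N ≥ 1` because `w < A * N * ..`. `log`: fourth: `N ≥ w ^ (1 / 2)`.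
-/

namespace Pool.Agent.H55.AG

open Filter Topology

private theorem log_le (w : ℕ) (hw : 3 ≤ w) : ((Nat.log 2 w + 1 : ℕ) : ℝ) ≤ 4 * Real.log w := by
  have hw0 : (0 : ℝ) < (w : ℝ) := by
    have : 0 < w := by omega
    exact_mod_cast this
  have h1 : ((2 : ℝ) ^ (Nat.log 2 w)) ≤ (w : ℝ) := by
    have := Nat.pow_log_le_self 2 (x := w) (by omega)
    exact_mod_cast this
  have h2 : (Nat.log 2 w : ℝ) * Real.log 2 ≤ Real.log w := by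
    rw [← Real.log_pow]
    exact Real.log_le_log (by positivity) h1
  have h3 : 1 ≤ Real.log w := by
    rw [Real.le_log_iff_exp_le hw0]
    have h4 := Real.exp_one_lt_d9
    have h5 : (3 : ℝ) ≤ (w : ℝ) := by exact_mod_cast hw
    linarith
  have h4 := Real.log_two_gt_d9
  have h5 : (0 : ℝ) ≤ (Nat.log 2 w : ℝ) := Nat.cast_nonneg _
  push_cast
  nlinarith

theorem polylog (a b : ℕ) (δ : ℝ) (hδ : 0 < δ) :
    ∀ᶠ w : ℕ in atTop, ((a * (Nat.log 2 w + 1) ^ b : ℕ) : ℝ) ≤ (w : ℝ) ^ δ := by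
  have h1 : (fun x : ℝ => Real.log x ^ b) =o[atTop] (fun x : ℝ => x ^ δ) := by
    have h2 := isLittleO_log_rpow_rpow_atTop (b : ℝ) hδ
    refine h2.congr_left ?_
    intro x
    exact Real.rpow_natCast _ _
  have hc : (0 : ℝ) < 1 / ((a + 1) * 4 ^ b) := by positivity
  have h3 := h1.def hc
  have h4 := (tendsto_natCast_atTop_atTop (R := ℝ)).eventually h3
  filter_upwards [h4, eventually_ge_atTop 3] with w hw hw3
  have hw0 : (1 : ℝ) ≤ (w : ℝ) := by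
    have : 1 ≤ w := by omega
    exact_mod_cast this
  have hlog : 0 ≤ Real.log (w : ℝ) := Real.log_nonneg hw0
  rw [Real.norm_of_nonneg (by positivity), Real.norm_of_nonneg (by positivity)] at hw
  have h5 := log_le w hw3
  have h6 : (((Nat.log 2 w + 1) ^ b : ℕ) : ℝ) ≤ 4 ^ b * Real.log w ^ b := by
    rw [← mul_pow]
    push_cast
    push_cast at h5
    exact pow_le_pow_left₀ (by positivity) h5 b
  have h7 : (0 : ℝ) < (a + 1) * 4 ^ b := by positivity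
  rw [div_mul_eq_mul_div, one_mul, le_div_iff₀ h7] at hw
  have h8 : (0 : ℝ) ≤ Real.log w ^ b := by positivity
  have h9 : (0 : ℝ) ≤ 4 ^ b * Real.log w ^ b := by positivity
  calc ((a * (Nat.log 2 w + 1) ^ b : ℕ) : ℝ) = a * (((Nat.log 2 w + 1) ^ b : ℕ) : ℝ) := by
        push_cast; ring
    _ ≤ a * (4 ^ b * Real.log w ^ b) := mul_le_mul_of_nonneg_left h6 (Nat.cast_nonneg _)
    _ ≤ (a + 1) * (4 ^ b * Real.log w ^ b) := by nlinarith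
    _ = Real.log w ^ b * ((a + 1) * 4 ^ b) := by ring
    _ ≤ (w : ℝ) ^ δ := hw

theorem numg (e ε1 : ℝ) (he : 0 < e) (he1 : e ≤ 1) (hε1 : 0 < ε1) (A B : ℕ) :
    ∀ᶠ w : ℕ in atTop, ∀ N : ℕ, w < A * N * (Nat.log 2 w + 1) ^ 4 → N ≤ w →
      ∀ M : ℕ, M ≤ A * (Nat.log 2 w + 1) ^ B →
      16 * (M : ℝ) * (w : ℝ) ^ (2 - e) ≤ (N : ℝ) ^ (2 - e / 2) ∧
      (w : ℝ) ^ (ε1 / 2) + M ≤ (N : ℝ) ^ ε1 ∧ (w : ℝ) ^ ((1 : ℝ) / 2) ≤ N := by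
  obtain ⟨δ, hδ, hδe, hδ1, hδε⟩ : ∃ δ : ℝ, 0 < δ ∧ δ ≤ e / 100 ∧ δ ≤ 1 / 100 ∧ δ ≤ ε1 / 100 :=
    ⟨min (e / 100) (min (1 / 100) (ε1 / 100)), by positivity, min_le_left _ _,
      (min_le_right _ _).trans (min_le_left _ _), (min_le_right _ _).trans (min_le_right _ _)⟩
  filter_upwards [polylog A 4 δ hδ, polylog A B δ hδ, polylog 16 0 δ hδ,
    polylog 2 0 (ε1 / 100) (by positivity), eventually_ge_atTop 1] with w h1 h2 h3 h4 hw1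
  intro N hN hNw M hM
  have hw : (1 : ℝ) ≤ (w : ℝ) := by exact_mod_cast hw1
  have hw0 : (0 : ℝ) < (w : ℝ) := by linarith
  have h3' : (16 : ℝ) ≤ (w : ℝ) ^ δ := by
    simpa using h3
  have h4' : (2 : ℝ) ≤ (w : ℝ) ^ (ε1 / 100) := by
    simpa using h4
  have hM' : (M : ℝ) ≤ (w : ℝ) ^ δ := le_trans (by exact_mod_cast hM) h2
  -- N is large
  have hN1 : (w : ℝ) ^ (1 - δ) ≤ N := by
    have h5 : (w : ℝ) ≤ (w : ℝ) ^ δ * N := by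
      have h6 : (w : ℝ) ≤ ((A * (Nat.log 2 w + 1) ^ 4 : ℕ) : ℝ) * N := by
        have h7 : w ≤ A * (Nat.log 2 w + 1) ^ 4 * N := by
          calc w ≤ A * N * (Nat.log 2 w + 1) ^ 4 := hN.le
            _ = A * (Nat.log 2 w + 1) ^ 4 * N := by ring
        exact_mod_cast h7
      exact h6.trans (mul_le_mul_of_nonneg_right h1 (Nat.cast_nonneg _))
    have h8 : (0 : ℝ) < (w : ℝ) ^ δ := Real.rpow_pos_of_pos hw0 _
    rw [Real.rpow_sub hw0, Real.rpow_one, div_le_iff₀ h8]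
    linarith [mul_comm (N : ℝ) ((w : ℝ) ^ δ)]
  have hmono : ∀ x y : ℝ, x ≤ y → (w : ℝ) ^ x ≤ (w : ℝ) ^ y := fun x y h =>
    Real.rpow_le_rpow_of_exponent_le hw h
  have hNpow : ∀ s : ℝ, 0 ≤ s → (w : ℝ) ^ ((1 - δ) * s) ≤ (N : ℝ) ^ s := by
    intro s hs
    rw [Real.rpow_mul hw0.le]
    exact Real.rpow_le_rpow (Real.rpow_nonneg hw0.le _) hN1 hs
  refine ⟨?_, ?_, ?_⟩
  · calc 16 * (M : ℝ) * (w : ℝ) ^ (2 - e) ≤ (w : ℝ) ^ δ * (w : ℝ) ^ δ * (w : ℝ) ^ (2 - e) := by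
          refine mul_le_mul_of_nonneg_right ?_ (Real.rpow_nonneg hw0.le _)
          exact mul_le_mul h3' hM' (Nat.cast_nonneg _) (Real.rpow_nonneg hw0.le _)
      _ = (w : ℝ) ^ (δ + δ + (2 - e)) := by rw [Real.rpow_add hw0, Real.rpow_add hw0]
      _ ≤ (w : ℝ) ^ ((1 - δ) * (2 - e / 2)) := hmono _ _ (by nlinarith)
      _ ≤ (N : ℝ) ^ (2 - e / 2) := hNpow _ (by linarith)
  · have h5 : (w : ℝ) ^ (ε1 / 2) ≤ (w : ℝ) ^ (3 * ε1 / 5) := hmono _ _ (by linarith)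
    have h6 : (M : ℝ) ≤ (w : ℝ) ^ (3 * ε1 / 5) := hM'.trans (hmono _ _ (by linarith))
    calc (w : ℝ) ^ (ε1 / 2) + M ≤ 2 * (w : ℝ) ^ (3 * ε1 / 5) := by linarith
      _ ≤ (w : ℝ) ^ (ε1 / 100) * (w : ℝ) ^ (3 * ε1 / 5) :=
          mul_le_mul_of_nonneg_right h4' (Real.rpow_nonneg hw0.le _)
      _ = (w : ℝ) ^ (ε1 / 100 + 3 * ε1 / 5) := by rw [Real.rpow_add hw0]
      _ ≤ (w : ℝ) ^ ((1 - δ) * ε1) := hmono _ _ (by nlinarith)
      _ ≤ (N : ℝ) ^ ε1 := hNpow _ hε1.le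
  · exact (hmono _ _ (by linarith)).trans hN1

end Pool.Agent.H55.AG
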