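import Mathlib
import Pool.Agent.H55.AG.Fin1X

set_option autoImplicit false
set_option linter.unusedSectionVars false

/-!
# Module TFAM: the family of hard multigraphs (as `PE/FinE.lean`)
-/

namespace Pool.Agent.H55.AG

open Finset Filter Topology Pool.Agent.H3.Frg Pool.Agent.H3.Frg2 Pool.Agent.H3.Frg3
  Pool.Agent.H3.Frg4 Pool.Agent.H3.Ex Pool.Agent.H90.PC

theorem tfam (e : ℝ) (he : 0 < e) :
    ∃ (k c : ℕ) (ε : ℝ), 0 < ε ∧ ∃ (d : ℕ → ℕ) (C : ℕ → ℕ → Fm ℕ) (Nf : ℕ → ℕ),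
      (∀ n, 2 ^ n ≤ Nf n ∧ GP k (Nf n) (C n) ∧ Nf (n + 1) ≤ c * Nf n) ∧
      ∀ ℓ : ℕ, ∀ᶠ n in atTop,
        ∀ Sch : Set (Fm ℕ), (∀ ψ ∈ Sch, ψ.len ≤ ℓ ∧ ∀ x : ℕ → Bool, ψ.eval x = true) →
          ∀ (K : ℕ) (q : Fin K → ℕ) (D : Fin K → Fm ℕ), (K : ℝ) ≤ (Nf n : ℝ) ^ ε →
            ExtOK (Fm.neg (bigAnd (d n) (C n))) q D →
          ∀ (L : ℕ) (pf : Fin L → Fm ℕ), IsDer Sch (Set.range (C n) ∪ ExtAx q D) pf →
            (∃ i, pf i = Fm.neg (bigAnd (d n) (C n))) →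
            ∀ (G : Finset (Fm ℕ)) (Q : Fin L → Finset (Fm ℕ)) (w : ℕ) (S : ℝ), 1 ≤ S →
              ((G.card : ℝ) + 1) ^ 2 * (w + 1) * S ≤ (Nf n : ℝ) ^ (2 - e) →
              (∀ i, (Q i).card ≤ w ∧ ((∑ B ∈ Q i, B.enc.length : ℕ) : ℝ) ≤ S ∧
                BC {A | A ∈ G ∨ A ∈ Q i} (pf i)) →
              (2 : ℝ) ^ ((Nf n : ℝ) ^ ε) ≤ L := by
  classical
  obtain ⟨k, ε, hε, d, C, τ, h1, h2, h3, h4, h5, ⟨c, Nf, h7⟩, h6⟩ := final1X (e / 3) (by linarith)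
  refine ⟨k, c, ε, hε, d, C, Nf, fun n => ⟨(h7 n).1, (h7 n).2.2.1, (h7 n).2.2.2⟩, ?_⟩
  intro ℓ
  have hx : Tendsto (fun n => (((τ n).enc.length : ℕ) : ℝ) ^ (e / 3)) atTop atTop :=
    (tendsto_rpow_atTop (by linarith)).comp (tendsto_natCast_atTop_atTop.comp h5)
  filter_upwards [h6 ℓ, hx.eventually_ge_atTop 16, h5.eventually_ge_atTop 1,
    eventually_ge_atTop 1] with n hn hx8 hx1 hn1
  intro Sch hS K q D hK hqD L pf hpf hτ G Q w S hS1 hw hQ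
  rw [← h1 n] at hqD hτ
  obtain ⟨hN1, hN2, -, -⟩ := h7 n
  set x : ℝ := ((τ n).enc.length : ℝ) with hxdef
  have hx1' : (1 : ℝ) ≤ x := by
    rw [hxdef]
    exact_mod_cast hx1
  have hx0 : (0 : ℝ) < x := by linarith
  have hN2' : (2 : ℝ) ≤ (Nf n : ℝ) := by
    have h8 : 2 ^ 1 ≤ 2 ^ n := Nat.pow_le_pow_right (by norm_num) hn1
    exact_mod_cast h8.trans hN1
  have hNx : (Nf n : ℝ) ≤ x := by
    rw [hxdef]
    exact_mod_cast hN2
  have hN0 : (0 : ℝ) ≤ (Nf n : ℝ) := by linarith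
  have hG1 : (1 : ℝ) ≤ (G.card : ℝ) + 1 := by
    have := Nat.cast_nonneg (α := ℝ) G.card
    linarith
  have hw1 : (1 : ℝ) ≤ (w : ℝ) + 1 := by
    have := Nat.cast_nonneg (α := ℝ) w
    linarith
  have hε' : (Nf n : ℝ) ^ ε ≤ x ^ ε := Real.rpow_le_rpow hN0 hNx hε.le
  have he2 : e ≤ 2 := by
    by_contra hcon
    push Not at hcon
    have h9 : (Nf n : ℝ) ^ (2 - e) < 1 :=
      Real.rpow_lt_one_of_one_lt_of_neg (by linarith) (by linarith)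
    have h10 : (1 : ℝ) ≤ ((G.card : ℝ) + 1) ^ 2 * (w + 1) * S :=
      one_le_mul_of_one_le_of_one_le (one_le_mul_of_one_le_of_one_le (one_le_pow₀ hG1) hw1) hS1
    linarith
  have hw : ((G.card : ℝ) + 1) ^ 2 * (w + 1) * S ≤ x ^ (2 - e) :=
    hw.trans (Real.rpow_le_rpow hN0 hNx (by linarith))
  have h8 : x ^ (2 - e) * x ^ (e / 3) = x ^ (2 - 2 * (e / 3)) := by
    rw [← Real.rpow_add hx0]
    congr 1
    ring
  have h9 : x ^ (2 - 2 * (e / 3)) * x ^ (e / 3) = x ^ (2 - e / 3) := by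
    rw [← Real.rpow_add hx0]
    congr 1
    ring
  have h10 : (0 : ℝ) < x ^ (2 - e) := by positivity
  have h11 : (0 : ℝ) < x ^ (2 - 2 * (e / 3)) := by positivity
  refine le_trans (Real.rpow_le_rpow_of_exponent_le (by norm_num) hε') ?_
  refine hn Sch hS K q D (hK.trans hε') hqD L pf hpf hτ G Q (min w ⌊S⌋₊) S ?_ ?_ ?_
  · -- the first condition
    have e1 : (((min w ⌊S⌋₊ : ℕ) : ℝ) + 1) ≤ (w : ℝ) + 1 := by
      have : ((min w ⌊S⌋₊ : ℕ) : ℝ) ≤ (w : ℝ) := by exact_mod_cast min_le_left _ _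
      linarith
    have e2 : (((min w ⌊S⌋₊ : ℕ) : ℝ) + 1) ≤ 2 * S := by
      have h12 : ((min w ⌊S⌋₊ : ℕ) : ℝ) ≤ (⌊S⌋₊ : ℝ) := by exact_mod_cast min_le_right _ _
      have h13 := Nat.floor_le (show 0 ≤ S by linarith)
      linarith
    have e0 : (0 : ℝ) ≤ ((min w ⌊S⌋₊ : ℕ) : ℝ) + 1 := by positivity
    have e3 : (((G.card : ℝ) + 1) * (((min w ⌊S⌋₊ : ℕ) : ℝ) + 1)) ^ 2 ≤
        16 * x ^ (2 - e) := by
      calc (((G.card : ℝ) + 1) * (((min w ⌊S⌋₊ : ℕ) : ℝ) + 1)) ^ 2 =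
            ((G.card : ℝ) + 1) ^ 2 * ((((min w ⌊S⌋₊ : ℕ) : ℝ) + 1) *
              (((min w ⌊S⌋₊ : ℕ) : ℝ) + 1)) := by ring
        _ ≤ ((G.card : ℝ) + 1) ^ 2 * (((w : ℝ) + 1) * (2 * S)) := by
            refine mul_le_mul_of_nonneg_left ?_ (by positivity)
            exact mul_le_mul e1 e2 e0 (by positivity)
        _ = 2 * (((G.card : ℝ) + 1) ^ 2 * (w + 1) * S) := by ring
        _ ≤ _ := by linarith
    have e4 : (x ^ (1 - e / 3)) ^ 2 = x ^ (2 - e) * x ^ (e / 3) := by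
      rw [h8, ← Real.rpow_natCast, ← Real.rpow_mul hx0.le]
      congr 1
      push_cast
      ring
    refine le_of_sq_le_sq ?_ (by positivity)
    rw [e4]
    refine e3.trans ?_
    rw [mul_comm]
    exact mul_le_mul_of_nonneg_left hx8 h10.le
  · -- the second condition
    have e1 : (((min w ⌊S⌋₊ : ℕ) : ℝ) + 1) ≤ (w : ℝ) + 1 := by
      have : ((min w ⌊S⌋₊ : ℕ) : ℝ) ≤ (w : ℝ) := by exact_mod_cast min_le_left _ _
      linarith
    have e2 : ((G.card : ℝ) + 1) ^ 2 * (((min w ⌊S⌋₊ : ℕ) : ℝ) + 1) * S ≤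
        ((G.card : ℝ) + 1) ^ 2 * (w + 1) * S := by
      refine mul_le_mul_of_nonneg_right ?_ (by linarith)
      exact mul_le_mul_of_nonneg_left e1 (by positivity)
    refine (e2.trans hw).trans ?_
    rw [← h9, ← h8]
    have h12 : (1 : ℝ) ≤ x ^ (e / 3) := by linarith
    calc x ^ (2 - e) = x ^ (2 - e) * 1 * 1 := by ring
      _ ≤ x ^ (2 - e) * x ^ (e / 3) * x ^ (e / 3) := by gcongr
  · intro i
    obtain ⟨q1, q2, q3⟩ := hQ i
    refine ⟨le_min q1 (Nat.le_floor (le_trans ?_ q2)), q2, ?_⟩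
    · have h12 : (Q i).card ≤ ∑ B ∈ Q i, B.enc.length := by
        rw [Finset.card_eq_sum_ones]
        refine Finset.sum_le_sum fun B _ => ?_
        exact (Fm_len_pos B).trans (len_le_enc B)
      exact_mod_cast h12
    · exact q3

end Pool.Agent.H55.AG
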