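import Mathlib
import Pool.Agent.H55.AG.GLBA
import Pool.Agent.H55.AG.NumG
import Pool.Agent.H55.AG.TFam
import Pool.Agent.H55.AG.Embed

set_option autoImplicit false
set_option linter.unusedSectionVars false

/-!
# Module GLBB: the lower bound for all graphs, pieces

PROOF. WLOG `e ≤ 1`: use `e0 = min e 1` (`(w : ℝ) ^ (2 - e) ≤ (w : ℝ) ^ (2 - e0)` for `w ≥ 1`). `tfam (e0 / 2)` gives `k, c, ε1, d, C, Nf`.
`embed D k` gives `Ce`. `ε := min (ε1 / 2) 1`. Given `ℓ`: `glb0 D k ℓ` gives `ℓ'`; `tfam` for `ℓ'` (`S0 ℓ'` is a set of sound schemes) holds for `n ≥ n1`.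
For large `w` let `n` be maximal with `Ce * Nf n * (Nat.log 2 w + 1) ^ 4 ≤ w` (`Nat.findGreatest` or `Nat.find` of the first
failure: the condition holds for all `n ≤ n1` when `w` is large (`polylog`), fails for `n = w` since `2 ^ n ≤ Nf n`); take the
first `n'` where it fails, `n = n' - 1`, `n ≥ n1`; `w < Ce * Nf (n + 1) * (..) ^ 4 ≤ Ce * c * Nf n * (..) ^ 4`.
`GP k (Nf n) (C n)` gives `E, Wv, ..` and `hP`. `embed` (loopless; `{e | src e = u ∨ tgt e = u}` has at most `k` elements: for loopless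
graphs it is contained in `bd src tgt {u}`; `hP.cW`) gives `r`, `P`, `κ := Ce * (Nat.log 2 w + 1)`.
`dd := Nat.clog 2 (D * κ + k + 1)`: `D * κ ≤ 2 ^ dd`, `k ≤ 2 ^ dd`, `2 ^ dd ≤ 2 * (D * κ + k + 1)` (see `hd2` in `H90/PE/FixE.lean`), so
`4 ^ dd ≤ 4 * (D * κ + k + 1) ^ 2 ≤ const * (Nat.log 2 w + 1) ^ 2`.
`glb0` with `S := ⌊S⌋₊`, `w := w'`, `d := d n` gives the derivation for the multigraph; `tfam`: `K ≤ w ^ ε ≤ Nf n ^ ε1` (`numg`);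
`S' := (⌊S⌋₊ + 1) * (ℓ' * 4 ^ dd * (2 * Nat.size (k * Nf n + K) + 2)) ≤ 2 * S * M₀`, `M₀ ≤ const * (Nat.log 2 w + 1) ^ 3`
(`Nat.size (k * Nf n + K) ≤ const * (Nat.log 2 w + 1)`, `K ≤ w`, `Nf n ≤ w`: `Nat.size m ≤ Nat.log 2 m + 1`, `k * w + w < 2 ^ (k + 1) * w`..);
`(Gs'.card + 1) ^ 2 * (w' + 1 + 1) * S' ≤ (2 * (Gs.card + 1)) ^ 2 * (2 * (w' + 1)) * (2 * S * M₀) ≤ 16 * M₀ * w ^ (2 - e0) ≤ Nf n ^ (2 - e0 / 2)`.
So `2 ^ (Nf n ^ ε1) ≤ L' ≤ (L + 1) * (ℓ' * 4 ^ dd) ≤ L * 2 ^ M₁` with `M₁ := Nat.clog 2 (2 * ℓ' * 4 ^ dd) + 1 ≤ const * (Nat.log 2 w + 1) ^ 2` (`1 ≤ L`), and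
`w ^ ε + M₁ ≤ Nf n ^ ε1`.
-/

namespace Pool.Agent.H55.AG

open Finset Classical Filter Topology Pool.Agent.H3.Frg Pool.Agent.H3.Frg2 Pool.Agent.H3.Frg4
  Pool.Agent.H90.UB Pool.Agent.H90.PC

private theorem exists_n {Ce c w n1 lg4 : ℕ} {Nf : ℕ → ℕ} (hCe : 1 ≤ Ce) (hlg : 1 ≤ lg4)
    (hNf : ∀ n, 2 ^ n ≤ Nf n ∧ Nf (n + 1) ≤ c * Nf n) (h1 : Ce * Nf n1 * lg4 ≤ w) :
    ∃ n, n1 ≤ n ∧ Ce * Nf n * lg4 ≤ w ∧ w < Ce * c * Nf n * lg4 ∧ Nf n ≤ w := by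
  have hle : ∀ n, Nf n ≤ Ce * Nf n * lg4 := fun n => by
    calc Nf n = 1 * Nf n * 1 := by ring
      _ ≤ Ce * Nf n * lg4 := Nat.mul_le_mul (Nat.mul_le_mul_right _ hCe) hlg
  by_contra hcon
  push Not at hcon
  have key : ∀ m, Ce * Nf (n1 + m) * lg4 ≤ w := by
    intro m
    induction m with
    | zero => exact h1
    | succ m ih =>
      by_contra h2
      push Not at h2
      have h3 : Ce * Nf (n1 + (m + 1)) * lg4 ≤ Ce * c * Nf (n1 + m) * lg4 := by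
        refine Nat.mul_le_mul_right _ ?_
        calc Ce * Nf (n1 + (m + 1)) ≤ Ce * (c * Nf (n1 + m)) :=
              Nat.mul_le_mul_left _ (hNf (n1 + m)).2
          _ = Ce * c * Nf (n1 + m) := by ring
      have h4 := hcon (n1 + m) (Nat.le_add_right _ _) ih (h2.trans_le h3)
      have h5 := (hle (n1 + m)).trans ih
      omega
  have h2 := key w
  have h3 := (hle (n1 + w)).trans h2
  have h4 := (hNf (n1 + w)).1
  have h5 : n1 + w < 2 ^ (n1 + w) := Nat.lt_two_pow_self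
  omega

private theorem four_dd {D Ce k lg dd : ℕ} (hlg : 1 ≤ lg)
    (hdd : 2 ^ dd ≤ 2 * (D * (Ce * lg) + k + 1)) :
    4 ^ dd ≤ 4 * (D * Ce + k + 1) ^ 2 * lg ^ 2 := by
  have h1 : D * (Ce * lg) + k + 1 ≤ (D * Ce + k + 1) * lg := by nlinarith
  have h2 : 2 ^ dd ≤ 2 * ((D * Ce + k + 1) * lg) := hdd.trans (Nat.mul_le_mul_left _ h1)
  calc 4 ^ dd = (2 ^ dd) ^ 2 := by
        rw [← pow_mul, mul_comm, pow_mul]
        norm_num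
    _ ≤ (2 * ((D * Ce + k + 1) * lg)) ^ 2 := Nat.pow_le_pow_left h2 2
    _ = 4 * (D * Ce + k + 1) ^ 2 * lg ^ 2 := by ring

private theorem clog_bd (x : ℕ) (hx : 1 ≤ x) : 2 ^ Nat.clog 2 x ≤ 2 * x := by
  rcases Nat.lt_or_ge 1 x with h | h
  · have h1 := Nat.pow_pred_clog_lt_self (b := 2) (by norm_num) h
    have h2 : 0 < Nat.clog 2 x := Nat.clog_pos (by norm_num) h
    have h3 : 2 ^ Nat.clog 2 x = 2 * 2 ^ (Nat.clog 2 x).pred := by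
      rw [← pow_succ']
      congr 1
      have := Nat.succ_pred_eq_of_pos h2
      exact this.symm
    omega
  · have h1 : x = 1 := by omega
    subst h1
    simp

private theorem size_bd {k N K w lg : ℕ} (hN : N ≤ w) (hK : K ≤ w) (hw : w < 2 ^ lg)
    (hlg : 1 ≤ lg) : 2 * Nat.size (k * N + K) + 2 ≤ (2 * k + 6) * lg := by
  have h1 : Nat.size (k * N + K) ≤ k + 1 + lg := by
    rw [Nat.size_le]
    have h2 : k + 1 < 2 ^ (k + 1) := Nat.lt_two_pow_self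
    calc k * N + K ≤ k * w + w := Nat.add_le_add (Nat.mul_le_mul_left _ hN) hK
      _ = (k + 1) * w := by ring
      _ < 2 ^ (k + 1) * 2 ^ lg := Nat.mul_lt_mul_of_lt_of_lt h2 hw
      _ = 2 ^ (k + 1 + lg) := by rw [← pow_add]
  nlinarith

theorem glb1 (D : ℕ) (e : ℝ) (he : 0 < e) : ∃ ε : ℝ, 0 < ε ∧ ∀ ℓ : ℕ, ∃ w0 : ℕ, ∀ w, w0 ≤ w →
    ∀ (V : Type) [Fintype V] (G : SimpleGraph V), G.Connected → (∀ v, (nbG G v).card ≤ D) →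
    ¬ TwLE G w → ∀ (ν : Sym2 V → ℕ), Set.InjOn ν G.edgeSet →
    ∀ (c : V → Bool), Odd (univ.filter fun v => c v = true).card →
    ∀ Sch : Set (Fm ℕ), (∀ ψ ∈ Sch, ψ.len ≤ ℓ ∧ ∀ x : ℕ → Bool, ψ.eval x = true) →
    ∀ (K : ℕ) (q : Fin K → ℕ) (Df : Fin K → Fm ℕ), (K : ℝ) ≤ (w : ℝ) ^ ε → ExtG G ν q Df →
    ∀ (L : ℕ) (pf : Fin L → Fm ℕ), IsDer Sch (Ts D G ν c ∪ ExtAx q Df) pf →
    (∃ i j, pf i = Fm.neg (pf j)) →
    ∀ (Gs : Finset (Fm ℕ)) (Q : Fin L → Finset (Fm ℕ)) (w' : ℕ) (S : ℝ), 1 ≤ S →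
      ((Gs.card : ℝ) + 1) ^ 2 * (w' + 1) * S ≤ (w : ℝ) ^ (2 - e) →
      (∀ i, (Q i).card ≤ w' ∧ ((∑ B ∈ Q i, B.enc.length : ℕ) : ℝ) ≤ S ∧
        BC {A | A ∈ Gs ∨ A ∈ Q i} (pf i)) →
      (2 : ℝ) ^ ((w : ℝ) ^ ε) ≤ L := by
  classical
  obtain ⟨e0, he0, he01, hee0⟩ : ∃ e0 : ℝ, 0 < e0 ∧ e0 ≤ 1 ∧ e0 ≤ e :=
    ⟨min e 1, by positivity, min_le_right _ _, min_le_left _ _⟩
  obtain ⟨k, c, ε1, hε1, dn, C, Nf, hNf, hT⟩ := tfam (e0 / 2) (by linarith)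
  obtain ⟨Ce, hCe1, hCe⟩ := embed D k
  refine ⟨min (ε1 / 2) 1, by positivity, ?_⟩
  intro ℓ
  obtain ⟨ℓ', hℓ'⟩ := glb0 D k ℓ
  obtain ⟨n1, hn1⟩ := eventually_atTop.1 (hT ℓ')
  obtain ⟨A, hA1, hA2, hA3⟩ : ∃ A : ℕ, Ce * c ≤ A ∧
      ℓ' * (4 * (D * Ce + k + 1) ^ 2) * (2 * k + 6) + 1 ≤ A ∧
      2 * ℓ' * (4 * (D * Ce + k + 1) ^ 2) ≤ A :=
    ⟨Ce * c + (ℓ' * (4 * (D * Ce + k + 1) ^ 2) * (2 * k + 6) + 1) +
      2 * ℓ' * (4 * (D * Ce + k + 1) ^ 2), by omega, by omega, by omega⟩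
  have hev := (numg e0 ε1 he0 he01 hε1 A 3).and ((polylog (Ce * Nf n1) 4 1 one_pos).and
    (eventually_ge_atTop 1))
  obtain ⟨w0, hw0⟩ := eventually_atTop.1 hev
  refine ⟨w0, ?_⟩
  intro w hw V _ G hG hdeg hTw ν hν ch hodd Sch hSch K q Df hK hExt L pf hpf hcon Gs Q w' S hS1
    hSw hQ
  obtain ⟨hnum, hpl, hw1⟩ := hw0 w hw
  obtain ⟨lg, hlgeq⟩ : ∃ lg, lg = Nat.log 2 w + 1 := ⟨_, rfl⟩
  have hlg : 1 ≤ lg := by omega
  have hwlg : w < 2 ^ lg := by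
    rw [hlgeq]
    exact Nat.lt_pow_succ_log_self (by norm_num) w
  rw [← hlgeq] at hpl hnum
  have hn1w : Ce * Nf n1 * lg ^ 4 ≤ w := by
    rw [Real.rpow_one] at hpl
    exact_mod_cast hpl
  obtain ⟨n, hn, hn2, hn3, hn4⟩ := exists_n (c := c) (Nf := Nf) hCe1 (Nat.one_le_pow _ _ hlg)
    (fun n => ⟨(hNf n).1, (hNf n).2.2⟩) hn1w
  obtain ⟨E, Wv, iE, iDE, iW, iDW, src, tgt, v1, v0, ψ, idx, hP⟩ := (hNf n).2.1
  have hwR : (1 : ℝ) ≤ (w : ℝ) := by exact_mod_cast hw1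
  have hNn : w < A * Nf n * lg ^ 4 := by
    refine hn3.trans_le (Nat.mul_le_mul_right _ (Nat.mul_le_mul_right _ hA1))
  obtain ⟨r, P, hr, hPe, hPj, hPc⟩ := hCe w V G hdeg hTw E Wv src tgt hP.loop
    (fun u => by
      refine le_trans (card_le_card ?_) (hP.deg u)
      intro f hf
      have hf2 : src f = u ∨ tgt f = u := by simpa using hf
      rw [mem_bd, mem_singleton, mem_singleton]
      intro h5
      rcases hf2 with h6 | h6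
      · exact hP.loop f (h6.trans (h5.1 h6).symm)
      · exact hP.loop f ((h5.2 h6).trans h6.symm))
    (by
      rw [hP.cW, ← hlgeq]
      exact hn2)
  rw [← hlgeq] at hPc
  obtain ⟨dd, hddeq⟩ : ∃ dd, dd = Nat.clog 2 (D * (Ce * lg) + k + 1) := ⟨_, rfl⟩
  have hdd1 : D * (Ce * lg) + k + 1 ≤ 2 ^ dd := by
    rw [hddeq]
    exact Nat.le_pow_clog (by norm_num) _
  have hdd2 : 2 ^ dd ≤ 2 * (D * (Ce * lg) + k + 1) := by
    rw [hddeq]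
    exact clog_bd _ (by omega)
  have h4dd := four_dd hlg hdd2
  obtain ⟨q', D', L', pf', Gs', Q', h1, h2, h3, h4, h5, h6⟩ := hℓ' E Wv src tgt v1 v0 ψ idx
    (Nf n) (C n) hP V G hG hdeg ν hν ch hodd r P (Ce * lg) dd hr hPe hPj
    (fun g => by
      refine le_trans (card_le_card ?_) (hPc g)
      intro f hf
      rw [mem_filter] at hf ⊢
      exact hf)
    (by omega) (by omega) Sch hSch K q Df hExt L pf hpf hcon Gs Q w' ⌊S⌋₊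
    (fun i => ⟨(hQ i).1, Nat.le_floor (hQ i).2.1, (hQ i).2.2⟩) (dn n)
  -- numbers
  have hKw : (K : ℝ) ≤ (w : ℝ) ^ (ε1 / 2) :=
    hK.trans (Real.rpow_le_rpow_of_exponent_le hwR (min_le_left _ _))
  have hKw1 : K ≤ w := by
    have h7 : (K : ℝ) ≤ (w : ℝ) ^ (1 : ℝ) :=
      hK.trans (Real.rpow_le_rpow_of_exponent_le hwR (min_le_right _ _))
    rw [Real.rpow_one] at h7
    exact_mod_cast h7
  obtain ⟨M0, hM0eq⟩ : ∃ M0, M0 = ℓ' * 4 ^ dd * (2 * Nat.size (k * Nf n + K) + 2) + 1 := ⟨_, rfl⟩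
  have hsz := size_bd (k := k) hn4 hKw1 hwlg hlg
  have hM0 : M0 ≤ A * lg ^ 3 := by
    have h7 : ℓ' * 4 ^ dd * (2 * Nat.size (k * Nf n + K) + 2) ≤
        ℓ' * (4 * (D * Ce + k + 1) ^ 2 * lg ^ 2) * ((2 * k + 6) * lg) :=
      Nat.mul_le_mul (Nat.mul_le_mul_left _ h4dd) hsz
    have h8 : 1 ≤ lg ^ 3 := Nat.one_le_pow _ _ hlg
    calc M0 ≤ ℓ' * (4 * (D * Ce + k + 1) ^ 2 * lg ^ 2) * ((2 * k + 6) * lg) + lg ^ 3 := by
          rw [hM0eq]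
          omega
      _ = (ℓ' * (4 * (D * Ce + k + 1) ^ 2) * (2 * k + 6) + 1) * lg ^ 3 := by ring
      _ ≤ A * lg ^ 3 := Nat.mul_le_mul_right _ hA2
  obtain ⟨M1, hM1eq⟩ : ∃ M1, M1 = 2 * ℓ' * 4 ^ dd := ⟨_, rfl⟩
  have hM1 : M1 ≤ A * lg ^ 3 := by
    calc M1 ≤ 2 * ℓ' * (4 * (D * Ce + k + 1) ^ 2 * lg ^ 2) := by
          rw [hM1eq]
          exact Nat.mul_le_mul_left _ h4dd
      _ = 2 * ℓ' * (4 * (D * Ce + k + 1) ^ 2) * lg ^ 2 := by ring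
      _ ≤ A * lg ^ 2 := Nat.mul_le_mul_right _ hA3
      _ ≤ A * lg ^ 3 := Nat.mul_le_mul_left _ (Nat.pow_le_pow_right hlg (by norm_num))
  obtain ⟨hnA, -, -⟩ := hnum (Nf n) hNn hn4 M0 hM0
  obtain ⟨-, hnB, -⟩ := hnum (Nf n) hNn hn4 M1 hM1
  have hKN : (K : ℝ) ≤ (Nf n : ℝ) ^ ε1 := by
    have h7 : (0 : ℝ) ≤ (M1 : ℝ) := Nat.cast_nonneg _
    linarith
  have hM01 : 1 ≤ M0 := by omega
  have hfin := hn1 n hn (S0 ℓ') (fun ψ hψ => hψ) K q' D' hKN h1 L' pf' h2 h3 Gs' Q' (w' + 1)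
    (((⌊S⌋₊ + 1) * M0 : ℕ) : ℝ) (by
      have h7 : 1 ≤ (⌊S⌋₊ + 1) * M0 := Nat.mul_pos (Nat.succ_pos _) hM01
      exact_mod_cast h7) (by
      have hfl : ((⌊S⌋₊ : ℕ) : ℝ) ≤ S := Nat.floor_le (by linarith)
      have g1 : (((⌊S⌋₊ + 1) * M0 : ℕ) : ℝ) ≤ 2 * S * M0 := by
        push_cast
        refine mul_le_mul_of_nonneg_right (by linarith) (Nat.cast_nonneg _)
      have g2 : ((Gs'.card : ℝ) + 1) ≤ 2 * ((Gs.card : ℝ) + 1) := by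
        have h7 : (Gs'.card : ℝ) ≤ (Gs.card : ℝ) + 1 := by exact_mod_cast h5
        have h8 : (0 : ℝ) ≤ (Gs.card : ℝ) := Nat.cast_nonneg _
        linarith
      have g3 : (((w' + 1 : ℕ) : ℝ) + 1) ≤ 2 * ((w' : ℝ) + 1) := by
        push_cast
        have h8 : (0 : ℝ) ≤ (w' : ℝ) := Nat.cast_nonneg _
        linarith
      have g4 : (w : ℝ) ^ (2 - e) ≤ (w : ℝ) ^ (2 - e0) :=
        Real.rpow_le_rpow_of_exponent_le hwR (by linarith)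
      have g5 : ((Gs.card : ℝ) + 1) ^ 2 * (w' + 1) * S ≤ (w : ℝ) ^ (2 - e0) := hSw.trans g4
      have p1 : (0 : ℝ) ≤ (Gs'.card : ℝ) + 1 := by positivity
      have p2 : (0 : ℝ) ≤ ((w' + 1 : ℕ) : ℝ) + 1 := by positivity
      have p3 : (0 : ℝ) ≤ (((⌊S⌋₊ + 1) * M0 : ℕ) : ℝ) := by positivity
      have p4 : (0 : ℝ) ≤ S := by linarith
      calc ((Gs'.card : ℝ) + 1) ^ 2 * (((w' + 1 : ℕ) : ℝ) + 1) * (((⌊S⌋₊ + 1) * M0 : ℕ) : ℝ)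
          ≤ (2 * ((Gs.card : ℝ) + 1)) ^ 2 * (2 * ((w' : ℝ) + 1)) * (2 * S * M0) := by
            refine mul_le_mul (mul_le_mul (pow_le_pow_left₀ p1 g2 2) g3 p2 (by positivity)) g1 p3
              (by positivity)
        _ = 16 * (M0 : ℝ) * (((Gs.card : ℝ) + 1) ^ 2 * (w' + 1) * S) := by ring
        _ ≤ 16 * (M0 : ℝ) * (w : ℝ) ^ (2 - e0) :=
            mul_le_mul_of_nonneg_left g5 (by positivity)
        _ ≤ (Nf n : ℝ) ^ (2 - e0 / 2) := hnA)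
    (fun i => ⟨(h6 i).1, by
      have h7 : ∑ B ∈ Q' i, B.enc.length ≤ (⌊S⌋₊ + 1) * M0 := by
        refine (h6 i).2.1.trans (Nat.mul_le_mul_left _ ?_)
        omega
      exact_mod_cast h7, (h6 i).2.2⟩)
  -- conclusion
  have hL1 : 1 ≤ L := by
    obtain ⟨i, -⟩ := hcon
    exact Nat.lt_of_le_of_lt (Nat.zero_le _) i.2
  have hL' : L' ≤ L * 2 ^ M1 := by
    have h7 : M1 ≤ 2 ^ M1 := Nat.lt_two_pow_self.le
    calc L' ≤ (L + 1) * (ℓ' * 4 ^ dd) := h4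
      _ ≤ (2 * L) * (ℓ' * 4 ^ dd) := Nat.mul_le_mul_right _ (by omega)
      _ = L * M1 := by rw [hM1eq]; ring
      _ ≤ L * 2 ^ M1 := Nat.mul_le_mul_left _ h7
  have h7 : (2 : ℝ) ^ ((Nf n : ℝ) ^ ε1) ≤ (L : ℝ) * 2 ^ (M1 : ℝ) := by
    refine hfin.trans ?_
    rw [Real.rpow_natCast]
    exact_mod_cast hL'
  have h8 : (2 : ℝ) ^ ((w : ℝ) ^ (ε1 / 2)) * 2 ^ (M1 : ℝ) ≤ (L : ℝ) * 2 ^ (M1 : ℝ) := by
    rw [← Real.rpow_add (by norm_num)]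
    exact (Real.rpow_le_rpow_of_exponent_le (by norm_num) hnB).trans h7
  have h9 : (2 : ℝ) ^ ((w : ℝ) ^ (ε1 / 2)) ≤ L :=
    le_of_mul_le_mul_right h8 (Real.rpow_pos_of_pos (by norm_num) _)
  exact (Real.rpow_le_rpow_of_exponent_le (by norm_num)
    (Real.rpow_le_rpow_of_exponent_le hwR (min_le_left _ _))).trans h9

end Pool.Agent.H55.AG
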