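import Mathlib
import Pool.Agent.H55.AG.GLBB

set_option autoImplicit false
set_option linter.unusedSectionVars false

/-!
# Module GLBC: the lower bound for all graphs, both forms

PROOF. As the last part of `finalE` (`H90/PE/FinE.lean`). `glb1 D (e / 2)` (or `min e 1 / 2`) gives `ε`. The second clause: monotonicity of `w ^ (2 - e)` in
`e` (`w ≥ 1`). The first clause: suppose at most `N` different lines are longer than `x := w ^ (2 - e) / N ^ 2`. `Gs` := these lines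
(a finset), `Q i := if pf i ∈ Gs then ∅ else {pf i}`, `w' := 1`, `S := w ^ (2 - e) / N ^ 2 ≥ 1` (`N ≤ w ^ (1 - e)`);
`(Gs.card + 1) ^ 2 * 2 * S ≤ (2 * N) ^ 2 * 2 * S = 8 * w ^ (2 - e) ≤ w ^ (2 - e / 2)` for large `w`. (`N ≤ w ^ (1 - e)` and `1 ≤ N` force
`w ^ (1 - e) ≥ 1`, so `2 - e ≥ 1`.)
-/

namespace Pool.Agent.H55.AG

open Finset Classical Filter Topology Pool.Agent.H3.Frg Pool.Agent.H3.Frg2 Pool.Agent.H3.Frg4
  Pool.Agent.H90.UB Pool.Agent.H90.PC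

theorem glb2 (D : ℕ) (e : ℝ) (he : 0 < e) : ∃ ε : ℝ, 0 < ε ∧ ∀ ℓ : ℕ, ∃ w0 : ℕ, ∀ w, w0 ≤ w →
    ∀ (V : Type) [Fintype V] (G : SimpleGraph V), G.Connected → (∀ v, (nbG G v).card ≤ D) →
    ¬ TwLE G w → ∀ (ν : Sym2 V → ℕ), Set.InjOn ν G.edgeSet →
    ∀ (c : V → Bool), Odd (univ.filter fun v => c v = true).card →
    ∀ Sch : Set (Fm ℕ), (∀ ψ ∈ Sch, ψ.len ≤ ℓ ∧ ∀ x : ℕ → Bool, ψ.eval x = true) →
    ∀ (K : ℕ) (q : Fin K → ℕ) (Df : Fin K → Fm ℕ), (K : ℝ) ≤ (w : ℝ) ^ ε → ExtG G ν q Df →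
    ∀ (L : ℕ) (pf : Fin L → Fm ℕ), IsDer Sch (Ts D G ν c ∪ ExtAx q Df) pf →
    (∃ i j, pf i = Fm.neg (pf j)) →
    ((L : ℝ) < (2 : ℝ) ^ ((w : ℝ) ^ ε) → ∀ N : ℕ, 1 ≤ N → (N : ℝ) ≤ (w : ℝ) ^ (1 - e) →
      N < {A | (∃ i, A = pf i) ∧
        (w : ℝ) ^ (2 - e) / (N : ℝ) ^ 2 < (A.enc.length : ℝ)}.ncard) ∧
    ∀ (Gs : Finset (Fm ℕ)) (Q : Fin L → Finset (Fm ℕ)) (w' : ℕ) (S : ℝ), 1 ≤ S →
      ((Gs.card : ℝ) + 1) ^ 2 * (w' + 1) * S ≤ (w : ℝ) ^ (2 - e) →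
      (∀ i, (Q i).card ≤ w' ∧ ((∑ B ∈ Q i, B.enc.length : ℕ) : ℝ) ≤ S ∧
        BC {A | A ∈ Gs ∨ A ∈ Q i} (pf i)) →
      (2 : ℝ) ^ ((w : ℝ) ^ ε) ≤ L := by
  obtain ⟨ε, hε, H⟩ := glb1 D (e / 2) (by linarith)
  refine ⟨ε, hε, fun ℓ => ?_⟩
  obtain ⟨w1, hw1⟩ := H ℓ
  have hx : Tendsto (fun n : ℕ => (n : ℝ) ^ (e / 2)) atTop atTop :=
    (tendsto_rpow_atTop (by linarith)).comp tendsto_natCast_atTop_atTop
  obtain ⟨w2, hw2⟩ := eventually_atTop.1 (hx.eventually_ge_atTop 8)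
  refine ⟨max (max w1 w2) 1, ?_⟩
  intro w hw V _ G hG hdeg htw ν hν c hc Sch hSch K q Df hK hExt L pf hpf hfin
  have hww1 : w1 ≤ w := le_trans (le_trans (le_max_left _ _) (le_max_left _ _)) hw
  have hww2 : w2 ≤ w := le_trans (le_trans (le_max_right _ _) (le_max_left _ _)) hw
  have hw0 : 1 ≤ w := le_trans (le_max_right _ _) hw
  have hx8 : (8 : ℝ) ≤ (w : ℝ) ^ (e / 2) := hw2 w hww2
  obtain ⟨x, hxdef⟩ : ∃ x : ℝ, x = (w : ℝ) := ⟨_, rfl⟩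
  have hx1' : (1 : ℝ) ≤ x := by
    rw [hxdef]
    exact_mod_cast hw0
  have hx0 : (0 : ℝ) < x := by linarith
  have hn := hw1 w hww1 V G hG hdeg htw ν hν c hc Sch hSch K q Df hK hExt L pf hpf hfin
  rw [← hxdef] at hx8 hn ⊢
  -- the general form
  have gen : ∀ (Gs : Finset (Fm ℕ)) (Q : Fin L → Finset (Fm ℕ)) (w' : ℕ) (S : ℝ), 1 ≤ S →
      ((Gs.card : ℝ) + 1) ^ 2 * (w' + 1) * S ≤ 8 * x ^ (2 - e) →
      (∀ i, (Q i).card ≤ w' ∧ ((∑ B ∈ Q i, B.enc.length : ℕ) : ℝ) ≤ S ∧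
        BC {A | A ∈ Gs ∨ A ∈ Q i} (pf i)) → (2 : ℝ) ^ (x ^ ε) ≤ L := by
    intro Gs Q w' S hS1 hS2 hQ
    refine hn Gs Q w' S hS1 (hS2.trans ?_) hQ
    have h8 : x ^ (e / 2) * x ^ (2 - e) = x ^ (2 - e / 2) := by
      rw [← Real.rpow_add hx0]
      congr 1
      ring
    rw [← h8]
    exact mul_le_mul_of_nonneg_right hx8 (by positivity)
  refine ⟨?_, fun Gs Q w' S hS1 hw' hQ => gen Gs Q w' S hS1 (hw'.trans ?_) hQ⟩
  · intro hL N hN hNx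
    by_contra hcon
    push Not at hcon
    have hN0 : (0 : ℝ) < N := by exact_mod_cast hN
    have hN1 : (1 : ℝ) ≤ N := by exact_mod_cast hN
    obtain ⟨Gs, hGd⟩ : ∃ Gs : Finset (Fm ℕ), Gs = (Finset.univ.image pf).filter
      (fun A => x ^ (2 - e) / (N : ℝ) ^ 2 < (A.enc.length : ℝ)) := ⟨_, rfl⟩
    have hGs : {A | (∃ i, A = pf i) ∧ x ^ (2 - e) / (N : ℝ) ^ 2 < (A.enc.length : ℝ)} =
        (Gs : Set (Fm ℕ)) := by
      ext A
      rw [hGd, Finset.coe_filter]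
      simp only [Set.mem_ofPred_eq, Finset.mem_image, Finset.mem_univ, true_and]
      constructor
      · rintro ⟨⟨i, hi⟩, h⟩
        exact ⟨⟨i, hi.symm⟩, h⟩
      · rintro ⟨⟨i, hi⟩, h⟩
        exact ⟨⟨i, hi.symm⟩, h⟩
    have hGc : (Gs.card : ℝ) ≤ N := by
      rw [hGs, Set.ncard_coe_finset] at hcon
      exact_mod_cast hcon
    have hSS : 1 ≤ x ^ (2 - e) / (N : ℝ) ^ 2 := by
      rw [le_div_iff₀ (by positivity), one_mul]
      calc (N : ℝ) ^ 2 ≤ (x ^ (1 - e)) ^ 2 := pow_le_pow_left₀ hN0.le hNx 2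
        _ = x ^ (2 * (1 - e)) := by
            rw [← Real.rpow_natCast, ← Real.rpow_mul hx0.le]
            congr 1
            push_cast
            ring
        _ ≤ _ := Real.rpow_le_rpow_of_exponent_le hx1' (by linarith)
    have key := gen Gs (fun i => if pf i ∈ Gs then ∅ else {pf i}) 1
      (x ^ (2 - e) / (N : ℝ) ^ 2) hSS ?_ ?_
    · exact absurd key (not_le.2 hL)
    · have h9 : ((Gs.card : ℝ) + 1) ^ 2 ≤ (2 * N) ^ 2 := by
        apply pow_le_pow_left₀ (by positivity)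
        linarith
      have h10 : ((Gs.card : ℝ) + 1) ^ 2 * (((1 : ℕ) : ℝ) + 1) * (x ^ (2 - e) / (N : ℝ) ^ 2) ≤
          (2 * N) ^ 2 * 2 * (x ^ (2 - e) / (N : ℝ) ^ 2) := by
        apply mul_le_mul_of_nonneg_right _ (by linarith)
        push_cast
        linarith
      refine h10.trans (le_of_eq ?_)
      field_simp
      ring
    · intro i
      by_cases hi : pf i ∈ Gs
      · simp only [if_pos hi]
        refine ⟨by simp, by simp; linarith, BC.base _ (Or.inl hi)⟩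
      · simp only [if_neg hi]
        refine ⟨by simp, ?_, BC.base _ (Or.inr (Finset.mem_singleton_self _))⟩
        rw [Finset.sum_singleton]
        by_contra h
        push Not at h
        apply hi
        rw [hGd, Finset.mem_filter]
        exact ⟨Finset.mem_image_of_mem _ (Finset.mem_univ _), h⟩
  · have : (0 : ℝ) < x ^ (2 - e) := by positivity
    linarith

end Pool.Agent.H55.AG
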