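import Mathlib
import Pool.Agent.H55.AG.Defs

set_option autoImplicit false

/-!
# Module TDTW (Mathlib + Defs only): from an elimination ordering to a nice tree decomposition

PROOF. `td_grow`: from `TD G k F B` with `B ⊆ B'`, `B'.card ≤ k + 1`, `Disjoint F B'` get `TD G k F B'`: insert the elements of
`B' \ B` one by one (induction on a subset, `intro`; before inserting, the bag is a proper subset of `B'`, so it has `≤ k` elements).
Fix `H`, `ord` from `TwLE`; `Pre v := univ.filter fun u => H.Adj u v ∧ ord u < ord v`, `(Pre v).card ≤ k` (`Set.ncard_eq_toFinset_card'` or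
`Set.ncard_coe_finset`). CLAIM (strong induction on `F.card`): let `F`, `B` be finsets with
(1) `u ∈ F`, `H.Adj u x`, `ord u < ord x` imply `x ∈ F`; (2) `u ∈ F`, `x ∈ Pre u` imply `x ∈ F ∨ x ∈ B`; (3) `Disjoint F B`; (4) `B.card ≤ k + 1`.
Then `TD G k F B`.
`F = ∅`: `nil` and `td_grow`. Otherwise let `v ∈ F` with `ord v` minimal (`Finset.exists_min_image`), so `Pre v` is disjoint from `F`, `Pre v ⊆ B`.
`D := F.filter fun u => ReflTransGen (fun a b => b ∈ Pre a ∧ b ∈ F) u v` (descending paths in `F` that end in `v`), `v ∈ D`.
 (a) if `u ∈ D`, `x ∈ F`, `H.Adj u x` then `x ∈ D`: if `ord u < ord x`: the step `x → u` is allowed (`ReflTransGen.head`). If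
`ord x < ord u`: head induction on the path of `u` (statement for all `u`): `u = v` is impossible (minimality); otherwise the path starts with
`u → u₁`, `u₁, x ∈ Pre u`: `x = u₁` is in `D`, or `H.Adj x u₁` (clique) and then `x → u₁` is allowed if `ord u₁ < ord x`, and the induction hypothesis
for `u₁` applies if `ord x < ord u₁` (`ord` is injective).
 (b) if `u ∈ D`, `x ∉ F`, `H.Adj u x` then `x ∈ Pre v`: `ord x < ord u` by (1). Same induction: `u = v`: clear. Otherwise `u₁, x ∈ Pre u`,
`x ≠ u₁` (`x ∉ F`), `H.Adj x u₁`; `ord x < ord u₁` by (1) (`x ∉ F`); induction hypothesis.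
Induction hypothesis for `F \ D`, `B`: (1) by (a) (if `u ∈ F \ D`, `x` a later neighbour then `x ∈ F`, and `x ∉ D` by (a)); (2) similarly: an
`x ∈ Pre u` in `F` is not in `D`. For `D.erase v` with the bag `insert v (Pre v)` (`card ≤ k + 1`): (1) `x ∈ F`, so `x ∈ D` by (a), `x ≠ v`
(minimality); (2) `x ∈ Pre u`: in `F`: `x ∈ D` by (a), so `x ∈ D.erase v` or `x = v`; not in `F`: (b); (3) `Pre v` is disjoint from `F`. Then `forget`: for
`G.Adj v u`: `H.Adj v u`, `ord v < ord u`: `u ∈ F` by (1), `u ∈ D` by (a), `u ≠ v`; `ord u < ord v`: `u ∈ Pre v`. This gives `TD G k D (Pre v)`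
(`insert v (D.erase v) = D`), `td_grow` to `B` (`Pre v ⊆ B`), `join` with `F \ D` (no `G`-edges between: (a)), `D ∪ (F \ D) = F`.
Apply the claim to `univ`, `∅`.
-/

namespace Pool.Agent.H55.AG

open Finset Classical

theorem td_grow {V : Type} {G : SimpleGraph V} {k : ℕ} {F B B' : Finset V} (h : TD G k F B)
    (hB : B ⊆ B') (hc : B'.card ≤ k + 1) (hd : Disjoint F B') : TD G k F B' := by
  have key : ∀ C : Finset V, C ⊆ B' \ B → TD G k F (B ∪ C) := by
    intro C
    induction C using Finset.induction_on with
    | empty =>
      intro _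
      rw [union_empty]
      exact h
    | insert a C ha ih =>
      intro hC
      have h1 : C ⊆ B' \ B := fun x hx => hC (mem_insert_of_mem hx)
      have h2 : a ∈ B' \ B := hC (mem_insert_self _ _)
      have h3 := mem_sdiff.1 h2
      have h4 : a ∉ B ∪ C := by
        rw [mem_union]
        exact not_or.2 ⟨h3.2, ha⟩
      have h5 : a ∉ F := fun h6 => (Finset.disjoint_left.1 hd) h6 h3.1
      have h6 : (B ∪ C).card ≤ k := by
        have h7 : (insert a (B ∪ C)).card ≤ B'.card := by
          refine card_le_card ?_
          intro x hx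
          rcases mem_insert.1 hx with hx | hx
          · rw [hx]
            exact h3.1
          · rcases mem_union.1 hx with hx | hx
            · exact hB hx
            · exact (mem_sdiff.1 (h1 hx)).1
        rw [card_insert_of_notMem h4] at h7
        omega
      have h8 := TD.intro F (B ∪ C) a (ih h1) h5 h4 h6
      have h9 : insert a (B ∪ C) = B ∪ insert a C := by
        ext x
        simp only [mem_insert, mem_union]
        tauto
      rwa [h9] at h8
  have h1 := key (B' \ B) (Subset.refl _)
  rwa [union_sdiff_of_subset hB] at h1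

theorem td_of_tw {V : Type} [Fintype V] {G : SimpleGraph V} {k : ℕ} (h : TwLE G k) :
    TD G k univ ∅ := by
  obtain ⟨H, ord, hGH, hinj, hv⟩ := h
  have hcl : ∀ v x y, H.Adj x v → ord x < ord v → H.Adj y v → ord y < ord v → x ≠ y →
      H.Adj x y := by
    intro v x y h1 h2 h3 h4 h5
    exact (hv v).1 ⟨h1, h2⟩ ⟨h3, h4⟩ h5
  obtain ⟨Pre, hPre⟩ : ∃ Pre : V → Finset V, ∀ v u, u ∈ Pre v ↔ H.Adj u v ∧ ord u < ord v :=
    ⟨fun v => univ.filter fun u => H.Adj u v ∧ ord u < ord v, fun v u => by simp⟩
  have hcard : ∀ v, (Pre v).card ≤ k := by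
    intro v
    have h1 : ((Pre v : Finset V) : Set V) = {u | H.Adj u v ∧ ord u < ord v} := by
      ext u
      exact hPre v u
    have h2 := (hv v).2
    rw [← h1, Set.ncard_coe_finset] at h2
    exact h2
  have claim : ∀ m : ℕ, ∀ F B : Finset V, F.card ≤ m →
      (∀ u ∈ F, ∀ x, H.Adj u x → ord u < ord x → x ∈ F) →
      (∀ u ∈ F, ∀ x ∈ Pre u, x ∈ F ∨ x ∈ B) → Disjoint F B → B.card ≤ k + 1 → TD G k F B := by
    intro m
    induction m with
    | zero =>
      intro F B hF _ _ hd hB
      have h0 : F = ∅ := card_eq_zero.1 (by omega)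
      subst h0
      exact td_grow TD.nil (empty_subset _) hB hd
    | succ m ih =>
      intro F B hF hc1 hc2 hd hB
      rcases F.eq_empty_or_nonempty with h0 | hne
      · subst h0
        exact td_grow TD.nil (empty_subset _) hB hd
      obtain ⟨v, hvF, hmin⟩ := exists_min_image F ord hne
      have hlt : ∀ x ∈ F, x ≠ v → ord v < ord x := fun x hx hxv =>
        lt_of_le_of_ne (hmin x hx) fun h => hxv (hinj h).symm
      have hPF : ∀ x ∈ Pre v, x ∉ F := by
        intro x hx hxF
        have h1 := ((hPre v x).1 hx).2
        have h2 := hmin x hxF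
        omega
      set R : V → V → Prop := fun a b => b ∈ Pre a ∧ b ∈ F with hR
      have ha : ∀ u, Relation.ReflTransGen R u v → u ∈ F → ∀ x ∈ F, H.Adj u x →
          Relation.ReflTransGen R x v := by
        intro u hu
        induction hu using Relation.ReflTransGen.head_induction_on with
        | refl =>
          intro _ x hx hadj
          have h1 := hlt x hx hadj.ne'
          exact Relation.ReflTransGen.single ⟨(hPre x v).2 ⟨hadj, h1⟩, hvF⟩
        | head h' h ih' =>
          rename_i a c
          intro haF x hx hadj
          have hca := (hPre a c).1 h'.1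
          rcases lt_trichotomy (ord a) (ord x) with h1 | h1 | h1
          · exact Relation.ReflTransGen.head (⟨(hPre x a).2 ⟨hadj, h1⟩, haF⟩ : R x a)
              (Relation.ReflTransGen.head h' h)
          · exact absurd (hinj h1) hadj.ne
          · by_cases hxc : x = c
            · rw [hxc]
              exact h
            · exact ih' h'.2 x hx (hcl a c x hca.1 hca.2 hadj.symm h1 (Ne.symm hxc))
      have hb : ∀ u, Relation.ReflTransGen R u v → u ∈ F → ∀ x, x ∉ F → H.Adj u x →
          x ∈ Pre v := by
        intro u hu
        induction hu using Relation.ReflTransGen.head_induction_on with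
        | refl =>
          intro _ x hx hadj
          have h1 : ord x < ord v := by
            rcases lt_trichotomy (ord v) (ord x) with h1 | h1 | h1
            · exact absurd (hc1 v hvF x hadj h1) hx
            · exact absurd (hinj h1) hadj.ne
            · exact h1
          exact (hPre v x).2 ⟨hadj.symm, h1⟩
        | head h' h ih' =>
          rename_i a c
          intro haF x hx hadj
          have hca := (hPre a c).1 h'.1
          have h1 : ord x < ord a := by
            rcases lt_trichotomy (ord a) (ord x) with h1 | h1 | h1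
            · exact absurd (hc1 a haF x hadj h1) hx
            · exact absurd (hinj h1) hadj.ne
            · exact h1
          have hxc : x ≠ c := fun h2 => hx (h2 ▸ h'.2)
          exact ih' h'.2 x hx (hcl a c x hca.1 hca.2 hadj.symm h1 (Ne.symm hxc))
      obtain ⟨D, hD⟩ : ∃ D : Finset V, ∀ u, u ∈ D ↔ u ∈ F ∧ Relation.ReflTransGen R u v :=
        ⟨F.filter fun u => Relation.ReflTransGen R u v, fun u => by simp⟩
      have hvD : v ∈ D := (hD v).2 ⟨hvF, Relation.ReflTransGen.refl⟩
      have hDF : D ⊆ F := fun x hx => ((hD x).1 hx).1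
      have hDa : ∀ u ∈ D, ∀ x ∈ F, H.Adj u x → x ∈ D := by
        intro u hu x hx hadj
        have h1 := (hD u).1 hu
        exact (hD x).2 ⟨hx, ha u h1.2 h1.1 x hx hadj⟩
      have hDb : ∀ u ∈ D, ∀ x, x ∉ F → H.Adj u x → x ∈ Pre v := by
        intro u hu x hx hadj
        have h1 := (hD u).1 hu
        exact hb u h1.2 h1.1 x hx hadj
      have hpv : v ∉ Pre v := by
        intro h1
        exact absurd ((hPre v v).1 h1).2 (lt_irrefl _)
      -- the rest
      have t1 : TD G k (F \ D) B := by
        refine ih (F \ D) B ?_ ?_ ?_ ?_ hB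
        · have h1 : F \ D ⊆ F.erase v := by
            intro x hx
            have h2 := mem_sdiff.1 hx
            exact mem_erase.2 ⟨fun h3 => h2.2 (h3 ▸ hvD), h2.1⟩
          have h2 := card_le_card h1
          rw [card_erase_of_mem hvF] at h2
          omega
        · intro u hu x hadj hlt'
          have h2 := mem_sdiff.1 hu
          refine mem_sdiff.2 ⟨hc1 u h2.1 x hadj hlt', fun h3 => ?_⟩
          exact h2.2 (hDa x h3 u h2.1 hadj.symm)
        · intro u hu x hx
          have h2 := mem_sdiff.1 hu
          rcases hc2 u h2.1 x hx with h3 | h3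
          · left
            refine mem_sdiff.2 ⟨h3, fun h4 => ?_⟩
            exact h2.2 (hDa x h4 u h2.1 ((hPre u x).1 hx).1)
          · exact Or.inr h3
        · exact hd.mono_left sdiff_subset
      have t2 : TD G k (D.erase v) (insert v (Pre v)) := by
        refine ih (D.erase v) (insert v (Pre v)) ?_ ?_ ?_ ?_ ?_
        · have h2 := card_le_card hDF
          rw [card_erase_of_mem hvD]
          omega
        · intro u hu x hadj hlt'
          have h2 := mem_erase.1 hu
          refine mem_erase.2 ⟨?_, hDa u h2.2 x (hc1 u (hDF h2.2) x hadj hlt') hadj⟩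
          intro h3
          have h4 := hmin u (hDF h2.2)
          rw [h3] at hlt'
          omega
        · intro u hu x hx
          have h2 := mem_erase.1 hu
          have h3 := (hPre u x).1 hx
          by_cases hxv : x = v
          · right
            rw [hxv]
            exact mem_insert_self _ _
          · by_cases hxF : x ∈ F
            · left
              exact mem_erase.2 ⟨hxv, hDa u h2.2 x hxF h3.1.symm⟩
            · right
              exact mem_insert_of_mem (hDb u h2.2 x hxF h3.1.symm)
        · rw [Finset.disjoint_left]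
          intro x hx hx'
          have h2 := mem_erase.1 hx
          rcases mem_insert.1 hx' with h3 | h3
          · exact h2.1 h3
          · exact hPF x h3 (hDF h2.2)
        · have h2 := card_insert_le v (Pre v)
          have h3 := hcard v
          omega
      have t3 : TD G k D (Pre v) := by
        have h1 := TD.forget (D.erase v) (Pre v) v t2 hpv (notMem_erase _ _) (by
          intro u hu
          have hadj : H.Adj v u := hGH hu
          rcases lt_trichotomy (ord v) (ord u) with h1 | h1 | h1
          · left
            exact mem_erase.2 ⟨hadj.ne', hDa v hvD u (hc1 v hvF u hadj h1) hadj⟩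
          · exact absurd (hinj h1) hadj.ne
          · right
            exact (hPre v u).2 ⟨hadj.symm, h1⟩)
        rwa [insert_erase hvD] at h1
      have t4 : TD G k D B := by
        refine td_grow t3 ?_ hB (hd.mono_left hDF)
        intro x hx
        rcases hc2 v hvF x hx with h3 | h3
        · exact absurd h3 (hPF x hx)
        · exact h3
      have t5 := TD.join D (F \ D) B t4 t1 disjoint_sdiff (by
        intro u hu x hx hadj
        have h2 := mem_sdiff.1 hx
        exact h2.2 (hDa u hu x h2.1 (hGH hadj)))
      rwa [union_sdiff_of_subset hDF] at t5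
  exact claim (univ : Finset V).card univ ∅ le_rfl (fun _ _ x _ _ => mem_univ x)
    (fun _ _ x _ => Or.inl (mem_univ x)) (Finset.disjoint_empty_right _) (by simp)

end Pool.Agent.H55.AG
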