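import Mathlib
import Pool.Agent.H90.UB.Bal
import Pool.Agent.H55.AG.Defs

set_option autoImplicit false
set_option linter.unusedSectionVars false

/-!
# Module UBTD: adding the equations of the vertices along a tree decomposition, all lines short

PROOF. `bdm_union`: an edge `s(x, y)` (`μ` is injective on the edges) is in `bdm G μ F` iff exactly one of `x`, `y` is in `F`: lemma
`mem_bdm (h : G.Adj x y) : μ s(x, y) ∈ bdm G μ F ↔ ¬ (x ∈ F ↔ y ∈ F)`, and all elements of `bdm` are of this form. For disjoint `A`, `B`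
check the cases (`Finset.mem_symmDiff`). `bdm_card`: every edge that leaves `F` has exactly one end in `B`: the map `p ↦ μ s(p.1, p.2)`
on `cutG G F`, `p.2 ∈ B`, `p.1 ∈ nbG G p.2`: `cutG G F` injects in the sigma of `nbG G b`, `b ∈ B`: `card ≤ ∑ b ∈ B, (nbG G b).card ≤ B.card * D`.
`td_inv`: induction on `TD` (`Finset.card_insert_le`).
`ubtd`. `K1 := 2 * 2 ^ dd * (4 * dd + 6) + 3`, `K := n0 + K1 + 5`. Induction on `TD`, for all `l`.
`nil`: `ex_nbot` gives `¬ (T dd fun _ => bot v0)`, this is `sgn false (Bal dd v0 (bdm G μ ∅))`; `n = 1`.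
`intro`: same `F`.
`forget` (`F`, `B`, `v`): the induction hypothesis (`F`, `insert v B`), `hstar v`, `baladd` with `A = bdm F`, `A' = bdm {v}`, `A'' = bdm (insert v F)`
(`bdm_union`, `v ∉ F`; all have at most `D * (k + 1) ≤ 2 ^ dd` elements by `td_inv`, `bdm_card`; `bdm {v}`: edges to `nbG G v`, at most `D`
elements: `bdm {v}` is an image of `nbG G v`), then `s_merge` (`UB/Xo.lean`: from `sgn c1 P`, `sgn c2 Q`, `Z3 P Q R` the line `sgn (xor c1 c2) R`;
`inf3`, 4 lines; length as in `merge` in `UB/Merge.lean`). `odF (insert v F) = xor (odF F) (c v)`.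
Count: `F = ∅`: `1 + n0 + K1 + 4 ≤ K = 2 * K * 1 - K`; `F ≠ ∅`: `n + K ≤ 2 * K * F.card`, so `(n + n0 + K1 + 4) + K ≤ 2 * K * (F.card + 1)`.
`join`: if `F = ∅` or `F' = ∅` the union is the other one. Otherwise `baladd`, `s_merge`:
`n + n' + K1 + 4 + K ≤ (n + K) + (n' + K) ≤ 2 * K * (F.card + F'.card)`.
-/

namespace Pool.Agent.H55.AG

open Finset Classical Pool.Agent.H3.Frg Pool.Agent.H3.Frg2 Pool.Agent.H3.Frg4 Pool.Agent.H90.UB

/-- the variables of the edges that leave `F` -/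
noncomputable def bdm {V V' : Type} [Fintype V] [DecidableEq V'] (G : SimpleGraph V)
    (μ : Sym2 V → V') (F : Finset V) : Finset V' := (cutG G F).image fun p => μ s(p.1, p.2)

/-- the charge of `F` -/
noncomputable def odF {V : Type} (c : V → Bool) (F : Finset V) : Bool :=
  decide (Odd (F.filter fun v => c v = true).card)

section

variable {V : Type} [Fintype V] {G : SimpleGraph V} {V' : Type} [DecidableEq V'] {μ : Sym2 V → V'}

theorem mem_bdm (hμ : Set.InjOn μ G.edgeSet) {F : Finset V} {x y : V} (h : G.Adj x y) :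
    μ s(x, y) ∈ bdm G μ F ↔ ¬ (x ∈ F ↔ y ∈ F) := by
  unfold bdm
  rw [Finset.mem_image]
  constructor
  · rintro ⟨p, hp, he⟩
    have hp' : G.Adj p.1 p.2 ∧ p.1 ∈ F ∧ p.2 ∉ F := (Finset.mem_filter.1 hp).2
    have h1 : s(p.1, p.2) = s(x, y) := hμ (G.mem_edgeSet.2 hp'.1) (G.mem_edgeSet.2 h) he
    rcases Sym2.eq_iff.1 h1 with ⟨h2, h3⟩ | ⟨h2, h3⟩
    · rw [← h2, ← h3]
      exact fun h4 => hp'.2.2 (h4.1 hp'.2.1)
    · rw [← h2, ← h3]
      exact fun h4 => hp'.2.2 (h4.2 hp'.2.1)
  · intro h1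
    by_cases hx : x ∈ F
    · have hy : y ∉ F := fun hy => h1 ⟨fun _ => hy, fun _ => hx⟩
      exact ⟨(x, y), Finset.mem_filter.2 ⟨Finset.mem_univ _, h, hx, hy⟩, rfl⟩
    · have hy : y ∈ F := by
        by_contra hy
        exact h1 ⟨fun h2 => absurd h2 hx, fun h2 => absurd h2 hy⟩
      refine ⟨(y, x), Finset.mem_filter.2 ⟨Finset.mem_univ _, h.symm, hy, hx⟩, ?_⟩
      change μ s(y, x) = μ s(x, y)
      rw [Sym2.eq_swap]

private theorem bdm_elem {F : Finset V} {e : V'} (h : e ∈ bdm G μ F) : ∃ x y, G.Adj x y ∧ e = μ s(x, y) := by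
  unfold bdm at h
  obtain ⟨p, hp, he⟩ := Finset.mem_image.1 h
  exact ⟨p.1, p.2, (Finset.mem_filter.1 hp).2.1, he.symm⟩

theorem bdm_union (hμ : Set.InjOn μ G.edgeSet) {A B : Finset V} (hAB : Disjoint A B) :
    bdm G μ (A ∪ B) = symmDiff (bdm G μ A) (bdm G μ B) := by
  ext e
  by_cases hE : ∃ x y, G.Adj x y ∧ e = μ s(x, y)
  · obtain ⟨x, y, hxy, rfl⟩ := hE
    rw [Finset.mem_symmDiff, mem_bdm hμ hxy, mem_bdm hμ hxy, mem_bdm hμ hxy, Finset.mem_union,
      Finset.mem_union]
    have h1 : ¬ (x ∈ A ∧ x ∈ B) := fun h => Finset.disjoint_left.1 hAB h.1 h.2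
    have h2 : ¬ (y ∈ A ∧ y ∈ B) := fun h => Finset.disjoint_left.1 hAB h.1 h.2
    tauto
  · constructor
    · intro h
      exact absurd (bdm_elem h) hE
    · intro h
      rcases Finset.mem_symmDiff.1 h with ⟨h1, _⟩ | ⟨h1, _⟩
      · exact absurd (bdm_elem h1) hE
      · exact absurd (bdm_elem h1) hE

theorem bdm_card {D : ℕ} (hdeg : ∀ v, (nbG G v).card ≤ D) {F B : Finset V}
    (hFB : ∀ u ∈ F, ∀ w, G.Adj u w → w ∈ F ∨ w ∈ B) : (bdm G μ F).card ≤ D * B.card := by
  have h1 : bdm G μ F ⊆ B.biUnion fun b => (nbG G b).image fun u => μ s(u, b) := by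
    intro e he
    unfold bdm at he
    obtain ⟨p, hp, rfl⟩ := Finset.mem_image.1 he
    have hp' : G.Adj p.1 p.2 ∧ p.1 ∈ F ∧ p.2 ∉ F := (Finset.mem_filter.1 hp).2
    have h2 : p.2 ∈ B := (hFB p.1 hp'.2.1 p.2 hp'.1).resolve_left hp'.2.2
    refine Finset.mem_biUnion.2 ⟨p.2, h2, Finset.mem_image.2 ⟨p.1, ?_, rfl⟩⟩
    exact Finset.mem_filter.2 ⟨Finset.mem_univ _, hp'.1.symm⟩
  calc (bdm G μ F).card ≤ ∑ b ∈ B, ((nbG G b).image fun u => μ s(u, b)).card :=
        (Finset.card_le_card h1).trans Finset.card_biUnion_le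
    _ ≤ ∑ _b ∈ B, D := Finset.sum_le_sum fun b _ => Finset.card_image_le.trans (hdeg b)
    _ = D * B.card := by rw [Finset.sum_const, smul_eq_mul, mul_comm]

theorem bdm_single {D : ℕ} (hdeg : ∀ v, (nbG G v).card ≤ D) (v : V) :
    (bdm G μ {v}).card ≤ D := by
  have h1 : bdm G μ {v} ⊆ (nbG G v).image fun u => μ s(v, u) := by
    intro e he
    unfold bdm at he
    obtain ⟨p, hp, rfl⟩ := Finset.mem_image.1 he
    have hp' : G.Adj p.1 p.2 ∧ p.1 ∈ ({v} : Finset V) ∧ p.2 ∉ ({v} : Finset V) := (Finset.mem_filter.1 hp).2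
    have h2 : p.1 = v := Finset.mem_singleton.1 hp'.2.1
    refine Finset.mem_image.2 ⟨p.2, Finset.mem_filter.2 ⟨Finset.mem_univ _, ?_⟩, ?_⟩
    · rw [← h2]
      exact hp'.1
    · rw [h2]
  exact (Finset.card_le_card h1).trans (Finset.card_image_le.trans (hdeg v))

theorem bdm_univ : bdm G μ univ = ∅ := by
  unfold bdm cutG
  rw [Finset.image_eq_empty, Finset.filter_eq_empty_iff]
  intro p _ hp
  exact hp.2.2 (Finset.mem_univ _)

theorem td_inv {k : ℕ} {F B : Finset V} (h : TD G k F B) :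
    Disjoint F B ∧ B.card ≤ k + 1 ∧ ∀ u ∈ F, ∀ w, G.Adj u w → w ∈ F ∨ w ∈ B := by
  induction h with
  | nil => exact ⟨Finset.disjoint_empty_left _, by simp, fun u hu => absurd hu (Finset.notMem_empty u)⟩
  | intro F B v _ hvF _ hB ih =>
    refine ⟨?_, ?_, ?_⟩
    · rw [Finset.disjoint_insert_right]
      exact ⟨hvF, ih.1⟩
    · exact (Finset.card_insert_le _ _).trans (by omega)
    · intro u hu w hw
      rcases ih.2.2 u hu w hw with h1 | h1
      · exact Or.inl h1
      · exact Or.inr (Finset.mem_insert_of_mem h1)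
  | forget F B v _ hvB _ hnb ih =>
    refine ⟨?_, ?_, ?_⟩
    · rw [Finset.disjoint_insert_left]
      exact ⟨hvB, (Finset.disjoint_insert_right.1 ih.1).2⟩
    · exact (Finset.card_le_card (Finset.subset_insert v B)).trans ih.2.1
    · intro u hu w hw
      rcases Finset.mem_insert.1 hu with rfl | hu
      · rcases hnb w hw with h1 | h1
        · exact Or.inl (Finset.mem_insert_of_mem h1)
        · exact Or.inr h1
      · rcases ih.2.2 u hu w hw with h1 | h1
        · exact Or.inl (Finset.mem_insert_of_mem h1)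
        · rcases Finset.mem_insert.1 h1 with rfl | h1
          · exact Or.inl (Finset.mem_insert_self _ _)
          · exact Or.inr h1
  | join F F' B _ _ _ _ ih ih' =>
    refine ⟨?_, ih.2.1, ?_⟩
    · rw [Finset.disjoint_union_left]
      exact ⟨ih.1, ih'.1⟩
    · intro u hu w hw
      rcases Finset.mem_union.1 hu with hu | hu
      · rcases ih.2.2 u hu w hw with h1 | h1
        · exact Or.inl (Finset.mem_union_left _ h1)
        · exact Or.inr h1
      · rcases ih'.2.2 u hu w hw with h1 | h1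
        · exact Or.inl (Finset.mem_union_right _ h1)
        · exact Or.inr h1

private theorem odF_union (c : V → Bool) {A B : Finset V} (h : Disjoint A B) :
    odF c (A ∪ B) = xor (odF c A) (odF c B) := by
  unfold odF
  have h1 : ((A ∪ B).filter fun v => c v = true).card =
      (A.filter fun v => c v = true).card + (B.filter fun v => c v = true).card := by
    rw [Finset.filter_union]
    exact Finset.card_union_of_disjoint (Finset.disjoint_filter_filter h)
  rw [h1]
  generalize (A.filter fun v => c v = true).card = a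
  generalize (B.filter fun v => c v = true).card = b
  have h2 : Odd (a + b) ↔ ¬ (Odd a ↔ Odd b) := by
    rw [Nat.odd_add, ← Nat.not_odd_iff_even]
    tauto
  by_cases ha : Odd a
  · by_cases hb : Odd b
    · have h3 : ¬ Odd (a + b) := by tauto
      rw [decide_eq_false h3, decide_eq_true ha, decide_eq_true hb]
      rfl
    · have h3 : Odd (a + b) := by tauto
      rw [decide_eq_true h3, decide_eq_true ha, decide_eq_false hb]
      rfl
  · by_cases hb : Odd b
    · have h3 : Odd (a + b) := by tauto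
      rw [decide_eq_true h3, decide_eq_false ha, decide_eq_true hb]
      rfl
    · have h3 : ¬ Odd (a + b) := by tauto
      rw [decide_eq_false h3, decide_eq_false ha, decide_eq_false hb]
      rfl

private theorem odF_single (c : V → Bool) (v : V) : odF c {v} = c v := by
  unfold odF
  by_cases hv : c v = true
  · rw [Finset.filter_singleton, if_pos hv, Finset.card_singleton, hv]
    exact decide_eq_true odd_one
  · rw [Finset.filter_singleton, if_neg hv, Finset.card_empty, Bool.eq_false_iff.2 hv]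
    exact decide_eq_false (by decide)

private theorem ub_step {X : Set (Fm V')} {dd s : ℕ} {v0 : V'} (hX : Full 1000 X) (hs : 1000 * 4 ^ dd ≤ s)
    {A A' A'' : Finset V'} (hA : A.card ≤ 2 ^ dd) (hA' : A'.card ≤ 2 ^ dd) (hA'' : A''.card ≤ 2 ^ dd)
    (h : A'' = symmDiff A A') (c1 c2 : Bool) {l : List (Fm V')} (hl : Dr X l)
    (h1 : sgn c1 (Bal dd v0 A) ∈ l) (h2 : sgn c2 (Bal dd v0 A') ∈ l) :
    ∃ l', Ex X s s (2 * 2 ^ dd * (4 * dd + 6) + 3 + 4) 0 l l' ∧ sgn (xor c1 c2) (Bal dd v0 A'') ∈ l' := by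
  obtain ⟨l1, e1, k1⟩ := baladd (v0 := v0) hX hs le_rfl hA hA' hA'' h hl
  have t1 := bal_len dd v0 A
  have t2 := bal_len dd v0 A'
  have t3 := bal_len dd v0 A''
  have u1 := len_sgn_le c1 (Bal dd v0 A)
  have u2 := len_sgn_le c2 (Bal dd v0 A')
  have u3 := len_sgn_le (xor c1 c2) (Bal dd v0 A'')
  have hlen : (Fm.imp (sgn c1 (Bal dd v0 A)) (Fm.imp (sgn c2 (Bal dd v0 A'))
      (Fm.imp (Z3 (Bal dd v0 A) (Bal dd v0 A') (Bal dd v0 A'')) (sgn (xor c1 c2) (Bal dd v0 A''))))).len ≤ s := by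
    simp only [len_Z3, show ∀ P Q : Fm V', (Fm.imp P Q).len = P.len + Q.len + 1 from
      fun _ _ => rfl]
    omega
  obtain ⟨l2, e2, k2⟩ := inf3 (s := s) (b := s) (m := 0) e1.dr
    (s_merge hX c1 c2 (Bal dd v0 A) (Bal dd v0 A') (Bal dd v0 A''))
    (e1.sub h1) (e1.sub h2) k1 hlen (Or.inl hlen)
  exact ⟨l2, e1.trans e2, k2⟩

theorem ubtd {D k : ℕ} (hdeg : ∀ v, (nbG G v).card ≤ D) (hμ : Set.InjOn μ G.edgeSet)
    {X : Set (Fm V')} {dd s n0 : ℕ} {v0 : V'} (hX : Full 1000 X) (hs : 1000 * 4 ^ dd ≤ s)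
    (hdd : D * (k + 1) ≤ 2 ^ dd) (c : V → Bool)
    (hstar : ∀ v, ∀ l : List (Fm V'), Dr X l →
      ∃ l', Ex X s s n0 0 l l' ∧ sgn (c v) (Bal dd v0 (bdm G μ {v})) ∈ l')
    {F B : Finset V} (h : TD G k F B) : ∀ l : List (Fm V'), Dr X l →
    ∃ (n : ℕ) (l' : List (Fm V')), Ex X s s n 0 l l' ∧ (F = ∅ → n ≤ 1) ∧
      (F.Nonempty → n + (n0 + (2 * 2 ^ dd * (4 * dd + 6) + 3) + 5) ≤
        2 * (n0 + (2 * 2 ^ dd * (4 * dd + 6) + 3) + 5) * F.card) ∧
      sgn (odF c F) (Bal dd v0 (bdm G μ F)) ∈ l' := by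
  obtain ⟨K1, hK1⟩ : ∃ K1, K1 = 2 * 2 ^ dd * (4 * dd + 6) + 3 := ⟨_, rfl⟩
  obtain ⟨K, hK⟩ : ∃ K, K = n0 + (2 * 2 ^ dd * (4 * dd + 6) + 3) + 5 := ⟨_, rfl⟩
  rw [← hK]
  have hcard : ∀ {F B : Finset V}, TD G k F B → (bdm G μ F).card ≤ 2 ^ dd := by
    intro F B h
    have h1 := td_inv h
    exact ((bdm_card hdeg h1.2.2).trans (Nat.mul_le_mul_left _ h1.2.1)).trans hdd
  have hone : D ≤ 2 ^ dd := (Nat.le_mul_of_pos_right D (Nat.succ_pos k)).trans hdd
  induction h with
  | nil =>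
    intro l hl
    obtain ⟨l1, e1, k1⟩ := ex_nbot (v0 := v0) hX hs le_rfl hl
    refine ⟨1, l1, e1, fun _ => le_rfl, fun h => absurd h Finset.not_nonempty_empty, ?_⟩
    have h1 : bdm G μ (∅ : Finset V) = ∅ := by
      unfold bdm cutG
      rw [Finset.image_eq_empty, Finset.filter_eq_empty_iff]
      intro p _ hp
      exact absurd hp.2.1 (Finset.notMem_empty _)
    have h2 : odF c (∅ : Finset V) = false := by
      unfold odF
      rw [Finset.filter_empty, Finset.card_empty]
      exact decide_eq_false (by decide)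
    rw [h1, h2]
    have h3 : Bal dd v0 (∅ : Finset V') = T dd fun _ => bot v0 := balX_empty ∅
    rw [h3]
    exact k1
  | intro F B v _ _ _ _ ih =>
    exact ih
  | forget F B v hT hvB hvF hnb ih =>
    intro l hl
    obtain ⟨n, l1, e1, a1, b1, k1⟩ := ih l hl
    obtain ⟨l2, e2, k2⟩ := hstar v l1 e1.dr
    have hdis : Disjoint F {v} := Finset.disjoint_singleton_right.2 hvF
    have hun : insert v F = F ∪ {v} := by
      rw [Finset.union_comm]
      rfl
    have hT' : TD G k (insert v F) B := TD.forget F B v hT hvB hvF hnb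
    obtain ⟨l3, e3, k3⟩ := ub_step (v0 := v0) hX hs (hcard hT) ((bdm_single hdeg v).trans hone) (hcard hT')
      (by rw [hun]; exact bdm_union hμ hdis) (odF c F) (c v) e2.dr (e2.sub k1) k2
    refine ⟨n + n0 + (2 * 2 ^ dd * (4 * dd + 6) + 3 + 4), l3, (e1.trans e2).trans e3, ?_, ?_, ?_⟩
    · intro h
      exact absurd h (Finset.insert_ne_empty v F)
    · intro _
      rw [Finset.card_insert_of_notMem hvF]
      rcases F.eq_empty_or_nonempty with hF | hF
      · have h1 := a1 hF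
        rw [hF, Finset.card_empty]
        omega
      · have h1 := b1 hF
        have h2 : 2 * K * (F.card + 1) = 2 * K * F.card + 2 * K := by ring
        rw [h2]
        omega
    · rw [show odF c (insert v F) = xor (odF c F) (c v) by
        rw [hun, odF_union c hdis, odF_single]]
      exact k3
  | join F F' B hT hT' hd hn ih ih' =>
    intro l hl
    rcases F.eq_empty_or_nonempty with hF | hF
    · rw [hF, Finset.empty_union]
      exact ih' l hl
    rcases F'.eq_empty_or_nonempty with hF' | hF'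
    · rw [hF', Finset.union_empty]
      exact ih l hl
    obtain ⟨n, l1, e1, a1, b1, k1⟩ := ih l hl
    obtain ⟨n', l2, e2, a2, b2, k2⟩ := ih' l1 e1.dr
    have hJ : TD G k (F ∪ F') B := TD.join F F' B hT hT' hd hn
    obtain ⟨l3, e3, k3⟩ := ub_step (v0 := v0) hX hs (hcard hT) (hcard hT') (hcard hJ)
      (bdm_union hμ hd) (odF c F) (odF c F') e2.dr (e2.sub k1) k2
    refine ⟨n + n' + (2 * 2 ^ dd * (4 * dd + 6) + 3 + 4), l3, (e1.trans e2).trans e3, ?_, ?_, ?_⟩
    · intro h
      exact absurd (Finset.union_eq_empty.1 h).1 hF.ne_empty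
    · intro _
      rw [Finset.card_union_of_disjoint hd]
      have h1 := b1 hF
      have h2 := b2 hF'
      have h3 : 2 * K * (F.card + F'.card) = 2 * K * F.card + 2 * K * F'.card := by ring
      rw [h3]
      omega
    · rw [odF_union c hd]
      exact k3

end

end Pool.Agent.H55.AG
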