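import Mathlib
import Pool.Agent.H90.UB.Xo
import Pool.Agent.H55.AG.Stmt
import Pool.Agent.H55.AG.UbTD

set_option autoImplicit false
set_option linter.unusedSectionVars false

/-!
# Module UBCL: the clauses of a vertex of `G`

PROOF. `B := bdm G μ {v}` (`Finset (Fin M)`), nonempty (`hv`), at most `D` elements (`bdm_single`); `B.toList = w :: l1`.
For `U ⊆ B` let `cl U := excl (fun i => decide (i ∈ U)) w l1` (`excl` in `H3/Frg4/Cnf.lean`; `isClause_excl`, `eval_excl`, `len_excl`, `vars_excl`).
`Cs :=` the list of the `cl U` with `U ∈ B.powerset.filter (fun U => ¬ (Odd U.card ↔ c v = true))` (`toList.map`), length at most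
`2 ^ B.card ≤ 2 ^ D`; not empty: `∅` or `{w}` has the wrong parity.
`(cl U).ren Fin.val ∈ Ts D G ν c`: `isClause_ren`, `isClause_mono`; the variables are `(i : ℕ)`, `i ∈ B`, i.e. `i = μ s(v, u)`, `G.Adj v u`,
`(i : ℕ) = ν s(v, u)` (`hμ`; subs and vars: `Fm.var i ∈ A.subs ↔ i ∈ A.vars` small induction). If `x` satisfies the parity condition
then the clause is true: otherwise (`eval_ren`, `eval_excl`) `x i = decide (i ∈ U)` for all `i ∈ B`, so
`{u | G.Adj v u ∧ x (ν s(v, u)) = true}` is in bijection (`u ↦ μ s(v, u)`, injective by `hν`, `hμ`) with `U`, contradiction.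
Last part: if all `cl U` are true for `x : Fin M → Bool` then with `U := B.filter (x · = true)`: `U` has the right parity
(otherwise `cl U` is false), and `(chain v0 B.toList).eval x` is the parity of the number of `i ∈ B` with `x i = true` (induction on the
list, `eval_xo`; see `sg_chain` in `H90/UB/Conn.lean`).
-/

namespace Pool.Agent.H55.AG

open Finset Classical Pool.Agent.H3.Frg Pool.Agent.H3.Frg2 Pool.Agent.H3.Frg4 Pool.Agent.H90.UB

private theorem sg_xor (a c : Bool) : sg (xor a c) = sg a * sg c := by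
  cases a <;> cases c <;> simp [sg]

private theorem sg_inj {a c : Bool} (h : sg a = sg c) : a = c := by
  cases a <;> cases c <;> simp_all [sg] <;> norm_num at h

private theorem sg_chain {V : Type} (v0 : V) (x : V → Bool) : ∀ l : List V,
    sg ((chain v0 l).eval x) = (l.map fun e => sg (x e)).prod := by
  intro l
  induction l with
  | nil =>
    have h : (chain v0 []).eval x = false := eval_bot v0 x
    rw [h]; simp [sg]
  | cons e l ih =>
    simp only [Pool.Agent.H90.UB.chain, eval_xo, sg_xor, List.map_cons, List.prod_cons, ih, Fm.eval]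

private theorem prod_sg {W : Type} (B : Finset W) (x : W → Bool) :
    ∏ e ∈ B, sg (x e) = (-1) ^ (B.filter fun e => x e = true).card := by
  have h1 : ∀ v ∈ B, sg (x v) = if x v = true then (-1 : ℝ) else 1 := fun v _ => rfl
  rw [Finset.prod_congr rfl h1, Finset.prod_ite, Finset.prod_const, Finset.prod_const_one,
    mul_one]

private theorem pow_sg {k : ℕ} {b : Bool} (h : Odd k ↔ b = true) : (-1 : ℝ) ^ k = sg b := by
  cases b with
  | true => rw [(h.2 rfl).neg_one_pow]; rfl
  | false =>
    have h1 : ¬ Odd k := fun h2 => absurd (h.1 h2) (by decide)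
    rw [(Nat.not_odd_iff_even.1 h1).neg_one_pow]
    rfl

private theorem subs_ren {W W' : Type} [DecidableEq W] (f : W → W') (A : Fm W) (i : W') :
    Fm.var i ∈ (A.ren f).subs → ∃ j ∈ A.vars, i = f j := by
  induction A with
  | var j =>
    intro h
    simp only [Fm.ren, Fm.subs, List.mem_singleton, Fm.var.injEq] at h
    exact ⟨j, Finset.mem_singleton_self j, h⟩
  | neg A ih =>
    intro h
    simp only [Fm.ren, Fm.subs, List.mem_cons, reduceCtorEq, false_or] at h
    exact ih h
  | imp A B ihA ihB =>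
    intro h
    simp only [Fm.ren, Fm.subs, List.mem_cons, List.mem_append, reduceCtorEq, false_or] at h
    rcases h with h | h
    · obtain ⟨j, hj, e⟩ := ihA h
      exact ⟨j, Finset.mem_union_left _ hj, e⟩
    · obtain ⟨j, hj, e⟩ := ihB h
      exact ⟨j, Finset.mem_union_right _ hj, e⟩

private theorem mem_bdm1 {V : Type} [Fintype V] {G : SimpleGraph V} {V' : Type}
    [DecidableEq V'] {μ : Sym2 V → V'} (v : V) (e : V') :
    e ∈ bdm G μ {v} ↔ ∃ u, G.Adj v u ∧ μ s(v, u) = e := by
  unfold bdm cutG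
  rw [mem_image]
  constructor
  · rintro ⟨q, hq, rfl⟩
    rw [mem_filter, mem_singleton] at hq
    obtain ⟨-, h1, h2, -⟩ := hq
    refine ⟨q.2, ?_, ?_⟩
    · rw [← h2]
      exact h1
    · rw [h2]
  · rintro ⟨u, hu, rfl⟩
    refine ⟨(v, u), ?_, rfl⟩
    rw [mem_filter, mem_singleton, mem_singleton]
    exact ⟨mem_univ _, hu, rfl, hu.ne'⟩

private theorem card_bdm1 {V : Type} [Fintype V] {G : SimpleGraph V} {V' : Type}
    [DecidableEq V'] {μ : Sym2 V → V'} (hμ : Set.InjOn μ G.edgeSet) (v : V) (x : V' → Bool) :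
    ((bdm G μ {v}).filter fun e => x e = true).card =
      (univ.filter fun u => G.Adj v u ∧ x (μ s(v, u)) = true).card := by
  have h1 : (bdm G μ {v}).filter (fun e => x e = true) =
      (univ.filter fun u => G.Adj v u ∧ x (μ s(v, u)) = true).image fun u => μ s(v, u) := by
    ext e
    rw [mem_filter, mem_image, mem_bdm1]
    constructor
    · rintro ⟨⟨u, hu, rfl⟩, hx⟩
      refine ⟨u, ?_, rfl⟩
      rw [mem_filter]
      exact ⟨mem_univ _, hu, hx⟩
    · rintro ⟨u, hu, rfl⟩
      rw [mem_filter] at hu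
      exact ⟨⟨u, hu.2.1, rfl⟩, hu.2.2⟩
  rw [h1]
  refine Finset.card_image_of_injOn ?_
  intro u hu u' hu' he
  rw [Finset.mem_coe, mem_filter] at hu hu'
  have h2 : s(v, u) = s(v, u') := hμ hu.2.1 hu'.2.1 he
  exact Sym2.congr_right.1 h2

theorem ubcl {V : Type} [Fintype V] {G : SimpleGraph V} {D M : ℕ}
    (hdeg : ∀ v, (nbG G v).card ≤ D) {ν : Sym2 V → ℕ} (hν : Set.InjOn ν G.edgeSet)
    (μ : Sym2 V → Fin M) (hμ : ∀ g ∈ G.edgeSet, (μ g : ℕ) = ν g) (c : V → Bool) (v : V)
    (hv : ∃ u, G.Adj v u) (v0 : Fin M) :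
    ∃ Cs : List (Fm (Fin M)), Cs ≠ [] ∧ Cs.length ≤ 2 ^ D ∧
      (∀ A ∈ Cs, A.ren Fin.val ∈ Ts D G ν c ∧ A.len ≤ 4 * D) ∧
      ∀ x : Fin M → Bool, (∀ A ∈ Cs, A.eval x = true) →
        (chain v0 (bdm G μ {v}).toList).eval x = c v := by
  have hμi : Set.InjOn μ G.edgeSet := by
    intro g hg g' hg' h
    refine hν hg hg' ?_
    rw [← hμ g hg, ← hμ g' hg', h]
  obtain ⟨B, hB⟩ : ∃ B, B = bdm G μ {v} := ⟨_, rfl⟩
  have hBD : B.card ≤ D := by
    rw [hB]
    exact bdm_single hdeg v
  have hBne : B.Nonempty := by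
    obtain ⟨u, hu⟩ := hv
    refine ⟨μ s(v, u), ?_⟩
    rw [hB, mem_bdm1]
    exact ⟨u, hu, rfl⟩
  obtain ⟨w, l, hl⟩ : ∃ w l, B.toList = w :: l := by
    cases h : B.toList with
    | nil =>
      rw [Finset.toList_eq_nil] at h
      rw [h] at hBne
      exact absurd hBne Finset.not_nonempty_empty
    | cons w l => exact ⟨w, l, rfl⟩
  have hlen : l.length + 1 = B.card := by
    rw [← Finset.length_toList, hl, List.length_cons]
  have hmem : ∀ e, e ∈ w :: l ↔ e ∈ B := by
    intro e
    rw [← hl, Finset.mem_toList]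
  obtain ⟨cl, hcl⟩ : ∃ cl : Finset (Fin M) → Fm (Fin M),
      ∀ U, cl U = excl (fun i => decide (i ∈ U)) w l := ⟨_, fun _ => rfl⟩
  have hev : ∀ U ⊆ B, ∀ x : Fin M → Bool,
      (cl U).eval x ≠ true → U = B.filter fun e => x e = true := by
    intro U hU x hx
    rw [hcl, Ne, eval_excl] at hx
    push Not at hx
    ext e
    rw [mem_filter]
    constructor
    · intro he
      refine ⟨hU he, ?_⟩
      rw [hx e ((hmem e).2 (hU he))]
      exact decide_eq_true he
    · rintro ⟨he, hxe⟩
      rw [hx e ((hmem e).2 he)] at hxe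
      exact of_decide_eq_true hxe
  obtain ⟨P, hP⟩ : ∃ P : Finset (Finset (Fin M)),
      ∀ U, U ∈ P ↔ U ⊆ B ∧ ¬ (Odd U.card ↔ c v = true) := by
    refine ⟨B.powerset.filter fun U => ¬ (Odd U.card ↔ c v = true), fun U => ?_⟩
    rw [mem_filter, mem_powerset]
  have hPc : P.card ≤ 2 ^ D := by
    have h1 : P ⊆ B.powerset := fun U hU => mem_powerset.2 ((hP U).1 hU).1
    refine (Finset.card_le_card h1).trans ?_
    rw [Finset.card_powerset]
    exact Nat.pow_le_pow_right (by norm_num) hBD
  have hPne : P.Nonempty := by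
    by_cases hc : c v = true
    · refine ⟨∅, (hP _).2 ⟨Finset.empty_subset _, fun h => ?_⟩⟩
      have h1 := h.2 hc
      rw [Finset.card_empty] at h1
      exact absurd h1 (by decide)
    · refine ⟨{w}, (hP _).2 ⟨?_, fun h => ?_⟩⟩
      · rw [Finset.singleton_subset_iff, ← hmem]
        exact List.mem_cons_self
      · have h1 : Odd ({w} : Finset (Fin M)).card := by
          rw [Finset.card_singleton]
          exact odd_one
        exact hc (h.1 h1)
  refine ⟨P.toList.map cl, ?_, ?_, ?_, ?_⟩
  · intro h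
    rw [List.map_eq_nil_iff, Finset.toList_eq_nil] at h
    rw [h] at hPne
    exact absurd hPne Finset.not_nonempty_empty
  · rw [List.length_map, Finset.length_toList]
    exact hPc
  · intro A hA
    obtain ⟨U, hU, rfl⟩ := List.mem_map.1 hA
    rw [Finset.mem_toList, hP] at hU
    refine ⟨⟨?_, v, ?_, ?_⟩, ?_⟩
    · rw [hcl]
      exact isClause_ren _ (isClause_mono (isClause_excl _ l w) (by omega))
    · intro i hi
      obtain ⟨j, hj, rfl⟩ := subs_ren Fin.val (cl U) i hi
      rw [hcl] at hj
      have h1 := vars_excl _ l w hj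
      rw [List.mem_toFinset, hmem, hB, mem_bdm1] at h1
      obtain ⟨u, hu, rfl⟩ := h1
      exact ⟨u, hu, hμ _ hu⟩
    · intro x hx
      rw [eval_ren]
      by_contra hne
      have h1 := hev U hU.1 _ hne
      apply hU.2
      rw [h1, hB, card_bdm1 hμi v (fun i => x (i : ℕ)), ← hx]
      have h2 : (univ.filter fun u => G.Adj v u ∧ x ((μ s(v, u) : Fin M) : ℕ) = true) =
          univ.filter fun u => G.Adj v u ∧ x (ν s(v, u)) = true := by
        ext u
        rw [mem_filter, mem_filter]
        constructor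
        · rintro ⟨h3, h4, h5⟩
          rw [hμ _ h4] at h5
          exact ⟨h3, h4, h5⟩
        · rintro ⟨h3, h4, h5⟩
          rw [← hμ _ h4] at h5
          exact ⟨h3, h4, h5⟩
      rw [h2]
    · rw [hcl]
      refine (len_excl _ l w).trans ?_
      omega
  · intro x hx
    have h1 : Odd (B.filter fun e => x e = true).card ↔ c v = true := by
      by_contra hcon
      have h2 := hx (cl (B.filter fun e => x e = true)) (List.mem_map.2 ⟨_, Finset.mem_toList.2
        ((hP _).2 ⟨Finset.filter_subset _ _, hcon⟩), rfl⟩)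
      rw [hcl, eval_excl] at h2
      obtain ⟨e, he, h3⟩ := h2
      apply h3
      have heB := (hmem e).1 he
      by_cases h4 : x e = true
      · rw [h4]
        symm
        exact decide_eq_true (mem_filter.2 ⟨heB, h4⟩)
      · rw [Bool.not_eq_true] at h4
        rw [h4]
        symm
        refine decide_eq_false fun h5 => ?_
        have h6 := (mem_filter.1 h5).2
        rw [h4] at h6
        exact absurd h6 (by decide)
    apply sg_inj
    rw [sg_chain, Finset.prod_map_toList, ← hB, prod_sg]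
    exact pow_sg h1

end Pool.Agent.H55.AG
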