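import Mathlib
import Pool.Agent.H90.UB.Star
import Pool.Agent.H90.UB.Sim
import Pool.Agent.H55.AG.TDTw
import Pool.Agent.H55.AG.UbCl

set_option autoImplicit false
set_option linter.unusedSectionVars false

/-!
# Module UBA: upper bound, all lines of size `O((k + 1) ^ 2 log n)`

PROOF. `n := card V ≥ 2`, connected: every vertex has a neighbour, so `1 ≤ D`. WLOG `k ≤ n` (`TwLE G (min k n)`: the number of
preceding neighbours is at most `n`; the bound for `min k n` is better). `M := D * n ≥ 1`, `v0 := (0 : Fin M)`,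
`μ g := if h : ν g < M then ⟨ν g, h⟩ else v0`, injective on the edges. `dd := Nat.clog 2 (D * (k + 1))`, `2 ^ dd ≤ 2 * D * (k + 1)`
(`hd2` in `H90/PE/FixE.lean`). `Γ' := {A : Fm (Fin M) | A.ren Fin.val ∈ Ts D G ν c}`, `ℓ0 := 1000 + 2 ^ D * (4 * D + 1) + 100 * 2 ^ D`,
`X := Ax (S0 ℓ0) Γ'`, `s := ℓ0 * 4 ^ dd`. `hstar`: `ubcl`, `clauses` (`ls := (bdm G μ {v}).toList`, `q := 4 * D`), `star` (as in
`H90/UB/Fixd.lean`): `n0 := 2 * 2 ^ D + 7 + D * (2 * dd + 4)`. `td_of_tw` (module TDTW) gives `TD G k univ ∅`, `ubtd` from `[]`, `odF c univ = true`,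
`bdm_univ`: the line `Bal dd v0 ∅ = T dd fun _ => bot v0`; one more line `¬ (T dd ..)` (`ex_nbot`). So a list with at most
`2 * K * n + 1` lines, all of length at most `s`, `K ≤ const * 4 ^ dd`. `simul` (with `b = s`) and `to_der`, `isDer_ren` with `Fin.val` as in
`ub_fixed`; the axioms: image of `Γ'` is contained in `Ts D G ν c`. Both lines are in the list, so some `pf i = neg (pf j)`.
`L ≤ c * (2 * K * n + 1) ≤ const * n * (D (n + 1)) ^ 2 ≤ (n + 2) ^ Cc` (`const ≤ 2 ^ const ≤ (n + 2) ^ const`).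
`(pf i).enc.length ≤ c * s * (2 * Nat.size M + 2)` (`enc_le`) `≤ c * ℓ0 * (2 * D * (k + 1)) ^ 2 * (..)`,
`Nat.size (D * n) ≤ Nat.size D + Nat.log 2 n + 1`.
-/

namespace Pool.Agent.H55.AG

open Finset Classical Pool.Agent.H3.Frg Pool.Agent.H3.Frg2 Pool.Agent.H3.Frg4 Pool.Agent.H90.UB

private theorem ua_clog (M : ℕ) (hM : 1 ≤ M) :
    M ≤ 2 ^ Nat.clog 2 M ∧ 2 ^ Nat.clog 2 M ≤ 2 * M := by
  refine ⟨Nat.le_pow_clog (by norm_num) _, ?_⟩
  rcases Nat.lt_or_ge 1 M with h | h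
  · have h3 : 2 ^ (Nat.clog 2 M - 1) < M := by
      have := Nat.pow_pred_clog_lt_self (b := 2) (by norm_num) h
      simpa using this
    have h4 : 0 < Nat.clog 2 M := Nat.clog_pos (by norm_num) h
    calc 2 ^ Nat.clog 2 M = 2 * 2 ^ (Nat.clog 2 M - 1) := by
          rw [← pow_succ']; congr 1; omega
      _ ≤ 2 * M := by omega
  · have h3 : M = 1 := by omega
    rw [h3]
    simp

private theorem ua_tw {V : Type} [Fintype V] {G : SimpleGraph V} {k : ℕ} (h : TwLE G k) :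
    TwLE G (min k (Fintype.card V)) := by
  obtain ⟨H, ord, hGH, hinj, hv⟩ := h
  refine ⟨H, ord, hGH, hinj, fun v => ⟨(hv v).1, le_min (hv v).2 ?_⟩⟩
  have h1 := Set.ncard_le_ncard (Set.subset_univ {u | H.Adj u v ∧ ord u < ord v})
    (Set.finite_univ)
  rw [Set.ncard_univ, Nat.card_eq_fintype_card] at h1
  exact h1

private theorem ua_mono {V : Type} {Sch : Set (Fm ℕ)} {Γ Γ' : Set (Fm V)} {L : ℕ}
    {pf : Fin L → Fm V} (h : IsDer Sch Γ pf) (hΓ : Γ ⊆ Γ') : IsDer Sch Γ' pf := by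
  intro i
  rcases h i with h1 | h1 | h1
  · exact Or.inl (hΓ h1)
  · exact Or.inr (Or.inl h1)
  · exact Or.inr (Or.inr h1)

/-- the number of lines, elementary estimate -/
private theorem ua_K {D E dd q : ℕ} (hE : 1 ≤ E) (hdd : dd ≤ E) :
    (2 * q + 7 + D * (2 * dd + 4)) + (2 * E * (4 * dd + 6) + 3) + 5 ≤
      (2 * q + 35 + 6 * D) * E ^ 2 := by
  have hE2 : E ≤ E ^ 2 := by nlinarith
  have h1 : 1 ≤ E ^ 2 := by nlinarith
  have h2 : D * (2 * dd + 4) ≤ D * (6 * E ^ 2) := Nat.mul_le_mul_left _ (by omega)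
  have h3 : 2 * E * (4 * dd + 6) ≤ 2 * E * (4 * E + 6) := Nat.mul_le_mul_left _ (by omega)
  have h4 : 2 * E * (4 * E + 6) = 8 * E ^ 2 + 12 * E := by ring
  have h5 : 2 * q * 1 ≤ 2 * q * E ^ 2 := Nat.mul_le_mul_left _ h1
  have h6 : (2 * q + 35 + 6 * D) * E ^ 2 = 2 * q * E ^ 2 + 35 * E ^ 2 + D * (6 * E ^ 2) := by ring
  rw [h6]
  omega

private theorem ua_L {c1 D a n k' E K m : ℕ} (hD : 1 ≤ D) (hn : 2 ≤ n) (hk : k' ≤ n)
    (hE : E ≤ 2 * (D * (k' + 1))) (hK : K ≤ a * E ^ 2) (hm : m ≤ c1 * (2 * K * n + 1)) :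
    m ≤ (n + 2) ^ (c1 * (8 * a * D ^ 2 + 1) + 3) := by
  have h1 : E ≤ 2 * (D * (n + 2)) := hE.trans (by gcongr; omega)
  have h2 : K ≤ a * (2 * (D * (n + 2))) ^ 2 := hK.trans (by gcongr)
  have h3 : 2 * K * n + 1 ≤ (8 * a * D ^ 2 + 1) * (n + 2) ^ 3 := by
    have h4 : 2 * K * n ≤ 2 * (a * (2 * (D * (n + 2))) ^ 2) * (n + 2) := by
      gcongr
      omega
    have h5 : 2 * (a * (2 * (D * (n + 2))) ^ 2) * (n + 2) = 8 * a * D ^ 2 * (n + 2) ^ 3 := by ring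
    have h6 : 1 ≤ (n + 2) ^ 3 := Nat.one_le_pow _ _ (by omega)
    have h7 : (8 * a * D ^ 2 + 1) * (n + 2) ^ 3 = 8 * a * D ^ 2 * (n + 2) ^ 3 + (n + 2) ^ 3 := by
      ring
    rw [h7]
    omega
  calc m ≤ c1 * ((8 * a * D ^ 2 + 1) * (n + 2) ^ 3) := hm.trans (Nat.mul_le_mul_left _ h3)
    _ = c1 * (8 * a * D ^ 2 + 1) * (n + 2) ^ 3 := by ring
    _ ≤ (n + 2) ^ (c1 * (8 * a * D ^ 2 + 1)) * (n + 2) ^ 3 := by
        refine Nat.mul_le_mul_right _ ?_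
        exact (Nat.lt_pow_self (by omega)).le
    _ = _ := by rw [pow_add]

private theorem ua_enc {c1 l0 D n k k' E len : ℕ} (hn : 2 ≤ n) (hk : k' ≤ k)
    (hE : E ≤ 2 * (D * (k' + 1))) (hl : len ≤ c1 * (l0 * E ^ 2) * (2 * Nat.size (D * n) + 2)) :
    len ≤ c1 * l0 * (4 * D ^ 2) * (2 * D + 4) * (k + 1) ^ 2 * (Nat.log 2 n + 1) := by
  have h1 : E ≤ 2 * (D * (k + 1)) := hE.trans (by gcongr)
  have h2 : Nat.size (D * n) ≤ D + (Nat.log 2 n + 1) := by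
    rw [Nat.size_le, pow_add]
    have h3 : D < 2 ^ D := Nat.lt_two_pow_self
    have h4 : n < 2 ^ (Nat.log 2 n + 1) := Nat.lt_pow_succ_log_self (by norm_num) n
    exact Nat.mul_lt_mul'' h3 h4
  have h3 : 2 * Nat.size (D * n) + 2 ≤ (2 * D + 4) * (Nat.log 2 n + 1) := by
    have h4 : (2 * D + 4) * (Nat.log 2 n + 1) = 2 * D * Nat.log 2 n + 4 * Nat.log 2 n +
      2 * D + 4 := by ring
    rw [h4]
    omega
  calc len ≤ c1 * (l0 * E ^ 2) * (2 * Nat.size (D * n) + 2) := hl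
    _ ≤ c1 * (l0 * (2 * (D * (k + 1))) ^ 2) * ((2 * D + 4) * (Nat.log 2 n + 1)) := by gcongr
    _ = _ := by ring

theorem uba {F : Set (Fm ℕ)} (hF : Pool.Agent.H90.UB.Compl F) (D : ℕ) : ∃ Cc : ℕ,
    ∀ (V : Type) [Fintype V] (G : SimpleGraph V) (k : ℕ), G.Connected → 2 ≤ Fintype.card V →
    (∀ v, (nbG G v).card ≤ D) → TwLE G k →
    ∀ (ν : Sym2 V → ℕ), Set.InjOn ν G.edgeSet → (∀ g ∈ G.edgeSet, ν g < D * Fintype.card V) →
    ∀ (c : V → Bool), Odd (univ.filter fun v => c v = true).card →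
    ∃ (L : ℕ) (pf : Fin L → Fm ℕ), IsDer F (Ts D G ν c) pf ∧ (∃ i j, pf i = Fm.neg (pf j)) ∧
      L ≤ (Fintype.card V + 2) ^ Cc ∧
      ∀ i, (pf i).enc.length ≤ Cc * (k + 1) ^ 2 * (Nat.log 2 (Fintype.card V) + 1) := by
  obtain ⟨ℓ0, hℓ⟩ : ∃ ℓ0, ℓ0 = 1000 + 2 ^ D * (4 * D + 1) + 100 * 2 ^ D := ⟨_, rfl⟩
  obtain ⟨c1, hc1, hsim⟩ := simul hF ℓ0
  obtain ⟨a, ha⟩ : ∃ a, a = 2 * 2 ^ D + 35 + 6 * D := ⟨_, rfl⟩
  refine ⟨c1 * (8 * a * D ^ 2 + 1) + 3 + c1 * ℓ0 * (4 * D ^ 2) * (2 * D + 4), ?_⟩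
  intro V _ G k hconn hcV hdeg htw ν hν hνM c hodd
  obtain ⟨n, hn⟩ : ∃ n, n = Fintype.card V := ⟨_, rfl⟩
  rw [← hn] at hcV hνM ⊢
  -- neighbours
  have hnb : ∀ v, ∃ u, G.Adj v u := by
    intro v
    obtain ⟨w, hw⟩ := Fintype.exists_ne_of_one_lt_card (by omega) v
    obtain ⟨p⟩ := hconn.preconnected v w
    cases p with
    | nil => exact absurd rfl hw
    | cons h p => exact ⟨_, h⟩
  have hne : Nonempty V := hconn.nonempty
  have hD : 1 ≤ D := by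
    obtain ⟨v⟩ := hne
    obtain ⟨u, hu⟩ := hnb v
    have h1 : 0 < (nbG G v).card := by
      refine Finset.card_pos.2 ⟨u, ?_⟩
      unfold nbG
      rw [mem_filter]
      exact ⟨mem_univ _, hu⟩
    exact h1.trans_le (hdeg v)
  -- treewidth
  obtain ⟨k', hk'⟩ : ∃ k', k' = min k n := ⟨_, rfl⟩
  have htw' : TwLE G k' := by
    rw [hk', hn]
    exact ua_tw htw
  have hk1 : k' ≤ k := by
    rw [hk']
    exact min_le_left _ _
  have hk2 : k' ≤ n := by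
    rw [hk']
    exact min_le_right _ _
  -- the variables
  obtain ⟨M, hM⟩ : ∃ M, M = D * n := ⟨_, rfl⟩
  have hM1 : 0 < M := by
    rw [hM]
    exact Nat.mul_pos hD (by omega)
  rw [← hM] at hνM
  obtain ⟨v0, hv0⟩ : ∃ v0 : Fin M, v0 = ⟨0, hM1⟩ := ⟨_, rfl⟩
  obtain ⟨μ, hμ⟩ : ∃ μ : Sym2 V → Fin M, ∀ g ∈ G.edgeSet, (μ g : ℕ) = ν g := by
    refine ⟨fun g => if h : ν g < M then ⟨ν g, h⟩ else v0, fun g hg => ?_⟩
    have h1 := hνM g hg
    simp only [h1, dif_pos]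
  have hμi : Set.InjOn μ G.edgeSet := by
    intro g hg g' hg' h
    refine hν hg hg' ?_
    rw [← hμ g hg, ← hμ g' hg', h]
  -- the balanced formulas
  obtain ⟨dd, hddd⟩ : ∃ dd, dd = Nat.clog 2 (D * (k' + 1)) := ⟨_, rfl⟩
  have hDk : 1 ≤ D * (k' + 1) := Nat.mul_pos hD (Nat.succ_pos _)
  obtain ⟨hd1, hd2⟩ := ua_clog (D * (k' + 1)) hDk
  rw [← hddd] at hd1 hd2
  have hDd : D ≤ 2 ^ dd := (Nat.le_mul_of_pos_right _ (Nat.succ_pos _)).trans hd1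
  obtain ⟨Γ', hΓ'⟩ : ∃ Γ' : Set (Fm (Fin M)), Γ' = {A | A.ren Fin.val ∈ Ts D G ν c} := ⟨_, rfl⟩
  obtain ⟨X, hXd⟩ : ∃ X, X = Ax (S0 ℓ0) Γ' := ⟨_, rfl⟩
  have hX : Full ℓ0 X := by
    rw [hXd]
    exact fun ψ hψ σ => Or.inr ⟨ψ, hψ, σ, rfl⟩
  have hX1 : Full 1000 X := by
    rw [hXd]
    exact fun ψ hψ σ => Or.inr ⟨ψ, ⟨hψ.1.trans (by omega), hψ.2⟩, σ, rfl⟩
  obtain ⟨s, hs⟩ : ∃ s, s = ℓ0 * 4 ^ dd := ⟨_, rfl⟩
  have h4d : 1 ≤ 4 ^ dd := Nat.one_le_pow _ _ (by norm_num)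
  have hs1 : 1000 * 4 ^ dd ≤ s := by
    rw [hs]
    exact Nat.mul_le_mul_right _ (by omega)
  have hs2 : ℓ0 ≤ s := by
    rw [hs]
    exact Nat.le_mul_of_pos_right _ (by omega)
  have hstar : ∀ v, ∀ l : List (Fm (Fin M)), Dr X l →
      ∃ l', Ex X s s (2 * 2 ^ D + 7 + D * (2 * dd + 4)) 0 l l' ∧
        sgn (c v) (Bal dd v0 (bdm G μ {v})) ∈ l' := by
    intro v l hl
    obtain ⟨Cs, hCs0, hCs1, hCs2, hCs3⟩ := ubcl hdeg hν μ hμ c v (hnb v) v0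
    have hbc : (bdm G μ {v}).card ≤ D := bdm_single hdeg v
    have hlen : (bdm G μ {v}).toList.length ≤ D := by
      rw [Finset.length_toList]
      exact hbc
    obtain ⟨l1, e1, k1⟩ := clauses (s := s) (b := s) hX Fin.val
      (fun i => if h : i < M then ⟨i, h⟩ else v0)
      (fun e => by simp) (q := 4 * D) Cs (by
        intro A hA
        rw [hXd]
        refine Or.inl ?_
        rw [hΓ']
        exact (hCs2 A hA).1) (fun A hA => (hCs2 A hA).2) (bdm G μ {v}).toList (c v) hCs3 (by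
        have h1 : Cs.length * (4 * D + 1) ≤ 2 ^ D * (4 * D + 1) := Nat.mul_le_mul_right _ hCs1
        have h2 : 2 ^ (bdm G μ {v}).toList.length ≤ 2 ^ D :=
          Nat.pow_le_pow_right (by norm_num) hlen
        omega) hs2 le_rfl hl
    obtain ⟨l2, e2, k2⟩ := star (v0 := v0) hX1 hs1 le_rfl (hbc.trans hDd) (by
        have h2 : 2 ^ (bdm G μ {v}).card ≤ 2 ^ D := Nat.pow_le_pow_right (by norm_num) hbc
        omega) (c v) e1.dr k1
    refine ⟨l2, (e1.trans e2).mono ?_ (by omega), k2⟩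
    have h1 : (bdm G μ {v}).card * (2 * dd + 4) ≤ D * (2 * dd + 4) :=
      Nat.mul_le_mul_right _ hbc
    omega
  obtain ⟨n1, l1, e1, -, hn1, k1⟩ := ubtd hdeg hμi hX1 hs1 hd1 c hstar (td_of_tw htw') [] Dr.nil
  have hn1' := hn1 Finset.univ_nonempty
  rw [bdm_univ] at k1
  have hod : odF c (univ : Finset V) = true := by
    unfold odF
    exact decide_eq_true hodd
  rw [hod] at k1
  obtain ⟨l2, e2, k2⟩ := ex_nbot (v0 := v0) hX1 hs1 (le_refl s) e1.dr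
  have hTT : Bal dd v0 (∅ : Finset (Fin M)) = T dd fun _ => bot v0 := balX_empty _
  rw [hTT] at k1
  have k1' : (T dd fun _ => bot v0 : Fm (Fin M)) ∈ l2 := e2.sub k1
  have e3 := e1.trans e2
  have hall : ∀ A ∈ l2, A.len ≤ s := by
    intro A hA
    rcases e3.2.2.2.2 A hA with h1 | h1
    · exact absurd h1 (List.not_mem_nil)
    · exact h1
  have hl2 : l2.length ≤ n1 + 1 := by
    have := e3.2.2.1
    simpa using this
  have hdr : Dr (Ax (S0 ℓ0) Γ') l2 := by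
    rw [← hXd]
    exact e3.dr
  obtain ⟨l3, hl3, hsub, hln, -, hlb⟩ := hsim (Fin M) v0 Γ' l2 hdr s s hall
  obtain ⟨pf, hpf, hpf1, hpf2⟩ := to_der hl3
  have henc : ∀ A : Fm (Fin M), (A.ren Fin.val).enc.length ≤ A.len * (2 * Nat.size M + 2) :=
    fun A => enc_le Fin.val M (fun v => v.isLt) A
  have h4E : (4 : ℕ) ^ dd = (2 ^ dd) ^ 2 := by
    rw [← pow_mul, mul_comm, pow_mul]
    norm_num
  have hE1 : 1 ≤ 2 ^ dd := Nat.one_le_two_pow
  refine ⟨l3.length, fun i => (pf i).ren Fin.val, ?_, ?_, ?_, ?_⟩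
  · refine ua_mono (isDer_ren hpf Fin.val) ?_
    rintro A ⟨B, hB, rfl⟩
    rw [hΓ'] at hB
    exact hB
  · obtain ⟨i, hi⟩ := hpf2 _ (hsub _ k2)
    obtain ⟨j, hj⟩ := hpf2 _ (hsub _ k1')
    refine ⟨i, j, ?_⟩
    simp only [hi, hj]
    rfl
  · have hcd : Fintype.card V = (univ : Finset V).card := rfl
    rw [← hcd, ← hn] at hn1'
    have hKK := ua_K (D := D) (E := 2 ^ dd) (dd := dd) (q := 2 ^ D) hE1 (Nat.lt_two_pow_self).le
    rw [← ha] at hKK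
    have h1 : l3.length ≤ c1 * (2 * (2 * 2 ^ D + 7 + D * (2 * dd + 4) +
        (2 * 2 ^ dd * (4 * dd + 6) + 3) + 5) * n + 1) := by
      refine hln.trans (Nat.mul_le_mul_left _ (hl2.trans ?_))
      generalize 2 * (2 * 2 ^ D + 7 + D * (2 * dd + 4) +
        (2 * 2 ^ dd * (4 * dd + 6) + 3) + 5) * n = z at hn1' ⊢
      omega
    have h2 := ua_L hD hcV hk2 hd2 hKK h1
    refine h2.trans (Nat.pow_le_pow_right (by omega) (Nat.le_add_right _ _))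
  · intro i
    have h1 : ((pf i).ren Fin.val).enc.length ≤
        c1 * (ℓ0 * (2 ^ dd) ^ 2) * (2 * Nat.size (D * n) + 2) := by
      refine (henc (pf i)).trans ?_
      rw [← hM]
      refine Nat.mul_le_mul_right _ ?_
      rw [← h4E, ← hs]
      exact hlb _ (hpf1 i)
    have h2 := ua_enc hcV hk1 hd2 h1
    refine h2.trans ?_
    refine Nat.mul_le_mul_right _ (Nat.mul_le_mul_right _ ?_)
    exact Nat.le_add_left _ _

end Pool.Agent.H55.AG
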