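import Mathlib
import Pool.Agent.H55.AG.UbCl
import Pool.Agent.H90.UB.Conn

set_option autoImplicit false
set_option linter.unusedSectionVars false

/-!
# Module UBP: the Tseitin formula of `G` is a system of linear equations in the sense of `UBP`

PROOF. (As `graph_ubp` in `H90/UB/Conn.lean`; the private lemmas there can be copied.) `n := card V`, `1 ≤ D` (a vertex has a
neighbour), `M := D * n`, `v0 := (0 : Fin M)`, `μ g := if h : ν g < M then ⟨ν g, h⟩ else v0`. `ubcl` for every `v` gives `Cs v` (choose).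
`w : Fin n ≃ V`. `hh := Nat.clog 2 n`. `A0 :=` the head of `Cs (w 0)`. `C' i := if h : i / 2 ^ D < n then (Cs (w ⟨i / 2 ^ D, h⟩)).getD (i % 2 ^ D) A0 else A0`,
`C i := (C' i).ren Fin.val ∈ Ts D G ν c`. `inc v := if h : v < n then bdm G μ {w ⟨v, h⟩} else ∅`, `ch v := if h : v < n then c (w ⟨v, h⟩) else false`.
`I v := (List.range (Cs ..).length).map (fun j => v * 2 ^ D + j)` for `v < n` (`(Cs ..).length ≤ 2 ^ D`; `C' (v * 2 ^ D + j) = (Cs ..)[j]`, for
`j < 2 ^ D`), `[]` otherwise (`chain v0 [] = bot v0` is false, `eval_bot`).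
`SD inc hh 0 = ∅`: by `sg_SD` the sign of an element is `∏ u, sg (mm e (inc u))`; every edge `s(x, y)` is in exactly the two sets of `x`
and `y` (`mem_bdm`), an element that is not a `μ g` is in none. `CD ch hh 0 = true`: `∏ v, sg (c v) = -1` because the number of `v` with
`c v = true` is odd (`Finset.prod_ite`/`prod_pow`: `∏ v, (if c v then -1 else 1) = (-1) ^ card`).
-/

namespace Pool.Agent.H55.AG

open Finset Classical Pool.Agent.H3.Frg Pool.Agent.H3.Frg2 Pool.Agent.H3.Frg4 Pool.Agent.H90.UB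

private theorem sg_xor (a c : Bool) : sg (xor a c) = sg a * sg c := by
  cases a <;> cases c <;> simp [sg]

private theorem sg_inj {a c : Bool} (h : sg a = sg c) : a = c := by
  cases a <;> cases c <;> simp_all [sg] <;> norm_num at h

private theorem sg_CD (ch : ℕ → Bool) (h : ℕ) : ∀ v,
    sg (CD ch h v) = ∏ u ∈ Finset.range (2 ^ h), sg (ch (v + u)) := by
  induction h with
  | zero => intro v; simp [CD]
  | succ h ih =>
    intro v
    simp only [CD]
    rw [sg_xor, ih, ih, pow_succ, mul_two, Finset.prod_range_add]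
    congr 1
    exact Finset.prod_congr rfl fun u _ => by rw [add_assoc]

private def mm {V : Type} [DecidableEq V] (e : V) (A : Finset V) : Bool := decide (e ∈ A)

private theorem mm_true {V : Type} [DecidableEq V] {e : V} {A : Finset V} (h : e ∈ A) :
    mm e A = true := by
  unfold mm; exact decide_eq_true h

private theorem mm_false {V : Type} [DecidableEq V] {e : V} {A : Finset V} (h : e ∉ A) :
    mm e A = false := by
  unfold mm; exact decide_eq_false h

private theorem mm_symm {V : Type} [DecidableEq V] (e : V) (A B : Finset V) :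
    mm e (symmDiff A B) = xor (mm e A) (mm e B) := by
  by_cases h2 : e ∈ A <;> by_cases h3 : e ∈ B
  · rw [mm_true h2, mm_true h3, mm_false (by simp [Finset.mem_symmDiff, h2, h3])]; rfl
  · rw [mm_true h2, mm_false h3, mm_true (by simp [Finset.mem_symmDiff, h2, h3])]; rfl
  · rw [mm_false h2, mm_true h3, mm_true (by simp [Finset.mem_symmDiff, h2, h3])]; rfl
  · rw [mm_false h2, mm_false h3, mm_false (by simp [Finset.mem_symmDiff, h2, h3])]; rfl

private theorem sg_SD {V : Type} [DecidableEq V] (inc : ℕ → Finset V) (e : V) (h : ℕ) : ∀ v,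
    sg (mm e (SD inc h v)) = ∏ u ∈ Finset.range (2 ^ h), sg (mm e (inc (v + u))) := by
  induction h with
  | zero => intro v; rw [pow_zero, Finset.prod_range_one]; rfl
  | succ h ih =>
    intro v
    have h1 : SD inc (h + 1) v = symmDiff (SD inc h v) (SD inc h (v + 2 ^ h)) := rfl
    rw [h1, mm_symm, sg_xor, ih, ih, pow_succ, mul_two, Finset.prod_range_add]
    congr 1
    exact Finset.prod_congr rfl fun u _ => by rw [add_assoc]

/-- products over the vertices -/
private theorem prod_pad {Wv : Type} [Fintype Wv] {m : ℕ} (hm : Fintype.card Wv ≤ m)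
    (w : Fin (Fintype.card Wv) ≃ Wv) (G : Wv → ℝ) (F : ℕ → ℝ)
    (h1 : ∀ (u : ℕ) (h : u < Fintype.card Wv), F u = G (w ⟨u, h⟩))
    (h2 : ∀ u, Fintype.card Wv ≤ u → F u = 1) :
    ∏ u ∈ Finset.range m, F u = ∏ v : Wv, G v := by
  have h3 : ∏ u ∈ Finset.range m, F u = ∏ u ∈ Finset.range (Fintype.card Wv), F u := by
    symm
    refine Finset.prod_subset (Finset.range_subset_range.2 hm) fun u _ hu => ?_
    rw [Finset.mem_range, not_lt] at hu
    exact h2 u hu
  rw [h3, Finset.prod_range, ← Equiv.prod_comp w]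
  exact Finset.prod_congr rfl fun u _ => h1 u u.isLt

private theorem getD_cases {α : Type} (l : List α) (j : ℕ) (a : α) :
    l.getD j a ∈ l ∨ l.getD j a = a := by
  by_cases h : j < l.length
  · left
    rw [List.getD_eq_getElem _ _ h]
    exact List.getElem_mem h
  · right
    exact List.getD_eq_default _ _ (not_lt.1 h)

private theorem prod_one_neg {V : Type} [Fintype V] (x : V) :
    ∏ v : V, (if x = v then (-1 : ℝ) else 1) = -1 := by
  rw [Finset.prod_ite_eq, if_pos (mem_univ x)]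

private theorem sg_bdm {V : Type} [Fintype V] {G : SimpleGraph V} {V' : Type} [DecidableEq V']
    {μ : Sym2 V → V'} (hμ : Set.InjOn μ G.edgeSet) {x y : V} (h : G.Adj x y) (v : V) :
    sg (mm (μ s(x, y)) (bdm G μ {v})) =
      (if x = v then (-1 : ℝ) else 1) * (if y = v then (-1 : ℝ) else 1) := by
  have h1 := mem_bdm hμ h (F := {v})
  rw [mem_singleton, mem_singleton] at h1
  by_cases hx : x = v
  · by_cases hy : y = v
    · rw [if_pos hx, if_pos hy, mm_false fun h2 => h1.1 h2 ⟨fun _ => hy, fun _ => hx⟩]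
      simp [sg]
    · rw [if_pos hx, if_neg hy, mm_true (h1.2 fun h2 => hy (h2.1 hx))]
      simp [sg]
  · by_cases hy : y = v
    · rw [if_neg hx, if_pos hy, mm_true (h1.2 fun h2 => hx (h2.2 hy))]
      simp [sg]
    · rw [if_neg hx, if_neg hy, mm_false fun h2 => h1.1 h2 ⟨fun h3 => absurd h3 hx,
        fun h3 => absurd h3 hy⟩]
      simp [sg]

private theorem prod_bdm {V : Type} [Fintype V] {G : SimpleGraph V} {V' : Type} [DecidableEq V']
    {μ : Sym2 V → V'} (hμ : Set.InjOn μ G.edgeSet) (e : V') :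
    ∏ v : V, sg (mm e (bdm G μ {v})) = 1 := by
  by_cases he : ∃ v, e ∈ bdm G μ {v}
  · obtain ⟨v, hv⟩ := he
    unfold bdm at hv
    rw [mem_image] at hv
    obtain ⟨p, hp, rfl⟩ := hv
    unfold cutG at hp
    rw [mem_filter] at hp
    rw [Finset.prod_congr rfl fun v _ => sg_bdm hμ hp.2.1 v, Finset.prod_mul_distrib,
      prod_one_neg, prod_one_neg]
    norm_num
  · refine Finset.prod_eq_one fun v _ => ?_
    rw [mm_false fun h => he ⟨v, h⟩]
    simp [sg]

private theorem prod_charge {V : Type} [Fintype V] {c : V → Bool}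
    (hc : Odd (univ.filter fun v => c v = true).card) : ∏ v : V, sg (c v) = -1 := by
  have h1 : ∀ v ∈ (univ : Finset V), sg (c v) = if c v = true then (-1 : ℝ) else 1 :=
    fun v _ => rfl
  rw [Finset.prod_congr rfl h1, Finset.prod_ite, Finset.prod_const, Finset.prod_const_one,
    mul_one, hc.neg_one_pow]

theorem ubpg {V : Type} [Fintype V] (G : SimpleGraph V) {D : ℕ} (hG : G.Connected)
    (h2 : 2 ≤ Fintype.card V) (hdeg : ∀ v, (nbG G v).card ≤ D) {ν : Sym2 V → ℕ}
    (hν : Set.InjOn ν G.edgeSet) (hνM : ∀ g ∈ G.edgeSet, ν g < D * Fintype.card V)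
    {c : V → Bool} (hc : Odd (univ.filter fun v => c v = true).card) :
    1 ≤ D ∧ ∃ C : ℕ → Fm ℕ, (∀ i, C i ∈ Ts D G ν c) ∧ UBP D (Fintype.card V) C := by
  have hnb : ∀ v, ∃ u, G.Adj v u := by
    intro v
    have : Nontrivial V := Fintype.one_lt_card_iff_nontrivial.1 (by omega)
    obtain ⟨u, hu⟩ := exists_ne v
    obtain ⟨q⟩ := hG.preconnected v u
    cases q with
    | nil => exact absurd rfl hu
    | cons h _ => exact ⟨_, h⟩
  obtain ⟨v1⟩ : Nonempty V := hG.nonempty
  have hD : 1 ≤ D := by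
    obtain ⟨u, hu⟩ := hnb v1
    refine le_trans ?_ (hdeg v1)
    rw [Nat.one_le_iff_ne_zero, Finset.card_ne_zero]
    exact ⟨u, by unfold nbG; rw [mem_filter]; exact ⟨mem_univ _, hu⟩⟩
  refine ⟨hD, ?_⟩
  obtain ⟨M, hM⟩ : ∃ M, M = D * Fintype.card V := ⟨_, rfl⟩
  have hM0 : 0 < M := by
    rw [hM]
    exact Nat.mul_pos (by omega) (by omega)
  obtain ⟨v0, hv0⟩ : ∃ v0 : Fin M, (v0 : ℕ) = 0 := ⟨⟨0, hM0⟩, rfl⟩
  obtain ⟨μ, hμ⟩ : ∃ μ : Sym2 V → Fin M, ∀ g ∈ G.edgeSet, (μ g : ℕ) = ν g := by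
    refine ⟨fun g => if h : ν g < M then ⟨ν g, h⟩ else v0, fun g hg => ?_⟩
    have h : ν g < M := by
      rw [hM]
      exact hνM g hg
    simp only [dif_pos h]
  have hμi : Set.InjOn μ G.edgeSet := by
    intro g hg g' hg' h
    refine hν hg hg' ?_
    rw [← hμ g hg, ← hμ g' hg', h]
  choose Cs hCs1 hCs2 hCs3 hCs4 using fun v => ubcl hdeg hν μ hμ c v (hnb v) v0
  obtain ⟨w⟩ : Nonempty (Fin (Fintype.card V) ≃ V) := ⟨(Fintype.equivFin V).symm⟩
  obtain ⟨A0, hA0⟩ : ∃ A0, A0 ∈ Cs v1 := List.exists_mem_of_ne_nil _ (hCs1 v1)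
  obtain ⟨C', hC'1, hC'2⟩ : ∃ C' : ℕ → Fm (Fin M),
      (∀ i (h : i / 2 ^ D < Fintype.card V),
        C' i = (Cs (w ⟨i / 2 ^ D, h⟩)).getD (i % 2 ^ D) A0) ∧
      ∀ i, ¬ i / 2 ^ D < Fintype.card V → C' i = A0 :=
    ⟨fun i => if h : i / 2 ^ D < Fintype.card V then
      (Cs (w ⟨i / 2 ^ D, h⟩)).getD (i % 2 ^ D) A0 else A0,
      fun i h => dif_pos h, fun i h => dif_neg h⟩
  have hC'3 : ∀ i, ∃ v, C' i ∈ Cs v := by
    intro i
    by_cases h : i / 2 ^ D < Fintype.card V
    · rw [hC'1 i h]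
      rcases getD_cases (Cs (w ⟨i / 2 ^ D, h⟩)) (i % 2 ^ D) A0 with h3 | h3
      · exact ⟨_, h3⟩
      · refine ⟨v1, ?_⟩
        rw [h3]
        exact hA0
    · refine ⟨v1, ?_⟩
      rw [hC'2 i h]
      exact hA0
  obtain ⟨inc, hinc1, hinc2⟩ : ∃ inc : ℕ → Finset (Fin M),
      (∀ v (h : v < Fintype.card V), inc v = bdm G μ {w ⟨v, h⟩}) ∧
      ∀ v, ¬ v < Fintype.card V → inc v = ∅ :=
    ⟨fun v => if h : v < Fintype.card V then bdm G μ {w ⟨v, h⟩} else ∅,
      fun v h => dif_pos h, fun v h => dif_neg h⟩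
  obtain ⟨ch, hch1, hch2⟩ : ∃ ch : ℕ → Bool,
      (∀ v (h : v < Fintype.card V), ch v = c (w ⟨v, h⟩)) ∧
      ∀ v, ¬ v < Fintype.card V → ch v = false :=
    ⟨fun v => if h : v < Fintype.card V then c (w ⟨v, h⟩) else false,
      fun v h => dif_pos h, fun v h => dif_neg h⟩
  have hhh : Fintype.card V ≤ 2 ^ Nat.clog 2 (Fintype.card V) :=
    Nat.le_pow_clog (by norm_num) _
  refine ⟨fun i => (C' i).ren Fin.val, fun i => ?_, M, Nat.clog 2 (Fintype.card V), v0, C', inc,
    ch, hM.le, hhh, ?_, fun i => rfl, ?_, ?_, ?_, ?_, ?_⟩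
  · obtain ⟨v, hv⟩ := hC'3 i
    exact (hCs3 v _ hv).1
  · have h3 : 2 ^ (Nat.clog 2 (Fintype.card V) - 1) < Fintype.card V := by
      have := Nat.pow_pred_clog_lt_self (b := 2) (by norm_num) (by omega : 1 < Fintype.card V)
      simpa using this
    have h4 : 0 < Nat.clog 2 (Fintype.card V) := Nat.clog_pos (by norm_num) (by omega)
    calc 2 ^ Nat.clog 2 (Fintype.card V) = 2 * 2 ^ (Nat.clog 2 (Fintype.card V) - 1) := by
          rw [← pow_succ']; congr 1; omega
      _ ≤ 2 * Fintype.card V := by omega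
  · intro i
    obtain ⟨v, hv⟩ := hC'3 i
    exact (hCs3 v _ hv).2
  · intro v
    by_cases h : v < Fintype.card V
    · rw [hinc1 v h]
      exact bdm_single hdeg _
    · rw [hinc2 v h, Finset.card_empty]
      exact Nat.zero_le _
  · rw [Finset.eq_empty_iff_forall_notMem]
    intro e he
    have h1 := sg_SD inc e (Nat.clog 2 (Fintype.card V)) 0
    rw [mm_true he] at h1
    have h3 : ∏ u ∈ Finset.range (2 ^ Nat.clog 2 (Fintype.card V)),
        sg (mm e (inc (0 + u))) = ∏ v : V, sg (mm e (bdm G μ {v})) := by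
      refine prod_pad hhh w _ _ (fun u hu => ?_) (fun u hu => ?_)
      · rw [zero_add, hinc1 u hu]
      · rw [zero_add, hinc2 u (not_lt.2 hu), mm_false (Finset.notMem_empty _)]
        simp [sg]
    rw [h3, prod_bdm hμi] at h1
    simp only [sg] at h1
    norm_num at h1
  · have h1 := sg_CD ch (Nat.clog 2 (Fintype.card V)) 0
    have h3 : ∏ u ∈ Finset.range (2 ^ Nat.clog 2 (Fintype.card V)), sg (ch (0 + u)) =
        ∏ v : V, sg (c v) := by
      refine prod_pad hhh w _ _ (fun u hu => ?_) (fun u hu => ?_)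
      · rw [zero_add, hch1 u hu]
      · rw [zero_add, hch2 u (not_lt.2 hu)]
        simp [sg]
    rw [h3, prod_charge hc] at h1
    apply sg_inj
    rw [h1]
    simp [sg]
  · intro v
    by_cases hv : v < Fintype.card V
    · refine ⟨(List.range (Cs (w ⟨v, hv⟩)).length).map fun j => v * 2 ^ D + j, ?_,
        fun x hx => ?_⟩
      · rw [List.length_map, List.length_range]
        exact hCs2 _
      · rw [hinc1 v hv, hch1 v hv]
        refine hCs4 (w ⟨v, hv⟩) x fun A hA => ?_
        obtain ⟨j, hj, rfl⟩ := List.getElem_of_mem hA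
        have hjD : j < 2 ^ D := lt_of_lt_of_le hj (hCs2 _)
        have h3 := hx (v * 2 ^ D + j) (List.mem_map.2 ⟨j, List.mem_range.2 hj, rfl⟩)
        have hp : 0 < 2 ^ D := by positivity
        have e1 : (v * 2 ^ D + j) / 2 ^ D = v := by
          rw [Nat.add_comm, Nat.add_mul_div_right _ _ hp, Nat.div_eq_of_lt hjD, zero_add]
        have e2 : (v * 2 ^ D + j) % 2 ^ D = j := by
          rw [Nat.add_comm, Nat.add_mul_mod_self_right, Nat.mod_eq_of_lt hjD]
        have e3 : C' (v * 2 ^ D + j) = (Cs (w ⟨v, hv⟩))[j] := by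
          rw [hC'1 _ (by rw [e1]; exact hv), e2]
          have e4 : (⟨(v * 2 ^ D + j) / 2 ^ D, by rw [e1]; exact hv⟩ : Fin (Fintype.card V)) =
              ⟨v, hv⟩ := Fin.ext e1
          rw [e4, List.getD_eq_getElem _ _ hj]
        rw [← e3]
        exact h3
    · refine ⟨[], Nat.zero_le _, fun x _ => ?_⟩
      rw [hinc2 v hv, hch2 v hv, Finset.toList_empty]
      exact eval_bot _ x

end Pool.Agent.H55.AG
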