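import Mathlib
import Pool.Agent.H55.AG.UbP
import Pool.Agent.H90.UB.Fin

set_option autoImplicit false
set_option linter.unusedSectionVars false

/-!
# Module UBB: upper bound, number of long lines

PROOF. As `ub_final` in `H90/UB/Fin.lean`, with `x = n = card V` in the place of `|τ|` and `dd = 0`: `bigAnd 0 C = C 0`, so `ub_fixed` (with
`UBP D n C` from `ubpg`) gives a derivation of `¬ C 0` from `Set.range C ⊆ Ts D G ν c`; one more line `C 0` (an axiom) at the end makes it a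
refutation (`Fin.snoc`, or `to_der`-like; its size is at most the size of `¬ C 0`, so it is short or its negation is long).
`1 ≤ D`. `(Fm.neg (C 0)).len ≤ 4 * D + 1` (`UBP`), `≤ 4 ^ d` in `ub_fixed` as soon as `4 * D + 1 ≤ 4 ^ d` (choose `d` so).
Choice of `g`, `d` as in `ub_final`: `g := Nat.clog 2 (D * n)`, `2 ^ g ≤ 2 * D * n`. The bound on long lines is
`c * ((g + 1) ^ 2 * mt d (2 * D * n) + 0) / 2 ^ d`, where `mt d a = 0` if `a ≤ 2 ^ d` and `a` otherwise (see `mt` in `H90/UB/Trie.lean`), lines of size at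
most `c * 4 ^ d * (2 * Nat.size (D * n) + 2)` are not long. Case `N` large / small as there: take `2 ^ d ≈ n * (g + 1) ^ 2 * const / (N - 1)` for
`N ≥ 2` and `2 ^ d ≥ 2 * D * n` for `N = 1` (then no long lines). Then `4 ^ d * const * (g + 1) ≤ n ^ (2 + e) / N ^ 2` for large `n` (`ev_pow`),
the number of lines is at most `c * (n * 2 ^ g * (2 ^ d * (d + 1))) ≤ n ^ 4 - 1`, sizes at most `n ^ 5`.
`n0` depends on `D`, `e`, `F` only.
-/

namespace Pool.Agent.H55.AG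

open Finset Classical Filter Topology Pool.Agent.H3.Frg Pool.Agent.H3.Frg2 Pool.Agent.H3.Frg4
  Pool.Agent.H90.UB

private theorem clog_le (M : ℕ) (hM : 1 ≤ M) : M ≤ 2 ^ Nat.clog 2 M ∧ 2 ^ Nat.clog 2 M ≤ 2 * M := by
  refine ⟨Nat.le_pow_clog (by norm_num) _, ?_⟩
  rcases Nat.lt_or_ge 1 M with h | h
  · have h3 : 2 ^ (Nat.clog 2 M - 1) < M := by
      have := Nat.pow_pred_clog_lt_self (b := 2) (by norm_num) h
      simpa using this
    have h4 : 0 < Nat.clog 2 M := Nat.clog_pos (by norm_num) h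
    calc 2 ^ Nat.clog 2 M = 2 * 2 ^ (Nat.clog 2 M - 1) := by
          rw [← pow_succ']; congr 1; omega
      _ ≤ 2 * M := by omega
  · have h3 : M = 1 := by omega
    rw [h3]
    simp

private theorem ubb_aux {F : Set (Fm ℕ)} (hF : Pool.Agent.H90.UB.Compl F) (D : ℕ) (hD : 1 ≤ D)
    (e : ℝ) (he : 0 < e) : ∃ n0 : ℕ, ∀ X : ℕ, n0 ≤ X → ∀ C : ℕ → Fm ℕ, UBP D X C →
    ∀ N : ℕ, 1 ≤ N → N ≤ X →
    ∃ (L : ℕ) (pf : Fin L → Fm ℕ), IsDer F (Set.range C) pf ∧ (∃ i, pf i = Fm.neg (C 0)) ∧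
      L + 1 ≤ X ^ 4 ∧ (∀ i, (pf i).enc.length ≤ X ^ 5) ∧
      ∃ s : ℕ, (C 0).enc.length ≤ s ∧ (s : ℝ) ≤ (X : ℝ) ^ (2 + e) / (N : ℝ) ^ 2 ∧
        (({A | (∃ i, A = pf i) ∧ s < A.enc.length}.ncard : ℕ) : ℝ) ≤
          ((N : ℝ) - 1) * (X : ℝ) ^ e := by
  obtain ⟨c, hc, hfix⟩ := ub_fixed hF D hD
  obtain ⟨T, hT⟩ : ∃ T, T = 10000 * c * D ^ 4 := ⟨_, rfl⟩
  obtain ⟨a, ha⟩ : ∃ a, a = D + 30 := ⟨_, rfl⟩
  obtain ⟨m1, hm1⟩ := eventually_atTop.1 (ev_pow e he a T)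
  obtain ⟨m2, hm2⟩ := eventually_atTop.1 (ev_pow 1 one_pos a T)
  refine ⟨2 ^ (m1 + m2), ?_⟩
  intro X hX C hU N hN1 hNX
  have hX0 : 1 ≤ X := le_trans Nat.one_le_two_pow hX
  obtain ⟨m, hm⟩ : ∃ m, m = Nat.log 2 X := ⟨_, rfl⟩
  have hmX : 2 ^ m ≤ X := by rw [hm]; exact Nat.pow_log_le_self 2 (by omega)
  have hXm : X < 2 ^ (m + 1) := by rw [hm]; exact Nat.lt_pow_succ_log_self (by norm_num) X
  have hmm : m1 + m2 ≤ m := by
    by_contra h
    push Not at h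
    have h1 : 2 ^ (m + 1) ≤ 2 ^ (m1 + m2) := Nat.pow_le_pow_right (by norm_num) h
    omega
  have he1 := hm1 m (by omega)
  have he2 := hm2 m (by omega)
  obtain ⟨q, hq⟩ : ∃ q, q = a * (m + 1) := ⟨_, rfl⟩
  rw [← hq] at he1 he2
  rw [Real.rpow_one] at he2
  have he2' : T * q ^ 2 ≤ 2 ^ m := by exact_mod_cast he2
  have h2n : 1 ≤ 2 ^ m := Nat.one_le_two_pow
  have hq1 : 1 ≤ q := by rw [hq, ha]; exact Nat.mul_pos (by omega) (by omega)
  have hqq : q ≤ q ^ 2 := Nat.le_self_pow (by omega) q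
  have hDX : 16 * D * X ≤ 2 ^ (q - 2) := by
    have h1 : 16 * D ≤ 2 ^ (D + 4) := by
      have := (Nat.lt_two_pow_self (n := D)).le
      rw [pow_add]
      omega
    have h2 : 16 * D * X ≤ 2 ^ (D + 4) * 2 ^ (m + 1) := Nat.mul_le_mul h1 hXm.le
    refine h2.trans ?_
    rw [← pow_add]
    refine Nat.pow_le_pow_right (by norm_num) ?_
    rw [hq, ha]
    have h3 : (D + 30) * (m + 1) = D * m + D + 30 * m + 30 := by ring
    rw [h3]
    omega
  have hq2 : 2 ≤ q := by rw [hq, ha]; nlinarith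
  -- the size of the names
  have hsize : Nat.size (D * X) ≤ q := by
    rw [Nat.size_le]
    refine lt_of_le_of_lt ?_ (lt_of_le_of_lt hDX (Nat.pow_lt_pow_right (by norm_num)
      (show q - 2 < q by omega)))
    calc D * X = 1 * D * X := by ring
      _ ≤ 16 * D * X := by gcongr; norm_num
  obtain ⟨Λ, hΛ⟩ : ∃ Λ, Λ = 2 * Nat.size (D * X) + 2 := ⟨_, rfl⟩
  have hΛq : Λ ≤ 4 * q := by omega
  -- choice of `g` and `d`
  obtain ⟨g, hg⟩ : ∃ g, g = Nat.clog 2 (D * X) := ⟨_, rfl⟩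
  obtain ⟨hg1, hg2⟩ := clog_le (D * X) (Nat.mul_pos hD hX0)
  rw [← hg] at hg1 hg2
  obtain ⟨Y, hY⟩ : ∃ Y, Y = 2 * D * X / N := ⟨_, rfl⟩
  obtain ⟨M, hM⟩ : ∃ M, M = Y + 4 * D + 1 := ⟨_, rfl⟩
  obtain ⟨d, hd⟩ : ∃ d, d = Nat.clog 2 M := ⟨_, rfl⟩
  obtain ⟨hd1, hd2⟩ := clog_le M (by omega)
  rw [← hd] at hd1 hd2
  have hDd : D ≤ 2 ^ d := by omega
  have h24 : 2 ^ d ≤ 4 ^ d := Nat.pow_le_pow_left (by norm_num) d
  have hMN : 2 * D * X ≤ M * N := by
    have h1 := Nat.lt_div_mul_add (a := 2 * D * X) (show 0 < N by omega)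
    rw [← hY] at h1
    have h2 : M * N = Y * N + (4 * D + 1) * N := by rw [hM]; ring
    have h3 : N ≤ (4 * D + 1) * N := Nat.le_mul_of_pos_left _ (by omega)
    omega
  have hdN : 2 * D * X ≤ 2 ^ d * N := hMN.trans (Nat.mul_le_mul_right _ hd1)
  have hdX : 2 ^ d * N ≤ 16 * D * X := by
    have h1 : 2 ^ d * N ≤ 2 * M * N := Nat.mul_le_mul_right _ hd2
    have h2 : 2 * M * N = 2 * (Y * N) + 2 * (4 * D + 1) * N := by rw [hM]; ring
    have h3 : Y * N ≤ 2 * D * X := by rw [hY]; exact Nat.div_mul_le_self _ _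
    have h5 : 2 * (4 * D + 1) * N ≤ 2 * (4 * D + 1) * X := Nat.mul_le_mul_left _ hNX
    have h6 : 2 * (4 * D + 1) * X = 8 * (D * X) + 2 * X := by ring
    have h7 : 16 * D * X = 16 * (D * X) := by ring
    have h8 : 2 * D * X = 2 * (D * X) := by ring
    have h9 : X ≤ D * X := Nat.le_mul_of_pos_left _ (by omega)
    omega
  have hdX1 : 2 ^ d ≤ 16 * D * X := (Nat.le_mul_of_pos_right _ (by omega)).trans hdX
  have hgX : 2 ^ g ≤ 2 * D * X := by
    refine hg2.trans ?_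
    rw [← mul_assoc]
  have hdq : d + 1 ≤ q := by
    have h1 : 2 ^ d ≤ 2 ^ (q - 2) := hdX1.trans hDX
    have h2 := (Nat.pow_le_pow_iff_right (by norm_num : 1 < 2)).1 h1
    omega
  have hgq : g + 1 ≤ q := by
    have h1 : 2 ^ g ≤ 2 ^ (q - 2) := by
      refine (hgX.trans ?_).trans hDX
      gcongr
      norm_num
    have h2 := (Nat.pow_le_pow_iff_right (by norm_num : 1 < 2)).1 h1
    omega
  obtain ⟨L, pf, hpf, hpfτ, hL, hlong, hbig⟩ := hfix X C hU 0 d g hDd hg1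
  have hbA : bigAnd 0 C = C 0 := rfl
  rw [hbA] at hpfτ hlong hbig
  rw [← hΛ] at hlong hbig
  have hD1 : 1 ≤ D ^ 4 := Nat.one_le_pow _ _ hD
  have hD2 : D ^ 2 ≤ D ^ 4 := Nat.pow_le_pow_right hD (by norm_num)
  -- the last line
  obtain ⟨hC0, hC1⟩ : (C 0).len ≤ 4 * D ∧ (C 0).enc.length ≤ (4 * D) * Λ := by
    obtain ⟨ne, hh, v0, C', inc, ch, hne, -, -, hC, hCl, -⟩ := hU
    rw [hC 0]
    refine ⟨by rw [len_ren]; exact hCl 0, ?_⟩
    refine (enc_le Fin.val (D * X) (fun v => lt_of_lt_of_le v.isLt hne) (C' 0)).trans ?_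
    rw [← hΛ]
    exact Nat.mul_le_mul_right _ (hCl 0)
  have hτl : (Fm.neg (C 0)).len ≤ 4 * D + 1 := by
    show (C 0).len + 1 ≤ _
    omega
  have hτd : (Fm.neg (C 0)).len ≤ 4 ^ d := by omega
  have hDD : ∀ k ≤ 10000, k * c * D ^ 2 ≤ 10000 * c * D ^ 4 := fun k hk =>
    Nat.mul_le_mul (Nat.mul_le_mul_right _ hk) hD2
  have hcT : ∀ B : ℕ, B ≤ 10000 * c * D ^ 4 → B * q ^ 2 ≤ X := by
    intro B hB
    refine le_trans ?_ (he2'.trans hmX)
    refine Nat.mul_le_mul_right _ ?_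
    rw [hT]
    exact hB
  have hxe : ∀ B : ℕ, B ≤ 10000 * c * D ^ 4 → ((B * q ^ 2 : ℕ) : ℝ) ≤ (X : ℝ) ^ e := by
    intro B hB
    have h1 : ((B * q ^ 2 : ℕ) : ℝ) ≤ (T : ℝ) * (q : ℝ) ^ 2 := by
      have h2 : B * q ^ 2 ≤ T * q ^ 2 := by
        refine Nat.mul_le_mul_right _ ?_
        rw [hT]
        exact hB
      exact_mod_cast h2
    refine (h1.trans he1).trans ?_
    refine Real.rpow_le_rpow (by positivity) ?_ he.le
    exact_mod_cast hmX
  refine ⟨L, pf, hpf, hpfτ, ?_, ?_, c * 4 ^ d * Λ, ?_, ?_, ?_⟩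
  · -- number of lines
    have h1 : L ≤ (32 * c * D ^ 2 * q) * X ^ 3 := by
      refine hL.trans ?_
      calc c * (X * 2 ^ g * (2 ^ d * (d + 1))) ≤ c * (X * (2 * D * X) * (16 * D * X * q)) := by
            gcongr
        _ = (32 * c * D ^ 2 * q) * X ^ 3 := by ring
    have h2 : 1 ≤ (1 * c * D ^ 2 * q) * X ^ 3 :=
      Nat.mul_pos (Nat.mul_pos (Nat.mul_pos (by omega) (by positivity)) hq1) (by positivity)
    calc L + 1 ≤ (32 * c * D ^ 2 * q) * X ^ 3 + (1 * c * D ^ 2 * q) * X ^ 3 :=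
          Nat.add_le_add h1 h2
      _ = (33 * c * D ^ 2 * q) * X ^ 3 := by ring
      _ ≤ X * X ^ 3 := by
          refine Nat.mul_le_mul_right _ (le_trans ?_ (hcT (33 * c * D ^ 2) (hDD 33 (by norm_num))))
          gcongr
      _ = X ^ 4 := by ring
  · intro i
    refine (hbig i).trans ?_
    have h1 : 4 ^ g ≤ (2 * D * X) ^ 2 := by
      have : 4 ^ g = (2 ^ g) ^ 2 := by rw [← pow_mul, mul_comm, pow_mul]; norm_num
      rw [this]
      exact Nat.pow_le_pow_left hgX 2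
    have h2 : 4 ^ d ≤ (16 * D * X) ^ 2 := by
      have : 4 ^ d = (2 ^ d) ^ 2 := by rw [← pow_mul, mul_comm, pow_mul]; norm_num
      rw [this]
      exact Nat.pow_le_pow_left hdX1 2
    have h3 : 4 * D + 1 ≤ 5 * (D ^ 4 * X ^ 4) := by
      have h6 : D ≤ D ^ 4 * X ^ 4 := by
        calc D = D ^ 1 * 1 := by ring
          _ ≤ D ^ 4 * X ^ 4 := Nat.mul_le_mul (Nat.pow_le_pow_right hD (by norm_num))
              (Nat.one_le_pow _ _ hX0)
      omega
    have h5 : (2 * D * X) ^ 2 * (16 * D * X) ^ 2 = 1024 * (D ^ 4 * X ^ 4) := by ring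
    calc c * (4 ^ g * 4 ^ d + (Fm.neg (C 0)).len) * Λ ≤
          c * ((2 * D * X) ^ 2 * (16 * D * X) ^ 2 + 5 * (D ^ 4 * X ^ 4)) * (4 * q) := by
          gcongr
          exact hτl.trans h3
      _ = (4116 * c * D ^ 4 * q) * X ^ 4 := by
          rw [h5]
          ring
      _ ≤ X * X ^ 4 := by
          refine Nat.mul_le_mul_right _ (le_trans ?_ (hcT (4116 * c * D ^ 4) ?_))
          · gcongr
          · gcongr
            norm_num
      _ = X ^ 5 := by ring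
  · -- the size of `C 0`
    refine hC1.trans (Nat.mul_le_mul_right _ ?_)
    calc 4 * D ≤ 1 * 4 ^ d := by omega
      _ ≤ c * 4 ^ d := Nat.mul_le_mul_right _ hc
  · have hN0 : (0 : ℝ) < N := by exact_mod_cast hN1
    have hXr : (0 : ℝ) < X := by exact_mod_cast hX0
    rw [le_div_iff₀ (by positivity)]
    have h1 : c * 4 ^ d * Λ * N ^ 2 ≤ (1024 * c * D ^ 2 * q ^ 2) * X ^ 2 := by
      have h2 : 4 ^ d = (2 ^ d) ^ 2 := by rw [← pow_mul, mul_comm, pow_mul]; norm_num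
      calc c * 4 ^ d * Λ * N ^ 2 = c * Λ * (2 ^ d * N) ^ 2 := by rw [h2]; ring
        _ ≤ c * (4 * q ^ 2) * (16 * D * X) ^ 2 := by
            gcongr
            omega
        _ = _ := by ring
    have h3 : ((c * 4 ^ d * Λ : ℕ) : ℝ) * (N : ℝ) ^ 2 ≤
        ((1024 * c * D ^ 2 * q ^ 2 : ℕ) : ℝ) * (X : ℝ) ^ 2 := by exact_mod_cast h1
    refine h3.trans ?_
    have h4 : (X : ℝ) ^ (2 + e) = (X : ℝ) ^ e * (X : ℝ) ^ 2 := by
      rw [Real.rpow_add hXr, mul_comm]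
      norm_num
    rw [h4]
    exact mul_le_mul_of_nonneg_right (hxe _ (hDD 1024 (by norm_num))) (by positivity)
  · -- long lines
    obtain ⟨B1, hB1⟩ : ∃ B1, B1 = {A | (∃ i, A = pf i) ∧ c * 4 ^ d * Λ < A.enc.length}.ncard :=
      ⟨_, rfl⟩
    rw [← hB1] at hlong ⊢
    rw [if_pos hτd, mul_zero, add_zero] at hlong
    rcases Nat.lt_or_ge 1 N with hN2 | hN2
    · -- `N ≥ 2`
      have h1 : Pool.Agent.H90.UB.mt d (2 * D * X) ≤ 2 ^ d * N := by
        unfold Pool.Agent.H90.UB.mt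
        split_ifs
        · omega
        · exact hdN
      have h2 : 2 ^ d * B1 ≤ 2 ^ d * (c * ((g + 1) ^ 2 * N)) := by
        refine hlong.trans ?_
        calc c * ((g + 1) ^ 2 * Pool.Agent.H90.UB.mt d (2 * D * X))
            ≤ c * ((g + 1) ^ 2 * (2 ^ d * N)) := by gcongr
          _ = _ := by ring
      have h3 : B1 ≤ c * ((g + 1) ^ 2 * N) :=
        Nat.le_of_mul_le_mul_left h2 (by positivity)
      have h4 : B1 ≤ (2 * c * q ^ 2) * (N - 1) := by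
        refine h3.trans ?_
        have h5 : (g + 1) ^ 2 ≤ q ^ 2 := Nat.pow_le_pow_left hgq 2
        calc c * ((g + 1) ^ 2 * N) ≤ c * (q ^ 2 * N) := by gcongr
          _ = (c * q ^ 2) * N := by ring
          _ ≤ (c * q ^ 2) * (2 * (N - 1)) := Nat.mul_le_mul_left _ (by omega)
          _ = _ := by ring
      have h5 : ((B1 : ℕ) : ℝ) ≤ ((2 * c * q ^ 2 : ℕ) : ℝ) * ((N : ℝ) - 1) := by
        have h6 : ((N : ℝ) - 1) = ((N - 1 : ℕ) : ℝ) := by
          rw [Nat.cast_sub hN1]; norm_num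
        rw [h6]
        exact_mod_cast h4
      refine h5.trans ?_
      rw [mul_comm]
      refine mul_le_mul_of_nonneg_left ?_ ?_
      · refine hxe (2 * c) ?_
        have h7 : 2 * c * 1 ≤ 10000 * c * D ^ 4 :=
          Nat.mul_le_mul (Nat.mul_le_mul_right _ (by norm_num)) hD1
        omega
      · have : (1 : ℝ) ≤ N := by exact_mod_cast hN1
        linarith
    · -- `N = 1`
      have hN' : N = 1 := by omega
      rw [hN', mul_one] at hdN
      have h1 : Pool.Agent.H90.UB.mt d (2 * D * X) = 0 := by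
        unfold Pool.Agent.H90.UB.mt
        rw [if_pos hdN]
      rw [h1] at hlong
      have h3 : B1 = 0 := by
        have h4 : 2 ^ d * B1 ≤ 2 ^ d * 0 := by simpa using hlong
        have := Nat.le_of_mul_le_mul_left h4 (by positivity)
        omega
      rw [h3, hN']
      simp

theorem ubb {F : Set (Fm ℕ)} (hF : Pool.Agent.H90.UB.Compl F) (D : ℕ) (e : ℝ) (he : 0 < e) : ∃ n0 : ℕ,
    ∀ (V : Type) [Fintype V] (G : SimpleGraph V), G.Connected → n0 ≤ Fintype.card V →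
    (∀ v, (nbG G v).card ≤ D) →
    ∀ (ν : Sym2 V → ℕ), Set.InjOn ν G.edgeSet → (∀ g ∈ G.edgeSet, ν g < D * Fintype.card V) →
    ∀ (c : V → Bool), Odd (univ.filter fun v => c v = true).card →
    ∀ N : ℕ, 1 ≤ N → N ≤ Fintype.card V →
    ∃ (L : ℕ) (pf : Fin L → Fm ℕ), IsDer F (Ts D G ν c) pf ∧ (∃ i j, pf i = Fm.neg (pf j)) ∧
      L ≤ Fintype.card V ^ 4 ∧ (∀ i, (pf i).enc.length ≤ Fintype.card V ^ 5) ∧
      (({A | (∃ i, A = pf i) ∧ (Fintype.card V : ℝ) ^ (2 + e) / (N : ℝ) ^ 2 <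
        (A.enc.length : ℝ)}.ncard : ℕ) : ℝ) ≤ ((N : ℝ) - 1) * (Fintype.card V : ℝ) ^ e := by
  rcases Nat.eq_zero_or_pos D with hD | hD
  · refine ⟨2, ?_⟩
    intro V _ G hG hn hdeg ν hν hνM c hc
    have := (ubpg G hG hn hdeg hν hνM hc).1
    omega
  obtain ⟨n0, hn0⟩ := ubb_aux hF D hD e he
  refine ⟨max n0 2, ?_⟩
  intro V _ G hG hn hdeg ν hν hνM c hc N hN1 hN2
  obtain ⟨-, C, hCT, hU⟩ := ubpg G hG ((le_max_right _ _).trans hn) hdeg hν hνM hc
  obtain ⟨L, pf, hpf, ⟨i0, hi0⟩, hL, hbig, s, hs1, hs2, hs3⟩ :=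
    hn0 (Fintype.card V) ((le_max_left _ _).trans hn) C hU N hN1 hN2
  refine ⟨L + 1, Fin.snoc pf (C 0), ?_, ⟨i0.castSucc, Fin.last L, ?_⟩, hL, ?_, ?_⟩
  · intro i
    refine Fin.lastCases ?_ (fun i => ?_) i
    · left
      rw [Fin.snoc_last]
      exact hCT 0
    · rcases hpf i with h1 | ⟨ψ, hψ, σ, h1⟩ | ⟨j, k, hj, hk, h1⟩
      · left
        rw [Fin.snoc_castSucc]
        obtain ⟨m, hm⟩ := h1
        rw [← hm]
        exact hCT m
      · right; left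
        refine ⟨ψ, hψ, σ, ?_⟩
        rw [Fin.snoc_castSucc]
        exact h1
      · right; right
        refine ⟨j.castSucc, k.castSucc, Fin.castSucc_lt_castSucc_iff.2 hj,
          Fin.castSucc_lt_castSucc_iff.2 hk, ?_⟩
        rw [Fin.snoc_castSucc, Fin.snoc_castSucc, Fin.snoc_castSucc]
        exact h1
  · rw [Fin.snoc_castSucc, Fin.snoc_last]
    exact hi0
  · intro i
    refine Fin.lastCases ?_ (fun i => ?_) i
    · rw [Fin.snoc_last]
      refine le_trans ?_ (hbig i0)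
      rw [hi0]
      show _ ≤ (true :: false :: (C 0).enc).length
      simp only [List.length_cons]
      omega
    · rw [Fin.snoc_castSucc]
      exact hbig i
  · refine le_trans ?_ hs3
    have hfin : {A | (∃ i, A = pf i) ∧ s < A.enc.length}.Finite :=
      (Set.finite_range pf).subset (by rintro A ⟨⟨i, rfl⟩, _⟩; exact ⟨i, rfl⟩)
    have hsub : {A | (∃ i, A = (Fin.snoc pf (C 0) : Fin (L + 1) → Fm ℕ) i) ∧
        (Fintype.card V : ℝ) ^ (2 + e) / (N : ℝ) ^ 2 < (A.enc.length : ℝ)} ⊆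
        {A | (∃ i, A = pf i) ∧ s < A.enc.length} := by
      rintro A ⟨⟨i, hi⟩, h1⟩
      have h2 : s < A.enc.length := by
        have := lt_of_le_of_lt hs2 h1
        exact_mod_cast this
      refine ⟨?_, h2⟩
      revert hi
      refine Fin.lastCases ?_ (fun i => ?_) i
      · intro hi
        rw [Fin.snoc_last] at hi
        rw [hi] at h2
        omega
      · intro hi
        rw [Fin.snoc_castSucc] at hi
        exact ⟨i, hi⟩
    exact_mod_cast Set.ncard_le_ncard hsub hfin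

end Pool.Agent.H55.AG
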