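import Mathlib
import Pool.Agent.H90.UB.Sim
import Pool.Agent.H55.AG.ExT

set_option autoImplicit false
set_option linter.unusedSectionVars false

/-!
# Module SIMT: the same in every complete Frege system, total size

Copy of `H90/UB/Sim.lean` (the private lemmas there can be copied): `sim_inst` replaces one instance `A` of a sound scheme of
length at most `ℓ` by at most `c` lines of length at most `c * A.len`, total size at most `c ^ 2 * A.len`. Induction on the derivation
(as `simul`) with the constant `c ^ 2`.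
-/

namespace Pool.Agent.H55.AG

open Finset Pool.Agent.H3.Frg Pool.Agent.H3.Frg2 Pool.Agent.H3.Frg4 Pool.Agent.H90.UB

private theorem sim_bind_bind {V : Type} (σ : ℕ → Fm ℕ) (σ' : ℕ → Fm V) (A : Fm ℕ) :
    (A.bind σ).bind σ' = A.bind (fun i => (σ i).bind σ') := by
  induction A with
  | var i => rfl
  | neg A ih => simp only [Fm.bind, ih]
  | imp A B ihA ihB => simp only [Fm.bind, ihA, ihB]

private theorem sim_bind_congr {V : Type} (σ σ' : ℕ → Fm V) (A : Fm ℕ)
    (h : ∀ i ∈ A.vars, σ i = σ' i) : A.bind σ = A.bind σ' := by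
  induction A with
  | var i => exact h i (by simp [Fm.vars])
  | neg A ih => simp only [Fm.bind]; rw [ih h]
  | imp A B ihA ihB =>
    simp only [Fm.bind]
    rw [ihA fun v hv => h v (by simp [Fm.vars, hv]), ihB fun v hv => h v (by simp [Fm.vars, hv])]

private theorem sim_len_pos {V : Type} (A : Fm V) : 1 ≤ A.len := by
  cases A <;> simp only [Fm.len] <;> omega

private theorem sim_len_le_bind {V : Type} (σ : ℕ → Fm V) (A : Fm ℕ) :
    ∀ i ∈ A.vars, (σ i).len ≤ (A.bind σ).len := by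
  induction A with
  | var j =>
    intro i hi
    simp only [Fm.vars, Finset.mem_singleton] at hi
    rw [hi]
    exact le_refl _
  | neg A ih =>
    intro i hi
    have := ih i hi
    simp only [Fm.bind, Fm.len]
    omega
  | imp A B ihA ihB =>
    intro i hi
    simp only [Fm.vars, Finset.mem_union] at hi
    simp only [Fm.bind, Fm.len]
    rcases hi with hi | hi
    · have := ihA i hi
      omega
    · have := ihB i hi
      omega

private theorem sim_len_bind {V : Type} (σ : ℕ → Fm V) {m : ℕ} (hm : 1 ≤ m)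
    (h : ∀ i, (σ i).len ≤ m) (A : Fm ℕ) : (A.bind σ).len ≤ A.len * m := by
  induction A with
  | var i =>
    have h1 : ((Fm.var i).bind σ).len ≤ m := h i
    have h2 : (Fm.var i : Fm ℕ).len * m = m := by simp [Fm.len]
    omega
  | neg A ih =>
    have h1 : ((Fm.neg A).bind σ).len = (A.bind σ).len + 1 := by
      simp only [Fm.bind, Fm.len]
    have h2 : (Fm.neg A).len * m = A.len * m + m := by
      simp only [Fm.len]; ring
    omega
  | imp A B ihA ihB =>
    have h1 : ((Fm.imp A B).bind σ).len = (A.bind σ).len + (B.bind σ).len + 1 := by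
      simp only [Fm.bind, Fm.len]
    have h2 : (Fm.imp A B).len * m = A.len * m + B.len * m + m := by
      simp only [Fm.len]; ring
    omega

private theorem sim_ders {V : Type} {F : Set (Fm ℕ)} {Γ : Set (Fm V)} {L : ℕ}
    {pf : Fin L → Fm ℕ} (h : IsDer F (∅ : Set (Fm ℕ)) pf) (σ' : ℕ → Fm V) {l0 : List (Fm V)}
    (h0 : Dr (Ax F Γ) l0) : ∀ k : ℕ, k ≤ L → ∃ l' : List (Fm V), Dr (Ax F Γ) (l' ++ l0) ∧
      l'.length ≤ k ∧ (∀ j : Fin L, (j : ℕ) < k → (pf j).bind σ' ∈ l') ∧
      ∀ A ∈ l', ∃ j, A = (pf j).bind σ' := by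
  intro k
  induction k with
  | zero =>
    intro _
    exact ⟨[], h0, le_refl _, fun j hj => absurd hj (by omega), fun A hA => absurd hA (by simp)⟩
  | succ k ih =>
    intro hk
    obtain ⟨l', h1, h2, h3, h4⟩ := ih (by omega)
    have hj0 : k < L := by omega
    refine ⟨(pf ⟨k, hj0⟩).bind σ' :: l', ?_, ?_, ?_, ?_⟩
    · rw [List.cons_append]
      rcases h ⟨k, hj0⟩ with h5 | ⟨ψ, hψ, σ, h5⟩ | ⟨j, i, hj, hi, h5⟩
      · exact absurd h5 (Set.notMem_empty _)
      · refine Dr.ax _ _ h1 (Or.inr ⟨ψ, hψ, fun i => (σ i).bind σ', ?_⟩)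
        rw [h5, sim_bind_bind]
      · have hj' : (j : ℕ) < k := hj
        have hi' : (i : ℕ) < k := hi
        refine Dr.mp _ _ _ h1 (List.mem_append_left _ (h3 j hj')) ?_
        have h6 := h3 i hi'
        rw [h5] at h6
        exact List.mem_append_left _ h6
    · rw [List.length_cons]; omega
    · intro j hj
      by_cases hjk : (j : ℕ) = k
      · have : j = ⟨k, hj0⟩ := Fin.ext hjk
        rw [this]
        exact List.mem_cons_self
      · exact List.mem_cons_of_mem _ (h3 j (by omega))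
    · intro A hA
      rcases List.mem_cons.1 hA with rfl | hA
      · exact ⟨_, rfl⟩
      · exact h4 A hA

/-- one instance of a sound scheme -/
private theorem sim_inst {F : Set (Fm ℕ)} (hF : Pool.Agent.H90.UB.Compl F) (ℓ : ℕ) : ∃ c : ℕ, 1 ≤ c ∧
    ∀ (V : Type) (_v0 : V) (Γ : Set (Fm V)) (l0 : List (Fm V)) (A : Fm V),
      (∃ ψ ∈ S0 ℓ, ∃ σ : ℕ → Fm V, A = ψ.bind σ) → Dr (Ax F Γ) l0 →
      ∃ l' : List (Fm V), Dr (Ax F Γ) (l' ++ l0) ∧ l'.length ≤ c ∧ A ∈ l' ∧
        ∀ B ∈ l', B.len ≤ c * A.len := by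
  classical
  have hch : ∀ χ : Fm ℕ, ∃ (L : ℕ) (pf : Fin L → Fm ℕ), (∀ x, χ.eval x = true) →
      (IsDer F (∅ : Set (Fm ℕ)) pf ∧ ∃ i, pf i = χ) := by
    intro χ
    by_cases hx : ∀ x, χ.eval x = true
    · obtain ⟨L, pf, h1, h2⟩ := hF χ hx
      exact ⟨L, pf, fun _ => ⟨h1, h2⟩⟩
    · exact ⟨0, fun i => i.elim0, fun h => absurd h hx⟩
  choose L pf hpf using hch
  have hfin := finite_Tau ℓ ℓ
  obtain ⟨c1, hc1⟩ := (hfin.image (fun χ => L χ + ∑ i : Fin (L χ), (pf χ i).len)).bddAbove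
  refine ⟨c1 + 1, by omega, ?_⟩
  intro V v0 Γ l0 A hA h0
  obtain ⟨ψ, hψ, σ, rfl⟩ := hA
  obtain ⟨χ, hχ, σ0, h1⟩ := inst_Tau (m := ℓ) (ℓ := ℓ) (0 : ℕ) ψ hψ.2
    ((card_vars_le ψ).trans hψ.1) hψ.1
  have hb := hc1 (Set.mem_image_of_mem _ hχ)
  obtain ⟨hd, i0, hi0⟩ := hpf χ hχ.1
  set τ : ℕ → Fm V := fun i => (σ0 i).bind σ with hτ
  set σ' : ℕ → Fm V := fun i => if i ∈ χ.vars then τ i else Fm.var v0 with hσ'
  have h2 : ψ.bind σ = χ.bind σ' := by
    rw [← h1, sim_bind_bind]
    refine sim_bind_congr _ _ _ fun i hi => ?_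
    rw [hσ']
    simp only [hi, if_true]
    rfl
  have h3 : ∀ i, (σ' i).len ≤ (ψ.bind σ).len := by
    intro i
    by_cases hi : i ∈ χ.vars
    · rw [h2]
      exact sim_len_le_bind σ' χ i hi
    · have : σ' i = Fm.var v0 := by
        rw [hσ']
        simp only [hi, if_false]
      rw [this]
      have h4 := sim_len_pos (ψ.bind σ)
      simpa [Fm.len] using h4
  obtain ⟨l', a1, a2, a3, a4⟩ := sim_ders hd σ' h0 (L χ) le_rfl
  refine ⟨l', a1, by omega, ?_, ?_⟩
  · rw [h2, ← hi0]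
    exact a3 i0 i0.2
  · intro B hB
    obtain ⟨j, rfl⟩ := a4 B hB
    refine (sim_len_bind σ' (sim_len_pos _) h3 (pf χ j)).trans ?_
    refine Nat.mul_le_mul_right _ ?_
    have h5 : (pf χ j).len ≤ ∑ i : Fin (L χ), (pf χ i).len :=
      Finset.single_le_sum (f := fun i => (pf χ i).len) (fun i _ => Nat.zero_le _) (Finset.mem_univ j)
    omega

private theorem tot_cons {V : Type} (A : Fm V) (l : List (Fm V)) : tot (A :: l) = A.len + tot l := by
  simp [tot]

private theorem tot_append {V : Type} (l l' : List (Fm V)) : tot (l ++ l') = tot l + tot l' := by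
  simp [tot]

private theorem tot_le {V : Type} {b : ℕ} : ∀ l : List (Fm V), (∀ A ∈ l, A.len ≤ b) →
    tot l ≤ l.length * b := by
  intro l
  induction l with
  | nil => intro _; simp [tot]
  | cons A l ih =>
    intro h
    have h1 := ih fun B hB => h B (List.mem_cons_of_mem _ hB)
    have h2 := h A List.mem_cons_self
    rw [tot_cons, List.length_cons, Nat.add_mul, Nat.one_mul]
    omega

theorem simulT {F : Set (Fm ℕ)} (hF : Pool.Agent.H90.UB.Compl F) (ℓ : ℕ) : ∃ c : ℕ, 1 ≤ c ∧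
    ∀ (V : Type) (_v0 : V) (Γ : Set (Fm V)) (l : List (Fm V)), Dr (Ax (S0 ℓ) Γ) l →
      ∃ l', Dr (Ax F Γ) l' ∧ (∀ A ∈ l, A ∈ l') ∧ tot l' ≤ c * tot l := by
  obtain ⟨c, hc, H⟩ := sim_inst hF ℓ
  have hcc : 1 ≤ c * c := Nat.mul_pos hc hc
  refine ⟨c * c, hcc, ?_⟩
  intro V v0 Γ l hl
  have one : ∀ (A : Fm V) (l l' : List (Fm V)), Dr (Ax F Γ) (A :: l') →
      (∀ A ∈ l, A ∈ l') → tot l' ≤ c * c * tot l →
      ∃ l', Dr (Ax F Γ) l' ∧ (∀ B ∈ A :: l, B ∈ l') ∧ tot l' ≤ c * c * tot (A :: l) := by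
    intro A l l' h1 h2 h3
    refine ⟨A :: l', h1, ?_, ?_⟩
    · intro B hB
      rcases List.mem_cons.1 hB with rfl | hB
      · exact List.mem_cons_self
      · exact List.mem_cons_of_mem _ (h2 B hB)
    · rw [tot_cons, tot_cons, Nat.mul_add]
      have h4 : A.len ≤ c * c * A.len := Nat.le_mul_of_pos_left _ hcc
      omega
  induction hl with
  | nil => exact ⟨[], Dr.nil, fun A hA => hA, by simp [tot]⟩
  | ax A l hl hA ih =>
    obtain ⟨l', h1, h2, h3⟩ := ih
    rcases hA with hA | hA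
    · exact one A l l' (Dr.ax A l' h1 (Or.inl hA)) h2 h3
    · obtain ⟨l1, a1, a2, a3, a4⟩ := H V v0 Γ l' A hA h1
      refine ⟨l1 ++ l', a1, ?_, ?_⟩
      · intro B hB
        rcases List.mem_cons.1 hB with rfl | hB
        · exact List.mem_append_left _ a3
        · exact List.mem_append_right _ (h2 B hB)
      · rw [tot_append, tot_cons, Nat.mul_add]
        have h4 := tot_le l1 a4
        have h5 : l1.length * (c * A.len) ≤ c * (c * A.len) := Nat.mul_le_mul_right _ a2
        have h6 : c * (c * A.len) = c * c * A.len := by ring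
        omega
  | mp A B l hl hA hAB ih =>
    obtain ⟨l', h1, h2, h3⟩ := ih
    exact one B l l' (Dr.mp A B l' h1 (h2 A hA) (h2 _ hAB)) h2 h3

end Pool.Agent.H55.AG
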