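import Mathlib
import Pool.Agent.H90.UB.Trie
import Pool.Agent.H55.AG.ExT

set_option autoImplicit false
set_option linter.unusedSectionVars false

/-!
# Module TRT: the sum of two parity formulas, total size

Copy of `H90/UB/Trie.lean` with total sizes; `kk d = 4 ^ d * 6 + 4`, `qq d = K1 d * (1000 * 4 ^ d)`.

* `TS_lenT`: induction on `g`. If `TS (g + 1) A` is the `xo` then `A.card ≥ 1` and, for the two parts `A0`, `A1` of `A`
  (`A0.card + A1.card = A.card`), `len + 4 = 2 * (len0 + 4) + 2 * (len1 + 4) - 8 ≤ 2 ^ (g + 1) * (kk d * (2 + g * A.card))`, and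
  `2 + g * A.card ≤ 1 + (g + 1) * A.card`. Otherwise `bal_len`.
* `convT`: if `A.card ≤ 2 ^ d`: `baladd` with `s = b = 1000 * 4 ^ d` as in `conv`, `ext_of_ex`; otherwise one line (`s_zxo`, `ext_infs`
  with `Ps = []`), all three formulas have `len + 4 ≤ M`, `M = 2 ^ (g + 1) * (kk d * (1 + (g + 1) * A.card))`, so the line is
  shorter than `10 * M`, and `M ≤ 2 ^ (g + 1) * (kk d * ((g + 2) * A.card))`.
* `trieaddT`: as `trieadd`. Cases `hsmall`: `baladd` with `s = b = 1000 * 4 ^ d` and `ext_of_ex`, cost at most
  `K1 d * (1000 * 4 ^ d)`, and `2 ^ (g + 1) ≥ 2`. Node (`g + 1`, `t = A.card + A'.card > 2 ^ d`): `mt d t = t`; all nine formulas have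
  `len + 4 ≤ M = 2 ^ (g + 1) * (kk d * (1 + (g + 1) * t))`, `M ≤ 2 ^ (g + 1) * (kk d * ((g + 2) * t))`, the axiom `s_add5` is
  shorter than `60 * M`, six lines: `360 * M` (`ext_infs`); three `convT`: at most `3 * (2 * 2 ^ d * (4 * d + 6) + 3) * (1000 * 4 ^ d) + 30 * M`. Total
  cost of the node at most `K1 d * (1000 * 4 ^ d) + 1000 * M`. Sum: `mt` is superadditive, `1000 * 2 ^ (g + 1) * kk d * (g + 2) * t` from the
  induction hypotheses (for `g` they have the factor `2 ^ (g + 1) * (g + 2)`), the same from the node, together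
  `1000 * 2 ^ (g + 2) * kk d * (g + 2) * t ≤ 1000 * 2 ^ (g + 2) * kk d * (g + 3) * t`.
-/

namespace Pool.Agent.H55.AG

open Finset Pool.Agent.H3.Frg Pool.Agent.H3.Frg2 Pool.Agent.H3.Frg4 Pool.Agent.H90.UB

variable {V : Type} [DecidableEq V] {X : Set (Fm V)} {d : ℕ} {v0 : V} {pos : V → ℕ}

/-- size of a balanced formula -/
def kk (d : ℕ) : ℕ := 4 ^ d * 6 + 4

/-- cost of a small node -/
def qq (d : ℕ) : ℕ := K1 d * (1000 * 4 ^ d)

private theorem filt_symm' (A : Finset V) (g : ℕ) :
    A = symmDiff (A.filter fun e => (pos e).testBit g = false)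
      (A.filter fun e => (pos e).testBit g = true) := by
  ext e
  rw [Finset.mem_symmDiff, Finset.mem_filter, Finset.mem_filter]
  cases h : (pos e).testBit g <;> simp

private theorem mt_add' (d a a' : ℕ) : mt d a + mt d a' ≤ mt d (a + a') := by
  unfold Pool.Agent.H90.UB.mt
  split_ifs <;> omega

private theorem filt_card' (A : Finset V) (g : ℕ) :
    (A.filter fun e => (pos e).testBit g = false).card +
      (A.filter fun e => (pos e).testBit g = true).card = A.card := by
  rw [← Finset.card_union_of_disjoint]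
  · congr 1
    ext e
    rw [Finset.mem_union, Finset.mem_filter, Finset.mem_filter]
    cases h : (pos e).testBit g <;> simp
  · rw [Finset.disjoint_left]
    intro e h1 h2
    rw [Finset.mem_filter] at h1 h2
    rw [h1.2] at h2
    exact absurd h2.2 (by simp)

private theorem filt_sd' (A A' : Finset V) (g : ℕ) (c : Bool) :
    (symmDiff A A').filter (fun e => (pos e).testBit g = c) =
      symmDiff (A.filter fun e => (pos e).testBit g = c)
        (A'.filter fun e => (pos e).testBit g = c) := by
  ext e
  simp only [Finset.mem_symmDiff, Finset.mem_filter]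
  tauto

private theorem div_of_bit' {a a' g : ℕ} (h1 : a / 2 ^ (g + 1) = a' / 2 ^ (g + 1))
    (h2 : a.testBit g = a'.testBit g) : a / 2 ^ g = a' / 2 ^ g := by
  rw [pow_succ, ← Nat.div_div_eq_div_mul, ← Nat.div_div_eq_div_mul] at h1
  rw [Nat.testBit_eq_decide_div_mod_eq, Nat.testBit_eq_decide_div_mod_eq,
    decide_eq_decide] at h2
  omega

private theorem card_sd_le' (A A' : Finset V) : (symmDiff A A').card ≤ A.card + A'.card := by
  refine (Finset.card_le_card ?_).trans (Finset.card_union_le A A')
  intro e he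
  rw [Finset.mem_symmDiff] at he
  rw [Finset.mem_union]
  tauto

theorem TS_lenT (g : ℕ) : ∀ A : Finset V,
    (TS d v0 pos g A).len + 4 ≤ 2 ^ g * (kk d * (1 + g * A.card)) := by
  have hb : ∀ A : Finset V, (Bal d v0 A).len + 4 ≤ kk d := by
    intro A
    have := bal_len d v0 A
    unfold kk
    omega
  induction g with
  | zero =>
    intro A
    have := hb A
    simpa [TS] using this
  | succ g ih =>
    intro A
    simp only [TS]
    split_ifs with h
    · refine (hb A).trans ?_
      have h1 : 1 * (kk d * 1) ≤ 2 ^ (g + 1) * (kk d * (1 + (g + 1) * A.card)) :=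
        Nat.mul_le_mul (Nat.one_le_two_pow) (Nat.mul_le_mul_left _ (by omega))
      omega
    · have h2 := ih (A.filter fun e => (pos e).testBit g = false)
      have h3 := ih (A.filter fun e => (pos e).testBit g = true)
      have h4 := filt_card' (pos := pos) A g
      have h5 : 1 ≤ A.card := by
        have := Nat.one_le_two_pow (n := d)
        omega
      rw [len_xo]
      generalize (A.filter fun e => (pos e).testBit g = false).card = a0 at h2 h4
      generalize (A.filter fun e => (pos e).testBit g = true).card = a1 at h3 h4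
      have h6 : 2 * (2 ^ g * (kk d * (1 + g * a0))) + 2 * (2 ^ g * (kk d * (1 + g * a1))) =
          2 ^ (g + 1) * (kk d * (2 + g * A.card)) := by
        rw [← h4]
        ring
      have h7 : 2 ^ (g + 1) * (kk d * (2 + g * A.card)) ≤
          2 ^ (g + 1) * (kk d * (1 + (g + 1) * A.card)) := by
        refine Nat.mul_le_mul_left _ (Nat.mul_le_mul_left _ ?_)
        have : (g + 1) * A.card = g * A.card + A.card := by ring
        omega
      omega

/-- the bound with the total size -/
private theorem TS_lenT' (g g' : ℕ) (hg : g' ≤ g + 1) (A : Finset V) {t : ℕ} (hA : A.card ≤ t) (ht : 1 ≤ t) :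
    (TS d v0 pos g' A).len + 4 ≤ 2 ^ (g + 1) * (kk d * ((g + 2) * t)) := by
  refine (TS_lenT g' A).trans ?_
  refine Nat.mul_le_mul (Nat.pow_le_pow_right (by norm_num) hg) (Nat.mul_le_mul_left _ ?_)
  have h1 : g' * A.card ≤ (g + 1) * t := Nat.mul_le_mul hg hA
  have h2 : (g + 2) * t = (g + 1) * t + t := by ring
  omega

private theorem len_imp' (P Q : Fm V) : (Fm.imp P Q).len = P.len + Q.len + 1 := rfl

theorem convT (hX : Full 1000 X) (g : ℕ) (A : Finset V) {l : List (Fm V)} (hl : Dr X l) (hn : l.Nodup) :
    ∃ l', ExT X ((2 * 2 ^ d * (4 * d + 6) + 3) * (1000 * 4 ^ d) +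
        10 * (2 ^ (g + 1) * (kk d * ((g + 2) * A.card)))) l l' ∧
      Z3 (TS d v0 pos g (A.filter fun e => (pos e).testBit g = false))
        (TS d v0 pos g (A.filter fun e => (pos e).testBit g = true)) (TS d v0 pos (g + 1) A) ∈ l' := by
  by_cases h : A.card ≤ 2 ^ d
  · have h1 : (A.filter fun e => (pos e).testBit g = false).card ≤ 2 ^ d :=
      (Finset.card_filter_le _ _).trans h
    have h2 : (A.filter fun e => (pos e).testBit g = true).card ≤ 2 ^ d :=
      (Finset.card_filter_le _ _).trans h
    rw [TS_small g h1, TS_small g h2, TS_small (g + 1) h]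
    obtain ⟨l', e', k'⟩ := baladd (v0 := v0) hX (le_refl (1000 * 4 ^ d)) (le_refl (1000 * 4 ^ d))
      h1 h2 h (filt_symm' A g) hl
    obtain ⟨l'', e'', k''⟩ := ext_of_ex e' hn
    exact ⟨l'', e''.mono (Nat.le_add_right _ _), (k'' _).2 k'⟩
  · have h1 : TS d v0 pos (g + 1) A =
        xo (TS d v0 pos g (A.filter fun e => (pos e).testBit g = false))
          (TS d v0 pos g (A.filter fun e => (pos e).testBit g = true)) := by
      simp only [TS, if_neg h]
    have h5 : 1 ≤ A.card := by
      have := Nat.one_le_two_pow (n := d)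
      omega
    have t1 := TS_lenT' (d := d) (v0 := v0) (pos := pos) g g (Nat.le_succ g)
      (A.filter fun e => (pos e).testBit g = false) (Finset.card_filter_le _ _) h5
    have t2 := TS_lenT' (d := d) (v0 := v0) (pos := pos) g g (Nat.le_succ g)
      (A.filter fun e => (pos e).testBit g = true) (Finset.card_filter_le _ _) h5
    have t3 := TS_lenT' (d := d) (v0 := v0) (pos := pos) g (g + 1) le_rfl A le_rfl h5
    have hz := s_zxo hX (TS d v0 pos g (A.filter fun e => (pos e).testBit g = false))
        (TS d v0 pos g (A.filter fun e => (pos e).testBit g = true))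
    rw [← h1] at hz
    obtain ⟨l', e', k'⟩ := ext_infs
      (B := Z3 (TS d v0 pos g (A.filter fun e => (pos e).testBit g = false))
        (TS d v0 pos g (A.filter fun e => (pos e).testBit g = true)) (TS d v0 pos (g + 1) A))
      (q := 10 * (2 ^ (g + 1) * (kk d * ((g + 2) * A.card)))) [] hl hn hz
      (fun B hB => absurd hB List.not_mem_nil) (by
        show (Z3 _ _ _).len ≤ _
        rw [len_Z3]
        omega)
    refine ⟨l', e'.mono ?_, k'⟩
    simp only [List.length_nil]
    omega

theorem trieaddT (hX : Full 1000 X) (hpos : Function.Injective pos) (g : ℕ) :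
    ∀ (A A' A'' : Finset V), A'' = symmDiff A A' →
    (∀ e ∈ A ∪ A', ∀ e' ∈ A ∪ A', pos e / 2 ^ g = pos e' / 2 ^ g) →
    ∀ l : List (Fm V), Dr X l → l.Nodup →
    ∃ (T : ℕ) (l' : List (Fm V)), ExT X T l l' ∧
      T + qq d ≤ 2 ^ (g + 1) * qq d +
        1000 * (2 ^ (g + 1) * (kk d * ((g + 2) * mt d (A.card + A'.card)))) ∧
      Z3 (TS d v0 pos g A) (TS d v0 pos g A') (TS d v0 pos g A'') ∈ l' := by
  have hn1 : (2 * 2 ^ d * (4 * d + 6) + 3) * (1000 * 4 ^ d) +
      ((2 * 2 ^ d * (4 * d + 6) + 3) * (1000 * 4 ^ d) +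
      (2 * 2 ^ d * (4 * d + 6) + 3) * (1000 * 4 ^ d)) ≤ qq d := by
    have h1 : (3 * (2 * 2 ^ d * (4 * d + 6) + 3)) * (1000 * 4 ^ d) ≤ K1 d * (1000 * 4 ^ d) :=
      Nat.mul_le_mul_right _ (by unfold K1; omega)
    have h2 : (3 * (2 * 2 ^ d * (4 * d + 6) + 3)) * (1000 * 4 ^ d) =
        (2 * 2 ^ d * (4 * d + 6) + 3) * (1000 * 4 ^ d) +
      ((2 * 2 ^ d * (4 * d + 6) + 3) * (1000 * 4 ^ d) +
      (2 * 2 ^ d * (4 * d + 6) + 3) * (1000 * 4 ^ d)) := by ring
    unfold qq
    omega
  have hsmall : ∀ (g : ℕ) (A A' A'' : Finset V), A'' = symmDiff A A' → A.card ≤ 2 ^ d →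
      A'.card ≤ 2 ^ d → A''.card ≤ 2 ^ d → ∀ l : List (Fm V), Dr X l → l.Nodup →
      ∃ (T : ℕ) (l' : List (Fm V)), ExT X T l l' ∧
      T + qq d ≤ 2 ^ (g + 1) * qq d +
        1000 * (2 ^ (g + 1) * (kk d * ((g + 2) * mt d (A.card + A'.card)))) ∧
      Z3 (TS d v0 pos g A) (TS d v0 pos g A') (TS d v0 pos g A'') ∈ l' := by
    intro g A A' A'' h h1 h2 h3 l hl hnd
    obtain ⟨l', e', k'⟩ := baladd (v0 := v0) hX (le_refl (1000 * 4 ^ d)) (le_refl (1000 * 4 ^ d))
      h1 h2 h3 h hl
    obtain ⟨l'', e'', k''⟩ := ext_of_ex e' hnd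
    refine ⟨_, l'', e'', ?_, ?_⟩
    · have h4 : 2 * qq d ≤ 2 ^ (g + 1) * qq d := by
        refine Nat.mul_le_mul_right _ ?_
        calc 2 = 2 ^ 1 := by norm_num
          _ ≤ 2 ^ (g + 1) := Nat.pow_le_pow_right (by norm_num) (by omega)
      refine le_trans ?_ (Nat.le_add_right _ _)
      omega
    · rw [TS_small g h1, TS_small g h2, TS_small g h3]
      exact (k'' _).2 k'
  induction g with
  | zero =>
    intro A A' A'' h hinv l hl hnd
    have h1 : ∀ B : Finset V, B ⊆ A ∪ A' → B.card ≤ 2 ^ d := by
      intro B hB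
      refine le_trans ?_ (Nat.one_le_two_pow)
      rw [Finset.card_le_one]
      intro e he e' he'
      have := hinv e (hB he) e' (hB he')
      rw [pow_zero, Nat.div_one, Nat.div_one] at this
      exact hpos this
    refine hsmall 0 A A' A'' h (h1 _ Finset.subset_union_left) (h1 _ Finset.subset_union_right)
      (h1 _ ?_) l hl hnd
    rw [h]
    intro e he
    rw [Finset.mem_symmDiff] at he
    rw [Finset.mem_union]
    tauto
  | succ g ih =>
    intro A A' A'' h hinv l hl hnd
    by_cases ht : A.card + A'.card ≤ 2 ^ d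
    · refine hsmall (g + 1) A A' A'' h (by omega) (by omega) ?_ l hl hnd
      rw [h]
      exact (card_sd_le' A A').trans ht
    · have hdv : ∀ c : Bool, ∀ e ∈ (A.filter fun e => (pos e).testBit g = c) ∪
          (A'.filter fun e => (pos e).testBit g = c),
          ∀ e' ∈ (A.filter fun e => (pos e).testBit g = c) ∪
          (A'.filter fun e => (pos e).testBit g = c), pos e / 2 ^ g = pos e' / 2 ^ g := by
        intro c e he e' he'
        rw [← Finset.filter_union, Finset.mem_filter] at he he'
        exact div_of_bit' (hinv e he.1 e' he'.1) (by rw [he.2, he'.2])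
      have hsd : ∀ c : Bool, (A''.filter fun e => (pos e).testBit g = c) =
          symmDiff (A.filter fun e => (pos e).testBit g = c)
            (A'.filter fun e => (pos e).testBit g = c) := by
        intro c
        rw [h]
        exact filt_sd' A A' g c
      have hA'' : A''.card ≤ A.card + A'.card := by
        rw [h]
        exact card_sd_le' A A'
      obtain ⟨T0, l0, e0, a0, k0⟩ := ih _ _ _ (hsd false) (hdv false) l hl hnd
      obtain ⟨T1, l1, e1, a1, k1⟩ := ih _ _ _ (hsd true) (hdv true) l0 e0.dr e0.nd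
      obtain ⟨l2, e2, k2⟩ := convT (v0 := v0) (pos := pos) (d := d) hX g A e1.dr e1.nd
      obtain ⟨l3, e3, k3⟩ := convT (v0 := v0) (pos := pos) (d := d) hX g A' e2.dr e2.nd
      obtain ⟨l4, e4, k4⟩ := convT (v0 := v0) (pos := pos) (d := d) hX g A'' e3.dr e3.nd
      obtain ⟨t, htt⟩ : ∃ t, t = A.card + A'.card := ⟨_, rfl⟩
      have ht1 : 1 ≤ t := by
        have := Nat.one_le_two_pow (n := d)
        omega
      have hcf : ∀ (B : Finset V) (c : Bool), B.card ≤ t →
          (B.filter fun e => (pos e).testBit g = c).card ≤ t := fun B c hB =>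
        (Finset.card_filter_le _ _).trans hB
      have hAt : A.card ≤ t := by omega
      have hAt' : A'.card ≤ t := by omega
      have hAt'' : A''.card ≤ t := by omega
      obtain ⟨M, hM⟩ : ∃ M, M = 2 ^ (g + 1) * (kk d * ((g + 2) * t)) := ⟨_, rfl⟩
      have hTl : ∀ B : Finset V, B.card ≤ t → (TS d v0 pos g B).len + 4 ≤ M := by
        intro B hB
        rw [hM]
        exact TS_lenT' (d := d) (v0 := v0) (pos := pos) g g (Nat.le_succ g) B hB ht1
      have hTl' : ∀ B : Finset V, B.card ≤ t → (TS d v0 pos (g + 1) B).len + 4 ≤ M := by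
        intro B hB
        rw [hM]
        exact TS_lenT' (d := d) (v0 := v0) (pos := pos) g (g + 1) le_rfl B hB ht1
      obtain ⟨l5, e5, k5⟩ := ext_infs (q := 60 * M)
        [Z3 (TS d v0 pos g (A.filter fun e => (pos e).testBit g = false))
            (TS d v0 pos g (A'.filter fun e => (pos e).testBit g = false))
            (TS d v0 pos g (A''.filter fun e => (pos e).testBit g = false)),
          Z3 (TS d v0 pos g (A.filter fun e => (pos e).testBit g = true))
            (TS d v0 pos g (A'.filter fun e => (pos e).testBit g = true))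
            (TS d v0 pos g (A''.filter fun e => (pos e).testBit g = true)),
          Z3 (TS d v0 pos g (A.filter fun e => (pos e).testBit g = false))
            (TS d v0 pos g (A.filter fun e => (pos e).testBit g = true)) (TS d v0 pos (g + 1) A),
          Z3 (TS d v0 pos g (A'.filter fun e => (pos e).testBit g = false))
            (TS d v0 pos g (A'.filter fun e => (pos e).testBit g = true)) (TS d v0 pos (g + 1) A'),
          Z3 (TS d v0 pos g (A''.filter fun e => (pos e).testBit g = false))
            (TS d v0 pos g (A''.filter fun e => (pos e).testBit g = true))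
            (TS d v0 pos (g + 1) A'')]
        e4.dr e4.nd (s_add5 hX _ _ _ _ _ _ _ _ _) (by
          intro B hB
          simp only [List.mem_cons, List.not_mem_nil, or_false] at hB
          rcases hB with rfl | rfl | rfl | rfl | rfl
          · exact e4.sub (e3.sub (e2.sub (e1.sub k0)))
          · exact e4.sub (e3.sub (e2.sub k1))
          · exact e4.sub (e3.sub k2)
          · exact e4.sub k3
          · exact k4) (by
          have t1 := hTl _ (hcf A false hAt)
          have t2 := hTl _ (hcf A' false hAt')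
          have t3 := hTl _ (hcf A'' false hAt'')
          have t4 := hTl _ (hcf A true hAt)
          have t5 := hTl _ (hcf A' true hAt')
          have t6 := hTl _ (hcf A'' true hAt'')
          have t7 := hTl' A hAt
          have t8 := hTl' A' hAt'
          have t9 := hTl' A'' hAt''
          simp only [imps, len_Z3, len_imp']
          omega)
      refine ⟨_, l5, ((((e0.trans e1).trans e2).trans e3).trans e4).trans e5, ?_, k5⟩
      have h9 : mt d (A.card + A'.card) = t := by
        unfold Pool.Agent.H90.UB.mt; rw [if_neg ht, htt]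
      have h10 : mt d ((A.filter fun e => (pos e).testBit g = false).card +
          (A'.filter fun e => (pos e).testBit g = false).card) +
          mt d ((A.filter fun e => (pos e).testBit g = true).card +
          (A'.filter fun e => (pos e).testBit g = true).card) ≤ mt d (A.card + A'.card) := by
        refine (mt_add' _ _ _).trans (le_of_eq ?_)
        congr 1
        have f1 := filt_card' (pos := pos) A g
        have f2 := filt_card' (pos := pos) A' g
        omega
      rw [h9] at h10
      rw [h9]
      generalize mt d ((A.filter fun e => (pos e).testBit g = false).card +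
          (A'.filter fun e => (pos e).testBit g = false).card) = x0 at a0 h10
      generalize mt d ((A.filter fun e => (pos e).testBit g = true).card +
          (A'.filter fun e => (pos e).testBit g = true).card) = x1 at a1 h10
      have h11 : 2 ^ (g + 1) * (kk d * ((g + 2) * x0)) + 2 ^ (g + 1) * (kk d * ((g + 2) * x1)) ≤ M := by
        rw [hM, ← mul_add, ← mul_add, ← mul_add]
        exact Nat.mul_le_mul_left _ (Nat.mul_le_mul_left _ (Nat.mul_le_mul_left _ h10))
      have h12 : 2 ^ (g + 1) * (kk d * ((g + 2) * A.card)) +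
          2 ^ (g + 1) * (kk d * ((g + 2) * A'.card)) = M := by
        rw [hM, htt]
        ring
      have h13 : 2 ^ (g + 1) * (kk d * ((g + 2) * A''.card)) ≤ M := by
        rw [hM]
        exact Nat.mul_le_mul_left _ (Nat.mul_le_mul_left _ (Nat.mul_le_mul_left _ hAt''))
      have h14 : 2 * M ≤ 2 ^ (g + 1 + 1) * (kk d * ((g + 1 + 2) * t)) := by
        have e : 2 ^ (g + 1 + 1) * (kk d * ((g + 1 + 2) * t)) =
            2 * (2 ^ (g + 1) * (kk d * ((g + 1 + 2) * t))) := by ring
        rw [e, hM]
        exact Nat.mul_le_mul_left _ (Nat.mul_le_mul_left _ (Nat.mul_le_mul_left _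
          (Nat.mul_le_mul_right _ (by omega))))
      have h15 : 2 ^ (g + 1 + 1) * qq d = 2 * (2 ^ (g + 1) * qq d) := by ring
      rw [h15]
      simp only [List.length_cons, List.length_nil]
      generalize 2 ^ (g + 1) * (kk d * ((g + 2) * A.card)) = y0 at h12 ⊢
      generalize 2 ^ (g + 1) * (kk d * ((g + 2) * A'.card)) = y1 at h12 ⊢
      generalize 2 ^ (g + 1) * (kk d * ((g + 2) * A''.card)) = y2 at h13 ⊢
      generalize 2 ^ (g + 1) * (kk d * ((g + 2) * x0)) = z0 at h11 a0
      generalize 2 ^ (g + 1) * (kk d * ((g + 2) * x1)) = z1 at h11 a1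
      generalize 2 ^ (g + 1 + 1) * (kk d * ((g + 1 + 2) * t)) = w at h14 ⊢
      generalize 2 ^ (g + 1) * qq d = u at a0 a1 ⊢
      generalize (2 * 2 ^ d * (4 * d + 6) + 3) * (1000 * 4 ^ d) = n at hn1 ⊢
      omega

end Pool.Agent.H55.AG
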