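import Mathlib
import Pool.Agent.H90.UB.Merge
import Pool.Agent.H55.AG.TrT

set_option autoImplicit false
set_option linter.unusedSectionVars false

/-!
# Module MGT: binary tree over the vertices, total size

Copy of `H90/UB/Merge.lean` with total sizes. `Q = 2 ^ (g + 1) * qq d + 80 * (2 ^ g * kk d)`, `R = 2000 * (2 ^ (g + 1) * (kk d * (g + 2)))`.

* `mergeT`: induction on `h` for all `v`. `h = 0`: `hstar`. `h + 1`: the two induction hypotheses, `trieaddT` (all `pos e / 2 ^ g = 0`) with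
  `mt d (..) ≤ D * 2 ^ (h + 1)`: cost at most `2 ^ (g + 1) * qq d + 1000 * (2 ^ (g + 1) * (kk d * ((g + 2) * (D * 2 ^ (h + 1)))))`; then
  `s_merge` with `ext_infs` (three premises, 4 lines): the three formulas have `len + 4 ≤ M = 2 ^ g * (kk d * (1 + g * (D * 2 ^ (h + 1))))`
  (`TS_lenT`, `card_SD`), the axiom is shorter than `20 * M`, cost at most `80 * M`. So the cost of the step is at most
  `Q + R * (D * 2 ^ (h + 1))`, and `T' = T1 + T2 + cost`, `T' + Q ≤ (T1 + Q) + (T2 + Q) + R * (D * 2 ^ (h + 1))`.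
* `contraT`: `mergeT` for `hh`, `0`, from `[]` gives the line `TS … ∅ = Bal d v0 ∅ = T d fun _ => bot v0` (`TS_small`, `balX_empty`, up to
  `sgn true`); `ex_nbot` with `s = b = 1000 * 4 ^ d` and `ext_of_ex` gives its negation, cost `1 * (1000 * 4 ^ d)`.
-/

namespace Pool.Agent.H55.AG

open Finset Pool.Agent.H3.Frg Pool.Agent.H3.Frg2 Pool.Agent.H3.Frg4 Pool.Agent.H90.UB

variable {V : Type} [DecidableEq V] {X : Set (Fm V)} {d : ℕ} {v0 : V} {pos : V → ℕ}

theorem mergeT (hX : Full 1000 X) (hpos : Function.Injective pos) {g : ℕ} (hg : ∀ e, pos e < 2 ^ g)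
    {inc : ℕ → Finset V} {ch : ℕ → Bool} {D n0 : ℕ} (hD : ∀ v, (inc v).card ≤ D)
    (hstar : ∀ v, ∀ l : List (Fm V), Dr X l → l.Nodup →
      ∃ l', ExT X n0 l l' ∧ sgn (ch v) (TS d v0 pos g (inc v)) ∈ l') {Q R : ℕ}
    (hQ : Q = 2 ^ (g + 1) * qq d + 80 * (2 ^ g * kk d))
    (hR : R = 2000 * (2 ^ (g + 1) * (kk d * (g + 2)))) (h : ℕ) :
    ∀ v, ∀ l : List (Fm V), Dr X l → l.Nodup →
    ∃ (T : ℕ) (l' : List (Fm V)), ExT X T l l' ∧
      T + Q ≤ 2 ^ h * (n0 + Q) + h * (2 ^ h * (R * D)) ∧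
      sgn (CD ch h v) (TS d v0 pos g (SD inc h v)) ∈ l' := by
  induction h with
  | zero =>
    intro v l hl hn
    obtain ⟨l', e', k'⟩ := hstar v l hl hn
    exact ⟨n0, l', e', by simp, k'⟩
  | succ h ih =>
    intro v l hl hn
    obtain ⟨T1, l1, e1, a1, k1⟩ := ih v l hl hn
    obtain ⟨T2, l2, e2, a2, k2⟩ := ih (v + 2 ^ h) l1 e1.dr e1.nd
    obtain ⟨T3, l3, e3, a3, k3⟩ := trieaddT (v0 := v0) (d := d) hX hpos g
      (SD inc h v) (SD inc h (v + 2 ^ h)) (SD inc (h + 1) v) rfl (by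
        intro e _ e' _
        rw [Nat.div_eq_of_lt (hg e), Nat.div_eq_of_lt (hg e')]) l2 e2.dr e2.nd
    have c1 := card_SD inc hD h v
    have c2 := card_SD inc hD h (v + 2 ^ h)
    have c3 := card_SD inc hD (h + 1) v
    obtain ⟨E, hE⟩ : ∃ E, E = D * 2 ^ (h + 1) := ⟨_, rfl⟩
    have c4 : E = 2 * (D * 2 ^ h) := by rw [hE]; ring
    rw [← hE] at c3
    obtain ⟨M, hM⟩ : ∃ M, M = 2 ^ g * (kk d * (1 + g * E)) := ⟨_, rfl⟩
    have hlen : ∀ A : Finset V, A.card ≤ E → (TS d v0 pos g A).len + 4 ≤ M := by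
      intro A hA
      refine (TS_lenT (d := d) (v0 := v0) (pos := pos) g A).trans ?_
      rw [hM]
      exact Nat.mul_le_mul_left _ (Nat.mul_le_mul_left _ (Nat.add_le_add_left
        (Nat.mul_le_mul_left _ hA) _))
    have t1 := hlen (SD inc h v) (by omega)
    have t2 := hlen (SD inc h (v + 2 ^ h)) (by omega)
    have t3 := hlen (SD inc (h + 1) v) c3
    obtain ⟨l4, e4, k4⟩ := ext_infs (q := 20 * M) (B := sgn (xor (CD ch h v) (CD ch h (v + 2 ^ h)))
        (TS d v0 pos g (SD inc (h + 1) v)))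
      [sgn (CD ch h v) (TS d v0 pos g (SD inc h v)),
        sgn (CD ch h (v + 2 ^ h)) (TS d v0 pos g (SD inc h (v + 2 ^ h))),
        Z3 (TS d v0 pos g (SD inc h v)) (TS d v0 pos g (SD inc h (v + 2 ^ h)))
          (TS d v0 pos g (SD inc (h + 1) v))] e3.dr e3.nd
      (s_merge hX (CD ch h v) (CD ch h (v + 2 ^ h)) (TS d v0 pos g (SD inc h v))
        (TS d v0 pos g (SD inc h (v + 2 ^ h))) (TS d v0 pos g (SD inc (h + 1) v))) (by
        intro A hA
        simp only [List.mem_cons, List.not_mem_nil, or_false] at hA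
        rcases hA with rfl | rfl | rfl
        · exact e3.sub (e2.sub k1)
        · exact e3.sub k2
        · exact k3) (by
        have u1 := len_sgn_le (CD ch h v) (TS d v0 pos g (SD inc h v))
        have u2 := len_sgn_le (CD ch h (v + 2 ^ h)) (TS d v0 pos g (SD inc h (v + 2 ^ h)))
        have u3 := len_sgn_le (xor (CD ch h v) (CD ch h (v + 2 ^ h)))
          (TS d v0 pos g (SD inc (h + 1) v))
        have e5 : (imps [sgn (CD ch h v) (TS d v0 pos g (SD inc h v)),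
          sgn (CD ch h (v + 2 ^ h)) (TS d v0 pos g (SD inc h (v + 2 ^ h))),
          Z3 (TS d v0 pos g (SD inc h v)) (TS d v0 pos g (SD inc h (v + 2 ^ h)))
            (TS d v0 pos g (SD inc (h + 1) v))] (sgn (xor (CD ch h v) (CD ch h (v + 2 ^ h)))
            (TS d v0 pos g (SD inc (h + 1) v)))).len =
          (sgn (CD ch h v) (TS d v0 pos g (SD inc h v))).len +
          ((sgn (CD ch h (v + 2 ^ h)) (TS d v0 pos g (SD inc h (v + 2 ^ h)))).len +
          ((Z3 (TS d v0 pos g (SD inc h v)) (TS d v0 pos g (SD inc h (v + 2 ^ h)))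
            (TS d v0 pos g (SD inc (h + 1) v))).len +
          (sgn (xor (CD ch h v) (CD ch h (v + 2 ^ h)))
            (TS d v0 pos g (SD inc (h + 1) v))).len + 1) + 1) + 1 := rfl
        rw [e5, len_Z3]
        omega)
    refine ⟨_, l4, ((e1.trans e2).trans e3).trans e4, ?_, k4⟩
    obtain ⟨W, hW⟩ : ∃ W, W = 2 ^ (g + 1) * (kk d * ((g + 2) * E)) := ⟨_, rfl⟩
    have d1 : 2 ^ (g + 1) * (kk d * ((g + 2) * mt d ((SD inc h v).card +
        (SD inc h (v + 2 ^ h)).card))) ≤ W := by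
      rw [hW]
      refine Nat.mul_le_mul_left _ (Nat.mul_le_mul_left _ (Nat.mul_le_mul_left _ ?_))
      unfold Pool.Agent.H90.UB.mt
      split_ifs <;> omega
    have d2 : 80 * M ≤ 80 * (2 ^ g * kk d) + 80 * W := by
      have e5 : M = 2 ^ g * kk d + 2 ^ g * (kk d * (g * E)) := by rw [hM]; ring
      have e6 : 2 ^ g * (kk d * (g * E)) ≤ W := by
        rw [hW]
        refine Nat.mul_le_mul (Nat.pow_le_pow_right (by norm_num) (Nat.le_succ g))
          (Nat.mul_le_mul_left _ (Nat.mul_le_mul_right _ (by omega)))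
      omega
    have d3 : R * D * 2 ^ (h + 1) = 2000 * W := by
      rw [hR, hW, hE]; ring
    have d4 : 2 ^ (h + 1) * (n0 + Q) = 2 * (2 ^ h * (n0 + Q)) := by ring
    have d5 : (h + 1) * (2 ^ (h + 1) * (R * D)) = 2 * (h * (2 ^ h * (R * D))) +
        R * D * 2 ^ (h + 1) := by ring
    have d6 : ([sgn (CD ch h v) (TS d v0 pos g (SD inc h v)),
        sgn (CD ch h (v + 2 ^ h)) (TS d v0 pos g (SD inc h (v + 2 ^ h))),
        Z3 (TS d v0 pos g (SD inc h v)) (TS d v0 pos g (SD inc h (v + 2 ^ h)))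
          (TS d v0 pos g (SD inc (h + 1) v))].length + 1) * (20 * M) = 80 * M := by
      simp only [List.length_cons, List.length_nil]
      ring
    rw [d6, d4, d5, d3]
    omega

theorem contraT (hX : Full 1000 X) (hpos : Function.Injective pos) {g : ℕ} (hg : ∀ e, pos e < 2 ^ g)
    {inc : ℕ → Finset V} {ch : ℕ → Bool} {D n0 hh : ℕ} (hD : ∀ v, (inc v).card ≤ D)
    (hS : SD inc hh 0 = ∅) (hC : CD ch hh 0 = true)
    (hstar : ∀ v, ∀ l : List (Fm V), Dr X l → l.Nodup →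
      ∃ l', ExT X n0 l l' ∧ sgn (ch v) (TS d v0 pos g (inc v)) ∈ l') {Q R : ℕ}
    (hQ : Q = 2 ^ (g + 1) * qq d + 80 * (2 ^ g * kk d))
    (hR : R = 2000 * (2 ^ (g + 1) * (kk d * (g + 2)))) :
    ∃ l' : List (Fm V), Dr X l' ∧ l'.Nodup ∧ (∃ A, A ∈ l' ∧ Fm.neg A ∈ l') ∧
      tot l' ≤ 2 ^ hh * (n0 + Q) + hh * (2 ^ hh * (R * D)) + 1000 * 4 ^ d := by
  obtain ⟨T1, l1, e1, a1, k1⟩ := mergeT (v0 := v0) hX hpos hg hD hstar hQ hR hh 0 [] Dr.nil
    List.nodup_nil
  rw [hS, hC, TS_small g (by simp : (∅ : Finset V).card ≤ 2 ^ d)] at k1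
  have h0 : Bal d v0 (∅ : Finset V) = T d fun _ => bot v0 := balX_empty ∅
  rw [h0] at k1
  have k1' : (T d fun _ => bot v0) ∈ l1 := k1
  obtain ⟨l2, e2, k2⟩ := ex_nbot (s := 1000 * 4 ^ d) (b := 1000 * 4 ^ d) (d := d) (v0 := v0)
    hX le_rfl le_rfl e1.dr
  obtain ⟨l3, e3, k3⟩ := ext_of_ex e2 e1.nd
  refine ⟨l3, e3.dr, e3.nd, ⟨_, e3.sub k1', (k3 _).2 k2⟩, ?_⟩
  have h1 := (e1.trans e3).2.2.2
  have h2 : tot ([] : List (Fm V)) = 0 := rfl
  rw [h2] at h1
  omega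

end Pool.Agent.H55.AG
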