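import Mathlib
import Pool.Agent.H90.UB.Star
import Pool.Agent.H55.AG.MgT

set_option autoImplicit false
set_option linter.unusedSectionVars false

/-!
# Module UB0T: systems of linear equations, total size, sound schemes of bounded length

PROOF. As `ub0` in `H90/UB/Fixd.lean`. Fix `d := Dm` (`Dm ≤ 2 ^ Dm`), `ℓ0 := 1000 + 2 ^ Dm * (4 * Dm + 1) + 100 * 2 ^ Dm`,
`g := Nat.clog 2 (Dm * N)` (`1 ≤ Dm * N`; `N = 0`: then `N ≤ 2 ^ hh ≤ 2 * N` is impossible). `hstar`: there `clauses` and `star` with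
`s = b = ℓ0 * 4 ^ d` give `Ex X s b (2 * 2 ^ Dm + 7 + Dm * (2 * d + 4)) 0 l l'`; `ext_of_ex` turns this into `ExT X n0 l l''` with
`n0 = (2 * 2 ^ Dm + 7 + Dm * (2 * d + 4)) * (ℓ0 * 4 ^ d)`. Then `contraT` with `D = Dm`, `pos = Fin.val`. Bounds: `2 ^ hh ≤ 2 * N`,
`hh ≤ Nat.log 2 N + 1`, `2 ^ g ≤ 2 * Dm * N`, `g ≤ Nat.log 2 N + Dm + 1` (`Dm < 2 ^ Dm`), so `g + 2 ≤ (Dm + 3) * (Nat.log 2 N + 1)`.
`2 ^ hh * (n0 + Q) ≤ 2 * N * (n0 + 4 * Dm * N * qq d + 160 * Dm * N * kk d)` and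
`hh * (2 ^ hh * (R * D)) ≤ (Nat.log 2 N + 1) * (2 * N * (2000 * (4 * Dm * N * (kk d * ((Dm + 3) * (Nat.log 2 N + 1)))) * Dm))`,
`1000 * 4 ^ d ≤ 1000 * 4 ^ d * N ^ 2 * (..) ^ 2`. The constant `K0` is the sum of the coefficients.
-/

namespace Pool.Agent.H55.AG

open Finset Pool.Agent.H3.Frg Pool.Agent.H3.Frg2 Pool.Agent.H3.Frg4 Pool.Agent.H90.UB

private theorem ub0T_clog {m : ℕ} (hm : 1 ≤ m) : 2 ^ Nat.clog 2 m ≤ 2 * m := by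
  rcases Nat.lt_or_ge 1 m with h | h
  · have h1 : 2 ^ (Nat.clog 2 m).pred < m := Nat.pow_pred_clog_lt_self (by norm_num) h
    have h2 : 0 < Nat.clog 2 m := Nat.clog_pos (by norm_num) h
    have h3 : Nat.clog 2 m = (Nat.clog 2 m).pred + 1 := by
      rw [Nat.pred_eq_sub_one]
      omega
    rw [h3, pow_succ]
    omega
  · have h1 : m = 1 := by omega
    rw [h1]
    simp

private theorem ub0T_arith {Dm N g hh n0 k q : ℕ} (hN : 1 ≤ N) (hDp : Dm ≤ 2 ^ Dm)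
    (hg : 2 ^ g ≤ 2 * (Dm * N)) (hh2 : 2 ^ hh ≤ 2 * N) :
    2 ^ hh * (n0 + (2 ^ (g + 1) * q + 80 * (2 ^ g * k))) +
      hh * (2 ^ hh * (2000 * (2 ^ (g + 1) * (k * (g + 2))) * Dm)) + 1000 * 4 ^ Dm ≤
    (2 * n0 + 8 * Dm * q + 320 * Dm * k + 16000 * Dm * k * (Dm + 3) * Dm + 1000 * 4 ^ Dm) *
      (N ^ 2 * (Nat.log 2 N + 1) ^ 2) := by
  have hL : N < 2 ^ (Nat.log 2 N + 1) := Nat.lt_pow_succ_log_self (by norm_num) N
  obtain ⟨L, hLd⟩ : ∃ L, L = Nat.log 2 N + 1 := ⟨_, rfl⟩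
  rw [← hLd] at hL ⊢
  have hL1 : 1 ≤ L := by omega
  have hhL : hh ≤ L := by
    have h1 : 2 ^ hh < 2 ^ (L + 1) := by
      rw [pow_succ]
      omega
    have h2 := (Nat.pow_lt_pow_iff_right (by norm_num : 1 < 2)).1 h1
    omega
  have hgL : g + 2 ≤ (Dm + 3) * L := by
    have h1 : 2 ^ g < 2 ^ (1 + Dm + L) := by
      calc 2 ^ g ≤ 2 * (Dm * N) := hg
        _ ≤ 2 * (2 ^ Dm * N) := by gcongr
        _ < 2 * (2 ^ Dm * 2 ^ L) := by gcongr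
        _ = 2 ^ (1 + Dm + L) := by ring
    have h2 := (Nat.pow_lt_pow_iff_right (by norm_num : 1 < 2)).1 h1
    have h3 : (Dm + 3) * L = (Dm + 2) * L + L := by ring
    have h4 : Dm + 2 ≤ (Dm + 2) * L := Nat.le_mul_of_pos_right _ hL1
    omega
  have hg1 : 2 ^ (g + 1) ≤ 4 * (Dm * N) := by
    rw [pow_succ]
    omega
  have hNN : N ≤ N ^ 2 * L ^ 2 := by
    calc N = N * 1 * 1 := by ring
      _ ≤ N * N * (L ^ 2) := by
        gcongr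
        exact Nat.one_le_pow _ _ hL1
      _ = N ^ 2 * L ^ 2 := by ring
  have hN2 : N ^ 2 ≤ N ^ 2 * L ^ 2 := Nat.le_mul_of_pos_right _ (Nat.one_le_pow _ _ hL1)
  have h1N : 1 ≤ N ^ 2 * L ^ 2 := hN.trans hNN
  have h1 : 2 ^ hh * (n0 + (2 ^ (g + 1) * q + 80 * (2 ^ g * k))) ≤
      (2 * N) * (n0 + (4 * (Dm * N) * q + 80 * (2 * (Dm * N) * k))) := by gcongr
  have h2 : hh * (2 ^ hh * (2000 * (2 ^ (g + 1) * (k * (g + 2))) * Dm)) ≤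
      L * ((2 * N) * (2000 * (4 * (Dm * N) * (k * ((Dm + 3) * L))) * Dm)) := by gcongr
  have h3 : (2 * N) * (n0 + (4 * (Dm * N) * q + 80 * (2 * (Dm * N) * k))) =
      2 * n0 * N + (8 * Dm * q + 320 * Dm * k) * N ^ 2 := by ring
  have h4 : L * ((2 * N) * (2000 * (4 * (Dm * N) * (k * ((Dm + 3) * L))) * Dm)) =
      16000 * Dm * k * (Dm + 3) * Dm * (N ^ 2 * L ^ 2) := by ring
  have h5 : 2 * n0 * N ≤ 2 * n0 * (N ^ 2 * L ^ 2) := Nat.mul_le_mul_left _ hNN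
  have h6 : (8 * Dm * q + 320 * Dm * k) * N ^ 2 ≤
      (8 * Dm * q + 320 * Dm * k) * (N ^ 2 * L ^ 2) := Nat.mul_le_mul_left _ hN2
  have h7 : 1000 * 4 ^ Dm ≤ 1000 * 4 ^ Dm * (N ^ 2 * L ^ 2) := Nat.le_mul_of_pos_right _ h1N
  calc _ ≤ (2 * n0 * (N ^ 2 * L ^ 2) + (8 * Dm * q + 320 * Dm * k) * (N ^ 2 * L ^ 2)) +
        16000 * Dm * k * (Dm + 3) * Dm * (N ^ 2 * L ^ 2) +
        1000 * 4 ^ Dm * (N ^ 2 * L ^ 2) := by
        refine Nat.add_le_add (Nat.add_le_add ?_ ?_) h7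
        · rw [h3] at h1
          omega
        · rw [h4] at h2
          exact h2
    _ = _ := by ring

theorem ub0T (Dm : ℕ) (hDm : 1 ≤ Dm) : ∃ ℓ0 K0 : ℕ, ∀ (N : ℕ) (C : ℕ → Fm ℕ), UBP Dm N C →
    ∃ (ne : ℕ) (_v0 : Fin ne) (C' : ℕ → Fm (Fin ne)) (l : List (Fm (Fin ne))), ne ≤ Dm * N ∧
      (∀ i, C i = (C' i).ren Fin.val) ∧ Dr (Ax (S0 ℓ0) (Set.range C')) l ∧
      (∃ A, A ∈ l ∧ Fm.neg A ∈ l) ∧ tot l ≤ K0 * (N ^ 2 * (Nat.log 2 N + 1) ^ 2) := by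
  classical
  obtain ⟨ℓ0, hℓ⟩ : ∃ ℓ0, ℓ0 = 1000 + 2 ^ Dm * (4 * Dm + 1) + 100 * 2 ^ Dm := ⟨_, rfl⟩
  obtain ⟨n0, hn0⟩ : ∃ n0, n0 = (2 * 2 ^ Dm + 7 + Dm * (2 * Dm + 4)) * (ℓ0 * 4 ^ Dm) := ⟨_, rfl⟩
  have hDp : Dm ≤ 2 ^ Dm := (Nat.lt_two_pow_self).le
  refine ⟨ℓ0, 2 * n0 + 8 * Dm * qq Dm + 320 * Dm * kk Dm +
    16000 * Dm * kk Dm * (Dm + 3) * Dm + 1000 * 4 ^ Dm, fun N C h => ?_⟩
  obtain ⟨ne, hh, v0, C', inc, ch, hne, hN1, hN2, hC, hCl, hinc, hSD, hCD, hI⟩ := h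
  have hNpos : 1 ≤ N := by
    have : 1 ≤ 2 ^ hh := Nat.one_le_two_pow
    omega
  have hDN : 1 ≤ Dm * N := Nat.mul_pos hDm hNpos
  obtain ⟨g, hgdef⟩ : ∃ g, g = Nat.clog 2 (Dm * N) := ⟨_, rfl⟩
  have hg : Dm * N ≤ 2 ^ g := by
    rw [hgdef]
    exact Nat.le_pow_clog (by norm_num) _
  have hg2 : 2 ^ g ≤ 2 * (Dm * N) := by
    rw [hgdef]
    exact ub0T_clog hDN
  obtain ⟨s, hs⟩ : ∃ s, s = ℓ0 * 4 ^ Dm := ⟨_, rfl⟩
  have h4d : 1 ≤ 4 ^ Dm := Nat.one_le_pow _ _ (by norm_num)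
  set X := Ax (S0 ℓ0) (Set.range C') with hXdef
  have hX : Full ℓ0 X := fun ψ hψ σ => Or.inr ⟨ψ, hψ, σ, rfl⟩
  have hX1 : Full 1000 X := fun ψ hψ σ => Or.inr ⟨ψ, ⟨hψ.1.trans (by omega), hψ.2⟩, σ, rfl⟩
  have hs1 : 1000 * 4 ^ Dm ≤ s := by
    rw [hs]; exact Nat.mul_le_mul_right _ (by omega)
  have hs2 : ℓ0 ≤ s := by rw [hs]; exact Nat.le_mul_of_pos_right _ (by omega)
  have hgpos : ∀ e : Fin ne, (e : ℕ) < 2 ^ g := fun e =>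
    lt_of_lt_of_le e.isLt (hne.trans hg)
  have hcard : ∀ v, (inc v).card ≤ 2 ^ Dm := fun v => (hinc v).trans hDp
  have hstar : ∀ v, ∀ l : List (Fm (Fin ne)), Dr X l → l.Nodup →
      ∃ l', ExT X n0 l l' ∧ sgn (ch v) (TS Dm v0 Fin.val g (inc v)) ∈ l' := by
    intro v l hl hnd
    obtain ⟨I, hI1, hI2⟩ := hI v
    have hlen : (inc v).toList.length ≤ Dm := by
      rw [Finset.length_toList]; exact hinc v
    obtain ⟨l1, e1, k1⟩ := clauses (s := s) (b := s) hX Fin.val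
      (fun i => if h : i < ne then ⟨i, h⟩ else v0)
      (fun e => by simp) (q := 4 * Dm) (I.map C') (by
        intro A hA
        obtain ⟨i, _, rfl⟩ := List.mem_map.1 hA
        exact Or.inl ⟨i, rfl⟩) (by
        intro A hA
        obtain ⟨i, _, rfl⟩ := List.mem_map.1 hA
        exact hCl i) (inc v).toList (ch v) (by
        intro x hx
        exact hI2 x fun i hi => hx _ (List.mem_map.2 ⟨i, hi, rfl⟩)) (by
        rw [List.length_map]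
        have h1 : I.length * (4 * Dm + 1) ≤ 2 ^ Dm * (4 * Dm + 1) :=
          Nat.mul_le_mul_right _ hI1
        have h2 : 2 ^ (inc v).toList.length ≤ 2 ^ Dm := Nat.pow_le_pow_right (by norm_num) hlen
        omega) hs2 le_rfl hl
    rw [List.length_map] at e1
    obtain ⟨l2, e2, k2⟩ := star (v0 := v0) hX1 hs1 le_rfl (hcard v) (by
        have h2 : 2 ^ (inc v).card ≤ 2 ^ Dm := Nat.pow_le_pow_right (by norm_num) (hinc v)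
        omega) (ch v) e1.dr k1
    have e3 : Ex X s s (2 * 2 ^ Dm + 7 + Dm * (2 * Dm + 4)) 0 l l2 := by
      refine (e1.trans e2).mono ?_ (by omega)
      have h1 : (inc v).card * (2 * Dm + 4) ≤ Dm * (2 * Dm + 4) := Nat.mul_le_mul_right _ (hinc v)
      omega
    obtain ⟨l3, e4, k3⟩ := ext_of_ex e3 hnd
    refine ⟨l3, ?_, ?_⟩
    · rw [hn0, ← hs]
      exact e4
    · rw [TS_small g (hcard v)]
      exact (k3 _).2 k2
  obtain ⟨l, hl, hnd, hcon, htot⟩ := contraT (v0 := v0) hX1 Fin.val_injective hgpos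
    hinc hSD hCD hstar rfl rfl
  refine ⟨ne, v0, C', l, hne, hC, hl, hcon, htot.trans ?_⟩
  exact ub0T_arith hNpos hDp hg2 hN2

end Pool.Agent.H55.AG
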