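import Mathlib
import Pool.Agent.H55.AG.Ub0T
import Pool.Agent.H55.AG.SimT
import Pool.Agent.H55.AG.UbP

set_option autoImplicit false
set_option linter.unusedSectionVars false

/-!
# Module UBT: every Tseitin formula has a refutation of total size `O(n ^ 2 (log n) ^ 3)`

PROOF. `D = 0`: impossible by `ubpg` (`1 ≤ D`). `ub0T` for `Dm = D` gives `ℓ0`, `K0`, `simulT` for `ℓ0` gives `c`. For a graph: `ubpg` gives
`C` with `C i ∈ Ts D G ν c` and `UBP D n C`; `ub0T` the list `l`, `simulT` the list `l'` with `tot l' ≤ c * K0 * (n ^ 2 * (Nat.log 2 n + 1) ^ 2)`,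
`to_derT` the function `pf`; finally `fun i => (pf i).ren Fin.val` as at the end of `ub_fixed` (`isDer_ren`, `enc_le`: the code of a renamed
formula `A` is at most `A.len * (2 * Nat.size (D * n) + 2)` long), `Nat.size (D * n) ≤ D + Nat.log 2 n + 1`, so
`2 * Nat.size (D * n) + 2 ≤ (2 * D + 4) * (Nat.log 2 n + 1)`. The sum: `Finset.sum_mul`.
-/

namespace Pool.Agent.H55.AG

open Finset Classical Pool.Agent.H3.Frg Pool.Agent.H3.Frg2 Pool.Agent.H3.Frg4 Pool.Agent.H90.UB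

theorem ubt {F : Set (Fm ℕ)} (hF : Pool.Agent.H90.UB.Compl F) (D : ℕ) : ∃ Cc : ℕ,
    ∀ (V : Type) [Fintype V] (G : SimpleGraph V), G.Connected → 2 ≤ Fintype.card V →
    (∀ v, (nbG G v).card ≤ D) →
    ∀ (ν : Sym2 V → ℕ), Set.InjOn ν G.edgeSet → (∀ g ∈ G.edgeSet, ν g < D * Fintype.card V) →
    ∀ (c : V → Bool), Odd (univ.filter fun v => c v = true).card →
    ∃ (L : ℕ) (pf : Fin L → Fm ℕ), IsDer F (Ts D G ν c) pf ∧ (∃ i j, pf i = Fm.neg (pf j)) ∧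
      ∑ i, (pf i).enc.length ≤ Cc * (Fintype.card V ^ 2 * (Nat.log 2 (Fintype.card V) + 1) ^ 3) := by
  rcases Nat.eq_zero_or_pos D with hD0 | hD0
  · refine ⟨0, fun V _ G hG h2 hdeg ν hν hνM c hc => ?_⟩
    have h := (ubpg G hG h2 hdeg hν hνM hc).1
    omega
  obtain ⟨ℓ0, K0, h0⟩ := ub0T D hD0
  obtain ⟨c0, hc0, hsim⟩ := simulT hF ℓ0
  refine ⟨c0 * K0 * (2 * D + 4), fun V _ G hG h2 hdeg ν hν hνM c hc => ?_⟩
  obtain ⟨-, C, hC, hU⟩ := ubpg G hG h2 hdeg hν hνM hc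
  obtain ⟨ne, v0, C', l, hne, hCC, hl, ⟨A, hA, hA'⟩, htot⟩ := h0 _ C hU
  obtain ⟨l', hl', hsub, htot'⟩ := hsim (Fin ne) v0 (Set.range C') l hl
  obtain ⟨pf, hpf, hpf1, hpf2⟩ := to_derT hl'
  obtain ⟨n, hn⟩ : ∃ n, n = Fintype.card V := ⟨_, rfl⟩
  rw [← hn] at hne htot ⊢
  have hn2 : 2 ≤ n := by rw [hn]; exact h2
  obtain ⟨Λ, hΛ⟩ : ∃ Λ, Λ = 2 * Nat.size (D * n) + 2 := ⟨_, rfl⟩
  have hsz : Nat.size ne ≤ Nat.size (D * n) := Nat.size_le_size hne
  have henc : ∀ A : Fm (Fin ne), (A.ren Fin.val).enc.length ≤ A.len * Λ := by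
    intro A
    refine (enc_le Fin.val ne (fun v => v.isLt) A).trans ?_
    exact Nat.mul_le_mul_left _ (by omega)
  have hΛ2 : Λ ≤ (2 * D + 4) * (Nat.log 2 n + 1) := by
    have h1 : Nat.size (D * n) ≤ D + (Nat.log 2 n + 1) := by
      rw [Nat.size_le, pow_add]
      have h3 : D < 2 ^ D := Nat.lt_two_pow_self
      have h4 : n < 2 ^ (Nat.log 2 n + 1) := Nat.lt_pow_succ_log_self (by norm_num) n
      exact Nat.mul_lt_mul'' h3 h4
    have h5 : D ≤ D * (Nat.log 2 n + 1) := Nat.le_mul_of_pos_right _ (by omega)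
    have h6 : (2 * D + 4) * (Nat.log 2 n + 1) =
        2 * (D * (Nat.log 2 n + 1)) + 4 * (Nat.log 2 n + 1) := by ring
    rw [h6]
    omega
  refine ⟨l'.length, fun i => (pf i).ren Fin.val, ?_, ?_, ?_⟩
  · have h1 := isDer_ren hpf Fin.val
    intro i
    rcases h1 i with h2 | h2
    · left
      obtain ⟨B, ⟨j, rfl⟩, h3⟩ := h2
      have h3' : (C' j).ren Fin.val = (pf i).ren Fin.val := h3
      show (pf i).ren Fin.val ∈ _
      rw [← h3', ← hCC j]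
      exact hC j
    · exact Or.inr h2
  · obtain ⟨i, hi⟩ := hpf1 _ (hsub _ hA')
    obtain ⟨j, hj⟩ := hpf1 _ (hsub _ hA)
    refine ⟨i, j, ?_⟩
    show (pf i).ren Fin.val = Fm.neg ((pf j).ren Fin.val)
    rw [hi, hj]
    rfl
  · calc ∑ i, ((pf i).ren Fin.val).enc.length ≤ ∑ i, (pf i).len * Λ :=
          Finset.sum_le_sum fun i _ => henc (pf i)
      _ = tot l' * Λ := by rw [← Finset.sum_mul, hpf2]
      _ ≤ (c0 * (K0 * (n ^ 2 * (Nat.log 2 n + 1) ^ 2))) *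
            ((2 * D + 4) * (Nat.log 2 n + 1)) :=
          Nat.mul_le_mul (htot'.trans (Nat.mul_le_mul_left _ htot)) hΛ2
      _ = _ := by ring

end Pool.Agent.H55.AG
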