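import Mathlib
import Pool.Agent.H55.AG.GLBC
import Pool.Agent.H55.AG.UbA
import Pool.Agent.H55.AG.UbB
import Pool.Agent.H55.AG.UbT

set_option autoImplicit false
set_option linter.unusedSectionVars false

/-!
# THEOREM AG: Frege refutations of the Tseitin formulas of all graphs, also total size
-/

namespace Pool.Agent.H55.AG

open Finset Classical Pool.Agent.H3.Frg Pool.Agent.H3.Frg2 Pool.Agent.H3.Frg4
  Pool.Agent.H90.UB Pool.Agent.H90.PC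

theorem finalAGT (D : ℕ) (e : ℝ) (he : 0 < e) :
    (∃ ε : ℝ, 0 < ε ∧ ∀ ℓ : ℕ, ∃ w0 : ℕ, ∀ w, w0 ≤ w →
      ∀ (V : Type) [Fintype V] (G : SimpleGraph V), G.Connected → (∀ v, (nbG G v).card ≤ D) →
      ¬ TwLE G w → ∀ (ν : Sym2 V → ℕ), Set.InjOn ν G.edgeSet →
      ∀ (c : V → Bool), Odd (univ.filter fun v => c v = true).card →
      ∀ Sch : Set (Fm ℕ), (∀ ψ ∈ Sch, ψ.len ≤ ℓ ∧ ∀ x : ℕ → Bool, ψ.eval x = true) →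
      ∀ (K : ℕ) (q : Fin K → ℕ) (Df : Fin K → Fm ℕ), (K : ℝ) ≤ (w : ℝ) ^ ε → ExtG G ν q Df →
      ∀ (L : ℕ) (pf : Fin L → Fm ℕ), IsDer Sch (Ts D G ν c ∪ ExtAx q Df) pf →
      (∃ i j, pf i = Fm.neg (pf j)) →
      ((L : ℝ) < (2 : ℝ) ^ ((w : ℝ) ^ ε) → ∀ N : ℕ, 1 ≤ N → (N : ℝ) ≤ (w : ℝ) ^ (1 - e) →
        N < {A | (∃ i, A = pf i) ∧
          (w : ℝ) ^ (2 - e) / (N : ℝ) ^ 2 < (A.enc.length : ℝ)}.ncard) ∧
      ∀ (Gs : Finset (Fm ℕ)) (Q : Fin L → Finset (Fm ℕ)) (w' : ℕ) (S : ℝ), 1 ≤ S →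
        ((Gs.card : ℝ) + 1) ^ 2 * (w' + 1) * S ≤ (w : ℝ) ^ (2 - e) →
        (∀ i, (Q i).card ≤ w' ∧ ((∑ B ∈ Q i, B.enc.length : ℕ) : ℝ) ≤ S ∧
          BC {A | A ∈ Gs ∨ A ∈ Q i} (pf i)) →
        (2 : ℝ) ^ ((w : ℝ) ^ ε) ≤ L) ∧
    ∀ F : Set (Fm ℕ), Pool.Agent.H90.UB.Compl F → ∃ Cc : ℕ,
      ∀ (V : Type) [Fintype V] (G : SimpleGraph V), G.Connected → 2 ≤ Fintype.card V →
      (∀ v, (nbG G v).card ≤ D) →
      ∀ (ν : Sym2 V → ℕ), Set.InjOn ν G.edgeSet → (∀ g ∈ G.edgeSet, ν g < D * Fintype.card V) →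
      ∀ (c : V → Bool), Odd (univ.filter fun v => c v = true).card →
      (∃ (L : ℕ) (pf : Fin L → Fm ℕ), IsDer F (Ts D G ν c) pf ∧ (∃ i j, pf i = Fm.neg (pf j)) ∧
        ∑ i, (pf i).enc.length ≤
          Cc * (Fintype.card V ^ 2 * (Nat.log 2 (Fintype.card V) + 1) ^ 3)) ∧
      (∀ k : ℕ, TwLE G k → ∃ (L : ℕ) (pf : Fin L → Fm ℕ), IsDer F (Ts D G ν c) pf ∧
        (∃ i j, pf i = Fm.neg (pf j)) ∧ L ≤ (Fintype.card V + 2) ^ Cc ∧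
        ∀ i, (pf i).enc.length ≤ Cc * (k + 1) ^ 2 * (Nat.log 2 (Fintype.card V) + 1)) ∧
      (Cc ≤ Fintype.card V → ∀ N : ℕ, 1 ≤ N → N ≤ Fintype.card V →
        ∃ (L : ℕ) (pf : Fin L → Fm ℕ), IsDer F (Ts D G ν c) pf ∧
        (∃ i j, pf i = Fm.neg (pf j)) ∧
        L ≤ Fintype.card V ^ 4 ∧ (∀ i, (pf i).enc.length ≤ Fintype.card V ^ 5) ∧
        (({A | (∃ i, A = pf i) ∧ (Fintype.card V : ℝ) ^ (2 + e) / (N : ℝ) ^ 2 <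
          (A.enc.length : ℝ)}.ncard : ℕ) : ℝ) ≤
            ((N : ℝ) - 1) * (Fintype.card V : ℝ) ^ e) := by
  refine ⟨glb2 D e he, fun F hF => ?_⟩
  obtain ⟨C1, h1⟩ := uba hF D
  obtain ⟨n0, h2⟩ := ubb hF D e he
  obtain ⟨C3, h3⟩ := ubt hF D
  refine ⟨C1 + n0 + C3, fun V _ G hG hV hdeg ν hν hνM c hc => ⟨?_, fun k hk => ?_,
    fun hn N hN1 hN2 => ?_⟩⟩
  · obtain ⟨L, pf, a1, a2, a3⟩ := h3 V G hG hV hdeg ν hν hνM c hc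
    exact ⟨L, pf, a1, a2, a3.trans (Nat.mul_le_mul_right _ (by omega))⟩
  · obtain ⟨L, pf, a1, a2, a3, a4⟩ := h1 V G k hG hV hdeg hk ν hν hνM c hc
    refine ⟨L, pf, a1, a2, a3.trans (Nat.pow_le_pow_right (by omega) (by omega)), fun i => ?_⟩
    refine (a4 i).trans (Nat.mul_le_mul_right _ (Nat.mul_le_mul_right _ (by omega)))
  · exact h2 V G hG (by omega) hdeg ν hν hνM c hc N hN1 hN2

end Pool.Agent.H55.AG
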