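import Mathlib
import Pool.Agent.H3.Wd.Fin
import Pool.Agent.H55.AG.FixWX

set_option autoImplicit false
set_option linter.unusedSectionVars false

/-!
# Module FINW2X: the world theorem (as `H1/FX/Fin2.lean`), with the graph in the conclusion
-/

namespace Pool.Agent.H55.AG

open Finset Filter Topology Pool.Agent.H3.Frg Pool.Agent.H3.Frg2 Pool.Agent.H3.Frg3
  Pool.Agent.H3.Frg4 Pool.Agent.H3.Ac Pool.Agent.H3.Ex Pool.Agent.H3.Wd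

theorem finalW2X (θ : ℝ) (hθ : θ < 2) (D c : ℕ) :
    ∃ (k : ℕ) (ε : ℝ), 0 < ε ∧ ∃ (d : ℕ → ℕ) (C : ℕ → ℕ → Fm ℕ) (τ : ℕ → Fm ℕ) (w : ℕ → ℕ),
      (∀ n, τ n = Fm.neg (bigAnd (d n) (C n))) ∧
      (∃ (cc : ℕ) (Nf : ℕ → ℕ), ∀ n, 2 ^ n ≤ Nf n ∧ Nf n ≤ (τ n).enc.length ∧
        GP k (Nf n) (fun i => C n (i % 2 ^ d n)) ∧ Nf (n + 1) ≤ cc * Nf n) ∧
      (∀ n i, IsClause k (C n i)) ∧
      (∀ n x, (τ n).eval x = true) ∧
      Tendsto (fun n => (τ n).enc.length) atTop atTop ∧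
      Tendsto w atTop atTop ∧
      ∀ᶠ n in atTop, ((τ n).enc.length : ℝ) ^ ε ≤ (w n : ℝ) ∧
        ∀ S : List (Fm ℕ), SubCl {A | A ∈ S} →
        (S.length : ℝ) ≤ (2 : ℝ) ^ (((τ n).enc.length : ℝ) ^ ε) →
        (∀ A ∈ S, LDep (fun A => (A.enc.length : ℝ) ≤ ((τ n).enc.length : ℝ) ^ θ) D A) →
        HasWorld {A | A ∈ S} (Set.range (C n)) (w n) (w n ^ c) := by
  obtain ⟨θ', hθ'⟩ : ∃ θ' : ℝ, θ' = max θ 1 := ⟨_, rfl⟩
  have hθ1 : 1 ≤ θ' := by rw [hθ']; exact le_max_right _ _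
  have hθθ : θ ≤ θ' := by rw [hθ']; exact le_max_left _ _
  have hθ2 : θ' < 2 := by rw [hθ']; exact max_lt hθ (by norm_num)
  obtain ⟨J, hJ⟩ : ∃ J : ℕ, J = ⌈8 / (2 - θ')⌉₊ + 1 := ⟨_, rfl⟩
  obtain ⟨γ, hγ⟩ : ∃ γ : ℝ, γ = 2 * (J:ℝ) - ((J:ℝ) + 4) * θ' := ⟨_, rfl⟩
  have hγ0 : 0 < γ := by
    have h1 : 8 / (2 - θ') + 1 ≤ J := by
      rw [hJ]; push_cast
      have := Nat.le_ceil (8 / (2 - θ'))
      linarith
    have h2 : 0 < 2 - θ' := by linarith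
    have h3 : 8 / (2 - θ') * (2 - θ') = 8 := div_mul_cancel₀ _ h2.ne'
    have h4 : (8 / (2 - θ') + 1) * (2 - θ') ≤ J * (2 - θ') :=
      mul_le_mul_of_nonneg_right h1 h2.le
    rw [hγ]
    nlinarith
  obtain ⟨Dm, hDm⟩ : ∃ Dm, Dm = dgf (J + 1) := ⟨_, rfl⟩
  have hD80 : 80 ≤ Dm := by rw [hDm]; exact one_le_dgf (J + 1)
  obtain ⟨p0, hp0⟩ : ∃ p0, p0 = 2 * Dm + 14 := ⟨_, rfl⟩
  obtain ⟨q0, hq0⟩ : ∃ q0, q0 = 15 + (12 + 12 * (c + 1)) * (3 * 4 ^ D) := ⟨_, rfl⟩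
  have hq0b : 36 * 4 ^ D ≤ q0 := by
    have h1 : 12 * (3 * 4 ^ D) ≤ (12 + 12 * (c + 1)) * (3 * 4 ^ D) :=
      Nat.mul_le_mul_right _ (by omega)
    rw [hq0]
    omega
  obtain ⟨c1, hc1⟩ : ∃ c1, c1 = 2 * q0 + J * p0 + 1 := ⟨_, rfl⟩
  obtain ⟨y, hy⟩ : ∃ y : ℕ, y = ⌈2 * (c1:ℝ) / γ⌉₊ + 1 := ⟨_, rfl⟩
  obtain ⟨q, hq⟩ : ∃ q : ℕ, q = 2 * y + q0 := ⟨_, rfl⟩
  have hyγ : 2 * (c1:ℝ) ≤ γ * y := by
    have h1 : 2 * (c1:ℝ) / γ ≤ y := by
      refine (Nat.le_ceil _).trans ?_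
      rw [hy]; push_cast
      linarith
    rw [div_le_iff₀ hγ0] at h1
    linarith
  obtain ⟨pp, hpp⟩ : ∃ pp, pp = y + p0 := ⟨_, rfl⟩
  obtain ⟨A, hA⟩ : ∃ A : ℕ, A = 2 * q + pp * J + 1 := ⟨_, rfl⟩
  obtain ⟨B, hB⟩ : ∃ B : ℕ, B = 2 * y * J := ⟨_, rfl⟩
  have hAθ : (A:ℝ) * θ' ≤ (B : ℝ) := by
    have h0 : A = (J + 4) * y + c1 := by
      rw [hA, hc1, hpp, hq]; ring
    rw [h0, hB]
    push_cast
    have h1 : (((J:ℝ) + 4) * y + c1) * θ' = y * (2 * J) - γ * y + c1 * θ' := by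
      rw [hγ]; ring
    rw [h1]
    have h2 : (c1:ℝ) * θ' ≤ c1 * 2 := mul_le_mul_of_nonneg_left hθ2.le (by positivity)
    linarith
  have hAB : A ≤ B := by
    have h1 : (A:ℝ) ≤ (A:ℝ) * θ' := le_mul_of_one_le_right (by positivity) hθ1
    exact_mod_cast h1.trans hAθ
  have hA1 : 1 ≤ A := by omega
  have hA0 : (0:ℝ) < A := by exact_mod_cast hA1
  have hq1 : 1 ≤ q := by omega
  have hm0 : ∀ n : ℕ, Even ((2 ^ (n + 10)) ^ q) := fun n => by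
    refine (Nat.even_pow.mpr ⟨Nat.even_pow.mpr ⟨by decide, by omega⟩, by omega⟩)
  have hmn : ∀ n : ℕ, (2 ^ (n + 10)) ^ (2 * q) ≤ ((2 ^ (n + 10)) ^ q + 1) ^ 2 := fun n => by
    rw [pow_mul' (2 ^ (n + 10)) 2 q]
    exact Nat.pow_le_pow_left (by omega) 2
  have hm4 : ∀ n : ℕ, ((2 ^ (n + 10)) ^ q + 1) ^ 2 ≤ 4 * (2 ^ (n + 10)) ^ (2 * q) := fun n => by
    rw [pow_mul' (2 ^ (n + 10)) 2 q]
    obtain ⟨z, hz⟩ : ∃ z, z = (2 ^ (n + 10)) ^ q := ⟨_, rfl⟩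
    have h2 : 1 ≤ z := by rw [hz]; exact Nat.one_le_pow _ _ (by positivity)
    rw [← hz]
    calc (z + 1) ^ 2 ≤ (2 * z) ^ 2 := Nat.pow_le_pow_left (by omega) 2
      _ = 4 * z ^ 2 := by ring
  have hch := fun n : ℕ => fixedWX (J := J) (m := (2 ^ (n + 10)) ^ q)
    (n := (2 ^ (n + 10)) ^ (2 * q)) (k := pp * (n + 10)) (Dm := Dm) (hm0 n) (by rw [hDm]) (by
      calc 1000 ≤ 2 ^ 10 := by norm_num
        _ ≤ 2 ^ (n + 10) := Nat.pow_le_pow_right (by norm_num) (by omega)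
        _ ≤ (2 ^ (n + 10)) ^ (2 * q) := Nat.le_self_pow (by omega) _) (hmn n)
  choose d C hC0 hC7 hC1 hC2 hC3 hC5 hC6 using hch
  obtain ⟨τ, hτ⟩ : ∃ τ : ℕ → Fm ℕ, τ = fun n => Fm.neg (bigAnd (d n) (C n)) := ⟨_, rfl⟩
  have hτn : ∀ n, Fm.neg (bigAnd (d n) (C n)) = τ n := fun n => by rw [hτ]
  simp only [hτn] at hC2 hC3 hC5 hC7
  have hshift : Tendsto (fun n : ℕ => n + 10) atTop atTop := tendsto_add_atTop_nat 10
  have hshift2 : Tendsto (fun n : ℕ => 2 ^ (n + 10)) atTop atTop :=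
    (tendsto_pow_atTop_atTop_of_one_lt (by norm_num : (1:ℕ) < 2)).comp hshift
  refine ⟨Dm, 1 / (2 * (A:ℝ)), by positivity, d, C, τ, fun n => (2 ^ (n + 10)) ^ 12,
    fun n => (hτn n).symm, ⟨2 ^ (2 * q + 2 + (pp + 1) * J),
      fun n => ((2 ^ (n + 10)) ^ q + 1) ^ 2 * ((pp * (n + 10) + 1) * 2 ^ (pp * (n + 10))) ^ J,
      fun n => ⟨?_, ?_, hC0 n, ?_⟩⟩, hC1, hC2, ?_, ?_, ?_⟩
  · have e1 : 1 ≤ ((pp * (n + 10) + 1) * 2 ^ (pp * (n + 10))) ^ J :=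
      Nat.one_le_pow _ _ (Nat.mul_pos (by omega) (by positivity))
    refine le_trans ?_ (Nat.le_mul_of_pos_right _ e1)
    refine le_trans ?_ (hmn n)
    rw [← pow_mul]
    exact Nat.pow_le_pow_right (by norm_num) (by nlinarith)
  · exact hC7 n
  · show ((2 ^ (n + 1 + 10)) ^ q + 1) ^ 2 *
        ((pp * (n + 1 + 10) + 1) * 2 ^ (pp * (n + 1 + 10))) ^ J ≤
      2 ^ (2 * q + 2 + (pp + 1) * J) * (((2 ^ (n + 10)) ^ q + 1) ^ 2 *
        ((pp * (n + 10) + 1) * 2 ^ (pp * (n + 10))) ^ J)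
    have e1 : (2 ^ (n + 1 + 10)) ^ q = 2 ^ q * (2 ^ (n + 10)) ^ q := by
      rw [← mul_pow]; congr 1; ring
    have e0 : ((2 ^ (n + 1 + 10)) ^ q + 1) ^ 2 ≤ 2 ^ (2 * q + 2) * ((2 ^ (n + 10)) ^ q + 1) ^ 2 := by
      have e4 : (2 ^ (n + 1 + 10)) ^ q + 1 ≤ 2 ^ (q + 1) * ((2 ^ (n + 10)) ^ q + 1) := by
        rw [e1]
        have e5 : 1 ≤ 2 ^ q := Nat.one_le_two_pow
        have e6 : 2 ^ (q + 1) = 2 * 2 ^ q := by ring
        have e7 : 2 ^ (q + 1) * ((2 ^ (n + 10)) ^ q + 1) =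
            2 * (2 ^ q * (2 ^ (n + 10)) ^ q) + 2 * 2 ^ q := by rw [e6]; ring
        omega
      calc ((2 ^ (n + 1 + 10)) ^ q + 1) ^ 2 ≤ (2 ^ (q + 1) * ((2 ^ (n + 10)) ^ q + 1)) ^ 2 :=
            Nat.pow_le_pow_left e4 2
        _ = _ := by rw [mul_pow, ← pow_mul]; congr 2; ring
    have e2 : (pp * (n + 1 + 10) + 1) * 2 ^ (pp * (n + 1 + 10)) ≤
        2 ^ (pp + 1) * ((pp * (n + 10) + 1) * 2 ^ (pp * (n + 10))) := by
      have e3 : 2 ^ (pp * (n + 1 + 10)) = 2 ^ pp * 2 ^ (pp * (n + 10)) := by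
        rw [← pow_add]; congr 1; ring
      rw [e3]
      calc (pp * (n + 1 + 10) + 1) * (2 ^ pp * 2 ^ (pp * (n + 10)))
          ≤ (2 * (pp * (n + 10) + 1)) * (2 ^ pp * 2 ^ (pp * (n + 10))) :=
            Nat.mul_le_mul_right _ (by nlinarith)
        _ = _ := by rw [pow_succ]; ring
    calc ((2 ^ (n + 1 + 10)) ^ q + 1) ^ 2 *
          ((pp * (n + 1 + 10) + 1) * 2 ^ (pp * (n + 1 + 10))) ^ J
        ≤ 2 ^ (2 * q + 2) * ((2 ^ (n + 10)) ^ q + 1) ^ 2 *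
          (2 ^ (pp + 1) * ((pp * (n + 10) + 1) * 2 ^ (pp * (n + 10)))) ^ J :=
          Nat.mul_le_mul e0 (Nat.pow_le_pow_left e2 _)
      _ = _ := by rw [mul_pow (2 ^ (pp + 1)), ← pow_mul 2 (pp + 1), pow_add 2 (2 * q + 2)]; ring
  · refine tendsto_atTop_mono (fun n => ?_) tendsto_id
    refine le_trans ?_ (hC3 n)
    calc n ≤ n + 10 := by omega
      _ ≤ 2 ^ (n + 10) := (Nat.lt_pow_self (by norm_num)).le
      _ ≤ (2 ^ (n + 10)) ^ (2 * q) := Nat.le_self_pow (by omega) _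
  · refine tendsto_atTop_mono (fun n => ?_) hshift2
    exact Nat.le_self_pow (by omega) _
  · obtain ⟨K1, hK1⟩ : ∃ K1, K1 = 2 ^ Dm * (8 * Dm + 8) + 24 * Dm ^ 2 + 100 +
      (2 ^ Dm + 1) * (24 * Dm ^ 2 + 4 * Dm + 1) := ⟨_, rfl⟩
    filter_upwards [hshift.eventually (eventually_sizeE J q pp (4 * Dm) (4 * K1)),
      hshift2.eventually (nx_exists J Dm y q 1 D (by rw [hDm]) (by omega) (by omega)),
      hshift2.eventually (num_two 4 (A + 1)),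
      hshift2.eventually (eventually_ge_atTop (24 * Dm ^ 2 + 4 * Dm + 1))]
      with n h1 h2 h3 h4
    obtain ⟨kt, K, Mt, lam, κ, u1, η, hNx0⟩ := h2 (pp * (n + 10)) (by
      rw [← pow_mul, ← hp0, ← hpp]
      congr 1; ring)
    have hQ1000 : 2 ^ 10 ≤ 2 ^ (n + 10) := Nat.pow_le_pow_right (by norm_num) (by omega)
    have hNx := nx_change hNx0 ((2 ^ (n + 10)) ^ (12 * (c + 1))) (by
      obtain ⟨b, hb⟩ : ∃ b, b = 2 ^ (n + 10) := ⟨_, rfl⟩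
      rw [← hb] at hQ1000 ⊢
      have hb1 : 1 ≤ b := by omega
      have hbp : ∀ i : ℕ, 1 ≤ b ^ i := fun i => Nat.one_le_pow _ _ hb1
      have hb12 : b ≤ b ^ 12 := Nat.le_self_pow (by omega) _
      have h19 : b ^ 12 ≤ b ^ (12 + 12 * (c + 1)) := Nat.pow_le_pow_right hb1 (by omega)
      have h20 := NN_le (b ^ 12) (2 * b ^ 12 * (b ^ (12 * (c + 1)) + 4) + 8 * b ^ 12)
        (b ^ (12 + 12 * (c + 1))) (by omega) h19
        (by
          have e1 := hbp (12 * (c + 1))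
          calc 2 * b ^ 12 * (b ^ (12 * (c + 1)) + 4) + 8 * b ^ 12
              = b ^ 12 * (2 * b ^ (12 * (c + 1)) + 16) := by ring
            _ ≤ b ^ 12 * (18 * b ^ (12 * (c + 1))) := Nat.mul_le_mul_left _ (by omega)
            _ = 18 * b ^ (12 + 12 * (c + 1)) := by rw [pow_add]; ring
            _ ≤ b ^ (12 + 12 * (c + 1)) * b ^ (12 + 12 * (c + 1)) := Nat.mul_le_mul_right _ (by omega)
            _ = (b ^ (12 + 12 * (c + 1))) ^ 2 := (sq _).symm) D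
      have h21 : NN (b ^ 12) (2 * b ^ 12 * (b ^ (12 * (c + 1)) + 4) + 8 * b ^ 12) D * 1
          ≤ NN (b ^ 12) (2 * b ^ 12 * (b ^ (12 * (c + 1)) + 4) + 8 * b ^ 12) D * b ^ (12 + 12 * (c + 1)) :=
        Nat.mul_le_mul_left _ (hbp _)
      have h22 : (b ^ (12 + 12 * (c + 1))) ^ (3 * 4 ^ D) ≤ b ^ q := by
        rw [← pow_mul]
        exact Nat.pow_le_pow_right hb1 (by omega)
      omega)
    have hm4' := hC6 n _ _ _ _ _ _ _ _ _ _ _ _ _ _ _ _ hNx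
    have hm5 := hC5 n
    have hmn4 := hm4 n
    obtain ⟨t, ht⟩ : ∃ t, t = n + 10 := ⟨_, rfl⟩
    rw [← ht] at h1 hm4' hm5 hmn4 h3 h4 hQ1000 ⊢
    obtain ⟨Y, hY⟩ : ∃ Y, Y = ((pp * t + 1) * 2 ^ (pp * t)) ^ J := ⟨_, rfl⟩
    obtain ⟨N, hN⟩ : ∃ N, N = (2 ^ t) ^ (2 * q) * Y := ⟨_, rfl⟩
    obtain ⟨W, hW⟩ : ∃ W, W = ((2 ^ t) ^ q + 1) ^ 2 * Y := ⟨_, rfl⟩
    have hWN : W ≤ 4 * N := by
      rw [hW, hN, ← mul_assoc]
      exact Nat.mul_le_mul_right _ hmn4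
    rw [← hY] at h1 hm4' hm5
    rw [← hN] at h1
    rw [← hW] at hm4' hm5
    rw [← hA] at h1
    rw [← hB] at hm4'
    obtain ⟨Q, hQ⟩ : ∃ Q, Q = 2 ^ t := ⟨_, rfl⟩
    rw [← hQ] at h1 hm4' h3 h4 hQ1000 ⊢
    have hQ1 : 1 ≤ Q := by omega
    have hQR : (1:ℝ) ≤ Q := by exact_mod_cast hQ1
    have hQ0 : (0:ℝ) < Q := by linarith
    have hQA1 : 1 ≤ Q ^ A := Nat.one_le_pow _ _ hQ1
    have hNK : N * (4 * K1) + 4 * K1 ≤ Q ^ A := by
      refine le_trans ?_ h1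
      exact Nat.le_mul_of_pos_right _ (by omega)
    have hWK : W * K1 ≤ N * (4 * K1) := by
      calc W * K1 ≤ 4 * N * K1 := Nat.mul_le_mul_right _ hWN
        _ = N * (4 * K1) := by ring
    have hWK2 : W * K1 + 4 * K1 ≤ Q ^ A := le_trans (by omega) hNK
    have hWa : W * (2 ^ Dm * (8 * Dm + 8)) ≤ W * K1 :=
      Nat.mul_le_mul_left _ (by rw [hK1]; omega)
    have hWb : W * (2 ^ Dm + 1) * (24 * Dm ^ 2 + 4 * Dm + 1) ≤ W * K1 := by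
      rw [mul_assoc]
      exact Nat.mul_le_mul_left _ (by rw [hK1]; omega)
    have hm3 : (τ n).enc.length ≤ Q ^ A := by
      refine hm5.trans (le_trans (Nat.mul_le_mul ?_ ?_) h1)
      · omega
      · have e1 : Nat.size (Dm * W) ≤ Nat.size (4 * Dm * N) := by
          refine Nat.size_le_size ?_
          calc Dm * W ≤ Dm * (4 * N) := Nat.mul_le_mul_left _ hWN
            _ = 4 * Dm * N := by ring
        omega
    have hxle : ((τ n).enc.length : ℝ) ≤ (Q:ℝ) ^ A := by exact_mod_cast hm3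
    have hx1 : (1:ℝ) ≤ ((τ n).enc.length : ℝ) := by
      have h3 : 1 ≤ (2 ^ (n + 10)) ^ (2 * q) := Nat.one_le_pow _ _ (by positivity)
      exact_mod_cast h3.trans (hC3 n)
    have hQAB : Q ^ A ≤ Q ^ B := Nat.pow_le_pow_right hQ1 hAB
    have hshort : ∀ F : Fm ℕ, (F.enc.length : ℝ) ≤ ((τ n).enc.length : ℝ) ^ θ →
        F.len ≤ Q ^ B := by
      intro F hF
      have e2 : (F.len : ℝ) ≤ (Q:ℝ) ^ B := by
        calc (F.len : ℝ) ≤ (F.enc.length : ℝ) := by exact_mod_cast len_le_enc _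
          _ ≤ ((τ n).enc.length : ℝ) ^ θ := hF
          _ ≤ ((τ n).enc.length : ℝ) ^ θ' := Real.rpow_le_rpow_of_exponent_le hx1 hθθ
          _ ≤ ((Q:ℝ) ^ A) ^ θ' := Real.rpow_le_rpow (by linarith) hxle (by linarith)
          _ = (Q:ℝ) ^ ((A:ℝ) * θ') := by
              rw [← Real.rpow_natCast, ← Real.rpow_mul hQ0.le]
          _ ≤ (Q:ℝ) ^ (B : ℝ) := Real.rpow_le_rpow_of_exponent_le hQR hAθ
          _ = (Q:ℝ) ^ B := Real.rpow_natCast _ _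
      exact_mod_cast e2
    have hK1A : 24 * Dm ^ 2 + 4 * Dm + 1 ≤ K1 := by
      have e1 : 1 * (24 * Dm ^ 2 + 4 * Dm + 1) ≤ (2 ^ Dm + 1) * (24 * Dm ^ 2 + 4 * Dm + 1) :=
        Nat.mul_le_mul_right _ (Nat.le_add_left 1 _)
      rw [hK1]; omega
    have hw1 : ((τ n).enc.length : ℝ) ^ (1 / (2 * (A:ℝ))) ≤ ((Q ^ 12 : ℕ) : ℝ) := by
      calc ((τ n).enc.length : ℝ) ^ (1 / (2 * (A:ℝ))) ≤ ((Q:ℝ) ^ A) ^ (1 / (2 * (A:ℝ))) :=
            Real.rpow_le_rpow (by linarith) hxle (by positivity)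
        _ = (Q:ℝ) ^ ((1:ℝ) / 2) := by
            rw [← Real.rpow_natCast, ← Real.rpow_mul hQ0.le]
            congr 1
            field_simp
        _ ≤ (Q:ℝ) ^ ((12 : ℕ) : ℝ) := Real.rpow_le_rpow_of_exponent_le hQR (by norm_num)
        _ = ((Q ^ 12 : ℕ) : ℝ) := by
            rw [Real.rpow_natCast]
            push_cast
            rfl
    refine ⟨hw1, ?_⟩
    intro S hS hSl hSd
    have hSl2 : (S.length : ℝ) ≤ (2:ℝ) ^ ((Q:ℝ) / 4) := by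
      refine hSl.trans (Real.rpow_le_rpow_of_exponent_le (by norm_num) ?_)
      obtain ⟨x, hx⟩ : ∃ x : ℝ, x = ((τ n).enc.length : ℝ) := ⟨_, rfl⟩
      rw [← hx] at hx1 hxle ⊢
      have hx0 : 0 < x := by linarith
      have hroot : x ^ (1 / (2 * (A:ℝ))) ≤ (Q:ℝ) ^ ((1:ℝ) / 2) := by
        calc x ^ (1 / (2 * (A:ℝ))) ≤ ((Q:ℝ) ^ A) ^ (1 / (2 * (A:ℝ))) :=
              Real.rpow_le_rpow hx0.le hxle (by positivity)
          _ = (Q:ℝ) ^ ((1:ℝ) / 2) := by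
              rw [← Real.rpow_natCast, ← Real.rpow_mul hQ0.le]
              congr 1
              field_simp
      refine hroot.trans ?_
      rw [← Real.sqrt_eq_rpow]
      have h16 : (16:ℝ) ≤ Q := by
        have : 16 ≤ Q := le_trans (by norm_num) hQ1000
        exact_mod_cast this
      rw [Real.sqrt_le_left (by positivity)]
      nlinarith
    have hSl3 : S.length ^ 4 ≤ 2 ^ Q := by
      have e1 : ((S.length : ℝ)) ^ 4 ≤ (2:ℝ) ^ Q := by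
        calc ((S.length : ℝ)) ^ 4 ≤ ((2:ℝ) ^ ((Q:ℝ) / 4)) ^ 4 :=
              pow_le_pow_left₀ (Nat.cast_nonneg _) hSl2 4
          _ = (2:ℝ) ^ Q := by
              rw [← Real.rpow_natCast ((2:ℝ) ^ _) 4, ← Real.rpow_mul (by norm_num),
                ← Real.rpow_natCast 2 Q]
              congr 1
              push_cast
              ring
      exact_mod_cast e1
    -- `ℓ` is large
    have hℓ : 24 * Dm ^ 2 + 4 * Dm + 1 ≤ Q ^ (12 * (c + 1)) := by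
      have e1 : Q ≤ Q ^ (12 * (c + 1)) := Nat.le_self_pow (by omega) _
      exact h4.trans e1
    have hw : HasWorld {A | A ∈ S} (Set.range (C n)) (Q ^ 12)
        (2 * Q ^ 12 * (Q ^ (12 * (c + 1)) + 4) + 8 * Q ^ 12) := by
      refine hm4' ?_ hℓ S hS (fun F hF => ldep_of_LDep hshort (hSd F hF)) ?_
      · omega
      · have e1 : 4 * Q ^ A ≤ 2 ^ Q := by
          refine le_trans ?_ h3.le
          exact Nat.mul_le_mul_left _ (Nat.pow_le_pow_right hQ1 (by omega))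
        rcases Nat.lt_or_ge S.length 2 with h5 | h5
        · omega
        · have e2 : 2 ^ 3 * S.length ≤ S.length ^ 4 := by
            calc 2 ^ 3 * S.length ≤ S.length ^ 3 * S.length :=
                  Nat.mul_le_mul_right _ (Nat.pow_le_pow_left h5 3)
              _ = S.length ^ 4 := by ring
          omega
    obtain ⟨V, iV, iDV, val, h5, h6⟩ := hw
    refine ⟨V, iV, iDV, val, h5, le_trans ?_ h6⟩
    rw [← pow_mul]
    have e0 : Q ^ (12 * c) ≤ Q ^ (12 * (c + 1)) := Nat.pow_le_pow_right hQ1 (by omega)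
    have e1 : 1 * Q ^ (12 * c) ≤ 2 * Q ^ 12 * (Q ^ (12 * (c + 1)) + 4) := by
      refine Nat.mul_le_mul ?_ (by omega)
      have := Nat.one_le_pow 12 Q hQ1
      omega
    omega

end Pool.Agent.H55.AG
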