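import Mathlib
import Pool.Agent.H1.FX.Fin3
import Pool.Agent.H55.AG.FinW2X

set_option autoImplicit false
set_option linter.unusedSectionVars false

/-!
# Module FINW3X: the world theorem (as `H1/FX/Fin3.lean`), with the graph in the conclusion
-/

namespace Pool.Agent.H55.AG

open Finset Filter Topology Pool.Agent.H3.Frg Pool.Agent.H3.Frg2 Pool.Agent.H3.Frg3
  Pool.Agent.H3.Frg4 Pool.Agent.H3.Ac Pool.Agent.H3.Wd Pool.Agent.H1.FX

/-- the world theorem; every clause `C n i` is one of the conjuncts of `τ n`, and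
`|τ n| ^ ε ≤ w n` -/
theorem finalW3X (θ : ℝ) (hθ : θ < 2) (D c : ℕ) :
    ∃ (k : ℕ) (ε : ℝ), 0 < ε ∧ ∃ (d : ℕ → ℕ) (C : ℕ → ℕ → Fm ℕ) (τ : ℕ → Fm ℕ) (w : ℕ → ℕ),
      (∀ n, τ n = Fm.neg (bigAnd (d n) (C n))) ∧
      (∃ (cc : ℕ) (Nf : ℕ → ℕ), ∀ n, 2 ^ n ≤ Nf n ∧ Nf n ≤ (τ n).enc.length ∧
        GP k (Nf n) (C n) ∧ Nf (n + 1) ≤ cc * Nf n) ∧
      (∀ n i, IsClause k (C n i)) ∧
      (∀ n x, (τ n).eval x = true) ∧
      (∀ n i, (C n i).enc.length ≤ (τ n).enc.length) ∧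
      (∀ n i, ∃ j, j < 2 ^ d n ∧ C n i = C n j) ∧
      Tendsto (fun n => (τ n).enc.length) atTop atTop ∧
      Tendsto w atTop atTop ∧
      ∀ᶠ n in atTop, ((τ n).enc.length : ℝ) ^ ε ≤ (w n : ℝ) ∧
        ∀ S : List (Fm ℕ), SubCl {A | A ∈ S} →
        (S.length : ℝ) ≤ (2 : ℝ) ^ (((τ n).enc.length : ℝ) ^ ε) →
        (∀ A ∈ S, LDep (fun A => (A.enc.length : ℝ) ≤ ((τ n).enc.length : ℝ) ^ θ) D A) →
        HasWorld {A | A ∈ S} (Set.range (C n)) (w n) (w n ^ c) := by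
  obtain ⟨k, ε, hε, d, C, τ, w, h1, h0, h2, h3, h4, h5, h6⟩ := finalW2X θ hθ D c
  have hCC : ∀ n, bigAnd (d n) (C n) = bigAnd (d n) fun i => C n (i % 2 ^ d n) := fun n =>
    bigAnd_congr (d n) _ _ fun i hi => by rw [Nat.mod_eq_of_lt hi]
  refine ⟨k, ε, hε, d, fun n i => C n (i % 2 ^ d n), τ, w, fun n => by rw [h1, hCC], h0,
    fun n i => h2 n _, h3, fun n i => ?_, fun n i => ?_, h4, h5, ?_⟩
  · have e1 := bigAnd_enc (d n) (C n) (i % 2 ^ d n) (Nat.mod_lt _ (by positivity))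
    refine e1.trans ?_
    rw [h1]
    simp only [Fm.enc, List.length_cons]
    omega
  · refine ⟨i % 2 ^ d n, Nat.mod_lt _ (by positivity), ?_⟩
    simp only [Nat.mod_mod]
  · filter_upwards [h6] with n h7
    refine ⟨h7.1, fun S hS hSl hSd => ?_⟩
    refine HasWorld_mono ?_ (h7.2 S hS hSl hSd)
    rintro A ⟨i, rfl⟩
    exact ⟨_, rfl⟩

end Pool.Agent.H55.AG
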