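import Mathlib
import Pool.Agent.H3.Md.Fin
import Pool.Agent.H55.AG.FinW3X

set_option autoImplicit false
set_option linter.unusedSectionVars false

/-!
# Module FINMX: derivations with few counting gates (as `H3/Md/FinM.lean`), with the graph
-/

namespace Pool.Agent.H55.AG

open Finset Filter Topology Pool.Agent.H3.Frg Pool.Agent.H3.Frg2 Pool.Agent.H3.Frg3
  Pool.Agent.H3.Frg4 Pool.Agent.H3.Ac Pool.Agent.H3.Wd Pool.Agent.H3.Alg Pool.Agent.H3.Alg2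
  Pool.Agent.H1.FX Pool.Agent.H3.Md

theorem finMX (θ : ℝ) (hθ : θ < 2) (D t : ℕ) :
    ∃ (k : ℕ) (ε : ℝ), 0 < ε ∧ ∃ (d : ℕ → ℕ) (C : ℕ → ℕ → Fm ℕ) (τ : ℕ → Fm ℕ),
      (∀ n, τ n = Fm.neg (bigAnd (d n) (C n))) ∧
      (∃ (cc : ℕ) (Nf : ℕ → ℕ), ∀ n, 2 ^ n ≤ Nf n ∧ Nf n ≤ (τ n).enc.length ∧
        GP k (Nf n) (C n) ∧ Nf (n + 1) ≤ cc * Nf n) ∧
      (∀ n i, IsClause k (C n i)) ∧
      (∀ n x, (τ n).eval x = true) ∧
      (∀ n i, ∃ j, j < 2 ^ d n ∧ C n i = C n j) ∧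
      Tendsto (fun n => (τ n).enc.length) atTop atTop ∧
      ∀ ℓ : ℕ, ∀ᶠ n in atTop, ∀ c : ℕ, (c : ℝ) ≤ ((τ n).enc.length : ℝ) ^ ε →
        ∀ (G : Finset (Fm ℕ)) (F : Finset (MF ℕ)), G.card ≤ c →
          CloM {A | ∃ X ∈ G, A = ofFm X} (F : Set (MF ℕ)) →
          (∀ A ∈ F, ∃ p : ℕ, p.Prime ∧ p ≠ 2 ∧
            Lv (fun A => (msz A : ℝ) ≤ ((τ n).enc.length : ℝ) ^ θ ∨ ∃ X ∈ G, A = ofFm X)
              (fun q => q ≤ c ∧ ∃ e, q = p ^ e) D c t A) →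
          ∀ (L : ℕ) (pf : Fin L → MF ℕ), MDer ℓ {A | ∃ i, A = ofFm (C n i)} pf →
            (∀ i, pf i ∈ F) → (∃ i, pf i = ofFm (τ n)) →
            (2 : ℝ) ^ (((τ n).enc.length : ℝ) ^ ε) ≤ F.card := by
  obtain ⟨θ', hθ1, hθθ, hθ2⟩ : ∃ θ' : ℝ, 1 ≤ θ' ∧ θ < θ' ∧ θ' < 2 := by
    refine ⟨(max θ 1 + 2) / 2, ?_, ?_, ?_⟩
    · have := le_max_right θ 1
      linarith
    · have := le_max_left θ 1
      have := max_lt hθ (show (1 : ℝ) < 2 by norm_num)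
      linarith
    · have := max_lt hθ (show (1 : ℝ) < 2 by norm_num)
      linarith
  obtain ⟨k, ε0, hε0, d, C, τ, w, h1, h0, h2, h3, hCl, hCm, h4, h5, h6⟩ := finalW3X θ' hθ2 D 4
  obtain ⟨ε, hε⟩ : ∃ ε : ℝ, ε = ε0 / (3 * t + 6) := ⟨_, rfl⟩
  have ht0 : (0 : ℝ) < 3 * t + 6 := by positivity
  have hεp : 0 < ε := by rw [hε]; positivity
  refine ⟨k, ε, hεp, d, C, τ, h1, h0, h2, h3, hCm, h4, fun ℓ => ?_⟩
  have hlim : Tendsto (fun n => ((τ n).enc.length : ℝ)) atTop atTop :=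
    tendsto_natCast_atTop_atTop.comp h4
  have hlimε : Tendsto (fun n => ((τ n).enc.length : ℝ) ^ ε) atTop atTop :=
    (tendsto_rpow_atTop hεp).comp hlim
  -- eventually `x ^ p < 2 ^ (x ^ ε)`
  obtain ⟨q, hq⟩ : ∃ q : ℝ, q = 2 * ε + θ' + 1 := ⟨_, rfl⟩
  have hev : ∀ᶠ x : ℝ in atTop, x ^ q < (2:ℝ) ^ (x ^ ε) := by
    have e1 : Tendsto (fun x : ℝ => x ^ ε) atTop atTop := tendsto_rpow_atTop hεp
    have e2 : ∀ᶠ z : ℝ in atTop, z ^ (q / ε) < (2:ℝ) ^ z := by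
      have e3 := (isLittleO_rpow_exp_pos_mul_atTop (q / ε) (Real.log_pos one_lt_two)).bound
        (show (0:ℝ) < 1 / 2 by norm_num)
      filter_upwards [e3, eventually_gt_atTop 0] with z hz hz0
      rw [Real.norm_eq_abs, Real.norm_eq_abs, abs_of_nonneg (by positivity),
        abs_of_nonneg (by positivity)] at hz
      have e4 : (2:ℝ) ^ z = Real.exp (Real.log 2 * z) := by
        rw [Real.rpow_def_of_pos (by norm_num)]
      rw [e4]
      have := Real.exp_pos (Real.log 2 * z)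
      linarith
    filter_upwards [e1.eventually e2, eventually_gt_atTop 0] with x hx hx0
    rw [← Real.rpow_mul hx0.le, mul_div_cancel₀ _ hεp.ne'] at hx
    exact hx
  have hθev : ∀ᶠ x : ℝ in atTop, 9 * x ^ θ ≤ x ^ θ' := by
    have h9' : ∀ᶠ x : ℝ in atTop, (9 : ℝ) ≤ x ^ (θ' - θ) :=
      (tendsto_rpow_atTop (sub_pos.2 hθθ)).eventually (eventually_ge_atTop 9)
    filter_upwards [h9', eventually_gt_atTop 0] with x hx hx0
    have e1 : x ^ θ' = x ^ (θ' - θ) * x ^ θ := by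
      rw [← Real.rpow_add hx0]
      congr 1
      ring
    rw [e1]
    exact mul_le_mul_of_nonneg_right hx (Real.rpow_nonneg hx0.le _)
  filter_upwards [h6, hlim.eventually hev, hlim.eventually hθev,
    hlim.eventually (eventually_ge_atTop 9),
    hlimε.eventually (eventually_ge_atTop (100 + (3 : ℝ) ^ ℓ + 2 * ℓ + 20)),
    h5.eventually_ge_atTop (10 ^ 11)] with n h7 h8 h12 h9 h10 h11
  intro c hc G F hG hF hFL L pf hpf hpF hex
  obtain ⟨i0, hi0⟩ := hex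
  obtain ⟨x, hx⟩ : ∃ x : ℝ, x = ((τ n).enc.length : ℝ) := ⟨_, rfl⟩
  rw [← hx] at h7 h8 h9 h10 h12 hc hFL ⊢
  have hx1 : 1 ≤ x := by linarith
  have hx0 : 0 < x := by linarith
  have hxx : x ≤ x ^ θ' := by
    calc x = x ^ (1 : ℝ) := (Real.rpow_one x).symm
      _ ≤ x ^ θ' := Real.rpow_le_rpow_of_exponent_le hx1 hθ1
  have h3ℓ : (0 : ℝ) < (3 : ℝ) ^ ℓ := by positivity
  have hℓ0 : (0 : ℝ) ≤ ℓ := Nat.cast_nonneg _
  refine fixM (d := d n) (D := D) (w := w n) (ℓ := ℓ) (t := t) (c := c) (C := C n)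
    (B := x ^ θ') (e0 := x ^ ε0) (z := x ^ ε) (T := τ n) h11 (by linarith) (by linarith) ?_ h7.1
    (h9.trans hxx) ?_ (h1 n) (by rw [← hx]; exact hxx) ?_ (fun S hS hSl hSd => h7.2 S hS hSl hSd)
    hc G hG F hF ?_ pf hpf hpF i0 hi0
  · rw [← Real.rpow_natCast (x ^ ε), ← Real.rpow_mul hx0.le, hε]
    congr 1
    push_cast
    field_simp
  · have e1 : x ^ ε * x ^ ε * x ^ θ' = x ^ (2 * ε + θ') := by
      rw [← Real.rpow_add hx0, ← Real.rpow_add hx0]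
      congr 1
      ring
    have e2 : x ^ q = x ^ (2 * ε + θ') * x := by
      rw [hq, Real.rpow_add hx0 (2 * ε + θ'), Real.rpow_one]
    have e3 : (1 : ℝ) ≤ x ^ (2 * ε + θ') := Real.one_le_rpow hx1 (by linarith)
    rw [e1]
    rw [e2] at h8
    nlinarith
  · intro i
    refine le_trans ?_ hxx
    rw [hx]
    exact_mod_cast hCl n i
  · intro A hA
    obtain ⟨p, hp, hp2, h⟩ := hFL A hA
    refine ⟨p, hp, hp2, Lv_mono (fun Y hY => ?_) t h⟩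
    rcases hY with hY | hY
    · left
      refine le_trans ?_ h12
      exact mul_le_mul_of_nonneg_left hY (by norm_num)
    · exact Or.inr hY

end Pool.Agent.H55.AG
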