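import Mathlib
import Pool.Agent.H55.AG.FinMX

set_option autoImplicit false
set_option linter.unusedSectionVars false

/-!
# Module MFAM: the family of hard multigraphs for formulas with few counting gates
-/

namespace Pool.Agent.H55.AG

open Finset Filter Topology Pool.Agent.H3.Frg Pool.Agent.H3.Frg2 Pool.Agent.H3.Frg3
  Pool.Agent.H3.Frg4 Pool.Agent.H3.Md

theorem mfam (θ : ℝ) (hθ : θ < 2) (D t : ℕ) :
    ∃ (k cc : ℕ) (ε : ℝ), 0 < ε ∧ ∃ (d : ℕ → ℕ) (C : ℕ → ℕ → Fm ℕ) (Nf : ℕ → ℕ),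
      (∀ n, 2 ^ n ≤ Nf n ∧ GP k (Nf n) (C n) ∧ Nf (n + 1) ≤ cc * Nf n) ∧
      ∀ ℓ : ℕ, ∀ᶠ n in atTop, ∀ c : ℕ, (c : ℝ) ≤ (Nf n : ℝ) ^ ε →
        ∀ (G : Finset (Fm ℕ)) (F : Finset (MF ℕ)), G.card ≤ c →
          CloM {A | ∃ X ∈ G, A = ofFm X} (F : Set (MF ℕ)) →
          (∀ A ∈ F, ∃ p : ℕ, p.Prime ∧ p ≠ 2 ∧
            Lv (fun A => (msz A : ℝ) ≤ (Nf n : ℝ) ^ θ ∨ ∃ X ∈ G, A = ofFm X)
              (fun q => q ≤ c ∧ ∃ e, q = p ^ e) D c t A) →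
          ∀ (L : ℕ) (pf : Fin L → MF ℕ), MDer ℓ {A | ∃ i, A = ofFm (C n i)} pf →
            (∀ i, pf i ∈ F) → (∃ i, pf i = ofFm (Fm.neg (bigAnd (d n) (C n)))) →
            (2 : ℝ) ^ ((Nf n : ℝ) ^ ε) ≤ F.card := by
  obtain ⟨θ', hθ'⟩ : ∃ θ' : ℝ, θ' = max θ 0 := ⟨_, rfl⟩
  have hθ0 : 0 ≤ θ' := by rw [hθ']; exact le_max_right _ _
  have hθ1 : θ ≤ θ' := by rw [hθ']; exact le_max_left _ _
  have hθ2 : θ' < 2 := by rw [hθ']; exact max_lt hθ (by norm_num)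
  obtain ⟨k, ε, hε, d, C, τ, h1, ⟨cc, Nf, h7⟩, h2, h3, h4, h5, h6⟩ := finMX θ' hθ2 D t
  refine ⟨k, cc, ε, hε, d, C, Nf, fun n => ⟨(h7 n).1, (h7 n).2.2.1, (h7 n).2.2.2⟩, fun ℓ => ?_⟩
  filter_upwards [h6 ℓ] with n hn
  intro c hc G F hG hF hFL L pf hpf hpF hex
  obtain ⟨hN1, hN2, -, -⟩ := h7 n
  have hN1' : (1 : ℝ) ≤ (Nf n : ℝ) := by
    have h8 : 1 ≤ 2 ^ n := Nat.one_le_two_pow
    exact_mod_cast h8.trans hN1
  have hNx : (Nf n : ℝ) ≤ ((τ n).enc.length : ℝ) := by exact_mod_cast hN2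
  have hN0 : (0 : ℝ) ≤ (Nf n : ℝ) := by linarith
  have hε' : (Nf n : ℝ) ^ ε ≤ ((τ n).enc.length : ℝ) ^ ε := Real.rpow_le_rpow hN0 hNx hε.le
  refine le_trans (Real.rpow_le_rpow_of_exponent_le (by norm_num) hε') ?_
  refine hn c (hc.trans hε') G F hG hF ?_ L pf hpf hpF ?_
  · intro A hA
    obtain ⟨p, hp, hp2, h⟩ := hFL A hA
    refine ⟨p, hp, hp2, Lv_mono (fun Y hY => ?_) t h⟩
    rcases hY with hY | hY
    · left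
      refine hY.trans ((Real.rpow_le_rpow_of_exponent_le hN1' hθ1).trans ?_)
      exact Real.rpow_le_rpow hN0 hNx hθ0
    · exact Or.inr hY
  · rw [h1]
    exact hex

end Pool.Agent.H55.AG
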