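import Mathlib
import Pool.Agent.H55.AG.DMD
import Pool.Agent.H55.AG.AxTr
import Pool.Agent.H55.AG.JoinE
import Pool.Agent.H55.AG.SubG

set_option autoImplicit false
set_option linter.unusedSectionVars false

/-!
# Module MGA: from a refutation with counting gates of the Tseitin formula of `G` to a derivation for the multigraph

PROOF. (Compare module GLBA, here there are no extension variables.) `ℓ1 := 1000 * (Δ + 1) + (1000 + 2 ^ Dm * (4 * Dm + 1) + 100 * 2 ^ Dm)`,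
`ℓ' := ` a large constant depending on `Δ, Dm, ℓ` (`≥ ℓ + ℓ1`, and large enough for the count below).
1. `join_exists` for `c' v := xor (c v) (decide (v = r v1))` gives `a`. `y i := sgn (bn G ν a i) (Bal dd v0 (Yn G ν P id i))` over the variables
`E` (`ι = id`), `(y i).len ≤ 6 * 4 ^ dd` (`bal_len`, `len_sgn_le`). `f e := (ψ e : ℕ)`, `< card E ≤ Dm * N`; left inverse as in GLBA.
`σ i := (y i).ren f`, `(σ i).enc.length ≤ b := 6 * 4 ^ dd * (2 * Nat.size (Dm * N) + 2)` (`enc_le`).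
`Γ' := Set.range fun i => clp src tgt v0 (idx i)` (`ren id` is the identity, `ren_id`), `X := Ax (S0 ℓ') Γ'`, `s := ℓ1 * 4 ^ dd`.
2. The finite set `T0 := {A | A ∈ Ts Δ G ν c ∧ ofFm A ∈ F}` (finite, at most `F.card` elements: `ofFm_inj`). Induction over it (`Finset.induction_on`)
with `axtr`: a list `l1` with `Dr X l1`, `A.bind y ∈ l1` for `A ∈ T0`, `l1.length ≤ n0 * F.card` (`n0` from `axtr`, `n0 ≤ const * 4 ^ dd`), all lines of length
at most `s`. `to_der`, `isDer_ren` with `f`, or `Dr` of the mapped list (small induction): `Dr (Ax (S0 ℓ') (Set.range C)) (l1.map (·.ren f))`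
(`hP.eq`, `ren_bind`). `dm_of_dr`: `l0 := (l1.map (·.ren f)).map ofFm` with `Hyp' = {A | ∃ i, A = ofFm (C i)}`.
3. `dm_ext` with `σ` (`bindM σ (ofFm A) = ofFm (A.bind σ)`, `A.bind σ = (A.bind y).ren f` by `ren_bind`-like lemma) gives `l`. `dm_last` with
`A0 := bindM σ (pf j)`, `bindM σ (pf i) = neg A0`, `T := ofFm τ`, `τ := Fm.neg (bigAnd d C)`. `dm_der` gives `pf'`.
4. `Gs' := insert τ (Gs.image fun X => X.bind σ)`, `M := ℓ' * 4 ^ dd * (2 * Nat.size (Dm * N) + 2) ≥ b`.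
`R : Finset (Fm ℕ)` := all subformulas of the formulas in `l1.map (·.ren f)` and of all `σ i` with `MF.var i ∈ F`; every `Z ∈ R` has
`Z.enc.length ≤ M ≤ B * M` (subformula of a formula with `len ≤ s` or of `σ i`: `enc_le` for `(..).ren f`; subformulas have smaller `enc`: `subs_enc` in
`H3/..`, used in `H3/Md/FinN.lean`). `R.card ≤ n0 * F.card * s + F.card * (6 * 4 ^ dd)` (`length_subs`: `A.subs.length = A.len`).
`F' := F.image (bindM σ) ∪ R.image ofFm ∪ {ofFm τ, imp (neg A0) (ofFm τ), imp A0 (imp (neg A0) (ofFm τ))}`, `F'.card ≤ F.card + R.card + 3 ≤ F.card * (ℓ' * 16 ^ dd)`.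
`CloM`: element `bindM σ Z`, `Z ∈ F`: if it is a `neg`: `Z = var i` (then `ofFm (σ i) = neg ..`, `ofFm_neg`, subformula of `σ i`, in `R`) or `Z = neg Z'`,
if `Z` is not `ofFm X`, `X ∈ Gs`, then `Z' ∈ F`; if it is, then `bindM σ Z = ofFm (X.bind σ)` is excluded; `imp` the same; `mod`: `Z = mod q i n l'` (`ofFm` is never
`mod`: `ofFm_mod`). Elements of `R`: closed under subformulas (`subs_cl`, `subs_trans`). `ofFm τ` is excluded (`τ ∈ Gs'`). The last two: clear.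
Levels: `P' A := (msz A : ℝ) ≤ B * M ∨ ∃ X ∈ Gs', A = ofFm X`. `bindM σ Z`: `lv_bindM` (`msz_bindM`: `msz (bindM σ A) ≤ msz A * b ≤ B * M`; `1 ≤ B` for `σ m`), then
`lv_mono2` to get `Dd + 1`. Elements of `R` and `ofFm τ`: `Lv_ofFm` (`H3/Md/Lst.lean`) with `MDep.base`, `p = 3`. The last two lines: `lv_last` with the level
of `A0` and of `neg A0` (both `bindM σ` of elements of `F`; `Lv` of `neg A0` for its prime `p`: then `A0` has a level for the SAME `p` by `Lv_sub`-like argument: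
`gates (neg A0) = gates A0`, so take `p` from `neg A0` and `MDep` from `A0` (`Lv_dep`, `Lv_sub` in `H3/Md/Lst.lean`)).
-/

namespace Pool.Agent.H55.AG

open Finset Classical Pool.Agent.H3.Frg Pool.Agent.H3.Frg2 Pool.Agent.H3.Frg3 Pool.Agent.H3.Frg4
  Pool.Agent.H3.Md Pool.Agent.H90.UB

private theorem even_card {V : Type} [Fintype V] (c : V → Bool) (x : V)
    (hc : Odd (univ.filter fun v => c v = true).card) :
    Even (univ.filter fun v => xor (c v) (decide (v = x)) = true).card := by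
  cases hx : c x with
  | true =>
    have e : (univ.filter fun v => xor (c v) (decide (v = x)) = true) =
        (univ.filter fun v => c v = true).erase x := by
      ext v
      simp only [mem_filter, mem_univ, true_and, mem_erase]
      by_cases hv : v = x
      · subst hv; simp [hx]
      · simp [hv]
    rw [e, card_erase_of_mem (by simp [hx])]
    obtain ⟨k, hk⟩ := hc
    exact ⟨k, by omega⟩
  | false =>
    have e : (univ.filter fun v => xor (c v) (decide (v = x)) = true) =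
        insert x (univ.filter fun v => c v = true) := by
      ext v
      simp only [mem_filter, mem_univ, true_and, mem_insert]
      by_cases hv : v = x
      · subst hv; simp [hx]
      · simp [hv]
    rw [e, card_insert_of_notMem (by simp [hx])]
    obtain ⟨k, hk⟩ := hc
    exact ⟨k + 1, by omega⟩

private theorem n0_le (D Dm dd : ℕ) : (2 * 2 ^ Dm + 7 + Dm * (2 * dd + 4)) +
    (D * (2 * 2 ^ dd * (4 * dd + 6) + 3) + 2 * D + 10) + 1 ≤
    (1000 * (D + 1) + (1000 + 2 ^ Dm * (4 * Dm + 1) + 100 * 2 ^ Dm)) * 4 ^ dd := by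
  have h1 : dd + 1 ≤ 2 ^ dd := Nat.lt_two_pow_self
  have h2 : Dm + 1 ≤ 2 ^ Dm := Nat.lt_two_pow_self
  have h4 : (4 : ℕ) ^ dd = 2 ^ dd * 2 ^ dd := by rw [← mul_pow]; norm_num
  have h5 : 1 ≤ 2 ^ dd := Nat.one_le_two_pow
  have h6 : 2 ^ dd ≤ 4 ^ dd := by
    rw [h4]
    exact Nat.le_mul_of_pos_left _ (by omega)
  have h7 : 2 * 2 ^ dd * (4 * dd + 6) ≤ 12 * 4 ^ dd := by
    calc 2 * 2 ^ dd * (4 * dd + 6) ≤ 2 * 2 ^ dd * (6 * 2 ^ dd) :=
          Nat.mul_le_mul_left _ (by omega)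
      _ = 12 * 4 ^ dd := by rw [h4]; ring
  have h8 : D * (2 * 2 ^ dd * (4 * dd + 6) + 3) ≤ D * (15 * 4 ^ dd) :=
    Nat.mul_le_mul_left _ (by omega)
  have h9 : Dm * (2 * dd + 4) ≤ Dm * (6 * 4 ^ dd) := Nat.mul_le_mul_left _ (by omega)
  have h10 : Dm * (6 * 4 ^ dd) ≤ 2 ^ Dm * (6 * 4 ^ dd) := Nat.mul_le_mul_right _ (by omega)
  have h11 : 2 ^ Dm * 1 ≤ 2 ^ Dm * 4 ^ dd := Nat.mul_le_mul_left _ (by omega)
  have h12 : D * 1 ≤ D * 4 ^ dd := Nat.mul_le_mul_left _ (by omega)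
  have e : (1000 * (D + 1) + (1000 + 2 ^ Dm * (4 * Dm + 1) + 100 * 2 ^ Dm)) * 4 ^ dd =
      1000 * (D * 4 ^ dd) + 2000 * 4 ^ dd + 2 ^ Dm * (4 * Dm + 1) * 4 ^ dd +
        100 * (2 ^ Dm * 4 ^ dd) := by ring
  have e2 : D * (15 * 4 ^ dd) = 15 * (D * 4 ^ dd) := by ring
  have e3 : 2 ^ Dm * (6 * 4 ^ dd) = 6 * (2 ^ Dm * 4 ^ dd) := by ring
  rw [e]
  omega

private theorem dr_ren {V V' : Type} {Sch : Set (Fm ℕ)} {Γ : Set (Fm V)} {Γ2 : Set (Fm V')}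
    (f : V → V') (hΓ : ∀ A ∈ Γ, A.ren f ∈ Γ2) {l : List (Fm V)} (h : Dr (Ax Sch Γ) l) :
    Dr (Ax Sch Γ2) (l.map fun A => A.ren f) := by
  induction h with
  | nil => exact Dr.nil
  | ax A l _ hA ih =>
    rw [List.map_cons]
    rcases hA with hA | ⟨ψ, hψ, σ, rfl⟩
    · exact Dr.ax _ _ ih (Or.inl (hΓ A hA))
    · refine Dr.ax _ _ ih (Or.inr ⟨ψ, hψ, fun i => (σ i).ren f, ?_⟩)
      exact ren_bind f σ ψ
  | mp A B l _ hA hAB ih =>
    rw [List.map_cons]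
    exact Dr.mp (A.ren f) _ _ ih (List.mem_map_of_mem hA) (List.mem_map.2 ⟨_, hAB, rfl⟩)

private theorem lv_q {P : MF ℕ → Prop} {Q Q' : ℕ → Prop} (hQ : ∀ q, Q q → Q' q)
    {D c c' : ℕ} (hc : c ≤ c') (t : ℕ) :
    ∀ A : MF ℕ, Lv P Q D c t A → Lv P Q' D c' t A := by
  induction t with
  | zero => intro A h; exact h
  | succ t ih =>
    intro A h
    refine ⟨h.1, h.2.1.trans hc, fun q i n l hM => ?_⟩
    have h1 := h.2.2 q i n l hM
    exact ⟨hQ q h1.1, fun j => ih _ (h1.2 j)⟩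

/-- subformulas of the formulas that are substituted for variables -/
private def vsub (σ : ℕ → Fm ℕ) : MF ℕ → List (Fm ℕ)
  | MF.var i => (σ i).subs
  | MF.neg _ => []
  | MF.imp _ _ => []
  | MF.mod _ _ _ _ => []

private theorem length_flat {α β : Type} (g : α → List β) {s : ℕ} (l : List α)
    (h : ∀ a ∈ l, (g a).length ≤ s) : (l.flatMap g).length ≤ l.length * s := by
  induction l with
  | nil => simp
  | cons a l ih =>
    rw [List.flatMap_cons, List.length_append, List.length_cons]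
    have h1 := h a List.mem_cons_self
    have h2 := ih fun b hb => h b (List.mem_cons_of_mem _ hb)
    have h3 : (l.length + 1) * s = l.length * s + s := by ring
    omega

theorem mga (Δ Dm ℓ : ℕ) : ∃ ℓ' : ℕ, ∀ (E Wv : Type) [Fintype E] [DecidableEq E] [Fintype Wv]
    [DecidableEq Wv] (src tgt : E → Wv) (v1 : Wv) (v0 : E) (ψ : E ≃ Fin (Fintype.card E))
    (idx : ℕ → (Σ _ : Wv, Finset E)) (N : ℕ) (C : ℕ → Fm ℕ),
    GPs src tgt v1 v0 ψ idx Dm N C →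
    ∀ (V : Type) [Fintype V] (G : SimpleGraph V), G.Connected → (∀ v, (nbG G v).card ≤ Δ) →
    ∀ (ν : Sym2 V → ℕ), Set.InjOn ν G.edgeSet →
    ∀ (c : V → Bool), Odd (univ.filter fun v => c v = true).card →
    ∀ (r : Wv → V) (P : E → Finset (Sym2 V)) (κ dd : ℕ), Function.Injective r →
    (∀ f, ∀ e ∈ P f, e ∈ G.edgeSet) → (∀ f, Jn (P f) (r (src f)) (r (tgt f))) →
    (∀ g, (univ.filter fun f => g ∈ P f).card ≤ κ) → Δ * κ ≤ 2 ^ dd → Dm ≤ 2 ^ dd →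
    ∀ (B : ℝ), 1 ≤ B → ∀ (Dd t m : ℕ) (Gs : Finset (Fm ℕ)) (F : Finset (MF ℕ)), Gs.card ≤ m →
    CloM {A | ∃ X ∈ Gs, A = ofFm X} (F : Set (MF ℕ)) →
    (∀ A ∈ F, ∃ p : ℕ, p.Prime ∧ p ≠ 2 ∧
      Lv (fun A => (msz A : ℝ) ≤ B ∨ ∃ X ∈ Gs, A = ofFm X)
        (fun q => q ≤ m ∧ ∃ e, q = p ^ e) Dd m t A) →
    ∀ (L : ℕ) (pf : Fin L → MF ℕ), MDer ℓ {A | ∃ X ∈ Ts Δ G ν c, A = ofFm X} pf →
    (∀ i, pf i ∈ F) → (∃ i j, pf i = MF.neg (pf j)) → ∀ d : ℕ,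
    ∃ (Gs' : Finset (Fm ℕ)) (F' : Finset (MF ℕ)) (L' : ℕ) (pf' : Fin L' → MF ℕ),
      Gs'.card ≤ m + 1 ∧ CloM {A | ∃ X ∈ Gs', A = ofFm X} (F' : Set (MF ℕ)) ∧
      (∀ A ∈ F', ∃ p : ℕ, p.Prime ∧ p ≠ 2 ∧
        Lv (fun A => (msz A : ℝ) ≤ B * ((ℓ' * 4 ^ dd * (2 * Nat.size (Dm * N) + 2) : ℕ) : ℝ) ∨
            ∃ X ∈ Gs', A = ofFm X)
          (fun q => q ≤ m + 1 ∧ ∃ e, q = p ^ e) (Dd + 1) (m + 1) t A) ∧
      MDer ℓ' {A | ∃ i, A = ofFm (C i)} pf' ∧ (∀ i, pf' i ∈ F') ∧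
      (∃ i, pf' i = ofFm (Fm.neg (bigAnd d C))) ∧ F'.card ≤ F.card * (ℓ' * 16 ^ dd) := by
  obtain ⟨ℓ1, hℓ1⟩ : ∃ ℓ1, ℓ1 = 1000 * (Δ + 1) + (1000 + 2 ^ Dm * (4 * Dm + 1) + 100 * 2 ^ Dm) :=
    ⟨_, rfl⟩
  have hℓ1k : 1000 ≤ ℓ1 := by omega
  obtain ⟨ℓ', hℓ'⟩ : ∃ ℓ', ℓ' = ℓ + ℓ1 + ℓ1 * ℓ1 + 10 := ⟨_, rfl⟩
  refine ⟨ℓ', ?_⟩
  intro E Wv _ _ _ _ src tgt v1 v0 ψ idx N C hP V _ G hG hdeg ν hν c hc r P κ dd hr hPE hPJ hPκ
    hκ hDm B hB Dd t m Gs F hGm hClo hLv L pf hpf hpF hfin d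
  obtain ⟨iL, jL, hij⟩ := hfin
  obtain ⟨a, ha⟩ := join_exists G hG (fun v => xor (c v) (decide (v = r v1)))
    (even_card c (r v1) hc)
  -- variables
  obtain ⟨f, hf⟩ : ∃ f : E → ℕ, f = fun e => ((ψ e : Fin _) : ℕ) := ⟨_, rfl⟩
  have hfinj : Function.Injective f := by
    intro e e' h
    rw [hf] at h
    exact ψ.injective (Fin.ext h)
  have hfM : ∀ v, f v < Dm * N := by
    intro e
    have h1 := hP.cE
    have h2 := (ψ e).isLt
    rw [hf]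
    show ((ψ e : Fin _) : ℕ) < _
    omega
  have hneV : Nonempty E := ⟨v0⟩
  have hgf : ∀ v, Function.invFun f (f v) = v := Function.leftInverse_invFun hfinj
  obtain ⟨y, hy⟩ : ∃ y : ℕ → Fm E, y = fun i => Pool.Agent.H90.UB.sgn (bn G ν a i)
    (Bal dd v0 (Yn G ν P (fun e : E => e) i)) := ⟨_, rfl⟩
  have hylen : ∀ i, (y i).len ≤ 6 * 4 ^ dd := by
    intro i
    rw [hy]
    have h1 := bal_len dd v0 (Yn G ν P (fun e : E => e) i)
    have h2 := len_sgn_le (bn G ν a i) (Bal dd v0 (Yn G ν P (fun e : E => e) i))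
    simp only
    omega
  have h4 : 1 ≤ 4 ^ dd := Nat.one_le_pow _ _ (by norm_num)
  obtain ⟨Λ, hΛ⟩ : ∃ Λ, Λ = 2 * Nat.size (Dm * N) + 2 := ⟨_, rfl⟩
  obtain ⟨σ, hσ⟩ : ∃ σ : ℕ → Fm ℕ, σ = fun i => (y i).ren f := ⟨_, rfl⟩
  have hσe : ∀ i, (σ i).enc.length ≤ 6 * 4 ^ dd * Λ := by
    intro i
    rw [hσ, hΛ]
    refine (enc_le f (Dm * N) hfM (y i)).trans ?_
    exact Nat.mul_le_mul_right _ (hylen i)
  have hσl : ∀ i, (σ i).len ≤ 6 * 4 ^ dd := by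
    intro i
    rw [hσ]
    show ((y i).ren f).len ≤ _
    rw [len_ren]
    exact hylen i
  obtain ⟨b, hb⟩ : ∃ b, b = 6 * 4 ^ dd * Λ := ⟨_, rfl⟩
  have hb1 : 1 ≤ b := by
    rw [hb, hΛ]
    exact Nat.mul_pos (by omega) (by omega)
  obtain ⟨M, hM⟩ : ∃ M, M = ℓ' * 4 ^ dd * Λ := ⟨_, rfl⟩
  have hbM : b ≤ M := by
    rw [hb, hM]
    exact Nat.mul_le_mul_right _ (Nat.mul_le_mul_right _ (by omega))
  obtain ⟨X, hX⟩ : ∃ X : Set (Fm E), X = Ax (S0 ℓ') (Set.range fun i => clp src tgt v0 (idx i)) :=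
    ⟨_, rfl⟩
  have hfull : ∀ ℓ2, ℓ2 ≤ ℓ' → Full ℓ2 X := by
    intro ℓ2 hℓ2 χ hχ σ'
    rw [hX]
    exact Or.inr ⟨χ, ⟨hχ.1.trans hℓ2, hχ.2⟩, σ', rfl⟩
  obtain ⟨s, hs⟩ : ∃ s, s = ℓ1 * 4 ^ dd := ⟨_, rfl⟩
  obtain ⟨n0, hn0⟩ : ∃ n0, n0 = (2 * 2 ^ Dm + 7 + Dm * (2 * dd + 4)) +
    (Δ * (2 * 2 ^ dd * (4 * dd + 6) + 3) + 2 * Δ + 10) := ⟨_, rfl⟩
  have hn0s : n0 + 1 ≤ s := by
    rw [hn0, hs, hℓ1]
    exact n0_le Δ Dm dd
  have hsM : s * Λ ≤ M := by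
    rw [hs, hM]
    exact Nat.mul_le_mul_right _ (Nat.mul_le_mul_right _ (by omega))
  -- the translated axioms
  have hax : ∀ S : Finset (MF ℕ), ∃ l1 : List (Fm E), Dr X l1 ∧
      (∀ A ∈ Ts Δ G ν c, ofFm A ∈ S → A.bind y ∈ l1) ∧ l1.length ≤ n0 * S.card ∧
      ∀ Z ∈ l1, Z.len ≤ s := by
    intro S
    induction S using Finset.induction_on with
    | empty =>
      exact ⟨[], Dr.nil, fun A _ h => absurd h (Finset.notMem_empty _), by simp,
        fun Z h => absurd h (by simp)⟩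
    | insert Z S hZ ih =>
      obtain ⟨l1, h1, h2, h3, h5⟩ := ih
      by_cases hA : ∃ A ∈ Ts Δ G ν c, ofFm A = Z
      · obtain ⟨A, hA1, hA2⟩ := hA
        obtain ⟨l2, k1, k2⟩ := axtr hP hdeg hν hr hPE hPJ hPκ ha (ι := fun e : E => e)
          (fun _ _ h => h) f (Function.invFun f) hgf (X := X) (s := s)
          (hfull _ (by omega)) (fun i => by
            rw [ren_id, hX]
            exact Or.inl ⟨i, rfl⟩) hκ hDm (by rw [hs, hℓ1]) v0 hA1 h1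
        rw [← hn0] at k1
        refine ⟨l2, k1.1, ?_, ?_, ?_⟩
        · intro A' hA' hA''
          rcases Finset.mem_insert.1 hA'' with h6 | h6
          · have h7 : A' = A := ofFm_inj (h6.trans hA2.symm)
            rw [h7, hy]
            exact k2
          · exact k1.2.1 _ (h2 A' hA' h6)
        · rw [Finset.card_insert_of_notMem hZ]
          have h6 := k1.2.2.1
          have h7 : n0 * (S.card + 1) = n0 * S.card + n0 := by ring
          omega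
        · intro Z' hZ'
          rcases k1.2.2.2.2 Z' hZ' with h6 | h6
          · exact h5 Z' h6
          · exact h6
      · refine ⟨l1, h1, ?_, ?_, h5⟩
        · intro A' hA' hA''
          rcases Finset.mem_insert.1 hA'' with h6 | h6
          · exact absurd ⟨A', hA', h6⟩ hA
          · exact h2 A' hA' h6
        · rw [Finset.card_insert_of_notMem hZ]
          exact h3.trans (Nat.mul_le_mul_left _ (Nat.le_succ _))
  obtain ⟨l1, hl1, hl2, hl3, hl4⟩ := hax F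
  rw [hX] at hl1
  have hdm0 : DM ℓ' {A | ∃ i, A = ofFm (C i)} ((l1.map fun A => A.ren f).map ofFm) := by
    have h1 := dm_of_dr (dr_ren (Γ2 := Set.range C) f (by
      rintro A ⟨i, rfl⟩
      refine ⟨i, ?_⟩
      rw [hP.eq i, hf]) hl1)
    have h2 : {A : MF ℕ | ∃ X ∈ Set.range C, A = ofFm X} = {A | ∃ i, A = ofFm (C i)} := by
      ext A
      constructor
      · rintro ⟨X, ⟨i, rfl⟩, h⟩
        exact ⟨i, h⟩
      · rintro ⟨i, h⟩
        exact ⟨C i, ⟨i, rfl⟩, h⟩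
    rw [h2] at h1
    exact h1
  have hHyp : ∀ i, pf i ∈ {A | ∃ X ∈ Ts Δ G ν c, A = ofFm X} →
      bindM σ (pf i) ∈ (l1.map fun A => A.ren f).map ofFm := by
    rintro i ⟨A, hA1, hA2⟩
    have h1 : A.bind y ∈ l1 := hl2 A hA1 (by rw [← hA2]; exact hpF i)
    rw [hA2, bindM_ofFm]
    refine List.mem_map.2 ⟨A.bind σ, List.mem_map.2 ⟨A.bind y, h1, ?_⟩, rfl⟩
    rw [ren_bind, hσ]
  obtain ⟨l, hd1, hd2, hd3, hd4⟩ := dm_ext (ℓ' := ℓ') (by omega) σ hpf hdm0 hHyp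
  obtain ⟨A0, hA0⟩ : ∃ A0, A0 = bindM σ (pf jL) := ⟨_, rfl⟩
  have hnA0 : bindM σ (pf iL) = MF.neg A0 := by
    rw [hij, hA0]
    rfl
  obtain ⟨τ, hτ⟩ : ∃ τ, τ = Fm.neg (bigAnd d C) := ⟨_, rfl⟩
  have hd5 := dm_last (by omega) hd1 (A := A0) (by rw [hA0]; exact hd3 jL)
    (by rw [← hnA0]; exact hd3 iL) (ofFm τ)
  obtain ⟨pf', hp1, hp2, hp3⟩ := dm_der hd5
  -- the exceptional formulas
  obtain ⟨Gs', hGs'⟩ : ∃ Gs' : Finset (Fm ℕ), Gs' = insert τ (Gs.image fun X => X.bind σ) :=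
    ⟨_, rfl⟩
  have hτG : τ ∈ Gs' := by
    rw [hGs']
    exact mem_insert_self _ _
  have hGbind : ∀ X ∈ Gs, X.bind σ ∈ Gs' := by
    intro X hX
    rw [hGs']
    exact mem_insert_of_mem (mem_image.2 ⟨X, hX, rfl⟩)
  -- the small formulas
  obtain ⟨R, hR⟩ : ∃ R : Finset (Fm ℕ), R = (l1.flatMap fun Z => (Z.ren f).subs).toFinset ∪
    F.biUnion fun Z => (vsub σ Z).toFinset := ⟨_, rfl⟩
  have hRm : ∀ Z, Z ∈ R ↔ (∃ Y ∈ l1, Z ∈ (Y.ren f).subs) ∨ ∃ i, MF.var i ∈ F ∧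
      Z ∈ (σ i).subs := by
    intro Z
    rw [hR, mem_union, List.mem_toFinset, List.mem_flatMap, mem_biUnion]
    refine or_congr Iff.rfl ⟨?_, ?_⟩
    · rintro ⟨Y, hY, h⟩
      rw [List.mem_toFinset] at h
      cases Y with
      | var i => exact ⟨i, hY, h⟩
      | neg _ => exact absurd h (List.not_mem_nil)
      | imp _ _ => exact absurd h (List.not_mem_nil)
      | mod _ _ _ _ => exact absurd h (List.not_mem_nil)
    · rintro ⟨i, hi, h⟩
      exact ⟨MF.var i, hi, List.mem_toFinset.2 h⟩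
  have hRcl : (∀ Z, Fm.neg Z ∈ R → Z ∈ R) ∧ ∀ Z Z', Fm.imp Z Z' ∈ R → Z ∈ R ∧ Z' ∈ R := by
    constructor
    · intro Z h
      rw [hRm] at h ⊢
      rcases h with ⟨Y, hY, h⟩ | ⟨i, hi, h⟩
      · exact Or.inl ⟨Y, hY, (Pool.Agent.H3.Ac.subs_cl _).1 Z h⟩
      · exact Or.inr ⟨i, hi, (Pool.Agent.H3.Ac.subs_cl _).1 Z h⟩
    · intro Z Z' h
      rw [hRm] at h
      rw [hRm, hRm]
      rcases h with ⟨Y, hY, h⟩ | ⟨i, hi, h⟩
      · have h1 := (Pool.Agent.H3.Ac.subs_cl _).2 Z Z' h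
        exact ⟨Or.inl ⟨Y, hY, h1.1⟩, Or.inl ⟨Y, hY, h1.2⟩⟩
      · have h1 := (Pool.Agent.H3.Ac.subs_cl _).2 Z Z' h
        exact ⟨Or.inr ⟨i, hi, h1.1⟩, Or.inr ⟨i, hi, h1.2⟩⟩
  have hRs : ∀ Z ∈ R, Z.enc.length ≤ M := by
    intro Z h
    rw [hRm] at h
    rcases h with ⟨Y, hY, h⟩ | ⟨i, hi, h⟩
    · refine (Pool.Agent.H3.Alg2.subs_enc _ Z h).trans (le_trans ?_ hsM)
      refine (enc_le f (Dm * N) hfM Y).trans ?_
      rw [← hΛ]
      exact Nat.mul_le_mul_right _ (hl4 Y hY)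
    · refine (Pool.Agent.H3.Alg2.subs_enc _ Z h).trans (le_trans (hσe i) ?_)
      rw [← hb]
      exact hbM
  have hRc : R.card ≤ n0 * F.card * s + F.card * (6 * 4 ^ dd) := by
    rw [hR]
    refine (card_union_le _ _).trans (Nat.add_le_add ?_ ?_)
    · refine (List.toFinset_card_le _).trans ?_
      refine (length_flat _ l1 (s := s) (fun Z hZ => ?_)).trans (Nat.mul_le_mul_right _ hl3)
      rw [Pool.Agent.H3.Ac.length_subs, len_ren]
      exact hl4 Z hZ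
    · refine card_biUnion_le_card_mul _ _ _ fun Z _ => ?_
      refine (List.toFinset_card_le _).trans ?_
      cases Z with
      | var i =>
        show (σ i).subs.length ≤ _
        rw [Pool.Agent.H3.Ac.length_subs]
        exact hσl i
      | neg _ => exact Nat.zero_le _
      | imp _ _ => exact Nat.zero_le _
      | mod _ _ _ _ => exact Nat.zero_le _
  -- the set of all formulas
  obtain ⟨F', hF'⟩ : ∃ F' : Finset (MF ℕ), F' = F.image (bindM σ) ∪ R.image ofFm ∪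
    {ofFm τ, MF.imp (MF.neg A0) (ofFm τ), MF.imp A0 (MF.imp (MF.neg A0) (ofFm τ))} := ⟨_, rfl⟩
  have hFm : ∀ A, A ∈ F' ↔ ((∃ Z ∈ F, bindM σ Z = A) ∨ ∃ Z ∈ R, ofFm Z = A) ∨ A = ofFm τ ∨
      A = MF.imp (MF.neg A0) (ofFm τ) ∨ A = MF.imp A0 (MF.imp (MF.neg A0) (ofFm τ)) := by
    intro A
    rw [hF', mem_union, mem_union, mem_image, mem_image, mem_insert, mem_insert, mem_singleton]
  have hFb : ∀ Z ∈ F, bindM σ Z ∈ F' := fun Z hZ => (hFm _).2 (Or.inl (Or.inl ⟨Z, hZ, rfl⟩))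
  have hFR : ∀ Z ∈ R, ofFm Z ∈ F' := fun Z hZ => (hFm _).2 (Or.inl (Or.inr ⟨Z, hZ, rfl⟩))
  have hFτ : ofFm τ ∈ F' := (hFm _).2 (Or.inr (Or.inl rfl))
  have hFA : A0 ∈ F' := by rw [hA0]; exact hFb _ (hpF jL)
  have hFnA : MF.neg A0 ∈ F' := by rw [← hnA0]; exact hFb _ (hpF iL)
  have hσR : ∀ i, MF.var i ∈ F → σ i ∈ R := fun i hi =>
    (hRm _).2 (Or.inr ⟨i, hi, Pool.Agent.H3.Ac.self_subs _⟩)
  have hF2 : MF.imp (MF.neg A0) (ofFm τ) ∈ F' := (hFm _).2 (Or.inr (Or.inr (Or.inl rfl)))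
  have hnotG : ∀ Z : MF ℕ, bindM σ Z ∉ {A | ∃ X ∈ Gs', A = ofFm X} →
      Z ∉ {A | ∃ X ∈ Gs, A = ofFm X} := by
    rintro Z h ⟨X, hX, rfl⟩
    exact h ⟨X.bind σ, hGbind X hX, bindM_ofFm σ X⟩
  refine ⟨Gs', F', _, pf', ?_, ⟨?_, ?_, ?_⟩, ?_, hp1, ?_, ?_, ?_⟩
  · rw [hGs']
    exact (card_insert_le _ _).trans (Nat.add_le_add_right (card_image_le.trans hGm) 1)
  · intro A hA hG'
    rw [mem_coe, hFm] at hA
    rcases hA with (⟨Z, hZ, h⟩ | ⟨Z, hZ, h⟩) | h | h | h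
    · cases Z with
      | var i =>
        obtain ⟨X', h1, h2⟩ := ofFm_neg (show ofFm (σ i) = MF.neg A from h)
        have h3 := hσR i hZ
        rw [h1] at h3
        rw [h2]
        exact hFR _ (hRcl.1 _ h3)
      | neg Z' =>
        have h1 : bindM σ Z' = A := MF.neg.inj (show MF.neg (bindM σ Z') = MF.neg A from h)
        rw [← h1]
        refine hFb _ (hClo.1 Z' hZ (hnotG _ ?_))
        rw [h]
        exact hG'
      | imp Z' Z'' => exact absurd h (by simp [bindM])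
      | mod q i n l' => exact absurd h (by simp [bindM])
    · obtain ⟨X', h1, h2⟩ := ofFm_neg h
      rw [h1] at hZ
      rw [h2]
      exact hFR _ (hRcl.1 _ hZ)
    · exact absurd ⟨τ, hτG, h⟩ hG'
    · exact absurd h (by simp)
    · exact absurd h (by simp)
  · intro A A' hA hG'
    rw [mem_coe, hFm] at hA
    rcases hA with (⟨Z, hZ, h⟩ | ⟨Z, hZ, h⟩) | h | h | h
    · cases Z with
      | var i =>
        obtain ⟨X', X'', h1, h2, h2'⟩ := ofFm_imp (show ofFm (σ i) = MF.imp A A' from h)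
        have h3 := hσR i hZ
        rw [h1] at h3
        rw [h2, h2']
        exact ⟨hFR _ (hRcl.2 _ _ h3).1, hFR _ (hRcl.2 _ _ h3).2⟩
      | neg Z' => exact absurd h (by simp [bindM])
      | imp Z' Z'' =>
        obtain ⟨h1, h2⟩ := MF.imp.inj
          (show MF.imp (bindM σ Z') (bindM σ Z'') = MF.imp A A' from h)
        have h3 := hClo.2.1 Z' Z'' hZ (hnotG _ (by rw [h]; exact hG'))
        rw [← h1, ← h2]
        exact ⟨hFb _ h3.1, hFb _ h3.2⟩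
      | mod q i n l' => exact absurd h (by simp [bindM])
    · obtain ⟨X', X'', h1, h2, h2'⟩ := ofFm_imp h
      rw [h1] at hZ
      rw [h2, h2']
      exact ⟨hFR _ (hRcl.2 _ _ hZ).1, hFR _ (hRcl.2 _ _ hZ).2⟩
    · exact absurd ⟨τ, hτG, h⟩ hG'
    · obtain ⟨h1, h2⟩ := MF.imp.inj h
      rw [h1, h2]
      exact ⟨hFnA, hFτ⟩
    · obtain ⟨h1, h2⟩ := MF.imp.inj h
      rw [h1, h2]
      exact ⟨hFA, hF2⟩
  · intro q i n l' hA j
    rw [mem_coe, hFm] at hA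
    rcases hA with (⟨Z, hZ, h⟩ | ⟨Z, hZ, h⟩) | h | h | h
    · cases Z with
      | var i' => exact absurd (show ofFm (σ i') = _ from h) (fun h => ofFm_mod h)
      | neg Z' => exact absurd h (by simp [bindM])
      | imp Z' Z'' => exact absurd h (by simp [bindM])
      | mod q' i' n' l'' =>
        have h1 : MF.mod q' i' n' (fun j => bindM σ (l'' j)) = MF.mod q i n l' := h
        obtain ⟨-, -, h2, h3⟩ := MF.mod.inj h1
        subst h2
        have h4 := eq_of_heq h3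
        rw [← h4]
        exact hFb _ (hClo.2.2 q' i' n' l'' hZ j)
    · exact absurd h (fun h => ofFm_mod h)
    · exact absurd h.symm (fun h => ofFm_mod h)
    · exact absurd h (by simp)
    · exact absurd h (by simp)
  · -- levels
    rw [← hΛ, ← hM]
    have hBM : (M : ℝ) ≤ B * (M : ℝ) := by
      have : (0 : ℝ) ≤ (M : ℝ) := Nat.cast_nonneg _
      nlinarith
    have hP1 : ∀ A : MF ℕ, ((msz A : ℝ) ≤ B ∨ ∃ X ∈ Gs, A = ofFm X) →
        ((msz (bindM σ A) : ℝ) ≤ B * (M : ℝ) ∨ ∃ X ∈ Gs', bindM σ A = ofFm X) := by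
      rintro A (h | ⟨X, hX, rfl⟩)
      · left
        have h1 := msz_bindM σ hb1 (fun i => by rw [hb]; exact hσe i) A
        have h2 : (msz (bindM σ A) : ℝ) ≤ (msz A : ℝ) * (b : ℝ) := by exact_mod_cast h1
        have h3 : (b : ℝ) ≤ (M : ℝ) := by exact_mod_cast hbM
        have h5 : (0 : ℝ) ≤ (b : ℝ) := Nat.cast_nonneg _
        calc (msz (bindM σ A) : ℝ) ≤ (msz A : ℝ) * (b : ℝ) := h2
          _ ≤ B * (b : ℝ) := mul_le_mul_of_nonneg_right h h5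
          _ ≤ B * (M : ℝ) := mul_le_mul_of_nonneg_left h3 (by linarith)
      · exact Or.inr ⟨X.bind σ, hGbind X hX, bindM_ofFm σ X⟩
    have hPv : ∀ i, ((msz (ofFm (σ i)) : ℝ) ≤ B * (M : ℝ) ∨ ∃ X ∈ Gs', ofFm (σ i) = ofFm X) := by
      intro i
      left
      rw [msz_ofFm]
      have h1 : ((σ i).enc.length : ℝ) ≤ (M : ℝ) := by
        have h1' : (σ i).enc.length ≤ M := le_trans (hσe i) (by rw [← hb]; exact hbM)
        exact_mod_cast h1'
      linarith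
    have hPR : ∀ Z ∈ R, ((msz (ofFm Z) : ℝ) ≤ B * (M : ℝ) ∨ ∃ X ∈ Gs', ofFm Z = ofFm X) := by
      intro Z hZ
      left
      rw [msz_ofFm]
      have h1 : (Z.enc.length : ℝ) ≤ (M : ℝ) := by exact_mod_cast hRs Z hZ
      linarith
    have hPτ : ((msz (ofFm τ) : ℝ) ≤ B * (M : ℝ) ∨ ∃ X ∈ Gs', ofFm τ = ofFm X) :=
      Or.inr ⟨τ, hτG, rfl⟩
    have hlast : ∃ p : ℕ, p.Prime ∧ p ≠ 2 ∧
        Lv (fun A => (msz A : ℝ) ≤ B * (M : ℝ) ∨ ∃ X ∈ Gs', A = ofFm X)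
          (fun q => q ≤ m + 1 ∧ ∃ e, q = p ^ e) (Dd + 1) (m + 1) t
          (MF.imp (MF.neg A0) (ofFm τ)) ∧
        Lv (fun A => (msz A : ℝ) ≤ B * (M : ℝ) ∨ ∃ X ∈ Gs', A = ofFm X)
          (fun q => q ≤ m + 1 ∧ ∃ e, q = p ^ e) (Dd + 1) (m + 1) t
          (MF.imp A0 (MF.imp (MF.neg A0) (ofFm τ))) := by
      obtain ⟨p, hp, hp', h1⟩ := hLv _ (hpF iL)
      obtain ⟨p2, -, -, h2⟩ := hLv _ (hpF jL)
      refine ⟨p, hp, hp', ?_⟩
      have h3 := Lv_sub (B := pf jL) h1 (Lv_dep h2) (fun Z hZ => by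
        rw [hij]
        exact hZ)
      have h5 := lv_bindM σ (P' := fun A => (msz A : ℝ) ≤ B * (M : ℝ) ∨ ∃ X ∈ Gs', A = ofFm X)
        hP1 hPv t _ h1
      have h6 := lv_bindM σ (P' := fun A => (msz A : ℝ) ≤ B * (M : ℝ) ∨ ∃ X ∈ Gs', A = ofFm X)
        hP1 hPv t _ h3
      rw [hnA0] at h5
      rw [← hA0] at h6
      obtain ⟨h7, h8⟩ := lv_last h6 h5 (T := τ) hPτ
      exact ⟨lv_q (fun q hq => ⟨hq.1.trans (Nat.le_succ _), hq.2⟩) (Nat.le_succ _) t _ h7,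
        lv_q (fun q hq => ⟨hq.1.trans (Nat.le_succ _), hq.2⟩) (Nat.le_succ _) t _ h8⟩
    intro A hA
    rw [hFm] at hA
    rcases hA with (⟨Z, hZ, rfl⟩ | ⟨Z, hZ, rfl⟩) | rfl | rfl | rfl
    · obtain ⟨p, hp, hp', h1⟩ := hLv Z hZ
      refine ⟨p, hp, hp', ?_⟩
      have h5 := lv_bindM σ (P' := fun A => (msz A : ℝ) ≤ B * (M : ℝ) ∨ ∃ X ∈ Gs', A = ofFm X)
        hP1 hPv t _ h1
      exact lv_mono2 (fun _ h => h) (fun q hq => ⟨hq.1.trans (Nat.le_succ _), hq.2⟩)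
        (Nat.le_succ _) t _ h5
    · exact ⟨3, Nat.prime_three, by norm_num, Lv_ofFm t (hPR Z hZ)⟩
    · exact ⟨3, Nat.prime_three, by norm_num, Lv_ofFm t hPτ⟩
    · obtain ⟨p, hp, hp', h1, h2⟩ := hlast
      exact ⟨p, hp, hp', h1⟩
    · obtain ⟨p, hp, hp', h1, h2⟩ := hlast
      exact ⟨p, hp, hp', h2⟩
  · intro i
    have h1 := hp2 i
    rw [List.mem_cons, List.mem_cons, List.mem_cons] at h1
    rcases h1 with h1 | h1 | h1 | h1
    · rw [h1]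
      exact hFτ
    · rw [h1]
      exact hF2
    · rw [h1]
      exact (hFm _).2 (Or.inr (Or.inr (Or.inr rfl)))
    · rcases hd4 _ h1 with h2 | ⟨k, h2⟩
      · obtain ⟨Z, hZ, h3⟩ := List.mem_map.1 h2
        obtain ⟨Y, hY, h5⟩ := List.mem_map.1 hZ
        rw [← h3]
        refine hFR _ ((hRm _).2 (Or.inl ⟨Y, hY, ?_⟩))
        rw [← h5]
        exact Pool.Agent.H3.Ac.self_subs _
      · rw [h2]
        exact hFb _ (hpF k)
  · obtain ⟨i, hi⟩ := hp3 (ofFm τ) List.mem_cons_self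
    exact ⟨i, by rw [hi, hτ]⟩
  · have hF0 : 1 ≤ F.card := Finset.card_pos.2 ⟨_, hpF iL⟩
    have h1 : F'.card ≤ F.card + R.card + 3 := by
      rw [hF']
      refine (card_union_le _ _).trans (Nat.add_le_add ?_ card_le_three)
      exact (card_union_le _ _).trans (Nat.add_le_add card_image_le card_image_le)
    have h16 : (16 : ℕ) ^ dd = 4 ^ dd * 4 ^ dd := by rw [← mul_pow]; norm_num
    have h2 : 4 ^ dd ≤ 16 ^ dd := Nat.pow_le_pow_left (by norm_num) dd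
    have h3 : n0 * F.card * s ≤ F.card * (ℓ1 * ℓ1 * 16 ^ dd) := by
      calc n0 * F.card * s ≤ s * F.card * s := by gcongr; omega
        _ = F.card * (ℓ1 * ℓ1 * 16 ^ dd) := by rw [hs, h16]; ring
    have h5 : F.card * (6 * 4 ^ dd) ≤ F.card * (6 * 16 ^ dd) := by gcongr
    have h6 : F.card * 1 ≤ F.card * 16 ^ dd := Nat.mul_le_mul_left _ (by omega)
    calc F'.card ≤ F.card + R.card + 3 := h1
      _ ≤ F.card + (n0 * F.card * s + F.card * (6 * 4 ^ dd)) + 3 * F.card := by omega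
      _ ≤ F.card * 16 ^ dd + (F.card * (ℓ1 * ℓ1 * 16 ^ dd) + F.card * (6 * 16 ^ dd)) +
          3 * (F.card * 16 ^ dd) := by omega
      _ = F.card * ((ℓ1 * ℓ1 + 10) * 16 ^ dd) := by ring
      _ ≤ F.card * (ℓ' * 16 ^ dd) := by
          refine Nat.mul_le_mul_left _ (Nat.mul_le_mul_right _ ?_)
          omega

end Pool.Agent.H55.AG
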