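import Mathlib
import Pool.Agent.H55.AG.NumG

set_option autoImplicit false

/-!
# Module NUMM: the numbers for AG2

PROOF. As `numg` in `NumG.lean` (the same `P := A * (Nat.log 2 w + 1) ^ 4`, `N ≥ w / P ≥ w ^ (1 - δ)` with `δ` small against `θ' - θ`, `ε1`, `1 / 100`;
`polylog`). First: `M * w ^ θ ≤ w ^ (θ + δ)` and `N ^ θ' ≥ w ^ (θ' (1 - δ)) ≥ w ^ (θ' - 2 δ)` (`0 ≤ θ' ≤ 2`).
-/

namespace Pool.Agent.H55.AG

open Filter Topology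

theorem numm (θ θ' ε1 : ℝ) (h1 : θ < θ') (h0 : 0 ≤ θ') (h2 : θ' ≤ 2) (hε1 : 0 < ε1) (A B : ℕ) :
    ∀ᶠ w : ℕ in atTop, ∀ N : ℕ, w < A * N * (Nat.log 2 w + 1) ^ 4 → N ≤ w →
      ∀ M : ℕ, M ≤ A * (Nat.log 2 w + 1) ^ B →
      (w : ℝ) ^ θ * (M : ℝ) ≤ (N : ℝ) ^ θ' ∧ (w : ℝ) ^ (ε1 / 2) + M ≤ (N : ℝ) ^ ε1 := by
  obtain ⟨δ, hδ, hδe, hδ1, hδε⟩ : ∃ δ : ℝ, 0 < δ ∧ δ ≤ (θ' - θ) / 100 ∧ δ ≤ 1 / 100 ∧
      δ ≤ ε1 / 100 := by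
    have hθ : 0 < θ' - θ := sub_pos.mpr h1
    exact ⟨min ((θ' - θ) / 100) (min (1 / 100) (ε1 / 100)), by positivity, min_le_left _ _,
      (min_le_right _ _).trans (min_le_left _ _), (min_le_right _ _).trans (min_le_right _ _)⟩
  filter_upwards [polylog A 4 δ hδ, polylog A B δ hδ,
    polylog 2 0 (ε1 / 100) (by positivity), eventually_ge_atTop 1] with w k1 k2 k4 hw1
  intro N hN hNw M hM
  have hw : (1 : ℝ) ≤ (w : ℝ) := by exact_mod_cast hw1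
  have hw0 : (0 : ℝ) < (w : ℝ) := by linarith
  have k4' : (2 : ℝ) ≤ (w : ℝ) ^ (ε1 / 100) := by
    simpa using k4
  have hM' : (M : ℝ) ≤ (w : ℝ) ^ δ := le_trans (by exact_mod_cast hM) k2
  -- N is large
  have hN1 : (w : ℝ) ^ (1 - δ) ≤ N := by
    have h5 : (w : ℝ) ≤ (w : ℝ) ^ δ * N := by
      have h6 : (w : ℝ) ≤ ((A * (Nat.log 2 w + 1) ^ 4 : ℕ) : ℝ) * N := by
        have h7 : w ≤ A * (Nat.log 2 w + 1) ^ 4 * N := by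
          calc w ≤ A * N * (Nat.log 2 w + 1) ^ 4 := hN.le
            _ = A * (Nat.log 2 w + 1) ^ 4 * N := by ring
        exact_mod_cast h7
      exact h6.trans (mul_le_mul_of_nonneg_right k1 (Nat.cast_nonneg _))
    have h8 : (0 : ℝ) < (w : ℝ) ^ δ := Real.rpow_pos_of_pos hw0 _
    rw [Real.rpow_sub hw0, Real.rpow_one, div_le_iff₀ h8]
    linarith [mul_comm (N : ℝ) ((w : ℝ) ^ δ)]
  have hmono : ∀ x y : ℝ, x ≤ y → (w : ℝ) ^ x ≤ (w : ℝ) ^ y := fun x y h =>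
    Real.rpow_le_rpow_of_exponent_le hw h
  have hNpow : ∀ s : ℝ, 0 ≤ s → (w : ℝ) ^ ((1 - δ) * s) ≤ (N : ℝ) ^ s := by
    intro s hs
    rw [Real.rpow_mul hw0.le]
    exact Real.rpow_le_rpow (Real.rpow_nonneg hw0.le _) hN1 hs
  refine ⟨?_, ?_⟩
  · calc (w : ℝ) ^ θ * (M : ℝ) ≤ (w : ℝ) ^ θ * (w : ℝ) ^ δ :=
          mul_le_mul_of_nonneg_left hM' (Real.rpow_nonneg hw0.le _)
      _ = (w : ℝ) ^ (θ + δ) := by rw [Real.rpow_add hw0]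
      _ ≤ (w : ℝ) ^ ((1 - δ) * θ') := by
          refine hmono _ _ ?_
          have h5 : δ * θ' ≤ δ * 2 := mul_le_mul_of_nonneg_left h2 hδ.le
          have h6 : (1 - δ) * θ' = θ' - δ * θ' := by ring
          rw [h6]
          linarith
      _ ≤ (N : ℝ) ^ θ' := hNpow _ h0
  · have h5 : (w : ℝ) ^ (ε1 / 2) ≤ (w : ℝ) ^ (3 * ε1 / 5) := hmono _ _ (by linarith)
    have h6 : (M : ℝ) ≤ (w : ℝ) ^ (3 * ε1 / 5) := hM'.trans (hmono _ _ (by linarith))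
    calc (w : ℝ) ^ (ε1 / 2) + M ≤ 2 * (w : ℝ) ^ (3 * ε1 / 5) := by linarith
      _ ≤ (w : ℝ) ^ (ε1 / 100) * (w : ℝ) ^ (3 * ε1 / 5) :=
          mul_le_mul_of_nonneg_right k4' (Real.rpow_nonneg hw0.le _)
      _ = (w : ℝ) ^ (ε1 / 100 + 3 * ε1 / 5) := by rw [Real.rpow_add hw0]
      _ ≤ (w : ℝ) ^ ((1 - δ) * ε1) := by
          refine hmono _ _ ?_
          have h7 : δ * ε1 ≤ 1 / 100 * ε1 := mul_le_mul_of_nonneg_right hδ1 hε1.le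
          have h8 : (1 - δ) * ε1 = ε1 - δ * ε1 := by ring
          rw [h8]
          linarith
      _ ≤ (N : ℝ) ^ ε1 := hNpow _ hε1.le

end Pool.Agent.H55.AG
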