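import Mathlib
import Pool.Agent.H55.AG.MGA
import Pool.Agent.H55.AG.NumM
import Pool.Agent.H55.AG.MFam
import Pool.Agent.H55.AG.Embed

set_option autoImplicit false
set_option linter.unusedSectionVars false

/-!
# Module MGB: bounded depth over short formulas and few counting gates, all graphs

PROOF. As module GLBB (same choice of `n`, `embed`, `κ`, `dd`; copy from there when it is proved). `θ1 := max θ 0`, `θ' := (θ1 + 2) / 2`, `θ1 < θ' < 2`;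
`mfam θ' (D + 1) t` gives `k, cc, ε1, d, C, Nf`; `embed Δ k` gives `Ce`; `ε := min (ε1 / 2) 1`. `mga Δ k ℓ` gives `ℓ'`.
`B := w ^ θ1 ≥ 1` (`Lv_mono`: `msz A ≤ w ^ θ ≤ w ^ θ1`). `M := ℓ' * 4 ^ dd * (2 * Nat.size (k * Nf n) + 2) ≤ const * (Nat.log 2 w + 1) ^ 3`, `w ^ θ1 * M ≤ Nf n ^ θ'` (`numm`),
`m + 1 ≤ w ^ ε + 1 ≤ Nf n ^ ε1`. So `2 ^ (Nf n ^ ε1) ≤ F'.card ≤ F.card * (ℓ' * 16 ^ dd) ≤ F.card * 2 ^ M₁`, `w ^ ε + M₁ ≤ Nf n ^ ε1` with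
`M₁ := Nat.clog 2 (ℓ' * 16 ^ dd) ≤ const * (Nat.log 2 w + 1)`.
-/

namespace Pool.Agent.H55.AG

open Finset Classical Filter Topology Pool.Agent.H3.Frg Pool.Agent.H3.Frg2 Pool.Agent.H3.Frg4
  Pool.Agent.H3.Md Pool.Agent.H90.UB

private theorem mgb_pick {Ce cc n1 w X : ℕ} {Nf : ℕ → ℕ} (hNf : ∀ n, 2 ^ n ≤ Nf n)
    (hcc : ∀ n, Nf (n + 1) ≤ cc * Nf n) (hCe : 1 ≤ Ce) (hX : 1 ≤ X)
    (h1 : Ce * Nf n1 * X ≤ w) :
    ∃ n, n1 ≤ n ∧ Ce * Nf n * X ≤ w ∧ w < Ce * cc * Nf n * X := by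
  by_contra hcon
  push Not at hcon
  have hall : ∀ n, n1 ≤ n → Ce * Nf n * X ≤ w := by
    intro n hn
    induction n, hn using Nat.le_induction with
    | base => exact h1
    | succ n hn ih =>
      refine le_trans ?_ (hcon n hn ih)
      calc Ce * Nf (n + 1) * X ≤ Ce * (cc * Nf n) * X :=
            Nat.mul_le_mul_right _ (Nat.mul_le_mul_left _ (hcc n))
        _ = Ce * cc * Nf n * X := by ring
  have h3 := hall (max n1 w) (le_max_left _ _)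
  have h4 : w < Nf (max n1 w) := lt_of_lt_of_le Nat.lt_two_pow_self
    ((Nat.pow_le_pow_right (by norm_num) (le_max_right _ _)).trans (hNf _))
  have h5 : Nf (max n1 w) ≤ Ce * Nf (max n1 w) * X :=
    (Nat.le_mul_of_pos_left _ hCe).trans (Nat.le_mul_of_pos_right _ hX)
  omega

private theorem mgb_dd {Δ k Ce lg dd : ℕ} (hlg : 1 ≤ lg)
    (hdd : dd = Nat.size (Δ * (Ce * lg) + k)) :
    Δ * (Ce * lg) ≤ 2 ^ dd ∧ k ≤ 2 ^ dd ∧ 2 ^ dd ≤ 2 * (Δ * Ce + k + 1) * lg := by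
  have h1 : Δ * (Ce * lg) + k < 2 ^ dd := by
    rw [hdd]
    exact Nat.lt_size_self _
  refine ⟨by omega, by omega, ?_⟩
  have h2 : 2 ^ dd ≤ 2 * (Δ * (Ce * lg) + k) + 1 := by
    rcases Nat.eq_zero_or_pos dd with h | h
    · rw [h]
      omega
    · obtain ⟨e, he⟩ : ∃ e, dd = e + 1 := ⟨dd - 1, by omega⟩
      have h3 : e < Nat.size (Δ * (Ce * lg) + k) := by omega
      have h4 := Nat.lt_size.1 h3
      rw [he, pow_succ]
      omega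
  have h5 : k ≤ k * lg := Nat.le_mul_of_pos_right _ hlg
  have h6 : 2 * (Δ * Ce + k + 1) * lg = 2 * (Δ * (Ce * lg)) + 2 * (k * lg) + 2 * lg := by ring
  omega

private theorem mgb_M {ℓ' k N w lg dd a : ℕ} (hlg : 1 ≤ lg) (hwlg : w < 2 ^ lg) (hN : N ≤ w)
    (ha : 2 ^ dd ≤ a * lg) :
    ℓ' * 4 ^ dd * (2 * Nat.size (k * N) + 2) ≤ ℓ' * a ^ 2 * (2 * k + 4) * lg ^ 3 := by
  have h1 : Nat.size (k * N) ≤ k + lg := by
    rw [Nat.size_le, pow_add]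
    have h2 : k < 2 ^ k := Nat.lt_two_pow_self
    calc k * N ≤ 2 ^ k * N := Nat.mul_le_mul_right _ h2.le
      _ < 2 ^ k * 2 ^ lg := Nat.mul_lt_mul_of_pos_left (by omega) (by positivity)
  have h3 : k ≤ k * lg := Nat.le_mul_of_pos_right _ hlg
  have h4 : 2 * Nat.size (k * N) + 2 ≤ (2 * k + 4) * lg := by
    have h5 : (2 * k + 4) * lg = 2 * (k * lg) + 4 * lg := by ring
    omega
  have h6 : 4 ^ dd ≤ (a * lg) ^ 2 := by
    have h7 : (4 : ℕ) ^ dd = (2 ^ dd) ^ 2 := by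
      rw [← pow_mul, mul_comm, pow_mul]
      norm_num
    rw [h7]
    exact Nat.pow_le_pow_left ha 2
  calc ℓ' * 4 ^ dd * (2 * Nat.size (k * N) + 2)
      ≤ ℓ' * (a * lg) ^ 2 * ((2 * k + 4) * lg) :=
        Nat.mul_le_mul (Nat.mul_le_mul_left _ h6) h4
    _ = ℓ' * a ^ 2 * (2 * k + 4) * lg ^ 3 := by ring

private theorem mgb_M1 {ℓ' dd a lg : ℕ} (hlg : 1 ≤ lg) (ha : 2 ^ dd ≤ a * lg) :
    ℓ' * 16 ^ dd ≤ 2 ^ (ℓ' + 4 * dd) ∧ ℓ' + 4 * dd ≤ (ℓ' + 4 * a) * lg ^ 3 := by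
  constructor
  · have h1 : (16 : ℕ) ^ dd = 2 ^ (4 * dd) := by
      rw [pow_mul]
      norm_num
    rw [h1, pow_add]
    exact Nat.mul_le_mul_right _ Nat.lt_two_pow_self.le
  · have h2 : dd < 2 ^ dd := Nat.lt_two_pow_self
    have h3 : dd ≤ a * lg := by omega
    have h4 : ℓ' ≤ ℓ' * lg := Nat.le_mul_of_pos_right _ hlg
    have h5 : lg ≤ lg ^ 3 := Nat.le_self_pow (by norm_num) _
    calc ℓ' + 4 * dd ≤ ℓ' * lg + 4 * (a * lg) := by omega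
      _ = (ℓ' + 4 * a) * lg := by ring
      _ ≤ (ℓ' + 4 * a) * lg ^ 3 := Nat.mul_le_mul_left _ h5

theorem mgb (Δ : ℕ) (θ : ℝ) (hθ : θ < 2) (D t : ℕ) : ∃ ε : ℝ, 0 < ε ∧ ∀ ℓ : ℕ, ∃ w0 : ℕ,
    ∀ w, w0 ≤ w →
    ∀ (V : Type) [Fintype V] (G : SimpleGraph V), G.Connected → (∀ v, (nbG G v).card ≤ Δ) →
    ¬ TwLE G w → ∀ (ν : Sym2 V → ℕ), Set.InjOn ν G.edgeSet →
    ∀ (c : V → Bool), Odd (univ.filter fun v => c v = true).card →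
    ∀ m : ℕ, (m : ℝ) ≤ (w : ℝ) ^ ε → ∀ (Gs : Finset (Fm ℕ)) (F : Finset (MF ℕ)), Gs.card ≤ m →
    CloM {A | ∃ X ∈ Gs, A = ofFm X} (F : Set (MF ℕ)) →
    (∀ A ∈ F, ∃ p : ℕ, p.Prime ∧ p ≠ 2 ∧
      Lv (fun A => (msz A : ℝ) ≤ (w : ℝ) ^ θ ∨ ∃ X ∈ Gs, A = ofFm X)
        (fun q => q ≤ m ∧ ∃ e, q = p ^ e) D m t A) →
    ∀ (L : ℕ) (pf : Fin L → MF ℕ), MDer ℓ {A | ∃ X ∈ Ts Δ G ν c, A = ofFm X} pf →
    (∀ i, pf i ∈ F) → (∃ i j, pf i = MF.neg (pf j)) →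
    (2 : ℝ) ^ ((w : ℝ) ^ ε) ≤ F.card := by
  obtain ⟨θ1, hθ1⟩ : ∃ θ1 : ℝ, θ1 = max θ 0 := ⟨_, rfl⟩
  have h10 : 0 ≤ θ1 := by rw [hθ1]; exact le_max_right _ _
  have h11 : θ ≤ θ1 := by rw [hθ1]; exact le_max_left _ _
  have h12 : θ1 < 2 := by rw [hθ1]; exact max_lt hθ (by norm_num)
  obtain ⟨θ', hθ'⟩ : ∃ θ' : ℝ, θ' = (θ1 + 2) / 2 := ⟨_, rfl⟩
  have h13 : θ1 < θ' := by linarith
  have h14 : θ' < 2 := by linarith
  obtain ⟨k, cc, ε1, hε1, d, C, Nf, hNf, hfam⟩ := mfam θ' h14 (D + 1) t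
  obtain ⟨Ce, hCe1, hemb⟩ := embed Δ k
  obtain ⟨ε, hε⟩ : ∃ ε : ℝ, ε = min (ε1 / 2) 1 := ⟨_, rfl⟩
  have hε0 : 0 < ε := by
    rw [hε]
    exact lt_min (by linarith) one_pos
  have hεle : ε ≤ ε1 / 2 := by
    rw [hε]
    exact min_le_left _ _
  refine ⟨ε, hε0, fun ℓ => ?_⟩
  obtain ⟨ℓ', hmga⟩ := mga Δ k ℓ
  obtain ⟨n1, hn1⟩ := eventually_atTop.1 (hfam ℓ')
  obtain ⟨a, ha⟩ : ∃ a : ℕ, a = 2 * (Δ * Ce + k + 1) := ⟨_, rfl⟩
  obtain ⟨A0, hA0⟩ : ∃ A0 : ℕ, A0 = Ce * cc + ℓ' * a ^ 2 * (2 * k + 4) + (ℓ' + 4 * a) + 1 :=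
    ⟨_, rfl⟩
  obtain ⟨w1, hw1⟩ := eventually_atTop.1 (numm θ1 θ' ε1 h13 (by linarith) h14.le hε1 A0 3)
  obtain ⟨w2, hw2⟩ := eventually_atTop.1 (polylog (Ce * Nf n1) 4 1 one_pos)
  refine ⟨max (max w1 w2) 1, ?_⟩
  intro w hw V _ G hG hdeg htw ν hν c hc m hm Gs F hGs hF hFL L pf hpf hpF hfin
  have hww1 : w1 ≤ w := le_trans (le_trans (le_max_left _ _) (le_max_left _ _)) hw
  have hww2 : w2 ≤ w := le_trans (le_trans (le_max_right _ _) (le_max_left _ _)) hw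
  have hw0 : 1 ≤ w := le_trans (le_max_right _ _) hw
  have hwR : (1 : ℝ) ≤ (w : ℝ) := by exact_mod_cast hw0
  have hnum := hw1 w hww1
  have hpl := hw2 w hww2
  obtain ⟨lg, hlg⟩ : ∃ lg : ℕ, lg = Nat.log 2 w + 1 := ⟨_, rfl⟩
  have hlg1 : 1 ≤ lg := by omega
  have hwlg : w < 2 ^ lg := by
    rw [hlg]
    exact Nat.lt_pow_succ_log_self (by norm_num) w
  rw [← hlg] at hnum hpl
  rw [Real.rpow_one] at hpl
  have hX : 1 ≤ lg ^ 4 := Nat.one_le_pow _ _ hlg1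
  obtain ⟨n, hn1n, hnP, hnA⟩ := mgb_pick (fun n => (hNf n).1) (fun n => (hNf n).2.2) hCe1 hX
    (show Ce * Nf n1 * lg ^ 4 ≤ w by exact_mod_cast hpl)
  obtain ⟨E, Wv, _, _, _, _, src, tgt, v1, v0, ψ, idx, hP⟩ := (hNf n).2.1
  have hNw : Nf n ≤ w := by
    refine le_trans ?_ hnP
    exact (Nat.le_mul_of_pos_left _ hCe1).trans (Nat.le_mul_of_pos_right _ hX)
  have hE := hemb w V G hdeg htw E Wv src tgt hP.loop (by
    intro u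
    refine le_trans (card_le_card ?_) (hP.deg u)
    intro e he
    have he2 : src e = u ∨ tgt e = u := by
      simp only [mem_filter] at he
      exact he.2
    rw [mem_bd, mem_singleton, mem_singleton]
    have hl := hP.loop e
    rcases he2 with h1 | h1
    · intro h2
      exact hl (h1.trans (h2.1 h1).symm)
    · intro h2
      exact hl ((h2.2 h1).trans h1.symm)) (by
    rw [hP.cW, ← hlg]
    exact hnP)
  obtain ⟨r, P, hr, hPe, hPj, hPc⟩ := hE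
  rw [← hlg] at hPc
  obtain ⟨dd, hdd⟩ : ∃ dd : ℕ, dd = Nat.size (Δ * (Ce * lg) + k) := ⟨_, rfl⟩
  obtain ⟨hd1, hd2, hd3⟩ := mgb_dd hlg1 hdd
  rw [← ha] at hd3
  have hB1 : (1 : ℝ) ≤ (w : ℝ) ^ θ1 := Real.one_le_rpow hwR h10
  obtain ⟨Gs', F', L', pf', hGs', hF', hFL', hpf', hpF', hex', hcard⟩ :=
    hmga E Wv src tgt v1 v0 ψ idx (Nf n) (C n) hP V G hG hdeg ν hν c hc r P (Ce * lg) dd hr hPe
      hPj hPc hd1 hd2 ((w : ℝ) ^ θ1) hB1 D t m Gs F hGs hF (by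
        intro A hA
        obtain ⟨p, hp, hp2, h⟩ := hFL A hA
        refine ⟨p, hp, hp2, Lv_mono (fun Y hY => ?_) t h⟩
        rcases hY with hY | hY
        · exact Or.inl (hY.trans (Real.rpow_le_rpow_of_exponent_le hwR h11))
        · exact Or.inr hY) L pf hpf hpF hfin (d n)
  have hcond : w < A0 * Nf n * lg ^ 4 := by
    refine lt_of_lt_of_le hnA ?_
    refine Nat.mul_le_mul_right _ (Nat.mul_le_mul_right _ ?_)
    rw [hA0]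
    omega
  have hX3 : 1 ≤ lg ^ 3 := Nat.one_le_pow _ _ hlg1
  -- the three uses of the numbers
  have hM := hnum (Nf n) hcond hNw (ℓ' * 4 ^ dd * (2 * Nat.size (k * Nf n) + 2)) (by
    refine (mgb_M hlg1 hwlg hNw hd3).trans (Nat.mul_le_mul_right _ ?_)
    rw [hA0]
    omega)
  have hone := hnum (Nf n) hcond hNw 1 (by
    have h1 : 1 ≤ A0 := by
      rw [hA0]
      omega
    exact Nat.mul_le_mul h1 hX3 |>.trans' (by norm_num))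
  obtain ⟨h16a, h16b⟩ := mgb_M1 (ℓ' := ℓ') hlg1 hd3
  have hM1 := hnum (Nf n) hcond hNw (ℓ' + 4 * dd) (by
    refine h16b.trans (Nat.mul_le_mul_right _ ?_)
    rw [hA0]
    omega)
  have hwε : (w : ℝ) ^ ε ≤ (w : ℝ) ^ (ε1 / 2) := Real.rpow_le_rpow_of_exponent_le hwR hεle
  have hbig := hn1 n hn1n (m + 1) (by
    have h1 := hone.2
    push_cast at h1 ⊢
    linarith) Gs' F' hGs' hF' (by
      intro A hA
      obtain ⟨p, hp, hp2, h⟩ := hFL' A hA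
      refine ⟨p, hp, hp2, Lv_mono (fun Y hY => ?_) t h⟩
      rcases hY with hY | hY
      · exact Or.inl (hY.trans hM.1)
      · exact Or.inr hY) L' pf' hpf' hpF' hex'
  have hFc : (F'.card : ℝ) ≤ (F.card : ℝ) * (2 : ℝ) ^ (((ℓ' + 4 * dd : ℕ) : ℝ)) := by
    rw [Real.rpow_natCast]
    have h1 : F'.card ≤ F.card * 2 ^ (ℓ' + 4 * dd) :=
      hcard.trans (Nat.mul_le_mul_left _ h16a)
    exact_mod_cast h1
  have h2pos : (0 : ℝ) < (2 : ℝ) ^ (((ℓ' + 4 * dd : ℕ) : ℝ)) := by positivity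
  refine le_of_mul_le_mul_right ?_ h2pos
  rw [← Real.rpow_add two_pos]
  refine le_trans (Real.rpow_le_rpow_of_exponent_le (by norm_num) ?_) (hbig.trans hFc)
  have h1 := hM1.2
  linarith

end Pool.Agent.H55.AG
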